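import Pool.Agent.Dim7.Iface
import Pool.Agent.H337R2.LZ.A3
import Pool.Agent.H337R2.LZ.A5

/-! Assembly of the archimedean part, with the statements of the other tasks as hypotheses
(port of `H574R2.D9.AM`). -/

open Polynomial Pool.Agent.H337R2 Filter Topology

namespace Pool.Agent.Dim7

noncomputable section

namespace AM

lemma wv_pos (n : ℕ) {v : ℕ} (hv : 0 < v) : 0 < wv n v := by
  unfold wv
  have : (0 : ℝ) < v := by exact_mod_cast hv
  positivity

lemma three_le {n : ℕ} (hn : 6 ≤ n) : (6 : ℝ) ≤ n := by exact_mod_cast hn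

lemma log2_le {n : ℕ} (hn : 6 ≤ n) : Real.log 2 ≤ Real.log n :=
  Real.log_le_log (by norm_num) (by linarith [three_le hn])

/-- any constant is `O(log n)` -/
lemma const_le (c : ℝ) : ∃ K : ℝ, 0 ≤ K ∧ ∀ n : ℕ, 6 ≤ n → c ≤ K * Real.log n := by
  have hl2 : 0 < Real.log 2 := Real.log_pos (by norm_num)
  refine ⟨|c| / Real.log 2, by positivity, fun n hn => ?_⟩
  calc c ≤ |c| := le_abs_self _
    _ = |c| / Real.log 2 * Real.log 2 := by field_simp
    _ ≤ _ := by
      have := log2_le hn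
      gcongr

/-- `log (2^a y) ≤ (a+1) log y` if `log 2 ≤ log y` -/
lemma log_pow_mul {x y : ℝ} (a : ℕ) (hx : 0 < x) (hy : 0 < y) (h2 : Real.log 2 ≤ Real.log y)
    (h : x ≤ 2 ^ a * y) : Real.log x ≤ (a + 1) * Real.log y := by
  have e1 : Real.log x ≤ Real.log (2 ^ a * y) := Real.log_le_log hx h
  rw [Real.log_mul (by positivity) hy.ne', Real.log_pow] at e1
  have : (a : ℝ) * Real.log 2 ≤ a * Real.log y := by gcongr
  linarith

lemma mul_sub_one (k : ℕ) (n : ℕ) : k * n - k = k * (n - 1) := by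
  rw [Nat.mul_sub, Nat.mul_one]

lemma range_eq (n k : ℕ) : Finset.range (k * n - k) = Finset.Ico (0 * (n - 1)) (k * (n - 1)) := by
  rw [Nat.zero_mul, Finset.range_eq_Ico, mul_sub_one]

/-- the total potential of the zeta part at the lattice points -/
lemma pot (G3 : St_G3_Lp) (G4 : St_G4_weight) : ∃ C : ℝ, 0 < C ∧ ∀ n : ℕ, 6 ≤ n → ∀ v : ℕ, 8 * n < v →
    |Real.log (wv n v) + (Lp n (Finset.range (20 * n - 20)) (20 * v) + Lp n (Finset.range (10 * n - 10)) (20 * v)) -
      (n * FN (20 * (v : ℝ) / n) + 60 * n * Real.log n)| ≤ C * Real.log (n + v) := by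
  obtain ⟨C3, hC3, h3⟩ := G3
  obtain ⟨C4, hC4, h4⟩ := G4
  refine ⟨C4 + 12 * C3, by positivity, fun n hn t ht => ?_⟩
  have hn' := three_le hn
  have ht0 : (0 : ℝ) ≤ t := Nat.cast_nonneg t
  have hl2 : 0 < Real.log 2 := Real.log_pos (by norm_num)
  have hl : Real.log 2 ≤ Real.log (n + t) := Real.log_le_log (by norm_num) (by linarith)
  have a1 := abs_le.mp (h4 n hn t ht)
  have a2 := abs_le.mp (h3 n hn 0 20 (by norm_num) le_rfl (20 * (t : ℤ)))
  have a3 := abs_le.mp (h3 n hn 0 10 (by norm_num) (by norm_num) (20 * (t : ℤ)))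
  rw [← range_eq] at a2 a3
  push_cast at a2 a3
  have habs : |20 * (t : ℝ)| = 20 * t := abs_of_nonneg (by positivity)
  rw [habs] at a2 a3
  have hlog : Real.log ((n : ℝ) + 20 * t) ≤ 6 * Real.log (n + t) := by
    have := log_pow_mul (x := (n : ℝ) + 20 * t) (y := n + t) 5 (by linarith) (by linarith) hl
      (by linarith)
    push_cast at this
    linarith
  have hs : ∑ g ∈ Finset.Ico 0 20, Ub g (20 * (t : ℝ) / n) =
      ∑ g ∈ Finset.range 10, Ub g (20 * (t : ℝ) / n) + ∑ g ∈ Finset.Ico 10 20, Ub g (20 * (t : ℝ) / n) := by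
    rw [Finset.range_eq_Ico, Finset.sum_Ico_consecutive _ (by norm_num) (by norm_num)]
  rw [hs] at a2
  rw [← Finset.range_eq_Ico] at a3
  have hC3l : C3 * Real.log ((n : ℝ) + 20 * t) ≤ 6 * (C3 * Real.log (n + t)) := by
    calc C3 * Real.log ((n : ℝ) + 20 * t) ≤ C3 * (6 * Real.log (n + t)) := by gcongr
      _ = _ := by ring
  have e2 : (n : ℝ) * FN (20 * (t : ℝ) / n) + 60 * n * Real.log n =
      n * phi (20 * (t : ℝ) / n) +
      (n * (∑ g ∈ Finset.range 10, Ub g (20 * (t : ℝ) / n) + ∑ g ∈ Finset.Ico 10 20, Ub g (20 * (t : ℝ) / n)) +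
        40 * n * Real.log n) +
      (n * ∑ g ∈ Finset.range 10, Ub g (20 * (t : ℝ) / n) + 20 * n * Real.log n) := by
    unfold FN
    ring
  have e3 : (C4 + 12 * C3) * Real.log ((n : ℝ) + t) = C4 * Real.log (n + t) +
      6 * (C3 * Real.log (n + t)) + 6 * (C3 * Real.log (n + t)) := by ring
  rw [e2, e3, abs_le]
  simp only [sub_zero] at a2 a3
  constructor <;> linarith

/-- the total potential of the pole part at the poles -/
lemma potY (G3 : St_G3_Lp) (V3 : St_V3_upperY) : ∃ C : ℝ, 0 < C ∧ ∀ n : ℕ, 6 ≤ n → ∀ u : ℤ, |u| ≤ 5 * n →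
    n * phi (20 * (u : ℝ) / n) + Lp n (Finset.range (20 * n - 20)) (20 * u) +
      Lp n (Finset.Ico (10 * n - 10) (20 * n - 20)) (20 * u) ≤
      702 / 5 * n + 60 * n * Real.log n + C * Real.log n := by
  obtain ⟨C3, hC3, h3⟩ := G3
  refine ⟨16 * C3, by positivity, fun n hn u hu => ?_⟩
  have hn' := three_le hn
  have hn0 : (0 : ℝ) < n := by linarith
  have hl2 : 0 < Real.log 2 := Real.log_pos (by norm_num)
  have hl := log2_le hn
  have hu' : |(u : ℝ)| ≤ 5 * n := by exact_mod_cast hu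
  have hu1 := abs_le.mp hu'
  have a2 := (abs_le.mp (h3 n hn 0 20 (by norm_num) le_rfl (20 * u))).2
  have a3 := (abs_le.mp (h3 n hn 10 20 (by norm_num) le_rfl (20 * u))).2
  rw [← range_eq] at a2
  rw [← mul_sub_one, ← mul_sub_one] at a3
  push_cast at a2 a3
  have habs : |20 * (u : ℝ)| = 20 * |(u : ℝ)| := by rw [abs_mul]; norm_num
  rw [habs] at a2 a3
  have hab0 := abs_nonneg (u : ℝ)
  have hlog : Real.log ((n : ℝ) + 20 * |(u : ℝ)|) ≤ 8 * Real.log n := by
    have := log_pow_mul (x := (n : ℝ) + 20 * |(u : ℝ)|) (y := n) 7 (by linarith) hn0 hl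
      (by linarith)
    push_cast at this
    linarith
  have hs : ∑ g ∈ Finset.Ico 0 20, Ub g (20 * (u : ℝ) / n) =
      ∑ g ∈ Finset.range 10, Ub g (20 * (u : ℝ) / n) + ∑ g ∈ Finset.Ico 10 20, Ub g (20 * (u : ℝ) / n) := by
    rw [Finset.range_eq_Ico, Finset.sum_Ico_consecutive _ (by norm_num) (by norm_num)]
  rw [hs] at a2
  have hC3l : C3 * Real.log ((n : ℝ) + 20 * |(u : ℝ)|) ≤ 8 * (C3 * Real.log n) := by
    calc C3 * Real.log ((n : ℝ) + 20 * |(u : ℝ)|) ≤ C3 * (8 * Real.log n) := by gcongr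
      _ = _ := by ring
  have hw1 : -100 ≤ 20 * (u : ℝ) / n := by
    rw [le_div_iff₀ hn0]; linarith
  have hw2 : 20 * (u : ℝ) / n ≤ 100 := by
    rw [div_le_iff₀ hn0]; linarith
  have hF := mul_le_mul_of_nonneg_left (V3 _ hw1 hw2) hn0.le
  unfold FY at hF
  have e3 : 16 * C3 * Real.log n = 8 * (C3 * Real.log n) + 8 * (C3 * Real.log n) := by ring
  rw [e3]
  simp only [sub_zero] at a2 a3
  have e4 : (n : ℝ) * (phi (20 * (u : ℝ) / n) + ∑ g ∈ Finset.range 10, Ub g (20 * (u : ℝ) / n) +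
      2 * ∑ g ∈ Finset.Ico 10 20, Ub g (20 * (u : ℝ) / n)) = n * phi (20 * (u : ℝ) / n) +
      n * (∑ g ∈ Finset.range 10, Ub g (20 * (u : ℝ) / n) + ∑ g ∈ Finset.Ico 10 20, Ub g (20 * (u : ℝ) / n)) +
      n * ∑ g ∈ Finset.Ico 10 20, Ub g (20 * (u : ℝ) / n) := by ring
  rw [e4] at hF
  linarith

/-- the sup bound over the points outside of the saturated part -/
lemma supN (G3 : St_G3_Lp) (G4 : St_G4_weight) (V1 : St_V1_upper) (V1t : St_V1_tail) : ∃ K : ℝ, 0 ≤ K ∧ ∀ᶠ n : ℕ in atTop,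
    ∀ v : ℕ, 13 * n ≤ v →
    wv n v * Real.exp (Lp n (Finset.range (20 * n - 20)) (20 * v) + Lp n (Finset.range (10 * n - 10)) (20 * v)) ≤
      Real.exp (1319 / 20 * n + 60 * n * Real.log n + K * Real.log n) / (v : ℝ) ^ 2 := by
  obtain ⟨C, hC, h⟩ := pot G3 G4
  obtain ⟨n0, hn0⟩ := exists_nat_ge (C + 2)
  obtain ⟨K1, hK1, hK⟩ := const_le ((C + 2) * Real.log 10000)
  refine ⟨(C + 2) + K1, by positivity, ?_⟩
  filter_upwards [eventually_ge_atTop 6, eventually_ge_atTop n0] with n hn hnn t ht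
  have hn' := three_le hn
  have hnp : (0 : ℝ) < n := by linarith
  have ht' : 13 * (n : ℝ) ≤ t := by exact_mod_cast ht
  have ht1 : (0 : ℝ) < t := by linarith
  have ht2 : 0 < t := by omega
  have hCn : C + 2 ≤ n := hn0.trans (by exact_mod_cast hnn)
  have hl2 : 0 < Real.log 2 := Real.log_pos (by norm_num)
  have hl := log2_le hn
  set L := Lp n (Finset.range (20 * n - 20)) (20 * t) + Lp n (Finset.range (10 * n - 10)) (20 * t) with hL
  rw [le_div_iff₀ (by positivity)]
  have hwp := wv_pos n ht2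
  have e1 : wv n t * Real.exp L * (t : ℝ) ^ 2 =
      Real.exp (Real.log (wv n t) + L + 2 * Real.log t) := by
    rw [Real.exp_add (Real.log (wv n t) + L), Real.exp_add (Real.log (wv n t)) L, Real.exp_log hwp,
      show 2 * Real.log (t : ℝ) = Real.log ((t : ℝ) ^ 2) by rw [Real.log_pow]; norm_num,
      Real.exp_log (by positivity)]
  rw [e1]
  apply Real.exp_le_exp.mpr
  have a1 := (abs_le.mp (h n hn t (by omega))).2
  rw [← hL] at a1
  have a2 : Real.log (t : ℝ) ≤ Real.log (n + t) := Real.log_le_log ht1 (by linarith)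
  set w : ℝ := 20 * (t : ℝ) / n with hw
  have htw : (t : ℝ) = n * w / 20 := by rw [hw]; field_simp
  have hw20 : 260 ≤ w := by rw [hw, le_div_iff₀ hnp]; linarith
  have hKn := hK n hn
  rcases le_total w 10000 with hw1 | hw1
  · have a3 := mul_le_mul_of_nonneg_left (V1 w hw20) hnp.le
    have a4 : Real.log ((n : ℝ) + t) ≤ Real.log n + Real.log 10000 := by
      rw [← Real.log_mul hnp.ne' (by norm_num)]
      apply Real.log_le_log (by linarith)
      rw [htw]
      nlinarith
    have a5 : (C + 2) * Real.log ((n : ℝ) + t) ≤ (C + 2) * (Real.log n + Real.log 10000) := by gcongr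
    nlinarith
  · have a3 := mul_le_mul_of_nonneg_left (V1t w hw1) hnp.le
    have hwp' : 0 < w := by linarith
    have a4 : Real.log ((n : ℝ) + t) ≤ Real.log n + Real.log w := by
      rw [← Real.log_mul hnp.ne' hwp'.ne']
      apply Real.log_le_log (by linarith)
      rw [htw]
      nlinarith
    have a5 : (C + 2) * Real.log ((n : ℝ) + t) ≤ (C + 2) * (Real.log n + Real.log w) := by gcongr
    have a6 : 0 ≤ Real.log w - Real.log 10000 := by
      have := Real.log_le_log (by norm_num : (0 : ℝ) < 10000) hw1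
      linarith
    have a7 : (C + 2) * (Real.log w - Real.log 10000) ≤ n * (Real.log w - Real.log 10000) := by gcongr
    have a8 : 0 ≤ (n : ℝ) * (Real.log w - Real.log 10000) := by positivity
    nlinarith

/-- lower bound at the saturated nodes -/
lemma lowN (G3 : St_G3_Lp) (G4 : St_G4_weight) (V2 : St_V2_lower) : ∃ K : ℝ, 0 ≤ K ∧ ∀ n : ℕ, 6 ≤ n → ∀ v : ℕ, 8 * n < v →
    v < 13 * n → 329 / 5 * n + 60 * n * Real.log n - K * Real.log n ≤ Real.log (wv n v) +
      (Lp n (Finset.range (20 * n - 20)) (20 * v) + Lp n (Finset.range (10 * n - 10)) (20 * v)) := by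
  obtain ⟨C, hC, h⟩ := pot G3 G4
  refine ⟨5 * C, by positivity, fun n hn t ht1 ht2 => ?_⟩
  have hn' := three_le hn
  have hnp : (0 : ℝ) < n := by linarith
  have ht' : (t : ℝ) ≤ 13 * n := by exact_mod_cast ht2.le
  have ht'' : 8 * (n : ℝ) ≤ t := by exact_mod_cast ht1.le
  have hl2 : 0 < Real.log 2 := Real.log_pos (by norm_num)
  have hl := log2_le hn
  have a1 := (abs_le.mp (h n hn t ht1)).1
  have hw0 : 160 ≤ 20 * (t : ℝ) / n := by rw [le_div_iff₀ hnp]; linarith
  have hw1 : 20 * (t : ℝ) / n ≤ 260 := by rw [div_le_iff₀ hnp]; linarith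
  have a2 := mul_le_mul_of_nonneg_left (V2 _ hw0 hw1) hnp.le
  have a3 : Real.log ((n : ℝ) + t) ≤ 5 * Real.log n := by
    have := log_pow_mul (x := (n : ℝ) + t) (y := n) 4 (by linarith) hnp hl (by linarith)
    push_cast at this
    linarith
  have a4 : C * Real.log ((n : ℝ) + t) ≤ C * (5 * Real.log n) := by gcongr
  linarith

lemma blocks (n : ℕ) (f : ℕ → ℝ) (a b : ℕ) (hab : a ≤ b) :
    ∑ i ∈ Finset.Ico (a * n) (b * n), f i =
      ∑ g ∈ Finset.Ico a b, ∑ j ∈ Finset.range n, f (g * n + j) := by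
  induction b, hab using Nat.le_induction with
  | base => simp
  | succ b hab ih =>
    rw [Finset.sum_Ico_succ_top hab, ← ih]
    rw [← Finset.sum_Ico_consecutive f (Nat.mul_le_mul_right n hab)
      (Nat.mul_le_mul_right n (Nat.le_succ b))]
    congr 1
    rw [Finset.sum_Ico_eq_sum_range]
    have : (b + 1) * n - b * n = n := by
      rw [Nat.succ_mul]; omega
    rw [this]

/-- nodes of the bricks -/
def ndb (n i : ℕ) : ℤ := bb (i / (n - 1)) * n + cc (i / (n - 1)) * ((i % (n - 1) : ℕ) : ℤ)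

lemma nd_eq_ndb {n i : ℕ} (h : 5 * n - 1 ≤ i) : nd n i = ndb n i := by
  unfold nd ndb
  rw [if_neg (by omega)]

lemma nd_sat {n i : ℕ} (h : i < 5 * n - 1) : nd n i = 20 * (8 * n + 1 + i) := by
  unfold nd
  rw [if_pos h]

lemma ndb_block {n g j : ℕ} (hj : j < n - 1) : ndb n (g * (n - 1) + j) = bb g * n + cc g * (j : ℤ) := by
  have hn0 : 0 < n - 1 := by omega
  unfold ndb
  have h1 : (g * (n - 1) + j) / (n - 1) = g := by
    rw [Nat.mul_comm, Nat.mul_add_div hn0, Nat.div_eq_of_lt hj, add_zero]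
  have h2 : (g * (n - 1) + j) % (n - 1) = j := by
    rw [Nat.mul_comm, Nat.mul_add_mod, Nat.mod_eq_of_lt hj]
  rw [h1, h2]

lemma Lp_blocks (n a b : ℕ) (hab : a ≤ b) (u : ℤ) :
    Lp n (Finset.Ico (a * (n - 1)) (b * (n - 1))) u =
      ∑ h ∈ Finset.Ico a b, Lp n (Finset.Ico (h * (n - 1)) ((h + 1) * (n - 1))) u := by
  unfold Lp
  rw [blocks (n - 1) _ a b hab]
  apply Finset.sum_congr rfl
  intro h _
  rw [blocks (n - 1) _ h (h + 1) (by omega)]
  simp

/-- mutual energy of two families of bricks -/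
lemma energy {C : ℝ} (hC : 0 < C) {n : ℕ} (hn : 6 ≤ n)
    (h6 : ∀ g < 20, ∀ h < 20,
      |∑ j ∈ Finset.range (n - 1), Lp n (Finset.Ico (h * (n - 1)) ((h + 1) * (n - 1))) (bb g * n + cc g * (j : ℤ)) -
      (en g h * (n : ℝ) ^ 2 + 2 * (n : ℝ) ^ 2 * Real.log n)| ≤ C * n * Real.log n)
    (a b c d : ℕ) (hab : a ≤ b) (hb : b ≤ 20) (hcd : c ≤ d) (hd : d ≤ 20) :
    (∑ g ∈ Finset.Ico a b, ∑ h ∈ Finset.Ico c d, en g h) * (n : ℝ) ^ 2 +
      ((b - a : ℕ) : ℝ) * ((d - c : ℕ) : ℝ) * (2 * ((n : ℝ) ^ 2 * Real.log n)) - 400 * (C * n * Real.log n) ≤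
    ∑ i ∈ Finset.Ico (a * (n - 1)) (b * (n - 1)), Lp n (Finset.Ico (c * (n - 1)) (d * (n - 1))) (ndb n i) := by
  have hl2 : 0 < Real.log 2 := Real.log_pos (by norm_num)
  have hl := log2_le hn
  have hE : 0 ≤ C * n * Real.log n := by positivity
  rw [blocks (n - 1) _ a b hab]
  have e1 : ∑ g ∈ Finset.Ico a b, ∑ j ∈ Finset.range (n - 1),
        Lp n (Finset.Ico (c * (n - 1)) (d * (n - 1))) (ndb n (g * (n - 1) + j)) =
      ∑ g ∈ Finset.Ico a b, ∑ h ∈ Finset.Ico c d, ∑ j ∈ Finset.range (n - 1),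
        Lp n (Finset.Ico (h * (n - 1)) ((h + 1) * (n - 1))) (bb g * n + cc g * (j : ℤ)) := by
    apply Finset.sum_congr rfl
    intro g _
    rw [Finset.sum_comm]
    apply Finset.sum_congr rfl
    intro j hj
    rw [ndb_block (Finset.mem_range.mp hj), Lp_blocks n c d hcd]
  rw [e1]
  have e2 : (∑ g ∈ Finset.Ico a b, ∑ h ∈ Finset.Ico c d, en g h) * (n : ℝ) ^ 2 +
      ((b - a : ℕ) : ℝ) * ((d - c : ℕ) : ℝ) * (2 * ((n : ℝ) ^ 2 * Real.log n)) -
      ((b - a : ℕ) : ℝ) * ((d - c : ℕ) : ℝ) * (C * n * Real.log n) =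
      ∑ g ∈ Finset.Ico a b, ∑ h ∈ Finset.Ico c d,
        (en g h * (n : ℝ) ^ 2 + 2 * (n : ℝ) ^ 2 * Real.log n - C * n * Real.log n) := by
    simp only [Finset.sum_sub_distrib, Finset.sum_add_distrib, Finset.sum_const, Nat.card_Ico, nsmul_eq_mul,
      Finset.sum_mul]
    ring
  have e3 : ((b - a : ℕ) : ℝ) * ((d - c : ℕ) : ℝ) * (C * n * Real.log n) ≤ 400 * (C * n * Real.log n) := by
    apply mul_le_mul_of_nonneg_right _ hE
    have h1 : ((b - a : ℕ) : ℝ) ≤ 20 := by exact_mod_cast (by omega : b - a ≤ 20)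
    have h2 : ((d - c : ℕ) : ℝ) ≤ 20 := by exact_mod_cast (by omega : d - c ≤ 20)
    calc ((b - a : ℕ) : ℝ) * ((d - c : ℕ) : ℝ) ≤ 20 * 20 := by gcongr
      _ = 400 := by norm_num
  have e4 : ∑ g ∈ Finset.Ico a b, ∑ h ∈ Finset.Ico c d,
        (en g h * (n : ℝ) ^ 2 + 2 * (n : ℝ) ^ 2 * Real.log n - C * n * Real.log n) ≤
      ∑ g ∈ Finset.Ico a b, ∑ h ∈ Finset.Ico c d, ∑ j ∈ Finset.range (n - 1),
        Lp n (Finset.Ico (h * (n - 1)) ((h + 1) * (n - 1))) (bb g * n + cc g * (j : ℤ)) := by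
    apply Finset.sum_le_sum
    intro g hg
    apply Finset.sum_le_sum
    intro h hh
    rw [Finset.mem_Ico] at hg hh
    have := (abs_le.mp (h6 g (by omega) h (by omega))).1
    linarith
  linarith

lemma log_le8 {n : ℕ} (hn : 6 ≤ n) {x : ℝ} (hx : |x| ≤ 100 * n) : Real.log x ≤ 8 * Real.log n := by
  have hn' := three_le hn
  have hl2 : 0 < Real.log 2 := Real.log_pos (by norm_num)
  have hl := log2_le hn
  rw [← Real.log_abs]
  rcases eq_or_ne x 0 with h | h
  · rw [h, abs_zero, Real.log_zero]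
    linarith
  · have := log_pow_mul (x := |x|) (y := n) 7 (abs_pos.mpr h) (by linarith) hl (by linarith)
    push_cast at this
    linarith

lemma nd_bound (G0X : St_G0_nd_X) (G0Y : St_G0_nd_Y) {n i : ℕ} (hn : 6 ≤ n) (hi : i < 20 * n - 20) :
    0 ≤ nd n i ∧ nd n i ≤ 823 * n := by
  by_cases h1 : i < 5 * n - 1
  · rw [nd_sat h1]
    constructor
    · positivity
    · have : (i : ℤ) ≤ 5 * n := by omega
      have h3 : (6 : ℤ) ≤ n := by exact_mod_cast hn
      linarith
  · by_cases h2 : i < 10 * n - 10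
    · have := G0X hn (by omega) h2
      constructor
      · have h3 : (0 : ℤ) ≤ n := by positivity
        linarith [this.1]
      · exact this.2.le
    · have := G0Y hn (by omega) hi
      have h3 : (0 : ℤ) ≤ n := by positivity
      constructor
      · exact this.1
      · linarith [this.2]

lemma term_le (G0X : St_G0_nd_X) (G0Y : St_G0_nd_Y) {n i : ℕ} (hn : 6 ≤ n) (hi : i < 20 * n - 20) {u : ℤ}
    (hu0 : 0 ≤ u) (hu : u ≤ 900 * n) :
    Real.log (((u - nd n i : ℤ) : ℝ) / 20) + Real.log (((u + nd n i : ℤ) : ℝ) / 20) ≤ 16 * Real.log n := by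
  obtain ⟨h1, h2⟩ := nd_bound G0X G0Y hn hi
  have h1' : (0 : ℝ) ≤ nd n i := by exact_mod_cast h1
  have h2' : (nd n i : ℝ) ≤ 823 * n := by exact_mod_cast h2
  have h3' : (0 : ℝ) ≤ u := by exact_mod_cast hu0
  have h4' : (u : ℝ) ≤ 900 * n := by exact_mod_cast hu
  have hn0 : (0 : ℝ) ≤ n := Nat.cast_nonneg n
  have a1 : Real.log (((u - nd n i : ℤ) : ℝ) / 20) ≤ 8 * Real.log n := by
    apply log_le8 hn
    rw [abs_le]
    push_cast
    constructor <;> linarith
  have a2 : Real.log (((u + nd n i : ℤ) : ℝ) / 20) ≤ 8 * Real.log n := by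
    apply log_le8 hn
    rw [abs_le]
    push_cast
    constructor <;> linarith
  linarith

/-- the energy of the first family, with the exact ranges -/
lemma energy1 (G0X : St_G0_nd_X) (G0Y : St_G0_nd_Y) {n : ℕ} (hn : 6 ≤ n) :
    ∑ i ∈ Finset.Ico (5 * (n - 1)) (10 * (n - 1)), Lp n (Finset.Ico (5 * (n - 1)) (20 * (n - 1))) (ndb n i) -
      1280 * (n * Real.log n) ≤
    ∑ i ∈ Finset.Ico (5 * n - 1) (10 * n - 10), Lp n (Finset.Ico (5 * n - 1) (20 * n - 20)) (nd n i) := by
  have hn' := three_le hn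
  have hl2 : 0 < Real.log 2 := Real.log_pos (by norm_num)
  have hl := log2_le hn
  have hln : 0 < Real.log n := by linarith
  have c2 : 10 * (n - 1) = 10 * n - 10 := by omega
  have c3 : 20 * (n - 1) = 20 * n - 20 := by omega
  have c4 : 5 * (n - 1) ≤ 5 * n - 1 := by omega
  have c5 : 5 * n - 1 ≤ 10 * n - 10 := by omega
  have c6 : 5 * n - 1 ≤ 20 * n - 20 := by omega
  rw [c2, ← Finset.sum_Ico_consecutive _ c4 c5]
  have hL : ∀ u : ℤ, Lp n (Finset.Ico (5 * (n - 1)) (20 * (n - 1))) u =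
      ∑ i ∈ Finset.Ico (5 * (n - 1)) (5 * n - 1),
        (Real.log (((u - nd n i : ℤ) : ℝ) / 20) + Real.log (((u + nd n i : ℤ) : ℝ) / 20)) +
      Lp n (Finset.Ico (5 * n - 1) (20 * n - 20)) u := by
    intro u
    unfold Lp
    rw [c3, Finset.sum_Ico_consecutive _ c4 c6]
  have hfirst : ∑ i ∈ Finset.Ico (5 * (n - 1)) (5 * n - 1),
      Lp n (Finset.Ico (5 * (n - 1)) (20 * (n - 1))) (ndb n i) ≤ 4 * (15 * n * (16 * Real.log n)) := by
    have h1 : ∀ i ∈ Finset.Ico (5 * (n - 1)) (5 * n - 1),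
        Lp n (Finset.Ico (5 * (n - 1)) (20 * (n - 1))) (ndb n i) ≤ 15 * n * (16 * Real.log n) := by
      intro i hi
      rw [Finset.mem_Ico] at hi
      obtain ⟨j, hj⟩ : ∃ j, i = 5 * (n - 1) + j := ⟨i - 5 * (n - 1), by omega⟩
      have hj4 : j < 4 := by omega
      have e0 : ndb n i = 260 * n + 22 * (j : ℤ) := by
        rw [hj, ndb_block (n := n) (g := 5) (j := j) (by omega)]
        simp [bb, cc]
      have e1 : (0 : ℤ) ≤ ndb n i := by rw [e0]; positivity
      have e2 : ndb n i ≤ 900 * n := by rw [e0]; omega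
      unfold Lp
      calc _ ≤ ∑ i ∈ Finset.Ico (5 * (n - 1)) (20 * (n - 1)), 16 * Real.log n := by
            apply Finset.sum_le_sum
            intro i' hi'
            rw [Finset.mem_Ico] at hi'
            exact term_le G0X G0Y hn (by omega) e1 e2
        _ = ((20 * (n - 1) - 5 * (n - 1) : ℕ) : ℝ) * (16 * Real.log n) := by
            rw [Finset.sum_const, Nat.card_Ico, nsmul_eq_mul]
        _ ≤ 15 * n * (16 * Real.log n) := by
            apply mul_le_mul_of_nonneg_right _ (by positivity)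
            have : ((20 * (n - 1) - 5 * (n - 1) : ℕ) : ℝ) ≤ ((15 * n : ℕ) : ℝ) := by
              exact_mod_cast (by omega : 20 * (n - 1) - 5 * (n - 1) ≤ 15 * n)
            push_cast at this
            exact this
    have h2 := Finset.sum_le_sum h1
    rw [Finset.sum_const, Nat.card_Ico, nsmul_eq_mul] at h2
    have h3 : ((5 * n - 1 - 5 * (n - 1) : ℕ) : ℝ) = 4 := by
      have : 5 * n - 1 - 5 * (n - 1) = 4 := by omega
      rw [this]
      norm_num
    rw [h3] at h2
    exact h2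
  have hrest : ∑ i ∈ Finset.Ico (5 * n - 1) (10 * n - 10), Lp n (Finset.Ico (5 * (n - 1)) (20 * (n - 1))) (ndb n i) ≤
      ∑ i ∈ Finset.Ico (5 * n - 1) (10 * n - 10), Lp n (Finset.Ico (5 * n - 1) (20 * n - 20)) (nd n i) +
        5 * n * (64 * Real.log n) := by
    calc _ ≤ ∑ i ∈ Finset.Ico (5 * n - 1) (10 * n - 10),
          (Lp n (Finset.Ico (5 * n - 1) (20 * n - 20)) (nd n i) + 64 * Real.log n) := by
          apply Finset.sum_le_sum
          intro i hi
          rw [Finset.mem_Ico] at hi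
          rw [← nd_eq_ndb hi.1, hL]
          have hb := G0X hn hi.1 hi.2
          have h0 : (0 : ℤ) ≤ n := by positivity
          have h1 : ∀ k ∈ Finset.Ico (5 * (n - 1)) (5 * n - 1),
              Real.log (((nd n i - nd n k : ℤ) : ℝ) / 20) + Real.log (((nd n i + nd n k : ℤ) : ℝ) / 20) ≤
                16 * Real.log n := by
            intro k hk
            rw [Finset.mem_Ico] at hk
            exact term_le G0X G0Y hn (i := k) (u := nd n i) (by omega) (by linarith [hb.1])
              (by linarith [hb.2])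
          have h2 := Finset.sum_le_sum h1
          rw [Finset.sum_const, Nat.card_Ico, nsmul_eq_mul] at h2
          have h3 : ((5 * n - 1 - 5 * (n - 1) : ℕ) : ℝ) = 4 := by
            have : 5 * n - 1 - 5 * (n - 1) = 4 := by omega
            rw [this]
            norm_num
          rw [h3] at h2
          linarith
      _ = ∑ i ∈ Finset.Ico (5 * n - 1) (10 * n - 10), Lp n (Finset.Ico (5 * n - 1) (20 * n - 20)) (nd n i) +
          ((10 * n - 10 - (5 * n - 1) : ℕ) : ℝ) * (64 * Real.log n) := by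
          rw [Finset.sum_add_distrib, Finset.sum_const, Nat.card_Ico, nsmul_eq_mul]
      _ ≤ _ := by
          have h1 : ((10 * n - 10 - (5 * n - 1) : ℕ) : ℝ) ≤ 5 * n := by
            have : ((10 * n - 10 - (5 * n - 1) : ℕ) : ℝ) ≤ ((5 * n : ℕ) : ℝ) := by
              exact_mod_cast (by omega : 10 * n - 10 - (5 * n - 1) ≤ 5 * n)
            push_cast at this
            exact this
          have h2 := mul_le_mul_of_nonneg_right h1 (show (0 : ℝ) ≤ 64 * Real.log n by positivity)
          linarith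
  linarith

lemma energy2 {n : ℕ} (hn : 6 ≤ n) :
    ∑ i ∈ Finset.Ico (10 * (n - 1)) (20 * (n - 1)), Lp n (Finset.Ico (10 * (n - 1)) (20 * (n - 1))) (ndb n i) =
    ∑ i ∈ Finset.Ico (10 * n - 10) (20 * n - 20), Lp n (Finset.Ico (10 * n - 10) (20 * n - 20)) (nd n i) := by
  have c2 : 10 * (n - 1) = 10 * n - 10 := by omega
  have c3 : 20 * (n - 1) = 20 * n - 20 := by omega
  rw [c2, c3]
  apply Finset.sum_congr rfl
  intro i hi
  rw [Finset.mem_Ico] at hi
  rw [nd_eq_ndb (by omega)]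

lemma logfac {n : ℕ} (hn : 6 ≤ n) : Real.log ((20 * n - 20).factorial : ℝ) ≤ 20 * n * (6 * Real.log n) := by
  have hn' := three_le hn
  have hl2 : 0 < Real.log 2 := Real.log_pos (by norm_num)
  have hl := log2_le hn
  have h2 : (((20 * n - 20).factorial : ℕ) : ℝ) ≤ ((20 * n : ℕ) : ℝ) ^ (20 * n) := by
    have h3 : (20 * n - 20).factorial ≤ (20 * n) ^ (20 * n) :=
      (Nat.factorial_le (by omega)).trans (Nat.factorial_le_pow (20 * n))
    exact_mod_cast h3
  calc Real.log ((20 * n - 20).factorial : ℝ) ≤ Real.log (((20 * n : ℕ) : ℝ) ^ (20 * n)) :=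
        Real.log_le_log (by positivity) h2
    _ = 20 * n * Real.log (20 * n) := by rw [Real.log_pow]; push_cast; ring
    _ ≤ 20 * n * (6 * Real.log n) := by
        have := log_pow_mul (x := 20 * (n : ℝ)) (y := n) 5 (by linarith) (by linarith) hl (by linarith)
        push_cast at this
        have h5 : Real.log (20 * (n : ℝ)) ≤ 6 * Real.log n := by linarith
        gcongr

lemma VD_pos (G0z : St_G0_zq_inj) {n : ℕ} (hn : 6 ≤ n) {s : Finset ℕ} (hs : s ⊆ Finset.range (20 * n - 20)) :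
    0 < VD s (zq n) := by
  unfold VD Pool.Agent.LZ.VD
  apply Finset.prod_pos
  intro i hi
  apply Finset.prod_pos
  intro j hj
  rw [Finset.mem_erase] at hj
  rw [abs_pos]
  intro h0
  have h1 : zq n i - zq n j = 0 := by exact_mod_cast h0
  have h2 : zq n i = zq n j := by linarith
  exact hj.1 (G0z hn (by simpa using hs hj.2) (by simpa using hs hi) h2.symm)

end AM

open AM in
/-- **the archimedean part**, with the statements of the other tasks as hypotheses -/
theorem A_main_of (G0z : St_G0_zq_inj) (G0X : St_G0_nd_X) (G0Y : St_G0_nd_Y) (G1 : St_G1_entryN) (G2 : St_G2_entryY)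
    (G3 : St_G3_Lp) (G4 : St_G4_weight) (G5 : St_G5_sat) (G6 : St_G6_pair) (G6c : St_G6_cross) (V1 : St_V1_upper) (V1t : St_V1_tail)
    (V2 : St_V2_lower) (V3 : St_V3_upperY) (V4 : St_V4_eS) (V5 : St_V5_eN) : St_A_main := by
  intro α β θ h
  obtain ⟨K1, hK1, hsup⟩ := supN G3 G4 V1 V1t
  obtain ⟨K2, hK2, hlow⟩ := lowN G3 G4 V2
  obtain ⟨C2, hC2, hG2⟩ := G2 β
  obtain ⟨C3, hC3, hY⟩ := potY G3 V3
  obtain ⟨C5, hC5, hS⟩ := G5
  obtain ⟨C6, hC6, hG6⟩ := G6
  obtain ⟨K7, hK7, h1000⟩ := const_le (Real.log 1000)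
  obtain ⟨K8, hK8, h2000⟩ := const_le (Real.log 2000)
  set T : ℝ := 120 + 640 + 5 * (K1 + K2 + K8) + 5 * (K7 + K1) + 10 * (C3 + C2) + C5 + 800 * C6 + 1280 with hT
  have key : ∀ᶠ n : ℕ in atTop, DD n α β ≠ 0 →
      Real.log |((DD n α β : ℚ) : ℝ)| ≤ 600 * ((n : ℝ) ^ 2 * Real.log n) + 10138 / 10 * (n : ℝ) ^ 2 +
        T * (n * Real.log n) := by
    filter_upwards [hsup, eventually_ge_atTop 10] with n hsup hn10 hD
    have hn : 6 ≤ n := by omega
    have hn' := three_le hn
    have hnp : (0 : ℝ) < n := by linarith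
    have hl2 : 0 < Real.log 2 := Real.log_pos (by norm_num)
    have hl := log2_le hn
    have hln : 0 < Real.log n := by linarith
    have hlog2n : (1 / 2 : ℝ) ≤ Real.log n := by
      have := Real.log_two_gt_d9
      linarith
    set MM : ℝ := Real.exp (1319 / 20 * n + 60 * n * Real.log n + K1 * Real.log n) with hMM
    have hMM0 : 0 < MM := Real.exp_pos _
    set L : ℕ → ℝ := fun j => Lp n (Finset.range (20 * n - 20)) (20 * (8 * n + 1 + j)) +
      Lp n (Finset.range (10 * n - 10)) (20 * (8 * n + 1 + j)) with hL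
    set b : ℕ → ℝ := fun j => if j < 5 * n - 1 then wv n (8 * n + 1 + j) * Real.exp (L j) + 1000 * MM
      else if j < 10 * n - 10 then 1000 * MM
      else Real.exp (702 / 5 * n + 60 * n * Real.log n + C3 * Real.log n + C2 * Real.log n) with hb
    have hbpos : ∀ j, 0 < b j := by
      intro j
      rw [hb]
      dsimp only
      have := wv_pos n (v := 8 * n + 1 + j) (by omega)
      split_ifs <;> positivity
    -- the matrix
    have e14 : 2 * (10 * n - 10) = 20 * n - 20 := by omega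
    have hinj : Set.InjOn (zq n) (Finset.range (2 * (10 * n - 10))) := by
      rw [e14]
      exact G0z hn
    have h5 := Pool.Agent.LZ.A5_lagrange (AL n α) (BL n β) θ (10 * n - 10) (zq n) hinj
    rw [e14] at h5
    change _ = ((DD n α β : ℚ) : ℝ) ^ 2 * (VD _ _ * VD _ _ * VD _ _) at h5
    set M : Matrix (Fin (20 * n - 20)) (Fin (20 * n - 20)) ℝ := (Matrix.of fun i j : Fin (20 * n - 20) =>
      if j.1 < 10 * n - 10 then
        ((AL n α (lag (Finset.range (20 * n - 20)) (zq n) i.1 * lag (Finset.range (10 * n - 10)) (zq n) j.1) : ℚ) : ℝ) +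
          θ * ((BL n β (lag (Finset.range (20 * n - 20)) (zq n) i.1 * lag (Finset.range (10 * n - 10)) (zq n) j.1) : ℚ) : ℝ)
      else ((BL n β (lag (Finset.range (20 * n - 20)) (zq n) i.1 *
        lag (Finset.Ico (10 * n - 10) (20 * n - 20)) (zq n) j.1) : ℚ) : ℝ)) with hM
    have hentry : ∀ i j : Fin (20 * n - 20), |M i j| ≤ b j := by
      intro i j
      rw [hM, hb]
      simp only [Matrix.of_apply]
      by_cases hj7 : j.1 < 10 * n - 10
      · rw [if_pos hj7]
        have h1 := G1 hn10 α β θ h MM hMM0.le hsup i.1 j.1 i.2 hj7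
        by_cases hj2 : j.1 < 5 * n - 1
        · rw [if_pos hj2]
          rw [if_pos hj2] at h1
          exact h1
        · rw [if_neg hj2, if_pos hj7]
          rw [if_neg hj2, zero_add] at h1
          exact h1
      · rw [if_neg hj7, if_neg (by omega), if_neg hj7]
        exact hG2 n hn _ (fun u hu => hY n hn u hu) i.1 i.2 j.1 (by omega) j.2
    have hdet := Pool.Agent.LZ.A6_det_le (20 * n - 20) M b (fun j => (hbpos j).le) hentry
    -- logarithms
    have hDr : ((DD n α β : ℚ) : ℝ) ≠ 0 := by exact_mod_cast hD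
    have v1 := VD_pos G0z hn (s := Finset.range (20 * n - 20)) (Finset.Subset.refl _)
    have v2 := VD_pos G0z hn (s := Finset.range (10 * n - 10))
      (Finset.range_subset_range.mpr (by omega))
    have v3 := VD_pos G0z hn (s := Finset.Ico (10 * n - 10) (20 * n - 20))
      (fun i hi => Finset.mem_range.mpr (Finset.mem_Ico.mp hi).2)
    have hM0 : M.det ≠ 0 := by
      intro h0
      rw [h0] at h5
      have : (0 : ℝ) < ((DD n α β : ℚ) : ℝ) ^ 2 *
        (VD (Finset.range (20 * n - 20)) (zq n) * VD (Finset.range (10 * n - 10)) (zq n) *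
          VD (Finset.Ico (10 * n - 10) (20 * n - 20)) (zq n)) := by positivity
      rw [← h5] at this
      norm_num at this
    have hlog1 : 2 * Real.log |M.det| = 2 * Real.log |((DD n α β : ℚ) : ℝ)| +
        (Real.log (VD (Finset.range (20 * n - 20)) (zq n)) + Real.log (VD (Finset.range (10 * n - 10)) (zq n)) +
          Real.log (VD (Finset.Ico (10 * n - 10) (20 * n - 20)) (zq n))) := by
      have := congrArg Real.log h5
      rw [Real.log_pow, Real.log_mul (pow_ne_zero 2 hDr) (by positivity), Real.log_pow,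
        Real.log_mul (by positivity) v3.ne', Real.log_mul v1.ne' v2.ne'] at this
      rw [Real.log_abs, Real.log_abs]
      push_cast at this
      exact this
    have hlog2 : Real.log |M.det| ≤ Real.log ((20 * n - 20).factorial : ℝ) +
        ∑ j ∈ Finset.range (20 * n - 20), Real.log (b j) := by
      rw [← Real.log_prod (fun i _ => (hbpos i).ne'),
        ← Real.log_mul (by positivity) (Finset.prod_pos fun i _ => hbpos i).ne']
      exact Real.log_le_log (abs_pos.mpr hM0) hdet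
    have hcross := G6c hn
    have hfac := logfac hn
    have h1000n := h1000 n hn
    have h2000n := h2000 n hn
    -- the three ranges
    have hb1 : ∀ j ∈ Finset.range (5 * n - 1), Real.log (b j) ≤ Real.log (wv n (8 * n + 1 + j)) + L j +
        (3 / 20 * (n : ℝ) + (K1 + K2 + K8) * Real.log n) := by
      intro j hj
      rw [Finset.mem_range] at hj
      have hlo := hlow n hn (8 * n + 1 + j) (by omega) (by omega)
      rw [hb]
      dsimp only
      rw [if_pos hj]
      have hLe : Lp n (Finset.range (20 * n - 20)) (20 * ((8 * n + 1 + j : ℕ) : ℤ)) +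
          Lp n (Finset.range (10 * n - 10)) (20 * ((8 * n + 1 + j : ℕ) : ℤ)) = L j := by
        rw [hL]
        push_cast
        rfl
      rw [hLe] at hlo
      have hW := wv_pos n (v := 8 * n + 1 + j) (by omega)
      have e1 : wv n (8 * n + 1 + j) * Real.exp (L j) = Real.exp (Real.log (wv n (8 * n + 1 + j)) + L j) := by
        rw [Real.exp_add (Real.log (wv n (8 * n + 1 + j))) (L j), Real.exp_log hW]
      set A : ℝ := Real.log (wv n (8 * n + 1 + j)) + L j with hA
      set R : ℝ := 3 / 20 * (n : ℝ) + (K1 + K2) * Real.log n with hR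
      have hR0 : 0 ≤ R := by rw [hR]; positivity
      have e2 : MM ≤ Real.exp (A + R) := by
        rw [hMM]
        apply Real.exp_le_exp.mpr
        rw [hR]
        linarith
      have e3 : Real.exp A ≤ Real.exp (A + R) := Real.exp_le_exp.mpr (by linarith)
      have e4 : wv n (8 * n + 1 + j) * Real.exp (L j) + 1000 * MM ≤ 2000 * Real.exp (A + R) := by
        rw [e1]
        have := Real.exp_pos (A + R)
        linarith
      calc Real.log (wv n (8 * n + 1 + j) * Real.exp (L j) + 1000 * MM) ≤ Real.log (2000 * Real.exp (A + R)) :=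
            Real.log_le_log (by positivity) e4
        _ = Real.log 2000 + (A + R) := by
            rw [Real.log_mul (by norm_num) (Real.exp_pos _).ne', Real.log_exp]
        _ ≤ _ := by
            rw [hR]
            linarith
    have hb2 : ∀ j ∈ Finset.Ico (5 * n - 1) (10 * n - 10), Real.log (b j) ≤
        1319 / 20 * n + 60 * n * Real.log n + (K7 + K1) * Real.log n := by
      intro j hj
      rw [Finset.mem_Ico] at hj
      rw [hb]
      dsimp only
      rw [if_neg (by omega), if_pos hj.2, Real.log_mul (by norm_num) hMM0.ne', hMM, Real.log_exp]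
      linarith
    have hb3 : ∀ j ∈ Finset.Ico (10 * n - 10) (20 * n - 20), Real.log (b j) ≤
        702 / 5 * n + 60 * n * Real.log n + (C3 + C2) * Real.log n := by
      intro j hj
      rw [Finset.mem_Ico] at hj
      rw [hb]
      dsimp only
      rw [if_neg (by omega), if_neg (by omega), Real.log_exp]
      linarith
    have hs1 := Finset.sum_le_sum hb1
    have hs2 := Finset.sum_le_sum hb2
    have hs3 := Finset.sum_le_sum hb3
    rw [Finset.sum_add_distrib, Finset.sum_const, Finset.card_range, nsmul_eq_mul] at hs1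
    rw [Finset.sum_const, Nat.card_Ico, nsmul_eq_mul] at hs2 hs3
    have c1 : ((5 * n - 1 : ℕ) : ℝ) ≤ 5 * n := by
      have : ((5 * n - 1 : ℕ) : ℝ) ≤ ((5 * n : ℕ) : ℝ) := by exact_mod_cast (by omega : 5 * n - 1 ≤ 5 * n)
      push_cast at this
      exact this
    have c2 : ((10 * n - 10 - (5 * n - 1) : ℕ) : ℝ) ≤ 5 * n := by
      have : ((10 * n - 10 - (5 * n - 1) : ℕ) : ℝ) ≤ ((5 * n : ℕ) : ℝ) := by
        exact_mod_cast (by omega : 10 * n - 10 - (5 * n - 1) ≤ 5 * n)
      push_cast at this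
      exact this
    have c3 : ((20 * n - 20 - (10 * n - 10) : ℕ) : ℝ) ≤ 10 * n := by
      have : ((20 * n - 20 - (10 * n - 10) : ℕ) : ℝ) ≤ ((10 * n : ℕ) : ℝ) := by
        exact_mod_cast (by omega : 20 * n - 20 - (10 * n - 10) ≤ 10 * n)
      push_cast at this
      exact this
    have m1 := mul_le_mul_of_nonneg_right c1
      (show 0 ≤ 3 / 20 * (n : ℝ) + (K1 + K2 + K8) * Real.log n by positivity)
    have m2 := mul_le_mul_of_nonneg_right c2
      (show 0 ≤ 1319 / 20 * (n : ℝ) + 60 * n * Real.log n + (K7 + K1) * Real.log n by positivity)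
    have m3 := mul_le_mul_of_nonneg_right c3
      (show 0 ≤ 702 / 5 * (n : ℝ) + 60 * n * Real.log n + (C3 + C2) * Real.log n by positivity)
    have hsplit : ∑ j ∈ Finset.range (20 * n - 20), Real.log (b j) =
        ∑ j ∈ Finset.range (5 * n - 1), Real.log (b j) + ∑ j ∈ Finset.Ico (5 * n - 1) (10 * n - 10), Real.log (b j) +
          ∑ j ∈ Finset.Ico (10 * n - 10) (20 * n - 20), Real.log (b j) := by
      rw [Finset.sum_range_add_sum_Ico _ (by omega), Finset.sum_range_add_sum_Ico _ (by omega)]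
    -- energies
    have hSn := hS n hn
    have hE1 := energy hC6 hn (hG6 n hn) 5 10 5 20 (by norm_num) (by norm_num) (by norm_num) (by norm_num)
    have hE2 := energy hC6 hn (hG6 n hn) 10 20 10 20 (by norm_num) (by norm_num) (by norm_num) (by norm_num)
    have hE1' := energy1 G0X G0Y hn
    rw [energy2 hn] at hE2
    have hcr1 : ∑ i ∈ Finset.range (5 * n - 1), (Lp n (Finset.range (20 * n - 20)) (nd n i) +
        Lp n (Finset.range (10 * n - 10)) (nd n i) - Lp n (Finset.range (5 * n - 1)) (nd n i)) =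
        ∑ i ∈ Finset.range (5 * n - 1), (Real.log (wv n (8 * n + 1 + i)) + L i) -
        ∑ i ∈ Finset.range (5 * n - 1), (Real.log (wv n (8 * n + 1 + i)) +
          Lp n (Finset.range (5 * n - 1)) (20 * (8 * n + 1 + i))) := by
      rw [← Finset.sum_sub_distrib]
      apply Finset.sum_congr rfl
      intro i hi
      rw [nd_sat (Finset.mem_range.mp hi), hL]
      dsimp only
      ring
    rw [hcr1] at hcross
    have heN : eN = ∑ g ∈ Finset.Ico 5 10, ∑ h ∈ Finset.Ico 5 20, en g h +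
        ∑ g ∈ Finset.Ico 10 20, ∑ h ∈ Finset.Ico 10 20, en g h := by
      unfold eN
      rw [← Finset.sum_add_distrib]
      congr 1
      apply Finset.sum_congr rfl
      intro g _
      rw [Finset.sum_Ico_consecutive _ (by norm_num) (by norm_num)]
    have hV4 : eS * (n : ℝ) ^ 2 ≤ -(1963 / 10) * (n : ℝ) ^ 2 :=
      mul_le_mul_of_nonneg_right V4 (by positivity)
    have hV5 : 5245 / 10 * (n : ℝ) ^ 2 ≤ eN * (n : ℝ) ^ 2 :=
      mul_le_mul_of_nonneg_right V5 (by positivity)
    rw [heN, add_mul] at hV5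
    rw [hsplit] at hlog2
    norm_num at hE1 hE2
    have h80 : 80 * (n : ℝ) * Real.log (80 * n) ≤ 640 * (n * Real.log n) := by
      have := log_pow_mul (x := 80 * (n : ℝ)) (y := n) 7 (by linarith) hnp hl (by linarith)
      push_cast at this
      have h6 : Real.log (80 * (n : ℝ)) ≤ 8 * Real.log n := by linarith
      calc 80 * (n : ℝ) * Real.log (80 * n) ≤ 80 * n * (8 * Real.log n) := by gcongr
        _ = _ := by ring
    have t1 : 5 * (n : ℝ) * (3 / 20 * (n : ℝ) + (K1 + K2 + K8) * Real.log n) =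
      3 / 4 * (n : ℝ) ^ 2 + 5 * (K1 + K2 + K8) * (n * Real.log n) := by ring
    have t2 : 5 * (n : ℝ) * (1319 / 20 * n + 60 * n * Real.log n + (K7 + K1) * Real.log n) =
      1319 / 4 * (n : ℝ) ^ 2 + 300 * ((n : ℝ) ^ 2 * Real.log n) + 5 * (K7 + K1) * (n * Real.log n) := by ring
    have t3 : 10 * (n : ℝ) * (702 / 5 * n + 60 * n * Real.log n + (C3 + C2) * Real.log n) =
      1404 * (n : ℝ) ^ 2 + 600 * ((n : ℝ) ^ 2 * Real.log n) + 10 * (C3 + C2) * (n * Real.log n) := by ring
    have t4 : 20 * (n : ℝ) * (6 * Real.log n) = 120 * (n * Real.log n) := by ring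
    have t5 : T * (n * Real.log n) = 120 * (n * Real.log n) + 640 * (n * Real.log n) +
      5 * (K1 + K2 + K8) * (n * Real.log n) +
      5 * (K7 + K1) * (n * Real.log n) + 10 * (C3 + C2) * (n * Real.log n) + C5 * n * Real.log n +
      800 * (C6 * n * Real.log n) + 1280 * (n * Real.log n) := by rw [hT]; ring
    have t6 : 50 * (n : ℝ) ^ 2 * Real.log n = 50 * ((n : ℝ) ^ 2 * Real.log n) := by ring
    rw [t1] at m1
    rw [t2] at m2
    rw [t3] at m3
    rw [t4] at hfac
    rw [t6] at hSn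
    rw [t5]
    have hn2 : 0 ≤ (n : ℝ) ^ 2 := by positivity
    linarith
  -- conclude
  have hlim : ∀ᶠ n : ℕ in atTop, T * (n * Real.log n) ≤ 1 / 10 * (n : ℝ) ^ 2 := by
    have h1 : Tendsto (fun n : ℕ => Real.log n / (n : ℝ)) atTop (𝓝 0) := by
      have := (Real.isLittleO_log_id_atTop.tendsto_div_nhds_zero).comp tendsto_natCast_atTop_atTop
      simpa [Function.comp_def] using this
    have h2 : Tendsto (fun n : ℕ => T * (Real.log n / (n : ℝ))) atTop (𝓝 (T * 0)) := h1.const_mul _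
    rw [mul_zero] at h2
    filter_upwards [h2.eventually (gt_mem_nhds (show (0 : ℝ) < 1 / 10 by norm_num)), eventually_ge_atTop 1]
      with n h3 h4
    have hn0 : (0 : ℝ) < n := by exact_mod_cast h4
    have h5 : T * (n * Real.log n) = (T * (Real.log n / (n : ℝ))) * (n : ℝ) ^ 2 := by
      field_simp
    rw [h5]
    gcongr
  filter_upwards [hlim, key] with n h1 h2 hD
  have := h2 hD
  have hn2 : 0 ≤ (n : ℝ) ^ 2 := by positivity
  linarith

end

end Pool.Agent.Dim7
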