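import Pool.Agent.Dim7.Iface
import Pool.Agent.H574R2.D3.B1

/-! The linear form as a series (port of `H574R2/D9/B1`). -/

open Polynomial Pool.Agent.H337R2 Filter Topology

namespace Pool.Agent.Dim7

noncomputable section

namespace B1

lemma comp_prod (N : ℕ) (S S' : Finset ℕ) (h1 : ∀ m ∈ S, m ≤ N ∧ N - m ∈ S')
    (h2 : ∀ m ∈ S', m ≤ N ∧ N - m ∈ S) :
    (∏ m ∈ S, (X + C (m : ℚ) : ℚ[X])).comp (-X - C ((N : ℕ) : ℚ)) =
      (-1) ^ S.card * ∏ m ∈ S', (X + C (m : ℚ)) := by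
  rw [Polynomial.prod_comp]
  have h3 : ∏ m ∈ S, (X + C (m : ℚ) : ℚ[X]).comp (-X - C ((N : ℕ) : ℚ)) =
      ∏ m ∈ S, (-1) * (X + C ((N - m : ℕ) : ℚ)) := by
    apply Finset.prod_congr rfl
    intro m hm
    simp only [Polynomial.add_comp, Polynomial.X_comp, Polynomial.C_comp]
    rw [Nat.cast_sub (h1 m hm).1, map_sub]
    ring
  rw [h3, Finset.prod_mul_distrib, Finset.prod_const]
  congr 1
  apply Finset.prod_bij (fun m _ => N - m)
  · intro m hm
    exact (h1 m hm).2
  · intro m1 hm1 m2 hm2 h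
    have := (h1 m1 hm1).1
    have := (h1 m2 hm2).1
    omega
  · intro m hm
    have := (h2 m hm).1
    exact ⟨N - m, (h2 m hm).2, by omega⟩
  · intro m _
    rfl

lemma OM_comp (n : ℕ) : (OM n).comp (-X - C ((16 * n : ℕ) : ℚ)) = OM n := by
  unfold OM
  rw [Polynomial.mul_comp,
    comp_prod (16 * n) (Finset.Ico (3 * n) (4 * n)) (Finset.Icc (12 * n + 1) (13 * n))
      (fun m hm => by rw [Finset.mem_Ico] at hm; rw [Finset.mem_Icc]; omega)
      (fun m hm => by rw [Finset.mem_Icc] at hm; rw [Finset.mem_Ico]; omega),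
    comp_prod (16 * n) (Finset.Icc (12 * n + 1) (13 * n)) (Finset.Ico (3 * n) (4 * n))
      (fun m hm => by rw [Finset.mem_Icc] at hm; rw [Finset.mem_Ico]; omega)
      (fun m hm => by rw [Finset.mem_Ico] at hm; rw [Finset.mem_Icc]; omega)]
  have e1 : (Finset.Ico (3 * n) (4 * n)).card = n := by rw [Nat.card_Ico]; omega
  have e2 : (Finset.Icc (12 * n + 1) (13 * n)).card = n := by rw [Nat.card_Icc]; omega
  rw [e1, e2]
  have e3 : ((-1 : ℚ[X]) ^ n) * (-1) ^ n = 1 := by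
    rw [← pow_add, ← two_mul, pow_mul]; simp
  linear_combination (∏ m ∈ Finset.Icc (12 * n + 1) (13 * n), (X + C (m : ℚ))) *
    (∏ m ∈ Finset.Ico (3 * n) (4 * n), (X + C (m : ℚ))) * e3

lemma ZM_comp (n : ℕ) : (ZM n).comp (-X - C ((16 * n : ℕ) : ℚ)) = ZM n := by
  unfold ZM
  rw [Polynomial.mul_comp, Polynomial.mul_comp, Polynomial.pow_comp, OM_comp,
    comp_prod (16 * n) (Finset.range (3 * n)) (Finset.Icc (13 * n + 1) (16 * n))
      (fun m hm => by rw [Finset.mem_range] at hm; rw [Finset.mem_Icc]; omega)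
      (fun m hm => by rw [Finset.mem_Icc] at hm; rw [Finset.mem_range]; omega),
    comp_prod (16 * n) (Finset.Icc (13 * n + 1) (16 * n)) (Finset.range (3 * n))
      (fun m hm => by rw [Finset.mem_Icc] at hm; rw [Finset.mem_range]; omega)
      (fun m hm => by rw [Finset.mem_range] at hm; rw [Finset.mem_Icc]; omega)]
  have e2 : (Finset.Icc (13 * n + 1) (16 * n)).card = 3 * n := by rw [Nat.card_Icc]; omega
  rw [Finset.card_range, e2]
  have e3 : ((-1 : ℚ[X]) ^ (3 * n)) * (-1) ^ (3 * n) = 1 := by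
    rw [← pow_add, ← two_mul, pow_mul]; simp
  linear_combination (∏ m ∈ Finset.Icc (13 * n + 1) (16 * n), (X + C (m : ℚ))) *
    (∏ m ∈ Finset.range (3 * n), (X + C (m : ℚ))) * OM n ^ 2 * e3

lemma PM_comp (n : ℕ) : (PM n).comp (-X - C ((16 * n : ℕ) : ℚ)) = - PM n := by
  unfold PM
  rw [Polynomial.mul_comp, Polynomial.mul_comp, ZM_comp, Polynomial.C_comp]
  have h1 : (2 * X + C ((16 * n : ℕ) : ℚ) : ℚ[X]).comp (-X - C ((16 * n : ℕ) : ℚ)) =
      -(2 * X + C ((16 * n : ℕ) : ℚ)) := by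
    simp only [Polynomial.add_comp, Polynomial.mul_comp, Polynomial.X_comp, Polynomial.C_comp,
      Polynomial.ofNat_comp]
    ring
  rw [h1]
  ring

lemma xM_comp (n : ℕ) : (xM n).comp (-X - C ((16 * n : ℕ) : ℚ)) = xM n := by
  unfold xM
  rw [Polynomial.pow_comp]
  simp only [Polynomial.add_comp, Polynomial.X_comp, Polynomial.C_comp]
  have : (C ((16 * n : ℕ) : ℚ) : ℚ[X]) = 2 * C ((8 * n : ℕ) : ℚ) := by
    rw [show ((16 * n : ℕ) : ℚ) = 2 * ((8 * n : ℕ) : ℚ) by push_cast; ring, map_mul, map_ofNat]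
  rw [this]
  ring

lemma P_comp (n : ℕ) (Q : ℚ[X]) :
    (PM n * EM n Q).comp (-X - C ((16 * n : ℕ) : ℚ)) = -(PM n * EM n Q) := by
  rw [Polynomial.mul_comp, PM_comp]
  have : (EM n Q).comp (-X - C ((16 * n : ℕ) : ℚ)) = EM n Q := by
    unfold EM
    rw [Polynomial.comp_assoc, xM_comp]
  rw [this]
  ring

lemma deg_prod (S : Finset ℕ) : (∏ m ∈ S, (X + C (m : ℚ) : ℚ[X])).natDegree ≤ S.card := by
  refine (Polynomial.natDegree_prod_le _ _).trans ?_
  refine (Finset.sum_le_card_nsmul _ _ 1 fun m _ => by rw [Polynomial.natDegree_X_add_C]).trans ?_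
  simp

lemma deg {n : ℕ} (hn : 10 ≤ n) (Q : ℚ[X]) (hQ : Q.natDegree ≤ 30 * n) :
    (PM n * EM n Q).natDegree + 2 ≤ (QQ (sM n) mM).natDegree := by
  have h0 : (QQ (sM n) mM).natDegree = 8 * (10 * n + 1) := by
    rw [QQ_natDegree, Finset.sum_const, Nat.card_Icc, smul_eq_mul]
    have : 13 * n + 1 - 3 * n = 10 * n + 1 := by omega
    rw [this, mul_comm]
  have h1 : (EM n Q).natDegree ≤ (34 + Q.natDegree) * 2 := by
    unfold EM
    refine Polynomial.natDegree_comp_le.trans ?_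
    have h2 : (xM n).natDegree ≤ 2 := by
      unfold xM
      refine Polynomial.natDegree_pow_le.trans ?_
      rw [Polynomial.natDegree_X_add_C]
    have h3 : (X ^ 34 * Q).natDegree ≤ 34 + Q.natDegree := by
      refine Polynomial.natDegree_mul_le.trans ?_
      rw [Polynomial.natDegree_X_pow]
    exact Nat.mul_le_mul h3 h2
  have hO : (OM n).natDegree ≤ 2 * n := by
    unfold OM
    refine Polynomial.natDegree_mul_le.trans ((add_le_add (deg_prod _) (deg_prod _)).trans ?_)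
    rw [Nat.card_Ico, Nat.card_Icc]
    omega
  have h2 : (ZM n).natDegree ≤ 10 * n := by
    unfold ZM
    have e1 : ((∏ m ∈ Finset.range (3 * n), (X + C (m : ℚ) : ℚ[X])) *
        (∏ m ∈ Finset.Icc (13 * n + 1) (16 * n), (X + C (m : ℚ)))).natDegree ≤ 6 * n := by
      refine Polynomial.natDegree_mul_le.trans ((add_le_add (deg_prod _) (deg_prod _)).trans ?_)
      rw [Finset.card_range, Nat.card_Icc]
      omega
    have e2 : (OM n ^ 2).natDegree ≤ 2 * (2 * n) :=
      Polynomial.natDegree_pow_le.trans (Nat.mul_le_mul_left 2 hO)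
    refine Polynomial.natDegree_mul_le.trans ((add_le_add e1 e2).trans ?_)
    omega
  have h3 : (PM n).natDegree ≤ 1 + 10 * n := by
    unfold PM
    refine Polynomial.natDegree_mul_le.trans (add_le_add ?_ h2)
    refine (Polynomial.natDegree_C_mul_le _ _).trans ?_
    compute_degree
  have h4 : (PM n * EM n Q).natDegree ≤ (PM n).natDegree + (EM n Q).natDegree :=
    Polynomial.natDegree_mul_le
  rw [h0]
  omega

lemma eval_Ico (a b t : ℕ) (hab : a ≤ b) :
    (∏ m ∈ Finset.Ico a b, (X + C (m : ℚ) : ℚ[X])).eval ((t : ℚ) + 1) =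
      ((b + t).factorial : ℚ) / ((a + t).factorial : ℚ) := by
  rw [Polynomial.eval_prod, eq_div_iff (by exact_mod_cast Nat.factorial_ne_zero _)]
  have := Pool.Agent.H574R2.D3.B1_prod_fact (a + t) (b - a)
  rw [show b + t = a + t + (b - a) by omega, ← this]
  congr 1
  rw [Finset.prod_Ico_eq_prod_range]
  apply Finset.prod_congr rfl
  intro m _
  simp only [Polynomial.eval_add, Polynomial.eval_X, Polynomial.eval_C]
  push_cast
  ring

lemma eval_OM (n t : ℕ) : (OM n).eval ((t : ℚ) + 1) =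
    (((4 * n + t).factorial : ℚ) / ((3 * n + t).factorial : ℚ)) *
      (((13 * n + 1 + t).factorial : ℚ) / ((12 * n + 1 + t).factorial : ℚ)) := by
  unfold OM
  rw [Polynomial.eval_mul, eval_Ico _ _ _ (by omega)]
  congr 1
  rw [show Finset.Icc (12 * n + 1) (13 * n) = Finset.Ico (12 * n + 1) (13 * n + 1) by
    ext x; simp [Finset.mem_Icc, Finset.mem_Ico], eval_Ico _ _ _ (by omega)]

lemma eval_ZM (n t : ℕ) : (ZM n).eval ((t : ℚ) + 1) =
    (((3 * n + t).factorial : ℚ) / (t.factorial : ℚ)) *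
      (((16 * n + 1 + t).factorial : ℚ) / ((13 * n + 1 + t).factorial : ℚ)) *
      ((((4 * n + t).factorial : ℚ) / ((3 * n + t).factorial : ℚ)) *
      (((13 * n + 1 + t).factorial : ℚ) / ((12 * n + 1 + t).factorial : ℚ))) ^ 2 := by
  unfold ZM
  rw [Polynomial.eval_mul, Polynomial.eval_mul, Polynomial.eval_pow, eval_OM]
  congr 2
  · rw [Finset.range_eq_Ico, eval_Ico _ _ _ (by omega), zero_add]
  · rw [show Finset.Icc (13 * n + 1) (16 * n) = Finset.Ico (13 * n + 1) (16 * n + 1) by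
      ext x; simp [Finset.mem_Icc, Finset.mem_Ico], eval_Ico _ _ _ (by omega)]

lemma eval_QQ (n t : ℕ) : (QQ (sM n) mM).eval ((t : ℚ) + 1) =
    (((13 * n + 1 + t).factorial : ℚ) / ((3 * n + t).factorial : ℚ)) ^ 8 := by
  unfold QQ
  rw [Polynomial.eval_prod]
  have h0 : ∀ m ∈ sM n, ((X + C (m : ℚ) : ℚ[X]) ^ mM m).eval ((t : ℚ) + 1) =
      ((X + C (m : ℚ) : ℚ[X]).eval ((t : ℚ) + 1)) ^ 8 := by
    intro m _
    rw [Polynomial.eval_pow]
  rw [Finset.prod_congr rfl h0, Finset.prod_pow]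
  congr 1
  rw [show sM n = Finset.Ico (3 * n) (13 * n + 1) by
    ext x; simp [sM, Finset.mem_Icc, Finset.mem_Ico], ← Polynomial.eval_prod,
    eval_Ico _ _ _ (by omega)]

lemma val (n t : ℕ) (Q : ℚ[X]) :
    (((PM n * EM n Q).eval ((t : ℚ) + 1) / (QQ (sM n) mM).eval ((t : ℚ) + 1) : ℚ) : ℝ) =
      wv n (8 * n + 1 + t) * ((Q.eval (((8 * n + 1 + t : ℕ) : ℚ) ^ 2) : ℚ) : ℝ) := by
  have hE : (EM n Q).eval ((t : ℚ) + 1) = (((8 * n + 1 + t : ℕ) : ℚ)) ^ 68 *
      Q.eval (((8 * n + 1 + t : ℕ) : ℚ) ^ 2) := by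
    unfold EM xM
    rw [Polynomial.eval_comp, Polynomial.eval_mul, Polynomial.eval_pow, Polynomial.eval_X,
      Polynomial.eval_pow, Polynomial.eval_add, Polynomial.eval_X, Polynomial.eval_C, ← pow_mul]
    have : (t : ℚ) + 1 + ((8 * n : ℕ) : ℚ) = ((8 * n + 1 + t : ℕ) : ℚ) := by push_cast; ring
    rw [this]
  have hP : (PM n).eval ((t : ℚ) + 1) =
      ((10 * n).factorial : ℚ) ^ 8 / (((3 * n).factorial : ℚ) ^ 2 * (n.factorial : ℚ) ^ 4) *
      (2 * ((8 * n + 1 + t : ℕ) : ℚ)) *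
      ((((3 * n + t).factorial : ℚ) / (t.factorial : ℚ)) *
      (((16 * n + 1 + t).factorial : ℚ) / ((13 * n + 1 + t).factorial : ℚ)) *
      ((((4 * n + t).factorial : ℚ) / ((3 * n + t).factorial : ℚ)) *
      (((13 * n + 1 + t).factorial : ℚ) / ((12 * n + 1 + t).factorial : ℚ))) ^ 2) := by
    unfold PM cM
    rw [Polynomial.eval_mul, Polynomial.eval_mul, eval_ZM]
    simp only [Polynomial.eval_C, Polynomial.eval_add, Polynomial.eval_mul, Polynomial.eval_X,
      Polynomial.eval_ofNat]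
    congr 2
    push_cast
    ring
  rw [Polynomial.eval_mul, hE, hP, eval_QQ]
  unfold wv
  have e1 : 8 * n + 1 + t + 8 * n = 16 * n + 1 + t := by ring
  have e2 : 8 * n + 1 + t + 5 * n = 13 * n + 1 + t := by ring
  have e3 : 8 * n + 1 + t - 5 * n - 1 = 3 * n + t := by omega
  have e4 : 8 * n + 1 + t - 8 * n - 1 = t := by omega
  have e5 : 8 * n + 1 + t + 4 * n = 12 * n + 1 + t := by ring
  have e6 : 8 * n + 1 + t - 4 * n - 1 = 4 * n + t := by omega
  rw [e1, e2, e3, e4, e5, e6]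
  simp only [Rat.cast_div, Rat.cast_mul, Rat.cast_pow, Rat.cast_natCast, Rat.cast_ofNat]
  rw [show ((((3 * n + t).factorial : ℝ)) / ((13 * n + 1 + t).factorial : ℝ)) ^ 8 =
    1 / (((13 * n + 1 + t).factorial : ℝ) / ((3 * n + t).factorial : ℝ)) ^ 8 by
      rw [one_div, ← inv_pow, inv_div]]
  ring

end B1

theorem B1_hasSum : St_B1_hasSum := by
  intro n hn α β θ h Q hQ
  have hd := B1.deg hn Q hQ
  have h1 := Pool.Agent.H574R2.D3.B1_form (sM n) mM (PM n * EM n Q) hd (3 * n) 8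
    (fun k hk => (Finset.mem_Icc.1 hk).1) (fun k _ => le_rfl) (by
      intro m hm
      have : (ZM n).eval (-(m : ℚ)) = 0 := by
        unfold ZM
        rw [Polynomial.eval_mul, Polynomial.eval_mul, Polynomial.eval_prod,
          Finset.prod_eq_zero (Finset.mem_range.2 hm) (by simp), zero_mul, zero_mul]
      unfold PM
      rw [Polynomial.eval_mul, Polynomial.eval_mul, this, mul_zero, zero_mul])
  have h2 : (fun t : ℕ => wv n (8 * n + 1 + t) * ((Q.eval (((8 * n + 1 + t : ℕ) : ℚ) ^ 2) : ℚ) : ℝ)) =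
      fun t : ℕ => (((PM n * EM n Q).eval ((t : ℚ) + 1) / (QQ (sM n) mM).eval ((t : ℚ) + 1) : ℚ) : ℝ) := by
    funext t
    rw [B1.val]
  rw [h2]
  convert h1 using 1
  rw [AL_apply, BL_apply]
  unfold xa xb rho
  push_cast
  rw [Finset.mul_sum, ← Finset.sum_add_distrib]
  apply Finset.sum_congr rfl
  intro i hi
  rw [Finset.mem_Icc] at hi
  have key : (∑ k ∈ sM n, ((pa (sM n) mM (PM n * EM n Q) k i : ℚ) : ℝ)) *
      ((α i : ℝ) + θ * (β i : ℝ)) = (∑ k ∈ sM n, ((pa (sM n) mM (PM n * EM n Q) k i : ℚ) : ℝ)) *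
      (if i = 1 then 0 else zr i) := by
    by_cases hodd : Odd i
    · by_cases hi1 : i = 1
      · subst hi1
        have h6 := residue_sum (sM n) mM (PM n * EM n Q) hd
        have h4 : (∑ k ∈ sM n, ((pa (sM n) mM (PM n * EM n Q) k 1 : ℚ) : ℝ)) = 0 := by
          have : (((∑ k ∈ sM n, pa (sM n) mM (PM n * EM n Q) k 1 : ℚ)) : ℝ) = 0 := by
            rw [h6]; simp
          push_cast at this
          exact this
        rw [h4, zero_mul, zero_mul]
      · rw [if_neg hi1, h i hodd (by obtain ⟨j, hj⟩ := hodd; omega) (by obtain ⟨j, hj⟩ := hodd; omega)]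
    · have hodd' := Nat.not_odd_iff_even.1 hodd
      have h6 := even_vanish (sM n) mM (PM n * EM n Q) (16 * n)
        (fun k hk => by
          rw [Finset.mem_Icc] at hk ⊢
          omega) (fun k hk => rfl)
        (B1.P_comp n Q) (by
          rw [Finset.sum_const, smul_eq_mul]
          exact (by decide : Even 8).mul_left _) hodd' hi.1
      have h4 : (∑ k ∈ sM n, ((pa (sM n) mM (PM n * EM n Q) k i : ℚ) : ℝ)) = 0 := by
        have : (((∑ k ∈ sM n, pa (sM n) mM (PM n * EM n Q) k i : ℚ)) : ℝ) = 0 := by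
          rw [h6]; simp
        push_cast at this
        exact this
      rw [h4, zero_mul, zero_mul]
  linear_combination key

end

end Pool.Agent.Dim7
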