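import Pool.Agent.Dim7.Iface

/-!
Task C1 of the project D7 (port of D9/C1.lean): p-adic size of the partial fraction coefficients with
an extra factor `E` in the numerator.
-/

open Polynomial Pool.Agent.H337R2

namespace Pool.Agent.Dim7

noncomputable section

namespace C1

variable {p : ℕ} [hp : Fact p.Prime]

lemma range_eq {n : ℕ} (hn : 1 ≤ n) : Finset.range (3 * n) = Finset.Icc 0 (3 * n - 1) := by
  ext x
  simp only [Finset.mem_range, Finset.mem_Icc]
  omega

lemma Ico_eq {n : ℕ} (hn : 1 ≤ n) : Finset.Ico (3 * n) (4 * n) = Finset.Icc (3 * n) (4 * n - 1) := by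
  ext x
  simp only [Finset.mem_Ico, Finset.mem_Icc]
  omega

lemma PB_ZM {n : ℕ} (hn : 1 ≤ n) (k : ℕ) :
    PB p (p : ℚ) (((p : ℚ)⁻¹) ^ (Zp n p k)) (TS (-(k : ℚ)) (ZM n)) := by
  have hp0 : (0 : ℚ) ≤ p := p_pos'.le
  have hinv : (0 : ℚ) ≤ (p : ℚ)⁻¹ := inv_nonneg.2 hp0
  unfold ZM OM Zp
  rw [range_eq hn, Ico_eq hn, mul_pow, ← Finset.prod_pow, ← Finset.prod_pow,
    (TS (-(k : ℚ))).map_mul, (TS (-(k : ℚ))).map_mul, (TS (-(k : ℚ))).map_mul, map_prod, map_prod,
    map_prod, map_prod, mul_add, pow_add, pow_add, pow_add]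
  simp only [map_pow, TS_lin]
  have h1 := PB_block (p := p) 0 (3 * n - 1) 1 k
  have h2 := PB_block (p := p) (13 * n + 1) (16 * n) 1 k
  have h3 := PB_block (p := p) (3 * n) (4 * n - 1) 2 k
  have h4 := PB_block (p := p) (12 * n + 1) (13 * n) 2 k
  simp only [pow_one, one_mul] at h1 h2
  exact PB.mul hp0 (by positivity) (by positivity) (PB.mul hp0 (by positivity) (by positivity) h1 h2)
    (PB.mul hp0 (by positivity) (by positivity) h3 h4)

lemma PB_PM {n : ℕ} (hn : 1 ≤ n) (k : ℕ) :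
    PB p (p : ℚ) (padicNorm p (cM n) * ((p : ℚ)⁻¹) ^ (Zp n p k)) (TS (-(k : ℚ)) (PM n)) := by
  have hp0 : (0 : ℚ) ≤ p := p_pos'.le
  have hinv : (0 : ℚ) ≤ (p : ℚ)⁻¹ := inv_nonneg.2 hp0
  have hcst : 0 ≤ padicNorm p (cM n) := padicNorm.nonneg _
  unfold PM
  rw [(TS (-(k : ℚ))).map_mul, (TS (-(k : ℚ))).map_mul, TS_C, TS_lin2]
  have h1 : padicNorm p (cM n) * ((p : ℚ)⁻¹) ^ (Zp n p k) =
      (padicNorm p (cM n) * 1) * ((p : ℚ)⁻¹) ^ (Zp n p k) := by ring
  rw [h1]
  apply PB.mul hp0 (mul_nonneg hcst zero_le_one) (by positivity) _ (PB_ZM hn k)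
  apply PB.mul hp0 hcst zero_le_one
  · exact PB.C hp0 hcst le_rfl
  · apply PB.lin hp0 zero_le_one
    · have := padicNorm.of_int (p := p) ((16 * n : ℤ) - 2 * k)
      push_cast at this
      rw [show (2 : ℚ) * -(k : ℚ) + ((16 * n : ℕ) : ℚ) = 16 * n - 2 * k by push_cast; ring]
      exact this
    · rw [one_mul]
      have := padicNorm.of_int (p := p) 2
      push_cast at this
      exact this.trans p_one'

lemma PB_PM_int (n : ℕ) (k : ℕ) :
    PB p 1 (padicNorm p (cM n)) (TS (-(k : ℚ)) (PM n)) := by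
  have hcst : 0 ≤ padicNorm p (cM n) := padicNorm.nonneg _
  have hl : ∀ m : ℕ, PB p 1 1 (PowerSeries.X + PowerSeries.C (-(k : ℚ) + m)) := by
    intro m
    apply PB.linX zero_le_one zero_le_one
    · have := padicNorm.of_int (p := p) (-(k : ℤ) + m)
      push_cast at this
      exact this
    · rw [one_mul]
  have hs : ∀ s : Finset ℕ, PB p 1 1 (∏ m ∈ s, (PowerSeries.X + PowerSeries.C (-(k : ℚ) + m))) := by
    intro s
    have := PB.prod (p := p) (ρ := 1) s (fun _ => (1 : ℚ)) _ zero_le_one (fun _ _ => zero_le_one)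
      (fun m _ => hl m)
    simpa using this
  have hm : ∀ f g : PowerSeries ℚ, PB p 1 1 f → PB p 1 1 g → PB p 1 1 (f * g) := by
    intro f g hf hg
    simpa using PB.mul zero_le_one zero_le_one zero_le_one hf hg
  have hO : PB p 1 1 (TS (-(k : ℚ)) (OM n)) := by
    unfold OM
    rw [(TS (-(k : ℚ))).map_mul, map_prod, map_prod]
    simp only [TS_lin]
    exact hm _ _ (hs _) (hs _)
  have h2 : PB p 1 1 (TS (-(k : ℚ)) (ZM n)) := by
    unfold ZM
    rw [pow_two, (TS (-(k : ℚ))).map_mul, (TS (-(k : ℚ))).map_mul, (TS (-(k : ℚ))).map_mul, map_prod,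
      map_prod]
    simp only [TS_lin]
    exact hm _ _ (hm _ _ (hs (Finset.range (3 * n))) (hs (Finset.Icc (13 * n + 1) (16 * n))))
      (hm _ _ hO hO)
  have h3 : PB p 1 1 (PowerSeries.C 2 * PowerSeries.X + PowerSeries.C (2 * -(k : ℚ) + ((16 * n : ℕ) : ℚ))) := by
    apply PB.lin zero_le_one zero_le_one
    · have := padicNorm.of_int (p := p) ((16 * n : ℤ) - 2 * k)
      push_cast at this
      rw [show (2 : ℚ) * -(k : ℚ) + ((16 * n : ℕ) : ℚ) = 16 * n - 2 * k by push_cast; ring]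
      exact this
    · rw [one_mul]
      have := padicNorm.of_int (p := p) 2
      push_cast at this
      exact this
  unfold PM
  rw [(TS (-(k : ℚ))).map_mul, (TS (-(k : ℚ))).map_mul, TS_C, TS_lin2]
  have h4 := PB.mul zero_le_one (by positivity) zero_le_one
    (PB.mul zero_le_one hcst zero_le_one (PB.C (p := p) zero_le_one hcst le_rfl) h3) h2
  simpa using h4

lemma mem_ne {n k m : ℕ} (hm : m ∈ sM n) (hk : k ∈ sM n) (hmk : m ≠ k) (hp2 : 16 * n < p ^ 2) :
    padicNorm p ((m : ℚ) - k) = if (p : ℤ) ∣ (m : ℤ) - k then (p : ℚ)⁻¹ else 1 := by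
  have h1 : ((m : ℤ) - k) ≠ 0 := by
    intro h; apply hmk; omega
  have h2 : |(m : ℤ) - k| < (p : ℤ) ^ 2 := by
    rw [Finset.mem_Icc] at hm hk
    have h3 : ((16 * n : ℕ) : ℤ) < ((p ^ 2 : ℕ) : ℤ) := by exact_mod_cast hp2
    have h4 : (((p ^ 2 : ℕ) : ℤ)) = (p : ℤ) ^ 2 := by push_cast; ring
    rw [← h4, abs_lt]
    omega
  have h3 := norm_small (p := p) h1 h2
  push_cast at h3
  exact h3

omit hp in
lemma Np_eq {n k : ℕ} (hk : k ∈ sM n) : 8 * Np n p k = 8 +
    ∑ m ∈ (sM n).erase k, mM m * (if (p : ℤ) ∣ (m : ℤ) - k then 1 else 0) := by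
  have h1 : Np n p k = ∑ m ∈ sM n, (if (p : ℤ) ∣ (m : ℤ) - k then 1 else 0) := by
    unfold Np cnt
    rw [Finset.card_filter]
  rw [h1, ← Finset.add_sum_erase _ _ hk, ← Finset.mul_sum]
  simp only [sub_self, dvd_zero, if_true]
  ring

end C1

theorem C1_norm_cM : St_C1_norm_cM := by
  intro n p _ hp2
  have hpne : (p : ℚ) ≠ 0 := p_pos'.ne'
  unfold cM oM
  rw [padicNorm.div, padicNorm.mul, padicNorm_pow', padicNorm_pow', padicNorm_pow',
    norm_factorial (by omega), norm_factorial (by omega), norm_factorial (by omega),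
    ← zpow_natCast, ← zpow_natCast, ← zpow_natCast, ← zpow_mul, ← zpow_mul, ← zpow_mul,
    ← zpow_add₀ hpne, ← zpow_sub₀ hpne]
  congr 1
  push_cast
  ring

theorem C1_pa : St_C1_pa := by
  intro n p _ hn hp2 E k hk A hA hE i
  have hp0 : (0 : ℚ) ≤ p := p_pos'.le
  have hpne : (p : ℚ) ≠ 0 := p_pos'.ne'
  have hinv : (0 : ℚ) ≤ (p : ℚ)⁻¹ := inv_nonneg.2 hp0
  have hcst : 0 ≤ padicNorm p (cM n) := padicNorm.nonneg _
  have key : padicNorm p (pa (sM n) mM (PM n * E) k i) ≤
      (padicNorm p (cM n) * ((p : ℚ)⁻¹) ^ (Zp n p k + i) * (p : ℚ) ^ (8 * Np n p k)) * A := by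
    unfold pa
    split_ifs with hi
    · have hPE := PB.mul hp0 (by positivity) hA (C1.PB_PM (p := p) hn k) hE
      rw [← map_mul] at hPE
      have h1 := pfc_bound (p := p) (sM n) mM (PM n * E) k (p : ℚ) _
        (fun m => if (p : ℤ) ∣ (m : ℤ) - k then (p : ℚ) else 1) hp0 (by positivity)
        hPE
        (by
          intro m hm _
          rw [C1.mem_ne (Finset.mem_of_mem_erase hm) hk (Finset.ne_of_mem_erase hm) hp2]
          split_ifs
          · simp
          · simp [(Fact.out : p.Prime).one_lt.le])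
        (by
          intro m _
          split_ifs
          · exact hp0
          · exact zero_le_one) (mM k - i)
      refine h1.trans (le_of_eq ?_)
      rw [prod_ite_pow, C1.Np_eq hk]
      have h3 : ((p : ℚ)⁻¹) ^ i * (p : ℚ) ^ i = 1 := by
        rw [← mul_pow, inv_mul_cancel₀ hpne, one_pow]
      have h4 : (p : ℚ) ^ 8 = (p : ℚ) ^ (mM k - i) * (p : ℚ) ^ i := by
        rw [← pow_add, Nat.sub_add_cancel hi]
      rw [pow_add, pow_add, h4]
      linear_combination (padicNorm p (cM n) * ((p : ℚ)⁻¹) ^ (Zp n p k) *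
        (p : ℚ) ^ (∑ m ∈ (sM n).erase k, mM m * (if (p : ℤ) ∣ (m : ℤ) - k then 1 else 0)) *
        (p : ℚ) ^ (mM k - i)) * A * (-1) * h3
    · rw [padicNorm.zero]
      positivity
  refine key.trans (le_of_eq ?_)
  rw [C1_norm_cM hp2]
  congr 1
  rw [inv_pow, ← zpow_natCast, ← zpow_natCast, ← zpow_neg, ← zpow_add₀ hpne, ← zpow_add₀ hpne]
  congr 1
  unfold eM fM
  push_cast; ring

theorem C1_pa_int : St_C1_pa_int := by
  intro n p _ hn E k hk A hA hE i hno
  have hcst : 0 ≤ padicNorm p (cM n) := padicNorm.nonneg _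
  unfold pa
  split_ifs with hi
  · have hPE := PB.mul zero_le_one hcst hA (C1.PB_PM_int (p := p) n k) hE
    rw [← map_mul] at hPE
    have h1 := pfc_bound (p := p) (sM n) mM (PM n * E) k 1 _
      (fun _ => 1) zero_le_one (by positivity) hPE
      (by
        intro m hm _
        have h2 := hno m (Finset.mem_of_mem_erase hm) (Finset.ne_of_mem_erase hm)
        have h3 := (padicNorm.int_eq_one_iff (p := p) _).2 h2
        push_cast at h3
        rw [h3]; simp)
      (by intro m _; exact zero_le_one) (mM k - i)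
    simpa using h1
  · rw [padicNorm.zero]
    positivity

end

end Pool.Agent.Dim7
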