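import Pool.Agent.Dim7.Iface
import Pool.Agent.H574R2.D3.C4

/-!
# Polynomials with zeros at consecutive integers: `p`-adic size
-/

open Polynomial Pool.Agent.H337R2

namespace Pool.Agent.Dim7

open Pool.Agent.H336R2.HD (C4_PB_add C4_PB_neg fN fN_shift PB_linInt prod_sym)

namespace C4

theorem C4_CP (i : ℕ) : (CP i).Monic ∧ (CP i).natDegree = i :=
  Pool.Agent.H574R2.D3.C4_CP i

lemma C4_TS_xM (n k : ℕ) : TS (-(k : ℚ)) (xM n) =
    (PowerSeries.X + PowerSeries.C ((8 * n - (k : ℤ) : ℤ) : ℚ)) ^ 2 := by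
  unfold xM
  rw [map_pow, TS_lin]
  push_cast
  congr 3
  ring

lemma C4_TS_CP (n k i : ℕ) : TS (-(k : ℚ)) ((CP i).comp (xM n)) =
    ∏ l ∈ Finset.range i, ((PowerSeries.X + PowerSeries.C ((8 * n - k - l : ℤ) : ℚ)) *
      (PowerSeries.X + PowerSeries.C ((8 * n - k + l : ℤ) : ℚ))) := by
  unfold CP Pool.Agent.H574R2.D3.CP
  rw [Polynomial.prod_comp, map_prod]
  apply Finset.prod_congr rfl
  intro l _
  rw [Polynomial.sub_comp, Polynomial.X_comp, Polynomial.C_comp]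
  have : xM n - C ((l : ℚ) ^ 2) =
      (X + C (8 * (n : ℚ) - l)) * (X + C (8 * (n : ℚ) + l)) := by
    unfold xM
    simp only [map_sub, map_add, map_mul, map_pow, Nat.cast_mul, Nat.cast_ofNat]
    ring
  rw [this, map_mul, TS_lin, TS_lin]
  push_cast
  congr 3 <;> ring

lemma C4_PB_CP {n p : ℕ} [Fact p.Prime] (ρ : ℚ) (hρ1 : 1 ≤ ρ)
    (hρ : ∀ l : ℕ, 1 ≤ l → l ≤ 40 * n → (padicNorm p (l : ℚ))⁻¹ ≤ ρ) (i : ℕ) (hi : 2 * i ≤ 40 * n)
    (k : ℕ) :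
    PB p ρ (padicNorm p (((2 * i - 1).factorial : ℕ) : ℚ)) (TS (-(k : ℚ)) ((CP i).comp (xM n))) := by
  have hρ0 : (0 : ℚ) ≤ ρ := by linarith
  rw [C4_TS_CP]
  rcases i with _ | i
  · simpa using PB.one (p := p) hρ0
  · have h := prod_sym (8 * n - k) i
    rw [h]
    have h2 := PB.mul hρ0 zero_le_one (padicNorm.nonneg _) (PB_linInt (p := p) hρ1 (8 * n - k))
      (Pool.Agent.H574R2.D3.C4_PB_fN (40 * n) ρ hρ1 hρ (2 * i + 1) (by omega) (8 * n - k - i))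
    rw [one_mul] at h2
    rw [show 2 * (i + 1) - 1 = 2 * i + 1 by omega]
    exact h2

end C4

open C4 in
theorem C4_CP_PB : St_C4_CP_PB := by
  intro n p _ hn ρ hρ1 hρ i j hi hj k
  have hρ0 : (0 : ℚ) ≤ ρ := by linarith
  have h1 : TS (-(k : ℚ)) (EM n (CP i * CP j)) =
      (TS (-(k : ℚ)) (xM n)) ^ 34 * (TS (-(k : ℚ)) ((CP i).comp (xM n)) *
        TS (-(k : ℚ)) ((CP j).comp (xM n))) := by
    unfold EM
    rw [Polynomial.mul_comp, Polynomial.mul_comp, Polynomial.pow_comp, Polynomial.X_comp, map_mul,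
      map_mul, map_pow]
  rw [h1, C4_TS_xM]
  have h2 : PB p ρ 1 (((PowerSeries.X + PowerSeries.C ((8 * n - (k : ℤ) : ℤ) : ℚ)) ^ 2) ^ 34) := by
    have := PB.pow hρ0 (by norm_num) (PB.pow hρ0 zero_le_one
      (PB_linInt (p := p) hρ1 (8 * n - (k : ℤ))) 2) 34
    simpa using this
  have h3 := PB.mul hρ0 (padicNorm.nonneg _) (padicNorm.nonneg _) (C4_PB_CP ρ hρ1 hρ i hi k)
    (C4_PB_CP ρ hρ1 hρ j hj k)
  have h4 := PB.mul hρ0 zero_le_one (mul_nonneg (padicNorm.nonneg _) (padicNorm.nonneg _)) h2 h3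
  rwa [one_mul] at h4

end Pool.Agent.Dim7
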