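import Pool.Agent.Dim7.Iface
import Pool.Agent.H574R2.D3.D2

/-!
# Project D7: class pairs and the exponents `f_p`, `e_p` (helper480, job 4119; port of `H574R2/D9/D2.lean`)

* `D2_kap_mem : St_D2_kap_mem`, `D2_eM_kap : St_D2_eM_kap`;
* `D2.fM_congr`, `D2.eM_congr` : the exponents depend on `k % p` only;
* `D2.fM_refl`, `D2.eM_refl` : they are invariant under `k ↦ 16 n - k`;
* `D2.fM_kap` : `fM n p (kap n p k) = fM n p k`.
-/

open Polynomial Pool.Agent.H337R2

namespace Pool.Agent.Dim7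

noncomputable section

theorem D2_kap_mem : St_D2_kap_mem := by
  intro n p k hp hk
  unfold kap Kset
  rw [Finset.mem_filter, Finset.mem_range]
  refine ⟨(min_le_left _ _).trans_lt (Nat.mod_lt _ hp), ?_⟩
  rcases le_total (k % p) ((16 * n - k) % p) with h | h
  · rw [min_eq_left h, Pool.Agent.H574R2.D3.D2_mod1 hk]
    exact h
  · rw [min_eq_right h, Pool.Agent.H574R2.D3.D2_mod2 hk]
    exact h

namespace D2

lemma Np_congr {n p k k' : ℕ} (h : k % p = k' % p) : Np n p k = Np n p k' := by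
  unfold Np
  simp only [Pool.Agent.H574R2.D3.D2_cnt_congr h]

lemma Zp_congr {n p k k' : ℕ} (h : k % p = k' % p) : Zp n p k = Zp n p k' := by
  unfold Zp
  simp only [Pool.Agent.H574R2.D3.D2_cnt_congr h]

lemma fM_congr {n p k k' : ℕ} (h : k % p = k' % p) : fM n p k = fM n p k' := by
  unfold fM
  rw [Np_congr h, Zp_congr h]

lemma eM_congr {n p k k' : ℕ} (h : k % p = k' % p) : eM n p k = eM n p k' := by
  unfold eM
  rw [fM_congr h]

lemma Np_refl {n p k : ℕ} (hk : k ≤ 16 * n) : Np n p (16 * n - k) = Np n p k := by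
  unfold Np
  rw [Pool.Agent.H574R2.D3.D2_cnt_refl (A := 3 * n) (B := 13 * n) (by omega) (by omega) hk]
  have h1 : 16 * n - 13 * n = 3 * n := by omega
  have h2 : 16 * n - 3 * n = 13 * n := by omega
  rw [h1, h2]

lemma Zp_refl {n p k : ℕ} (hn : 1 ≤ n) (hk : k ≤ 16 * n) : Zp n p (16 * n - k) = Zp n p k := by
  unfold Zp
  rw [Pool.Agent.H574R2.D3.D2_cnt_refl (A := 0) (B := 3 * n - 1) (by omega) (by omega) hk,
    Pool.Agent.H574R2.D3.D2_cnt_refl (A := 13 * n + 1) (B := 16 * n) (by omega) (by omega) hk,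
    Pool.Agent.H574R2.D3.D2_cnt_refl (A := 3 * n) (B := 4 * n - 1) (by omega) (by omega) hk,
    Pool.Agent.H574R2.D3.D2_cnt_refl (A := 12 * n + 1) (B := 13 * n) (by omega) (by omega) hk]
  have h1 : 16 * n - (3 * n - 1) = 13 * n + 1 := by omega
  have h2 : 16 * n - 0 = 16 * n := by omega
  have h3 : 16 * n - 16 * n = 0 := by omega
  have h4 : 16 * n - (13 * n + 1) = 3 * n - 1 := by omega
  have h5 : 16 * n - (4 * n - 1) = 12 * n + 1 := by omega
  have h6 : 16 * n - 3 * n = 13 * n := by omega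
  have h7 : 16 * n - 13 * n = 3 * n := by omega
  have h8 : 16 * n - (12 * n + 1) = 4 * n - 1 := by omega
  rw [h1, h2, h3, h4, h5, h6, h7, h8, add_comm (cnt p (13 * n + 1) (16 * n) k),
    add_comm (cnt p (12 * n + 1) (13 * n) k)]

/-- reflection `k ↦ 16 n - k` for the total order of the class -/
lemma fM_refl {n p k : ℕ} (hn : 1 ≤ n) (hk : k ≤ 16 * n) : fM n p (16 * n - k) = fM n p k := by
  unfold fM
  rw [Np_refl hk, Zp_refl hn hk]

/-- reflection `k ↦ 16 n - k` for the exponent -/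
lemma eM_refl {n p k : ℕ} (hn : 1 ≤ n) (hk : k ≤ 16 * n) : eM n p (16 * n - k) = eM n p k := by
  unfold eM
  rw [fM_refl hn hk]

lemma fM_kap {n p k : ℕ} (hn : 1 ≤ n) (hk : k ≤ 16 * n) : fM n p (kap n p k) = fM n p k := by
  unfold kap
  rcases le_total (k % p) ((16 * n - k) % p) with h | h
  · rw [min_eq_left h]
    exact fM_congr (Nat.mod_mod _ _)
  · rw [min_eq_right h, fM_congr (Nat.mod_mod _ _), fM_refl hn hk]

lemma eM_kap {n p k : ℕ} (hn : 1 ≤ n) (hk : k ≤ 16 * n) : eM n p (kap n p k) = eM n p k := by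
  unfold eM
  rw [fM_kap hn hk]

end D2

theorem D2_eM_kap : St_D2_eM_kap := by
  intro n p k hn _ hk
  exact D2.eM_kap hn hk

end

end Pool.Agent.Dim7
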