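import Pool.Agent.H337R2.Med
import Pool.Agent.H337R2.PsiCert3
import Pool.Agent.H574R2.D3.Defs
import Pool.Agent.H337R2.LZ.Defs

/-!
# Three Q-linearly independent numbers among `1, ζ(3), ζ(5), ζ(7)`: definitions

`R(t) = ((10n)!)^8 / ((3n)!^2 n!^4) (2t+16n) ∏_{m=0}^{3n-1} (t+m) ∏_{m=13n+1}^{16n} (t+m)
  (∏_{m=3n}^{4n-1} (t+m) ∏_{m=12n+1}^{13n} (t+m))^2 / ∏_{k=3n}^{13n} (t+k)^8`,
`x(t) = (t+8n)^2`. With `v = t + 8n`: poles `|v| ≤ 5n` (order 8, really 6 for `4n < |v|`), zeros `5n < |v| ≤ 8n`.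
The numerator is multiplied by `x^34 Q(x)`.
-/

open Polynomial Pool.Agent.H337R2

namespace Pool.Agent.Dim7

noncomputable section

/-- mixed Hankel determinant of size `2m` -/
abbrev MD := Pool.Agent.H574R2.D3.MD

/-- common denominators -/
abbrev UInt := Pool.Agent.H574R2.D3.UInt

/-- `y(y+1)/2` for `y > 0` -/
abbrev T1 := Pool.Agent.H574R2.D3.T1

/-- `⌊(y+1)²/3⌋` for `y > 0` -/
abbrev T3 := Pool.Agent.H574R2.D3.T3

/-- tents `(a - j p)^+` -/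
abbrev tn := Pool.Agent.H574R2.D3.tn

/-- `∫_{lo}^{hi} (α - j y)_+ dy` -/
abbrev It := Pool.Agent.H574R2.D3.It

/-- limit of the floor sums (`J` terms) -/
abbrev Ifl := Pool.Agent.H574R2.D3.Ifl

/-- polynomials with zeros (in `v`) at `0, ±1, ±2, ...` -/
abbrev CP := Pool.Agent.H574R2.D3.CP

/-- the poles are at `-k`, `3n ≤ k ≤ 13n` -/
abbrev sM (n : ℕ) : Finset ℕ := Finset.Icc (3 * n) (13 * n)

/-- all poles have (formal) order 8 -/
abbrev mM : ℕ → ℕ := fun _ => 8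

/-- `(10n)!^8 / ((3n)!^2 n!^4)` -/
def cM (n : ℕ) : ℚ := ((10 * n).factorial : ℚ) ^ 8 / (((3 * n).factorial : ℚ) ^ 2 * (n.factorial : ℚ) ^ 4)

/-- the outer poles, `4n < |t + 8n| ≤ 5n` -/
def OM (n : ℕ) : ℚ[X] :=
  (∏ m ∈ Finset.Ico (3 * n) (4 * n), (X + C (m : ℚ))) * ∏ m ∈ Finset.Icc (12 * n + 1) (13 * n), (X + C (m : ℚ))

/-- the zeros; the outer poles are lowered by two -/
def ZM (n : ℕ) : ℚ[X] :=
  (∏ m ∈ Finset.range (3 * n), (X + C (m : ℚ))) * (∏ m ∈ Finset.Icc (13 * n + 1) (16 * n), (X + C (m : ℚ))) *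
    OM n ^ 2

/-- numerator -/
def PM (n : ℕ) : ℚ[X] := C (cM n) * (2 * X + C ((16 * n : ℕ) : ℚ)) * ZM n

/-- `x(t) = (t + 8n)^2` -/
def xM (n : ℕ) : ℚ[X] := (X + C ((8 * n : ℕ) : ℚ)) ^ 2

/-- `x^34 Q(x)` as a polynomial in `t` -/
def EM (n : ℕ) (Q : ℚ[X]) : ℚ[X] := (X ^ 34 * Q).comp (xM n)

/-- coefficient of `ζ(i)` -/
def rho (n : ℕ) (P : ℚ[X]) (i : ℕ) : ℚ := ∑ k ∈ sM n, pa (sM n) mM P k i

/-- the linear form with `ζ(i)` replaced by `α i` -/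
def xa (n : ℕ) (α : ℕ → ℚ) (P : ℚ[X]) : ℚ :=
  ∑ i ∈ Finset.Icc 1 8, (rho n P i * α i - ∑ k ∈ sM n, pa (sM n) mM P k i * hs i (k - 3 * n))

/-- the linear form in the coefficients -/
def xb (n : ℕ) (β : ℕ → ℚ) (P : ℚ[X]) : ℚ := ∑ i ∈ Finset.Icc 1 8, rho n P i * β i

lemma pa_add (s : Finset ℕ) (μ : ℕ → ℕ) (P Q : ℚ[X]) (k i : ℕ) :
    pa s μ (P + Q) k i = pa s μ P k i + pa s μ Q k i :=
  Pool.Agent.H574R2.D3.pa_add s μ P Q k i

lemma pa_C_mul (s : Finset ℕ) (μ : ℕ → ℕ) (c : ℚ) (P : ℚ[X]) (k i : ℕ) :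
    pa s μ (C c * P) k i = c * pa s μ P k i :=
  Pool.Agent.H574R2.D3.pa_C_mul s μ c P k i

lemma rho_add (n : ℕ) (P Q : ℚ[X]) (i : ℕ) : rho n (P + Q) i = rho n P i + rho n Q i := by
  unfold rho
  rw [← Finset.sum_add_distrib]
  exact Finset.sum_congr rfl fun k _ => pa_add _ _ _ _ _ _

lemma rho_C_mul (n : ℕ) (c : ℚ) (P : ℚ[X]) (i : ℕ) : rho n (C c * P) i = c * rho n P i := by
  unfold rho
  rw [Finset.mul_sum]
  exact Finset.sum_congr rfl fun k _ => pa_C_mul _ _ _ _ _ _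

lemma xa_add (n : ℕ) (α : ℕ → ℚ) (P Q : ℚ[X]) : xa n α (P + Q) = xa n α P + xa n α Q := by
  unfold xa
  rw [← Finset.sum_add_distrib]
  apply Finset.sum_congr rfl
  intro i _
  simp only [rho_add, pa_add, add_mul, Finset.sum_add_distrib]
  ring

lemma xa_C_mul (n : ℕ) (α : ℕ → ℚ) (c : ℚ) (P : ℚ[X]) : xa n α (C c * P) = c * xa n α P := by
  unfold xa
  rw [Finset.mul_sum]
  apply Finset.sum_congr rfl
  intro i _
  simp only [rho_C_mul, pa_C_mul, mul_sub, Finset.mul_sum]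
  congr 1
  · ring
  · exact Finset.sum_congr rfl fun k _ => by ring

lemma xb_add (n : ℕ) (β : ℕ → ℚ) (P Q : ℚ[X]) : xb n β (P + Q) = xb n β P + xb n β Q := by
  unfold xb
  rw [← Finset.sum_add_distrib]
  exact Finset.sum_congr rfl fun i _ => by rw [rho_add, add_mul]

lemma xb_C_mul (n : ℕ) (β : ℕ → ℚ) (c : ℚ) (P : ℚ[X]) : xb n β (C c * P) = c * xb n β P := by
  unfold xb
  rw [Finset.mul_sum]
  exact Finset.sum_congr rfl fun i _ => by rw [rho_C_mul, mul_assoc]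

lemma EM_add (n : ℕ) (P Q : ℚ[X]) : EM n (P + Q) = EM n P + EM n Q := by
  unfold EM
  rw [mul_add, Polynomial.add_comp]

lemma EM_C_mul (n : ℕ) (c : ℚ) (P : ℚ[X]) : EM n (C c * P) = C c * EM n P := by
  unfold EM
  rw [mul_left_comm, Polynomial.mul_comp, Polynomial.C_comp]

/-- the functional `A` -/
def AL (n : ℕ) (α : ℕ → ℚ) : ℚ[X] →ₗ[ℚ] ℚ where
  toFun Q := xa n α (PM n * EM n Q)
  map_add' P Q := by rw [EM_add, mul_add, xa_add]
  map_smul' c P := by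
    rw [RingHom.id_apply, Polynomial.smul_eq_C_mul, EM_C_mul, mul_left_comm, xa_C_mul, smul_eq_mul]

/-- the functional `B` -/
def BL (n : ℕ) (β : ℕ → ℚ) : ℚ[X] →ₗ[ℚ] ℚ where
  toFun Q := xb n β (PM n * EM n Q)
  map_add' P Q := by rw [EM_add, mul_add, xb_add]
  map_smul' c P := by
    rw [RingHom.id_apply, Polynomial.smul_eq_C_mul, EM_C_mul, mul_left_comm, xb_C_mul, smul_eq_mul]

lemma AL_apply (n : ℕ) (α : ℕ → ℚ) (Q : ℚ[X]) : AL n α Q = xa n α (PM n * EM n Q) := rfl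

lemma BL_apply (n : ℕ) (β : ℕ → ℚ) (Q : ℚ[X]) : BL n β Q = xb n β (PM n * EM n Q) := rfl

/-- the determinant of size `20n-20` -/
def DD (n : ℕ) (α β : ℕ → ℚ) : ℚ := MD (AL n α) (BL n β) (10 * n - 10)

/-- number of poles congruent to `-k` -/
def Np (n p k : ℕ) : ℕ := cnt p (3 * n) (13 * n) k

/-- number of zeros congruent to `k`, the outer poles counted twice -/
def Zp (n p k : ℕ) : ℕ := cnt p 0 (3 * n - 1) k + cnt p (13 * n + 1) (16 * n) k +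
  2 * (cnt p (3 * n) (4 * n - 1) k + cnt p (12 * n + 1) (13 * n) k)

/-- order at `p` of the constant `cM` (for `p^2 > 10 n`) -/
def oM (n p : ℕ) : ℤ := 8 * ((10 * n / p : ℕ) : ℤ) - 2 * ((3 * n / p : ℕ) : ℤ) - 4 * ((n / p : ℕ) : ℤ)

/-- the total order of the class -/
def fM (n p k : ℕ) : ℤ := 8 * (Np n p k : ℤ) - Zp n p k

/-- the exponent `e_p(k)` -/
def eM (n p k : ℕ) : ℤ := fM n p k - oM n p

/-- cost of a class with two poles -/
def T2s (E : ℤ) : ℤ := T1 (E / 2) + T1 (E - E / 2)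

/-- cost of a class with three poles, total order `E` (`20 ≤ E ≤ 24`), the `A` columns multiplied by `p`: `ν`
levels in the rows -/
def T3s (ν E : ℤ) : ℤ := T1 ν + T1 (E - 1 - ν) + T1 (E - 3 - ν)

/-- representative of the class pair of `k` (for `k ≤ 16 n`) -/
def kap (n p k : ℕ) : ℕ := min (k % p) ((16 * n - k) % p)

/-- the set of class pairs -/
def Kset (n p : ℕ) : Finset ℕ := (Finset.range p).filter fun r => r ≤ (16 * n - r) % p

/-- lower sites `a` of the classes with exactly two poles `a`, `a + p`, one for each class pair (`10 n / 3 < p < 10 n`) -/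
def Alow (n p : ℕ) : Finset ℕ :=
  (Finset.Icc (3 * n) (13 * n - p)).filter fun a => 2 * a + p < 16 * n ∧ a < 3 * n + p ∧ 13 * n < a + 2 * p

/-- middle sites of the classes with three poles `c - p`, `c`, `c + p`, one for each class pair (`10 n / 3 < p < 5 n`) -/
def Amid (n p : ℕ) : Finset ℕ := (Finset.Icc (3 * n + p) (13 * n - p)).filter fun c => c ≤ 8 * n

/-- exponent for `n/50 < p ≤ 4n` -/
def EA (n p : ℕ) : ℝ :=
  265 / 3 * n - 160 * (n * ((10 * n / p : ℕ) : ℝ)) + 40 * (n * ((3 * n / p : ℕ) : ℝ)) + 80 * (n * ((n / p : ℕ) : ℝ))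
    - 50 / 3 * (n ^ 2 / p) + p / 24 +
    ∑ j ∈ Finset.Icc 1 800, (-(28 / 3) * tn n j p + 14 / 3 * tn (3 * n) j p + 4 / 3 * tn (4 * n) j p
      + 4 / 3 * tn (8 * n) j p + 28 / 3 * tn (9 * n) j p + 49 / 3 * tn (10 * n) j p - 4 / 3 * tn (12 * n) j p
      - 14 / 3 * tn (13 * n) j p + 1 / 3 * tn (16 * n) j p)

/-- exponent for `4n < p < 10n` -/
def EB (n p : ℕ) : ℝ :=
  if 3 * p ≤ 13 * n then 111 * n - 119 / 2 * p
  else if 2 * p ≤ 9 * n then 202 * n - 161 / 2 * p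
  else if p ≤ 5 * n then 85 * n - 109 / 2 * p
  else if 3 * p ≤ 16 * n then 60 * n - 35 / 2 * p
  else if p ≤ 6 * n then 52 * n - 16 * p
  else if 2 * p ≤ 13 * n then 64 * n - 18 * p
  else if p ≤ 7 * n then 155 * n - 32 * p
  else if p ≤ 8 * n then 184 * n - 36 * p
  else if p ≤ 9 * n then 176 * n - 35 * p
  else 50 * n - 21 * p

/-- the exponent -/
def EW (n p : ℕ) : ℝ := if p ≤ 4 * n then EA n p else EB n p

/-- primes between `lo n` and `hi n` -/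
def PS (lo hi : ℝ) (n : ℕ) : Finset ℕ := by
  classical exact (Finset.range (41 * n)).filter (fun p : ℕ => p.Prime ∧ lo * n < p ∧ (p : ℝ) < hi * n)

/-- rational part of the limit for `n/50 < p < 4n` -/
def LA : ℚ := 265 / 3 * (4 - 1 / 50) - 160 * Ifl 10 500 (1 / 50) 4 + 40 * Ifl 3 150 (1 / 50) 4
  + 80 * Ifl 1 50 (1 / 50) 4 + (4 ^ 2 - (1 / 50) ^ 2) / 48 +
  ∑ j ∈ Finset.Icc 1 800, (-(28 / 3) * It 1 j (1 / 50) 4 + 14 / 3 * It 3 j (1 / 50) 4 + 4 / 3 * It 4 j (1 / 50) 4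
    + 4 / 3 * It 8 j (1 / 50) 4 + 28 / 3 * It 9 j (1 / 50) 4 + 49 / 3 * It 10 j (1 / 50) 4
    - 4 / 3 * It 12 j (1 / 50) 4 - 14 / 3 * It 13 j (1 / 50) 4 + 1 / 3 * It 16 j (1 / 50) 4)

/-- limit for `4n < p < 10n` -/
def LB : ℚ := -(3635 / 6)

def LU : ℚ := ∑ j ∈ Finset.Icc 1 2000, (1 / 2 * It 40 j (1 / 50) 40 + It 20 j (1 / 50) 40)

/-! ### Nodes for the archimedean part (coordinate `u = 20 v`) -/

/-- start of the brick `g` (divided by `n`) -/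
def bb : ℕ → ℤ
  | 0 => 160
  | 1 => 180
  | 2 => 200
  | 3 => 220
  | 4 => 240
  | 5 => 260
  | 6 => 282
  | 7 => 325
  | 8 => 392
  | 9 => 516
  | 10 => 0
  | 11 => 7
  | 12 => 14
  | 13 => 21
  | 14 => 28
  | 15 => 35
  | 16 => 43
  | 17 => 50
  | 18 => 58
  | 19 => 67
  | _ => 0

/-- step of the brick `g` -/
def cc : ℕ → ℕ
  | 0 => 20
  | 1 => 20
  | 2 => 20
  | 3 => 20
  | 4 => 20
  | 5 => 22
  | 6 => 43
  | 7 => 67
  | 8 => 124
  | 9 => 307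
  | 10 => 7
  | 11 => 7
  | 12 => 7
  | 13 => 7
  | 14 => 7
  | 15 => 8
  | 16 => 7
  | 17 => 8
  | 18 => 9
  | 19 => 11
  | _ => 1

/-- the nodes (times 20), `i < 20 (n-1)`: `i < 5n-1` are the summation points `v = 8n+1+i`; the first `10(n-1)` nodes
are for the zeta part, the others for the pole part; the brick of `i` is `i / (n-1)` -/
def nd (n i : ℕ) : ℤ :=
  if i < 5 * n - 1 then 20 * (8 * n + 1 + i) else bb (i / (n - 1)) * n + cc (i / (n - 1)) * ((i % (n - 1) : ℕ) : ℤ)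

/-- the nodes in the variable `x = v²` -/
def zq (n i : ℕ) : ℚ := ((nd n i : ℚ) / 20) ^ 2

/-- `∏_{j ∈ s, j ≠ i} (X - z_j)` -/
abbrev lag := Pool.Agent.LZ.lag

/-- `∏_{i, j ∈ s, i ≠ j} |z_i - z_j|` -/
abbrev VD := Pool.Agent.LZ.VD

/-- the value `R(v) v^68` at an integer `v > 8n` -/
def wv (n v : ℕ) : ℝ :=
  (((10 * n).factorial : ℝ) ^ 8 / (((3 * n).factorial : ℝ) ^ 2 * (n.factorial : ℝ) ^ 4)) * (2 * v) *
    ((v + 8 * n).factorial / (v + 5 * n).factorial) *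
    ((v - 5 * n - 1).factorial / (v - 8 * n - 1).factorial) *
    (((v + 5 * n).factorial / (v + 4 * n).factorial) * ((v - 4 * n - 1).factorial / (v - 5 * n - 1).factorial)) ^ 2 *
    ((v - 5 * n - 1).factorial / (v + 5 * n).factorial) ^ 8 * (v : ℝ) ^ 68

/-- `∑ log |x - z_i|` at `x = (u/20)²` over the nodes with index in `s` (with `Real.log 0 = 0`) -/
def Lp (n : ℕ) (s : Finset ℕ) (u : ℤ) : ℝ :=
  ∑ i ∈ s, (Real.log (((u - nd n i : ℤ) : ℝ) / 20) + Real.log (((u + nd n i : ℤ) : ℝ) / 20))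

/-- potential of the brick `g` (with its mirror image) -/
def Ub (g : ℕ) (w : ℝ) : ℝ :=
  ((Psi (w - bb g) - Psi (w - bb g - cc g)) + (Psi (w + bb g + cc g) - Psi (w + bb g))) / cc g - 2 * Real.log 20

/-- `log R(v) = n φ(20 v / n) + O(log n)` -/
def phi (w : ℝ) : ℝ :=
  (Psi (w + 160) - 7 * Psi (w + 100) - 2 * Psi (w + 80) + 2 * Psi (w - 80) + 7 * Psi (w - 100) - Psi (w - 160)) / 20 +
    220 * Real.log 2 + 150 * Real.log 5 - 6 * Real.log 3 - 70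

/-- total potentials -/
def FN (w : ℝ) : ℝ := phi w + 2 * ∑ g ∈ Finset.range 10, Ub g w + ∑ g ∈ Finset.Ico 10 20, Ub g w

def FY (w : ℝ) : ℝ := phi w + ∑ g ∈ Finset.range 10, Ub g w + 2 * ∑ g ∈ Finset.Ico 10 20, Ub g w

/-- antiderivative of `Ψ` -/
abbrev GG := Pool.Agent.LZ.GG

/-- mutual energy of two bricks (with mirror images) -/
def en (g h : ℕ) : ℝ :=
  ((GG (bb g + cc g - bb h) - GG (bb g + cc g - bb h - cc h) - GG (bb g - bb h) + GG (bb g - bb h - cc h)) +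
    (GG (bb g + cc g + bb h + cc h) - GG (bb g + cc g + bb h) - GG (bb g + bb h + cc h) + GG (bb g + bb h))) /
    (cc g * cc h) - 2 * Real.log 20

/-- `∫_160^260 φ / 20` -/
def iphi : ℝ :=
  (((GG 420 - GG 320) - 7 * (GG 360 - GG 260) - 2 * (GG 340 - GG 240) + 2 * (GG 180 - GG 80) + 7 * (GG 160 - GG 60) -
    GG 100) / 20 + 100 * (220 * Real.log 2 + 150 * Real.log 5 - 6 * Real.log 3 - 70)) / 20

/-- saturated part of the energy -/
def eS : ℝ := iphi + ∑ g ∈ Finset.range 5, ∑ h ∈ Finset.range 5, en g h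

/-- energy of the other nodes -/
def eN : ℝ := ∑ g ∈ Finset.Ico 5 10, ∑ h ∈ Finset.Ico 5 10, en g h + ∑ g ∈ Finset.Ico 5 10, ∑ h ∈ Finset.Ico 10 20, en g h +
  ∑ g ∈ Finset.Ico 10 20, ∑ h ∈ Finset.Ico 10 20, en g h

/-! ### Local objects for the non-vanishing at `n = p` -/

/-- node polynomial `x - x(-r)` -/
def XN (n r : ℕ) : ℚ[X] := X - C (((8 * n : ℕ) : ℚ) - r) ^ 2

/-- local power series at the pole `j` (non-vanishing, `n = p`) -/
def ser (j e : ℕ) : PowerSeries ℚ :=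
  (∏ i ∈ ({0, 1, 2, 13, 14, 15} : Finset ℕ), (PowerSeries.X + PowerSeries.C ((i : ℚ) - j))) *
  (∏ i ∈ ({3, 12} : Finset ℕ), (PowerSeries.X + PowerSeries.C ((i : ℚ) - j))) ^ 2 *
  (∏ b ∈ (Finset.Icc 3 12).erase j, iv ((b : ℚ) - j) ^ 8) * (PowerSeries.X + PowerSeries.C (-(j : ℚ))) ^ e

/-- local functional `A` on monomials -/
def Fm (e : ℕ) : ℚ :=
  - ∑ j ∈ Finset.Icc 3 12, ∑ i ∈ Finset.Icc 1 8,
    PowerSeries.coeff (8 - i) (ser j e) * (hs i (j - 3) + (-1) ^ (i + 1) * hs i (12 - j))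

/-- local functional `B` on monomials -/
def Bm (i0 e : ℕ) : ℚ := 2 * ∑ j ∈ Finset.Icc 3 12, PowerSeries.coeff (8 - i0) (ser j e)

/-- the other class pairs, with multiplicity `c` -/
def OT (p r c : ℕ) : ℚ[X] := ∏ r' ∈ (Finset.Icc 1 ((p - 1) / 2)).erase r, XN p r' ^ c

end

end Pool.Agent.Dim7
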