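import Pool.Agent.Dim7.Iface

/-!
# Second moment of the total order
-/

open Pool.Agent.H337R2 Finset

namespace Pool.Agent.Dim7.E2

/-- number of `m < t` congruent to `r` -/
def Nc (p t r : ℕ) : ℕ := ((range t).filter (fun m : ℕ => (p : ℤ) ∣ (m : ℤ) - r)).card

lemma cnt_Nc (p A B r : ℕ) (h : A ≤ B + 1) : (cnt p A B r : ℤ) = Nc p (B + 1) r - Nc p A r := by
  have h1 : Nc p (B + 1) r = Nc p A r + cnt p A B r := by
    unfold Nc cnt
    rw [← card_union_of_disjoint]
    · congr 1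
      ext m
      simp only [mem_filter, mem_union, mem_range, mem_Icc]
      constructor
      · rintro ⟨h1, h2⟩
        by_cases hm : m < A
        · exact Or.inl ⟨hm, h2⟩
        · exact Or.inr ⟨⟨by omega, by omega⟩, h2⟩
      · rintro (⟨h1, h2⟩ | ⟨⟨h1, h3⟩, h2⟩)
        · exact ⟨by omega, h2⟩
        · exact ⟨by omega, h2⟩
    · rw [disjoint_left]
      intro m hm hm'
      simp only [mem_filter, mem_range, mem_Icc] at hm hm'
      omega
  rw [h1]
  push_cast
  ring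

lemma Nc_succ (p t r : ℕ) : (Nc p (t + 1) r : ℤ) = Nc p t r +
    if (p : ℤ) ∣ (t : ℤ) - r then 1 else 0 := by
  unfold Nc
  rw [range_add_one, filter_insert]
  split_ifs with h
  · rw [card_insert_of_notMem (by simp)]
    push_cast
    ring
  · ring

/-- the numbers in `[a, a + d)` congruent to `a + d` -/
lemma last (p : ℕ) (hp : 0 < p) (a d r : ℕ) (h : (p : ℤ) ∣ ((a + d : ℕ) : ℤ) - r) :
    (Nc p (a + d) r : ℤ) - Nc p a r = ((d / p : ℕ) : ℤ) := by
  rcases Nat.eq_zero_or_pos d with rfl | hd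
  · simp
  have h1 : (Nc p (a + d) r : ℤ) - Nc p a r = cnt p a (a + d - 1) r := by
    rw [cnt_Nc p a (a + d - 1) r (by omega), Nat.sub_add_cancel (by omega)]
  rw [h1]
  have h2 : cnt p a (a + d - 1) r = (Icc 1 (d / p)).card := by
    unfold cnt
    symm
    refine card_nbij' (fun j => a + d - j * p) (fun m => (a + d - m) / p) ?_ ?_ ?_ ?_
    · intro j hj
      simp only [coe_Icc, Set.mem_Icc] at hj
      have h3 : j * p ≤ d := (Nat.le_div_iff_mul_le hp).1 hj.2
      have h4 : p ≤ j * p := Nat.le_mul_of_pos_left p hj.1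
      simp only [coe_filter, mem_Icc, Set.mem_ofPred_eq]
      refine ⟨⟨by omega, by omega⟩, ?_⟩
      have h5 : ((a + d - j * p : ℕ) : ℤ) = ((a + d : ℕ) : ℤ) - j * p := by
        rw [Nat.cast_sub (by omega)]
        push_cast
        ring
      rw [h5, show ((a + d : ℕ) : ℤ) - j * p - r = (((a + d : ℕ) : ℤ) - r) - p * j by ring]
      exact dvd_sub h (dvd_mul_right _ _)
    · intro m hm
      simp only [coe_filter, mem_Icc, Set.mem_ofPred_eq] at hm
      obtain ⟨⟨h3, h4⟩, h5⟩ := hm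
      have h6 : (p : ℤ) ∣ ((a + d - m : ℕ) : ℤ) := by
        rw [Nat.cast_sub (by omega)]
        have := dvd_sub h h5
        rwa [show ((a + d : ℕ) : ℤ) - r - ((m : ℤ) - r) = ((a + d : ℕ) : ℤ) - m by ring] at this
      have h7 : p ∣ a + d - m := by exact_mod_cast h6
      simp only [coe_Icc, Set.mem_Icc]
      constructor
      · exact Nat.div_pos (Nat.le_of_dvd (by omega) h7) hp
      · exact Nat.div_le_div_right (by omega)
    · intro j hj
      simp only [coe_Icc, Set.mem_Icc] at hj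
      have h3 : j * p ≤ d := (Nat.le_div_iff_mul_le hp).1 hj.2
      simp only
      rw [show a + d - (a + d - j * p) = j * p by omega]
      exact Nat.mul_div_cancel j hp
    · intro m hm
      simp only [coe_filter, mem_Icc, Set.mem_ofPred_eq] at hm
      obtain ⟨⟨h3, h4⟩, h5⟩ := hm
      have h6 : (p : ℤ) ∣ ((a + d - m : ℕ) : ℤ) := by
        rw [Nat.cast_sub (by omega)]
        have := dvd_sub h h5
        rwa [show ((a + d : ℕ) : ℤ) - r - ((m : ℤ) - r) = ((a + d : ℕ) : ℤ) - m by ring] at this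
      have h7 : p ∣ a + d - m := by exact_mod_cast h6
      simp only
      rw [Nat.div_mul_cancel h7]
      omega
  rw [h2]
  simp

/-- the square sum of the counts of an interval -/
lemma sq_sum (p : ℕ) (hp : 0 < p) (a J : ℕ) : ∀ d : ℕ, d ≤ (J + 1) * p →
    ∑ r ∈ range p, ((Nc p (a + d) r : ℤ) - Nc p a r) ^ 2 =
      d + 2 * ∑ j ∈ Icc 1 J, ((d - j * p : ℕ) : ℤ) := by
  intro d
  induction d with
  | zero => intro _; simp
  | succ d ih =>
    intro hd
    have ih' := ih (by omega)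
    have h1 : ∀ r ∈ range p, ((Nc p (a + (d + 1)) r : ℤ) - Nc p a r) ^ 2 =
        ((Nc p (a + d) r : ℤ) - Nc p a r) ^ 2 +
          if r = (a + d) % p then (2 * ((d / p : ℕ) : ℤ) + 1) else 0 := by
      intro r hr
      rw [mem_range] at hr
      rw [show a + (d + 1) = (a + d) + 1 by ring, Nc_succ]
      have h2 : (p : ℤ) ∣ ((a + d : ℕ) : ℤ) - r ↔ r = (a + d) % p := by
        constructor
        · intro h
          have h4 : ((a + d : ℕ) : ℤ) % p = (r : ℤ) % p := Int.emod_eq_emod_iff_emod_sub_eq_zero.2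
            (Int.emod_eq_zero_of_dvd h)
          have h5 : (a + d) % p = r % p := by exact_mod_cast h4
          rw [h5, Nat.mod_eq_of_lt hr]
        · intro h
          rw [h]
          apply Int.dvd_of_emod_eq_zero
          rw [← Int.emod_eq_emod_iff_emod_sub_eq_zero]
          push_cast
          rw [Int.emod_emod_of_dvd _ (dvd_refl _)]
      by_cases h : r = (a + d) % p
      · rw [if_pos (h2.2 h), if_pos h]
        have h6 := last p hp a d r (h2.2 h)
        linear_combination 2 * h6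
      · rw [if_neg (fun h' => h (h2.1 h')), if_neg h]
        ring
    rw [sum_congr rfl h1, sum_add_distrib, ih', sum_ite_eq' (range p) ((a + d) % p),
      if_pos (mem_range.2 (Nat.mod_lt _ hp))]
    have h3 : ∀ j ∈ Icc 1 J, ((d + 1 - j * p : ℕ) : ℤ) = ((d - j * p : ℕ) : ℤ) +
        if j * p ≤ d then 1 else 0 := by
      intro j _
      split_ifs with h
      · have : d + 1 - j * p = (d - j * p) + 1 := by omega
        rw [this]
        push_cast
        ring
      · have : d + 1 - j * p = 0 := by omega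
        have h' : d - j * p = 0 := by omega
        rw [this, h']
        simp
    rw [sum_congr rfl h3, sum_add_distrib, ← sum_filter, sum_const, nsmul_eq_mul, mul_one]
    have h4 : (Icc 1 J).filter (fun j => j * p ≤ d) = Icc 1 (d / p) := by
      ext j
      simp only [mem_filter, mem_Icc]
      rw [← Nat.le_div_iff_mul_le hp]
      have h5 : d / p ≤ J := by
        have : d / p < J + 1 := (Nat.div_lt_iff_lt_mul hp).2 (by omega)
        omega
      constructor
      · rintro ⟨⟨h6, _⟩, h7⟩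
        exact ⟨h6, h7⟩
      · rintro ⟨h6, h7⟩
        exact ⟨⟨h6, h7.trans h5⟩, h7⟩
    rw [h4, Nat.card_Icc]
    push_cast
    ring

/-- `d + 2 ∑ (d - j p)` -/
def QQ (p d : ℕ) : ℤ := d + 2 * ∑ j ∈ Icc 1 800, ((d - j * p : ℕ) : ℤ)

lemma QQ_le (p d : ℕ) : QQ p d ≤ QQ p (d + 1) := by
  unfold QQ
  have h : ∑ j ∈ Icc 1 800, ((d - j * p : ℕ) : ℤ) ≤ ∑ j ∈ Icc 1 800, ((d + 1 - j * p : ℕ) : ℤ) := by
    apply sum_le_sum
    intro j _
    have : d - j * p ≤ d + 1 - j * p := by omega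
    exact_mod_cast this
  push_cast
  linarith

lemma QQ_succ_le (p d : ℕ) : QQ p (d + 1) ≤ QQ p d + 1601 := by
  unfold QQ
  have h : ∑ j ∈ Icc 1 800, ((d + 1 - j * p : ℕ) : ℤ) ≤
      ∑ j ∈ Icc 1 800, (((d - j * p : ℕ) : ℤ) + 1) := by
    apply sum_le_sum
    intro j _
    have : d + 1 - j * p ≤ (d - j * p) + 1 := by omega
    exact_mod_cast this
  rw [sum_add_distrib] at h
  simp only [sum_const, Nat.card_Icc, nsmul_eq_mul] at h
  push_cast at h ⊢
  linarith

lemma sq_QQ (p n : ℕ) (hp : 0 < p) (hn : n < 50 * p) (a b : ℕ) (hab : a ≤ b)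
    (hb : b ≤ 16 * n + 1) :
    ∑ r ∈ range p, ((Nc p b r : ℤ) - Nc p a r) ^ 2 = QQ p (b - a) := by
  have h := sq_sum p hp a 800 (b - a) (by omega)
  rw [Nat.add_sub_cancel' hab] at h
  exact h

lemma fM_eq (n p r : ℕ) (hn : 1 ≤ n) : fM n p r = 7 * (Nc p (13 * n + 1) r : ℤ) -
    7 * Nc p (3 * n) r + Nc p 0 r - Nc p (16 * n + 1) r - 2 * Nc p (4 * n) r +
      2 * Nc p (12 * n + 1) r := by
  unfold fM Np Zp
  push_cast
  rw [cnt_Nc p (3 * n) (13 * n) r (by omega), cnt_Nc p 0 (3 * n - 1) r (by omega),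
    cnt_Nc p (13 * n + 1) (16 * n) r (by omega), cnt_Nc p (3 * n) (4 * n - 1) r (by omega),
    cnt_Nc p (12 * n + 1) (13 * n) r (by omega), Nat.sub_add_cancel (by omega : 1 ≤ 3 * n),
    Nat.sub_add_cancel (by omega : 1 ≤ 4 * n)]
  ring

lemma sum_eq (n p : ℕ) (hn : 1 ≤ n) (hp : 0 < p) (hnp : n < 50 * p) :
    ∑ r ∈ range p, fM n p r ^ 2 = -28 * QQ p n + 14 * QQ p (3 * n) + 4 * QQ p (4 * n) +
      4 * QQ p (8 * n + 1) + 28 * QQ p (9 * n + 1) + 49 * QQ p (10 * n + 1) -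
      4 * QQ p (12 * n + 1) - 14 * QQ p (13 * n + 1) + QQ p (16 * n + 1) := by
  have k1 := sq_QQ p n hp hnp 0 (3 * n) (by omega) (by omega)
  have k2 := sq_QQ p n hp hnp 0 (4 * n) (by omega) (by omega)
  have k3 := sq_QQ p n hp hnp 0 (12 * n + 1) (by omega) (by omega)
  have k4 := sq_QQ p n hp hnp 0 (13 * n + 1) (by omega) (by omega)
  have k5 := sq_QQ p n hp hnp 0 (16 * n + 1) (by omega) (by omega)
  have k6 := sq_QQ p n hp hnp (3 * n) (4 * n) (by omega) (by omega)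
  have k7 := sq_QQ p n hp hnp (3 * n) (12 * n + 1) (by omega) (by omega)
  have k8 := sq_QQ p n hp hnp (3 * n) (13 * n + 1) (by omega) (by omega)
  have k9 := sq_QQ p n hp hnp (3 * n) (16 * n + 1) (by omega) (by omega)
  have k10 := sq_QQ p n hp hnp (4 * n) (12 * n + 1) (by omega) (by omega)
  have k11 := sq_QQ p n hp hnp (4 * n) (13 * n + 1) (by omega) (by omega)
  have k12 := sq_QQ p n hp hnp (4 * n) (16 * n + 1) (by omega) (by omega)
  have k13 := sq_QQ p n hp hnp (12 * n + 1) (13 * n + 1) (by omega) (by omega)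
  have k14 := sq_QQ p n hp hnp (12 * n + 1) (16 * n + 1) (by omega) (by omega)
  have k15 := sq_QQ p n hp hnp (13 * n + 1) (16 * n + 1) (by omega) (by omega)
  rw [show 3 * n - 0 = 3 * n by omega] at k1
  rw [show 4 * n - 0 = 4 * n by omega] at k2
  rw [show 12 * n + 1 - 0 = 12 * n + 1 by omega] at k3
  rw [show 13 * n + 1 - 0 = 13 * n + 1 by omega] at k4
  rw [show 16 * n + 1 - 0 = 16 * n + 1 by omega] at k5
  rw [show 4 * n - 3 * n = n by omega] at k6
  rw [show 12 * n + 1 - 3 * n = 9 * n + 1 by omega] at k7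
  rw [show 13 * n + 1 - 3 * n = 10 * n + 1 by omega] at k8
  rw [show 16 * n + 1 - 3 * n = 13 * n + 1 by omega] at k9
  rw [show 12 * n + 1 - 4 * n = 8 * n + 1 by omega] at k10
  rw [show 13 * n + 1 - 4 * n = 9 * n + 1 by omega] at k11
  rw [show 16 * n + 1 - 4 * n = 12 * n + 1 by omega] at k12
  rw [show 13 * n + 1 - (12 * n + 1) = n by omega] at k13
  rw [show 16 * n + 1 - (12 * n + 1) = 4 * n by omega] at k14
  rw [show 16 * n + 1 - (13 * n + 1) = 3 * n by omega] at k15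
  have h : ∀ r ∈ range p, fM n p r ^ 2 =
      7 * ((Nc p (3 * n) r : ℤ) - Nc p 0 r) ^ 2 + 2 * ((Nc p (4 * n) r : ℤ) - Nc p 0 r) ^ 2 -
      2 * ((Nc p (12 * n + 1) r : ℤ) - Nc p 0 r) ^ 2 -
      7 * ((Nc p (13 * n + 1) r : ℤ) - Nc p 0 r) ^ 2 +
      ((Nc p (16 * n + 1) r : ℤ) - Nc p 0 r) ^ 2 -
      14 * ((Nc p (4 * n) r : ℤ) - Nc p (3 * n) r) ^ 2 +
      14 * ((Nc p (12 * n + 1) r : ℤ) - Nc p (3 * n) r) ^ 2 +
      49 * ((Nc p (13 * n + 1) r : ℤ) - Nc p (3 * n) r) ^ 2 -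
      7 * ((Nc p (16 * n + 1) r : ℤ) - Nc p (3 * n) r) ^ 2 +
      4 * ((Nc p (12 * n + 1) r : ℤ) - Nc p (4 * n) r) ^ 2 +
      14 * ((Nc p (13 * n + 1) r : ℤ) - Nc p (4 * n) r) ^ 2 -
      2 * ((Nc p (16 * n + 1) r : ℤ) - Nc p (4 * n) r) ^ 2 -
      14 * ((Nc p (13 * n + 1) r : ℤ) - Nc p (12 * n + 1) r) ^ 2 +
      2 * ((Nc p (16 * n + 1) r : ℤ) - Nc p (12 * n + 1) r) ^ 2 +
      7 * ((Nc p (16 * n + 1) r : ℤ) - Nc p (13 * n + 1) r) ^ 2 := by
    intro r _
    rw [fM_eq n p r hn]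
    ring
  rw [sum_congr rfl h]
  simp only [sum_add_distrib, sum_sub_distrib, ← mul_sum]
  rw [k1, k2, k3, k4, k5, k6, k7, k8, k9, k10, k11, k12, k13, k14, k15]
  ring

lemma QQ_cast (p d : ℕ) : ((QQ p d : ℤ) : ℝ) = d + 2 * ∑ j ∈ Icc 1 800, tn d j p := by
  unfold QQ tn Pool.Agent.H574R2.D3.tn
  push_cast
  rfl

end Pool.Agent.Dim7.E2

namespace Pool.Agent.Dim7

open Pool.Agent.Dim7.E2

theorem E2_sq : St_E2_sq := by
  refine ⟨82 * 1601, ?_⟩
  intro n p hn hp hnp
  have h := sum_eq n p hn hp.pos hnp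
  have a1 := QQ_succ_le p (8 * n)
  have a2 := QQ_succ_le p (9 * n)
  have a3 := QQ_succ_le p (10 * n)
  have a4 := QQ_succ_le p (16 * n)
  have a5 := QQ_le p (12 * n)
  have a6 := QQ_le p (13 * n)
  have hle : ∑ r ∈ range p, fM n p r ^ 2 ≤ -28 * QQ p n + 14 * QQ p (3 * n) + 4 * QQ p (4 * n) +
      4 * QQ p (8 * n) + 28 * QQ p (9 * n) + 49 * QQ p (10 * n) -
      4 * QQ p (12 * n) - 14 * QQ p (13 * n) + QQ p (16 * n) + 82 * 1601 := by
    rw [h]
    linarith
  have hr : ((∑ r ∈ range p, fM n p r ^ 2 : ℤ) : ℝ) ≤ ((-28 * QQ p n + 14 * QQ p (3 * n) +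
      4 * QQ p (4 * n) + 4 * QQ p (8 * n) + 28 * QQ p (9 * n) + 49 * QQ p (10 * n) -
      4 * QQ p (12 * n) - 14 * QQ p (13 * n) + QQ p (16 * n) + 82 * 1601 : ℤ) : ℝ) := by
    exact_mod_cast hle
  refine hr.trans (le_of_eq ?_)
  push_cast
  simp only [QQ_cast, sum_add_distrib, sum_sub_distrib, ← mul_sum]
  push_cast
  ring

end Pool.Agent.Dim7
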