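import Pool.Agent.Dim7.Iface
import Pool.Agent.H336R2.HD.E3Base

/-! Task D7-E3A: the exponent for `n / 50 < p ≤ 4 n` (port of H574R2.D9.E3A). -/

open Polynomial Pool.Agent.H337R2

namespace Pool.Agent.Dim7

noncomputable section

namespace E3A

lemma Np_congr {n p k k' : ℕ} (h : k % p = k' % p) : Np n p k = Np n p k' := by
  unfold Np
  rw [Pool.Agent.H336R2.HD.D2_cnt_congr h]

lemma Zp_congr {n p k k' : ℕ} (h : k % p = k' % p) : Zp n p k = Zp n p k' := by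
  unfold Zp
  rw [Pool.Agent.H336R2.HD.D2_cnt_congr (A := 0) h,
    Pool.Agent.H336R2.HD.D2_cnt_congr (A := 13 * n + 1) h,
    Pool.Agent.H336R2.HD.D2_cnt_congr (A := 3 * n) h,
    Pool.Agent.H336R2.HD.D2_cnt_congr (A := 12 * n + 1) h]

lemma Np_refl {n p k : ℕ} (hk : k ≤ 16 * n) : Np n p (16 * n - k) = Np n p k := by
  unfold Np
  rw [Pool.Agent.H336R2.HD.D2_cnt_refl (by omega) (by omega) hk]
  have h1 : 16 * n - 13 * n = 3 * n := by omega
  have h2 : 16 * n - 3 * n = 13 * n := by omega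
  rw [h1, h2]

lemma Zp_refl {n p k : ℕ} (hn : 1 ≤ n) (hk : k ≤ 16 * n) : Zp n p (16 * n - k) = Zp n p k := by
  unfold Zp
  rw [Pool.Agent.H336R2.HD.D2_cnt_refl (A := 0) (by omega) (by omega) hk,
    Pool.Agent.H336R2.HD.D2_cnt_refl (A := 13 * n + 1) (by omega) (by omega) hk,
    Pool.Agent.H336R2.HD.D2_cnt_refl (A := 3 * n) (by omega) (by omega) hk,
    Pool.Agent.H336R2.HD.D2_cnt_refl (A := 12 * n + 1) (by omega) (by omega) hk]
  have h1 : 16 * n - (3 * n - 1) = 13 * n + 1 := by omega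
  have h2 : 16 * n - 0 = 16 * n := by omega
  have h3 : 16 * n - 16 * n = 0 := by omega
  have h4 : 16 * n - (13 * n + 1) = 3 * n - 1 := by omega
  have h5 : 16 * n - (4 * n - 1) = 12 * n + 1 := by omega
  have h6 : 16 * n - 3 * n = 13 * n := by omega
  have h7 : 16 * n - 13 * n = 3 * n := by omega
  have h8 : 16 * n - (12 * n + 1) = 4 * n - 1 := by omega
  rw [h1, h2, h3, h4, h5, h6, h7, h8]
  ring

lemma fM_sym {n p r : ℕ} (hn : 1 ≤ n) (hr : r ≤ 16 * n) :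
    fM n p r = fM n p ((16 * n - r) % p) := by
  unfold fM
  rw [Np_congr (Nat.mod_mod (16 * n - r) p), Zp_congr (Nat.mod_mod (16 * n - r) p),
    Np_refl hr, Zp_refl hn hr]

lemma Np_le {n p : ℕ} (hp : 0 < p) (hpn : n < 50 * p) (r : ℕ) : Np n p r ≤ 501 := by
  have h1 := Pool.Agent.H336R2.HD.E3_cnt_le p (3 * n) (13 * n) r hp (by omega)
  have h2 : (((13 * n : ℕ) : ℤ) - ((3 * n : ℕ) : ℤ) + 1) / (p : ℤ) ≤ 500 := by
    have h3 : (((13 * n : ℕ) : ℤ) - ((3 * n : ℕ) : ℤ) + 1) / (p : ℤ) < 501 := by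
      apply Int.ediv_lt_of_lt_mul (by exact_mod_cast hp)
      push_cast
      omega
    omega
  have h4 : ((Np n p r : ℕ) : ℤ) ≤ 501 := by
    unfold Np
    linarith
  exact_mod_cast h4

lemma T3_le (y : ℤ) : ((T3 (y - 1) : ℤ) : ℝ) ≤ (y : ℝ) ^ 2 / 3 := by
  unfold T3 Pool.Agent.H574R2.D3.T3
  split_ifs
  · rw [sub_add_cancel]
    have h1 : y ^ 2 / 3 * 3 ≤ y ^ 2 := Int.ediv_mul_le _ (by norm_num)
    have h2 : ((y ^ 2 / 3 : ℤ) : ℝ) * 3 ≤ (y : ℝ) ^ 2 := by exact_mod_cast h1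
    linarith
  · simp only [Int.cast_zero]
    positivity

lemma T3_bd (y B : ℤ) (hB : 0 ≤ B) (hy : y ≤ B) : T3 (y - 1) ≤ B ^ 2 := by
  unfold T3 Pool.Agent.H574R2.D3.T3
  split_ifs with h
  · rw [sub_add_cancel]
    have h1 : y ^ 2 ≤ B ^ 2 := by nlinarith
    have h2 : y ^ 2 / 3 ≤ y ^ 2 := Int.ediv_le_self _ (by positivity)
    linarith
  · positivity

lemma sum_fM (n p : ℕ) (hn : 1 ≤ n) (hp : 0 < p) :
    ∑ r ∈ Finset.range p, (fM n p r : ℝ) = 70 * n + 8 := by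
  have a1 := Pool.Agent.H336R2.HD.E3_sum_cnt p (3 * n) (13 * n) hp
  have a2 := Pool.Agent.H336R2.HD.E3_sum_cnt p 0 (3 * n - 1) hp
  have a3 := Pool.Agent.H336R2.HD.E3_sum_cnt p (13 * n + 1) (16 * n) hp
  have a4 := Pool.Agent.H336R2.HD.E3_sum_cnt p (3 * n) (4 * n - 1) hp
  have a5 := Pool.Agent.H336R2.HD.E3_sum_cnt p (12 * n + 1) (13 * n) hp
  rw [show 13 * n + 1 - 3 * n = 10 * n + 1 by omega] at a1
  rw [show 3 * n - 1 + 1 - 0 = 3 * n by omega] at a2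
  rw [show 16 * n + 1 - (13 * n + 1) = 3 * n by omega] at a3
  rw [show 4 * n - 1 + 1 - 3 * n = n by omega] at a4
  rw [show 13 * n + 1 - (12 * n + 1) = n by omega] at a5
  have h : ∑ r ∈ Finset.range p, fM n p r = 70 * (n : ℤ) + 8 := by
    unfold fM Np Zp
    rw [Finset.sum_sub_distrib, ← Finset.mul_sum, ← Nat.cast_sum, ← Nat.cast_sum, a1]
    rw [Finset.sum_add_distrib, Finset.sum_add_distrib, ← Finset.mul_sum,
      Finset.sum_add_distrib, a2, a3, a4, a5]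
    push_cast
    ring
  have h' : ((∑ r ∈ Finset.range p, fM n p r : ℤ) : ℝ) = ((70 * (n : ℤ) + 8 : ℤ) : ℝ) := by
    rw [h]
  push_cast at h'
  exact h'

/-- the algebra at the end -/
lemma final (n p t o S2 Q T K M : ℝ) (hp : 0 < p) (ht1 : t * p ≤ 10 * n + p / 2)
    (ht2 : 10 * n - p / 2 ≤ t * p) (ht0 : 0 ≤ t) (ho : o ≤ 4000)
    (h1 : S2 ≤ 590 * n + 2 * (3 * Q) + K)
    (hT : 2 * T ≤ (S2 - 2 * t * (70 * n + 8) + p * t ^ 2) / 3 + M) :
    (10 * n - 10) * (2 * (t + 1 - o) - 3) + T ≤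
      265 / 3 * n - 20 * (n * o) - 50 / 3 * (n ^ 2 / p) + p / 24 + Q + (K / 6 + M / 2 + 10 ^ 5) := by
  have h4 : 50 / 3 * (n ^ 2 / p) + p * t ^ 2 / 6 - 10 / 3 * n * t ≤ p / 24 := by
    have e1 : 50 / 3 * (n ^ 2 / p) + p * t ^ 2 / 6 - 10 / 3 * n * t =
        (10 * n - t * p) ^ 2 / (6 * p) := by
      field_simp
      ring
    have e2 : p / 24 = (p / 2) ^ 2 / (6 * p) := by
      field_simp
      ring
    rw [e1, e2]
    apply div_le_div_of_nonneg_right _ (by positivity)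
    have h5 : -(p / 2) ≤ 10 * n - t * p := by linarith
    have h6 : 10 * n - t * p ≤ p / 2 := by linarith
    exact sq_le_sq' h5 h6
  nlinarith

end E3A

open E3A in
theorem E3_A_of (hE1 : St_E1_Kset_sum) (hE2 : St_E2_sq) : St_E3_A := by
  obtain ⟨K, hK2⟩ := hE2
  refine ⟨K / 6 + 5000 ^ 2 / 2 + 10 ^ 5, ?_⟩
  intro n p hp hn hpn hpn' hp2 a ha
  have hp0 : 0 < p := hp.pos
  have hn1 : 1 ≤ n := by omega
  have hne : p ≠ 2 := by
    rintro rfl
    omega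
  obtain ⟨tN, htN⟩ : ∃ tN : ℕ, tN = (20 * n + p) / (2 * p) := ⟨_, rfl⟩
  rw [← htN] at ha
  obtain ⟨Y, hY⟩ : ∃ Y : ℕ → ℤ, Y = fun r => fM n p r - (tN : ℤ) := ⟨_, rfl⟩
  have hform : ∀ r, T3 (eM n p r - a) = T3 (Y r - 1) := by
    intro r
    congr 1
    rw [ha, hY]
    unfold eM
    ring
  have hsumK : ∑ κ ∈ Kset n p, T3 (eM n p κ - a) = ∑ κ ∈ Kset n p, T3 (Y κ - 1) :=
    Finset.sum_congr rfl (fun r _ => hform r)
  have hK := hE1 (n := n) hp hne (by omega) (fun r => T3 (Y r - 1)) (5000 ^ 2) (by norm_num)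
    (by
      intro r hr
      show T3 (Y r - 1) = T3 (Y ((16 * n - r) % p) - 1)
      rw [hY]
      simp only
      rw [fM_sym (n := n) (p := p) hn1 (show r ≤ 16 * n by omega)])
    (by
      intro r _
      apply T3_bd _ 5000 (by norm_num)
      have h1 : ((Np n p r : ℕ) : ℤ) ≤ 501 := by exact_mod_cast Np_le hp0 hpn r
      have h2 : (0 : ℤ) ≤ Zp n p r := by positivity
      have h3 : (0 : ℤ) ≤ (tN : ℤ) := by positivity
      simp only [hY]
      unfold fM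
      linarith)
  have hKR : 2 * ((∑ κ ∈ Kset n p, T3 (Y κ - 1) : ℤ) : ℝ) ≤
      ∑ r ∈ Finset.range p, ((T3 (Y r - 1) : ℤ) : ℝ) + 5000 ^ 2 := by
    have : ((2 * ∑ κ ∈ Kset n p, T3 (Y κ - 1) : ℤ) : ℝ) ≤
        ((∑ r ∈ Finset.range p, T3 (Y r - 1) + 5000 ^ 2 : ℤ) : ℝ) := by exact_mod_cast hK
    push_cast at this
    push_cast
    linarith
  obtain ⟨t, ht⟩ : ∃ t : ℝ, t = (tN : ℝ) := ⟨_, rfl⟩
  have hsum : ∑ r ∈ Finset.range p, ((T3 (Y r - 1) : ℤ) : ℝ) ≤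
      (∑ r ∈ Finset.range p, (fM n p r : ℝ) ^ 2 - 2 * t * (70 * n + 8) + p * t ^ 2) / 3 := by
    have h1 : ∀ r ∈ Finset.range p, ((T3 (Y r - 1) : ℤ) : ℝ) ≤
        ((fM n p r : ℝ) ^ 2 - 2 * t * (fM n p r : ℝ) + t ^ 2) / 3 := by
      intro r _
      refine (T3_le (Y r)).trans (le_of_eq ?_)
      rw [ht]
      simp only [hY, Int.cast_sub, Int.cast_natCast]
      ring
    refine (Finset.sum_le_sum h1).trans (le_of_eq ?_)
    rw [← Finset.sum_div]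
    congr 1
    rw [Finset.sum_add_distrib, Finset.sum_sub_distrib, ← Finset.mul_sum, sum_fM n p hn1 hp0,
      Finset.sum_const, Finset.card_range, nsmul_eq_mul]
  have h1 := hK2 hn1 hp hpn
  push_cast at h1
  have hpR : (0 : ℝ) < p := by exact_mod_cast hp0
  have ht1 : t * p ≤ 10 * n + p / 2 := by
    have : (20 * n + p) / (2 * p) * (2 * p) ≤ 20 * n + p := Nat.div_mul_le_self _ _
    rw [← htN] at this
    have h' : ((tN * (2 * p) : ℕ) : ℝ) ≤ ((20 * n + p : ℕ) : ℝ) := by exact_mod_cast this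
    push_cast at h'
    rw [ht]
    linarith
  have ht2 : (10 : ℝ) * n - p / 2 ≤ t * p := by
    have : 20 * n + p < (tN + 1) * (2 * p) := by
      have h5 := Nat.div_add_mod (20 * n + p) (2 * p)
      have h6 := Nat.mod_lt (20 * n + p) (show 0 < 2 * p by omega)
      rw [← htN] at h5
      nlinarith
    have h' : ((20 * n + p : ℕ) : ℝ) ≤ (((tN + 1) * (2 * p) : ℕ) : ℝ) := by exact_mod_cast this.le
    push_cast at h'
    rw [ht]
    linarith
  have ht0 : 0 ≤ t := by rw [ht]; positivity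
  obtain ⟨o, ho⟩ : ∃ o : ℝ, o = (oM n p : ℝ) := ⟨_, rfl⟩
  have ho' : o = 8 * ((10 * n / p : ℕ) : ℝ) - 2 * ((3 * n / p : ℕ) : ℝ) - 4 * ((n / p : ℕ) : ℝ) := by
    rw [ho]
    unfold oM
    simp only [Int.cast_sub, Int.cast_mul, Int.cast_natCast, Int.cast_ofNat]
  have ho1 : o ≤ 4000 := by
    have h2 : ((10 * n / p : ℕ) : ℝ) ≤ 500 := by
      have : 10 * n / p ≤ 500 := by
        apply Nat.div_le_of_le_mul
        omega
      exact_mod_cast this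
    have h3 : (0 : ℝ) ≤ ((3 * n / p : ℕ) : ℝ) := by positivity
    have h4 : (0 : ℝ) ≤ ((n / p : ℕ) : ℝ) := by positivity
    rw [ho']
    linarith
  obtain ⟨Q, hQ⟩ : ∃ Q : ℝ, Q = ∑ j ∈ Finset.Icc 1 800, (-(28 / 3) * tn n j p +
      14 / 3 * tn (3 * n) j p + 4 / 3 * tn (4 * n) j p
      + 4 / 3 * tn (8 * n) j p + 28 / 3 * tn (9 * n) j p + 49 / 3 * tn (10 * n) j p
      - 4 / 3 * tn (12 * n) j p
      - 14 / 3 * tn (13 * n) j p + 1 / 3 * tn (16 * n) j p) := ⟨_, rfl⟩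
  have hQ3 : ∑ j ∈ Finset.Icc 1 800, (-28 * tn n j p + 14 * tn (3 * n) j p + 4 * tn (4 * n) j p
        + 4 * tn (8 * n) j p + 28 * tn (9 * n) j p + 49 * tn (10 * n) j p - 4 * tn (12 * n) j p
        - 14 * tn (13 * n) j p + tn (16 * n) j p) = 3 * Q := by
    rw [hQ, Finset.mul_sum]
    exact Finset.sum_congr rfl fun j _ => by ring
  rw [hQ3] at h1
  have hfin := final n p t o (∑ r ∈ Finset.range p, (fM n p r : ℝ) ^ 2) Q
    ((∑ κ ∈ Kset n p, T3 (Y κ - 1) : ℤ) : ℝ) K (5000 ^ 2) hpR ht1 ht2 ht0 ho1 h1 (by linarith)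
  rw [hsumK]
  have h8 : ((10 * n - 10 : ℕ) : ℝ) = 10 * n - 10 := by
    rw [Nat.cast_sub (by omega)]
    push_cast
    ring
  have haR : (a : ℝ) = t + 1 - o := by
    rw [ha, ht, ho]
    simp only [Int.cast_sub, Int.cast_add, Int.cast_natCast, Int.cast_one]
  rw [Int.cast_add, Int.cast_mul, Int.cast_natCast, h8, Int.cast_sub, Int.cast_mul, haR]
  unfold EA
  rw [← hQ]
  have h9 : 20 * (n * o) = 160 * (n * ((10 * n / p : ℕ) : ℝ)) - 40 * (n * ((3 * n / p : ℕ) : ℝ))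
      - 80 * (n * ((n / p : ℕ) : ℝ)) := by
    rw [ho']
    ring
  push_cast at hfin h9 ⊢
  linarith

end

end Pool.Agent.Dim7
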