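import Pool.Agent.Dim7.Iface

/-! Task E3B1: the exponent for `4n < p ≤ 5n` (helper889). -/

open Polynomial Pool.Agent.H337R2

namespace Pool.Agent.Dim7

namespace E3B1

lemma T1_mono {a b : ℤ} (h : a ≤ b) : T1 a ≤ T1 b := by
  unfold T1 Pool.Agent.H574R2.D3.T1
  split_ifs with h1 h2 h2
  · exact Int.ediv_le_ediv (by norm_num) (by nlinarith)
  · omega
  · positivity
  · exact le_refl _

lemma T1_nonneg (a : ℤ) : 0 ≤ T1 a := by
  unfold T1 Pool.Agent.H574R2.D3.T1
  split_ifs
  · positivity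
  · exact le_refl _

lemma T2s_mono {a b : ℤ} (h : a ≤ b) : T2s a ≤ T2s b := by
  unfold T2s
  exact add_le_add (T1_mono (by omega)) (T1_mono (by omega))

lemma cnt_le {p lo hi k : ℕ} (S : Finset ℕ)
    (hS : ∀ m : ℕ, lo ≤ m → m ≤ hi → ∀ t : ℤ, (m : ℤ) - k = p * t → m ∈ S) :
    cnt p lo hi k ≤ S.card := by
  unfold cnt
  apply Finset.card_le_card
  intro m hm
  rw [Finset.mem_filter, Finset.mem_Icc] at hm
  obtain ⟨⟨h1, h2⟩, t, ht⟩ := hm
  exact hS m h1 h2 t ht

lemma le_cnt {p lo hi k : ℕ} (m : ℕ) (h1 : lo ≤ m) (h2 : m ≤ hi) (t : ℤ)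
    (ht : (m : ℤ) - k = p * t) : 1 ≤ cnt p lo hi k := by
  unfold cnt
  apply Finset.card_pos.2
  exact ⟨m, Finset.mem_filter.2 ⟨Finset.mem_Icc.2 ⟨h1, h2⟩, ⟨t, ht⟩⟩⟩

/-- the total order of the classes with two poles -/
lemma fM_low {n p a : ℕ} (h1 : 4 * n < p) (h2 : p ≤ 5 * n) (ha : a ∈ Alow n p) :
    fM n p a ≤ 15 - (if p ≤ a then 1 else 0) - 2 * (if a < 4 * n then 1 else 0) := by
  unfold Alow at ha
  rw [Finset.mem_filter, Finset.mem_Icc] at ha
  obtain ⟨⟨ha1, ha2⟩, ha3, ha4, ha5⟩ := ha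
  have hN : Np n p a ≤ 2 := by
    unfold Np
    refine (cnt_le ({a, a + p} : Finset ℕ) ?_).trans Finset.card_le_two
    intro m hm1 hm2 t ht
    have t1 : -1 < t := by
      by_contra hc
      have : t ≤ -1 := by omega
      have : (p : ℤ) * t ≤ p * (-1) := mul_le_mul_of_nonneg_left this (by omega)
      omega
    have t2 : t < 2 := by
      by_contra hc
      have : 2 ≤ t := by omega
      have : (p : ℤ) * 2 ≤ p * t := mul_le_mul_of_nonneg_left this (by omega)
      omega
    have t3 : t = 0 ∨ t = 1 := by omega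
    rw [Finset.mem_insert, Finset.mem_singleton]
    rcases t3 with rfl | rfl
    · left; omega
    · right; omega
  have hZ1 : (if p ≤ a then 1 else 0) ≤ cnt p 0 (3 * n - 1) a := by
    split_ifs with h
    · exact le_cnt (a - p) (by omega) (by omega) (-1) (by omega)
    · exact Nat.zero_le _
  have hZ2 : 1 ≤ cnt p (13 * n + 1) (16 * n) a :=
    le_cnt (a + 2 * p) (by omega) (by omega) 2 (by push_cast; ring)
  have hZ3 : (if a < 4 * n then 1 else 0) ≤ cnt p (3 * n) (4 * n - 1) a := by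
    split_ifs with h
    · exact le_cnt a (by omega) (by omega) 0 (by omega)
    · exact Nat.zero_le _
  unfold fM Zp
  split_ifs at hZ1 hZ3 ⊢ <;> omega

/-- the total order of the classes with three poles -/
lemma fM_mid {n p c : ℕ} (h1 : 4 * n < p) (h2 : p ≤ 5 * n) (hc : c ∈ Amid n p) :
    fM n p c ≤ 22 - (if c + 2 * p ≤ 16 * n then 1 else 0) -
      2 * (if 12 * n + 1 ≤ c + p then 1 else 0) := by
  unfold Amid at hc
  rw [Finset.mem_filter, Finset.mem_Icc] at hc
  obtain ⟨⟨hc1, hc2⟩, hc3⟩ := hc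
  have hN : Np n p c ≤ 3 := by
    unfold Np
    refine (cnt_le ({c - p, c, c + p} : Finset ℕ) ?_).trans Finset.card_le_three
    intro m hm1 hm2 t ht
    have t1 : -2 < t := by
      by_contra hc
      have : t ≤ -2 := by omega
      have : (p : ℤ) * t ≤ p * (-2) := mul_le_mul_of_nonneg_left this (by omega)
      omega
    have t2 : t < 2 := by
      by_contra hc
      have : 2 ≤ t := by omega
      have : (p : ℤ) * 2 ≤ p * t := mul_le_mul_of_nonneg_left this (by omega)
      omega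
    have t3 : t = -1 ∨ t = 0 ∨ t = 1 := by omega
    rw [Finset.mem_insert, Finset.mem_insert, Finset.mem_singleton]
    rcases t3 with rfl | rfl | rfl
    · left; omega
    · right; left; omega
    · right; right; omega
  have hZ1 : (if c + 2 * p ≤ 16 * n then 1 else 0) ≤ cnt p (13 * n + 1) (16 * n) c := by
    split_ifs with h
    · exact le_cnt (c + 2 * p) (by omega) (by omega) 2 (by push_cast; ring)
    · exact Nat.zero_le _
  have hZ2 : 1 ≤ cnt p (3 * n) (4 * n - 1) c :=
    le_cnt (c - p) (by omega) (by omega) (-1) (by omega)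
  have hZ3 : (if 12 * n + 1 ≤ c + p then 1 else 0) ≤ cnt p (12 * n + 1) (13 * n) c := by
    split_ifs with h
    · exact le_cnt (c + p) (by omega) (by omega) 1 (by push_cast; ring)
    · exact Nat.zero_le _
  unfold fM Zp
  split_ifs at hZ1 hZ3 ⊢ <;> omega

lemma low_term {n p a : ℕ} (h1 : 4 * n < p) (h2 : p ≤ 5 * n) (ha : a ∈ Alow n p) :
    T2s (fM n p a - 1) ≤ 49 + 7 * (if a < p then 1 else 0) - 14 * (if a < 4 * n then 1 else 0) := by
  have h := fM_low h1 h2 ha
  have t12 : T2s 12 = 42 := by decide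
  have t13 : T2s 13 = 49 := by decide
  have t14 : T2s 14 = 56 := by decide
  by_cases hA : a < p <;> by_cases hB : a < 4 * n
  · have : ¬ p ≤ a := by omega
    simp only [hB, this, if_true, if_false] at h
    simp only [hA, hB, if_true]
    have := T2s_mono (a := fM n p a - 1) (b := 12) (by linarith)
    rw [t12] at this
    linarith
  · have : ¬ p ≤ a := by omega
    simp only [hB, this, if_false] at h
    simp only [hA, hB, if_true, if_false]
    have := T2s_mono (a := fM n p a - 1) (b := 14) (by linarith)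
    rw [t14] at this
    linarith
  · omega
  · have : p ≤ a := by omega
    simp only [hB, this, if_true, if_false] at h
    simp only [hA, hB, if_false]
    have := T2s_mono (a := fM n p a - 1) (b := 13) (by linarith)
    rw [t13] at this
    linarith

lemma mid_term {n p c : ℕ} (h1 : 4 * n < p) (h2 : p ≤ 5 * n) (hc : c ∈ Amid n p) :
    T1 (fM n p c - 8) + 43 ≤ 148 - 14 * (if c + 2 * p ≤ 16 * n then 1 else 0) -
      27 * (if 12 * n + 1 ≤ c + p then 1 else 0) := by
  have h := fM_mid h1 h2 hc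
  have t12 : T1 12 = 78 := by decide
  have t13 : T1 13 = 91 := by decide
  have t14 : T1 14 = 105 := by decide
  by_cases hA : c + 2 * p ≤ 16 * n <;> by_cases hB : 12 * n + 1 ≤ c + p
  · omega
  · simp only [hA, hB, if_true, if_false] at h ⊢
    have := T1_mono (a := fM n p c - 8) (b := 13) (by linarith)
    rw [t13] at this
    linarith
  · simp only [hA, hB, if_true, if_false] at h ⊢
    have := T1_mono (a := fM n p c - 8) (b := 12) (by linarith)
    rw [t12] at this
    linarith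
  · simp only [hA, hB, if_false] at h ⊢
    have := T1_mono (a := fM n p c - 8) (b := 14) (by linarith)
    rw [t14] at this
    linarith

lemma low_sum {n p : ℕ} (h1 : 4 * n < p) (h2 : p ≤ 5 * n) :
    ∑ a ∈ Alow n p, T2s (fM n p a - 1) ≤
      49 * (((16 * n - p - 1) / 2 + 1 - (13 * n + 1 - 2 * p) : ℕ) : ℤ) +
      7 * ((p - (13 * n + 1 - 2 * p) : ℕ) : ℤ) - 14 * ((4 * n - (13 * n + 1 - 2 * p) : ℕ) : ℤ) := by
  set I : Finset ℕ := Finset.Icc (13 * n + 1 - 2 * p) ((16 * n - p - 1) / 2) with hI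
  have hsub : Alow n p ⊆ I := by
    intro a ha
    unfold Alow at ha
    rw [Finset.mem_filter, Finset.mem_Icc] at ha
    rw [hI, Finset.mem_Icc]
    omega
  have hle := Finset.sum_le_sum (s := Alow n p) fun a ha => low_term h1 h2 ha
  have hle2 : ∑ a ∈ Alow n p, ((49 : ℤ) + 7 * (if a < p then 1 else 0) -
      14 * (if a < 4 * n then 1 else 0)) ≤ ∑ a ∈ I, ((49 : ℤ) + 7 * (if a < p then 1 else 0) -
      14 * (if a < 4 * n then 1 else 0)) := by
    apply Finset.sum_le_sum_of_subset_of_nonneg hsub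
    intro a _ _
    split_ifs <;> norm_num
  rw [Finset.sum_sub_distrib (s := I), Finset.sum_add_distrib (s := I), ← Finset.mul_sum,
    ← Finset.mul_sum, Finset.sum_boole, Finset.sum_boole, Finset.sum_const, nsmul_eq_mul, hI,
    Nat.card_Icc] at hle2
  have hU : ((Finset.Icc (13 * n + 1 - 2 * p) ((16 * n - p - 1) / 2)).filter
      (fun a => a < p)).card ≤ p - (13 * n + 1 - 2 * p) := by
    rw [← Nat.card_Ico (13 * n + 1 - 2 * p) p]
    apply Finset.card_le_card
    intro a ha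
    rw [Finset.mem_filter, Finset.mem_Icc] at ha
    rw [Finset.mem_Ico]
    omega
  have hL : 4 * n - (13 * n + 1 - 2 * p) ≤ ((Finset.Icc (13 * n + 1 - 2 * p)
      ((16 * n - p - 1) / 2)).filter (fun a => a < 4 * n)).card := by
    rw [← Nat.card_Ico]
    apply Finset.card_le_card
    intro a ha
    rw [Finset.mem_Ico] at ha
    rw [Finset.mem_filter, Finset.mem_Icc]
    omega
  omega

lemma mid_sum {n p : ℕ} (h1 : 4 * n < p) (h2 : p ≤ 5 * n) :
    ∑ c ∈ Amid n p, (T1 (fM n p c - 8) + 43) ≤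
      148 * ((8 * n + 1 - (3 * n + p) : ℕ) : ℤ) - 14 * ((16 * n - 2 * p + 1 - (3 * n + p) : ℕ) : ℤ) -
      27 * ((8 * n + 1 - max (12 * n + 1 - p) (3 * n + p) : ℕ) : ℤ) := by
  set J : Finset ℕ := Finset.Icc (3 * n + p) (8 * n) with hJ
  have hsub : Amid n p ⊆ J := by
    intro a ha
    unfold Amid at ha
    rw [Finset.mem_filter, Finset.mem_Icc] at ha
    rw [hJ, Finset.mem_Icc]
    omega
  have hle := Finset.sum_le_sum (s := Amid n p) fun a ha => mid_term h1 h2 ha
  have hle2 : ∑ c ∈ Amid n p, ((148 : ℤ) - 14 * (if c + 2 * p ≤ 16 * n then 1 else 0) -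
      27 * (if 12 * n + 1 ≤ c + p then 1 else 0)) ≤ ∑ c ∈ J, ((148 : ℤ) -
      14 * (if c + 2 * p ≤ 16 * n then 1 else 0) - 27 * (if 12 * n + 1 ≤ c + p then 1 else 0)) := by
    apply Finset.sum_le_sum_of_subset_of_nonneg hsub
    intro a _ _
    split_ifs <;> norm_num
  rw [Finset.sum_sub_distrib (s := J), Finset.sum_sub_distrib (s := J), ← Finset.mul_sum,
    ← Finset.mul_sum, Finset.sum_boole, Finset.sum_boole, Finset.sum_const, nsmul_eq_mul, hJ,
    Nat.card_Icc] at hle2
  have hU : 16 * n - 2 * p + 1 - (3 * n + p) ≤ ((Finset.Icc (3 * n + p) (8 * n)).filter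
      (fun c => c + 2 * p ≤ 16 * n)).card := by
    rw [← Nat.card_Icc]
    apply Finset.card_le_card
    intro a ha
    rw [Finset.mem_Icc] at ha
    rw [Finset.mem_filter, Finset.mem_Icc]
    omega
  have hL : 8 * n + 1 - max (12 * n + 1 - p) (3 * n + p) ≤ ((Finset.Icc (3 * n + p)
      (8 * n)).filter (fun c => 12 * n + 1 ≤ c + p)).card := by
    rw [← Nat.card_Icc]
    apply Finset.card_le_card
    intro a ha
    rw [Finset.mem_Icc, max_le_iff] at ha
    rw [Finset.mem_filter, Finset.mem_Icc]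
    omega
  omega

end E3B1

open E3B1

/-- the exponent for `4n < p ≤ 5n` -/
theorem E3_B1 : ∃ K0 : ℝ, ∀ n p : ℕ, p.Prime → 7 ≤ n → 4 * n < p → p ≤ 5 * n →
    ((-(2 * ((10 * n - 10 : ℕ) : ℤ) * oM n p) + ((10 * n - 10 : ℕ) : ℤ) * 1 +
      ∑ a ∈ Alow n p, T2s (fM n p a - 1) + ∑ c ∈ Amid n p, (T1 (fM n p c - 8) + 43) : ℤ) : ℝ) ≤
      EB n p + K0 := by
  refine ⟨1000, ?_⟩
  intro n p _ hn h1 h2
  have hp0 : 0 < p := by omega
  have ho : oM n p = 16 := by
    unfold oM
    have e1 : 10 * n / p = 2 := by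
      rw [Nat.div_eq_iff hp0]
      omega
    have e2 : 3 * n / p = 0 := Nat.div_eq_of_lt (by omega)
    have e3 : n / p = 0 := Nat.div_eq_of_lt (by omega)
    rw [e1, e2, e3]
    norm_num
  have hlow := low_sum h1 h2
  have hmid := mid_sum h1 h2
  rw [ho]
  set S1 := ∑ a ∈ Alow n p, T2s (fM n p a - 1)
  set S2 := ∑ c ∈ Amid n p, (T1 (fM n p c - 8) + 43)
  have hfin : 2 * (-(2 * ((10 * n - 10 : ℕ) : ℤ) * 16) + ((10 * n - 10 : ℕ) : ℤ) * 1 + S1 + S2) ≤
      (if 3 * p ≤ 13 * n then 222 * (n : ℤ) - 119 * p else if 2 * p ≤ 9 * n then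
        404 * (n : ℤ) - 161 * p else 170 * (n : ℤ) - 109 * p) + 2000 := by
    split_ifs with c1 c2
    · rw [max_eq_left (by omega)] at hmid
      omega
    · rw [max_eq_left (by omega)] at hmid
      omega
    · rw [max_eq_right (by omega)] at hmid
      omega
  have hfinR : 2 * ((-(2 * ((10 * n - 10 : ℕ) : ℤ) * 16) + ((10 * n - 10 : ℕ) : ℤ) * 1 + S1 + S2 :
      ℤ) : ℝ) ≤ (if 3 * p ≤ 13 * n then 222 * (n : ℝ) - 119 * p else if 2 * p ≤ 9 * n then
        404 * (n : ℝ) - 161 * p else 170 * (n : ℝ) - 109 * p) + 2000 := by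
    have := (Int.cast_le (R := ℝ)).2 hfin
    push_cast at this ⊢
    exact this
  unfold EB
  split_ifs at hfinR ⊢ <;> linarith

end Pool.Agent.Dim7
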