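import Pool.Agent.Dim7.Iface
import Pool.Agent.H336R2.HD.E3Base

/-!
Exponent for `5n < p ≤ 7n` (written by helper993; model: `H574R2/D9/E3B.lean` of helper642).
-/

open Polynomial Pool.Agent.H337R2

namespace Pool.Agent.Dim7

noncomputable section

namespace E3B2

lemma T1_mono {a b : ℤ} (h : a ≤ b) : T1 a ≤ T1 b := by
  unfold T1 Pool.Agent.H574R2.D3.T1
  split_ifs with h1 h2 h2
  · exact Int.ediv_le_ediv (by norm_num) (by nlinarith)
  · omega
  · positivity
  · exact le_refl _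

lemma T1_nonneg (a : ℤ) : 0 ≤ T1 a := by
  unfold T1 Pool.Agent.H574R2.D3.T1
  split_ifs
  · positivity
  · exact le_refl _

lemma T2s_mono {a b : ℤ} (h : a ≤ b) : T2s a ≤ T2s b := by
  unfold T2s
  exact add_le_add (T1_mono (by omega)) (T1_mono (by omega))

lemma T2s_nonneg (a : ℤ) : 0 ≤ T2s a := by
  unfold T2s
  exact add_nonneg (T1_nonneg _) (T1_nonneg _)

lemma Np_le {n p : ℕ} (h1 : 5 * n < p) (k : ℕ) : ((Np n p k : ℕ) : ℤ) ≤ 2 := by
  have hp : 0 < p := by omega
  have h := Pool.Agent.H336R2.HD.E3_cnt_le p (3 * n) (13 * n) k hp (by omega)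
  have h2 : (((13 * n : ℕ) : ℤ) - ((3 * n : ℕ) : ℤ) + 1) / (p : ℤ) < 2 := by
    apply Int.ediv_lt_of_lt_mul (by exact_mod_cast hp)
    push_cast
    omega
  unfold Np
  omega

/-- a member of the class gives a lower bound for the count -/
lemma cnt_ge {p A B k m : ℕ} (h1 : A ≤ m) (h2 : m ≤ B) (h3 : (p : ℤ) ∣ (m : ℤ) - k) :
    1 ≤ cnt p A B k := by
  unfold cnt
  refine Finset.card_pos.2 ⟨m, ?_⟩
  rw [Finset.mem_filter, Finset.mem_Icc]
  exact ⟨⟨h1, h2⟩, h3⟩

/-- lower bound for the number of zeros -/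
lemma Zp_ge {n p k : ℕ} (h1 : 5 * n < p) (hk1 : 3 * n ≤ k) (hk2 : 2 * k + p < 16 * n) :
    (if p ≤ k then 1 else 0) + (if k + 2 * p ≤ 16 * n then 1 else 0) +
      2 * (if k < 4 * n then 1 else 0) ≤ Zp n p k := by
  have hA : (if p ≤ k then 1 else 0) ≤ cnt p 0 (3 * n - 1) k := by
    split_ifs with h
    · refine cnt_ge (m := k - p) (Nat.zero_le _) (by omega) ⟨-1, ?_⟩
      have : ((k - p : ℕ) : ℤ) = k - p := by omega
      rw [this]
      ring
    · exact Nat.zero_le _
  have hB : (if k + 2 * p ≤ 16 * n then 1 else 0) ≤ cnt p (13 * n + 1) (16 * n) k := by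
    split_ifs with h
    · refine cnt_ge (m := k + 2 * p) (by omega) h ⟨2, ?_⟩
      push_cast
      ring
    · exact Nat.zero_le _
  have hC : (if k < 4 * n then 1 else 0) ≤ cnt p (3 * n) (4 * n - 1) k := by
    split_ifs with h
    · exact cnt_ge (m := k) hk1 (by omega) ⟨0, by ring⟩
    · exact Nat.zero_le _
  unfold Zp
  omega

/-- bound for the cost of a class -/
lemma term_le {n p k : ℕ} (h1 : 5 * n < p) (hk1 : 3 * n ≤ k) (hk2 : 2 * k + p < 16 * n) {E : ℤ}
    (hE : 16 - E ≤ (((if p ≤ k then 1 else 0) + (if k + 2 * p ≤ 16 * n then 1 else 0) +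
      2 * (if k < 4 * n then 1 else 0) : ℕ) : ℤ)) :
    T2s (fM n p k - 1) ≤ T2s (E - 1) := by
  have h2 := Np_le h1 k
  have h3 : (((if p ≤ k then 1 else 0) + (if k + 2 * p ≤ 16 * n then 1 else 0) +
      2 * (if k < 4 * n then 1 else 0) : ℕ) : ℤ) ≤ (Zp n p k : ℤ) := by
    exact_mod_cast Zp_ge h1 hk1 hk2
  apply T2s_mono
  unfold fM
  linarith

lemma sum_le {f : ℕ → ℤ} {c : ℤ} {x y : ℕ} (h : x ≤ y) (hf : ∀ k, x ≤ k → k < y → f k ≤ c) :
    ∑ k ∈ Finset.Ico x y, f k ≤ c * ((y : ℤ) - x) := by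
  have h1 : ∑ k ∈ Finset.Ico x y, f k ≤ ∑ _k ∈ Finset.Ico x y, c :=
    Finset.sum_le_sum fun k hk => by
      rw [Finset.mem_Ico] at hk
      exact hf k hk.1 hk.2
  rw [Finset.sum_const, Nat.card_Ico, nsmul_eq_mul] at h1
  have h2 : ((y - x : ℕ) : ℤ) = (y : ℤ) - x := by omega
  rw [h2] at h1
  linarith

lemma Alow_le {n p : ℕ} {f : ℕ → ℤ} (hf : ∀ k, 0 ≤ f k) :
    ∑ a ∈ Alow n p, f a ≤ ∑ a ∈ Finset.Ico (3 * n) ((16 * n - p + 1) / 2), f a := by
  apply Finset.sum_le_sum_of_subset_of_nonneg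
  · intro a ha
    unfold Alow at ha
    rw [Finset.mem_filter, Finset.mem_Icc] at ha
    rw [Finset.mem_Ico]
    omega
  · intro k _ _
    exact hf k

lemma Amid_empty {n p : ℕ} (h : 5 * n < p) : Amid n p = ∅ := by
  unfold Amid
  rw [Finset.filter_eq_empty_iff]
  intro c hc
  rw [Finset.mem_Icc] at hc
  omega

/-- the sum over the classes -/
lemma main {n p : ℕ} (h1 : 5 * n < p) (h2 : p ≤ 7 * n) :
    2 * ∑ a ∈ Alow n p, T2s (fM n p a - 1) ≤
      (if 3 * p ≤ 16 * n then 420 * (n : ℤ) - 35 * p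
      else if p ≤ 6 * n then 404 * (n : ℤ) - 32 * p
      else if 2 * p ≤ 13 * n then 428 * (n : ℤ) - 36 * p
      else 610 * (n : ℤ) - 64 * p) + 1000 := by
  have hn : 0 < n := by omega
  have h0 := Alow_le (n := n) (p := p) (f := fun a => T2s (fM n p a - 1)) (fun k => T2s_nonneg _)
  set M : ℕ := (16 * n - p + 1) / 2 with hM
  have t15 : T2s (16 - 1) = 64 := by decide
  have t14 : T2s (15 - 1) = 56 := by decide
  have t13 : T2s (14 - 1) = 49 := by decide
  have t12 : T2s (13 - 1) = 42 := by decide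
  split_ifs with c1 c2 c3
  · -- `3p ≤ 16n`
    have s1 := sum_le (f := fun a => T2s (fM n p a - 1)) (c := 42) (x := 3 * n) (y := 4 * n)
      (by omega) (fun k ha hb => by
        rw [← t12]
        refine term_le h1 (by omega) (by omega) ?_
        rw [if_pos (show k + 2 * p ≤ 16 * n by omega), if_pos (show k < 4 * n by omega)]
        push_cast
        split_ifs <;> norm_num)
    have s2 := sum_le (f := fun a => T2s (fM n p a - 1)) (c := 56) (x := 4 * n) (y := p)
      (by omega) (fun k ha hb => by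
        rw [← t14]
        refine term_le h1 (by omega) (by omega) ?_
        rw [if_pos (show k + 2 * p ≤ 16 * n by omega)]
        push_cast
        split_ifs <;> norm_num)
    have s3 := sum_le (f := fun a => T2s (fM n p a - 1)) (c := 49) (x := p) (y := M)
      (by omega) (fun k ha hb => by
        rw [← t13]
        refine term_le h1 (by omega) (by omega) ?_
        rw [if_pos (show k + 2 * p ≤ 16 * n by omega), if_pos ha]
        push_cast
        split_ifs <;> norm_num)
    rw [← Finset.sum_Ico_consecutive _ (show 3 * n ≤ 4 * n by omega) (show 4 * n ≤ M by omega),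
      ← Finset.sum_Ico_consecutive _ (show 4 * n ≤ p by omega) (show p ≤ M by omega)] at h0
    push_cast at s1 s2 s3
    omega
  · -- `16n < 3p`, `p ≤ 6n`
    have s1 := sum_le (f := fun a => T2s (fM n p a - 1)) (c := 42) (x := 3 * n) (y := 4 * n)
      (by omega) (fun k ha hb => by
        rw [← t12]
        refine term_le h1 (by omega) (by omega) ?_
        rw [if_pos (show k + 2 * p ≤ 16 * n by omega), if_pos (show k < 4 * n by omega)]
        push_cast
        split_ifs <;> norm_num)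
    have s2 := sum_le (f := fun a => T2s (fM n p a - 1)) (c := 56) (x := 4 * n)
      (y := 16 * n - 2 * p + 1) (by omega) (fun k ha hb => by
        rw [← t14]
        refine term_le h1 (by omega) (by omega) ?_
        rw [if_pos (show k + 2 * p ≤ 16 * n by omega)]
        push_cast
        split_ifs <;> norm_num)
    have s3 := sum_le (f := fun a => T2s (fM n p a - 1)) (c := 64) (x := 16 * n - 2 * p + 1)
      (y := M) (by omega) (fun k ha hb => by
        rw [← t15]
        refine term_le h1 (by omega) (by omega) ?_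
        push_cast
        split_ifs <;> norm_num)
    rw [← Finset.sum_Ico_consecutive _ (show 3 * n ≤ 4 * n by omega) (show 4 * n ≤ M by omega),
      ← Finset.sum_Ico_consecutive _ (show 4 * n ≤ 16 * n - 2 * p + 1 by omega)
        (show 16 * n - 2 * p + 1 ≤ M by omega)] at h0
    push_cast at s1 s2 s3
    omega
  · -- `6n < p`, `2p ≤ 13n`
    have s1 := sum_le (f := fun a => T2s (fM n p a - 1)) (c := 42) (x := 3 * n)
      (y := 16 * n - 2 * p + 1) (by omega) (fun k ha hb => by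
        rw [← t12]
        refine term_le h1 (by omega) (by omega) ?_
        rw [if_pos (show k + 2 * p ≤ 16 * n by omega), if_pos (show k < 4 * n by omega)]
        push_cast
        split_ifs <;> norm_num)
    have s2 := sum_le (f := fun a => T2s (fM n p a - 1)) (c := 49) (x := 16 * n - 2 * p + 1)
      (y := 4 * n) (by omega) (fun k ha hb => by
        rw [← t13]
        refine term_le h1 (by omega) (by omega) ?_
        rw [if_pos (show k < 4 * n by omega)]
        push_cast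
        split_ifs <;> norm_num)
    have s3 := sum_le (f := fun a => T2s (fM n p a - 1)) (c := 64) (x := 4 * n) (y := M)
      (by omega) (fun k ha hb => by
        rw [← t15]
        refine term_le h1 (by omega) (by omega) ?_
        push_cast
        split_ifs <;> norm_num)
    rw [← Finset.sum_Ico_consecutive _ (show 3 * n ≤ 16 * n - 2 * p + 1 by omega)
        (show 16 * n - 2 * p + 1 ≤ M by omega),
      ← Finset.sum_Ico_consecutive _ (show 16 * n - 2 * p + 1 ≤ 4 * n by omega)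
        (show 4 * n ≤ M by omega)] at h0
    push_cast at s1 s2 s3
    omega
  · -- `13n < 2p`
    have s1 := sum_le (f := fun a => T2s (fM n p a - 1)) (c := 49) (x := 3 * n) (y := 4 * n)
      (by omega) (fun k ha hb => by
        rw [← t13]
        refine term_le h1 (by omega) (by omega) ?_
        rw [if_pos (show k < 4 * n by omega)]
        push_cast
        split_ifs <;> norm_num)
    have s2 := sum_le (f := fun a => T2s (fM n p a - 1)) (c := 64) (x := 4 * n) (y := M)
      (by omega) (fun k ha hb => by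
        rw [← t15]
        refine term_le h1 (by omega) (by omega) ?_
        push_cast
        split_ifs <;> norm_num)
    rw [← Finset.sum_Ico_consecutive _ (show 3 * n ≤ 4 * n by omega) (show 4 * n ≤ M by omega)]
      at h0
    push_cast at s1 s2
    omega

lemma oM_eq {n p : ℕ} (h1 : 5 * n < p) (h2 : p ≤ 7 * n) : oM n p = 8 := by
  have hp0 : 0 < p := by omega
  have e1 : 10 * n / p = 1 := by
    rw [Nat.div_eq_iff hp0]
    omega
  have e2 : 3 * n / p = 0 := Nat.div_eq_of_lt (by omega)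
  have e3 : n / p = 0 := Nat.div_eq_of_lt (by omega)
  unfold oM
  rw [e1, e2, e3]
  norm_num

end E3B2

open E3B2 in
/-- exponent for `5n < p ≤ 7n` -/
theorem E3_B2' : ∃ K0 : ℝ, ∀ n p : ℕ, p.Prime → 7 ≤ n → 5 * n < p → p ≤ 7 * n →
    ((-(2 * ((10 * n - 10 : ℕ) : ℤ) * oM n p) + ((10 * n - 10 : ℕ) : ℤ) * 1 +
      ∑ a ∈ Alow n p, T2s (fM n p a - 1) + ∑ c ∈ Amid n p, (T1 (fM n p c - 8) + 43) : ℤ) : ℝ) ≤
      EB n p + K0 := by
  refine ⟨1000, ?_⟩
  intro n p hp hn h1 h2
  have hm := main h1 h2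
  rw [Amid_empty h1, Finset.sum_empty, oM_eq h1 h2]
  set S : ℤ := ∑ a ∈ Alow n p, T2s (fM n p a - 1) with hS
  have e1 : ((10 * n - 10 : ℕ) : ℤ) = 10 * n - 10 := by omega
  rw [e1]
  unfold EB
  rw [if_neg (show ¬ 3 * p ≤ 13 * n by omega), if_neg (show ¬ 2 * p ≤ 9 * n by omega),
    if_neg (show ¬ p ≤ 5 * n by omega)]
  split_ifs at hm ⊢ with c1 c2 c3
  · have h3 : (2 * (-(2 * (10 * (n : ℤ) - 10) * 8) + (10 * n - 10) * 1 + S + 0)) ≤
        120 * n - 35 * p + 2000 := by linarith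
    have h4 : ((2 * (-(2 * (10 * (n : ℤ) - 10) * 8) + (10 * n - 10) * 1 + S + 0) : ℤ) : ℝ) ≤
        ((120 * n - 35 * p + 2000 : ℤ) : ℝ) := by exact_mod_cast h3
    push_cast at h4 ⊢
    linarith
  · have h3 : (2 * (-(2 * (10 * (n : ℤ) - 10) * 8) + (10 * n - 10) * 1 + S + 0)) ≤
        104 * n - 32 * p + 2000 := by linarith
    have h4 : ((2 * (-(2 * (10 * (n : ℤ) - 10) * 8) + (10 * n - 10) * 1 + S + 0) : ℤ) : ℝ) ≤
        ((104 * n - 32 * p + 2000 : ℤ) : ℝ) := by exact_mod_cast h3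
    push_cast at h4 ⊢
    linarith
  · have h3 : (2 * (-(2 * (10 * (n : ℤ) - 10) * 8) + (10 * n - 10) * 1 + S + 0)) ≤
        128 * n - 36 * p + 2000 := by linarith
    have h4 : ((2 * (-(2 * (10 * (n : ℤ) - 10) * 8) + (10 * n - 10) * 1 + S + 0) : ℤ) : ℝ) ≤
        ((128 * n - 36 * p + 2000 : ℤ) : ℝ) := by exact_mod_cast h3
    push_cast at h4 ⊢
    linarith
  · have h3 : (2 * (-(2 * (10 * (n : ℤ) - 10) * 8) + (10 * n - 10) * 1 + S + 0)) ≤
        310 * n - 64 * p + 2000 := by linarith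
    have h4 : ((2 * (-(2 * (10 * (n : ℤ) - 10) * 8) + (10 * n - 10) * 1 + S + 0) : ℤ) : ℝ) ≤
        ((310 * n - 64 * p + 2000 : ℤ) : ℝ) := by exact_mod_cast h3
    push_cast at h4 ⊢
    linarith

/-- the statement `St_E3_B` restricted to `5n < p ≤ 7n` -/
theorem E3_B2 : ∃ K0 : ℝ, ∀ n p : ℕ, p.Prime → 7 ≤ n → 5 * n < p → p ≤ 7 * n → ∀ τ : ℕ,
    τ = (if p ≤ 7 * n then 1 else 0) →
    ((-(2 * ((10 * n - 10 : ℕ) : ℤ) * oM n p) + ((10 * n - 10 : ℕ) : ℤ) * τ +
      ∑ a ∈ Alow n p, T2s (fM n p a - τ) + ∑ c ∈ Amid n p, (T1 (fM n p c - 8) + 43) : ℤ) : ℝ) ≤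
      EB n p + K0 := by
  obtain ⟨K0, hK⟩ := E3_B2'
  refine ⟨K0, ?_⟩
  intro n p hp hn h1 h2 τ hτ
  rw [if_pos h2] at hτ
  subst hτ
  exact hK n p hp hn h1 h2

end

end Pool.Agent.Dim7
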