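import Pool.Agent.Dim7.Iface
import Pool.Agent.H336R2.HD.E3Base

/-! Task E3B3: the exponent for `7n < p < 10n`. -/

open Polynomial Pool.Agent.H337R2

namespace Pool.Agent.Dim7

noncomputable section

namespace E3B3

lemma T1_mono {a b : ℤ} (h : a ≤ b) : T1 a ≤ T1 b := by
  unfold T1 Pool.Agent.H574R2.D3.T1
  split_ifs with h1 h2 h2
  · exact Int.ediv_le_ediv (by norm_num) (by nlinarith)
  · omega
  · positivity
  · exact le_refl _

lemma T2s_mono {a b : ℤ} (h : a ≤ b) : T2s a ≤ T2s b := by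
  unfold T2s
  exact add_le_add (T1_mono (by omega)) (T1_mono (by omega))

lemma Np_le {n p : ℕ} (h1 : 7 * n < p) (k : ℕ) : ((Np n p k : ℕ) : ℤ) ≤ 2 := by
  have hp : 0 < p := by omega
  have h := Pool.Agent.H336R2.HD.E3_cnt_le p (3 * n) (13 * n) k hp (by omega)
  have h2 : (((13 * n : ℕ) : ℤ) - ((3 * n : ℕ) : ℤ) + 1) / (p : ℤ) < 2 := by
    apply Int.ediv_lt_of_lt_mul (by exact_mod_cast hp)
    push_cast
    omega
  unfold Np
  omega

open Classical in
/-- lower bound for the number of zeros -/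
lemma Zp_ge {n p a : ℕ} (h3 : 3 * n ≤ a) (h13 : a + p ≤ 13 * n) :
    2 * ((if a < 4 * n then 1 else 0) + (if 12 * n < a + p then 1 else 0)) ≤ Zp n p a := by
  have hA : (if a < 4 * n then 1 else 0) ≤ cnt p (3 * n) (4 * n - 1) a := by
    unfold cnt
    split_ifs with h
    · have hsub : ({a} : Finset ℕ) ⊆
          (Finset.Icc (3 * n) (4 * n - 1)).filter (fun m : ℕ => (p : ℤ) ∣ (m : ℤ) - a) := by
        intro m hm
        rw [Finset.mem_singleton] at hm
        rw [Finset.mem_filter, Finset.mem_Icc]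
        subst hm
        exact ⟨by omega, by simp⟩
      have hc := Finset.card_le_card hsub
      rw [Finset.card_singleton] at hc
      exact hc
    · exact Nat.zero_le _
  have hB : (if 12 * n < a + p then 1 else 0) ≤ cnt p (12 * n + 1) (13 * n) a := by
    unfold cnt
    split_ifs with h
    · have hsub : ({a + p} : Finset ℕ) ⊆
          (Finset.Icc (12 * n + 1) (13 * n)).filter (fun m : ℕ => (p : ℤ) ∣ (m : ℤ) - a) := by
        intro m hm
        rw [Finset.mem_singleton] at hm
        rw [Finset.mem_filter, Finset.mem_Icc]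
        subst hm
        refine ⟨by omega, ⟨1, ?_⟩⟩
        push_cast
        ring
      have hc := Finset.card_le_card hsub
      rw [Finset.card_singleton] at hc
      exact hc
    · exact Nat.zero_le _
  unfold Zp
  omega

open Classical in
lemma fM_le {n p a : ℕ} (h1 : 7 * n < p) (h3 : 3 * n ≤ a) (h13 : a + p ≤ 13 * n) :
    fM n p a ≤ 16 - 2 * ((if a < 4 * n then 1 else 0 : ℕ) : ℤ) -
      2 * ((if 12 * n < a + p then 1 else 0 : ℕ) : ℤ) := by
  have hN := Np_le h1 a
  have hZ := Zp_ge (p := p) h3 h13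
  have hZ' : 2 * (((if a < 4 * n then 1 else 0 : ℕ) : ℤ) + ((if 12 * n < a + p then 1 else 0 : ℕ) : ℤ)) ≤
      (Zp n p a : ℤ) := by exact_mod_cast hZ
  unfold fM
  linarith

lemma mem_Alow {n p a : ℕ} : a ∈ Alow n p ↔
    (3 * n ≤ a ∧ a ≤ 13 * n - p) ∧ 2 * a + p < 16 * n ∧ a < 3 * n + p ∧ 13 * n < a + 2 * p := by
  unfold Alow
  rw [Finset.mem_filter, Finset.mem_Icc]

lemma card_Alow {n p : ℕ} : (Alow n p).card ≤ (16 * n - p - 1) / 2 + 1 - 3 * n := by
  rw [← Nat.card_Icc]
  apply Finset.card_le_card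
  intro a ha
  rw [mem_Alow] at ha
  rw [Finset.mem_Icc]
  omega

lemma sum_case1 {n p : ℕ} (h1 : 7 * n < p) (h8 : p ≤ 8 * n) :
    ∑ a ∈ Alow n p, T2s (fM n p a) ≤ 72 * ((Alow n p).card : ℤ) - 16 * n := by
  classical
  have hterm : ∀ a ∈ Alow n p, T2s (fM n p a) ≤ 72 - 16 * (if a < 4 * n then 1 else 0) := by
    intro a ha
    rw [mem_Alow] at ha
    have h := fM_le (n := n) (p := p) (a := a) h1 ha.1.1 (by omega)
    have t16 : T2s 16 = 72 := by decide
    have t14 : T2s 14 = 56 := by decide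
    by_cases h4 : a < 4 * n
    · simp only [h4, if_true] at h ⊢
      have := T2s_mono (a := fM n p a) (b := 14) (by push_cast at h; split_ifs at h <;> linarith)
      rw [t14] at this
      linarith
    · simp only [h4, if_false] at h ⊢
      have := T2s_mono (a := fM n p a) (b := 16) (by push_cast at h; split_ifs at h <;> linarith)
      rw [t16] at this
      linarith
  have hsum := Finset.sum_le_sum hterm
  rw [Finset.sum_sub_distrib, ← Finset.mul_sum, Finset.sum_boole, Finset.sum_const, nsmul_eq_mul] at hsum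
  have hc : n ≤ ((Alow n p).filter (fun a => a < 4 * n)).card := by
    have : n = (Finset.Ico (3 * n) (4 * n)).card := by rw [Nat.card_Ico]; omega
    rw [this]
    apply Finset.card_le_card
    intro a ha
    rw [Finset.mem_Ico] at ha
    rw [Finset.mem_filter, mem_Alow]
    omega
  have hc' : (n : ℤ) ≤ (((Alow n p).filter (fun a => a < 4 * n)).card : ℤ) := by exact_mod_cast hc
  linarith

lemma sum_case2 {n p : ℕ} (h8 : 8 * n < p) (h9 : p ≤ 9 * n) :
    ∑ a ∈ Alow n p, T2s (fM n p a) ≤ 56 * ((Alow n p).card : ℤ) -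
      14 * (((16 * n - p - 1) / 2 + 1 - (12 * n + 1 - p) : ℕ) : ℤ) := by
  classical
  have hterm : ∀ a ∈ Alow n p, T2s (fM n p a) ≤ 56 - 14 * (if 12 * n < a + p then 1 else 0) := by
    intro a ha
    rw [mem_Alow] at ha
    have h := fM_le (n := n) (p := p) (a := a) (by omega) ha.1.1 (by omega)
    have t14 : T2s 14 = 56 := by decide
    have t12 : T2s 12 = 42 := by decide
    have h4 : a < 4 * n := by omega
    simp only [h4, if_true] at h
    by_cases h5 : 12 * n < a + p
    · simp only [h5, if_true] at h ⊢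
      have := T2s_mono (a := fM n p a) (b := 12) (by push_cast at h; linarith)
      rw [t12] at this
      linarith
    · simp only [h5, if_false] at h ⊢
      have := T2s_mono (a := fM n p a) (b := 14) (by push_cast at h; linarith)
      rw [t14] at this
      linarith
  have hsum := Finset.sum_le_sum hterm
  rw [Finset.sum_sub_distrib, ← Finset.mul_sum, Finset.sum_boole, Finset.sum_const, nsmul_eq_mul] at hsum
  have hc : (16 * n - p - 1) / 2 + 1 - (12 * n + 1 - p) ≤ ((Alow n p).filter (fun a => 12 * n < a + p)).card := by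
    rw [← Nat.card_Icc]
    apply Finset.card_le_card
    intro a ha
    rw [Finset.mem_Icc] at ha
    rw [Finset.mem_filter, mem_Alow]
    omega
  have hc' : (((16 * n - p - 1) / 2 + 1 - (12 * n + 1 - p) : ℕ) : ℤ) ≤
    (((Alow n p).filter (fun a => 12 * n < a + p)).card : ℤ) := by exact_mod_cast hc
  linarith

lemma sum_case3 {n p : ℕ} (h9 : 9 * n < p) :
    ∑ a ∈ Alow n p, T2s (fM n p a) ≤ 42 * ((Alow n p).card : ℤ) := by
  classical
  have hterm : ∀ a ∈ Alow n p, T2s (fM n p a) ≤ 42 := by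
    intro a ha
    rw [mem_Alow] at ha
    have h := fM_le (n := n) (p := p) (a := a) (by omega) ha.1.1 (by omega)
    have t12 : T2s 12 = 42 := by decide
    have h4 : a < 4 * n := by omega
    have h5 : 12 * n < a + p := by omega
    simp only [h4, h5, if_true] at h
    have := T2s_mono (a := fM n p a) (b := 12) (by push_cast at h; linarith)
    rw [t12] at this
    exact this
  have hsum := Finset.sum_le_sum hterm
  rw [Finset.sum_const, nsmul_eq_mul] at hsum
  linarith

lemma Amid_empty {n p : ℕ} (h1 : 7 * n < p) : Amid n p = ∅ := by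
  unfold Amid
  rw [Finset.Icc_eq_empty (by omega), Finset.filter_empty]

end E3B3

open E3B3 in
theorem E3_B3 : ∃ K0 : ℝ, ∀ n p : ℕ, p.Prime → 7 ≤ n → 7 * n < p → p < 10 * n → ∀ τ : ℕ,
    τ = (if p ≤ 7 * n then 1 else 0) →
    ((-(2 * ((10 * n - 10 : ℕ) : ℤ) * oM n p) + ((10 * n - 10 : ℕ) : ℤ) * τ +
      ∑ a ∈ Alow n p, T2s (fM n p a - τ) + ∑ c ∈ Amid n p, (T1 (fM n p c - 8) + 43) : ℤ) : ℝ) ≤ EB n p + K0 := by
  refine ⟨1000, ?_⟩
  intro n p _ hn h1 h10 τ hτ
  have hp0 : 0 < p := by omega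
  have hτ0 : τ = 0 := by rw [hτ, if_neg (by omega)]
  subst hτ0
  rw [Amid_empty h1, Finset.sum_empty]
  have ho : oM n p = 8 := by
    unfold oM
    have e1 : 10 * n / p = 1 := by
      rw [Nat.div_eq_iff hp0]
      omega
    have e2 : 3 * n / p = 0 := Nat.div_eq_of_lt (by omega)
    have e3 : n / p = 0 := Nat.div_eq_of_lt (by omega)
    rw [e1, e2, e3]
    norm_num
  rw [ho]
  have hcard : ((Alow n p).card : ℤ) ≤ (((16 * n - p - 1) / 2 + 1 - 3 * n : ℕ) : ℤ) := by
    exact_mod_cast card_Alow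
  simp only [Nat.cast_zero, mul_zero, sub_zero, add_zero]
  unfold EB
  rw [if_neg (by omega), if_neg (by omega), if_neg (by omega), if_neg (by omega), if_neg (by omega),
    if_neg (by omega), if_neg (by omega)]
  by_cases h8 : p ≤ 8 * n
  · rw [if_pos h8]
    have hs := sum_case1 h1 h8
    have hZ : (-(2 * ((10 * n - 10 : ℕ) : ℤ) * 8) + ∑ a ∈ Alow n p, T2s (fM n p a)) ≤
        184 * n - 36 * p + 1000 := by omega
    exact_mod_cast hZ
  · rw [if_neg h8]
    by_cases h9 : p ≤ 9 * n
    · rw [if_pos h9]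
      have hs := sum_case2 (by omega) h9
      have hZ : (-(2 * ((10 * n - 10 : ℕ) : ℤ) * 8) + ∑ a ∈ Alow n p, T2s (fM n p a)) ≤
          176 * n - 35 * p + 1000 := by omega
      exact_mod_cast hZ
    · rw [if_neg h9]
      have hs := sum_case3 (n := n) (p := p) (by omega)
      have hZ : (-(2 * ((10 * n - 10 : ℕ) : ℤ) * 8) + ∑ a ∈ Alow n p, T2s (fM n p a)) ≤
          50 * n - 21 * p + 1000 := by omega
      exact_mod_cast hZ

end

end Pool.Agent.Dim7
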