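import Pool.Agent.Dim7.Iface

/-! Task E4: p-adic size of the determinant, all primes `p > n/50`, from the parts; and the exponent for
`4n < p < 10n` from its three ranges. -/

open Polynomial Pool.Agent.H337R2

namespace Pool.Agent.Dim7

noncomputable section

/-- `E3_B` for `4n < p ≤ 5n` -/
def St_E3_B1 : Prop := ∃ K0 : ℝ, ∀ n p : ℕ, p.Prime → 7 ≤ n → 4 * n < p → p ≤ 5 * n →
    ((-(2 * ((10 * n - 10 : ℕ) : ℤ) * oM n p) + ((10 * n - 10 : ℕ) : ℤ) * 1 +
      ∑ a ∈ Alow n p, T2s (fM n p a - 1) + ∑ c ∈ Amid n p, (T1 (fM n p c - 8) + 43) : ℤ) : ℝ) ≤ EB n p + K0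

/-- `E3_B` for `5n < p ≤ 7n` -/
def St_E3_B2 : Prop := ∃ K0 : ℝ, ∀ n p : ℕ, p.Prime → 7 ≤ n → 5 * n < p → p ≤ 7 * n →
    ((-(2 * ((10 * n - 10 : ℕ) : ℤ) * oM n p) + ((10 * n - 10 : ℕ) : ℤ) * 1 +
      ∑ a ∈ Alow n p, T2s (fM n p a - 1) + ∑ c ∈ Amid n p, (T1 (fM n p c - 8) + 43) : ℤ) : ℝ) ≤ EB n p + K0

/-- `E3_B` for `7n < p < 10n` -/
def St_E3_B3 : Prop := ∃ K0 : ℝ, ∀ n p : ℕ, p.Prime → 7 ≤ n → 7 * n < p → p < 10 * n →
    ((-(2 * ((10 * n - 10 : ℕ) : ℤ) * oM n p) + ((10 * n - 10 : ℕ) : ℤ) * 0 +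
      ∑ a ∈ Alow n p, T2s (fM n p a - 0) + ∑ c ∈ Amid n p, (T1 (fM n p c - 8) + 43) : ℤ) : ℝ) ≤ EB n p + K0

theorem E3_B_of (h1 : St_E3_B1) (h2 : St_E3_B2) (h3 : St_E3_B3) : St_E3_B := by
  obtain ⟨K1, hK1⟩ := h1
  obtain ⟨K2, hK2⟩ := h2
  obtain ⟨K3, hK3⟩ := h3
  refine ⟨max K1 (max K2 K3), ?_⟩
  intro n p hp hn hlo hhi τ hτ
  have m1 : K1 ≤ max K1 (max K2 K3) := le_max_left _ _
  have m2 : K2 ≤ max K1 (max K2 K3) := (le_max_left _ _).trans (le_max_right _ _)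
  have m3 : K3 ≤ max K1 (max K2 K3) := (le_max_right _ _).trans (le_max_right _ _)
  by_cases h7 : p ≤ 7 * n
  · rw [if_pos h7] at hτ
    subst hτ
    by_cases h5 : p ≤ 5 * n
    · have h := hK1 n p hp hn hlo h5
      rw [Nat.cast_one]
      exact h.trans (by linarith)
    · have h := hK2 n p hp hn (by omega) h7
      rw [Nat.cast_one]
      exact h.trans (by linarith)
  · rw [if_neg h7] at hτ
    subst hτ
    have h := hK3 n p hp hn (by omega) hhi
    rw [Nat.cast_zero]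
    exact h.trans (by linarith)

namespace E4

theorem to_rpow {p : ℕ} (hp : 1 ≤ p) {x : ℚ} {z : ℤ} {E : ℝ} (h : x ≤ (p : ℚ) ^ z)
    (hz : (z : ℝ) ≤ E) : (x : ℝ) ≤ (p : ℝ) ^ E := by
  have hp1 : (1 : ℝ) ≤ (p : ℝ) := by exact_mod_cast hp
  have h1 : (x : ℝ) ≤ (((p : ℚ) ^ z : ℚ) : ℝ) := by exact_mod_cast h
  refine h1.trans ?_
  rw [Rat.cast_zpow, Rat.cast_natCast, ← Real.rpow_intCast]
  exact Real.rpow_le_rpow_of_exponent_le hp1 hz

end E4

theorem E4_padic_of (h1 : St_D3_det_padic) (h2 : St_D3_large) (h3 : St_D3_mix) (h4 : St_D2_kap_mem)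
    (hA : St_E3_A) (hB : St_E3_B) : St_E4_padic := by
  obtain ⟨KA, hKA⟩ := hA
  obtain ⟨KB, hKB⟩ := hB
  refine ⟨max KA (max KB 0), (le_max_right KB 0).trans (le_max_right _ _), ?_⟩
  have m1 : KA ≤ max KA (max KB 0) := le_max_left _ _
  have m2 : KB ≤ max KA (max KB 0) := (le_max_left _ _).trans (le_max_right _ _)
  intro n hn p hp hnp hp2 q α β hα hβ hβ3
  have : Fact p.Prime := ⟨hp⟩
  have hp1 : 1 ≤ p := hp.one_lt.le
  have hm : 20 * n - 20 = 2 * (10 * n - 10) := by omega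
  rw [hm]
  unfold DD
  by_cases hlt : p < 10 * n
  · rw [if_pos hlt]
    by_cases h4n : p ≤ 4 * n
    · have g := h1 (n := n) (p := p) (by omega) (by omega) q α β hα hβ hβ3 (10 * n - 10)
        ((((20 * n + p) / (2 * p) : ℕ) : ℤ) + 1 - oM n p)
        (Kset n p) subset_rfl
        (fun k hk => Or.inl (h4 hp.pos (by rw [Finset.mem_Icc] at hk; omega)))
      refine E4.to_rpow hp1 g ?_
      refine (hKA n p hp (by omega) hnp h4n hp2 _ rfl).trans ?_
      rw [EW, if_pos h4n]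
      linarith
    · push Not at h4n
      have g := h3 (n := n) (p := p) (by omega) (by omega) (by omega) hlt (if p ≤ 7 * n then 1 else 0)
        (by split_ifs <;> omega)
        (by
          by_cases h7 : p ≤ 7 * n
          · exact Or.inl (if_pos h7)
          · exact Or.inr (by omega))
        q α β hα hβ hβ3 (10 * n - 10)
      have g2 := hKB n p hp (by omega) h4n hlt _ rfl
      refine E4.to_rpow hp1 g ?_
      refine g2.trans ?_
      rw [EW, if_neg (by omega)]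
      linarith
  · rw [if_neg hlt]
    have h6 : 10 * n < p := by
      rcases lt_or_eq_of_le (not_lt.mp hlt) with h | h
      · exact h
      · exfalso
        have h7 : 2 ∣ p := ⟨5 * n, by omega⟩
        have h8 := (Nat.prime_dvd_prime_iff_eq Nat.prime_two hp).1 h7
        omega
    have g := h2 (n := n) (p := p) (by omega) (by omega) h6 q α β hα hβ hβ3 (10 * n - 10)
    exact_mod_cast g

end

end Pool.Agent.Dim7
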