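import Pool.Agent.Dim7.Iface
import Pool.Agent.H574R2.D3.F2pre

/-!
# Linear combinations of the prime sums

The statements `St_F2_A`, `St_F2_B`, `St_F2_U` from the elementary limits `F1_tent`, `F1_const`, `F1_id`, `F1_inv`,
`F1_floor` (taken here as hypotheses).
-/

open Filter Topology

namespace Pool.Agent.Dim7

open Pool.Agent.H574R2.D3 (Lm Lm.add Lm.sub Lm.mul Lm.div Lm.sum Lm.of_eq)

noncomputable section

/-- the statement of `F1_tent` -/
def F2_F1T : Prop := ∀ (α j : ℕ) (_ : 1 ≤ j) (lo hi : ℚ) (_ : 0 < lo) (_ : lo ≤ hi) (_ : hi ≤ 40),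
    Tendsto (fun n : ℕ => (∑ p ∈ PS lo hi n, tn (α * n) j p * Real.log p) / (n : ℝ) ^ 2) atTop
      (𝓝 ((It α j lo hi : ℚ) : ℝ))

/-- the statement of `F1_const` -/
def F2_F1C : Prop := ∀ (lo hi : ℚ) (_ : 0 < lo) (_ : lo ≤ hi) (_ : hi ≤ 40),
    Tendsto (fun n : ℕ => (∑ p ∈ PS lo hi n, (n : ℝ) * Real.log p) / (n : ℝ) ^ 2) atTop
      (𝓝 (((hi - lo : ℚ)) : ℝ))

/-- the statement of `F1_id` -/
def F2_F1I : Prop := ∀ (lo hi : ℚ) (_ : 0 < lo) (_ : lo ≤ hi) (_ : hi ≤ 40),
    Tendsto (fun n : ℕ => (∑ p ∈ PS lo hi n, (p : ℝ) * Real.log p) / (n : ℝ) ^ 2) atTop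
      (𝓝 ((((hi ^ 2 - lo ^ 2) / 2 : ℚ)) : ℝ))

/-- the statement of `F1_inv` -/
def F2_F1V : Prop := ∀ (lo hi : ℚ) (_ : 0 < lo) (_ : lo ≤ hi) (_ : hi ≤ 40),
    Tendsto (fun n : ℕ => (∑ p ∈ PS lo hi n, ((n : ℝ) ^ 2 / p) * Real.log p) / (n : ℝ) ^ 2) atTop
      (𝓝 (Real.log ((hi : ℚ) : ℝ) - Real.log ((lo : ℚ) : ℝ)))

/-- the statement of `F1_floor` -/
def F2_F1F : Prop := ∀ (α J : ℕ) (lo hi : ℚ) (_ : 0 < lo) (_ : lo ≤ hi) (_ : hi ≤ 40) (_ : α ≤ 40)
    (_ : (α : ℚ) ≤ J * lo),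
    Tendsto (fun n : ℕ => (∑ p ∈ PS lo hi n, ((n : ℝ) * ((α * n / p : ℕ) : ℝ)) * Real.log p) / (n : ℝ) ^ 2) atTop
      (𝓝 ((Ifl α J lo hi : ℚ) : ℝ))

theorem F2_A_of (hT : F2_F1T) (hC : F2_F1C) (hI : F2_F1I) (hV : F2_F1V) (hF : F2_F1F) : St_F2_A := by
  unfold St_F2_A
  have T : ∀ α j : ℕ, j ∈ Finset.Icc 1 800 →
      Lm (PS ((1 / 50 : ℚ) : ℝ) ((4 : ℚ) : ℝ)) (fun n p => tn (α * n) j p)
      ((It α j (1 / 50) 4 : ℚ) : ℝ) := fun α j hj =>
    hT α j (Finset.mem_Icc.mp hj).1 (1 / 50) 4 (by norm_num) (by norm_num) (by norm_num)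
  have F10 : Lm (PS ((1 / 50 : ℚ) : ℝ) ((4 : ℚ) : ℝ)) (fun n p => (n : ℝ) * ((10 * n / p : ℕ) : ℝ))
      ((Ifl 10 500 (1 / 50) 4 : ℚ) : ℝ) :=
    hF 10 500 (1 / 50) 4 (by norm_num) (by norm_num) (by norm_num) (by norm_num) (by norm_num)
  have F3 : Lm (PS ((1 / 50 : ℚ) : ℝ) ((4 : ℚ) : ℝ)) (fun n p => (n : ℝ) * ((3 * n / p : ℕ) : ℝ))
      ((Ifl 3 150 (1 / 50) 4 : ℚ) : ℝ) :=
    hF 3 150 (1 / 50) 4 (by norm_num) (by norm_num) (by norm_num) (by norm_num) (by norm_num)
  have F1 : Lm (PS ((1 / 50 : ℚ) : ℝ) ((4 : ℚ) : ℝ)) (fun n p => (n : ℝ) * ((1 * n / p : ℕ) : ℝ))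
      ((Ifl 1 50 (1 / 50) 4 : ℚ) : ℝ) :=
    hF 1 50 (1 / 50) 4 (by norm_num) (by norm_num) (by norm_num) (by norm_num) (by norm_num)
  have K : Lm (PS ((1 / 50 : ℚ) : ℝ) ((4 : ℚ) : ℝ)) (fun n _ => (n : ℝ)) (((4 - 1 / 50 : ℚ)) : ℝ) :=
    hC (1 / 50) 4 (by norm_num) (by norm_num) (by norm_num)
  have I : Lm (PS ((1 / 50 : ℚ) : ℝ) ((4 : ℚ) : ℝ)) (fun _ p => (p : ℝ))
      ((((4 ^ 2 - (1 / 50) ^ 2) / 2 : ℚ)) : ℝ) :=
    hI (1 / 50) 4 (by norm_num) (by norm_num) (by norm_num)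
  have V : Lm (PS ((1 / 50 : ℚ) : ℝ) ((4 : ℚ) : ℝ)) (fun n p => (n : ℝ) ^ 2 / p)
      (Real.log ((4 : ℚ) : ℝ) - Real.log ((1 / 50 : ℚ) : ℝ)) :=
    hV (1 / 50) 4 (by norm_num) (by norm_num) (by norm_num)
  have SX := Lm.sum (Finset.Icc 1 800) (fun j hj =>
    ((((((((((T 1 j hj).mul (-(28 / 3))).add ((T 3 j hj).mul (14 / 3))).add
      ((T 4 j hj).mul (4 / 3))).add ((T 8 j hj).mul (4 / 3))).add ((T 9 j hj).mul (28 / 3))).add
      ((T 10 j hj).mul (49 / 3))).sub ((T 12 j hj).mul (4 / 3))).sub ((T 13 j hj).mul (14 / 3))).add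
      ((T 16 j hj).mul (1 / 3))))
  have H := ((((((K.mul (265 / 3)).sub (F10.mul 160)).add (F3.mul 40)).add (F1.mul 80)).sub
    (V.mul (50 / 3))).add (I.div 24)).add SX
  refine Lm.of_eq H ?_ ?_ ?_
  · push_cast; rfl
  · intro n p
    unfold EA
    simp only [one_mul]
  · have h200 : Real.log ((4 : ℚ) : ℝ) - Real.log ((1 / 50 : ℚ) : ℝ) = Real.log 200 := by
      push_cast
      rw [one_div, Real.log_inv, sub_neg_eq_add, ← Real.log_mul (by norm_num) (by norm_num)]
      norm_num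
    rw [h200]
    unfold LA
    push_cast
    ring

/-- no prime at the boundary -/
lemma F2_no_prime {n p u v : ℕ} (hp : p.Prime) (hv : v < u) (hn : u < n) (h : v * p = u * n) : False := by
  have h1 : p ∣ u * n := ⟨v, by rw [← h]; ring⟩
  rcases (Nat.Prime.dvd_mul hp).mp h1 with h2 | h2
  · have h3 : p ≤ u := Nat.le_of_dvd (by omega) h2
    have h4 : v * p ≤ v * u := Nat.mul_le_mul_left _ h3
    have h5 : u * u < u * n := Nat.mul_lt_mul_of_pos_left hn (by omega)
    have h6 : v * u ≤ u * u := Nat.mul_le_mul_right _ hv.le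
    omega
  · have h3 : p ≤ n := Nat.le_of_dvd (by omega) h2
    have h4 : v * p ≤ v * n := Nat.mul_le_mul_left _ h3
    have h5 : v * n < u * n := Nat.mul_lt_mul_of_pos_right hv (by omega)
    omega

/-- joining two intervals -/
lemma F2_join {lo hi : ℝ} (u v : ℕ) (hv : 0 < v) (huv : v < u) {f : ℕ → ℕ → ℝ} {L M : ℝ}
    (h1 : lo ≤ (u : ℝ) / v) (h2 : (u : ℝ) / v ≤ hi)
    (hf : Lm (PS lo ((u : ℝ) / v)) f L) (hg : Lm (PS ((u : ℝ) / v) hi) f M) : Lm (PS lo hi) f (L + M) := by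
  have h := Tendsto.add hf hg
  refine h.congr' ?_
  filter_upwards [eventually_gt_atTop u] with n hn
  rw [← add_div]
  congr 1
  have hn0 : (0 : ℝ) ≤ n := by positivity
  have hv0 : (0 : ℝ) < v := by exact_mod_cast hv
  have hd : Disjoint (PS lo ((u : ℝ) / v) n) (PS ((u : ℝ) / v) hi n) := by
    rw [Finset.disjoint_left]
    intro p hp hq
    unfold PS at hp hq
    simp only [Finset.mem_filter] at hp hq
    linarith [hp.2.2.2, hq.2.2.1]
  rw [← Finset.sum_union hd]
  refine Finset.sum_congr ?_ fun _ _ => rfl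
  ext p
  unfold PS
  simp only [Finset.mem_union, Finset.mem_filter]
  constructor
  · rintro (⟨a, b, c, d⟩ | ⟨a, b, c, d⟩)
    · exact ⟨a, b, c, d.trans_le (mul_le_mul_of_nonneg_right h2 hn0)⟩
    · exact ⟨a, b, (mul_le_mul_of_nonneg_right h1 hn0).trans_lt c, d⟩
  · rintro ⟨a, b, c, d⟩
    rcases lt_trichotomy (p : ℝ) ((u : ℝ) / v * n) with h3 | h3 | h3
    · exact Or.inl ⟨a, b, c, h3⟩
    · exfalso
      refine F2_no_prime b huv hn ?_
      have h4 : (v : ℝ) * p = u * n := by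
        rw [h3]
        field_simp
      exact_mod_cast h4
    · exact Or.inr ⟨a, b, h3, d⟩

/-- one piece of `EB` -/
lemma F2_piece (hC : F2_F1C) (hI : F2_F1I) (lo hi a b : ℚ) (h0 : 0 < lo) (h1 : lo ≤ hi) (h2 : hi ≤ 40)
    (h : ∀ n p : ℕ, (lo : ℝ) * n < p → (p : ℝ) < (hi : ℝ) * n → EB n p = (a : ℝ) * n - (b : ℝ) * p) :
    Lm (PS (lo : ℝ) (hi : ℝ)) EB ((a * (hi - lo) - b * ((hi ^ 2 - lo ^ 2) / 2) : ℚ) : ℝ) := by
  have K : Lm (PS (lo : ℝ) (hi : ℝ)) (fun n _ => (n : ℝ)) (((hi - lo : ℚ)) : ℝ) := hC lo hi h0 h1 h2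
  have I : Lm (PS (lo : ℝ) (hi : ℝ)) (fun _ p => (p : ℝ)) ((((hi ^ 2 - lo ^ 2) / 2 : ℚ)) : ℝ) :=
    hI lo hi h0 h1 h2
  have H := (K.mul (a : ℝ)).sub (I.mul (b : ℝ))
  have e : (a : ℝ) * (((hi - lo : ℚ)) : ℝ) - (b : ℝ) * ((((hi ^ 2 - lo ^ 2) / 2 : ℚ)) : ℝ) =
      ((a * (hi - lo) - b * ((hi ^ 2 - lo ^ 2) / 2) : ℚ) : ℝ) := by push_cast; ring
  rw [e] at H
  refine H.congr fun n => ?_
  congr 1
  refine Finset.sum_congr rfl fun p hp => ?_
  unfold PS at hp
  simp only [Finset.mem_filter] at hp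
  rw [h n p hp.2.2.1 hp.2.2.2]

theorem F2_B_of (hC : F2_F1C) (hI : F2_F1I) : St_F2_B := by
  unfold St_F2_B
  have P0 := F2_piece hC hI 4 (13 / 3) 111 (119 / 2) (by norm_num) (by norm_num) (by norm_num) (by
    intro n p h1 h2
    push_cast at h1 h2
    have g1 : 3 * p ≤ 13 * n := by
      have : (3 : ℝ) * p ≤ 13 * n := by linarith
      exact_mod_cast this
    unfold EB
    rw [if_pos g1]
    push_cast
    ring)
  have P1 := F2_piece hC hI (13 / 3) (9 / 2) 202 (161 / 2) (by norm_num) (by norm_num) (by norm_num) (by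
    intro n p h1 h2
    push_cast at h1 h2
    have g0 : 13 * n < 3 * p := by
      have : (13 : ℝ) * n < 3 * p := by linarith
      exact_mod_cast this
    have g1 : 2 * p ≤ 9 * n := by
      have : (2 : ℝ) * p ≤ 9 * n := by linarith
      exact_mod_cast this
    unfold EB
    rw [if_neg (by omega), if_pos g1]
    push_cast
    ring)
  have P2 := F2_piece hC hI (9 / 2) 5 85 (109 / 2) (by norm_num) (by norm_num) (by norm_num) (by
    intro n p h1 h2
    push_cast at h1 h2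
    have g0 : 9 * n < 2 * p := by
      have : (9 : ℝ) * n < 2 * p := by linarith
      exact_mod_cast this
    have g1 : p ≤ 5 * n := by
      have : (p : ℝ) ≤ 5 * n := by linarith
      exact_mod_cast this
    unfold EB
    rw [if_neg (by omega), if_neg (by omega), if_pos g1]
    push_cast
    ring)
  have P3 := F2_piece hC hI 5 (16 / 3) 60 (35 / 2) (by norm_num) (by norm_num) (by norm_num) (by
    intro n p h1 h2
    push_cast at h1 h2
    have g0 : 5 * n < p := by
      have : (5 : ℝ) * n < p := by linarith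
      exact_mod_cast this
    have g1 : 3 * p ≤ 16 * n := by
      have : (3 : ℝ) * p ≤ 16 * n := by linarith
      exact_mod_cast this
    unfold EB
    rw [if_neg (by omega), if_neg (by omega), if_neg (by omega), if_pos g1]
    push_cast
    ring)
  have P4 := F2_piece hC hI (16 / 3) 6 52 16 (by norm_num) (by norm_num) (by norm_num) (by
    intro n p h1 h2
    push_cast at h1 h2
    have g0 : 16 * n < 3 * p := by
      have : (16 : ℝ) * n < 3 * p := by linarith
      exact_mod_cast this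
    have g1 : p ≤ 6 * n := by
      have : (p : ℝ) ≤ 6 * n := by linarith
      exact_mod_cast this
    unfold EB
    rw [if_neg (by omega), if_neg (by omega), if_neg (by omega), if_neg (by omega), if_pos g1]
    push_cast
    ring)
  have P5 := F2_piece hC hI 6 (13 / 2) 64 18 (by norm_num) (by norm_num) (by norm_num) (by
    intro n p h1 h2
    push_cast at h1 h2
    have g0 : 6 * n < p := by
      have : (6 : ℝ) * n < p := by linarith
      exact_mod_cast this
    have g1 : 2 * p ≤ 13 * n := by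
      have : (2 : ℝ) * p ≤ 13 * n := by linarith
      exact_mod_cast this
    unfold EB
    rw [if_neg (by omega), if_neg (by omega), if_neg (by omega), if_neg (by omega), if_neg (by omega),
      if_pos g1]
    push_cast
    ring)
  have P6 := F2_piece hC hI (13 / 2) 7 155 32 (by norm_num) (by norm_num) (by norm_num) (by
    intro n p h1 h2
    push_cast at h1 h2
    have g0 : 13 * n < 2 * p := by
      have : (13 : ℝ) * n < 2 * p := by linarith
      exact_mod_cast this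
    have g1 : p ≤ 7 * n := by
      have : (p : ℝ) ≤ 7 * n := by linarith
      exact_mod_cast this
    unfold EB
    rw [if_neg (by omega), if_neg (by omega), if_neg (by omega), if_neg (by omega), if_neg (by omega),
      if_neg (by omega), if_pos g1]
    push_cast
    ring)
  have P7 := F2_piece hC hI 7 8 184 36 (by norm_num) (by norm_num) (by norm_num) (by
    intro n p h1 h2
    push_cast at h1 h2
    have g0 : 7 * n < p := by
      have : (7 : ℝ) * n < p := by linarith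
      exact_mod_cast this
    have g1 : p ≤ 8 * n := by
      have : (p : ℝ) ≤ 8 * n := by linarith
      exact_mod_cast this
    unfold EB
    rw [if_neg (by omega), if_neg (by omega), if_neg (by omega), if_neg (by omega), if_neg (by omega),
      if_neg (by omega), if_neg (by omega), if_pos g1]
    push_cast
    ring)
  have P8 := F2_piece hC hI 8 9 176 35 (by norm_num) (by norm_num) (by norm_num) (by
    intro n p h1 h2
    push_cast at h1 h2
    have g0 : 8 * n < p := by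
      have : (8 : ℝ) * n < p := by linarith
      exact_mod_cast this
    have g1 : p ≤ 9 * n := by
      have : (p : ℝ) ≤ 9 * n := by linarith
      exact_mod_cast this
    unfold EB
    rw [if_neg (by omega), if_neg (by omega), if_neg (by omega), if_neg (by omega), if_neg (by omega),
      if_neg (by omega), if_neg (by omega), if_neg (by omega), if_pos g1]
    push_cast
    ring)
  have P9 := F2_piece hC hI 9 10 50 21 (by norm_num) (by norm_num) (by norm_num) (by
    intro n p h1 h2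
    push_cast at h1 h2
    have g0 : 9 * n < p := by
      have : (9 : ℝ) * n < p := by linarith
      exact_mod_cast this
    unfold EB
    rw [if_neg (by omega), if_neg (by omega), if_neg (by omega), if_neg (by omega), if_neg (by omega),
      if_neg (by omega), if_neg (by omega), if_neg (by omega), if_neg (by omega)]
    push_cast
    ring)
  have c : ∀ (u v : ℕ) (q : ℚ), (q : ℚ) = (u : ℚ) / v → ((q : ℚ) : ℝ) = (u : ℝ) / v := by
    intro u v q h
    rw [h]
    push_cast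
    rfl
  rw [c 13 3 (13 / 3) (by norm_num)] at P0
  rw [c 13 3 (13 / 3) (by norm_num), c 9 2 (9 / 2) (by norm_num)] at P1
  rw [c 9 2 (9 / 2) (by norm_num), c 5 1 5 (by norm_num)] at P2
  rw [c 5 1 5 (by norm_num), c 16 3 (16 / 3) (by norm_num)] at P3
  rw [c 16 3 (16 / 3) (by norm_num), c 6 1 6 (by norm_num)] at P4
  rw [c 6 1 6 (by norm_num), c 13 2 (13 / 2) (by norm_num)] at P5
  rw [c 13 2 (13 / 2) (by norm_num), c 7 1 7 (by norm_num)] at P6
  rw [c 7 1 7 (by norm_num), c 8 1 8 (by norm_num)] at P7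
  rw [c 8 1 8 (by norm_num), c 9 1 9 (by norm_num)] at P8
  rw [c 9 1 9 (by norm_num)] at P9
  have Q1 := F2_join 13 3 (by norm_num) (by norm_num) (by norm_num) (by norm_num) P0 P1
  have Q2 := F2_join 9 2 (by norm_num) (by norm_num) (by norm_num) (by norm_num) Q1 P2
  have Q3 := F2_join 5 1 (by norm_num) (by norm_num) (by norm_num) (by norm_num) Q2 P3
  have Q4 := F2_join 16 3 (by norm_num) (by norm_num) (by norm_num) (by norm_num) Q3 P4
  have Q5 := F2_join 6 1 (by norm_num) (by norm_num) (by norm_num) (by norm_num) Q4 P5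
  have Q6 := F2_join 13 2 (by norm_num) (by norm_num) (by norm_num) (by norm_num) Q5 P6
  have Q7 := F2_join 7 1 (by norm_num) (by norm_num) (by norm_num) (by norm_num) Q6 P7
  have Q8 := F2_join 8 1 (by norm_num) (by norm_num) (by norm_num) (by norm_num) Q7 P8
  have Q9 := F2_join 9 1 (by norm_num) (by norm_num) (by norm_num) (by norm_num) Q8 P9
  refine Lm.of_eq Q9 ?_ (fun n p => rfl) ?_
  · push_cast; rfl
  · unfold LB
    push_cast
    norm_num

theorem F2_U_of (hT : F2_F1T) : St_F2_U := by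
  unfold St_F2_U
  have T : ∀ α j : ℕ, j ∈ Finset.Icc 1 2000 →
      Lm (PS ((1 / 50 : ℚ) : ℝ) ((40 : ℚ) : ℝ)) (fun n p => tn (α * n) j p)
      ((It α j (1 / 50) 40 : ℚ) : ℝ) := fun α j hj =>
    hT α j (Finset.mem_Icc.mp hj).1 (1 / 50) 40 (by norm_num) (by norm_num) (by norm_num)
  have H := Lm.sum (Finset.Icc 1 2000) (fun j hj => ((T 40 j hj).mul (1 / 2)).add (T 20 j hj))
  refine Lm.of_eq H ?_ ?_ ?_
  · push_cast; rfl
  · intro n p
    rfl
  · unfold LU
    push_cast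
    rfl

end

end Pool.Agent.Dim7
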