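import Pool.Agent.Dim7.Iface
import Pool.Agent.H337R2.Asym
import Pool.Agent.H336R2.HD.F6

/-! Tasks F3 (numerical value of the limits), F4 (small primes), F6 (superfactorials). -/

open Polynomial Pool.Agent.H337R2 Filter Topology

namespace Pool.Agent.Dim7

private lemma f3_i10 : 5092823 / 100000 ≤ Ifl 10 500 (1 / 50) 4 := by
  decide +kernel

private lemma f3_i3 : Ifl 3 150 (1 / 50) 4 ≤ 275471 / 20000 := by
  decide +kernel

private lemma f3_i1 : Ifl 1 50 (1 / 50) 4 ≤ 349921 / 100000 := by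
  decide +kernel

private lemma f3_a1 : ∑ j ∈ Finset.Icc 1 200, (-(28 / 3) * It 1 j (1 / 50) 4 + 14 / 3 * It 3 j (1 / 50) 4 + 4 / 3 * It 4 j (1 / 50) 4
    + 4 / 3 * It 8 j (1 / 50) 4 + 28 / 3 * It 9 j (1 / 50) 4 + 49 / 3 * It 10 j (1 / 50) 4
    - 4 / 3 * It 12 j (1 / 50) 4 - 14 / 3 * It 13 j (1 / 50) 4 + 1 / 3 * It 16 j (1 / 50) 4)
    ≤ 24351051 / 6250 := by
  decide +kernel

private lemma f3_a2 : ∑ j ∈ Finset.Icc 201 400, (-(28 / 3) * It 1 j (1 / 50) 4 + 14 / 3 * It 3 j (1 / 50) 4 + 4 / 3 * It 4 j (1 / 50) 4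
    + 4 / 3 * It 8 j (1 / 50) 4 + 28 / 3 * It 9 j (1 / 50) 4 + 49 / 3 * It 10 j (1 / 50) 4
    - 4 / 3 * It 12 j (1 / 50) 4 - 14 / 3 * It 13 j (1 / 50) 4 + 1 / 3 * It 16 j (1 / 50) 4)
    ≤ 2806469 / 50000 := by
  decide +kernel

private lemma f3_a3 : ∑ j ∈ Finset.Icc 401 600, (-(28 / 3) * It 1 j (1 / 50) 4 + 14 / 3 * It 3 j (1 / 50) 4 + 4 / 3 * It 4 j (1 / 50) 4
    + 4 / 3 * It 8 j (1 / 50) 4 + 28 / 3 * It 9 j (1 / 50) 4 + 49 / 3 * It 10 j (1 / 50) 4
    - 4 / 3 * It 12 j (1 / 50) 4 - 14 / 3 * It 13 j (1 / 50) 4 + 1 / 3 * It 16 j (1 / 50) 4)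
    ≤ -(673073 / 100000) := by
  decide +kernel

private lemma f3_a4 : ∑ j ∈ Finset.Icc 601 800, (-(28 / 3) * It 1 j (1 / 50) 4 + 14 / 3 * It 3 j (1 / 50) 4 + 4 / 3 * It 4 j (1 / 50) 4
    + 4 / 3 * It 8 j (1 / 50) 4 + 28 / 3 * It 9 j (1 / 50) 4 + 49 / 3 * It 10 j (1 / 50) 4
    - 4 / 3 * It 12 j (1 / 50) 4 - 14 / 3 * It 13 j (1 / 50) 4 + 1 / 3 * It 16 j (1 / 50) 4)
    ≤ 4213 / 20000 := by
  decide +kernel

private lemma f3_u1 : ∑ j ∈ Finset.Icc 1 250, (1 / 2 * It 40 j (1 / 50) 40 + It 20 j (1 / 50) 40)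
    ≤ 69396353 / 20000 := by
  decide +kernel

private lemma f3_u2 : ∑ j ∈ Finset.Icc 251 500, (1 / 2 * It 40 j (1 / 50) 40 + It 20 j (1 / 50) 40)
    ≤ 24345141 / 100000 := by
  decide +kernel

private lemma f3_u3 : ∑ j ∈ Finset.Icc 501 750, (1 / 2 * It 40 j (1 / 50) 40 + It 20 j (1 / 50) 40)
    ≤ 281224 / 3125 := by
  decide +kernel

private lemma f3_u4 : ∑ j ∈ Finset.Icc 751 1000, (1 / 2 * It 40 j (1 / 50) 40 + It 20 j (1 / 50) 40)
    ≤ 3817179 / 100000 := by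
  decide +kernel

private lemma f3_u5 : ∑ j ∈ Finset.Icc 1001 1250, (1 / 2 * It 40 j (1 / 50) 40 + It 20 j (1 / 50) 40)
    ≤ 867747 / 50000 := by
  decide +kernel

private lemma f3_u6 : ∑ j ∈ Finset.Icc 1251 1500, (1 / 2 * It 40 j (1 / 50) 40 + It 20 j (1 / 50) 40)
    ≤ 728947 / 100000 := by
  decide +kernel

private lemma f3_u7 : ∑ j ∈ Finset.Icc 1501 1750, (1 / 2 * It 40 j (1 / 50) 40 + It 20 j (1 / 50) 40)
    ≤ 227873 / 100000 := by
  decide +kernel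

private lemma f3_u8 : ∑ j ∈ Finset.Icc 1751 2000, (1 / 2 * It 40 j (1 / 50) 40 + It 20 j (1 / 50) 40)
    ≤ 14289 / 50000 := by
  decide +kernel

private lemma f3_split (f : ℕ → ℚ) (a b c : ℕ) (h1 : a ≤ b + 1) (h2 : b ≤ c) :
    ∑ j ∈ Finset.Icc a c, f j = ∑ j ∈ Finset.Icc a b, f j + ∑ j ∈ Finset.Icc (b + 1) c, f j := by
  have e : ∀ u v : ℕ, Finset.Icc u v = Finset.Ico u (v + 1) := fun u v => by
    ext x
    simp only [Finset.mem_Icc, Finset.mem_Ico]
    omega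
  rw [e, e, e, Finset.sum_Ico_consecutive f (by omega) (by omega)]

private lemma f3_A : ∑ j ∈ Finset.Icc 1 800, (-(28 / 3) * It 1 j (1 / 50) 4 + 14 / 3 * It 3 j (1 / 50) 4 + 4 / 3 * It 4 j (1 / 50) 4
    + 4 / 3 * It 8 j (1 / 50) 4 + 28 / 3 * It 9 j (1 / 50) 4 + 49 / 3 * It 10 j (1 / 50) 4
    - 4 / 3 * It 12 j (1 / 50) 4 - 14 / 3 * It 13 j (1 / 50) 4 + 1 / 3 * It 16 j (1 / 50) 4)
    ≤ (24351051 / 6250) + (2806469 / 50000) + (-(673073 / 100000)) + (4213 / 20000) := by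
  rw [f3_split _ 1 200 800 (by norm_num) (by norm_num)]
  rw [f3_split _ (200 + 1) 400 800 (by norm_num) (by norm_num)]
  rw [f3_split _ (400 + 1) 600 800 (by norm_num) (by norm_num)]
  have h0 := f3_a1
  have h1 := f3_a2
  have h2 := f3_a3
  have h3 := f3_a4
  show _ ≤ _
  linarith

private lemma f3_U : ∑ j ∈ Finset.Icc 1 2000, (1 / 2 * It 40 j (1 / 50) 40 + It 20 j (1 / 50) 40)
    ≤ (69396353 / 20000) + (24345141 / 100000) + (281224 / 3125) + (3817179 / 100000) + (867747 / 50000) + (728947 / 100000) + (227873 / 100000) + (14289 / 50000) := by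
  rw [f3_split _ 1 250 2000 (by norm_num) (by norm_num)]
  rw [f3_split _ (250 + 1) 500 2000 (by norm_num) (by norm_num)]
  rw [f3_split _ (500 + 1) 750 2000 (by norm_num) (by norm_num)]
  rw [f3_split _ (750 + 1) 1000 2000 (by norm_num) (by norm_num)]
  rw [f3_split _ (1000 + 1) 1250 2000 (by norm_num) (by norm_num)]
  rw [f3_split _ (1250 + 1) 1500 2000 (by norm_num) (by norm_num)]
  rw [f3_split _ (1500 + 1) 1750 2000 (by norm_num) (by norm_num)]
  have h0 := f3_u1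
  have h1 := f3_u2
  have h2 := f3_u3
  have h3 := f3_u4
  have h4 := f3_u5
  have h5 := f3_u6
  have h6 := f3_u7
  have h7 := f3_u8
  show _ ≤ _
  linarith

theorem F3_numeric : St_F3_numeric := by
  have hA := f3_A
  have hU : LU ≤ _ := f3_U
  have h10 := f3_i10
  have h3 := f3_i3
  have h1 := f3_i1
  unfold St_F3_numeric LA LB
  linarith

noncomputable section

open Pool.Agent.H336R2.HD (F6_F F6_mvt F6_sum)

/-- small primes: trivial exponents -/
theorem F4_small : St_F4_small := by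
  intro ε hε
  filter_upwards [rpow_lim 41 (by norm_num) (ε / 12800) (by positivity),
    theta_lim (1 / 50) (by norm_num) (ε / 320) (by positivity), eventually_ge_atTop 1] with n h1 h2 hn
  have hn0 : (1 : ℝ) ≤ n := by exact_mod_cast hn
  have hM1 : (1 : ℝ) ≤ 40 * (n : ℝ) + 1 := by linarith
  have hlog0 : 0 ≤ Real.log (40 * (n : ℝ) + 1) := Real.log_nonneg hM1
  -- second sum
  have hS2 : ∑ p ∈ (Finset.range (n + 1)).filter (fun p : ℕ => p.Prime ∧ 50 * p ≤ n), 8 * Real.log (p : ℝ) ≤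
      8 * Chebyshev.theta (1 / 50 * n) := by
    rw [← Finset.mul_sum]
    apply mul_le_mul_of_nonneg_left _ (by norm_num)
    unfold Chebyshev.theta
    apply Finset.sum_le_sum_of_subset_of_nonneg
    · intro p hp
      rw [Finset.mem_filter] at hp
      rw [Finset.mem_filter, Finset.mem_Ioc]
      refine ⟨⟨hp.2.1.pos, ?_⟩, hp.2.1⟩
      rw [Nat.le_floor_iff (by positivity)]
      have : ((50 * p : ℕ) : ℝ) ≤ (n : ℝ) := by exact_mod_cast hp.2.2
      push_cast at this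
      linarith
    · intro p hp _
      rw [Finset.mem_filter] at hp
      exact Real.log_nonneg (by exact_mod_cast hp.2.one_lt.le)
  -- first sum
  have hcard : (((Finset.range (n + 1)).filter (fun p : ℕ => p.Prime ∧ p ^ 2 ≤ 40 * n)).card : ℝ) ≤
      (Nat.sqrt (40 * n) : ℝ) + 1 := by
    have hsub : (Finset.range (n + 1)).filter (fun p : ℕ => p.Prime ∧ p ^ 2 ≤ 40 * n) ⊆
        Finset.range (Nat.sqrt (40 * n) + 1) := by
      intro p hp
      rw [Finset.mem_filter] at hp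
      rw [Finset.mem_range]
      have : p ≤ Nat.sqrt (40 * n) := Nat.le_sqrt'.2 hp.2.2
      omega
    have := Finset.card_le_card hsub
    rw [Finset.card_range] at this
    exact_mod_cast this
  have hS1 : ∑ p ∈ (Finset.range (n + 1)).filter (fun p : ℕ => p.Prime ∧ p ^ 2 ≤ 40 * n),
        40 * Real.log (40 * (n : ℝ) + 1) ≤ ε / 40 * n := by
    rw [Finset.sum_const, nsmul_eq_mul]
    have h3 : Real.log (40 * (n : ℝ) + 1) ≤ (40 * (n : ℝ) + 1) ^ (1 / 4 : ℝ) / (1 / 4) :=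
      Real.log_le_rpow_div (by positivity) (by norm_num)
    have h4 : ((Nat.sqrt (40 * n) : ℕ) : ℝ) + 1 ≤ 2 * (40 * (n : ℝ) + 1) ^ (1 / 2 : ℝ) := by
      have h5 : ((Nat.sqrt (40 * n) : ℕ) : ℝ) ≤ Real.sqrt (40 * (n : ℝ) + 1) := by
        apply Real.le_sqrt_of_sq_le
        have := Nat.sqrt_le' (40 * n)
        exact_mod_cast (by omega : Nat.sqrt (40 * n) ^ 2 ≤ 40 * n + 1)
      rw [← Real.sqrt_eq_rpow]
      have h6 : 1 ≤ Real.sqrt (40 * (n : ℝ) + 1) := by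
        rw [Real.one_le_sqrt]; exact hM1
      linarith
    have h5 : (40 * (n : ℝ) + 1) ^ (3 / 4 : ℝ) ≤ ε / 12800 * n := by
      refine le_trans ?_ h1
      apply Real.rpow_le_rpow (by positivity) (by linarith) (by norm_num)
    have h6 : (40 * (n : ℝ) + 1) ^ (1 / 2 : ℝ) * (40 * (n : ℝ) + 1) ^ (1 / 4 : ℝ) = (40 * (n : ℝ) + 1) ^ (3 / 4 : ℝ) := by
      rw [← Real.rpow_add (by positivity)]; norm_num
    have h7 : 0 ≤ (40 * (n : ℝ) + 1) ^ (1 / 2 : ℝ) := by positivity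
    have h8 : 0 ≤ (40 * (n : ℝ) + 1) ^ (1 / 4 : ℝ) := by positivity
    calc _ ≤ (2 * (40 * (n : ℝ) + 1) ^ (1 / 2 : ℝ)) * (40 * ((40 * (n : ℝ) + 1) ^ (1 / 4 : ℝ) / (1 / 4))) := by
          apply mul_le_mul (hcard.trans h4) _ (by positivity) (by positivity)
          linarith
      _ = 320 * ((40 * (n : ℝ) + 1) ^ (1 / 2 : ℝ) * (40 * (n : ℝ) + 1) ^ (1 / 4 : ℝ)) := by ring
      _ = 320 * (40 * (n : ℝ) + 1) ^ (3 / 4 : ℝ) := by rw [h6]
      _ ≤ 320 * (ε / 12800 * n) := mul_le_mul_of_nonneg_left h5 (by norm_num)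
      _ = ε / 40 * n := by ring
  rw [abs_le] at h2
  have hT : 8 * Chebyshev.theta (1 / 50 * n) ≤ 8 * ((1 / 50 + ε / 320) * n) := by
    have := h2.2
    linarith
  have hsum := add_le_add hS1 (hS2.trans hT)
  have hn6 : 0 ≤ 20 * (n : ℝ) := by positivity
  calc _ ≤ 20 * (n : ℝ) * (ε / 40 * n + 8 * ((1 / 50 + ε / 320) * n)) := mul_le_mul_of_nonneg_left hsum hn6
    _ = (16 / 5 + ε) * (n : ℝ) ^ 2 := by ring

/-- lower bound for the superfactorials -/
theorem F6_superfac : St_F6_superfac := by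
  intro ε hε
  have hlog : Tendsto (fun x : ℝ => Real.log x / x) atTop (𝓝 0) := by
    have := Real.isLittleO_log_id_atTop.tendsto_div_nhds_zero
    simpa using this
  have h12 : Tendsto (fun n : ℕ => (40 * (n : ℝ))) atTop atTop :=
    tendsto_natCast_atTop_atTop.const_mul_atTop (by norm_num)
  have hl2 := (hlog.comp h12).eventually (gt_mem_nhds (show (0 : ℝ) < ε / 110000 by positivity))
  have hl3 : ∀ᶠ n : ℕ in atTop, 15 / (4 * ε) < (n : ℝ) :=
    tendsto_natCast_atTop_atTop.eventually (eventually_gt_atTop _)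
  filter_upwards [hl2, hl3, eventually_ge_atTop 3] with n h1 h2 hn
  have hn' : (3 : ℝ) ≤ n := by exact_mod_cast hn
  have hn0 : (0 : ℝ) < n := by linarith
  obtain ⟨M, hM⟩ : ∃ M, 20 * n - 20 = M + 2 := ⟨20 * n - 22, by omega⟩
  obtain ⟨M', hM'⟩ : ∃ M', 10 * n - 10 = M' + 2 := ⟨10 * n - 12, by omega⟩
  have hMr : (M : ℝ) = 20 * n - 22 := by
    have h3 : M + 22 = 20 * n := by omega
    have h4 : ((M + 22 : ℕ) : ℝ) = ((20 * n : ℕ) : ℝ) := by rw [h3]
    push_cast at h4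
    linarith
  have hMr' : (M' : ℝ) = 10 * n - 12 := by
    have h3 : M' + 12 = 10 * n := by omega
    have h4 : ((M' + 12 : ℕ) : ℝ) = ((10 * n : ℕ) : ℝ) := by rw [h3]
    push_cast at h4
    linarith
  have h3 := F6_sum M
  have h3' := F6_sum M'
  rw [← hM] at h3
  rw [← hM'] at h3'
  have h4 : (2 * (M : ℝ) + 1) = 40 * n - 43 := by
    rw [hMr]
    ring
  have h4' : (2 * (M' : ℝ) + 1) = 20 * n - 23 := by
    rw [hMr']
    ring
  rw [h4] at h3
  rw [h4'] at h3'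
  have h5 := F6_mvt (a := 40 * (n : ℝ) - 43) (b := 40 * n) (by linarith) (by linarith)
  have h5' := F6_mvt (a := 20 * (n : ℝ) - 23) (b := 20 * n) (by linarith) (by linarith)
  have h6 : (40 * (n : ℝ) - (40 * n - 43)) = 43 := by ring
  have h6' : (20 * (n : ℝ) - (20 * n - 23)) = 23 := by ring
  rw [h6] at h5
  rw [h6'] at h5'
  have l40 : Real.log 40 = 3 * Real.log 2 + Real.log 5 := by
    rw [show (40 : ℝ) = 2 ^ 3 * 5 by norm_num, Real.log_mul (by norm_num) (by norm_num), Real.log_pow]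
    norm_num
  have l20 : Real.log 20 = 2 * Real.log 2 + Real.log 5 := by
    rw [show (20 : ℝ) = 2 ^ 2 * 5 by norm_num, Real.log_mul (by norm_num) (by norm_num), Real.log_pow]
    norm_num
  have h7 : F6_F (40 * n) = 800 * (n : ℝ) ^ 2 * Real.log n
      + (2400 * Real.log 2 + 800 * Real.log 5 - 1200) * (n : ℝ) ^ 2 := by
    unfold F6_F
    rw [Real.log_mul (by norm_num) hn0.ne', l40]
    ring
  have h7' : F6_F (20 * n) = 200 * (n : ℝ) ^ 2 * Real.log n
      + (400 * Real.log 2 + 200 * Real.log 5 - 300) * (n : ℝ) ^ 2 := by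
    unfold F6_F
    rw [Real.log_mul (by norm_num) hn0.ne', l20]
    ring
  have h8 : Real.log (40 * n) < ε / 110000 * (40 * n) := by
    have h9 : Real.log (40 * (n : ℝ)) / (40 * n) < ε / 110000 := h1
    rwa [div_lt_iff₀ (by positivity)] at h9
  have h8' : Real.log (20 * n) ≤ ε / 110000 * (40 * n) := by
    refine le_trans (Real.log_le_log (by positivity) ?_) h8.le
    linarith
  have h10 : (40 * (n : ℝ)) * Real.log (40 * n) ≤ (40 * (n : ℝ)) * (ε / 110000 * (40 * n)) :=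
    mul_le_mul_of_nonneg_left h8.le (by positivity)
  have h10' : (20 * (n : ℝ)) * Real.log (20 * n) ≤ (20 * (n : ℝ)) * (ε / 110000 * (40 * n)) :=
    mul_le_mul_of_nonneg_left h8' (by positivity)
  have h11 : 15 / 8 ≤ ε / 2 * (n : ℝ) ^ 2 := by
    rw [div_lt_iff₀ (by positivity)] at h2
    nlinarith [mul_pos hε hn0]
  have h12 : 0 ≤ ε * (n : ℝ) ^ 2 := by positivity
  nlinarith [h3, h5, h7, h10, h11, h3', h5', h7', h10', h12]

end

end Pool.Agent.Dim7
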