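import Pool.Agent.Dim7.Iface

/-!
# The nodes: injectivity and ranges (port of `H574R2/D9/G0.lean`)
-/

open Polynomial Pool.Agent.H337R2

namespace Pool.Agent.Dim7

theorem G0_cc_pos : ∀ g < 20, 1 ≤ cc g := by decide

theorem G0_disj : ∀ g < 20, ∀ h < 20, g ≠ h →
    bb g + (cc g : ℤ) ≤ bb h ∨ bb h + (cc h : ℤ) ≤ bb g := by decide

theorem G0_brX : ∀ g < 10, 5 ≤ g → 260 ≤ bb g ∧ bb g + (cc g : ℤ) ≤ 823 := by decide

theorem G0_brY : ∀ g < 20, 10 ≤ g → 0 ≤ bb g ∧ bb g + (cc g : ℤ) ≤ 78 := by decide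

theorem G0_br2 : ∀ g < 20, 5 ≤ g → 0 ≤ bb g ∧ (bb g + (cc g : ℤ) ≤ 160 ∨ 260 ≤ bb g) := by decide

theorem G0_div_lt {n i : ℕ} (hn : 6 ≤ n) (hi : i < 20 * n - 20) : i / (n - 1) < 20 := by
  rw [Nat.div_lt_iff_lt_mul (by omega)]
  omega

/-- a node of the saturated part -/
theorem G0_nd_sat {n i : ℕ} (h : i < 5 * n - 1) : nd n i = 20 * (8 * n + 1 + i) := by
  unfold nd
  rw [if_pos h]

/-- a node of the other part -/
theorem G0_nd_brick {n i : ℕ} (h : 5 * n - 1 ≤ i) :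
    nd n i = bb (i / (n - 1)) * n + cc (i / (n - 1)) * ((i % (n - 1) : ℕ) : ℤ) := by
  unfold nd
  rw [if_neg (by omega)]

theorem G0_brick {n i : ℕ} (hn : 6 ≤ n) (h : 5 * n - 1 ≤ i) (hi : i < 20 * n - 20) :
    bb (i / (n - 1)) * n ≤ nd n i ∧ nd n i < (bb (i / (n - 1)) + (cc (i / (n - 1)) : ℤ)) * n := by
  have hg := G0_div_lt hn hi
  have hc := G0_cc_pos _ hg
  have hr : i % (n - 1) < n := (Nat.mod_lt _ (by omega)).trans_le (by omega)
  have hr' : ((i % (n - 1) : ℕ) : ℤ) < n := by exact_mod_cast hr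
  have hr0 : (0 : ℤ) ≤ ((i % (n - 1) : ℕ) : ℤ) := Int.natCast_nonneg _
  have hc' : (1 : ℤ) ≤ (cc (i / (n - 1)) : ℤ) := by exact_mod_cast hc
  rw [G0_nd_brick h]
  constructor
  · nlinarith
  · nlinarith

theorem G0_div_ge {n i : ℕ} (hn : 6 ≤ n) (h : 5 * n - 1 ≤ i) : 5 ≤ i / (n - 1) := by
  rw [Nat.le_div_iff_mul_le (by omega)]
  omega

theorem G0_nd_nonneg {n i : ℕ} (hn : 6 ≤ n) (hi : i < 20 * n - 20) : 0 ≤ nd n i := by
  by_cases h : i < 5 * n - 1
  · rw [G0_nd_sat h]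
    positivity
  · push Not at h
    have h1 := (G0_br2 _ (G0_div_lt hn hi) (G0_div_ge hn h)).1
    have h2 := (G0_brick hn h hi).1
    have hn' : (0 : ℤ) ≤ n := Int.natCast_nonneg _
    exact (mul_nonneg h1 hn').trans h2

/-- the saturated nodes are different from the others -/
theorem G0_cross {n i j : ℕ} (hn : 6 ≤ n) (hi : i < 5 * n - 1) (h : 5 * n - 1 ≤ j)
    (hj : j < 20 * n - 20) : nd n i ≠ nd n j := by
  intro he
  have e1 := G0_nd_sat hi
  have hiz : (i : ℤ) + 2 ≤ 5 * n := by exact_mod_cast (by omega : i + 2 ≤ 5 * n)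
  have hi0 : (0 : ℤ) ≤ (i : ℤ) := Int.natCast_nonneg _
  have hn' : (0 : ℤ) ≤ n := Int.natCast_nonneg _
  have h2 := G0_brick hn h hj
  rcases (G0_br2 _ (G0_div_lt hn hj) (G0_div_ge hn h)).2 with h3 | h3
  · have := mul_le_mul_of_nonneg_right h3 hn'
    linarith [h2.2]
  · have := mul_le_mul_of_nonneg_right h3 hn'
    linarith [h2.1]

theorem G0_nd_inj {n : ℕ} (hn : 6 ≤ n) : Set.InjOn (nd n) (Finset.range (20 * n - 20)) := by
  intro i hi j hj hij
  rw [Finset.coe_range, Set.mem_Iio] at hi hj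
  have hn' : (1 : ℤ) ≤ n := by exact_mod_cast (by omega : 1 ≤ n)
  by_cases hi2 : i < 5 * n - 1
  · by_cases hj2 : j < 5 * n - 1
    · rw [G0_nd_sat hi2, G0_nd_sat hj2] at hij
      have : (i : ℤ) = j := by linarith
      exact_mod_cast this
    · push Not at hj2
      exact absurd hij (G0_cross hn hi2 hj2 hj)
  · push Not at hi2
    by_cases hj2 : j < 5 * n - 1
    · exact absurd hij.symm (G0_cross hn hj2 hi2 hi)
    · push Not at hj2
      have bi := G0_brick hn hi2 hi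
      have bj := G0_brick hn hj2 hj
      have hgi := G0_div_lt hn hi
      have hgj := G0_div_lt hn hj
      by_cases hg : i / (n - 1) = j / (n - 1)
      · have h1 : nd n i = nd n j := hij
        rw [G0_nd_brick hi2, G0_nd_brick hj2, hg] at h1
        have hc : (cc (j / (n - 1)) : ℤ) ≠ 0 := by
          have := G0_cc_pos _ hgj
          have h2 : (1 : ℤ) ≤ (cc (j / (n - 1)) : ℤ) := by exact_mod_cast this
          omega
        have h3 : (cc (j / (n - 1)) : ℤ) * ((i % (n - 1) : ℕ) : ℤ) =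
            (cc (j / (n - 1)) : ℤ) * ((j % (n - 1) : ℕ) : ℤ) := by
          linarith
        have h4 := mul_left_cancel₀ hc h3
        have h5 : i % (n - 1) = j % (n - 1) := by exact_mod_cast h4
        rw [← Nat.div_add_mod i (n - 1), ← Nat.div_add_mod j (n - 1), hg, h5]
      · exfalso
        rcases G0_disj _ hgi _ hgj hg with h | h
        · have h1 : (bb (i / (n - 1)) + (cc (i / (n - 1)) : ℤ)) * n ≤ bb (j / (n - 1)) * n :=
            mul_le_mul_of_nonneg_right h (by omega)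
          have h2 : nd n i = nd n j := hij
          linarith [bi.2, bj.1]
        · have h1 : (bb (j / (n - 1)) + (cc (j / (n - 1)) : ℤ)) * n ≤ bb (i / (n - 1)) * n :=
            mul_le_mul_of_nonneg_right h (by omega)
          have h2 : nd n i = nd n j := hij
          linarith [bj.2, bi.1]

theorem G0_zq_inj : St_G0_zq_inj := by
  intro n hn i hi j hj hij
  have hi' : i < 20 * n - 20 := by simpa using hi
  have hj' : j < 20 * n - 20 := by simpa using hj
  have h1 : (0 : ℚ) ≤ (nd n i : ℚ) := by exact_mod_cast G0_nd_nonneg hn hi'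
  have h2 : (0 : ℚ) ≤ (nd n j : ℚ) := by exact_mod_cast G0_nd_nonneg hn hj'
  have h3 : ((nd n i : ℚ) / 20) ^ 2 = ((nd n j : ℚ) / 20) ^ 2 := hij
  have h4 : (nd n i : ℚ) / 20 = (nd n j : ℚ) / 20 :=
    (pow_left_inj₀ (by positivity) (by positivity) (by norm_num)).mp h3
  have h5 : (nd n i : ℚ) = (nd n j : ℚ) := by linarith
  have h6 : nd n i = nd n j := by exact_mod_cast h5
  exact G0_nd_inj hn hi hj h6

theorem G0_nd_X : St_G0_nd_X := by
  intro n i hn h1 h2
  have hb := G0_brick hn h1 (show i < 20 * n - 20 by omega)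
  have hg1 : i / (n - 1) < 10 := by
    rw [Nat.div_lt_iff_lt_mul (by omega)]
    omega
  obtain ⟨e1, e2⟩ := G0_brX _ hg1 (G0_div_ge hn h1)
  have hn' : (0 : ℤ) ≤ n := Int.natCast_nonneg _
  have f1 := mul_le_mul_of_nonneg_right e1 hn'
  have f2 := mul_le_mul_of_nonneg_right e2 hn'
  exact ⟨f1.trans hb.1, hb.2.trans_le f2⟩

theorem G0_nd_Y : St_G0_nd_Y := by
  intro n i hn h1 h2
  have hb := G0_brick hn (show 5 * n - 1 ≤ i by omega) h2
  have hg2 : 10 ≤ i / (n - 1) := by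
    rw [Nat.le_div_iff_mul_le (by omega)]
    omega
  obtain ⟨e1, e2⟩ := G0_brY _ (G0_div_lt hn h2) hg2
  have hn' : (0 : ℤ) ≤ n := Int.natCast_nonneg _
  have f1 := mul_le_mul_of_nonneg_right e1 hn'
  have f2 := mul_le_mul_of_nonneg_right e2 hn'
  constructor
  · linarith [hb.1]
  · linarith [hb.2]

end Pool.Agent.Dim7
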