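import Pool.Agent.Dim7.Iface
import Pool.Agent.H574R2.D3.G3p
import Pool.Agent.H337R2.LZ.G2

/-!
# G2: entries of the pole part
-/

open Polynomial Pool.Agent.H337R2

namespace Pool.Agent.Dim7

noncomputable section

namespace G2

/-- the truncated norm, as a real number -/
def G2r (f : PowerSeries ℚ) : ℝ := ((Pool.Agent.H574R2.D3.nrm f : ℚ) : ℝ)

lemma G2r_nonneg (f : PowerSeries ℚ) : 0 ≤ G2r f := by
  unfold G2r
  exact_mod_cast Pool.Agent.H574R2.D3.nrm_nonneg f

lemma G2r_mul (f g : PowerSeries ℚ) : G2r (f * g) ≤ G2r f * G2r g := by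
  unfold G2r
  exact_mod_cast Pool.Agent.H574R2.D3.nrm_mul f g

lemma G2r_one : G2r 1 = 1 := by
  unfold G2r
  rw [Pool.Agent.H574R2.D3.nrm_one]
  norm_num

lemma G2r_mul_exp {f g : PowerSeries ℚ} {a b : ℝ} (hf : G2r f ≤ Real.exp a) (hg : G2r g ≤ Real.exp b) :
    G2r (f * g) ≤ Real.exp (a + b) := by
  rw [Real.exp_add]
  exact (G2r_mul f g).trans (mul_le_mul hf hg (G2r_nonneg _) (Real.exp_pos _).le)

lemma G2r_sq_exp {f : PowerSeries ℚ} {a : ℝ} (hf : G2r f ≤ Real.exp a) :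
    G2r (f ^ 2) ≤ Real.exp (2 * a) := by
  rw [pow_two, two_mul]
  exact G2r_mul_exp hf hf

lemma G2r_prod_exp {ι : Type*} (s : Finset ι) (f : ι → PowerSeries ℚ) (g : ι → ℝ)
    (h : ∀ i ∈ s, G2r (f i) ≤ Real.exp (g i)) : G2r (∏ i ∈ s, f i) ≤ Real.exp (∑ i ∈ s, g i) := by
  classical
  induction s using Finset.induction_on with
  | empty => rw [Finset.prod_empty, Finset.sum_empty, G2r_one]; simp
  | insert a s ha ih =>
    rw [Finset.prod_insert ha, Finset.sum_insert ha]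
    exact G2r_mul_exp (h a (Finset.mem_insert_self a s))
      (ih fun i hi => h i (Finset.mem_insert_of_mem hi))

lemma G2r_lin (a : ℚ) : G2r (PowerSeries.X + PowerSeries.C a) ≤ |(a : ℝ)| + 1 := by
  have h := Pool.Agent.H574R2.D3.nrm_X_add_C a
  have h2 : ((Pool.Agent.H574R2.D3.nrm (PowerSeries.X + PowerSeries.C a) : ℚ) : ℝ) ≤ ((|a| + 1 / 2 : ℚ) : ℝ) := by
    exact_mod_cast h
  unfold G2r
  push_cast at h2
  linarith

/-- from a rational bound to an exponential bound -/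
lemma G2r_of_le {f : PowerSeries ℚ} {q : ℚ} (h : Pool.Agent.H574R2.D3.nrm f ≤ q) (hq : 0 < q) {a : ℝ}
    (ha : Real.log (q : ℝ) ≤ a) : G2r f ≤ Real.exp a := by
  have h1 : G2r f ≤ (q : ℝ) := by
    unfold G2r
    exact_mod_cast h
  have hq' : (0 : ℝ) < (q : ℝ) := by exact_mod_cast hq
  exact h1.trans ((Real.log_le_iff_le_exp hq').1 ha)

/-! ### the nodes -/

lemma G2_TSnode (n k : ℕ) (a : ℚ) :
    TS (-(k : ℚ)) ((X - C (a ^ 2)).comp (xM n)) =
      (PowerSeries.X + PowerSeries.C ((((8 * n : ℕ) : ℚ) - k) - a)) *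
        (PowerSeries.X + PowerSeries.C ((((8 * n : ℕ) : ℚ) - k) + a)) := by
  unfold xM
  rw [Polynomial.sub_comp, Polynomial.X_comp, Polynomial.C_comp, map_sub, map_pow, TS_lin, TS_C]
  have h1 : (-(k : ℚ) + ((8 * n : ℕ) : ℚ)) = (((8 * n : ℕ) : ℚ) - k) := by ring
  rw [h1]
  simp only [map_sub, map_add, map_pow]
  ring

/-- one linear factor in terms of the integer `e = 20 (u ∓ z)` -/
lemma G2_loge (e : ℤ) : Real.log (|(e : ℝ) / 20| + 1) =
    Real.log ((e : ℝ) / 20) + Real.log (1 + 20 / |(e : ℝ)|) := by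
  generalize (e : ℝ) = u
  rcases eq_or_ne u 0 with rfl | hu
  · simp
  · have hu' : 0 < |u| := abs_pos.2 hu
    rw [← Real.log_abs (u / 20), ← Real.log_mul (by positivity) (by positivity)]
    congr 1
    rw [abs_div, abs_of_pos (by norm_num : (0 : ℝ) < 20)]
    field_simp

lemma G2_log20 (x : ℝ) (hx : 0 ≤ x) : Real.log (1 + 20 / x) ≤ 2 * Real.log (1 + 10 / x) := by
  have h1 : (0 : ℝ) ≤ 10 / x := by positivity
  have h2 : 2 * Real.log (1 + 10 / x) = Real.log ((1 + 10 / x) ^ 2) := by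
    rw [Real.log_pow]; norm_num
  rw [h2]
  apply Real.log_le_log
  · have : (0 : ℝ) ≤ 20 / x := by positivity
    linarith
  · have e : (20 : ℝ) / x = 2 * (10 / x) := by ring
    rw [e]
    nlinarith [sq_nonneg (10 / x)]

lemma G2_sum20 {ι : Type*} (s : Finset ι) (u : ι → ℤ) (hinj : Set.InjOn u s) (M : ℕ) (hM : 1 ≤ M)
    (hu : ∀ l ∈ s, |u l| ≤ M) :
    ∑ l ∈ s, Real.log (1 + 20 / |(u l : ℝ)|) ≤ 40 * (1 + Real.log M) := by
  have h := Pool.Agent.LZ.G2_sum s u hinj M hM hu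
  have h2 : ∑ l ∈ s, Real.log (1 + 20 / |(u l : ℝ)|) ≤ ∑ l ∈ s, 2 * Real.log (1 + 10 / |(u l : ℝ)|) :=
    Finset.sum_le_sum fun l _ => G2_log20 _ (abs_nonneg _)
  rw [← Finset.mul_sum] at h2
  linarith

/-- the nodes -/
lemma G2_nodes {n : ℕ} (hn : 6 ≤ n) (hinj : Set.InjOn (nd n) (Finset.range (20 * n - 20)))
    (hbd : ∀ i < 20 * n - 20, |nd n i| ≤ 823 * n) {k : ℕ} (hk : k ∈ sM n) (s : Finset ℕ)
    (hs : s ⊆ Finset.range (20 * n - 20)) (i : ℕ) :
    G2r (TS (-(k : ℚ)) ((lag s (zq n) i).comp (xM n))) ≤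
      Real.exp (Lp n s (20 * ((8 * n : ℤ) - k)) + 80 * (1 + Real.log ((1000 * n : ℕ) : ℝ))) := by
  classical
  obtain ⟨hk1, hk2⟩ := Finset.mem_Icc.1 hk
  unfold lag Pool.Agent.LZ.lag
  rw [Polynomial.prod_comp, map_prod]
  have h0 : ∀ l ∈ s.erase i, G2r (TS (-(k : ℚ)) ((X - C (zq n l)).comp (xM n))) ≤
      Real.exp (Real.log (|((20 * ((8 * n : ℤ) - k) - nd n l : ℤ) : ℝ) / 20| + 1) +
        Real.log (|((20 * ((8 * n : ℤ) - k) + nd n l : ℤ) : ℝ) / 20| + 1)) := by
    intro l _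
    unfold zq
    rw [G2_TSnode]
    apply G2r_mul_exp
    · rw [Real.exp_log (by positivity)]
      refine (G2r_lin _).trans (le_of_eq ?_)
      congr 2
      push_cast
      ring
    · rw [Real.exp_log (by positivity)]
      refine (G2r_lin _).trans (le_of_eq ?_)
      congr 2
      push_cast
      ring
  refine (G2r_prod_exp _ _ _ h0).trans (Real.exp_le_exp.2 ?_)
  have h1 : ∑ l ∈ s.erase i, (Real.log (|((20 * ((8 * n : ℤ) - k) - nd n l : ℤ) : ℝ) / 20| + 1) +
        Real.log (|((20 * ((8 * n : ℤ) - k) + nd n l : ℤ) : ℝ) / 20| + 1)) ≤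
      ∑ l ∈ s, (Real.log (|((20 * ((8 * n : ℤ) - k) - nd n l : ℤ) : ℝ) / 20| + 1) +
        Real.log (|((20 * ((8 * n : ℤ) - k) + nd n l : ℤ) : ℝ) / 20| + 1)) := by
    apply Finset.sum_le_sum_of_subset_of_nonneg (Finset.erase_subset _ _)
    intro l _ _
    apply add_nonneg
    · exact Real.log_nonneg (by
        linarith [abs_nonneg (((20 * ((8 * n : ℤ) - k) - nd n l : ℤ) : ℝ) / 20)])
    · exact Real.log_nonneg (by
        linarith [abs_nonneg (((20 * ((8 * n : ℤ) - k) + nd n l : ℤ) : ℝ) / 20)])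
  refine h1.trans ?_
  simp only [G2_loge]
  have hM : 1 ≤ 1000 * n := by omega
  have h3 := G2_sum20 s (fun l => 20 * ((8 * n : ℤ) - k) - nd n l) (by
    intro a ha b hb hab
    apply hinj (hs ha) (hs hb)
    simp only at hab
    omega) (1000 * n) hM (by
    intro l hl
    have h4 := hbd l (Finset.mem_range.1 (hs hl))
    rw [abs_le] at h4 ⊢
    push_cast
    have h5 : (k : ℤ) ≤ 13 * n := by exact_mod_cast hk2
    have h6 : (3 * n : ℤ) ≤ k := by exact_mod_cast hk1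
    constructor <;> omega)
  have h4 := G2_sum20 s (fun l => 20 * ((8 * n : ℤ) - k) + nd n l) (by
    intro a ha b hb hab
    apply hinj (hs ha) (hs hb)
    simp only at hab
    omega) (1000 * n) hM (by
    intro l hl
    have h4 := hbd l (Finset.mem_range.1 (hs hl))
    rw [abs_le] at h4 ⊢
    push_cast
    have h5 : (k : ℤ) ≤ 13 * n := by exact_mod_cast hk2
    have h6 : (3 * n : ℤ) ≤ k := by exact_mod_cast hk1
    constructor <;> omega)
  unfold Lp
  rw [Finset.sum_add_distrib] at *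
  simp only [Finset.sum_add_distrib]
  linarith

/-! ### the zeros, the poles, the constant -/

/-- `∏_{a ≤ m < b} (t + m)` at `t = -k`, `b ≤ k` -/
lemma up {a b k : ℕ} (hab : a ≤ b) (hbk : b ≤ k) :
    Pool.Agent.H574R2.D3.nrm (∏ m ∈ Finset.Ico a b, TS (-(k : ℚ)) (X + C (m : ℚ))) ≤
      ((k - a + 1 : ℕ) : ℚ) * (((k - a).factorial : ℚ) / (k - b).factorial) := by
  refine (Pool.Agent.H574R2.D3.nrm_prod _ _).trans ?_
  rw [Finset.prod_Ico_eq_prod_range, ← Finset.prod_range_reflect]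
  have h2 := Pool.Agent.H574R2.D3.g3p_P (k - b) (b - a)
  have h3 : k - b + (b - a) = k - a := by omega
  rw [h3] at h2
  have h5 : ((k - b : ℕ) : ℚ) = k - b := by rw [Nat.cast_sub hbk]
  have h6 : ((b - a : ℕ) : ℚ) = b - a := by rw [Nat.cast_sub hab]
  have h7 : ((k - a + 1 : ℕ) : ℚ) = k - a + 1 := by
    rw [Nat.cast_add, Nat.cast_sub (hab.trans hbk), Nat.cast_one]
  refine le_trans (Finset.prod_le_prod (fun _ _ => Pool.Agent.H574R2.D3.nrm_nonneg _) ?_) (h2.trans ?_)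
  · intro l hl
    rw [Finset.mem_range] at hl
    refine (Pool.Agent.H574R2.D3.nrm_TS_lin _ _).trans (le_of_eq ?_)
    have h4 : ((a + (b - a - 1 - l) : ℕ) : ℚ) = b - 1 - l := by
      have e : a + (b - a - 1 - l) = b - 1 - l := by omega
      rw [e, Nat.cast_sub (by omega), Nat.cast_sub (by omega)]
      push_cast
      ring
    rw [h4, h5]
    have h8 : (b : ℚ) ≤ k := by exact_mod_cast hbk
    rw [abs_of_nonpos (by linarith [Nat.cast_nonneg (α := ℚ) l])]
    ring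
  · apply mul_le_mul_of_nonneg_right _ (by positivity)
    rw [h5, h6, h7]
    linarith

/-- `∏_{a < m ≤ b} (t + m)` at `t = -k`, `k ≤ a` -/
lemma dn {a b k : ℕ} (hka : k ≤ a) (hab : a ≤ b) :
    Pool.Agent.H574R2.D3.nrm (∏ m ∈ Finset.Ioc a b, TS (-(k : ℚ)) (X + C (m : ℚ))) ≤
      ((b - k + 1 : ℕ) : ℚ) * (((b - k).factorial : ℚ) / (a - k).factorial) := by
  refine (Pool.Agent.H574R2.D3.nrm_prod _ _).trans ?_
  have e0 : Finset.Ioc a b = Finset.Ico (a + 1) (b + 1) := by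
    ext x
    simp only [Finset.mem_Ioc, Finset.mem_Ico]
    omega
  rw [e0, Finset.prod_Ico_eq_prod_range]
  have e1 : b + 1 - (a + 1) = b - a := by omega
  rw [e1]
  have h2 := Pool.Agent.H574R2.D3.g3p_P (a - k) (b - a)
  have h3 : a - k + (b - a) = b - k := by omega
  rw [h3] at h2
  have h5 : ((a - k : ℕ) : ℚ) = a - k := by rw [Nat.cast_sub hka]
  have h6 : ((b - a : ℕ) : ℚ) = b - a := by rw [Nat.cast_sub hab]
  have h7 : ((b - k + 1 : ℕ) : ℚ) = b - k + 1 := by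
    rw [Nat.cast_add, Nat.cast_sub (hka.trans hab), Nat.cast_one]
  have h8 : (k : ℚ) ≤ a := by exact_mod_cast hka
  refine le_trans (Finset.prod_le_prod (fun _ _ => Pool.Agent.H574R2.D3.nrm_nonneg _) ?_) (h2.trans ?_)
  · intro l hl
    refine (Pool.Agent.H574R2.D3.nrm_TS_lin _ _).trans (le_of_eq ?_)
    rw [h5]
    push_cast
    rw [abs_of_nonneg (by linarith [Nat.cast_nonneg (α := ℚ) l])]
    ring
  · apply mul_le_mul_of_nonneg_right _ (by positivity)
    rw [h5, h6, h7]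
    linarith

lemma nrm_at (k : ℕ) : Pool.Agent.H574R2.D3.nrm (TS (-(k : ℚ)) (X + C (k : ℚ))) ≤ 1 := by
  refine (Pool.Agent.H574R2.D3.nrm_TS_lin _ _).trans ?_
  rw [neg_add_cancel, abs_zero]
  norm_num

lemma lf {m : ℕ} {M : ℝ} (hm : (m : ℝ) + 1 ≤ M) :
    Real.log (m.factorial : ℝ) ≤ Psi m + 1 + Real.log M := by
  have h1 := Pool.Agent.LZ.G2_lf_up m
  have h2 : Real.log ((m : ℝ) + 1) ≤ Real.log M := Real.log_le_log (by positivity) hm
  linarith

/-- lower interval -/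
lemma lowI {a b k : ℕ} (hab : a ≤ b) (hak : a ≤ k) {M : ℝ} (hM1 : (k : ℝ) + 1 ≤ M) (hM2 : (b : ℝ) + 1 ≤ M) :
    G2r (∏ m ∈ Finset.Ico a b, TS (-(k : ℚ)) (X + C (m : ℚ))) ≤
      Real.exp (Psi ((k : ℝ) - a) - Psi ((k : ℝ) - b) + 2 + 3 * Real.log M) := by
  have hM0 : (1 : ℝ) ≤ M := by linarith [Nat.cast_nonneg (α := ℝ) k]
  have hlM : 0 ≤ Real.log M := Real.log_nonneg hM0
  have ea : ((k - a : ℕ) : ℝ) = k - a := by rw [Nat.cast_sub hak]
  have ha0 : (0 : ℝ) ≤ a := Nat.cast_nonneg _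
  have l1 : Real.log ((k - a + 1 : ℕ) : ℝ) ≤ Real.log M := by
    apply Real.log_le_log (by positivity)
    push_cast [Nat.cast_sub hak]
    linarith
  have l2 := lf (m := k - a) (M := M) (by rw [ea]; linarith)
  rw [ea] at l2
  rcases Nat.le_total b k with hbk | hkb
  · refine G2r_of_le (up hab hbk) (by positivity) ?_
    rw [Rat.cast_mul, Rat.cast_div, Rat.cast_natCast, Rat.cast_natCast, Rat.cast_natCast,
      Real.log_mul (by positivity) (by positivity), Real.log_div (by positivity) (by positivity)]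
    have l3 := Pool.Agent.LZ.G2_lf_low (k - b)
    rw [Nat.cast_sub hbk] at l3
    linarith
  · rcases Nat.eq_or_lt_of_le hkb with rfl | hkb
    · refine G2r_of_le (up hab le_rfl) (by positivity) ?_
      rw [Rat.cast_mul, Rat.cast_div, Rat.cast_natCast, Rat.cast_natCast, Rat.cast_natCast,
        Real.log_mul (by positivity) (by positivity), Real.log_div (by positivity) (by positivity)]
      have l3 := Pool.Agent.LZ.G2_lf_low (k - k)
      rw [Nat.cast_sub le_rfl] at l3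
      linarith
    · have hsplit : ∏ m ∈ Finset.Ico a b, TS (-(k : ℚ)) (X + C (m : ℚ)) =
          (∏ m ∈ Finset.Ico a k, TS (-(k : ℚ)) (X + C (m : ℚ))) * (TS (-(k : ℚ)) (X + C (k : ℚ)) *
            ∏ m ∈ Finset.Ioc k (b - 1), TS (-(k : ℚ)) (X + C (m : ℚ))) := by
        rw [← Finset.prod_Ico_consecutive _ hak hkb.le]
        congr 1
        rw [Finset.prod_eq_prod_Ico_succ_bot hkb]
        congr 1
        apply Finset.prod_congr _ fun _ _ => rfl
        ext x
        simp only [Finset.mem_Ioc, Finset.mem_Ico]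
        omega
      rw [hsplit]
      have h1 : G2r (∏ m ∈ Finset.Ico a k, TS (-(k : ℚ)) (X + C (m : ℚ))) ≤
          Real.exp (Psi ((k : ℝ) - a) + 1 + 2 * Real.log M) := by
        refine G2r_of_le (up hak le_rfl) (by positivity) ?_
        rw [Nat.sub_self, Nat.factorial_zero, Nat.cast_one, div_one, Rat.cast_mul, Rat.cast_natCast,
          Rat.cast_natCast, Real.log_mul (by positivity) (by positivity)]
        linarith
      have h2 : G2r (TS (-(k : ℚ)) (X + C (k : ℚ))) ≤ Real.exp 0 := by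
        refine G2r_of_le (nrm_at k) one_pos ?_
        simp
      have h3 : G2r (∏ m ∈ Finset.Ioc k (b - 1), TS (-(k : ℚ)) (X + C (m : ℚ))) ≤
          Real.exp (-Psi ((k : ℝ) - b) + 1 + Real.log M) := by
        refine G2r_of_le (dn le_rfl (by omega)) (by positivity) ?_
        obtain ⟨e, he⟩ : ∃ e, b - k = e + 1 := ⟨b - k - 1, by omega⟩
        have he' : b - 1 - k = e := by omega
        have l3 := lf (m := b - k) (M := M) (by
          rw [Nat.cast_sub hkb.le]
          linarith [Nat.cast_nonneg (α := ℝ) k])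
        rw [Nat.cast_sub hkb.le] at l3
        have e3 : (b : ℝ) - k = -((k : ℝ) - b) := by ring
        rw [e3, Pool.Agent.LZ.G2_Psi_neg, he, Nat.factorial_succ] at l3
        rw [Nat.sub_self, Nat.factorial_zero, Nat.cast_one, div_one, he']
        push_cast at l3 ⊢
        linarith
      refine (G2r_mul_exp h1 (G2r_mul_exp h2 h3)).trans (Real.exp_le_exp.2 ?_)
      linarith

/-- upper interval -/
lemma highI {a b k : ℕ} (hab : a ≤ b) (hkb : k ≤ b) {M : ℝ} (hM1 : (k : ℝ) + 1 ≤ M) (hM2 : (b : ℝ) + 1 ≤ M) :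
    G2r (∏ m ∈ Finset.Ioc a b, TS (-(k : ℚ)) (X + C (m : ℚ))) ≤
      Real.exp (Psi ((b : ℝ) - k) - Psi ((a : ℝ) - k) + 2 + 3 * Real.log M) := by
  have hM0 : (1 : ℝ) ≤ M := by linarith [Nat.cast_nonneg (α := ℝ) k]
  have hlM : 0 ≤ Real.log M := Real.log_nonneg hM0
  have eb : ((b - k : ℕ) : ℝ) = b - k := by rw [Nat.cast_sub hkb]
  have hk0 : (0 : ℝ) ≤ k := Nat.cast_nonneg _
  have ha0 : (0 : ℝ) ≤ a := Nat.cast_nonneg _
  have l1 : Real.log ((b - k + 1 : ℕ) : ℝ) ≤ Real.log M := by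
    apply Real.log_le_log (by positivity)
    push_cast [Nat.cast_sub hkb]
    linarith
  have l2 := lf (m := b - k) (M := M) (by rw [eb]; linarith)
  rw [eb] at l2
  rcases Nat.lt_or_ge a k with hak | hka
  swap
  · refine G2r_of_le (dn hka hab) (by positivity) ?_
    rw [Rat.cast_mul, Rat.cast_div, Rat.cast_natCast, Rat.cast_natCast, Rat.cast_natCast,
      Real.log_mul (by positivity) (by positivity), Real.log_div (by positivity) (by positivity)]
    have l3 := Pool.Agent.LZ.G2_lf_low (a - k)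
    rw [Nat.cast_sub hka] at l3
    linarith
  · have hsplit : ∏ m ∈ Finset.Ioc a b, TS (-(k : ℚ)) (X + C (m : ℚ)) =
        (∏ m ∈ Finset.Ico (a + 1) k, TS (-(k : ℚ)) (X + C (m : ℚ))) * (TS (-(k : ℚ)) (X + C (k : ℚ)) *
          ∏ m ∈ Finset.Ioc k b, TS (-(k : ℚ)) (X + C (m : ℚ))) := by
      have e0 : Finset.Ioc a b = Finset.Ico (a + 1) (b + 1) := by
        ext x
        simp only [Finset.mem_Ioc, Finset.mem_Ico]
        omega
      rw [e0, ← Finset.prod_Ico_consecutive _ (by omega : a + 1 ≤ k) (by omega : k ≤ b + 1)]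
      congr 1
      rw [Finset.prod_eq_prod_Ico_succ_bot (by omega : k < b + 1)]
      congr 1
      apply Finset.prod_congr _ fun _ _ => rfl
      ext x
      simp only [Finset.mem_Ioc, Finset.mem_Ico]
      omega
    rw [hsplit]
    have h1 : G2r (∏ m ∈ Finset.Ico (a + 1) k, TS (-(k : ℚ)) (X + C (m : ℚ))) ≤
        Real.exp (-Psi ((a : ℝ) - k) + 1 + Real.log M) := by
      refine G2r_of_le (up (by omega) le_rfl) (by positivity) ?_
      obtain ⟨e, he⟩ : ∃ e, k - a = e + 1 := ⟨k - a - 1, by omega⟩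
      have he' : k - (a + 1) = e := by omega
      have l3 := lf (m := k - a) (M := M) (by
        rw [Nat.cast_sub hak.le]
        linarith)
      rw [Nat.cast_sub hak.le] at l3
      have e3 : (k : ℝ) - a = -((a : ℝ) - k) := by ring
      rw [e3, Pool.Agent.LZ.G2_Psi_neg, he, Nat.factorial_succ] at l3
      rw [Nat.sub_self, Nat.factorial_zero, Nat.cast_one, div_one, he']
      push_cast at l3 ⊢
      linarith
    have h2 : G2r (TS (-(k : ℚ)) (X + C (k : ℚ))) ≤ Real.exp 0 := by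
      refine G2r_of_le (nrm_at k) one_pos ?_
      simp
    have h3 : G2r (∏ m ∈ Finset.Ioc k b, TS (-(k : ℚ)) (X + C (m : ℚ))) ≤
        Real.exp (Psi ((b : ℝ) - k) + 1 + 2 * Real.log M) := by
      refine G2r_of_le (dn le_rfl hkb) (by positivity) ?_
      rw [Nat.sub_self, Nat.factorial_zero, Nat.cast_one, div_one, Rat.cast_mul, Rat.cast_natCast,
        Rat.cast_natCast, Real.log_mul (by positivity) (by positivity)]
      linarith
    refine (G2r_mul_exp h1 (G2r_mul_exp h2 h3)).trans (Real.exp_le_exp.2 ?_)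
    linarith

/-- the zeros -/
lemma G2_Z {n k : ℕ} (hn : 6 ≤ n) (hk : k ∈ sM n) : G2r (TS (-(k : ℚ)) (ZM n)) ≤
    Real.exp (Psi (k : ℝ) + Psi (16 * n - (k : ℝ)) + (Psi ((k : ℝ) - 3 * n) + Psi (13 * n - (k : ℝ))) -
      2 * (Psi ((k : ℝ) - 4 * n) + Psi (12 * n - (k : ℝ))) + 12 + 18 * Real.log ((1000 * n : ℕ) : ℝ)) := by
  obtain ⟨hk1, hk2⟩ := Finset.mem_Icc.1 hk
  have hk1' : (3 * n : ℝ) ≤ k := by exact_mod_cast hk1
  have hk2' : (k : ℝ) ≤ 13 * n := by exact_mod_cast hk2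
  have hn' : (6 : ℝ) ≤ n := by exact_mod_cast hn
  unfold ZM OM
  have e1 : Finset.Icc (13 * n + 1) (16 * n) = Finset.Ioc (13 * n) (16 * n) := by
    ext x
    simp only [Finset.mem_Icc, Finset.mem_Ioc]
    omega
  have e2 : Finset.Icc (12 * n + 1) (13 * n) = Finset.Ioc (12 * n) (13 * n) := by
    ext x
    simp only [Finset.mem_Icc, Finset.mem_Ioc]
    omega
  rw [e1, e2, Finset.range_eq_Ico, map_mul, map_mul, map_pow, map_mul, map_prod, map_prod, map_prod, map_prod]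
  have h1 := lowI (a := 0) (b := 3 * n) (k := k) (M := ((1000 * n : ℕ) : ℝ)) (by omega) (by omega)
    (by push_cast; linarith) (by push_cast; linarith)
  have h2 := highI (a := 13 * n) (b := 16 * n) (k := k) (M := ((1000 * n : ℕ) : ℝ)) (by omega) (by omega)
    (by push_cast; linarith) (by push_cast; linarith)
  have h3 := lowI (a := 3 * n) (b := 4 * n) (k := k) (M := ((1000 * n : ℕ) : ℝ)) (by omega) (by omega)
    (by push_cast; linarith) (by push_cast; linarith)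
  have h4 := highI (a := 12 * n) (b := 13 * n) (k := k) (M := ((1000 * n : ℕ) : ℝ)) (by omega) (by omega)
    (by push_cast; linarith) (by push_cast; linarith)
  refine (G2r_mul_exp (G2r_mul_exp h1 h2) (G2r_sq_exp (G2r_mul_exp h3 h4))).trans (Real.exp_le_exp.2 ?_)
  push_cast
  rw [sub_zero]
  linarith

lemma G2_V0 {n k : ℕ} (hk : k ∈ sM n) : Pool.Agent.H574R2.D3.nrm (VV ((sM n).erase k) mM (-(k : ℚ))) ≤
    ((2 * (10 * n + 1)) ^ 2 * (1 / (((k - 3 * n).factorial : ℚ) * (13 * n - k).factorial))) ^ 8 := by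
  obtain ⟨hk1, hk2⟩ := Finset.mem_Icc.1 hk
  unfold VV
  refine (Pool.Agent.H574R2.D3.nrm_prod _ _).trans ?_
  have habs : ∀ m ∈ (sM n).erase k, (1 : ℚ) ≤ |-(k : ℚ) + m| := by
    intro m hm
    have hne : m ≠ k := Finset.ne_of_mem_erase hm
    have h2 : (1 : ℤ) ≤ |-(k : ℤ) + m| := by
      apply Int.one_le_abs
      omega
    exact_mod_cast h2
  have h0 : ∀ m ∈ (sM n).erase k, Pool.Agent.H574R2.D3.nrm (iv (-(k : ℚ) + m) ^ mM m) ≤
      (1 / (|-(k : ℚ) + m| - 1 / 2)) ^ 8 := by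
    intro m hm
    refine (Pool.Agent.H574R2.D3.nrm_pow _ _).trans
      (pow_le_pow_left₀ (Pool.Agent.H574R2.D3.nrm_nonneg _) (Pool.Agent.H574R2.D3.nrm_iv ?_) 8)
    have h1 := habs m hm
    linarith
  refine (Finset.prod_le_prod (fun _ _ => Pool.Agent.H574R2.D3.nrm_nonneg _) h0).trans ?_
  rw [Finset.prod_pow]
  have hpos : ∀ m ∈ (sM n).erase k, (0 : ℚ) ≤ 1 / (|-(k : ℚ) + m| - 1 / 2) := by
    intro m hm
    have h1 := habs m hm
    apply one_div_nonneg.2
    linarith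
  apply pow_le_pow_left₀ (Finset.prod_nonneg hpos)
  have hset : (sM n).erase k = Finset.Ico (3 * n) k ∪ Finset.Ico (k + 1) (13 * n + 1) := by
    ext x
    simp only [Finset.mem_erase, Finset.mem_Icc, Finset.mem_union, Finset.mem_Ico]
    omega
  have hdisj : Disjoint (Finset.Ico (3 * n) k) (Finset.Ico (k + 1) (13 * n + 1)) := by
    rw [Finset.disjoint_left]
    intro x
    simp only [Finset.mem_Ico]
    omega
  rw [hset, Finset.prod_union hdisj]
  have h1 : ∏ m ∈ Finset.Ico (3 * n) k, (1 / (|-(k : ℚ) + m| - 1 / 2)) ≤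
      2 * (10 * n + 1) / ((k - 3 * n).factorial : ℚ) := by
    rw [Finset.prod_Ico_eq_prod_range, ← Finset.prod_range_reflect]
    refine le_trans (le_of_eq ?_) ((Pool.Agent.H574R2.D3.g3p_Q (k - 3 * n)).trans ?_)
    · refine Finset.prod_congr rfl fun l hl => ?_
      rw [Finset.mem_range] at hl
      have h3 : 3 * n + (k - 3 * n - 1 - l) = k - 1 - l := by omega
      rw [h3]
      have h4 : ((k - 1 - l : ℕ) : ℚ) = k - 1 - l := by
        rw [Nat.cast_sub (by omega), Nat.cast_sub (by omega)]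
        push_cast
        ring
      rw [h4, abs_of_nonpos (by linarith [Nat.cast_nonneg (α := ℚ) l])]
      congr 1
      ring
    · apply div_le_div_of_nonneg_right _ (by positivity)
      have h5 : ((k - 3 * n : ℕ) : ℚ) ≤ 10 * n := by exact_mod_cast (by omega : k - 3 * n ≤ 10 * n)
      linarith
  have h2 : ∏ m ∈ Finset.Ico (k + 1) (13 * n + 1), (1 / (|-(k : ℚ) + m| - 1 / 2)) ≤
      2 * (10 * n + 1) / ((13 * n - k).factorial : ℚ) := by
    rw [Finset.prod_Ico_eq_prod_range]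
    have h3 : 13 * n + 1 - (k + 1) = 13 * n - k := by omega
    rw [h3]
    refine le_trans (le_of_eq ?_) ((Pool.Agent.H574R2.D3.g3p_Q (13 * n - k)).trans ?_)
    · refine Finset.prod_congr rfl fun l _ => ?_
      push_cast
      rw [abs_of_nonneg (by linarith [Nat.cast_nonneg (α := ℚ) l])]
      congr 1
      ring
    · apply div_le_div_of_nonneg_right _ (by positivity)
      have h5 : ((13 * n - k : ℕ) : ℚ) ≤ 10 * n := by exact_mod_cast (by omega : 13 * n - k ≤ 10 * n)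
      linarith
  have hpos2 : (0 : ℚ) ≤ ∏ m ∈ Finset.Ico (k + 1) (13 * n + 1), (1 / (|-(k : ℚ) + m| - 1 / 2)) := by
    apply Finset.prod_nonneg
    intro m hm
    apply hpos
    rw [hset]
    exact Finset.mem_union_right _ hm
  calc _ ≤ (2 * (10 * n + 1) / ((k - 3 * n).factorial : ℚ)) * (2 * (10 * n + 1) / ((13 * n - k).factorial : ℚ)) :=
        mul_le_mul h1 h2 hpos2 (by positivity)
    _ = _ := by ring

/-- the poles -/
lemma G2_V {n k : ℕ} (hn : 6 ≤ n) (hk : k ∈ sM n) : G2r (VV ((sM n).erase k) mM (-(k : ℚ))) ≤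
    Real.exp (-(8 * (Psi ((k : ℝ) - 3 * n) + Psi (13 * n - (k : ℝ)))) + 16 * Real.log ((1000 * n : ℕ) : ℝ)) := by
  obtain ⟨hk1, hk2⟩ := Finset.mem_Icc.1 hk
  have hn' : (6 : ℝ) ≤ n := by exact_mod_cast hn
  refine G2r_of_le (G2_V0 hk) (by positivity) ?_
  push_cast
  have hx : (0 : ℝ) < 2 * (10 * (n : ℝ) + 1) := by positivity
  have hy : (0 : ℝ) < ((k - 3 * n).factorial : ℝ) := by positivity
  have hz : (0 : ℝ) < ((13 * n - k).factorial : ℝ) := by positivity
  rw [Real.log_pow, Real.log_mul (pow_pos hx 2).ne' (by positivity), Real.log_pow, one_div, Real.log_inv,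
    Real.log_mul hy.ne' hz.ne']
  have h1 := Pool.Agent.LZ.G2_lf_low (k - 3 * n)
  have h2 := Pool.Agent.LZ.G2_lf_low (13 * n - k)
  rw [Nat.cast_sub (by omega)] at h1 h2
  push_cast at h1 h2
  have h3 : Real.log (2 * (10 * (n : ℝ) + 1)) ≤ Real.log (1000 * n) := Real.log_le_log (by positivity) (by linarith)
  push_cast
  linarith

lemma G2_kap {n k : ℕ} (hk : k ∈ sM n) : |(((8 * n : ℕ) : ℚ) - k)| ≤ 5 * n := by
  obtain ⟨hk1, hk2⟩ := Finset.mem_Icc.1 hk
  have h7 : (k : ℚ) ≤ 13 * n := by exact_mod_cast hk2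
  have h8 : (3 : ℚ) * n ≤ k := by exact_mod_cast hk1
  push_cast
  rw [abs_le]
  constructor <;> linarith

lemma G2_linf {n k : ℕ} (hn : 6 ≤ n) (hk : k ∈ sM n) :
    G2r (TS (-(k : ℚ)) (2 * X + C ((16 * n : ℕ) : ℚ))) ≤ Real.exp (Real.log ((1000 * n : ℕ) : ℝ)) := by
  have e : (2 * X + C ((16 * n : ℕ) : ℚ) : ℚ[X]) = C 2 * (X + C ((8 * n : ℕ) : ℚ)) := by
    rw [mul_add, ← C_mul, show (C 2 : ℚ[X]) = 2 from rfl]
    congr 2
    push_cast
    ring
  have h10 : (6 : ℚ) ≤ n := by exact_mod_cast hn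
  refine G2r_of_le (q := ((1000 * n : ℕ) : ℚ)) ?_ (by push_cast; linarith) (by rw [Rat.cast_natCast])
  rw [e, map_mul, TS_C, Pool.Agent.H574R2.D3.nrm_C_mul]
  have h1 := Pool.Agent.H574R2.D3.nrm_TS_lin (-(k : ℚ)) ((8 * n : ℕ) : ℚ)
  have h2 := G2_kap hk
  have h3 : (-(k : ℚ) + ((8 * n : ℕ) : ℚ)) = ((8 * n : ℕ) : ℚ) - k := by ring
  rw [h3] at h1
  rw [abs_of_pos (by norm_num : (0 : ℚ) < 2)]
  push_cast at h1 h2 ⊢
  linarith

lemma G2_x34 {n k : ℕ} (hn : 6 ≤ n) (hk : k ∈ sM n) :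
    G2r (TS (-(k : ℚ)) (xM n ^ 34)) ≤ Real.exp (68 * Real.log ((1000 * n : ℕ) : ℝ)) := by
  have h10 : (6 : ℚ) ≤ n := by exact_mod_cast hn
  refine G2r_of_le (q := ((1000 * n : ℕ) : ℚ) ^ 68) ?_ (by push_cast; positivity) (by
    rw [Rat.cast_pow, Rat.cast_natCast, Real.log_pow]
    push_cast
    exact le_rfl)
  unfold xM
  rw [← pow_mul, map_pow, TS_lin]
  refine (Pool.Agent.H574R2.D3.nrm_pow _ _).trans ?_
  apply pow_le_pow_left₀ (Pool.Agent.H574R2.D3.nrm_nonneg _)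
  have h1 := Pool.Agent.H574R2.D3.nrm_X_add_C (-(k : ℚ) + ((8 * n : ℕ) : ℚ))
  have h2 := G2_kap hk
  have h3 : (-(k : ℚ) + ((8 * n : ℕ) : ℚ)) = ((8 * n : ℕ) : ℚ) - k := by ring
  rw [h3] at h1 ⊢
  push_cast at h1 h2 ⊢
  linarith

/-- the constant -/
lemma G2_const {n k : ℕ} (hn : 6 ≤ n) : G2r (TS (-(k : ℚ)) (C (cM n))) ≤
    Real.exp (8 * Psi (10 * n) - 2 * Psi (3 * n) - 4 * Psi n + 8 + 8 * Real.log ((1000 * n : ℕ) : ℝ)) := by
  have hn' : (6 : ℝ) ≤ n := by exact_mod_cast hn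
  have hc : 0 < cM n := by unfold cM; positivity
  refine G2r_of_le (q := cM n) (by rw [TS_C, Pool.Agent.H574R2.D3.nrm_C, abs_of_pos hc]) hc ?_
  unfold cM
  push_cast
  rw [Real.log_div (by positivity) (by positivity), Real.log_mul (by positivity) (by positivity),
    Real.log_pow, Real.log_pow, Real.log_pow]
  have h1 := lf (m := 10 * n) (M := 1000 * (n : ℝ)) (by push_cast; linarith)
  have h2 := Pool.Agent.LZ.G2_lf_low (3 * n)
  have h3 := Pool.Agent.LZ.G2_lf_low n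
  push_cast at h1 h2 h3 ⊢
  linarith

lemma G2_phi7 {n : ℕ} (hn : 1 ≤ n) (u : ℝ) :
    8 * Psi (10 * n) - 2 * Psi (3 * n) - 4 * Psi n + Psi (8 * n + u) + Psi (8 * n - u) - 7 * Psi (5 * n + u) -
      7 * Psi (5 * n - u) - 2 * Psi (4 * n + u) - 2 * Psi (4 * n - u) = n * phi (20 * u / n) := by
  have hn0 : (0 : ℝ) < n := by exact_mod_cast hn
  have hc : (20 / n : ℝ) ≠ 0 := by positivity
  unfold phi
  have e1 : 20 * u / n + 160 = (20 / n) * (8 * n + u) := by field_simp; ring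
  have e2 : 20 * u / n + 100 = (20 / n) * (5 * n + u) := by field_simp; ring
  have e3 : 20 * u / n + 80 = (20 / n) * (4 * n + u) := by field_simp; ring
  have e4 : 20 * u / n - 80 = -((20 / n) * (4 * n - u)) := by field_simp; ring
  have e5 : 20 * u / n - 100 = -((20 / n) * (5 * n - u)) := by field_simp; ring
  have e6 : 20 * u / n - 160 = -((20 / n) * (8 * n - u)) := by field_simp; ring
  rw [e1, e2, e3, e4, e5, e6, Pool.Agent.LZ.G2_Psi_neg, Pool.Agent.LZ.G2_Psi_neg, Pool.Agent.LZ.G2_Psi_neg,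
    Pool.Agent.LZ.G2_Psi_scale hc, Pool.Agent.LZ.G2_Psi_scale hc, Pool.Agent.LZ.G2_Psi_scale hc,
    Pool.Agent.LZ.G2_Psi_scale hc, Pool.Agent.LZ.G2_Psi_scale hc, Pool.Agent.LZ.G2_Psi_scale hc]
  have f10 : Psi (10 * n) = 10 * Psi n + 10 * n * Real.log 10 := Pool.Agent.LZ.G2_Psi_scale (by norm_num) _
  have f3 : Psi (3 * n) = 3 * Psi n + 3 * n * Real.log 3 := Pool.Agent.LZ.G2_Psi_scale (by norm_num) _
  have l10 : Real.log 10 = Real.log 2 + Real.log 5 := by
    rw [show (10 : ℝ) = 2 * 5 by norm_num, Real.log_mul (by norm_num) (by norm_num)]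
  have lc : Real.log (20 / n) = 2 * Real.log 2 + Real.log 5 - Real.log n := by
    rw [Real.log_div (by norm_num) hn0.ne', show (20 : ℝ) = 2 * 10 by norm_num,
      Real.log_mul (by norm_num) (by norm_num), l10]
    ring
  have fn : Psi n = n * Real.log n - n := rfl
  rw [f10, f3, l10, lc, fn]
  generalize Psi (8 * n + u) = P1
  generalize Psi (8 * n - u) = P2
  generalize Psi (5 * n + u) = P3
  generalize Psi (5 * n - u) = P4
  generalize Psi (4 * n + u) = P5
  generalize Psi (4 * n - u) = P6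
  generalize Real.log 5 = L5
  generalize Real.log 3 = L3
  generalize Real.log 2 = L2
  generalize Real.log (n : ℝ) = Ln
  field_simp
  ring

lemma G2_ln1 {n : ℕ} (hn : 6 ≤ n) : 1 ≤ Real.log n := by
  have h1 : (6 : ℝ) ≤ n := by exact_mod_cast hn
  have h2 := Real.exp_one_lt_d9
  rw [Real.le_log_iff_exp_le (by linarith)]
  linarith

lemma G2_ln1000 {n : ℕ} (hn : 6 ≤ n) : Real.log ((1000 * n : ℕ) : ℝ) ≤ 5 * Real.log n := by
  have h1 : (6 : ℝ) ≤ n := by exact_mod_cast hn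
  have : 5 * Real.log n = Real.log ((n : ℝ) ^ 5) := by rw [Real.log_pow]; norm_num
  rw [this]
  push_cast
  apply Real.log_le_log (by positivity)
  have h2 : (1296 : ℝ) ≤ (n : ℝ) ^ 4 := by
    calc (1296 : ℝ) = 6 ^ 4 := by norm_num
      _ ≤ _ := pow_le_pow_left₀ (by norm_num) h1 4
  have h3 : (n : ℝ) ^ 5 = n ^ 4 * n := by ring
  rw [h3]
  nlinarith

/-- one pole -/
lemma G2_one {n k r : ℕ} (hn : 6 ≤ n) (hinj : Set.InjOn (nd n) (Finset.range (20 * n - 20)))
    (hbd : ∀ i < 20 * n - 20, |nd n i| ≤ 823 * n) (hk : k ∈ sM n) (hr : r ∈ Finset.Icc 1 8) (i j : ℕ) :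
    |((pa (sM n) mM (PM n * EM n (lag (Finset.range (20 * n - 20)) (zq n) i *
      lag (Finset.Ico (10 * n - 10) (20 * n - 20)) (zq n) j)) k r : ℚ) : ℝ)| ≤
    Real.exp (n * phi (20 * (((8 * n : ℤ) - k : ℤ) : ℝ) / n) +
      Lp n (Finset.range (20 * n - 20)) (20 * ((8 * n : ℤ) - k)) +
      Lp n (Finset.Ico (10 * n - 10) (20 * n - 20)) (20 * ((8 * n : ℤ) - k)) + 1700 * Real.log n) := by
  set Q : ℚ[X] := lag (Finset.range (20 * n - 20)) (zq n) i *
      lag (Finset.Ico (10 * n - 10) (20 * n - 20)) (zq n) j with hQ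
  have hr' := Finset.mem_Icc.1 hr
  have hd : pa (sM n) mM (PM n * EM n Q) k r = pfc (sM n) mM (PM n * EM n Q) k (8 - r) := by
    unfold pa
    rw [if_pos hr'.2]
  rw [hd]
  unfold pfc
  have h0 : |((PowerSeries.coeff (8 - r) (TS (-(k : ℚ)) (PM n * EM n Q) *
      VV ((sM n).erase k) mM (-(k : ℚ))) : ℚ) : ℝ)| ≤
      Real.exp (20 : ℝ) * G2r (TS (-(k : ℚ)) (PM n * EM n Q) * VV ((sM n).erase k) mM (-(k : ℚ))) := by
    have h1 := Pool.Agent.H574R2.D3.coeff_le_nrm (TS (-(k : ℚ)) (PM n * EM n Q) *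
      VV ((sM n).erase k) mM (-(k : ℚ))) (j := 8 - r) (by omega)
    have h2 : ((|PowerSeries.coeff (8 - r) (TS (-(k : ℚ)) (PM n * EM n Q) *
      VV ((sM n).erase k) mM (-(k : ℚ)))| : ℚ) : ℝ) ≤ ((2 ^ 20 * Pool.Agent.H574R2.D3.nrm (TS (-(k : ℚ)) (PM n * EM n Q) *
      VV ((sM n).erase k) mM (-(k : ℚ))) : ℚ) : ℝ) := Rat.cast_le.2 h1
    rw [Rat.cast_abs, Rat.cast_mul] at h2
    refine h2.trans ?_
    apply mul_le_mul_of_nonneg_right _ (G2r_nonneg _)
    have h3 : (2 : ℝ) ≤ Real.exp 1 := by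
      have := Real.add_one_le_exp (1 : ℝ)
      linarith
    have h4 : Real.exp (20 : ℝ) = Real.exp 1 ^ 20 := by
      rw [← Real.exp_nat_mul]
      norm_num
    rw [h4]
    push_cast
    exact pow_le_pow_left₀ (by norm_num) h3 20
  refine h0.trans ?_
  have p1 := G2_const (k := k) hn
  have p2 := G2_linf hn hk
  have p3 := G2_Z hn hk
  have p4 := G2_x34 hn hk
  have p5 := G2_nodes hn hinj hbd hk (Finset.range (20 * n - 20)) (Finset.Subset.refl _) i
  have p6 := G2_nodes hn hinj hbd hk (Finset.Ico (10 * n - 10) (20 * n - 20)) (by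
      intro x hx
      rw [Finset.mem_Ico] at hx
      exact Finset.mem_range.2 hx.2) j
  have p7 := G2_V hn hk
  have hall := G2r_mul_exp (G2r_mul_exp (G2r_mul_exp (G2r_mul_exp p1 p2) p3)
    (G2r_mul_exp p4 (G2r_mul_exp p5 p6))) p7
  have he : TS (-(k : ℚ)) (PM n * EM n Q) = TS (-(k : ℚ)) (C (cM n)) * TS (-(k : ℚ)) (2 * X + C ((16 * n : ℕ) : ℚ)) *
      TS (-(k : ℚ)) (ZM n) * (TS (-(k : ℚ)) (xM n ^ 34) *
      (TS (-(k : ℚ)) ((lag (Finset.range (20 * n - 20)) (zq n) i).comp (xM n)) *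
        TS (-(k : ℚ)) ((lag (Finset.Ico (10 * n - 10) (20 * n - 20)) (zq n) j).comp (xM n)))) := by
    unfold PM EM
    rw [hQ, Polynomial.mul_comp, Polynomial.mul_comp, Polynomial.X_pow_comp]
    simp only [map_mul]
  rw [← he] at hall
  calc _ ≤ Real.exp (20 : ℝ) * Real.exp _ := mul_le_mul_of_nonneg_left hall (Real.exp_pos _).le
    _ ≤ _ := by
      rw [← Real.exp_add]
      apply Real.exp_le_exp.2
      have h7 := G2_phi7 (by omega : 1 ≤ n) ((8 * n : ℝ) - k)
      have e1 : 8 * (n : ℝ) + ((8 * n : ℝ) - k) = 16 * n - k := by ring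
      have e2 : 8 * (n : ℝ) - ((8 * n : ℝ) - k) = k := by ring
      have e3 : 5 * (n : ℝ) + ((8 * n : ℝ) - k) = 13 * n - k := by ring
      have e4 : 5 * (n : ℝ) - ((8 * n : ℝ) - k) = k - 3 * n := by ring
      have e5 : 4 * (n : ℝ) + ((8 * n : ℝ) - k) = 12 * n - k := by ring
      have e6 : 4 * (n : ℝ) - ((8 * n : ℝ) - k) = k - 4 * n := by ring
      rw [e1, e2, e3, e4, e5, e6] at h7
      have e7 : (((8 * n : ℤ) - k : ℤ) : ℝ) = (8 * n : ℝ) - k := by push_cast; ring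
      rw [e7, ← h7]
      have h8 := G2_ln1 hn
      have h9 := G2_ln1000 hn
      linarith

end G2

open G2

/-- entries of the pole part -/
theorem G2_entryY_of (h0 : St_G0_zq_inj) (hX : St_G0_nd_X) (hY : St_G0_nd_Y) : St_G2_entryY := by
  intro β
  have hinj : ∀ {n : ℕ}, 6 ≤ n → Set.InjOn (nd n) (Finset.range (20 * n - 20)) := by
    intro n hn i hi j hj hij
    apply h0 hn hi hj
    unfold zq
    rw [hij]
  have hbd : ∀ {n : ℕ}, 6 ≤ n → ∀ i < 20 * n - 20, |nd n i| ≤ 823 * n := by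
    intro n hn i hi
    rw [abs_le]
    rcases Nat.lt_or_ge i (5 * n - 1) with h | h
    · have e : nd n i = 20 * (8 * n + 1 + i) := by
        unfold nd
        rw [if_pos h]
      rw [e]
      constructor <;> omega
    · rcases Nat.lt_or_ge i (10 * n - 10) with h2 | h2
      · have := hX hn h h2
        constructor <;> omega
      · have := hY hn h2 hi
        constructor <;> omega
  set S : ℝ := ∑ r ∈ Finset.Icc 1 8, |(β r : ℝ)| with hS
  have hS0 : 0 ≤ S := Finset.sum_nonneg fun _ _ => abs_nonneg _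
  have hlS : 0 ≤ Real.log (1 + S) := Real.log_nonneg (by linarith)
  refine ⟨1705 + Real.log (1 + S), by linarith, ?_⟩
  intro n hn MY hM i _ j _ _
  rw [BL_apply]
  set Q : ℚ[X] := lag (Finset.range (20 * n - 20)) (zq n) i *
      lag (Finset.Ico (10 * n - 10) (20 * n - 20)) (zq n) j with hQ
  have hln := G2_ln1 hn
  have hln8 := G2_ln1000 hn
  have hrho : ∀ r ∈ Finset.Icc 1 8, |((rho n (PM n * EM n Q) r : ℚ) : ℝ)| ≤
      Real.exp (MY + 1705 * Real.log n) := by
    intro r hr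
    unfold rho
    rw [Rat.cast_sum]
    refine (Finset.abs_sum_le_sum_abs _ _).trans ?_
    have h2 : ∀ k ∈ sM n, |((pa (sM n) mM (PM n * EM n Q) k r : ℚ) : ℝ)| ≤
        Real.exp (MY + 1700 * Real.log n) := by
      intro k hk
      refine (G2_one hn (hinj hn) (hbd hn) hk hr i j).trans (Real.exp_le_exp.2 ?_)
      obtain ⟨hk1, hk2⟩ := Finset.mem_Icc.1 hk
      have h3 := hM ((8 * n : ℤ) - k) (by
        rw [abs_le]
        constructor <;> omega)
      linarith
    refine (Finset.sum_le_sum h2).trans ?_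
    rw [Finset.sum_const, nsmul_eq_mul]
    have h3 : ((sM n).card : ℝ) ≤ Real.exp (5 * Real.log n) := by
      have h5 : (0 : ℝ) < ((1000 * n : ℕ) : ℝ) := by exact_mod_cast (by omega : 0 < 1000 * n)
      have h6 : ((1000 * n : ℕ) : ℝ) ≤ Real.exp (5 * Real.log n) := by
        rw [← Real.exp_log h5]
        exact Real.exp_le_exp.2 hln8
      refine le_trans ?_ h6
      have h7 : (sM n).card ≤ 1000 * n := by
        rw [Nat.card_Icc]; omega
      exact_mod_cast h7
    calc ((sM n).card : ℝ) * Real.exp (MY + 1700 * Real.log n) ≤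
          Real.exp (5 * Real.log n) * Real.exp (MY + 1700 * Real.log n) :=
          mul_le_mul_of_nonneg_right h3 (Real.exp_pos _).le
      _ = _ := by rw [← Real.exp_add]; congr 1; ring
  unfold xb
  rw [Rat.cast_sum]
  calc |∑ r ∈ Finset.Icc 1 8, ((rho n (PM n * EM n Q) r * β r : ℚ) : ℝ)|
      ≤ ∑ r ∈ Finset.Icc 1 8, |((rho n (PM n * EM n Q) r * β r : ℚ) : ℝ)| := Finset.abs_sum_le_sum_abs _ _
    _ ≤ ∑ r ∈ Finset.Icc 1 8, Real.exp (MY + 1705 * Real.log n) * |(β r : ℝ)| := by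
        apply Finset.sum_le_sum
        intro r hr
        rw [Rat.cast_mul, abs_mul]
        exact mul_le_mul_of_nonneg_right (hrho r hr) (abs_nonneg _)
    _ = Real.exp (MY + 1705 * Real.log n) * S := by rw [← Finset.mul_sum]
    _ ≤ Real.exp (MY + 1705 * Real.log n) * (1 + S) :=
        mul_le_mul_of_nonneg_left (by linarith) (Real.exp_pos _).le
    _ = Real.exp (MY + 1705 * Real.log n) * Real.exp (Real.log (1 + S)) := by
        rw [Real.exp_log (by linarith)]
    _ ≤ _ := by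
        rw [← Real.exp_add]
        apply Real.exp_le_exp.2
        have h5 : Real.log (1 + S) * 1 ≤ Real.log (1 + S) * Real.log n := mul_le_mul_of_nonneg_left hln hlS
        linarith

end

end Pool.Agent.Dim7
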