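import Pool.Agent.Dim7.Iface
import Pool.Agent.H337R2.LZ.G4

/-!
# G4: the weight
-/

open Polynomial Pool.Agent.H337R2

namespace Pool.Agent.Dim7.G4

noncomputable section

lemma logb {m n v : ℕ} (hn : 6 ≤ n) (hv : 8 * n < v) (hm : m ≤ v + 8 * n) :
    |Real.log (m.factorial : ℝ) - Psi m| ≤ 6 * Real.log (n + v) := by
  refine (Pool.Agent.LZ.G4_fac m).trans ?_
  have h1 : m + 2 ≤ (n + v) ^ 2 := by
    nlinarith
  have h2 : (m : ℝ) + 2 ≤ ((n : ℝ) + v) ^ 2 := by exact_mod_cast h1
  have h3 := Real.log_le_log (by positivity) h2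
  rw [Real.log_pow] at h3
  push_cast at h3
  linarith

end

end Pool.Agent.Dim7.G4

namespace Pool.Agent.Dim7

noncomputable section

/-- the weight -/
theorem G4_weight : St_G4_weight := by
  refine ⟨500, by norm_num, fun n hn v hv => ?_⟩
  have e1 := G4.logb hn hv (show 10 * n ≤ v + 8 * n by omega)
  have e2 := G4.logb hn hv (show 3 * n ≤ v + 8 * n by omega)
  have e2' := G4.logb hn hv (show n ≤ v + 8 * n by omega)
  have e3 := G4.logb hn hv (show v + 8 * n ≤ v + 8 * n by omega)
  have e4 := G4.logb hn hv (show v + 5 * n ≤ v + 8 * n by omega)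
  have e4' := G4.logb hn hv (show v + 4 * n ≤ v + 8 * n by omega)
  have e5' := G4.logb hn hv (show v - 4 * n ≤ v + 8 * n by omega)
  have e5 := G4.logb hn hv (show v - 5 * n ≤ v + 8 * n by omega)
  have e6 := G4.logb hn hv (show v - 8 * n ≤ v + 8 * n by omega)
  have hn0 : (0 : ℝ) < n := by
    have : 0 < n := by omega
    exact_mod_cast this
  have hv0 : (0 : ℝ) < v := by
    have : 0 < v := by omega
    exact_mod_cast this
  have hvn : (8 : ℝ) * n + 1 ≤ v := by
    have : 8 * n + 1 ≤ v := by omega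
    exact_mod_cast this
  have c0 : ((v - 4 * n : ℕ) : ℝ) = v - 4 * n := by
    rw [Nat.cast_sub (by omega)]; push_cast; ring
  have c1 : ((v - 5 * n : ℕ) : ℝ) = v - 5 * n := by
    rw [Nat.cast_sub (by omega)]; push_cast; ring
  have c2 : ((v - 8 * n : ℕ) : ℝ) = v - 8 * n := by
    rw [Nat.cast_sub (by omega)]; push_cast; ring
  have f0 : Real.log (((v - 4 * n).factorial : ℕ) : ℝ) =
      Real.log ((v : ℝ) - 4 * n) + Real.log (((v - 4 * n - 1).factorial : ℕ) : ℝ) := by
    have : (v - 4 * n).factorial = (v - 4 * n) * (v - 4 * n - 1).factorial :=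
      (Nat.mul_factorial_pred (by omega)).symm
    rw [this, Nat.cast_mul, c0, Real.log_mul (by linarith) (by positivity)]
  have f1 : Real.log (((v - 5 * n).factorial : ℕ) : ℝ) =
      Real.log ((v : ℝ) - 5 * n) + Real.log (((v - 5 * n - 1).factorial : ℕ) : ℝ) := by
    have : (v - 5 * n).factorial = (v - 5 * n) * (v - 5 * n - 1).factorial :=
      (Nat.mul_factorial_pred (by omega)).symm
    rw [this, Nat.cast_mul, c1, Real.log_mul (by linarith) (by positivity)]
  have f2 : Real.log (((v - 8 * n).factorial : ℕ) : ℝ) =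
      Real.log ((v : ℝ) - 8 * n) + Real.log (((v - 8 * n - 1).factorial : ℕ) : ℝ) := by
    have : (v - 8 * n).factorial = (v - 8 * n) * (v - 8 * n - 1).factorial :=
      (Nat.mul_factorial_pred (by omega)).symm
    rw [this, Nat.cast_mul, c2, Real.log_mul (by linarith) (by positivity)]
  have hW : Real.log (wv n v) =
      (8 * Real.log ((10 * n).factorial : ℝ) -
        (2 * Real.log ((3 * n).factorial : ℝ) + 4 * Real.log (n.factorial : ℝ))) +
      (Real.log 2 + Real.log v) +
      (Real.log ((v + 8 * n).factorial : ℝ) - Real.log ((v + 5 * n).factorial : ℝ)) +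
      (Real.log ((v - 5 * n - 1).factorial : ℝ) - Real.log ((v - 8 * n - 1).factorial : ℝ)) +
      2 * ((Real.log ((v + 5 * n).factorial : ℝ) - Real.log ((v + 4 * n).factorial : ℝ)) +
        (Real.log ((v - 4 * n - 1).factorial : ℝ) - Real.log ((v - 5 * n - 1).factorial : ℝ))) +
      8 * (Real.log ((v - 5 * n - 1).factorial : ℝ) - Real.log ((v + 5 * n).factorial : ℝ)) +
      68 * Real.log v := by
    unfold wv
    rw [Real.log_mul (by positivity) (by positivity), Real.log_mul (by positivity) (by positivity),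
      Real.log_mul (by positivity) (by positivity), Real.log_mul (by positivity) (by positivity),
      Real.log_mul (by positivity) (by positivity), Real.log_mul (by positivity) (by positivity),
      Real.log_div (by positivity) (by positivity), Real.log_mul (by positivity) (by positivity),
      Real.log_pow, Real.log_pow, Real.log_pow,
      Real.log_mul (by norm_num) (by positivity),
      Real.log_div (by positivity) (by positivity), Real.log_div (by positivity) (by positivity),
      Real.log_pow, Real.log_mul (by positivity) (by positivity),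
      Real.log_div (by positivity) (by positivity), Real.log_div (by positivity) (by positivity),
      Real.log_pow, Real.log_div (by positivity) (by positivity), Real.log_pow]
    norm_num
  have hc : (0 : ℝ) < n / 20 := by positivity
  have hlc : Real.log ((n : ℝ) / 20) = Real.log n - Real.log 20 :=
    Real.log_div hn0.ne' (by norm_num)
  have hP : ∀ y : ℝ, 0 ≤ y → (n : ℝ) / 20 * Psi (20 * y / n) =
      Psi y - y * (Real.log n - Real.log 20) := by
    intro y hy
    have h1 := Pool.Agent.LZ.G4_scale hc (x := 20 * y / n) (by positivity)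
    have h2 : (n : ℝ) / 20 * (20 * y / n) = y := by
      field_simp
    rw [h2, hlc] at h1
    linarith
  have hQ : ∀ a : ℝ, 0 ≤ a → Psi (a * n) = n * Psi a + n * a * Real.log n := by
    intro a ha
    have h1 := Pool.Agent.LZ.G4_scale hn0 ha
    rwa [mul_comm (n : ℝ) a, mul_comm a (n : ℝ)] at h1 ⊢
  have l20 : Real.log 20 = 2 * Real.log 2 + Real.log 5 := by
    rw [show (20 : ℝ) = 2 ^ 2 * 5 by norm_num, Real.log_mul (by norm_num) (by norm_num),
      Real.log_pow]; norm_num
  have l10 : Real.log 10 = Real.log 2 + Real.log 5 := by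
    rw [show (10 : ℝ) = 2 * 5 by norm_num, Real.log_mul (by norm_num) (by norm_num)]
  have hφ : (n : ℝ) * phi (20 * (v : ℝ) / n) =
      (8 * Psi ((10 * n : ℕ) : ℝ) - 2 * Psi ((3 * n : ℕ) : ℝ) - 4 * Psi ((n : ℕ) : ℝ)) +
      Psi ((v + 8 * n : ℕ) : ℝ) - 7 * Psi ((v + 5 * n : ℕ) : ℝ) - 2 * Psi ((v + 4 * n : ℕ) : ℝ) +
        2 * Psi ((v - 4 * n : ℕ) : ℝ) + 7 * Psi ((v - 5 * n : ℕ) : ℝ) -
        Psi ((v - 8 * n : ℕ) : ℝ) := by
    rw [c0, c1, c2]
    push_cast
    have p1 := hP (v + 8 * n) (by positivity)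
    have p2 := hP (v + 5 * n) (by positivity)
    have p3 := hP (v + 4 * n) (by positivity)
    have p4 := hP (v - 4 * n) (by linarith)
    have p5 := hP (v - 5 * n) (by linarith)
    have p6 := hP (v - 8 * n) (by linarith)
    have g1 : 20 * ((v : ℝ) + 8 * n) / n = 20 * (v : ℝ) / n + 160 := by field_simp; ring
    have g2 : 20 * ((v : ℝ) + 5 * n) / n = 20 * (v : ℝ) / n + 100 := by field_simp; ring
    have g3 : 20 * ((v : ℝ) + 4 * n) / n = 20 * (v : ℝ) / n + 80 := by field_simp; ring
    have g4 : 20 * ((v : ℝ) - 4 * n) / n = 20 * (v : ℝ) / n - 80 := by field_simp; ring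
    have g5 : 20 * ((v : ℝ) - 5 * n) / n = 20 * (v : ℝ) / n - 100 := by field_simp; ring
    have g6 : 20 * ((v : ℝ) - 8 * n) / n = 20 * (v : ℝ) / n - 160 := by field_simp; ring
    rw [g1, l20] at p1
    rw [g2, l20] at p2
    rw [g3, l20] at p3
    rw [g4, l20] at p4
    rw [g5, l20] at p5
    rw [g6, l20] at p6
    have hQ1 := hQ 1 (by norm_num)
    rw [one_mul] at hQ1
    rw [hQ 10 (by norm_num), hQ 3 (by norm_num), hQ1]
    have q10 : Psi 10 = 10 * (Real.log 2 + Real.log 5) - 10 := by rw [← l10]; rfl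
    have q3 : Psi 3 = 3 * Real.log 3 - 3 := rfl
    have q1 : Psi 1 = -1 := by
      have : Psi 1 = 1 * Real.log 1 - 1 := rfl
      rw [this, Real.log_one]; norm_num
    rw [q10, q3, q1]
    unfold phi
    linear_combination p1 - 7 * p2 - 2 * p3 + 2 * p4 + 7 * p5 - p6
  have t0 : Real.log 2 ≤ Real.log ((n : ℝ) + v) := Real.log_le_log (by norm_num) (by
    have : (6 : ℝ) ≤ n := by exact_mod_cast hn
    linarith)
  have t00 : 0 ≤ Real.log 2 := Real.log_nonneg (by norm_num)
  have t1 : Real.log v ≤ Real.log ((n : ℝ) + v) := Real.log_le_log hv0 (by linarith)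
  have t10 : 0 ≤ Real.log (v : ℝ) := Real.log_nonneg (by linarith)
  have t2 : Real.log ((v : ℝ) - 4 * n) ≤ Real.log ((n : ℝ) + v) :=
    Real.log_le_log (by linarith) (by linarith)
  have t20 : 0 ≤ Real.log ((v : ℝ) - 4 * n) := Real.log_nonneg (by linarith)
  have t3 : Real.log ((v : ℝ) - 5 * n) ≤ Real.log ((n : ℝ) + v) :=
    Real.log_le_log (by linarith) (by linarith)
  have t30 : 0 ≤ Real.log ((v : ℝ) - 5 * n) := Real.log_nonneg (by linarith)
  have t4 : Real.log ((v : ℝ) - 8 * n) ≤ Real.log ((n : ℝ) + v) :=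
    Real.log_le_log (by linarith) (by linarith)
  have t40 : 0 ≤ Real.log ((v : ℝ) - 8 * n) := Real.log_nonneg (by linarith)
  rw [hW, hφ]
  rw [abs_le] at e1 e2 e2' e3 e4 e4' e5' e5 e6 ⊢
  constructor <;> linarith [e1.1, e1.2, e2.1, e2.2, e2'.1, e2'.2, e3.1, e3.2, e4.1, e4.2, e4'.1,
    e4'.2, e5'.1, e5'.2, e5.1, e5.2, e6.1, e6.2]

end

end Pool.Agent.Dim7
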