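import Pool.Agent.Dim7.Iface
import Pool.Agent.H337R2.LZ.G5

/-!
# G5: the saturated part of the energy
-/

open Polynomial Pool.Agent.H337R2

namespace Pool.Agent.Dim7

noncomputable section

namespace G5

open Finset Pool.Agent.LZ.G5

lemma lf_nonneg (m : ℕ) : 0 ≤ lf m := by
  unfold lf
  exact Real.log_nonneg (by exact_mod_cast Nat.succ_le_of_lt m.factorial_pos)

lemma SF_succ (m : ℕ) : SF (m + 1) = SF m + lf m := by
  unfold SF
  rw [Finset.sum_range_succ]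

lemma sum_sh (a m : ℕ) : ∑ t ∈ range m, lf (a + t) = SF (a + m) - SF a := by
  have h := Finset.sum_range_add lf a m
  unfold SF
  rw [h, add_sub_cancel_left]

lemma lf_up (a m : ℕ) : ∑ t ∈ range m, Real.log ((a : ℝ) + 1 + (t : ℝ)) = lf (a + m) - lf a := by
  induction m with
  | zero => simp
  | succ m ih =>
    rw [Finset.sum_range_succ, ih, ← Nat.add_assoc, lf_succ]
    push_cast
    rw [show (a : ℝ) + 1 + m = a + m + 1 by ring]
    ring

lemma nd_sat {n i : ℕ} (hi : i < 5 * n - 1) : nd n i = 20 * (8 * n + 1 + i) := by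
  unfold nd
  rw [if_pos hi]

lemma Lp_sat {n i : ℕ} (hi : i < 5 * n - 1) :
    Lp n (range (5 * n - 1)) (20 * (8 * n + 1 + i)) =
      lf i + lf (5 * n - 1 - 1 - i) + (lf (21 * n + i) - lf (16 * n + 1 + i)) := by
  unfold Lp
  have h := lf_row i (5 * n - 1 - 1 - i)
  rw [show i + 1 + (5 * n - 1 - 1 - i) = 5 * n - 1 by omega] at h
  have h2 := lf_up (16 * n + 1 + i) (5 * n - 1)
  rw [show 16 * n + 1 + i + (5 * n - 1) = 21 * n + i by omega] at h2
  rw [← h, ← h2, ← Finset.sum_add_distrib]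
  apply Finset.sum_congr rfl
  intro j hj
  rw [nd_sat (Finset.mem_range.1 hj)]
  congr 1
  · congr 1
    push_cast
    ring
  · congr 1
    push_cast
    ring

lemma log_wv (n i : ℕ) : Real.log (wv n (8 * n + 1 + i)) =
    (8 * lf (10 * n) - 2 * lf (3 * n) - 4 * lf n) + (Real.log (2 * ((8 * n + 1 + i : ℕ) : ℝ)) +
      68 * Real.log ((8 * n + 1 + i : ℕ) : ℝ)) + (lf (16 * n + 1 + i) - 7 * lf (13 * n + 1 + i) -
      2 * lf (12 * n + 1 + i) + 7 * lf (3 * n + i) + 2 * lf (4 * n + i) - lf i) := by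
  unfold wv
  rw [show 8 * n + 1 + i + 8 * n = 16 * n + 1 + i by omega,
    show 8 * n + 1 + i + 5 * n = 13 * n + 1 + i by omega,
    show 8 * n + 1 + i + 4 * n = 12 * n + 1 + i by omega,
    show 8 * n + 1 + i - 5 * n - 1 = 3 * n + i by omega,
    show 8 * n + 1 + i - 4 * n - 1 = 4 * n + i by omega,
    show 8 * n + 1 + i - 8 * n - 1 = i by omega]
  unfold lf
  have p : ∀ m : ℕ, ((m.factorial : ℕ) : ℝ) ≠ 0 := fun m => by positivity
  have pv : ((8 * n + 1 + i : ℕ) : ℝ) ≠ 0 := by positivity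
  have p2v : 2 * ((8 * n + 1 + i : ℕ) : ℝ) ≠ 0 := by positivity
  have q0 : ((3 * n).factorial : ℝ) ^ 2 * (n.factorial : ℝ) ^ 4 ≠ 0 :=
    mul_ne_zero (pow_ne_zero _ (p _)) (pow_ne_zero _ (p _))
  have q1 : ((10 * n).factorial : ℝ) ^ 8 / (((3 * n).factorial : ℝ) ^ 2 * (n.factorial : ℝ) ^ 4) ≠ 0 :=
    div_ne_zero (pow_ne_zero _ (p _)) q0
  have q3 : ((16 * n + 1 + i).factorial : ℝ) / ((13 * n + 1 + i).factorial : ℝ) ≠ 0 :=
    div_ne_zero (p _) (p _)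
  have q4 : ((3 * n + i).factorial : ℝ) / (i.factorial : ℝ) ≠ 0 := div_ne_zero (p _) (p _)
  have q7 : ((13 * n + 1 + i).factorial : ℝ) / ((12 * n + 1 + i).factorial : ℝ) ≠ 0 :=
    div_ne_zero (p _) (p _)
  have q8 : ((4 * n + i).factorial : ℝ) / ((3 * n + i).factorial : ℝ) ≠ 0 :=
    div_ne_zero (p _) (p _)
  have q9 : (((13 * n + 1 + i).factorial : ℝ) / ((12 * n + 1 + i).factorial : ℝ) *
      (((4 * n + i).factorial : ℝ) / ((3 * n + i).factorial : ℝ))) ^ 2 ≠ 0 :=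
    pow_ne_zero _ (mul_ne_zero q7 q8)
  have q5 : (((3 * n + i).factorial : ℝ) / ((13 * n + 1 + i).factorial : ℝ)) ^ 8 ≠ 0 :=
    pow_ne_zero _ (div_ne_zero (p _) (p _))
  have q6 : (((8 * n + 1 + i : ℕ) : ℝ)) ^ 68 ≠ 0 := pow_ne_zero _ pv
  rw [Real.log_mul (mul_ne_zero (mul_ne_zero (mul_ne_zero (mul_ne_zero (mul_ne_zero q1 p2v) q3) q4) q9) q5) q6,
    Real.log_mul (mul_ne_zero (mul_ne_zero (mul_ne_zero (mul_ne_zero q1 p2v) q3) q4) q9) q5,
    Real.log_mul (mul_ne_zero (mul_ne_zero (mul_ne_zero q1 p2v) q3) q4) q9,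
    Real.log_mul (mul_ne_zero (mul_ne_zero q1 p2v) q3) q4,
    Real.log_mul (mul_ne_zero q1 p2v) q3, Real.log_mul q1 p2v,
    Real.log_div (pow_ne_zero _ (p _)) q0, Real.log_mul (pow_ne_zero _ (p _)) (pow_ne_zero _ (p _)),
    Real.log_div (p _) (p _), Real.log_div (p _) (p _), Real.log_pow, Real.log_pow, Real.log_pow,
    Real.log_pow, Real.log_pow, Real.log_pow, Real.log_mul q7 q8, Real.log_div (p _) (p _),
    Real.log_div (p _) (p _), Real.log_div (p _) (p _)]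
  push_cast
  ring

lemma log_bd' {n : ℕ} (hn : 6 ≤ n) {a : ℕ} (ha : a ≤ 30) :
    Real.log (2 * ((a * n : ℕ) : ℝ) + 2) ≤ 7 * Real.log n := by
  have hn' : (6 : ℝ) ≤ n := by exact_mod_cast hn
  have ha' : (a : ℝ) ≤ 30 := by exact_mod_cast ha
  have h1 : 2 * ((a * n : ℕ) : ℝ) + 2 ≤ (n : ℝ) ^ 7 := by
    push_cast
    have h2 : (a : ℝ) * n ≤ 30 * n := mul_le_mul_of_nonneg_right ha' (by positivity)
    have h3 : (6 : ℝ) ^ 6 ≤ (n : ℝ) ^ 6 := by gcongr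
    have h4 : (n : ℝ) ^ 7 = n ^ 6 * n := by ring
    rw [h4]
    nlinarith
  rw [show (7 : ℝ) * Real.log n = Real.log ((n : ℝ) ^ 7) by rw [Real.log_pow]; norm_num]
  exact Real.log_le_log (by positivity) h1

lemma lf_an' {n : ℕ} (hn : 6 ≤ n) {a : ℕ} (ha : a ≤ 30) :
    |lf (a * n) - (n * Psi a + a * n * Real.log n)| ≤ 34 * Real.log n := by
  have h := lf_stir (a * n)
  have hn0 : (0 : ℝ) < n := by positivity
  have e : Psi ((a * n : ℕ) : ℝ) = n * Psi a + a * n * Real.log n := by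
    rw [Nat.cast_mul, Psi_sc hn0]
  rw [e] at h
  have h1 := log_bd' hn ha
  have h2 := one_bd (show 2 ≤ n by omega)
  linarith

lemma SF_an' {n : ℕ} (hn : 6 ≤ n) {a : ℕ} (ha : a ≤ 30) :
    |SF (a * n) - (n ^ 2 * Pool.Agent.LZ.GG a + (a : ℝ) ^ 2 / 2 * n ^ 2 * Real.log n)| ≤
      1350 * (n * Real.log n) := by
  have h := SF_bound (a * n)
  have hn0 : (0 : ℝ) < n := by positivity
  have e : Pool.Agent.LZ.GG ((a * n : ℕ) : ℝ) =
      n ^ 2 * Pool.Agent.LZ.GG a + (a : ℝ) ^ 2 / 2 * n ^ 2 * Real.log n := by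
    rw [Nat.cast_mul, GG_sc hn0]
  rw [e] at h
  refine h.trans ?_
  have h1 := log_bd' hn ha
  have h2 := one_bd (show 2 ≤ n by omega)
  have ha' : (a : ℝ) ≤ 30 := by exact_mod_cast ha
  have h3 : ((a * n : ℕ) : ℝ) ≤ 30 * n := by
    push_cast
    exact mul_le_mul_of_nonneg_right ha' hn0.le
  have h4 : 5 * Real.log (2 * ((a * n : ℕ) : ℝ) + 2) + 5 ≤ 45 * Real.log n := by linarith
  have h5 : 0 ≤ 45 * Real.log n := by linarith
  calc ((a * n : ℕ) : ℝ) * (5 * Real.log (2 * ((a * n : ℕ) : ℝ) + 2) + 5)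
      ≤ ((a * n : ℕ) : ℝ) * (45 * Real.log n) := mul_le_mul_of_nonneg_left h4 (by positivity)
    _ ≤ 30 * n * (45 * Real.log n) := mul_le_mul_of_nonneg_right h3 h5
    _ = 1350 * (n * Real.log n) := by ring

/-- the sum in terms of superfactorials -/
lemma sum_eq (n : ℕ) (hn : 6 ≤ n) : ∑ i ∈ Finset.range (5 * n - 1), (Real.log (wv n (8 * n + 1 + i)) +
        Lp n (Finset.range (5 * n - 1)) (20 * (8 * n + 1 + i))) =
      ((5 * n - 1 : ℕ) : ℝ) * (8 * lf (10 * n) - 2 * lf (3 * n) - 4 * lf n) +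
      ∑ i ∈ Finset.range (5 * n - 1), (Real.log (2 * ((8 * n + 1 + i : ℕ) : ℝ)) +
        68 * Real.log ((8 * n + 1 + i : ℕ) : ℝ)) +
      (7 * (SF (8 * n - 1) - SF (3 * n)) + 2 * (SF (9 * n - 1) - SF (4 * n)) -
        7 * (SF (18 * n) - SF (13 * n + 1)) - 2 * (SF (17 * n) - SF (12 * n + 1)) +
        SF (5 * n - 1) + (SF (26 * n - 1) - SF (21 * n))) := by
  have h1 : ∀ i ∈ Finset.range (5 * n - 1), (Real.log (wv n (8 * n + 1 + i)) +
      Lp n (Finset.range (5 * n - 1)) (20 * (8 * n + 1 + i))) =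
      (8 * lf (10 * n) - 2 * lf (3 * n) - 4 * lf n) + (Real.log (2 * ((8 * n + 1 + i : ℕ) : ℝ)) +
      68 * Real.log ((8 * n + 1 + i : ℕ) : ℝ)) + (7 * lf (3 * n + i) + 2 * lf (4 * n + i) -
      7 * lf (13 * n + 1 + i) - 2 * lf (12 * n + 1 + i) +
      lf (5 * n - 1 - 1 - i) + lf (21 * n + i)) := by
    intro i hi
    rw [log_wv, Lp_sat (Finset.mem_range.1 hi)]
    ring
  have h3 : ∑ i ∈ Finset.range (5 * n - 1), (7 * lf (3 * n + i) + 2 * lf (4 * n + i) -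
      7 * lf (13 * n + 1 + i) - 2 * lf (12 * n + 1 + i) +
      lf (5 * n - 1 - 1 - i) + lf (21 * n + i)) =
      (7 * (SF (8 * n - 1) - SF (3 * n)) + 2 * (SF (9 * n - 1) - SF (4 * n)) -
        7 * (SF (18 * n) - SF (13 * n + 1)) - 2 * (SF (17 * n) - SF (12 * n + 1)) +
        SF (5 * n - 1) + (SF (26 * n - 1) - SF (21 * n))) := by
    have e1 : 3 * n + (5 * n - 1) = 8 * n - 1 := by omega
    have e2 : 4 * n + (5 * n - 1) = 9 * n - 1 := by omega
    have e3 : 13 * n + 1 + (5 * n - 1) = 18 * n := by omega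
    have e4 : 12 * n + 1 + (5 * n - 1) = 17 * n := by omega
    have e5 : 21 * n + (5 * n - 1) = 26 * n - 1 := by omega
    rw [Finset.sum_add_distrib, Finset.sum_add_distrib, Finset.sum_sub_distrib, Finset.sum_sub_distrib,
      Finset.sum_add_distrib, ← Finset.mul_sum, ← Finset.mul_sum, ← Finset.mul_sum, ← Finset.mul_sum,
      sum_sh, sum_sh, sum_sh, sum_sh, sum_sh, Finset.sum_range_reflect lf, e1, e2, e3, e4, e5]
    rfl
  rw [Finset.sum_congr rfl h1, Finset.sum_add_distrib, h3, Finset.sum_add_distrib,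
    Finset.sum_const, Finset.card_range, nsmul_eq_mul]

lemma GG_neg (x : ℝ) : Pool.Agent.LZ.GG (-x) = Pool.Agent.LZ.GG x := by
  unfold Pool.Agent.LZ.GG
  rw [Real.log_neg_eq_log]
  ring

lemma GG_zero : Pool.Agent.LZ.GG 0 = 0 := by unfold Pool.Agent.LZ.GG; simp

lemma GG_20 (x : ℝ) :
    Pool.Agent.LZ.GG (x * 20) = 400 * Pool.Agent.LZ.GG x + 200 * x ^ 2 * Real.log 20 := by
  rw [GG_sc (n := 20) (by norm_num)]
  ring

/-- the energy of the saturated bricks: uniform density on `[8, 13]` -/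
lemma en_sum : ∑ g ∈ Finset.range 5, ∑ h ∈ Finset.range 5, en g h =
    2 * Pool.Agent.LZ.GG 5 + Pool.Agent.LZ.GG 26 - 2 * Pool.Agent.LZ.GG 21 + Pool.Agent.LZ.GG 16 := by
  have i1 : Pool.Agent.LZ.GG 20 = 400 * Pool.Agent.LZ.GG 1 + 200 * 1 ^ 2 * Real.log 20 := by
    rw [← GG_20]; norm_num
  have i2 : Pool.Agent.LZ.GG 40 = 400 * Pool.Agent.LZ.GG 2 + 200 * 2 ^ 2 * Real.log 20 := by
    rw [← GG_20]; norm_num
  have i3 : Pool.Agent.LZ.GG 60 = 400 * Pool.Agent.LZ.GG 3 + 200 * 3 ^ 2 * Real.log 20 := by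
    rw [← GG_20]; norm_num
  have i4 : Pool.Agent.LZ.GG 80 = 400 * Pool.Agent.LZ.GG 4 + 200 * 4 ^ 2 * Real.log 20 := by
    rw [← GG_20]; norm_num
  have i5 : Pool.Agent.LZ.GG 100 = 400 * Pool.Agent.LZ.GG 5 + 200 * 5 ^ 2 * Real.log 20 := by
    rw [← GG_20]; norm_num
  have i16 : Pool.Agent.LZ.GG 320 = 400 * Pool.Agent.LZ.GG 16 + 200 * 16 ^ 2 * Real.log 20 := by
    rw [← GG_20]; norm_num
  have i21 : Pool.Agent.LZ.GG 420 = 400 * Pool.Agent.LZ.GG 21 + 200 * 21 ^ 2 * Real.log 20 := by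
    rw [← GG_20]; norm_num
  have i26 : Pool.Agent.LZ.GG 520 = 400 * Pool.Agent.LZ.GG 26 + 200 * 26 ^ 2 * Real.log 20 := by
    rw [← GG_20]; norm_num
  simp only [Finset.sum_range_succ, Finset.sum_range_zero, zero_add]
  unfold en GG
  simp only [bb, cc]
  norm_num
  simp only [GG_neg, GG_zero]
  rw [i1, i2, i3, i4, i5, i16, i21, i26]
  ring

lemma eS_eq : eS = (Pool.Agent.LZ.GG 26 - Pool.Agent.LZ.GG 21) + Pool.Agent.LZ.GG 5 -
    7 * (Pool.Agent.LZ.GG 18 - Pool.Agent.LZ.GG 13) - 2 * (Pool.Agent.LZ.GG 17 - Pool.Agent.LZ.GG 12) +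
    2 * (Pool.Agent.LZ.GG 9 - Pool.Agent.LZ.GG 4) + 7 * (Pool.Agent.LZ.GG 8 - Pool.Agent.LZ.GG 3) +
    5 * (8 * Psi 10 - 2 * Psi 3 - 4 * Psi 1) := by
  have i3 : Pool.Agent.LZ.GG 60 = 400 * Pool.Agent.LZ.GG 3 + 200 * 3 ^ 2 * Real.log 20 := by
    rw [← GG_20]; norm_num
  have i4 : Pool.Agent.LZ.GG 80 = 400 * Pool.Agent.LZ.GG 4 + 200 * 4 ^ 2 * Real.log 20 := by
    rw [← GG_20]; norm_num
  have i5 : Pool.Agent.LZ.GG 100 = 400 * Pool.Agent.LZ.GG 5 + 200 * 5 ^ 2 * Real.log 20 := by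
    rw [← GG_20]; norm_num
  have i8 : Pool.Agent.LZ.GG 160 = 400 * Pool.Agent.LZ.GG 8 + 200 * 8 ^ 2 * Real.log 20 := by
    rw [← GG_20]; norm_num
  have i9 : Pool.Agent.LZ.GG 180 = 400 * Pool.Agent.LZ.GG 9 + 200 * 9 ^ 2 * Real.log 20 := by
    rw [← GG_20]; norm_num
  have i12 : Pool.Agent.LZ.GG 240 = 400 * Pool.Agent.LZ.GG 12 + 200 * 12 ^ 2 * Real.log 20 := by
    rw [← GG_20]; norm_num
  have i13 : Pool.Agent.LZ.GG 260 = 400 * Pool.Agent.LZ.GG 13 + 200 * 13 ^ 2 * Real.log 20 := by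
    rw [← GG_20]; norm_num
  have i16 : Pool.Agent.LZ.GG 320 = 400 * Pool.Agent.LZ.GG 16 + 200 * 16 ^ 2 * Real.log 20 := by
    rw [← GG_20]; norm_num
  have i17 : Pool.Agent.LZ.GG 340 = 400 * Pool.Agent.LZ.GG 17 + 200 * 17 ^ 2 * Real.log 20 := by
    rw [← GG_20]; norm_num
  have i18 : Pool.Agent.LZ.GG 360 = 400 * Pool.Agent.LZ.GG 18 + 200 * 18 ^ 2 * Real.log 20 := by
    rw [← GG_20]; norm_num
  have i21 : Pool.Agent.LZ.GG 420 = 400 * Pool.Agent.LZ.GG 21 + 200 * 21 ^ 2 * Real.log 20 := by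
    rw [← GG_20]; norm_num
  have h4 : Real.log 4 = 2 * Real.log 2 := by
    rw [show (4 : ℝ) = 2 ^ 2 by norm_num, Real.log_pow]; norm_num
  have h20 : Real.log 20 = 2 * Real.log 2 + Real.log 5 := by
    rw [show (20 : ℝ) = 4 * 5 by norm_num, Real.log_mul (by norm_num) (by norm_num), h4]
  have h10 : Real.log 10 = Real.log 2 + Real.log 5 := by
    rw [show (10 : ℝ) = 2 * 5 by norm_num, Real.log_mul (by norm_num) (by norm_num)]
  unfold eS iphi GG
  rw [en_sum, i3, i4, i5, i8, i9, i12, i13, i16, i17, i18, i21]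
  unfold Psi
  rw [h10, h20, Real.log_one]
  ring

/-- the logarithms -/
lemma logs_le {n : ℕ} (hn : 6 ≤ n) : ∑ i ∈ Finset.range (5 * n - 1),
    (Real.log (2 * ((8 * n + 1 + i : ℕ) : ℝ)) + 68 * Real.log ((8 * n + 1 + i : ℕ) : ℝ)) ≤
      2415 * (n * Real.log n) := by
  have hL1 := one_bd (show 2 ≤ n by omega)
  have h1 : ∀ i ∈ Finset.range (5 * n - 1), (Real.log (2 * ((8 * n + 1 + i : ℕ) : ℝ)) +
      68 * Real.log ((8 * n + 1 + i : ℕ) : ℝ)) ≤ 483 * Real.log n := by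
    intro i hi
    have hi' := Finset.mem_range.1 hi
    have b1 := log_bd' hn (a := 13) (by norm_num)
    have hle : ((8 * n + 1 + i : ℕ) : ℝ) ≤ ((13 * n : ℕ) : ℝ) := by
      exact_mod_cast (by omega : 8 * n + 1 + i ≤ 13 * n)
    have hpos : (0 : ℝ) < ((8 * n + 1 + i : ℕ) : ℝ) := by positivity
    have c1 : Real.log (2 * ((8 * n + 1 + i : ℕ) : ℝ)) ≤ 7 * Real.log n :=
      (Real.log_le_log (by positivity) (by linarith only [hle])).trans b1
    have c2 : Real.log ((8 * n + 1 + i : ℕ) : ℝ) ≤ 7 * Real.log n :=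
      (Real.log_le_log (by positivity) (by linarith only [hle, hpos])).trans b1
    linarith only [c1, c2]
  refine (Finset.sum_le_sum h1).trans ?_
  rw [Finset.sum_const, Finset.card_range, nsmul_eq_mul]
  have h2 : ((5 * n - 1 : ℕ) : ℝ) ≤ 5 * n := by
    exact_mod_cast (by omega : 5 * n - 1 ≤ 5 * n)
  have h3 := mul_le_mul_of_nonneg_right h2 (show 0 ≤ 483 * Real.log n by linarith only [hL1])
  linarith only [h3]

lemma Psi_le {x : ℝ} (hx1 : 1 ≤ x) (hx : x ≤ 13) : Psi x ≤ 156 := by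
  unfold Psi
  have h1 : Real.log x ≤ x - 1 := Real.log_le_sub_one_of_pos (by linarith)
  have h2 : 0 ≤ Real.log x := Real.log_nonneg hx1
  have h3 : x * Real.log x ≤ 13 * (x - 1) := mul_le_mul hx h1 h2 (by norm_num)
  linarith only [h3, hx, hx1]

lemma lf_le {n : ℕ} (hn : 6 ≤ n) {a : ℕ} (h1 : 1 ≤ a) (ha : a ≤ 13) :
    lf (a * n) ≤ 400 * (n * Real.log n) := by
  have h := (abs_le.1 (lf_an' hn (a := a) (by omega))).2
  have hn6 : (6 : ℝ) ≤ n := by exact_mod_cast hn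
  have hL1 := one_bd (show 2 ≤ n by omega)
  have ha1 : (1 : ℝ) ≤ a := by exact_mod_cast h1
  have ha2 : (a : ℝ) ≤ 13 := by exact_mod_cast ha
  have hP := Psi_le ha1 ha2
  have hL : 0 ≤ Real.log n := by linarith only [hL1]
  have hnL : 0 ≤ (n : ℝ) * Real.log n := mul_nonneg (by linarith only [hn6]) hL
  have e1 : (n : ℝ) * Psi a ≤ n * 156 := mul_le_mul_of_nonneg_left hP (by linarith only [hn6])
  have e2 : (n : ℝ) * 1 ≤ n * (2 * Real.log n) := mul_le_mul_of_nonneg_left hL1 (by linarith only [hn6])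
  have e3 : (a : ℝ) * (n * Real.log n) ≤ 13 * (n * Real.log n) := mul_le_mul_of_nonneg_right ha2 hnL
  have e4 : 6 * Real.log n ≤ n * Real.log n := mul_le_mul_of_nonneg_right hn6 hL
  have e5 : (a : ℝ) * n * Real.log n = a * (n * Real.log n) := by ring
  rw [e5] at h
  linarith only [h, e1, e2, e3, e4, hnL, hL]

lemma fin_le {n : ℕ} (hn : 6 ≤ n) :
    ((5 * n - 1 : ℕ) : ℝ) * (8 * lf (10 * n) - 2 * lf (3 * n) - 4 * lf n) ≤
      5 * n * (8 * Psi 10 - 2 * Psi 3 - 4 * Psi 1) * n + 350 * (n ^ 2 * Real.log n) +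
        4780 * (n * Real.log n) := by
  have l10 := (abs_le.1 (lf_an' hn (a := 10) (by norm_num))).2
  have l3 := (abs_le.1 (lf_an' hn (a := 3) (by norm_num))).1
  have l1 := (abs_le.1 (lf_an' hn (a := 1) (by norm_num))).1
  have b3 := lf_le hn (a := 3) (by norm_num) (by norm_num)
  have b1 := lf_le hn (a := 1) (by norm_num) (by norm_num)
  rw [one_mul] at l1 b1
  push_cast at l10 l3 l1
  have h10n := lf_nonneg (10 * n)
  have hcast : ((5 * n - 1 : ℕ) : ℝ) = 5 * n - 1 := by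
    rw [Nat.cast_sub (by omega)]
    push_cast
    ring
  rw [hcast]
  have hlin : 8 * lf (10 * n) - 2 * lf (3 * n) - 4 * lf n ≤
      n * (8 * Psi 10 - 2 * Psi 3 - 4 * Psi 1) + 70 * (n * Real.log n) + 476 * Real.log n := by
    linarith only [l10, l3, l1]
  have hlin2 := mul_le_mul_of_nonneg_left hlin (show (0 : ℝ) ≤ 5 * n by positivity)
  have e : (5 * (n : ℝ) - 1) * (8 * lf (10 * n) - 2 * lf (3 * n) - 4 * lf n) =
    5 * n * (8 * lf (10 * n) - 2 * lf (3 * n) - 4 * lf n) - 8 * lf (10 * n) + 2 * lf (3 * n) + 4 * lf n := by ring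
  have e' : 5 * (n : ℝ) * (n * (8 * Psi 10 - 2 * Psi 3 - 4 * Psi 1) + 70 * (n * Real.log n) + 476 * Real.log n) =
    5 * n * (8 * Psi 10 - 2 * Psi 3 - 4 * Psi 1) * n + 350 * (n ^ 2 * Real.log n) +
      2380 * (n * Real.log n) := by ring
  rw [e]
  rw [e'] at hlin2
  linarith only [hlin2, h10n, b3, b1]

lemma SF_pred (m : ℕ) (hm : 1 ≤ m) : SF (m - 1) ≤ SF m := by
  have h := SF_succ (m - 1)
  rw [show m - 1 + 1 = m by omega] at h
  linarith only [lf_nonneg (m - 1), h]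

lemma SF_up {n : ℕ} (hn : 6 ≤ n) {a : ℕ} (ha : a ≤ 30) :
    SF (a * n) ≤ n ^ 2 * Pool.Agent.LZ.GG a + (a : ℝ) ^ 2 / 2 * (n ^ 2 * Real.log n) +
      1350 * (n * Real.log n) := by
  have h := (abs_le.1 (SF_an' hn ha)).2
  linarith only [h]

lemma SF_lo {n : ℕ} (hn : 6 ≤ n) {a : ℕ} (ha : a ≤ 30) :
    n ^ 2 * Pool.Agent.LZ.GG a + (a : ℝ) ^ 2 / 2 * (n ^ 2 * Real.log n) -
      1350 * (n * Real.log n) ≤ SF (a * n) := by
  have h := (abs_le.1 (SF_an' hn ha)).1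
  linarith only [h]

end G5

open G5 Pool.Agent.LZ.G5 in
/-- saturated part -/
theorem G5_sat : St_G5_sat := by
  refine ⟨1000000, by norm_num, fun n hn => ?_⟩
  rw [sum_eq n hn, eS_eq]
  have m5 := SF_pred (5 * n) (by omega)
  have m8 := SF_pred (8 * n) (by omega)
  have m9 := SF_pred (9 * n) (by omega)
  have m26 := SF_pred (26 * n) (by omega)
  have m13 : SF (13 * n + 1) = SF (13 * n) + lf (13 * n) := SF_succ _
  have m12 : SF (12 * n + 1) = SF (12 * n) + lf (12 * n) := SF_succ _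
  have b13 := lf_le hn (a := 13) (by norm_num) (by norm_num)
  have b12 := lf_le hn (a := 12) (by norm_num) (by norm_num)
  have t3 := SF_lo hn (a := 3) (by norm_num)
  have t4 := SF_lo hn (a := 4) (by norm_num)
  have t5 := SF_up hn (a := 5) (by norm_num)
  have t8 := SF_up hn (a := 8) (by norm_num)
  have t9 := SF_up hn (a := 9) (by norm_num)
  have t12 := SF_up hn (a := 12) (by norm_num)
  have t13 := SF_up hn (a := 13) (by norm_num)
  have t17 := SF_lo hn (a := 17) (by norm_num)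
  have t18 := SF_lo hn (a := 18) (by norm_num)
  have t21 := SF_lo hn (a := 21) (by norm_num)
  have t26 := SF_up hn (a := 26) (by norm_num)
  push_cast at t3 t4 t5 t8 t9 t12 t13 t17 t18 t21 t26
  have hlog := logs_le hn
  have hfin := fin_le hn
  have hnL : 0 ≤ (n : ℝ) * Real.log n := by
    have h1 : (0 : ℝ) ≤ n := by positivity
    have h2 := one_bd (show 2 ≤ n by omega)
    exact mul_nonneg h1 (by linarith only [h2])
  rw [m13, m12]
  have eL : (1000000 : ℝ) * n * Real.log n = 1000000 * (n * Real.log n) := by ring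
  have eM : (50 : ℝ) * (n : ℝ) ^ 2 * Real.log n = 50 * (n ^ 2 * Real.log n) := by ring
  have eC : ((Pool.Agent.LZ.GG 26 - Pool.Agent.LZ.GG 21) + Pool.Agent.LZ.GG 5 -
    7 * (Pool.Agent.LZ.GG 18 - Pool.Agent.LZ.GG 13) - 2 * (Pool.Agent.LZ.GG 17 - Pool.Agent.LZ.GG 12) +
    2 * (Pool.Agent.LZ.GG 9 - Pool.Agent.LZ.GG 4) + 7 * (Pool.Agent.LZ.GG 8 - Pool.Agent.LZ.GG 3) +
    5 * (8 * Psi 10 - 2 * Psi 3 - 4 * Psi 1)) * (n : ℝ) ^ 2 =
      n ^ 2 * Pool.Agent.LZ.GG 26 - n ^ 2 * Pool.Agent.LZ.GG 21 + n ^ 2 * Pool.Agent.LZ.GG 5 -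
      7 * (n ^ 2 * Pool.Agent.LZ.GG 18) + 7 * (n ^ 2 * Pool.Agent.LZ.GG 13) -
      2 * (n ^ 2 * Pool.Agent.LZ.GG 17) + 2 * (n ^ 2 * Pool.Agent.LZ.GG 12) +
      2 * (n ^ 2 * Pool.Agent.LZ.GG 9) - 2 * (n ^ 2 * Pool.Agent.LZ.GG 4) +
      7 * (n ^ 2 * Pool.Agent.LZ.GG 8) - 7 * (n ^ 2 * Pool.Agent.LZ.GG 3) +
      5 * n * (8 * Psi 10 - 2 * Psi 3 - 4 * Psi 1) * n := by ring
  rw [eC, eL, eM]
  clear eC eL eM
  generalize (n : ℝ) ^ 2 * Real.log n = Q at *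
  generalize (n : ℝ) * Real.log n = q at *
  generalize 5 * (n : ℝ) * (8 * Psi 10 - 2 * Psi 3 - 4 * Psi 1) * n = P at *
  linarith only [m5, m8, m9, m26, b13, b12, t3, t4, t5, t8, t9, t12, t13, t17, t18, t21, t26, hlog, hfin, hnL]

end

end Pool.Agent.Dim7
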