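import Pool.Agent.Dim7.G0

/-! Task G6c (port of `H574R2/D9/G6c.lean`): the cross energies cancel. -/

open Polynomial Pool.Agent.H337R2 Filter Topology

namespace Pool.Agent.Dim7

noncomputable section

namespace G6c

theorem bd : ∀ g < 20, 0 ≤ bb g ∧ bb g + (cc g : ℤ) ≤ 823 := by
  decide

theorem nd_inj {n : ℕ} (hn : 6 ≤ n) {i j : ℕ} (hi : i < 20 * n - 20) (hj : j < 20 * n - 20)
    (hij : nd n i = nd n j) : i = j :=
  G0_nd_inj hn (by simpa using hi) (by simpa using hj) hij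

theorem nd_le {n i : ℕ} (hn : 6 ≤ n) (hi : i < 20 * n - 20) : nd n i ≤ 823 * n := by
  have h3 : (0 : ℤ) ≤ n := Nat.cast_nonneg _
  by_cases h : i < 5 * n - 1
  · rw [G0_nd_sat h]
    have h2 : (i : ℤ) + 1 < 5 * n := by exact_mod_cast (by omega : i + 1 < 5 * n)
    linarith
  · push Not at h
    have h1 := (G0_brick hn h hi).2
    have h2 := (bd _ (G0_div_lt hn hi)).2
    have h4 := mul_le_mul_of_nonneg_right h2 h3
    linarith

/-- the pair energy -/
def a (n i j : ℕ) : ℝ := Real.log (((nd n i - nd n j : ℤ) : ℝ) / 20) +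
  Real.log (((nd n i + nd n j : ℤ) : ℝ) / 20)

theorem a_symm (n i j : ℕ) : a n i j = a n j i := by
  unfold a
  rw [add_comm (nd n i) (nd n j)]
  congr 1
  rw [← Real.log_abs, ← Real.log_abs (((nd n j - nd n i : ℤ) : ℝ) / 20)]
  congr 1
  push_cast
  rw [← abs_neg]
  congr 1
  ring

theorem Lp_eq (n : ℕ) (s : Finset ℕ) (i : ℕ) : Lp n s (nd n i) = ∑ j ∈ s, a n i j := rfl

theorem zq_sub (n i j : ℕ) : |((zq n i - zq n j : ℚ) : ℝ)| =
    |(((nd n i - nd n j : ℤ) : ℝ) / 20) * (((nd n i + nd n j : ℤ) : ℝ) / 20)| := by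
  unfold zq
  push_cast
  congr 1
  ring

theorem a_self_le {n : ℕ} (hn : 6 ≤ n) {i : ℕ} (hi : i < 20 * n - 20) :
    a n i i ≤ 2 * Real.log (80 * n) := by
  have h1 := G0_nd_nonneg hn hi
  have h2 := nd_le hn hi
  have hnR : (6 : ℝ) ≤ n := by exact_mod_cast hn
  have h2log : 2 * Real.log (80 * (n : ℝ)) = Real.log ((80 * (n : ℝ)) ^ 2) := by
    rw [Real.log_pow]
    norm_num
  have hL : 0 ≤ Real.log (80 * (n : ℝ)) := Real.log_nonneg (by linarith)
  unfold a
  rw [sub_self, Int.cast_zero, zero_div, Real.log_zero, zero_add]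
  rcases h1.eq_or_lt with h | h
  · rw [← h]
    simp only [add_zero, Int.cast_zero, zero_div, Real.log_zero]
    linarith
  · have h3 : (0 : ℝ) < nd n i := by exact_mod_cast h
    have h4 : (nd n i : ℝ) ≤ 823 * n := by exact_mod_cast h2
    rw [h2log]
    refine Real.log_le_log ?_ ?_
    · push_cast
      linarith
    · push_cast
      nlinarith

theorem log_VD {n : ℕ} (hn : 6 ≤ n) {s : Finset ℕ} (hs : ∀ i ∈ s, i < 20 * n - 20) :
    Real.log (VD s (zq n)) = ∑ i ∈ s, ∑ j ∈ s, a n i j - ∑ i ∈ s, a n i i := by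
  have hne0 : ∀ i ∈ s, ∀ j ∈ s.erase i, ((nd n i - nd n j : ℤ) : ℝ) / 20 ≠ 0 ∧
      ((nd n i + nd n j : ℤ) : ℝ) / 20 ≠ 0 := by
    intro i hi j hj
    have hj' := Finset.mem_of_mem_erase hj
    have h0 : nd n i ≠ nd n j := fun h =>
      (Finset.mem_erase.1 hj).1 (nd_inj hn (hs i hi) (hs j hj') h).symm
    have h1 := G0_nd_nonneg hn (hs i hi)
    have h2 := G0_nd_nonneg hn (hs j hj')
    constructor
    · refine div_ne_zero ?_ (by norm_num)
      intro h
      have h3 : nd n i - nd n j = 0 := by exact_mod_cast h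
      omega
    · refine div_ne_zero ?_ (by norm_num)
      intro h
      have h3 : nd n i + nd n j = 0 := by exact_mod_cast h
      omega
  have hne : ∀ i ∈ s, ∀ j ∈ s.erase i, |((zq n i - zq n j : ℚ) : ℝ)| ≠ 0 := by
    intro i hi j hj
    rw [zq_sub]
    exact abs_ne_zero.2 (mul_ne_zero (hne0 i hi j hj).1 (hne0 i hi j hj).2)
  have hVD : VD s (zq n) = ∏ i ∈ s, ∏ j ∈ s.erase i, |((zq n i - zq n j : ℚ) : ℝ)| := rfl
  rw [hVD, Real.log_prod fun i hi => Finset.prod_ne_zero_iff.2 (hne i hi),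
    ← Finset.sum_sub_distrib]
  refine Finset.sum_congr rfl fun i hi => ?_
  rw [Real.log_prod (hne i hi)]
  have h1 : ∑ j ∈ s, a n i j = ∑ j ∈ s.erase i, a n i j + a n i i :=
    (Finset.sum_erase_add s (fun j => a n i j) hi).symm
  rw [h1, add_sub_cancel_right]
  refine Finset.sum_congr rfl fun j hj => ?_
  rw [zq_sub, Real.log_abs, Real.log_mul (hne0 i hi j hj).1 (hne0 i hi j hj).2]
  rfl

end G6c

open G6c in
/-- cross energies cancel: `½ log` of the three products -/
theorem G6_cross : St_G6_cross := by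
  intro n hn
  rw [log_VD hn (fun i hi => Finset.mem_range.1 hi),
    log_VD hn (fun i hi => by have := Finset.mem_range.1 hi; omega),
    log_VD hn (fun i hi => (Finset.mem_Ico.1 hi).2)]
  simp only [Lp_eq]
  have hd : ∑ i ∈ Finset.range (20 * n - 20), a n i i ≤ 80 * n * Real.log (80 * n) := by
    have hnR : (6 : ℝ) ≤ n := by exact_mod_cast hn
    have hL : 0 ≤ Real.log (80 * (n : ℝ)) := Real.log_nonneg (by linarith)
    calc ∑ i ∈ Finset.range (20 * n - 20), a n i i
        ≤ ∑ _i ∈ Finset.range (20 * n - 20), 2 * Real.log (80 * n) :=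
          Finset.sum_le_sum fun i hi => a_self_le hn (Finset.mem_range.1 hi)
      _ = ((20 * n - 20 : ℕ) : ℝ) * (2 * Real.log (80 * n)) := by
          rw [Finset.sum_const, Finset.card_range, nsmul_eq_mul]
      _ = ((40 * n - 40 : ℕ) : ℝ) * Real.log (80 * n) := by
          rw [show 40 * n - 40 = (20 * n - 20) * 2 by omega]
          push_cast
          ring
      _ ≤ 80 * n * Real.log (80 * n) := by
          refine mul_le_mul_of_nonneg_right ?_ hL
          have : ((40 * n - 40 : ℕ) : ℝ) ≤ ((80 * n : ℕ) : ℝ) := by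
            exact_mod_cast (by omega : 40 * n - 40 ≤ 80 * n)
          push_cast at this
          exact this
  have hU14 : ∀ f : ℕ → ℝ, ∑ i ∈ Finset.range (20 * n - 20), f i =
      ∑ i ∈ Finset.range (5 * n - 1), f i +
      ∑ i ∈ Finset.Ico (5 * n - 1) (10 * n - 10), f i +
      ∑ i ∈ Finset.Ico (10 * n - 10) (20 * n - 20), f i := by
    intro f
    rw [Finset.sum_range_add_sum_Ico f (by omega : 5 * n - 1 ≤ 10 * n - 10),
      Finset.sum_range_add_sum_Ico f (by omega : 10 * n - 10 ≤ 20 * n - 20)]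
  have hU7 : ∀ f : ℕ → ℝ, ∑ i ∈ Finset.range (10 * n - 10), f i =
      ∑ i ∈ Finset.range (5 * n - 1), f i +
      ∑ i ∈ Finset.Ico (5 * n - 1) (10 * n - 10), f i := by
    intro f
    rw [Finset.sum_range_add_sum_Ico f (by omega : 5 * n - 1 ≤ 10 * n - 10)]
  have hUI : ∀ f : ℕ → ℝ, ∑ i ∈ Finset.Ico (5 * n - 1) (20 * n - 20), f i =
      ∑ i ∈ Finset.Ico (5 * n - 1) (10 * n - 10), f i +
        ∑ i ∈ Finset.Ico (10 * n - 10) (20 * n - 20), f i := by
    intro f
    rw [Finset.sum_Ico_consecutive f (by omega) (by omega)]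
  have hsw : ∀ s t : Finset ℕ, ∑ i ∈ s, ∑ j ∈ t, a n i j = ∑ i ∈ t, ∑ j ∈ s, a n i j := by
    intro s t
    rw [Finset.sum_comm]
    exact Finset.sum_congr rfl fun i _ => Finset.sum_congr rfl fun j _ => a_symm n _ _
  have hd2 := hd
  rw [hU14] at hd2
  simp only [hU14, hU7, hUI, Finset.sum_add_distrib, Finset.sum_sub_distrib]
  rw [hsw (Finset.Ico (5 * n - 1) (10 * n - 10)) (Finset.range (5 * n - 1)),
    hsw (Finset.Ico (10 * n - 10) (20 * n - 20)) (Finset.range (5 * n - 1)),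
    hsw (Finset.Ico (10 * n - 10) (20 * n - 20)) (Finset.Ico (5 * n - 1) (10 * n - 10))]
  linarith

end

end Pool.Agent.Dim7
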