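import Pool.Agent.Dim7.Iface
import Pool.Agent.H336R2.HD.H2

/-!
# Task H2: principal coefficients in the classes `±r` (`n = p`)
-/

open Polynomial Pool.Agent.H337R2

namespace Pool.Agent.Dim7

noncomputable section

namespace H2


open Pool.Agent.H336R2.HD.H2aux

variable {p : ℕ} [hp : Fact p.Prime]

/-- the class of `r` -/
def cls (p r : ℕ) (I : Finset ℕ) : Finset ℕ := I.image (fun i => r + i * p)

lemma mem_cls {r : ℕ} {I : Finset ℕ} {m : ℕ} : m ∈ cls p r I ↔ ∃ i ∈ I, r + i * p = m := by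
  unfold cls
  rw [Finset.mem_image]

lemma prod_cls {M : Type*} [CommMonoid M] (r : ℕ) (A I : Finset ℕ) (h : cls p r I ⊆ A) (f : ℕ → M) :
    ∏ m ∈ A, f m = (∏ i ∈ I, f (r + i * p)) * ∏ m ∈ A \ cls p r I, f m := by
  have hpp : 0 < p := hp.out.pos
  have h1 : ∏ i ∈ I, f (r + i * p) = ∏ m ∈ cls p r I, f m := by
    unfold cls
    symm
    apply Finset.prod_image
    intro a _ b _ hab
    have h5 : r + a * p = r + b * p := hab
    have h7 : a * p = b * p := by omega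
    exact Nat.eq_of_mul_eq_mul_right hpp h7
  rw [h1, mul_comm, Finset.prod_sdiff h]

def SA (p r : ℕ) : Finset ℕ := Finset.range (3 * p) \ cls p r (Finset.range 3)
def SB (p r : ℕ) : Finset ℕ := Finset.Icc (13 * p + 1) (16 * p) \ cls p r (Finset.Icc 13 15)
def SC (p r : ℕ) : Finset ℕ := Finset.Icc (3 * p) (13 * p) \ cls p r (Finset.Icc 3 12)
def SD (p r : ℕ) : Finset ℕ := Finset.Ico (3 * p) (4 * p) \ cls p r {3}
def SE (p r : ℕ) : Finset ℕ := Finset.Icc (12 * p + 1) (13 * p) \ cls p r {12}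

lemma not_dvd_gen {r m : ℕ} (hr1 : 1 ≤ r) (hr2 : 2 * r < p) (hm : m ≤ 16 * p)
    (h : ∀ i, i < 16 → r + i * p ≠ m) : ¬ (p : ℤ) ∣ (m : ℤ) - r := by
  rintro ⟨c, hc⟩
  have hpp : (0 : ℤ) < p := by exact_mod_cast hp.out.pos
  have hc1 : c < 16 := by
    by_contra h
    have h5 : (p : ℤ) * 16 ≤ p * c := mul_le_mul_of_nonneg_left (by omega) hpp.le
    omega
  have hc2 : -1 < c := by
    by_contra h
    have h5 : (p : ℤ) * c ≤ p * (-1) := mul_le_mul_of_nonneg_left (by omega) hpp.le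
    omega
  apply h c.toNat (by omega)
  have h6 : ((c.toNat : ℕ) : ℤ) = c := Int.toNat_of_nonneg (by omega)
  have h7 : ((r + c.toNat * p : ℕ) : ℤ) = m := by
    push_cast
    rw [h6]
    linarith
  exact_mod_cast h7

lemma SA_not_dvd {r m : ℕ} (hr1 : 1 ≤ r) (hr2 : 2 * r < p) (hm : m ∈ SA p r) :
    ¬ (p : ℤ) ∣ (m : ℤ) - r := by
  unfold SA at hm
  rw [Finset.mem_sdiff, Finset.mem_range, mem_cls] at hm
  obtain ⟨h1, h2⟩ := hm
  apply not_dvd_gen hr1 hr2 (by omega)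
  intro i hi hm
  apply h2
  refine ⟨i, ?_, hm⟩
  rw [Finset.mem_range]
  by_contra h
  have : 3 * p ≤ i * p := Nat.mul_le_mul_right p (by omega)
  omega

lemma SB_not_dvd {r m : ℕ} (hr1 : 1 ≤ r) (hr2 : 2 * r < p) (hm : m ∈ SB p r) :
    ¬ (p : ℤ) ∣ (m : ℤ) - r := by
  unfold SB at hm
  rw [Finset.mem_sdiff, Finset.mem_Icc, mem_cls] at hm
  obtain ⟨⟨h1, h3⟩, h2⟩ := hm
  apply not_dvd_gen hr1 hr2 (by omega)
  intro i hi hm
  apply h2
  refine ⟨i, ?_, hm⟩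
  rw [Finset.mem_Icc]
  refine ⟨?_, by omega⟩
  by_contra h
  have : i * p ≤ 12 * p := Nat.mul_le_mul_right p (by omega)
  omega

lemma SC_not_dvd {r m : ℕ} (hr1 : 1 ≤ r) (hr2 : 2 * r < p) (hm : m ∈ SC p r) :
    ¬ (p : ℤ) ∣ (m : ℤ) - r := by
  unfold SC at hm
  rw [Finset.mem_sdiff, Finset.mem_Icc, mem_cls] at hm
  obtain ⟨⟨h1, h3⟩, h2⟩ := hm
  apply not_dvd_gen hr1 hr2 (by omega)
  intro i hi hm
  apply h2
  refine ⟨i, ?_, hm⟩
  rw [Finset.mem_Icc]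
  constructor
  · by_contra h
    have : i * p ≤ 2 * p := Nat.mul_le_mul_right p (by omega)
    omega
  · by_contra h
    have : 13 * p ≤ i * p := Nat.mul_le_mul_right p (by omega)
    omega

lemma SD_not_dvd {r m : ℕ} (hr1 : 1 ≤ r) (hr2 : 2 * r < p) (hm : m ∈ SD p r) :
    ¬ (p : ℤ) ∣ (m : ℤ) - r := by
  unfold SD at hm
  rw [Finset.mem_sdiff, Finset.mem_Ico, mem_cls] at hm
  obtain ⟨⟨h1, h3⟩, h2⟩ := hm
  apply not_dvd_gen hr1 hr2 (by omega)
  intro i hi hm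
  apply h2
  refine ⟨i, ?_, hm⟩
  rw [Finset.mem_singleton]
  by_contra h
  rcases Nat.lt_or_gt_of_ne h with h | h
  · have : i * p ≤ 2 * p := Nat.mul_le_mul_right p (by omega)
    omega
  · have : 4 * p ≤ i * p := Nat.mul_le_mul_right p (by omega)
    omega

lemma SE_not_dvd {r m : ℕ} (hr1 : 1 ≤ r) (hr2 : 2 * r < p) (hm : m ∈ SE p r) :
    ¬ (p : ℤ) ∣ (m : ℤ) - r := by
  unfold SE at hm
  rw [Finset.mem_sdiff, Finset.mem_Icc, mem_cls] at hm
  obtain ⟨⟨h1, h3⟩, h2⟩ := hm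
  apply not_dvd_gen hr1 hr2 (by omega)
  intro i hi hm
  apply h2
  refine ⟨i, ?_, hm⟩
  rw [Finset.mem_singleton]
  by_contra h
  rcases Nat.lt_or_gt_of_ne h with h | h
  · have : i * p ≤ 11 * p := Nat.mul_le_mul_right p (by omega)
    omega
  · have : 13 * p ≤ i * p := Nat.mul_le_mul_right p (by omega)
    omega

/-- the exact part -/
def FM (p : ℕ) (j e : ℕ) : PowerSeries ℚ :=
  (∏ i ∈ ({0, 1, 2, 13, 14, 15} : Finset ℕ),
    (PowerSeries.X + PowerSeries.C (((i : ℚ) - j) * p))) *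
  (∏ i ∈ ({3, 12} : Finset ℕ), (PowerSeries.X + PowerSeries.C (((i : ℚ) - j) * p))) ^ 2 *
  (∏ b ∈ (Finset.Icc 3 12).erase j, iv (((b : ℚ) - j) * p) ^ 8) *
  (PowerSeries.X + PowerSeries.C (-(j : ℚ) * p)) ^ e

lemma card6 : ({0, 1, 2, 13, 14, 15} : Finset ℕ).card = 6 := by decide

lemma card2 : ({3, 12} : Finset ℕ).card = 2 := by decide

lemma FM_eq (hp0 : (p : ℚ) ≠ 0) {j : ℕ} (hj4 : 3 ≤ j) (hj7 : j ≤ 12) (e : ℕ) : FM p j e =
    PowerSeries.C ((p : ℚ) ^ 10 * ((p : ℚ)⁻¹) ^ 72 * (p : ℚ) ^ e) *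
      PowerSeries.rescale ((p : ℚ)⁻¹) (ser j e) := by
  have hcard : ((Finset.Icc 3 12).erase j).card = 9 := by
    rw [Finset.card_erase_of_mem (by rw [Finset.mem_Icc]; omega)]; rfl
  have hprod : ∏ b ∈ (Finset.Icc 3 12).erase j, iv (((b : ℚ) - j) * p) ^ 8 =
      PowerSeries.C ((p : ℚ)⁻¹) ^ 72 * PowerSeries.rescale ((p : ℚ)⁻¹)
        (∏ b ∈ (Finset.Icc 3 12).erase j, iv ((b : ℚ) - j) ^ 8) := by
    rw [map_prod]
    have h1 : PowerSeries.C ((p : ℚ)⁻¹) ^ 72 =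
        ∏ b ∈ (Finset.Icc 3 12).erase j, (PowerSeries.C ((p : ℚ)⁻¹) ^ 8 : PowerSeries ℚ) := by
      rw [Finset.prod_const, hcard, ← pow_mul]
    rw [h1, ← Finset.prod_mul_distrib]
    apply Finset.prod_congr rfl
    intro b _
    rw [iv_rescale hp0, mul_pow, map_pow]
  have hprod2 : ∏ i ∈ ({0, 1, 2, 13, 14, 15} : Finset ℕ),
      (PowerSeries.X + PowerSeries.C (((i : ℚ) - j) * p) : PowerSeries ℚ) =
      PowerSeries.C (p : ℚ) ^ 6 * PowerSeries.rescale ((p : ℚ)⁻¹)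
        (∏ i ∈ ({0, 1, 2, 13, 14, 15} : Finset ℕ), (PowerSeries.X + PowerSeries.C ((i : ℚ) - j))) := by
    rw [map_prod]
    have h1 : PowerSeries.C (p : ℚ) ^ 6 =
        ∏ i ∈ ({0, 1, 2, 13, 14, 15} : Finset ℕ), (PowerSeries.C (p : ℚ) : PowerSeries ℚ) := by
      rw [Finset.prod_const, card6]
    rw [h1, ← Finset.prod_mul_distrib]
    apply Finset.prod_congr rfl
    intro b _
    rw [lin_rescale hp0]
  have hprod3 : ∏ i ∈ ({3, 12} : Finset ℕ),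
      (PowerSeries.X + PowerSeries.C (((i : ℚ) - j) * p) : PowerSeries ℚ) =
      PowerSeries.C (p : ℚ) ^ 2 * PowerSeries.rescale ((p : ℚ)⁻¹)
        (∏ i ∈ ({3, 12} : Finset ℕ), (PowerSeries.X + PowerSeries.C ((i : ℚ) - j))) := by
    rw [map_prod]
    have h1 : PowerSeries.C (p : ℚ) ^ 2 =
        ∏ i ∈ ({3, 12} : Finset ℕ), (PowerSeries.C (p : ℚ) : PowerSeries ℚ) := by
      rw [Finset.prod_const, card2]
    rw [h1, ← Finset.prod_mul_distrib]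
    apply Finset.prod_congr rfl
    intro b _
    rw [lin_rescale hp0]
  unfold FM ser
  rw [hprod, hprod2, hprod3, lin_rescale hp0]
  generalize (∏ b ∈ (Finset.Icc 3 12).erase j, iv ((b : ℚ) - j) ^ 8) = PI0
  generalize (∏ i ∈ ({0, 1, 2, 13, 14, 15} : Finset ℕ),
    (PowerSeries.X + PowerSeries.C ((i : ℚ) - j) : PowerSeries ℚ)) = PI1
  generalize (∏ i ∈ ({3, 12} : Finset ℕ),
    (PowerSeries.X + PowerSeries.C ((i : ℚ) - j) : PowerSeries ℚ)) = PI2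
  simp only [map_mul, map_pow]
  ring

lemma FM_coeff (hp0 : (p : ℚ) ≠ 0) {j : ℕ} (hj4 : 3 ≤ j) (hj7 : j ≤ 12) (e l : ℕ) :
    PowerSeries.coeff l (FM p j e) =
    (p : ℚ) ^ 10 * ((p : ℚ)⁻¹) ^ 72 * (p : ℚ) ^ e * (((p : ℚ)⁻¹) ^ l * PowerSeries.coeff l (ser j e)) := by
  rw [FM_eq hp0 hj4 hj7, PowerSeries.coeff_C_mul, PowerSeries.coeff_rescale]

lemma FM_PB (hp100 : 200 ≤ p) {j : ℕ} (hj4 : 3 ≤ j) (hj7 : j ≤ 12) (e : ℕ) :
    PB p (p : ℚ) (((p : ℚ)⁻¹) ^ 6 * (((p : ℚ)⁻¹) ^ 2) ^ 2 * (p : ℚ) ^ 72 * ((p : ℚ)⁻¹) ^ e) (FM p j e) := by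
  have hp0 : (0 : ℚ) ≤ p := p_pos'.le
  have hinv : (0 : ℚ) ≤ (p : ℚ)⁻¹ := inv_nonneg.2 hp0
  have hcard : ((Finset.Icc 3 12).erase j).card = 9 := by
    rw [Finset.card_erase_of_mem (by rw [Finset.mem_Icc]; omega)]; rfl
  have e1 : PB p (p : ℚ) (p : ℚ)⁻¹ (PowerSeries.X + PowerSeries.C (-(j : ℚ) * p)) :=
    PB_linp (-(j : ℤ)) (by push_cast; ring)
  have f1 : PB p (p : ℚ) (∏ i ∈ ({0, 1, 2, 13, 14, 15} : Finset ℕ), (p : ℚ)⁻¹)
      (∏ i ∈ ({0, 1, 2, 13, 14, 15} : Finset ℕ),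
        (PowerSeries.X + PowerSeries.C (((i : ℚ) - j) * p))) := by
    apply PB.prod _ _ _ hp0
    · intro b _; positivity
    · intro i _
      exact PB_linp ((i : ℤ) - j) (by push_cast; ring)
  have f4 : PB p (p : ℚ) (∏ i ∈ ({3, 12} : Finset ℕ), (p : ℚ)⁻¹)
      (∏ i ∈ ({3, 12} : Finset ℕ),
        (PowerSeries.X + PowerSeries.C (((i : ℚ) - j) * p))) := by
    apply PB.prod _ _ _ hp0
    · intro b _; positivity
    · intro i _
      exact PB_linp ((i : ℤ) - j) (by push_cast; ring)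
  have f2 : PB p (p : ℚ) (∏ b ∈ (Finset.Icc 3 12).erase j, (p : ℚ) ^ 8)
      (∏ b ∈ (Finset.Icc 3 12).erase j, iv (((b : ℚ) - j) * p) ^ 8) := by
    apply PB.prod _ _ _ hp0
    · intro b _; positivity
    · intro b hb
      rw [Finset.mem_erase, Finset.mem_Icc] at hb
      apply PB.pow hp0 hp0
      apply PB_ivp (a := (b : ℤ) - j) (by push_cast; ring)
      apply not_dvd_of_lt
      · have := hb.1
        omega
      · omega
      · omega
  have f3 := PB.pow hp0 hinv e1 e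
  rw [Finset.prod_const, card6] at f1
  rw [Finset.prod_const, card2] at f4
  rw [Finset.prod_const, hcard, ← pow_mul] at f2
  have f5 := PB.pow hp0 (pow_nonneg hinv 2) f4 2
  exact PB.mul hp0 (by positivity) (by positivity)
    (PB.mul hp0 (by positivity) (by positivity)
      (PB.mul hp0 (by positivity) (by positivity) f1 f5) f2) f3

/-- the constant -/
def wM (p r : ℕ) : ℚ :=
  (-2 * (r : ℚ)) * (∏ m ∈ SA p r, ((m : ℚ) - r)) * (∏ m ∈ SB p r, ((m : ℚ) - r)) *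
  ((∏ m ∈ SD p r, ((m : ℚ) - r)) * (∏ m ∈ SE p r, ((m : ℚ) - r))) ^ 2 *
  (-(r : ℚ)) ^ 68 *
  (∏ r' ∈ (Finset.Icc 1 ((p - 1) / 2)).erase r, (((r' : ℚ) - r) * (16 * p - r' - r)) ^ 60) *
  ∏ m ∈ SC p r, (((m : ℚ) - r)⁻¹) ^ 8

/-- the unit part -/
def GM (p r k e : ℕ) : PowerSeries ℚ :=
  (PowerSeries.C 2 * PowerSeries.X + PowerSeries.C (2 * -(k : ℚ) + 16 * p)) *
  (∏ m ∈ SA p r, (PowerSeries.X + PowerSeries.C (-(k : ℚ) + m))) *
  (∏ m ∈ SB p r, (PowerSeries.X + PowerSeries.C (-(k : ℚ) + m))) *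
  ((∏ m ∈ SD p r, (PowerSeries.X + PowerSeries.C (-(k : ℚ) + m))) *
    (∏ m ∈ SE p r, (PowerSeries.X + PowerSeries.C (-(k : ℚ) + m)))) ^ 2 *
  (PowerSeries.X + PowerSeries.C (-(k : ℚ) + 8 * p)) ^ 68 *
  (∏ r' ∈ (Finset.Icc 1 ((p - 1) / 2)).erase r,
    ((PowerSeries.X + PowerSeries.C (-(k : ℚ) + r')) *
      (PowerSeries.X + PowerSeries.C (-(k : ℚ) + (16 * p - r')))) ^ 60) *
  (∏ m ∈ SC p r, iv (-(k : ℚ) + m) ^ 8) *
  (PowerSeries.X + PowerSeries.C (-(k : ℚ) + (16 * p - r))) ^ e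

lemma GM_UC (hp100 : 200 ≤ p) {r : ℕ} (hr1 : 1 ≤ r) (hr2 : 2 * r < p) (j e : ℕ) :
    UC p (GM p r (r + j * p) e) (wM p r * (-2 * (r : ℚ)) ^ e) := by
  have n2r : ¬ (p : ℤ) ∣ -2 * (r : ℤ) := not_dvd_of_lt (by omega) (by omega) (by omega)
  unfold GM wM
  refine UC.mul (UC.mul (UC.mul (UC.mul (UC.mul (UC.mul (UC.mul ?_ ?_) ?_) ?_) ?_) ?_) ?_) ?_
  · apply UC.lin2 (a := 2 * -((r + j * p : ℕ) : ℤ) + 16 * p) (a0 := -2 * (r : ℤ))
    · push_cast; ring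
    · push_cast; ring
    · exact n2r
    · refine ⟨16 - 2 * j, ?_⟩
      push_cast; ring
  · apply UC.prod
    intro m hm
    apply UC.lin (a := -((r + j * p : ℕ) : ℤ) + m) (a0 := (m : ℤ) - r)
    · push_cast; ring
    · push_cast; ring
    · exact SA_not_dvd hr1 hr2 hm
    · refine ⟨-j, ?_⟩
      push_cast; ring
  · apply UC.prod
    intro m hm
    apply UC.lin (a := -((r + j * p : ℕ) : ℤ) + m) (a0 := (m : ℤ) - r)
    · push_cast; ring
    · push_cast; ring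
    · exact SB_not_dvd hr1 hr2 hm
    · refine ⟨-j, ?_⟩
      push_cast; ring
  · apply UC.pow
    apply UC.mul
    · apply UC.prod
      intro m hm
      apply UC.lin (a := -((r + j * p : ℕ) : ℤ) + m) (a0 := (m : ℤ) - r)
      · push_cast; ring
      · push_cast; ring
      · exact SD_not_dvd hr1 hr2 hm
      · refine ⟨-j, ?_⟩
        push_cast; ring
    · apply UC.prod
      intro m hm
      apply UC.lin (a := -((r + j * p : ℕ) : ℤ) + m) (a0 := (m : ℤ) - r)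
      · push_cast; ring
      · push_cast; ring
      · exact SE_not_dvd hr1 hr2 hm
      · refine ⟨-j, ?_⟩
        push_cast; ring
  · apply UC.pow
    apply UC.lin (a := -((r + j * p : ℕ) : ℤ) + 8 * p) (a0 := -(r : ℤ))
    · push_cast; ring
    · push_cast; ring
    · exact not_dvd_of_lt (by omega) (by omega) (by omega)
    · refine ⟨8 - j, ?_⟩
      push_cast; ring
  · apply UC.prod
    intro r' hr'
    rw [Finset.mem_erase, Finset.mem_Icc] at hr'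
    apply UC.pow
    apply UC.mul
    · apply UC.lin (a := -((r + j * p : ℕ) : ℤ) + r') (a0 := (r' : ℤ) - r)
      · push_cast; ring
      · push_cast; ring
      · exact not_dvd_of_lt (by omega) (by omega) (by omega)
      · refine ⟨-j, ?_⟩
        push_cast; ring
    · apply UC.lin (a := -((r + j * p : ℕ) : ℤ) + (16 * p - r')) (a0 := 16 * (p : ℤ) - r' - r)
      · push_cast; ring
      · push_cast; ring
      · intro h
        have h1 : (p : ℤ) ∣ 16 * (p : ℤ) := Dvd.intro_left _ rfl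
        have h2 := dvd_sub h1 h
        have h3 : 16 * (p : ℤ) - (16 * (p : ℤ) - r' - r) = r' + r := by ring
        rw [h3] at h2
        exact not_dvd_of_lt (by omega) (by omega) (by omega) h2
      · refine ⟨-j, ?_⟩
        push_cast; ring
  · apply UC.prod
    intro m hm
    apply UC.pow
    apply UC.iv (a := -((r + j * p : ℕ) : ℤ) + m) (a0 := (m : ℤ) - r)
    · push_cast; ring
    · push_cast; ring
    · exact SC_not_dvd hr1 hr2 hm
    · refine ⟨-j, ?_⟩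
      push_cast; ring
  · apply UC.pow
    apply UC.lin (a := -((r + j * p : ℕ) : ℤ) + (16 * p - r)) (a0 := -2 * (r : ℤ))
    · push_cast; ring
    · push_cast; ring
    · exact n2r
    · refine ⟨16 - j, ?_⟩
      push_cast; ring

/-! ### the numerator -/

lemma XN_comp2 (p r : ℕ) : (XN p r).comp (xM p) =
    (X + C (r : ℚ)) * (X + C (16 * (p : ℚ) - r)) := by
  unfold XN xM
  rw [Polynomial.sub_comp, Polynomial.X_comp, Polynomial.pow_comp, Polynomial.C_comp]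
  have h : ((8 * p : ℕ) : ℚ) = 8 * p := by push_cast; ring
  rw [h]
  have h2 : (16 * (p : ℚ) - r) = 8 * p + (8 * p - r) := by ring
  have h3 : (r : ℚ) = 8 * p - (8 * p - r) := by ring
  rw [h2]
  nth_rewrite 2 [h3]
  generalize (8 * (p : ℚ) - r) = b
  generalize (8 * (p : ℚ)) = a
  simp only [map_add, map_sub]
  ring

lemma TS_num2 (p r e k : ℕ) : TS (-(k : ℚ)) (PM p * EM p (XN p r ^ e * OT p r 60)) =
    PowerSeries.C (cM p) *
    (PowerSeries.C 2 * PowerSeries.X + PowerSeries.C (2 * -(k : ℚ) + 16 * p)) *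
    ((∏ m ∈ Finset.range (3 * p), (PowerSeries.X + PowerSeries.C (-(k : ℚ) + m))) *
    (∏ m ∈ Finset.Icc (13 * p + 1) (16 * p), (PowerSeries.X + PowerSeries.C (-(k : ℚ) + m))) *
    ((∏ m ∈ Finset.Ico (3 * p) (4 * p), (PowerSeries.X + PowerSeries.C (-(k : ℚ) + m))) *
      (∏ m ∈ Finset.Icc (12 * p + 1) (13 * p), (PowerSeries.X + PowerSeries.C (-(k : ℚ) + m)))) ^ 2) *
    (((PowerSeries.X + PowerSeries.C (-(k : ℚ) + 8 * p)) ^ 2) ^ 34 *
    (((PowerSeries.X + PowerSeries.C (-(k : ℚ) + r)) *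
      (PowerSeries.X + PowerSeries.C (-(k : ℚ) + (16 * p - r)))) ^ e *
    ∏ r' ∈ (Finset.Icc 1 ((p - 1) / 2)).erase r,
      ((PowerSeries.X + PowerSeries.C (-(k : ℚ) + r')) *
        (PowerSeries.X + PowerSeries.C (-(k : ℚ) + (16 * p - r')))) ^ 60)) := by
  unfold EM OT
  simp only [Polynomial.mul_comp, Polynomial.pow_comp, Polynomial.prod_comp, XN_comp2,
    Polynomial.X_comp]
  unfold PM ZM OM xM
  have h : ((8 * p : ℕ) : ℚ) = 8 * p := by push_cast; ring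
  have h6 : ((16 * p : ℕ) : ℚ) = 16 * p := by push_cast; ring
  rw [h, h6]
  generalize (16 : ℚ) * (p : ℚ) = d
  generalize (8 : ℚ) * (p : ℚ) = d'
  simp only [map_mul, map_pow, map_prod, TS_C, TS_lin, TS_lin2]

lemma VV_den2 (hp100 : 200 ≤ p) {r : ℕ} (hr1 : 1 ≤ r) (hr2 : 2 * r < p) {j : ℕ} (hj4 : 3 ≤ j)
    (hj7 : j ≤ 12) :
    VV ((sM p).erase (r + j * p)) mM (-((r + j * p : ℕ) : ℚ)) =
      (∏ m ∈ SC p r, iv (-((r + j * p : ℕ) : ℚ) + m) ^ 8) *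
      ∏ b ∈ (Finset.Icc 3 12).erase j, iv (((b : ℚ) - j) * p) ^ 8 := by
  have hjp1 : 3 * p ≤ j * p := Nat.mul_le_mul_right p hj4
  have hjp2 : j * p ≤ 12 * p := Nat.mul_le_mul_right p hj7
  have hVV : VV ((sM p).erase (r + j * p)) mM (-((r + j * p : ℕ) : ℚ)) =
      ∏ m ∈ (sM p).erase (r + j * p), iv (-((r + j * p : ℕ) : ℚ) + m) ^ 8 := rfl
  rw [hVV]
  have hsub : cls p r ((Finset.Icc 3 12).erase j) ⊆ (sM p).erase (r + j * p) := by
    intro m hm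
    rw [mem_cls] at hm
    obtain ⟨i, hi, rfl⟩ := hm
    rw [Finset.mem_erase, Finset.mem_Icc] at hi
    have hi1 : 3 * p ≤ i * p := Nat.mul_le_mul_right p hi.2.1
    have hi2 : i * p ≤ 12 * p := Nat.mul_le_mul_right p hi.2.2
    rw [Finset.mem_erase, Finset.mem_Icc]
    refine ⟨?_, by omega, by omega⟩
    intro h
    apply hi.1
    have h7 : i * p = j * p := by omega
    exact Nat.eq_of_mul_eq_mul_right (by omega) h7
  rw [prod_cls (p := p) r _ _ hsub, mul_comm]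
  have hset : (sM p).erase (r + j * p) \ cls p r ((Finset.Icc 3 12).erase j) = SC p r := by
    ext m
    unfold SC
    rw [Finset.mem_sdiff, Finset.mem_sdiff, Finset.mem_erase, mem_cls, mem_cls]
    constructor
    · rintro ⟨⟨h1, h2⟩, h3⟩
      refine ⟨h2, ?_⟩
      rintro ⟨i, hi, hm⟩
      apply h3
      refine ⟨i, ?_, hm⟩
      rw [Finset.mem_erase]
      refine ⟨?_, hi⟩
      rintro rfl
      exact h1 hm.symm
    · rintro ⟨h1, h2⟩
      refine ⟨⟨?_, h1⟩, ?_⟩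
      · rintro rfl
        exact h2 ⟨j, by rw [Finset.mem_Icc]; omega, rfl⟩
      · rintro ⟨i, hi, hm⟩
        exact h2 ⟨i, Finset.mem_of_mem_erase hi, hm⟩
  rw [hset]
  have h6 : ∀ b : ℕ, -((r + j * p : ℕ) : ℚ) + ((r + b * p : ℕ) : ℚ) = ((b : ℚ) - j) * p := by
    intro b
    push_cast
    ring
  have h7 : ∏ i ∈ (Finset.Icc 3 12).erase j, iv (-((r + j * p : ℕ) : ℚ) + ((r + i * p : ℕ) : ℚ)) ^ 8 =
      ∏ b ∈ (Finset.Icc 3 12).erase j, iv (((b : ℚ) - j) * p) ^ 8 :=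
    Finset.prod_congr rfl fun b _ => by rw [h6]
  rw [h7]

/-- the factorisation -/
lemma factor2 (hp100 : 200 ≤ p) {r : ℕ} (hr1 : 1 ≤ r) (hr2 : 2 * r < p) {j : ℕ} (hj4 : 3 ≤ j)
    (hj7 : j ≤ 12) (e : ℕ) :
    TS (-((r + j * p : ℕ) : ℚ)) (PM p * EM p (XN p r ^ e * OT p r 60)) *
      VV ((sM p).erase (r + j * p)) mM (-((r + j * p : ℕ) : ℚ)) =
    PowerSeries.C (cM p) * (FM p j e * GM p r (r + j * p) e) := by
  rw [TS_num2, VV_den2 hp100 hr1 hr2 hj4 hj7]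
  have v1 : -((r + j * p : ℕ) : ℚ) + (r : ℚ) = -(j : ℚ) * p := by push_cast; ring
  have h6 : ∀ b : ℕ, -((r + j * p : ℕ) : ℚ) + ((r + b * p : ℕ) : ℚ) = ((b : ℚ) - j) * p := by
    intro b
    push_cast
    ring
  have hA : ∏ m ∈ Finset.range (3 * p), (PowerSeries.X + PowerSeries.C (-((r + j * p : ℕ) : ℚ) + m)) =
      (∏ i ∈ Finset.range 3, (PowerSeries.X + PowerSeries.C (((i : ℚ) - j) * p))) *
      ∏ m ∈ SA p r, (PowerSeries.X + PowerSeries.C (-((r + j * p : ℕ) : ℚ) + m)) := by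
    rw [prod_cls (p := p) r (Finset.range (3 * p)) (Finset.range 3)]
    · simp only [h6]
      rfl
    · intro m hm
      rw [mem_cls] at hm
      obtain ⟨i, hi, rfl⟩ := hm
      rw [Finset.mem_range] at hi
      have hi2 : i * p ≤ 2 * p := Nat.mul_le_mul_right p (by omega)
      rw [Finset.mem_range]
      omega
  have hB : ∏ m ∈ Finset.Icc (13 * p + 1) (16 * p),
      (PowerSeries.X + PowerSeries.C (-((r + j * p : ℕ) : ℚ) + m)) =
      (∏ i ∈ (Finset.Icc 13 15 : Finset ℕ), (PowerSeries.X + PowerSeries.C (((i : ℚ) - j) * p))) *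
      ∏ m ∈ SB p r, (PowerSeries.X + PowerSeries.C (-((r + j * p : ℕ) : ℚ) + m)) := by
    rw [prod_cls (p := p) r (Finset.Icc (13 * p + 1) (16 * p)) (Finset.Icc 13 15)]
    · simp only [h6]
      rfl
    · intro m hm
      rw [mem_cls] at hm
      obtain ⟨i, hi, rfl⟩ := hm
      rw [Finset.mem_Icc] at hi
      have hi1 : 13 * p ≤ i * p := Nat.mul_le_mul_right p hi.1
      have hi2 : i * p ≤ 15 * p := Nat.mul_le_mul_right p hi.2
      rw [Finset.mem_Icc]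
      omega
  have hD : ∏ m ∈ Finset.Ico (3 * p) (4 * p),
      (PowerSeries.X + PowerSeries.C (-((r + j * p : ℕ) : ℚ) + m)) =
      (∏ i ∈ ({3} : Finset ℕ), (PowerSeries.X + PowerSeries.C (((i : ℚ) - j) * p))) *
      ∏ m ∈ SD p r, (PowerSeries.X + PowerSeries.C (-((r + j * p : ℕ) : ℚ) + m)) := by
    rw [prod_cls (p := p) r (Finset.Ico (3 * p) (4 * p)) {3}]
    · simp only [h6]
      rfl
    · intro m hm
      rw [mem_cls] at hm
      obtain ⟨i, hi, rfl⟩ := hm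
      rw [Finset.mem_singleton] at hi
      subst hi
      rw [Finset.mem_Ico]
      omega
  have hE : ∏ m ∈ Finset.Icc (12 * p + 1) (13 * p),
      (PowerSeries.X + PowerSeries.C (-((r + j * p : ℕ) : ℚ) + m)) =
      (∏ i ∈ ({12} : Finset ℕ), (PowerSeries.X + PowerSeries.C (((i : ℚ) - j) * p))) *
      ∏ m ∈ SE p r, (PowerSeries.X + PowerSeries.C (-((r + j * p : ℕ) : ℚ) + m)) := by
    rw [prod_cls (p := p) r (Finset.Icc (12 * p + 1) (13 * p)) {12}]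
    · simp only [h6]
      rfl
    · intro m hm
      rw [mem_cls] at hm
      obtain ⟨i, hi, rfl⟩ := hm
      rw [Finset.mem_singleton] at hi
      subst hi
      rw [Finset.mem_Icc]
      omega
  have hset : ({0, 1, 2, 13, 14, 15} : Finset ℕ) = Finset.range 3 ∪ Finset.Icc 13 15 := by decide
  have hdis : Disjoint (Finset.range 3) (Finset.Icc 13 15) := by decide
  have hset2 : ({3, 12} : Finset ℕ) = {3} ∪ {12} := by decide
  have hdis2 : Disjoint ({3} : Finset ℕ) ({12} : Finset ℕ) := by decide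
  rw [hA, hB, hD, hE, v1]
  unfold FM GM
  rw [hset, hset2, Finset.prod_union hdis, Finset.prod_union hdis2]
  generalize ∏ m ∈ SA p r, (PowerSeries.X + PowerSeries.C (-((r + j * p : ℕ) : ℚ) + m) : PowerSeries ℚ) = a1
  generalize ∏ m ∈ SB p r, (PowerSeries.X + PowerSeries.C (-((r + j * p : ℕ) : ℚ) + m) : PowerSeries ℚ) = a2
  generalize ∏ m ∈ SD p r, (PowerSeries.X + PowerSeries.C (-((r + j * p : ℕ) : ℚ) + m) : PowerSeries ℚ) = a11
  generalize ∏ m ∈ SE p r, (PowerSeries.X + PowerSeries.C (-((r + j * p : ℕ) : ℚ) + m) : PowerSeries ℚ) = a12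
  generalize ∏ m ∈ SC p r, iv (-((r + j * p : ℕ) : ℚ) + m) ^ 8 = a3
  generalize ∏ b ∈ (Finset.Icc 3 12).erase j, iv (((b : ℚ) - j) * p) ^ 8 = a4
  generalize ∏ r' ∈ (Finset.Icc 1 ((p - 1) / 2)).erase r,
    ((PowerSeries.X + PowerSeries.C (-((r + j * p : ℕ) : ℚ) + r')) *
        (PowerSeries.X + PowerSeries.C (-((r + j * p : ℕ) : ℚ) + (16 * p - r')))) ^ 60 = a5
  generalize (∏ i ∈ Finset.range 3, (PowerSeries.X + PowerSeries.C (((i : ℚ) - j) * p) : PowerSeries ℚ)) = a9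
  generalize (∏ i ∈ (Finset.Icc 13 15 : Finset ℕ), (PowerSeries.X + PowerSeries.C (((i : ℚ) - j) * p) : PowerSeries ℚ)) = a10
  generalize (∏ i ∈ ({3} : Finset ℕ), (PowerSeries.X + PowerSeries.C (((i : ℚ) - j) * p) : PowerSeries ℚ)) = a13
  generalize (∏ i ∈ ({12} : Finset ℕ), (PowerSeries.X + PowerSeries.C (((i : ℚ) - j) * p) : PowerSeries ℚ)) = a14
  rw [mul_pow (PowerSeries.X + PowerSeries.C (-(j : ℚ) * p)) _ e]
  generalize (PowerSeries.X + PowerSeries.C (-(j : ℚ) * p)) ^ e = a6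
  generalize (PowerSeries.X + PowerSeries.C (-((r + j * p : ℕ) : ℚ) + (16 * (p : ℚ) - r))) ^ e = a7
  generalize (PowerSeries.X + PowerSeries.C (-((r + j * p : ℕ) : ℚ) + 8 * (p : ℚ)) : PowerSeries ℚ) = a8
  ring

end H2

open H2
open Pool.Agent.H336R2.HD.H2aux (coeff_mul_UC)

theorem H2_pa : St_H2_pa := by
  intro p _ hp r hr1 hr2
  have hp0 : (p : ℚ) ≠ 0 := p_pos'.ne'
  have hpp : (0 : ℚ) < p := p_pos'
  have hcst : padicNorm p (cM p) = ((p : ℚ)⁻¹) ^ 70 := by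
    have hd1 : 10 * p / p = 10 := Nat.mul_div_cancel 10 (by omega)
    have hd2 : 3 * p / p = 3 := Nat.mul_div_cancel 3 (by omega)
    have hd3 : p / p = 1 := Nat.div_self (by omega)
    unfold cM
    rw [padicNorm.div, padicNorm.mul, padicNorm_pow', padicNorm_pow', padicNorm_pow',
      norm_factorial (by nlinarith), hd1,
      norm_factorial (by nlinarith), hd2, norm_factorial (by nlinarith), hd3,
      ← zpow_natCast, ← zpow_natCast, ← zpow_natCast, ← zpow_natCast, inv_zpow',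
      ← zpow_mul, ← zpow_mul, ← zpow_mul, ← zpow_add₀ hp0, ← zpow_sub₀ hp0]
    norm_num
  refine ⟨cM p / (p : ℚ) ^ 70 * wM p r, ?_, ?_⟩
  · have h0 := (GM_UC hp hr1 hr2 0 0).1
    rw [pow_zero, mul_one] at h0
    rw [padicNorm.mul, padicNorm.div, hcst, h0, padicNorm_pow', padicNorm.padicNorm_p_of_prime, mul_one]
    exact div_self (by positivity)
  · intro e j i he hj4 hj7 hi1 hi20
    unfold pa
    rw [if_pos hi20]
    unfold pfc
    rw [factor2 hp hr1 hr2 hj4 hj7 e, PowerSeries.coeff_C_mul]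
    have h1 := coeff_mul_UC (p := p) (by positivity) (FM_PB hp hj4 hj7 e) (GM_UC hp hr1 hr2 j e) (8 - i)
    have h2 := FM_coeff hp0 hj4 hj7 e (8 - i)
    set X1 := PowerSeries.coeff (8 - i) (FM p j e * GM p r (r + j * p) e) with hX1
    set X2 := PowerSeries.coeff (8 - i) (FM p j e) with hX2
    have hpow : (p : ℚ) ^ 10 * ((p : ℚ)⁻¹) ^ 72 * (p : ℚ) ^ e * ((p : ℚ)⁻¹) ^ (8 - i) * (p : ℚ) ^ 70 =
        (p : ℚ) ^ (i + e) := by
      have h3 : ((p : ℚ)⁻¹) ^ (8 - i) * (p : ℚ) ^ 8 = (p : ℚ) ^ i := by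
        have h4 : (p : ℚ) ^ 8 = (p : ℚ) ^ (8 - i) * (p : ℚ) ^ i := by
          rw [← pow_add, Nat.sub_add_cancel hi20]
        rw [h4, ← mul_assoc, ← mul_pow, inv_mul_cancel₀ hp0, one_pow, one_mul]
      have h5 : ((p : ℚ)⁻¹) ^ 72 * (p : ℚ) ^ 72 = 1 := by
        rw [← mul_pow, inv_mul_cancel₀ hp0, one_pow]
      calc (p : ℚ) ^ 10 * ((p : ℚ)⁻¹) ^ 72 * (p : ℚ) ^ e * ((p : ℚ)⁻¹) ^ (8 - i) * (p : ℚ) ^ 70
          = (((p : ℚ)⁻¹) ^ 72 * (p : ℚ) ^ 72) * (p : ℚ) ^ e * (((p : ℚ)⁻¹) ^ (8 - i) * (p : ℚ) ^ 8) := by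
            ring
        _ = (p : ℚ) ^ (i + e) := by rw [h3, h5, pow_add]; ring
    have h6 : cM p * X1 / (p : ℚ) ^ (i + e) -
        cM p / (p : ℚ) ^ 70 * wM p r * (-2 * (r : ℚ)) ^ e * PowerSeries.coeff (8 - i) (ser j e) =
        cM p / (p : ℚ) ^ (i + e) * (X1 - X2 * (wM p r * (-2 * (r : ℚ)) ^ e)) := by
      rw [h2, mul_sub]
      congr 1
      · ring
      · rw [← hpow]
        have h7 : ((p : ℚ)⁻¹) ^ 72 ≠ 0 := by positivity
        have h8 : ((p : ℚ)⁻¹) ^ (8 - i) ≠ 0 := by positivity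
        generalize ((p : ℚ)⁻¹) ^ 72 = c1 at *
        generalize ((p : ℚ)⁻¹) ^ (8 - i) = c2 at *
        field_simp
    rw [h6, padicNorm.mul, padicNorm.div, hcst, padicNorm_pow', padicNorm.padicNorm_p_of_prime]
    calc ((p : ℚ)⁻¹) ^ 70 / ((p : ℚ)⁻¹) ^ (i + e) *
          padicNorm p (X1 - X2 * (wM p r * (-2 * (r : ℚ)) ^ e))
        ≤ ((p : ℚ)⁻¹) ^ 70 / ((p : ℚ)⁻¹) ^ (i + e) *
          (((p : ℚ)⁻¹) ^ 6 * (((p : ℚ)⁻¹) ^ 2) ^ 2 * (p : ℚ) ^ 72 * ((p : ℚ)⁻¹) ^ e * (p : ℚ)⁻¹ *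
            (p : ℚ) ^ (8 - i)) :=
          mul_le_mul_of_nonneg_left h1 (by positivity)
      _ = (p : ℚ)⁻¹ := by
        have h9 : (p : ℚ) ^ (8 - i) * ((p : ℚ)⁻¹) ^ 8 = ((p : ℚ)⁻¹) ^ i := by
          have h4 : ((p : ℚ)⁻¹) ^ 8 = ((p : ℚ)⁻¹) ^ (8 - i) * ((p : ℚ)⁻¹) ^ i := by
            rw [← pow_add, Nat.sub_add_cancel hi20]
          rw [h4, ← mul_assoc, ← mul_pow, mul_inv_cancel₀ hp0, one_pow, one_mul]
        have h5 : ((p : ℚ)⁻¹) ^ 72 * (p : ℚ) ^ 72 = 1 := by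
          rw [← mul_pow, inv_mul_cancel₀ hp0, one_pow]
        have h10 : ((p : ℚ)⁻¹) ^ (i + e) ≠ 0 := by positivity
        rw [div_mul_eq_mul_div, div_eq_iff h10]
        calc ((p : ℚ)⁻¹) ^ 70 *
            (((p : ℚ)⁻¹) ^ 6 * (((p : ℚ)⁻¹) ^ 2) ^ 2 * (p : ℚ) ^ 72 * ((p : ℚ)⁻¹) ^ e * (p : ℚ)⁻¹ *
              (p : ℚ) ^ (8 - i))
            = (((p : ℚ)⁻¹) ^ 72 * (p : ℚ) ^ 72) * ((p : ℚ) ^ (8 - i) * ((p : ℚ)⁻¹) ^ 8) *
              (((p : ℚ)⁻¹) ^ e * (p : ℚ)⁻¹) := by ring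
          _ = (p : ℚ)⁻¹ * ((p : ℚ)⁻¹) ^ (i + e) := by
            rw [h5, h9, pow_add]; ring

end

end Pool.Agent.Dim7
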