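import Pool.Agent.Dim7.Iface

/-! Task H4: the off-diagonal entries (`n = p`); `H4_offdiag_of (h : St_C1_pa) : St_H4_offdiag`. -/

open Polynomial Pool.Agent.H337R2

namespace Pool.Agent.Dim7.H4

noncomputable section

section off

variable {p : ℕ} [hp : Fact p.Prime]

lemma H4_norm_zpow (z : ℤ) : padicNorm p ((p : ℚ) ^ z) = (p : ℚ) ^ (-z) := by
  have h1 : ∀ n : ℕ, padicNorm p ((p : ℚ) ^ n) = (p : ℚ) ^ (-(n : ℤ)) := by
    intro n
    rw [padicNorm_pow', padicNorm.padicNorm_p hp.out.one_lt, inv_pow, zpow_neg, zpow_natCast]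
  cases z with
  | ofNat n => rw [Int.ofNat_eq_natCast, zpow_natCast]; exact h1 n
  | negSucc n =>
    rw [zpow_negSucc, ← one_div, padicNorm.div, padicNorm.one, h1, Int.neg_negSucc, one_div,
      ← zpow_neg, neg_neg]

/-- the exponents `e_p(k)` for `n = p` -/
lemma H4_ee (k : ℕ) : eM p p k = if (p : ℤ) ∣ (k : ℤ) then 8 else 0 := by
  have hp' : (0 : ℤ) < p := by exact_mod_cast hp.out.pos
  have hp0 : 0 < p := hp.out.pos
  have a3 := succ_ediv' (p : ℤ) hp' (-(k : ℤ) - 1)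
  rw [sub_add_cancel] at a3
  have b0 : ∀ c : ℕ, (((c * p : ℕ) : ℤ) - k) / p = (-(k : ℤ)) / p + c := by
    intro c
    rw [show (((c * p : ℕ) : ℤ) - k) = -(k : ℤ) + c * p by push_cast; ring,
      Int.add_mul_ediv_right _ _ hp'.ne']
  have b1 : ∀ c : ℕ, (((c * p : ℕ) : ℤ) - 1 - k) / p = (-(k : ℤ) - 1) / p + c := by
    intro c
    rw [show (((c * p : ℕ) : ℤ) - 1 - k) = (-(k : ℤ) - 1) + c * p by push_cast; ring,
      Int.add_mul_ediv_right _ _ hp'.ne']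
  have b2 : ∀ c : ℕ, 1 ≤ c → (((c * p - 1 : ℕ) : ℤ) - k) / p = (-(k : ℤ) - 1) / p + c := by
    intro c hc
    have h1 : 1 ≤ c * p := Nat.mul_pos hc hp0
    rw [show (((c * p - 1 : ℕ) : ℤ) - k) = (-(k : ℤ) - 1) + c * p by
        rw [Nat.cast_sub h1]; push_cast; ring,
      Int.add_mul_ediv_right _ _ hp'.ne']
  have b3 : ∀ c : ℕ, (((c * p + 1 : ℕ) : ℤ) - 1 - k) / p = (-(k : ℤ)) / p + c := by
    intro c
    rw [show (((c * p + 1 : ℕ) : ℤ) - 1 - k) = -(k : ℤ) + c * p by push_cast; ring,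
      Int.add_mul_ediv_right _ _ hp'.ne']
  have b4 : (((0 : ℕ) : ℤ) - 1 - k) / p = (-(k : ℤ) - 1) / p := by
    congr 1; push_cast; ring
  have e1 : (Np p p k : ℤ) = 10 + if (p : ℤ) ∣ (k : ℤ) then 1 else 0 := by
    unfold Np
    rw [cnt_eq p _ _ k hp0 (by omega), b0, b1, a3]
    simp only [Int.dvd_neg]
    push_cast
    ring
  have e2 : (Zp p p k : ℤ) = 10 := by
    unfold Zp
    push_cast
    rw [cnt_eq p _ _ k hp0 (by omega), cnt_eq p _ _ k hp0 (by omega), cnt_eq p _ _ k hp0 (by omega),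
      cnt_eq p _ _ k hp0 (by omega), b2 3 (by norm_num), b4, b0, b3, b2 4 (by norm_num), b1, b0, b3]
    push_cast
    ring
  have e3 : 10 * p / p = 10 := Nat.mul_div_cancel 10 hp0
  have e4 : 3 * p / p = 3 := Nat.mul_div_cancel 3 hp0
  have e5 : p / p = 1 := Nat.div_self hp0
  unfold eM fM oM
  rw [e1, e2, e3, e4, e5]
  split_ifs <;> norm_num

/-- a linear factor -/
lemma H4_lin (k : ℕ) (c : ℤ) (A : ℚ) (hA : A = 1 ∨ (A = (p : ℚ)⁻¹ ∧ (p : ℤ) ∣ c - k)) :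
    PB p (p : ℚ) A (PowerSeries.X + PowerSeries.C (-(k : ℚ) + (c : ℚ))) := by
  have hp0 : (0 : ℚ) ≤ p := p_pos'.le
  have hle := norm_le_ite (p := p) (c - k)
  have he : ((c - k : ℤ) : ℚ) = -(k : ℚ) + c := by push_cast; ring
  rw [he] at hle
  rcases hA with rfl | ⟨rfl, hd⟩
  · apply PB.linX hp0 zero_le_one
    · refine hle.trans ?_
      split_ifs
      · exact inv_le_one_of_one_le₀ p_one'
      · exact le_rfl
    · rw [one_mul]; exact p_one'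
  · rw [if_pos hd] at hle
    apply PB.linX hp0 (inv_nonneg.2 hp0) hle
    rw [inv_mul_cancel₀ p_pos'.ne']

lemma H4_XN_comp (p r : ℕ) : (XN p r).comp (xM p) =
    (X + C ((r : ℤ) : ℚ)) * (X + C (((16 * p - r : ℤ)) : ℚ)) := by
  unfold XN xM
  simp only [sub_comp, X_comp, C_comp, pow_comp]
  push_cast
  simp only [map_mul, map_sub, map_natCast, map_ofNat]
  ring

/-- the size of a node at the pole `k` -/
def H4_a (p k r : ℕ) : ℚ :=
  if (p : ℤ) ∣ (r : ℤ) - k ∨ (p : ℤ) ∣ (16 * p - r : ℤ) - k then (p : ℚ)⁻¹ else 1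

lemma H4_a_nonneg (k r : ℕ) : 0 ≤ H4_a p k r := by
  unfold H4_a; split_ifs
  · exact inv_nonneg.2 p_pos'.le
  · exact zero_le_one

lemma H4_a_le_one (k r : ℕ) : H4_a p k r ≤ 1 := by
  unfold H4_a; split_ifs
  · exact inv_le_one_of_one_le₀ p_one'
  · exact le_rfl

lemma H4_node (k r : ℕ) : PB p (p : ℚ) (H4_a p k r) (TS (-(k : ℚ)) ((XN p r).comp (xM p))) := by
  have hp0 : (0 : ℚ) ≤ p := p_pos'.le
  have hinv : (0 : ℚ) ≤ (p : ℚ)⁻¹ := inv_nonneg.2 hp0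
  rw [H4_XN_comp, map_mul, TS_lin, TS_lin]
  unfold H4_a
  split_ifs with h
  · rcases h with h | h
    · have := PB.mul hp0 hinv zero_le_one (H4_lin k (r : ℤ) _ (Or.inr ⟨rfl, h⟩))
        (H4_lin (p := p) k (16 * p - r : ℤ) 1 (Or.inl rfl))
      rwa [mul_one] at this
    · have := PB.mul hp0 zero_le_one hinv (H4_lin (p := p) k (r : ℤ) 1 (Or.inl rfl))
        (H4_lin k (16 * p - r : ℤ) _ (Or.inr ⟨rfl, h⟩))
      rwa [one_mul] at this
  · have := PB.mul hp0 zero_le_one zero_le_one (H4_lin (p := p) k (r : ℤ) 1 (Or.inl rfl))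
        (H4_lin (p := p) k (16 * p - r : ℤ) 1 (Or.inl rfl))
    rwa [one_mul] at this

/-- the factor `x ^ 34` -/
def H4_b (p k : ℕ) : ℚ := if (p : ℤ) ∣ (k : ℤ) then ((p : ℚ)⁻¹) ^ 68 else 1

lemma H4_b_nonneg (k : ℕ) : 0 ≤ H4_b p k := by
  unfold H4_b; split_ifs
  · exact pow_nonneg (inv_nonneg.2 p_pos'.le) _
  · exact zero_le_one

lemma H4_b_le_one (k : ℕ) : H4_b p k ≤ 1 := by
  unfold H4_b; split_ifs
  · exact pow_le_one₀ (inv_nonneg.2 p_pos'.le) (inv_le_one_of_one_le₀ p_one')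
  · exact le_rfl

lemma H4_x20 (k : ℕ) : PB p (p : ℚ) (H4_b p k) (TS (-(k : ℚ)) ((xM p) ^ 34)) := by
  have hp0 : (0 : ℚ) ≤ p := p_pos'.le
  have hinv : (0 : ℚ) ≤ (p : ℚ)⁻¹ := inv_nonneg.2 hp0
  have e1 : (xM p) ^ 34 = (X + C ((8 * p : ℤ) : ℚ)) ^ 68 := by
    unfold xM
    rw [← pow_mul]
    congr 3
  rw [e1, map_pow, TS_lin]
  unfold H4_b
  split_ifs with h
  · have h1 : (p : ℤ) ∣ (8 * p : ℤ) - k := (Dvd.intro_left _ rfl).sub h
    exact PB.pow hp0 hinv (H4_lin k (8 * p : ℤ) _ (Or.inr ⟨rfl, h1⟩)) 68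
  · have h3 := PB.pow hp0 zero_le_one (H4_lin (p := p) k (8 * p : ℤ) 1 (Or.inl rfl)) 68
    simpa using h3

lemma H4_prod_le {ι : Type*} [DecidableEq ι] (S : Finset ι) (f : ι → ℚ) (h0 : ∀ i, 0 ≤ f i) (h1 : ∀ i, f i ≤ 1)
    (i : ι) (hi : i ∈ S) : ∏ j ∈ S, f j ≤ f i := by
  rw [← Finset.mul_prod_erase S f hi]
  have := Finset.prod_le_one (s := S.erase i) (f := f) (fun j _ => h0 j) (fun j _ => h1 j)
  exact mul_le_of_le_one_right (h0 i) this

lemma H4_prod_le_one {ι : Type*} (S : Finset ι) (f : ι → ℚ) (h0 : ∀ i, 0 ≤ f i) (h1 : ∀ i, f i ≤ 1) :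
    ∏ j ∈ S, f j ≤ 1 := Finset.prod_le_one (fun j _ => h0 j) (fun j _ => h1 j)

/-- the total bound at the pole `k` -/
def H4_A (p r s l l' k : ℕ) : ℚ :=
  H4_b p k * ((H4_a p k r ^ l * ∏ r' ∈ (Finset.Icc 1 ((p - 1) / 2)).erase r, H4_a p k r' ^ 40) *
    (H4_a p k s ^ l' * ∏ r' ∈ (Finset.Icc 1 ((p - 1) / 2)).erase s, H4_a p k r' ^ 20))

lemma H4_A_nonneg (r s l l' k : ℕ) : 0 ≤ H4_A p r s l l' k := by
  unfold H4_A
  have h1 := H4_b_nonneg (p := p) k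
  have h2 : ∀ r, 0 ≤ H4_a p k r := fun r => H4_a_nonneg k r
  have h3 : ∀ (c : ℕ) (S : Finset ℕ), 0 ≤ ∏ r' ∈ S, H4_a p k r' ^ c := fun c S =>
    Finset.prod_nonneg fun i _ => pow_nonneg (h2 i) _
  exact mul_nonneg h1 (mul_nonneg (mul_nonneg (pow_nonneg (h2 _) _) (h3 _ _))
    (mul_nonneg (pow_nonneg (h2 _) _) (h3 _ _)))

lemma H4_PB (r s l l' k : ℕ) : PB p (p : ℚ) (H4_A p r s l l' k) (TS (-(k : ℚ)) (EM p
    ((XN p r ^ l * OT p r 40) * (XN p s ^ l' * OT p s 20)))) := by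
  have hp0 : (0 : ℚ) ≤ p := p_pos'.le
  have h2 : ∀ r, 0 ≤ H4_a p k r := fun r => H4_a_nonneg k r
  have h3 : ∀ (c : ℕ) (S : Finset ℕ), 0 ≤ ∏ r' ∈ S, H4_a p k r' ^ c := fun c S =>
    Finset.prod_nonneg fun i _ => pow_nonneg (h2 i) _
  unfold EM H4_A OT
  simp only [mul_comp, pow_comp, prod_comp, X_comp]
  rw [map_mul, map_mul, map_mul, map_mul, map_prod, map_prod,
    map_pow (TS (-(k : ℚ))) ((XN p r).comp (xM p)),
    map_pow (TS (-(k : ℚ))) ((XN p s).comp (xM p))]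
  have hprod : ∀ (c : ℕ) (S : Finset ℕ), PB p (p : ℚ) (∏ r' ∈ S, H4_a p k r' ^ c)
      (∏ r' ∈ S, TS (-(k : ℚ)) (((XN p r').comp (xM p)) ^ c)) := by
    intro c S
    apply PB.prod _ _ _ hp0
    · intro i _; exact pow_nonneg (h2 i) _
    · intro i _
      rw [map_pow]
      exact PB.pow hp0 (h2 i) (H4_node k i) c
  refine PB.mul hp0 (H4_b_nonneg k) (mul_nonneg (mul_nonneg (pow_nonneg (h2 _) _) (h3 _ _))
    (mul_nonneg (pow_nonneg (h2 _) _) (h3 _ _))) (H4_x20 k) ?_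
  refine PB.mul hp0 (mul_nonneg (pow_nonneg (h2 _) _) (h3 _ _))
    (mul_nonneg (pow_nonneg (h2 _) _) (h3 _ _)) ?_ ?_
  · exact PB.mul hp0 (pow_nonneg (h2 _) _) (h3 _ _) (PB.pow hp0 (h2 _) (H4_node k r) l) (hprod _ _)
  · exact PB.mul hp0 (pow_nonneg (h2 _) _) (h3 _ _) (PB.pow hp0 (h2 _) (H4_node k s) l') (hprod _ _)

/-- numerical value of the bound -/
lemma H4_A_le (r s l l' : ℕ) (hr1 : 1 ≤ r) (hr2 : 2 * r < p) (hs1 : 1 ≤ s)
    (hs2 : 2 * s < p) (hrs : r ≠ s) (hl : l < 40) (hl' : l' < 20) (hp100 : 100 ≤ p) (k : ℕ) :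
    (p : ℚ) ^ (((l : ℤ) + l') + eM p p k) * H4_A p r s l l' k ≤ (p : ℚ)⁻¹ := by
  have hp1 : (1 : ℚ) ≤ p := p_one'
  have hp0 : (0 : ℚ) < p := p_pos'
  have h2 : ∀ r, 0 ≤ H4_a p k r := fun r => H4_a_nonneg k r
  have h2' : ∀ r, H4_a p k r ≤ 1 := fun r => H4_a_le_one k r
  have h2p : ∀ c r, H4_a p k r ^ c ≤ 1 := fun c r => pow_le_one₀ (h2 r) (h2' r)
  have h2n : ∀ c r, 0 ≤ H4_a p k r ^ c := fun c r => pow_nonneg (h2 r) _
  have h3 : ∀ (c : ℕ) (S : Finset ℕ), 0 ≤ ∏ r' ∈ S, H4_a p k r' ^ c := fun c S =>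
    Finset.prod_nonneg fun i _ => h2n c i
  have h3' : ∀ (c : ℕ) (S : Finset ℕ), ∏ r' ∈ S, H4_a p k r' ^ c ≤ 1 := fun c S =>
    H4_prod_le_one S _ (h2n c) (h2p c)
  have hb0 := H4_b_nonneg (p := p) k
  have hb1 := H4_b_le_one (p := p) k
  have hal : H4_a p k r ^ l ≤ 1 := pow_le_one₀ (h2 r) (h2' r)
  have hal' : H4_a p k s ^ l' ≤ 1 := pow_le_one₀ (h2 s) (h2' s)
  have hal0 : 0 ≤ H4_a p k r ^ l := pow_nonneg (h2 r) _
  have hal0' : 0 ≤ H4_a p k s ^ l' := pow_nonneg (h2 s) _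
  have hrI : r ∈ Finset.Icc 1 ((p - 1) / 2) := by rw [Finset.mem_Icc]; omega
  have hsI : s ∈ Finset.Icc 1 ((p - 1) / 2) := by rw [Finset.mem_Icc]; omega
  -- reduction to an exponent
  have fin : ∀ m : ℕ, H4_A p r s l l' k ≤ ((p : ℚ)⁻¹) ^ m → (l : ℤ) + l' + eM p p k - m ≤ -1 →
      (p : ℚ) ^ (((l : ℤ) + l') + eM p p k) * H4_A p r s l l' k ≤ (p : ℚ)⁻¹ := by
    intro m h4 h5
    calc (p : ℚ) ^ (((l : ℤ) + l') + eM p p k) * H4_A p r s l l' k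
        ≤ (p : ℚ) ^ (((l : ℤ) + l') + eM p p k) * ((p : ℚ)⁻¹) ^ m :=
          mul_le_mul_of_nonneg_left h4 (zpow_nonneg hp0.le _)
      _ = (p : ℚ) ^ ((l : ℤ) + l' + eM p p k - m) := by
          rw [inv_pow, ← zpow_natCast, ← zpow_neg, ← zpow_add₀ hp0.ne']
          congr 1
      _ ≤ (p : ℚ) ^ (-1 : ℤ) := zpow_le_zpow_right₀ hp1 h5
      _ = (p : ℚ)⁻¹ := zpow_neg_one _
  by_cases hk : (p : ℤ) ∣ (k : ℤ)
  · apply fin 68
    · unfold H4_A
      have e1 : H4_b p k = ((p : ℚ)⁻¹) ^ 68 := by unfold H4_b; rw [if_pos hk]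
      rw [e1]
      apply mul_le_of_le_one_right (by positivity)
      refine mul_le_one₀ (mul_le_one₀ hal (h3 _ _) (h3' _ _)) (mul_nonneg hal0' (h3 _ _))
        (mul_le_one₀ hal' (h3 _ _) (h3' _ _))
    · rw [H4_ee, if_pos hk]; push_cast; omega
  · have hee : eM p p k = 0 := by rw [H4_ee, if_neg hk]
    -- the class of k
    obtain ⟨c, hc1, hc2, hc⟩ : ∃ c : ℕ, 1 ≤ c ∧ c ≤ (p - 1) / 2 ∧
        ((p : ℤ) ∣ (c : ℤ) - k ∨ (p : ℤ) ∣ (16 * p - c : ℤ) - k) := by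
      have h5 : k % p < p := Nat.mod_lt _ hp.out.pos
      have h6 : 1 ≤ k % p := by
        rcases Nat.eq_zero_or_pos (k % p) with h | h
        · exfalso; apply hk
          exact_mod_cast Nat.dvd_of_mod_eq_zero h
        · exact h
      have h7 : p * (k / p) + k % p = k := Nat.div_add_mod k p
      have h7z : (p : ℤ) * ((k / p : ℕ) : ℤ) + ((k % p : ℕ) : ℤ) = k := by exact_mod_cast h7
      have hodd : p % 2 = 1 := by
        rcases hp.out.eq_two_or_odd with h | h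
        · omega
        · exact h
      by_cases h8 : k % p ≤ (p - 1) / 2
      · refine ⟨k % p, h6, h8, Or.inl ⟨-((k / p : ℕ) : ℤ), ?_⟩⟩
        linarith
      · refine ⟨p - k % p, by omega, by omega, Or.inr ⟨15 - ((k / p : ℕ) : ℤ), ?_⟩⟩
        rw [Nat.cast_sub h5.le]
        linarith
    have hac : H4_a p k c = (p : ℚ)⁻¹ := by unfold H4_a; rw [if_pos hc]
    by_cases hcr : c = r
    · subst hcr
      apply fin (l + 20)
      · unfold H4_A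
        have e1 : ∏ r' ∈ (Finset.Icc 1 ((p - 1) / 2)).erase s, H4_a p k r' ^ 20 ≤ H4_a p k c ^ 20 :=
          H4_prod_le _ (fun r' => H4_a p k r' ^ 20) (h2n 20) (h2p 20) c (Finset.mem_erase.2 ⟨hrs, hrI⟩)
        rw [pow_add, ← hac]
        calc _ ≤ 1 * ((H4_a p k c ^ l * 1) * (1 * H4_a p k c ^ 20)) := by
              apply mul_le_mul hb1 _ (mul_nonneg (mul_nonneg hal0 (h3 _ _)) (mul_nonneg hal0' (h3 _ _))) zero_le_one
              apply mul_le_mul _ _ (mul_nonneg hal0' (h3 _ _)) (by rw [mul_one]; exact hal0)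
              · exact mul_le_mul_of_nonneg_left (h3' _ _) hal0
              · exact mul_le_mul hal' e1 (h3 _ _) zero_le_one
          _ = _ := by ring
      · rw [hee]; push_cast; omega
    · by_cases hcs : c = s
      · subst hcs
        apply fin (l' + 40)
        · unfold H4_A
          have e1 : ∏ r' ∈ (Finset.Icc 1 ((p - 1) / 2)).erase r, H4_a p k r' ^ 40 ≤ H4_a p k c ^ 40 :=
            H4_prod_le _ (fun r' => H4_a p k r' ^ 40) (h2n 40) (h2p 40) c (Finset.mem_erase.2 ⟨hcr, hsI⟩)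
          rw [pow_add, ← hac]
          calc _ ≤ 1 * ((1 * H4_a p k c ^ 40) * (H4_a p k c ^ l' * 1)) := by
                apply mul_le_mul hb1 _ (mul_nonneg (mul_nonneg hal0 (h3 _ _)) (mul_nonneg hal0' (h3 _ _))) zero_le_one
                apply mul_le_mul _ _ (mul_nonneg hal0' (h3 _ _)) (by rw [one_mul]; exact h2n _ _)
                · exact mul_le_mul hal e1 (h3 _ _) zero_le_one
                · exact mul_le_mul_of_nonneg_left (h3' _ _) hal0'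
            _ = _ := by ring
        · rw [hee]; push_cast; omega
      · apply fin 60
        · unfold H4_A
          have hcI : c ∈ Finset.Icc 1 ((p - 1) / 2) := Finset.mem_Icc.2 ⟨hc1, hc2⟩
          have e1 : ∏ r' ∈ (Finset.Icc 1 ((p - 1) / 2)).erase r, H4_a p k r' ^ 40 ≤ H4_a p k c ^ 40 :=
            H4_prod_le _ (fun r' => H4_a p k r' ^ 40) (h2n 40) (h2p 40) c (Finset.mem_erase.2 ⟨hcr, hcI⟩)
          have e2 : ∏ r' ∈ (Finset.Icc 1 ((p - 1) / 2)).erase s, H4_a p k r' ^ 20 ≤ H4_a p k c ^ 20 :=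
            H4_prod_le _ (fun r' => H4_a p k r' ^ 20) (h2n 20) (h2p 20) c (Finset.mem_erase.2 ⟨hcs, hcI⟩)
          rw [show (60 : ℕ) = 40 + 20 from rfl, pow_add, ← hac]
          calc _ ≤ 1 * ((1 * H4_a p k c ^ 40) * (1 * H4_a p k c ^ 20)) := by
                apply mul_le_mul hb1 _ (mul_nonneg (mul_nonneg hal0 (h3 _ _)) (mul_nonneg hal0' (h3 _ _))) zero_le_one
                apply mul_le_mul _ _ (mul_nonneg hal0' (h3 _ _)) (by rw [one_mul]; exact h2n _ _)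
                · exact mul_le_mul hal e1 (h3 _ _) zero_le_one
                · exact mul_le_mul hal' e2 (h3 _ _) zero_le_one
            _ = _ := by ring
        · rw [hee]; push_cast; omega

/-- `xa` is small if all partial fraction coefficients are -/
lemma H4_xa_le (α : ℕ → ℚ) (hα : ∀ i, padicNorm p (α i) ≤ 1) (hp100 : 100 ≤ p) (P : ℚ[X]) (W : ℚ)
    (hW : 0 ≤ W) (h : ∀ k ∈ sM p, ∀ i, padicNorm p (pa (sM p) mM P k i) * (p : ℚ) ^ i ≤ W) :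
    padicNorm p (xa p α P) ≤ W := by
  have hp1 : (1 : ℚ) ≤ p := p_one'
  unfold xa rho
  apply padicNorm.sum_le' _ hW
  intro i _
  refine padicNorm.sub.trans (max_le ?_ ?_)
  · rw [Finset.sum_mul]
    apply padicNorm.sum_le' _ hW
    intro k hk
    rw [padicNorm.mul]
    refine le_trans ?_ (h k hk i)
    apply mul_le_mul_of_nonneg_left _ (padicNorm.nonneg _)
    exact (hα i).trans (one_le_pow₀ hp1)
  · apply padicNorm.sum_le' _ hW
    intro k hk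
    rw [padicNorm.mul]
    refine le_trans ?_ (h k hk i)
    apply mul_le_mul_of_nonneg_left _ (padicNorm.nonneg _)
    apply hs_norm_med
    rw [sM, Finset.mem_Icc] at hk
    have : 16 * p < p * p := Nat.mul_lt_mul_of_pos_right (by omega) hp.out.pos
    rw [sq]
    omega

/-- `xb` is small if all partial fraction coefficients are -/
lemma H4_xb_le (β : ℕ → ℚ) (hβ : ∀ i, padicNorm p (β i) ≤ 1) (i0 : ℕ) (hβ0 : ∀ i < i0, β i = 0)
    (P : ℚ[X]) (W : ℚ)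
    (hW : 0 ≤ W) (h : ∀ k ∈ sM p, ∀ i, i0 ≤ i → padicNorm p (pa (sM p) mM P k i) ≤ W) :
    padicNorm p (xb p β P) ≤ W := by
  unfold xb rho
  apply padicNorm.sum_le' _ hW
  intro i _
  by_cases hi : i < i0
  · rw [hβ0 i hi, mul_zero, padicNorm.zero]; exact hW
  · rw [Finset.sum_mul]
    apply padicNorm.sum_le' _ hW
    intro k hk
    rw [padicNorm.mul]
    refine le_trans ?_ (h k hk i (not_lt.1 hi))
    exact mul_le_of_le_one_right (padicNorm.nonneg _) (hβ i)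

/-- `H4_offdiag`, from `C1_pa` -/
theorem H4_offdiag_of
    (hC1 : ∀ (E : ℚ[X]) {k : ℕ}, k ∈ sM p → ∀ (A : ℚ), 0 ≤ A → PB p (p : ℚ) A (TS (-(k : ℚ)) E) →
      ∀ i : ℕ, padicNorm p (pa (sM p) mM (PM p * E) k i) ≤
        (p : ℚ) ^ (eM p p k - i : ℤ) * A)
    (hp100 : 100 ≤ p) (α β : ℕ → ℚ) (hα : ∀ i, padicNorm p (α i) ≤ 1)
    (hβ : ∀ i, padicNorm p (β i) ≤ 1) (i0 : ℕ) (hβ0 : ∀ i < i0, β i = 0)
    (r s l l' : ℕ) (hr1 : 1 ≤ r) (hr2 : 2 * r < p) (hs1 : 1 ≤ s) (hs2 : 2 * s < p) (hrs : r ≠ s)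
    (hl : l < 40) (hl' : l' < 20) :
    padicNorm p ((p : ℚ) ^ (-(l : ℤ) - (l' : ℤ)) * AL p α
      ((XN p r ^ l * OT p r 40) * (XN p s ^ l' * OT p s 20))) ≤ (p : ℚ)⁻¹ ∧
    padicNorm p ((p : ℚ) ^ (-(l : ℤ) - (l' : ℤ) - i0) * BL p β
      ((XN p r ^ l * OT p r 40) * (XN p s ^ l' * OT p s 20))) ≤ (p : ℚ)⁻¹ := by
  have hp0 : (0 : ℚ) < p := p_pos'
  have hp1 : (1 : ℚ) ≤ p := p_one'
  set Q : ℚ[X] := (XN p r ^ l * OT p r 40) * (XN p s ^ l' * OT p s 20) with hQ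
  have hkey : ∀ k ∈ sM p, ∀ i : ℕ,
      padicNorm p (pa (sM p) mM (PM p * EM p Q) k i) ≤
        (p : ℚ) ^ (-(i : ℤ)) * ((p : ℚ) ^ (-(l : ℤ) - (l' : ℤ)) * (p : ℚ)⁻¹) := by
    intro k hk i
    have h1 := hC1 _ hk _ (H4_A_nonneg r s l l' k) (H4_PB r s l l' k) i
    have h2 := H4_A_le r s l l' hr1 hr2 hs1 hs2 hrs hl hl' hp100 k
    refine h1.trans ?_
    have e1 : (p : ℚ) ^ (eM p p k - i : ℤ) =
        (p : ℚ) ^ (-(i : ℤ)) * ((p : ℚ) ^ (-(l : ℤ) - (l' : ℤ)) *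
          (p : ℚ) ^ (((l : ℤ) + l') + eM p p k)) := by
      rw [← zpow_add₀ hp0.ne', ← zpow_add₀ hp0.ne']
      congr 1
      ring
    rw [e1, mul_assoc, mul_assoc]
    exact mul_le_mul_of_nonneg_left (mul_le_mul_of_nonneg_left h2 (by positivity)) (by positivity)
  constructor
  · rw [AL_apply, padicNorm.mul, H4_norm_zpow]
    have key := H4_xa_le α hα hp100 (PM p * EM p Q)
      ((p : ℚ) ^ (-(l : ℤ) - (l' : ℤ)) * (p : ℚ)⁻¹) (by positivity) (by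
        intro k hk i
        calc _ ≤ ((p : ℚ) ^ (-(i : ℤ)) * ((p : ℚ) ^ (-(l : ℤ) - (l' : ℤ)) * (p : ℚ)⁻¹)) * (p : ℚ) ^ i :=
              mul_le_mul_of_nonneg_right (hkey k hk i) (by positivity)
          _ = (p : ℚ) ^ (-(l : ℤ) - (l' : ℤ)) * (p : ℚ)⁻¹ * ((p : ℚ) ^ (-(i : ℤ)) * (p : ℚ) ^ i) := by ring
          _ = _ := by
              rw [zpow_neg, zpow_natCast, inv_mul_cancel₀ (pow_ne_zero _ hp0.ne'), mul_one])
    calc _ ≤ (p : ℚ) ^ (-(-(l : ℤ) - (l' : ℤ))) * ((p : ℚ) ^ (-(l : ℤ) - (l' : ℤ)) * (p : ℚ)⁻¹) :=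
          mul_le_mul_of_nonneg_left key (by positivity)
      _ = (p : ℚ)⁻¹ := by
          rw [← mul_assoc, ← zpow_add₀ hp0.ne', neg_add_cancel, zpow_zero, one_mul]
  · rw [BL_apply, padicNorm.mul, H4_norm_zpow]
    have key := H4_xb_le β hβ i0 hβ0 (PM p * EM p Q)
      ((p : ℚ) ^ (-(l : ℤ) - (l' : ℤ) - i0) * (p : ℚ)⁻¹) (by positivity) (by
        intro k hk i hi
        refine (hkey k hk i).trans ?_
        have e1 : (p : ℚ) ^ (-(l : ℤ) - (l' : ℤ) - i0) * (p : ℚ)⁻¹ =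
            (p : ℚ) ^ (-(i0 : ℤ)) * ((p : ℚ) ^ (-(l : ℤ) - (l' : ℤ)) * (p : ℚ)⁻¹) := by
          rw [← mul_assoc, ← zpow_add₀ hp0.ne']
          congr 2
          ring
        rw [e1]
        apply mul_le_mul_of_nonneg_right _ (by positivity)
        exact zpow_le_zpow_right₀ hp1 (by omega))
    calc _ ≤ (p : ℚ) ^ (-(-(l : ℤ) - (l' : ℤ) - i0)) * ((p : ℚ) ^ (-(l : ℤ) - (l' : ℤ) - i0) * (p : ℚ)⁻¹) :=
          mul_le_mul_of_nonneg_left key (by positivity)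
      _ = (p : ℚ)⁻¹ := by
          rw [← mul_assoc, ← zpow_add₀ hp0.ne', neg_add_cancel, zpow_zero, one_mul]

end off

end

end Pool.Agent.Dim7.H4

namespace Pool.Agent.Dim7

theorem H4_offdiag_of (hC1 : St_C1_pa) : St_H4_offdiag := by
  intro p _ hp α β hα hβ hβ0 r s l l' hr1 hr2 hs1 hs2 hrs hl hl'
  have h1 : 16 * p < p ^ 2 := by nlinarith
  exact H4.H4_offdiag_of (fun E k hk A hA hE i => hC1 (by omega) h1 E hk A hA hE i)
    (by omega) α β hα hβ 3 hβ0 r s l l' hr1 hr2 hs1 hs2 hrs hl hl'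

end Pool.Agent.Dim7
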