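import Pool.Agent.Dim7.Iface

/-!
# The local determinant is nonzero (port of `H574R2/D9/H5.lean`, modulo `17`)

The values `Fm e`, `Bm 3 e` are computed modulo `17` (truncated power series modulo `17`, stored as
digits in base `100`); the determinant is nonzero modulo `17`.
-/

open Polynomial Pool.Agent.H337R2

namespace Pool.Agent.Dim7

namespace H5

theorem fact17 : Fact (Nat.Prime 17) := ⟨by norm_num⟩

attribute [local instance] fact17

/-- `x` reduces to `n` modulo `17` -/
def Rl (x : ℚ) (n : ℕ) : Prop :=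
  ∃ z : ℤ_[17], (z : ℚ_[17]) = (x : ℚ_[17]) ∧ PadicInt.toZMod z = (n : ZMod 17)

theorem Rl.add {x y : ℚ} {m n : ℕ} (hx : Rl x m) (hy : Rl y n) : Rl (x + y) (m + n) := by
  obtain ⟨z, hz, hz'⟩ := hx
  obtain ⟨w, hw, hw'⟩ := hy
  exact ⟨z + w, by rw [PadicInt.coe_add, hz, hw, Rat.cast_add], by
    rw [map_add, hz', hw', Nat.cast_add]⟩

theorem Rl.mul {x y : ℚ} {m n : ℕ} (hx : Rl x m) (hy : Rl y n) : Rl (x * y) (m * n) := by
  obtain ⟨z, hz, hz'⟩ := hx
  obtain ⟨w, hw, hw'⟩ := hy
  exact ⟨z * w, by rw [PadicInt.coe_mul, hz, hw, Rat.cast_mul], by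
    rw [map_mul, hz', hw', Nat.cast_mul]⟩

theorem Rl.congr {x : ℚ} {m n : ℕ} (h : Rl x m) (hmn : m % 17 = n % 17) : Rl x n := by
  obtain ⟨z, hz, hz'⟩ := h
  refine ⟨z, hz, hz'.trans ?_⟩
  rw [← ZMod.natCast_mod m 17, hmn, ZMod.natCast_mod]

theorem Rl.nat (n : ℕ) : Rl (n : ℚ) n :=
  ⟨(n : ℤ_[17]), by rw [PadicInt.coe_natCast, Rat.cast_natCast], map_natCast _ _⟩

theorem Rl.neg_one : Rl (-1) 16 :=
  ⟨-1, by rw [PadicInt.coe_neg, PadicInt.coe_one, Rat.cast_neg, Rat.cast_one], by
    rw [map_neg, map_one]; decide⟩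

theorem Rl.neg {x : ℚ} {n : ℕ} (h : Rl x n) : Rl (-x) (16 * n) := by
  have := Rl.neg_one.mul h
  rwa [neg_one_mul] at this

theorem Rl.pow {x : ℚ} {n : ℕ} (h : Rl x n) (k : ℕ) : Rl (x ^ k) (n ^ k) := by
  induction k with
  | zero =>
    rw [pow_zero, pow_zero]
    exact_mod_cast Rl.nat 1
  | succ k ih => rw [pow_succ, pow_succ]; exact ih.mul h

theorem Rl.zero : Rl 0 0 := by
  exact_mod_cast Rl.nat 0

theorem Rl.one : Rl 1 1 := by
  exact_mod_cast Rl.nat 1

theorem Rl.sub_nat (i j : ℕ) : Rl ((i : ℚ) - j) (i + 16 * j) := by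
  rw [sub_eq_add_neg]
  exact (Rl.nat i).add (Rl.nat j).neg

theorem Rl.cancel {a x : ℚ} {m mi n : ℕ} (ha : Rl a m) (hm : m * mi % 17 = 1)
    (h : Rl (a * x) n) : Rl x (n * mi) := by
  obtain ⟨z, hz, hz'⟩ := ha
  obtain ⟨w, hw, hw'⟩ := h
  have h1 : (m : ZMod 17) * (mi : ZMod 17) = 1 := by
    rw [← Nat.cast_mul, ← ZMod.natCast_mod, hm, Nat.cast_one]
  have hne : PadicInt.toZMod z ≠ 0 := by
    rw [hz']
    intro h0
    rw [h0, zero_mul] at h1
    exact absurd h1 (by decide)
  have hu : IsUnit z := by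
    by_contra hcon
    have h2 : z ∈ IsLocalRing.maximalIdeal ℤ_[17] := (IsLocalRing.mem_maximalIdeal z).2 hcon
    rw [← PadicInt.ker_toZMod] at h2
    exact hne h2
  obtain ⟨u, rfl⟩ := hu
  have h3 : (((u : ℤ_[17]) : ℚ_[17])) * (((u⁻¹ : ℤ_[17]ˣ) : ℤ_[17]) : ℚ_[17]) = 1 := by
    rw [← PadicInt.coe_mul, Units.mul_inv, PadicInt.coe_one]
  have h4 : PadicInt.toZMod (u : ℤ_[17]) * PadicInt.toZMod ((u⁻¹ : ℤ_[17]ˣ) : ℤ_[17]) = 1 := by
    rw [← map_mul, Units.mul_inv, map_one]
  refine ⟨w * ((u⁻¹ : ℤ_[17]ˣ) : ℤ_[17]), ?_, ?_⟩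
  · rw [PadicInt.coe_mul, hw, Rat.cast_mul, ← hz]
    calc (((u : ℤ_[17]) : ℚ_[17])) * (x : ℚ_[17]) * (((u⁻¹ : ℤ_[17]ˣ) : ℤ_[17]) : ℚ_[17])
        = ((((u : ℤ_[17]) : ℚ_[17])) * (((u⁻¹ : ℤ_[17]ˣ) : ℤ_[17]) : ℚ_[17])) * (x : ℚ_[17]) := by ring
      _ = (x : ℚ_[17]) := by rw [h3, one_mul]
  · rw [map_mul, hw', Nat.cast_mul]
    congr 1
    rw [hz'] at h4
    calc PadicInt.toZMod ((u⁻¹ : ℤ_[17]ˣ) : ℤ_[17])
        = ((m : ZMod 17) * (mi : ZMod 17)) * PadicInt.toZMod ((u⁻¹ : ℤ_[17]ˣ) : ℤ_[17]) := by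
          rw [h1, one_mul]
      _ = (mi : ZMod 17) * ((m : ZMod 17) * PadicInt.toZMod ((u⁻¹ : ℤ_[17]ˣ) : ℤ_[17])) := by ring
      _ = (mi : ZMod 17) := by rw [h4, mul_one]

theorem Rl.sum {ι : Type} (s : Finset ι) (f : ι → ℚ) (g : ι → ℕ) (h : ∀ i ∈ s, Rl (f i) (g i)) :
    Rl (∑ i ∈ s, f i) (∑ i ∈ s, g i) := by
  classical
  induction s using Finset.induction_on with
  | empty => simpa using Rl.zero
  | insert a s ha ih =>
    rw [Finset.sum_insert ha, Finset.sum_insert ha]
    exact (h a (Finset.mem_insert_self a s)).add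
      (ih fun i hi => h i (Finset.mem_insert_of_mem hi))

/-- the digit `d` of `N` -/
def dg (N d : ℕ) : ℕ := N / 100 ^ d % 100

/-- `N` encodes the first eight coefficients of `f` modulo `17` -/
def Rep (f : PowerSeries ℚ) (N : ℕ) : Prop := ∀ d, d < 8 → Rl (PowerSeries.coeff d f) (dg N d)

/-- the digit before `d` -/
def pd (N : ℕ) : ℕ → ℕ
  | 0 => 0
  | d + 1 => dg N d

/-- `N'` is `(X + c) N` modulo `17` -/
def Chk (c N N' : ℕ) : Prop := ∀ d, d < 8 → dg N' d % 17 = (pd N d + c * dg N d) % 17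

instance (c N N' : ℕ) : Decidable (Chk c N N') := by
  unfold Chk
  infer_instance

theorem coeff_lin_zero (c : ℚ) (f : PowerSeries ℚ) :
    PowerSeries.coeff 0 ((PowerSeries.X + PowerSeries.C c) * f) = c * PowerSeries.coeff 0 f := by
  rw [add_mul, map_add, PowerSeries.coeff_C_mul, PowerSeries.coeff_zero_X_mul, zero_add]

theorem coeff_lin_succ (c : ℚ) (f : PowerSeries ℚ) (d : ℕ) :
    PowerSeries.coeff (d + 1) ((PowerSeries.X + PowerSeries.C c) * f) =
      PowerSeries.coeff d f + c * PowerSeries.coeff (d + 1) f := by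
  rw [add_mul, map_add, PowerSeries.coeff_C_mul, PowerSeries.coeff_succ_X_mul]

theorem rep_mul {f : PowerSeries ℚ} {N N' c : ℕ} {c' : ℚ} (h : Rep f N) (hc : Rl c' c)
    (hk : Chk c N N') : Rep ((PowerSeries.X + PowerSeries.C c') * f) N' := by
  intro d hd
  have h1 := hk d hd
  cases d with
  | zero =>
    rw [coeff_lin_zero]
    refine (hc.mul (h 0 hd)).congr ?_
    rw [h1]
    show _ = (0 + c * dg N 0) % 17
    rw [zero_add]
  | succ d =>
    rw [coeff_lin_succ]
    refine ((h d (by omega)).add (hc.mul (h (d + 1) hd))).congr ?_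
    rw [h1]
    rfl

theorem rep_div {g : PowerSeries ℚ} {N N' c ci : ℕ} {c' : ℚ}
    (h : Rep ((PowerSeries.X + PowerSeries.C c') * g) N') (hc : Rl c' c) (hci : c * ci % 17 = 1)
    (hk : Chk c N N') : Rep g N := by
  have key : ∀ a b x : ℕ, b % 17 = (a + c * x) % 17 → ((b + 16 * a) * ci) % 17 = x % 17 := by
    intro a b x hb
    have e1 : (b + 16 * a) % 17 = (c * x) % 17 := by omega
    calc ((b + 16 * a) * ci) % 17 = ((b + 16 * a) % 17 * (ci % 17)) % 17 := Nat.mul_mod _ _ _
      _ = ((c * x) % 17 * (ci % 17)) % 17 := by rw [e1]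
      _ = (c * x * ci) % 17 := (Nat.mul_mod _ _ _).symm
      _ = (c * ci * x) % 17 := by rw [mul_right_comm]
      _ = ((c * ci) % 17 * (x % 17)) % 17 := Nat.mul_mod _ _ _
      _ = x % 17 := by rw [hci, one_mul, Nat.mod_mod]
  intro d
  induction d with
  | zero =>
    intro hd
    have h1 := h 0 hd
    rw [coeff_lin_zero] at h1
    refine (hc.cancel hci h1).congr ?_
    have h2 := key 0 (dg N' 0) (dg N 0) (hk 0 hd)
    rwa [mul_zero, add_zero] at h2
  | succ d ih =>
    intro hd
    have h1 := h (d + 1) hd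
    rw [coeff_lin_succ] at h1
    have h2 := ih (by omega)
    have h3 : Rl (c' * PowerSeries.coeff (d + 1) g) (dg N' (d + 1) + 16 * dg N d) := by
      have h4 := h1.add h2.neg
      have h5 : PowerSeries.coeff d g + c' * PowerSeries.coeff (d + 1) g + -PowerSeries.coeff d g =
        c' * PowerSeries.coeff (d + 1) g := by ring
      rwa [h5] at h4
    exact (hc.cancel hci h3).congr (key (dg N d) (dg N' (d + 1)) (dg N (d + 1)) (hk (d + 1) hd))

theorem rep_iv_pow {a : ℚ} (ha : a ≠ 0) {c ci : ℕ} (hc : Rl a c) (hci : c * ci % 17 = 1)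
    (L : List ℕ) (f : PowerSeries ℚ) (h0 : Rep f (L.getD 0 0)) (n : ℕ)
    (hk : ∀ k < n, Chk c (L.getD (k + 1) 0) (L.getD k 0)) :
    Rep (iv a ^ n * f) (L.getD n 0) := by
  induction n with
  | zero => rwa [pow_zero, one_mul]
  | succ n ih =>
    have h1 := ih fun k hk' => hk k (by omega)
    refine rep_div (c' := a) (N' := L.getD n 0) ?_ hc hci (hk n (by omega))
    have h2 : (PowerSeries.X + PowerSeries.C a) * (iv a ^ (n + 1) * f) = iv a ^ n * f := by
      rw [pow_succ, ← mul_assoc, mul_comm (iv a ^ n) (iv a), ← mul_assoc, lin_mul_iv ha, one_mul]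
    rw [h2]
    exact h1

theorem rep_lin_pow {a : ℚ} {c : ℕ} (hc : Rl a c) (L : List ℕ) (f : PowerSeries ℚ)
    (h0 : Rep f (L.getD 0 0)) (e : ℕ)
    (hk : ∀ k < e, Chk c (L.getD k 0) (L.getD (k + 1) 0)) :
    Rep (f * (PowerSeries.X + PowerSeries.C a) ^ e) (L.getD e 0) := by
  induction e with
  | zero => rwa [pow_zero, mul_one]
  | succ e ih =>
    have h1 := ih fun k hk' => hk k (by omega)
    have h2 := rep_mul h1 hc (hk e (by omega))
    rwa [pow_succ, ← mul_assoc, mul_comm]

theorem rep_one : Rep 1 1 := by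
  intro d hd
  rw [PowerSeries.coeff_one]
  split_ifs with h
  · subst h
    exact Rl.one
  · have : dg 1 d = 0 := by
      unfold dg
      rw [Nat.div_eq_of_lt (Nat.one_lt_pow h (by norm_num))]
    rw [this]
    exact Rl.zero

theorem assoc9 (z a b c d e f g h i : PowerSeries ℚ) :
    z * (a * (b * (c * (d * (e * (f * (g * (h * i)))))))) =
      a * (b * (c * (d * (e * (f * (g * (h * (i * z)))))))) := by
  ring


/-- the numerator -/
theorem prod_zeros (g : ℕ → PowerSeries ℚ) : ∏ i ∈ ({0, 1, 2, 13, 14, 15} : Finset ℕ), g i =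
    g 0 * (g 1 * (g 2 * (g 13 * (g 14 * g 15)))) := by
  rw [Finset.prod_insert (by decide), Finset.prod_insert (by decide), Finset.prod_insert (by decide),
    Finset.prod_insert (by decide), Finset.prod_insert (by decide), Finset.prod_singleton]

theorem prod_outer (g : ℕ → PowerSeries ℚ) : (∏ i ∈ ({3, 12} : Finset ℕ), g i) ^ 2 =
    g 3 * (g 3 * (g 12 * g 12)) := by
  rw [Finset.prod_insert (by decide), Finset.prod_singleton]
  ring


theorem rep_zeros_3 : Rep ((∏ i ∈ ({0, 1, 2, 13, 14, 15} : Finset ℕ),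
    (PowerSeries.X + PowerSeries.C ((i : ℚ) - (3 : ℕ)))) *
    (∏ i ∈ ({3, 12} : Finset ℕ), (PowerSeries.X + PowerSeries.C ((i : ℚ) - (3 : ℕ)))) ^ 2) 1407091112090000 := by
  rw [prod_zeros fun i => PowerSeries.X + PowerSeries.C ((i : ℚ) - (3 : ℕ)),
    prod_outer fun i => PowerSeries.X + PowerSeries.C ((i : ℚ) - (3 : ℕ))]
  have h1 := rep_mul (N' := 109) rep_one (Rl.sub_nat 12 3) (by decide +kernel)
  have h2 := rep_mul (N' := 10113) h1 (Rl.sub_nat 12 3) (by decide +kernel)
  have h3 := rep_mul (N' := 1011300) h2 (Rl.sub_nat 3 3) (by decide +kernel)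
  have h4 := rep_mul (N' := 101130000) h3 (Rl.sub_nat 3 3) (by decide +kernel)
  have h5 := rep_mul (N' := 11308030000) h4 (Rl.sub_nat 15 3) (by decide +kernel)
  have h6 := rep_mul (N' := 1071506160000) h5 (Rl.sub_nat 14 3) (by decide +kernel)
  have h7 := rep_mul (N' := 100000308070000) h6 (Rl.sub_nat 13 3) (by decide +kernel)
  have h8 := rep_mul (N' := 1600030516100000) h7 (Rl.sub_nat 2 3) (by decide +kernel)
  have h9 := rep_mul (N' := 203160612140000) h8 (Rl.sub_nat 1 3) (by decide +kernel)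
  have h10 := rep_mul (N' := 1407091112090000) h9 (Rl.sub_nat 0 3) (by decide +kernel)
  rw [mul_one] at h10
  have e : ∀ a b c d e f g h : PowerSeries ℚ, (a * (b * (c * (d * (e * f))))) * (g * (g * (h * h))) =
      a * (b * (c * (d * (e * (f * (g * (g * (h * h)))))))) := by
    intros
    ring
  rw [e]
  exact h10

/-- division by `X + 9` (pole 3) -/
def D3_12 : List ℕ := [1407091112090000, 1009111205010000, 1005151206020000, 914151604040000, 407021409080000, 709110503160000, 1002080710150000, 408150911130000, 1613101004090000]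

theorem D3_12_chk : ∀ k < 8, Chk (12 + 16 * 3) (D3_12.getD (k + 1) 0) (D3_12.getD k 0) := by
  decide +kernel

/-- division by `X + 8` (pole 3) -/
def D3_11 : List ℕ := [1613101004090000, 912021107160000, 704140907020000, 811010612130000, 1415100609080000, 709110701010000, 1104110811150000, 1510090703040000, 601021012090000]

theorem D3_11_chk : ∀ k < 8, Chk (11 + 16 * 3) (D3_11.getD (k + 1) 0) (D3_11.getD k 0) := by
  decide +kernel

/-- division by `X + 7` (pole 3) -/
def D3_10 : List ℕ := [601021012090000, 302040805110000, 113131505040000, 1608080810030000, 904141209150000, 305031010070000, 612061211010000, 6041213050000, 905050308080000]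

theorem D3_10_chk : ∀ k < 8, Chk (10 + 16 * 3) (D3_10.getD (k + 1) 0) (D3_10.getD k 0) := by
  decide +kernel

/-- division by `X + 6` (pole 3) -/
def D3_9 : List ℕ := [905050308080000, 1504150003070000, 109010914040000, 1214100906120000, 1507060812020000, 203060401060000, 412161200010000, 1200121208030000, 1208031114090000]

theorem D3_9_chk : ∀ k < 8, Chk (9 + 16 * 3) (D3_9.getD (k + 1) 0) (D3_9.getD k 0) := by
  decide +kernel

/-- division by `X + 5` (pole 3) -/
def D3_8 : List ℕ := [1208031114090000, 202151314120000, 606060203160000, 403080002100000, 703050000020000, 102100604140000, 303040705130000, 3051310060000, 811161014080000]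

theorem D3_8_chk : ∀ k < 8, Chk (8 + 16 * 3) (D3_8.getD (k + 1) 0) (D3_8.getD k 0) := by
  decide +kernel

/-- division by `X + 4` (pole 3) -/
def D3_7 : List ℕ := [811161014080000, 200110603020000, 307060407090000, 1302161015150000, 1007080106080000, 1614020001020000, 705110915090000, 1210161500150000, 910040015080000]

theorem D3_7_chk : ∀ k < 8, Chk (7 + 16 * 3) (D3_7.getD (k + 1) 0) (D3_7.getD k 0) := by
  decide +kernel

/-- division by `X + 3` (pole 3) -/
def D3_6 : List ℕ := [910040015080000, 414021506140000, 911150808160000, 608040316110000, 1204131606150000, 1016070906050000, 1014080009130000, 204020211100000, 2150812090000]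

theorem D3_6_chk : ∀ k < 8, Chk (6 + 16 * 3) (D3_6.getD (k + 1) 0) (D3_6.getD k 0) := by
  decide +kernel

/-- division by `X + 2` (pole 3) -/
def D3_5 : List ℕ := [2150812090000, 1210160008130000, 911050605150000, 1611061003160000, 1013020206080000, 304050901040000, 3150908020000, 1308040712010000, 209070710090000]

theorem D3_5_chk : ∀ k < 8, Chk (5 + 16 * 3) (D3_5.getD (k + 1) 0) (D3_5.getD k 0) := by
  decide +kernel

/-- division by `X + 1` (pole 3) -/
def D3_4 : List ℕ := [209070710090000, 1108010601090000, 704041409090000, 1014071400090000, 1413010608090000, 1202110716090000, 408110007090000, 516090215090000, 203131306090000]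

theorem D3_4_chk : ∀ k < 8, Chk (4 + 16 * 3) (D3_4.getD (k + 1) 0) (D3_4.getD k 0) := by
  decide +kernel

/-- the series at the pole 3 -/
def T3 : List ℕ := [203131306090000, 1404080108070000, 1313110500130000, 806060213120000, 1605010707150000, 803040311060000, 1312080207160000, 706120112030000, 211160901080000, 500120805100000, 212061512040000, 604140102050000, 302101616020000, 1004030205110000, 808101613010000, 103031613140000, 11071609090000, 1108121216070000, 905101410130000, 1212010200120000, 1016161112150000, 302141313060000, 1008050801160000, 1215101113030000, 1316151415080000, 1101030714100000, 200151002040000, 1115160615050000, 1605091411020000, 811040303110000, 405081102010000, 1010040312140000, 1408080312090000, 1130307070000, 110151503130000, 702040904120000, 1515141100150000, 403030115060000, 811091212160000, 410021014030000, 1506040112080000, 1203060906100000, 114081309040000, 1100060411050000, 106031606020000, 302070901110000, 1001050808010000, 502100111140000,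 404050815090000, 910100815070000, 14120813130000, 1404060608120000, 1311050705150000, 606090100060000, 508081406160000, 1001071515030000, 504110409080000, 616051415100000, 1508160716040000]

theorem T3_chk : ∀ k < 58, Chk (16 * 3) (T3.getD k 0) (T3.getD (k + 1) 0) := by
  decide +kernel

theorem rep_ser_3 (e : ℕ) (he : e < 59) : Rep (ser 3 e) (T3.getD e 0) := by
  have h1 := rep_iv_pow (a := ((12 : ℕ) : ℚ) - (3 : ℕ)) (by norm_num) (Rl.sub_nat 12 3)
    (ci := 2) (by decide) D3_12 _ rep_zeros_3 8 D3_12_chk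
  have h2 := rep_iv_pow (a := ((11 : ℕ) : ℚ) - (3 : ℕ)) (by norm_num) (Rl.sub_nat 11 3)
    (ci := 15) (by decide) D3_11 _ h1 8 D3_11_chk
  have h3 := rep_iv_pow (a := ((10 : ℕ) : ℚ) - (3 : ℕ)) (by norm_num) (Rl.sub_nat 10 3)
    (ci := 5) (by decide) D3_10 _ h2 8 D3_10_chk
  have h4 := rep_iv_pow (a := ((9 : ℕ) : ℚ) - (3 : ℕ)) (by norm_num) (Rl.sub_nat 9 3)
    (ci := 3) (by decide) D3_9 _ h3 8 D3_9_chk
  have h5 := rep_iv_pow (a := ((8 : ℕ) : ℚ) - (3 : ℕ)) (by norm_num) (Rl.sub_nat 8 3)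
    (ci := 7) (by decide) D3_8 _ h4 8 D3_8_chk
  have h6 := rep_iv_pow (a := ((7 : ℕ) : ℚ) - (3 : ℕ)) (by norm_num) (Rl.sub_nat 7 3)
    (ci := 13) (by decide) D3_7 _ h5 8 D3_7_chk
  have h7 := rep_iv_pow (a := ((6 : ℕ) : ℚ) - (3 : ℕ)) (by norm_num) (Rl.sub_nat 6 3)
    (ci := 6) (by decide) D3_6 _ h6 8 D3_6_chk
  have h8 := rep_iv_pow (a := ((5 : ℕ) : ℚ) - (3 : ℕ)) (by norm_num) (Rl.sub_nat 5 3)
    (ci := 9) (by decide) D3_5 _ h7 8 D3_5_chk
  have h9 := rep_iv_pow (a := ((4 : ℕ) : ℚ) - (3 : ℕ)) (by norm_num) (Rl.sub_nat 4 3)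
    (ci := 1) (by decide) D3_4 _ h8 8 D3_4_chk
  have h0 := rep_lin_pow (Rl.nat 3).neg T3 _ h9 e (fun k hk => T3_chk k (by omega))
  have hE : (Finset.Icc 3 12 : Finset ℕ).erase 3 = {4, 5, 6, 7, 8, 9, 10, 11, 12} := by decide
  have hD : ∏ b ∈ (Finset.Icc 3 12 : Finset ℕ).erase 3, iv ((b : ℚ) - (3 : ℕ)) ^ 8 =
      iv (((4 : ℕ) : ℚ) - (3 : ℕ)) ^ 8 * (iv (((5 : ℕ) : ℚ) - (3 : ℕ)) ^ 8 * (iv (((6 : ℕ) : ℚ) - (3 : ℕ)) ^ 8 * (iv (((7 : ℕ) : ℚ) - (3 : ℕ)) ^ 8 * (iv (((8 : ℕ) : ℚ) - (3 : ℕ)) ^ 8 * (iv (((9 : ℕ) : ℚ) - (3 : ℕ)) ^ 8 * (iv (((10 : ℕ) : ℚ) - (3 : ℕ)) ^ 8 * (iv (((11 : ℕ) : ℚ) - (3 : ℕ)) ^ 8 * (iv (((12 : ℕ) : ℚ) - (3 : ℕ)) ^ 8)))))))) := by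
    rw [hE, Finset.prod_insert (by decide), Finset.prod_insert (by decide), Finset.prod_insert (by decide),
      Finset.prod_insert (by decide), Finset.prod_insert (by decide), Finset.prod_insert (by decide),
      Finset.prod_insert (by decide), Finset.prod_insert (by decide), Finset.prod_singleton]
  have hs : ser 3 e = (iv (((4 : ℕ) : ℚ) - (3 : ℕ)) ^ 8 * (iv (((5 : ℕ) : ℚ) - (3 : ℕ)) ^ 8 * (iv (((6 : ℕ) : ℚ) - (3 : ℕ)) ^ 8 * (iv (((7 : ℕ) : ℚ) - (3 : ℕ)) ^ 8 * (iv (((8 : ℕ) : ℚ) - (3 : ℕ)) ^ 8 * (iv (((9 : ℕ) : ℚ) - (3 : ℕ)) ^ 8 * (iv (((10 : ℕ) : ℚ) - (3 : ℕ)) ^ 8 * (iv (((11 : ℕ) : ℚ) - (3 : ℕ)) ^ 8 * (iv (((12 : ℕ) : ℚ) - (3 : ℕ)) ^ 8 * ((∏ i ∈ ({0, 1, 2, 13, 14, 15} : Finset ℕ),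
      (PowerSeries.X + PowerSeries.C ((i : ℚ) - (3 : ℕ)))) *
      (∏ i ∈ ({3, 12} : Finset ℕ), (PowerSeries.X + PowerSeries.C ((i : ℚ) - (3 : ℕ)))) ^ 2)))))))))) *
      (PowerSeries.X + PowerSeries.C (-((3 : ℕ) : ℚ))) ^ e := by
    unfold ser
    rw [hD]
    congr 1
    exact assoc9 _ _ _ _ _ _ _ _ _ _
  rw [hs]
  exact h0

theorem rep_zeros_4 : Rep ((∏ i ∈ ({0, 1, 2, 13, 14, 15} : Finset ℕ),
    (PowerSeries.X + PowerSeries.C ((i : ℚ) - (4 : ℕ)))) *
    (∏ i ∈ ({3, 12} : Finset ℕ), (PowerSeries.X + PowerSeries.C ((i : ℚ) - (4 : ℕ)))) ^ 2) 1513140801060810 := by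
  rw [prod_zeros fun i => PowerSeries.X + PowerSeries.C ((i : ℚ) - (4 : ℕ)),
    prod_outer fun i => PowerSeries.X + PowerSeries.C ((i : ℚ) - (4 : ℕ))]
  have h1 := rep_mul (N' := 108) rep_one (Rl.sub_nat 12 4) (by decide +kernel)
  have h2 := rep_mul (N' := 11613) h1 (Rl.sub_nat 12 4) (by decide +kernel)
  have h3 := rep_mul (N' := 1151404) h2 (Rl.sub_nat 3 4) (by decide +kernel)
  have h4 := rep_mul (N' := 114160713) h3 (Rl.sub_nat 3 4) (by decide +kernel)
  have h5 := rep_mul (N' := 10800130507) h4 (Rl.sub_nat 15 4) (by decide +kernel)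
  have h6 := rep_mul (N' := 1011213160602) h5 (Rl.sub_nat 14 4) (by decide +kernel)
  have h7 := rep_mul (N' := 110040214140501) h6 (Rl.sub_nat 13 4) (by decide +kernel)
  have h8 := rep_mul (N' := 801111003110815) h7 (Rl.sub_nat 2 4) (by decide +kernel)
  have h9 := rep_mul (N' := 1108110702090806) h8 (Rl.sub_nat 1 4) (by decide +kernel)
  have h10 := rep_mul (N' := 1513140801060810) h9 (Rl.sub_nat 0 4) (by decide +kernel)
  rw [mul_one] at h10
  have e : ∀ a b c d e f g h : PowerSeries ℚ, (a * (b * (c * (d * (e * f))))) * (g * (g * (h * h))) =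
      a * (b * (c * (d * (e * (f * (g * (g * (h * h)))))))) := by
    intros
    ring
  rw [e]
  exact h10

/-- division by `X + 8` (pole 4) -/
def D4_12 : List ℕ := [1513140801060810, 1313111105121214, 214030413030506, 915130113110005, 302160403061407, 1410071101121203, 1312161510061511, 13100400101112, 511101503101510]

theorem D4_12_chk : ∀ k < 8, Chk (12 + 16 * 4) (D4_12.getD (k + 1) 0) (D4_12.getD k 0) := by
  decide +kernel

/-- division by `X + 7` (pole 4) -/
def D4_11 : List ℕ := [511101503101510, 115080514071216, 1608100614010012, 16150708090609, 160506000911, 1201101409110804, 1602041604150803, 608140811121615, 1300080913051107]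

theorem D4_11_chk : ∀ k < 8, Chk (11 + 16 * 4) (D4_11.getD (k + 1) 0) (D4_11.getD k 0) := by
  decide +kernel

/-- division by `X + 6` (pole 4) -/
def D4_10 : List ℕ := [1300080913051107, 107090513030404, 1607161500131012, 1306050314010702, 1115011609110306, 1002030016150601, 1505060111010903, 203041607030009, 1403020913140410]

theorem D4_10_chk : ∀ k < 8, Chk (10 + 16 * 4) (D4_10.getD (k + 1) 0) (D4_10.getD k 0) := by
  decide +kernel

/-- division by `X + 5` (pole 4) -/
def D4_9 : List ℕ := [1403020913140410, 1300030406001402, 1411130608000014, 1602010800081113, 715120914150106, 1405071105060208, 1602121504021305, 715120300041601, 516031401121207]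

theorem D4_9_chk : ∀ k < 8, Chk (9 + 16 * 4) (D4_9.getD (k + 1) 0) (D4_9.getD k 0) := by
  decide +kernel

/-- division by `X + 4` (pole 4) -/
def D4_8 : List ℕ := [516031401121207, 903040415091006, 1308050100150010, 1408101605141011, 1601041106150507, 1411080604070406, 1601071401000710, 1603060014131611, 705000610081507]

theorem D4_8_chk : ∀ k < 8, Chk (8 + 16 * 4) (D4_8.getD (k + 1) 0) (D4_8.getD k 0) := by
  decide +kernel

/-- division by `X + 3` (pole 4) -/
def D4_7 : List ℕ := [705000610081507, 1011061609000808, 803020016121514, 8131409061116, 1409150208020011, 14011200081215, 405160400000805, 101021008100413, 1604060107041510]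

theorem D4_7_chk : ∀ k < 8, Chk (7 + 16 * 4) (D4_7.getD (k + 1) 0) (D4_7.getD k 0) := by
  decide +kernel

/-- division by `X + 2` (pole 4) -/
def D4_6 : List ℕ := [1604060107041510, 506090508080505, 806110414141411, 1512161312070014, 1404040814010507, 1501020008150512, 113090115120806, 704051603091103, 710010310000910]

theorem D4_6_chk : ∀ k < 8, Chk (6 + 16 * 4) (D4_6.getD (k + 1) 0) (D4_6.getD k 0) := by
  decide +kernel

/-- division by `X + 1` (pole 4) -/
def D4_5 : List ℕ := [710010310000910, 403071109011610, 1110101414120610, 1216111615161310, 1002141402130310, 703161516031010, 106140213030010, 711120200130710, 700110101161410]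

theorem D4_5_chk : ∀ k < 8, Chk (5 + 16 * 4) (D4_5.getD (k + 1) 0) (D4_5.getD k 0) := by
  decide +kernel

/-- division by `X + -1` (pole 4) -/
def D4_3 : List ℕ := [700110101161410, 815150910111007, 8060413060010, 404120105010707, 1014011314020310, 111080905020407, 405160716040610, 4090815140107, 1010140614120910]

theorem D4_3_chk : ∀ k < 8, Chk (3 + 16 * 4) (D4_3.getD (k + 1) 0) (D4_3.getD k 0) := by
  decide +kernel

/-- the series at the pole 4 -/
def T4 : List ℕ := [1010140614120910, 408010707120811, 903031301111307, 108010007030606, 403130709111610, 401061509061411, 202080004070607, 1100020408120006, 702130914030610, 805081215110311, 705140102101607, 1111131502101106, 103141002051310, 1602051314100911, 614101305030907, 705070400140506, 1104100114000310, 1111121012031511, 102130606030207, 1505051613071606, 1302130006051010, 105160615070411, 113100815101207, 909020001061006, 700090102030010, 609161512051011, 214020308070507, 614121309110406, 707160809110710, 1305121109141611,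 409141612111507, 1012111614051506, 614060100121410, 701111312000511, 707031103050807, 1309161010050906, 814140416060410, 1609160010141111, 1314041008060107, 1316110208110306, 1515090013101110, 600151309050011, 1015040803141107, 912090502061406, 1012031615070110, 606040215070611, 1614030715120407, 115120403070806, 1103070412140810, 1012101300031211, 613071603001407, 606050705140206, 1615041111141510, 212120104100111, 415040011120707, 1612011102101306, 1604070902070510, 808150016110711, 1000081615140007]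

theorem T4_chk : ∀ k < 58, Chk (16 * 4) (T4.getD k 0) (T4.getD (k + 1) 0) := by
  decide +kernel

theorem rep_ser_4 (e : ℕ) (he : e < 59) : Rep (ser 4 e) (T4.getD e 0) := by
  have h1 := rep_iv_pow (a := ((12 : ℕ) : ℚ) - (4 : ℕ)) (by norm_num) (Rl.sub_nat 12 4)
    (ci := 15) (by decide) D4_12 _ rep_zeros_4 8 D4_12_chk
  have h2 := rep_iv_pow (a := ((11 : ℕ) : ℚ) - (4 : ℕ)) (by norm_num) (Rl.sub_nat 11 4)
    (ci := 5) (by decide) D4_11 _ h1 8 D4_11_chk
  have h3 := rep_iv_pow (a := ((10 : ℕ) : ℚ) - (4 : ℕ)) (by norm_num) (Rl.sub_nat 10 4)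
    (ci := 3) (by decide) D4_10 _ h2 8 D4_10_chk
  have h4 := rep_iv_pow (a := ((9 : ℕ) : ℚ) - (4 : ℕ)) (by norm_num) (Rl.sub_nat 9 4)
    (ci := 7) (by decide) D4_9 _ h3 8 D4_9_chk
  have h5 := rep_iv_pow (a := ((8 : ℕ) : ℚ) - (4 : ℕ)) (by norm_num) (Rl.sub_nat 8 4)
    (ci := 13) (by decide) D4_8 _ h4 8 D4_8_chk
  have h6 := rep_iv_pow (a := ((7 : ℕ) : ℚ) - (4 : ℕ)) (by norm_num) (Rl.sub_nat 7 4)
    (ci := 6) (by decide) D4_7 _ h5 8 D4_7_chk
  have h7 := rep_iv_pow (a := ((6 : ℕ) : ℚ) - (4 : ℕ)) (by norm_num) (Rl.sub_nat 6 4)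
    (ci := 9) (by decide) D4_6 _ h6 8 D4_6_chk
  have h8 := rep_iv_pow (a := ((5 : ℕ) : ℚ) - (4 : ℕ)) (by norm_num) (Rl.sub_nat 5 4)
    (ci := 1) (by decide) D4_5 _ h7 8 D4_5_chk
  have h9 := rep_iv_pow (a := ((3 : ℕ) : ℚ) - (4 : ℕ)) (by norm_num) (Rl.sub_nat 3 4)
    (ci := 16) (by decide) D4_3 _ h8 8 D4_3_chk
  have h0 := rep_lin_pow (Rl.nat 4).neg T4 _ h9 e (fun k hk => T4_chk k (by omega))
  have hE : (Finset.Icc 3 12 : Finset ℕ).erase 4 = {3, 5, 6, 7, 8, 9, 10, 11, 12} := by decide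
  have hD : ∏ b ∈ (Finset.Icc 3 12 : Finset ℕ).erase 4, iv ((b : ℚ) - (4 : ℕ)) ^ 8 =
      iv (((3 : ℕ) : ℚ) - (4 : ℕ)) ^ 8 * (iv (((5 : ℕ) : ℚ) - (4 : ℕ)) ^ 8 * (iv (((6 : ℕ) : ℚ) - (4 : ℕ)) ^ 8 * (iv (((7 : ℕ) : ℚ) - (4 : ℕ)) ^ 8 * (iv (((8 : ℕ) : ℚ) - (4 : ℕ)) ^ 8 * (iv (((9 : ℕ) : ℚ) - (4 : ℕ)) ^ 8 * (iv (((10 : ℕ) : ℚ) - (4 : ℕ)) ^ 8 * (iv (((11 : ℕ) : ℚ) - (4 : ℕ)) ^ 8 * (iv (((12 : ℕ) : ℚ) - (4 : ℕ)) ^ 8)))))))) := by
    rw [hE, Finset.prod_insert (by decide), Finset.prod_insert (by decide), Finset.prod_insert (by decide),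
      Finset.prod_insert (by decide), Finset.prod_insert (by decide), Finset.prod_insert (by decide),
      Finset.prod_insert (by decide), Finset.prod_insert (by decide), Finset.prod_singleton]
  have hs : ser 4 e = (iv (((3 : ℕ) : ℚ) - (4 : ℕ)) ^ 8 * (iv (((5 : ℕ) : ℚ) - (4 : ℕ)) ^ 8 * (iv (((6 : ℕ) : ℚ) - (4 : ℕ)) ^ 8 * (iv (((7 : ℕ) : ℚ) - (4 : ℕ)) ^ 8 * (iv (((8 : ℕ) : ℚ) - (4 : ℕ)) ^ 8 * (iv (((9 : ℕ) : ℚ) - (4 : ℕ)) ^ 8 * (iv (((10 : ℕ) : ℚ) - (4 : ℕ)) ^ 8 * (iv (((11 : ℕ) : ℚ) - (4 : ℕ)) ^ 8 * (iv (((12 : ℕ) : ℚ) - (4 : ℕ)) ^ 8 * ((∏ i ∈ ({0, 1, 2, 13, 14, 15} : Finset ℕ),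
      (PowerSeries.X + PowerSeries.C ((i : ℚ) - (4 : ℕ)))) *
      (∏ i ∈ ({3, 12} : Finset ℕ), (PowerSeries.X + PowerSeries.C ((i : ℚ) - (4 : ℕ)))) ^ 2)))))))))) *
      (PowerSeries.X + PowerSeries.C (-((4 : ℕ) : ℚ))) ^ e := by
    unfold ser
    rw [hD]
    congr 1
    exact assoc9 _ _ _ _ _ _ _ _ _ _
  rw [hs]
  exact h0

theorem rep_zeros_5 : Rep ((∏ i ∈ ({0, 1, 2, 13, 14, 15} : Finset ℕ),
    (PowerSeries.X + PowerSeries.C ((i : ℚ) - (5 : ℕ)))) *
    (∏ i ∈ ({3, 12} : Finset ℕ), (PowerSeries.X + PowerSeries.C ((i : ℚ) - (5 : ℕ)))) ^ 2) 303001409071607 := by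
  rw [prod_zeros fun i => PowerSeries.X + PowerSeries.C ((i : ℚ) - (5 : ℕ)),
    prod_outer fun i => PowerSeries.X + PowerSeries.C ((i : ℚ) - (5 : ℕ))]
  have h1 := rep_mul (N' := 107) rep_one (Rl.sub_nat 12 5) (by decide +kernel)
  have h2 := rep_mul (N' := 11415) h1 (Rl.sub_nat 12 5) (by decide +kernel)
  have h3 := rep_mul (N' := 1120404) h2 (Rl.sub_nat 3 5) (by decide +kernel)
  have h4 := rep_mul (N' := 110141309) h3 (Rl.sub_nat 3 5) (by decide +kernel)
  have h5 := rep_mul (N' := 10312000305) h4 (Rl.sub_nat 15 5) (by decide +kernel)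
  have h6 := rep_mul (N' := 1120506031511) h5 (Rl.sub_nat 14 5) (by decide +kernel)
  have h7 := rep_mul (N' := 103161200051203) h6 (Rl.sub_nat 13 5) (by decide +kernel)
  have h8 := rep_mul (N' := 7151505140108) h7 (Rl.sub_nat 2 5) (by decide +kernel)
  have h9 := rep_mul (N' := 704061311130402) h8 (Rl.sub_nat 1 5) (by decide +kernel)
  have h10 := rep_mul (N' := 303001409071607) h9 (Rl.sub_nat 0 5) (by decide +kernel)
  rw [mul_one] at h10
  have e : ∀ a b c d e f g h : PowerSeries ℚ, (a * (b * (c * (d * (e * f))))) * (g * (g * (h * h))) =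
      a * (b * (c * (d * (e * (f * (g * (g * (h * h)))))))) := by
    intros
    ring
  rw [e]
  exact h10

/-- division by `X + 7` (pole 5) -/
def D5_12 : List ℕ := [303001409071607, 316101511000701, 1111071216011005, 1009161416061008, 805081105150306, 1505041415020113, 404111215120314, 909091602010502, 1616161606110910]

theorem D5_12_chk : ∀ k < 8, Chk (12 + 16 * 5) (D5_12.getD (k + 1) 0) (D5_12.getD k 0) := by
  decide +kernel

/-- division by `X + 6` (pole 5) -/
def D5_11 : List ℕ := [1616161606110910, 16050315010513, 1213060302030005, 1208161216080615, 909050311010211, 1316150003100916, 816050205070214, 1315110711071608, 611001109081007]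

theorem D5_11_chk : ∀ k < 8, Chk (11 + 16 * 5) (D5_11.getD (k + 1) 0) (D5_11.getD k 0) := by
  decide +kernel

/-- division by `X + 5` (pole 5) -/
def D5_10 : List ℕ := [611001109081007, 403130313121615, 1402101401080603, 506061412091404, 1101010109010411, 615111416141609, 1102050316041112, 1107010003011616, 313100207020810]

theorem D5_10_chk : ∀ k < 8, Chk (10 + 16 * 5) (D5_10.getD (k + 1) 0) (D5_10.getD k 0) := by
  decide +kernel

/-- division by `X + 4` (pole 5) -/
def D5_9 : List ℕ := [313100207020810, 116001013061211, 1012020908151407, 315030715160206, 3030809131510, 30810030111, 1107061307160707, 11140109051306, 1316150515000510]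

theorem D5_9_chk : ∀ k < 8, Chk (9 + 16 * 5) (D5_9.getD (k + 1) 0) (D5_9.getD k 0) := by
  decide +kernel

/-- division by `X + 3` (pole 5) -/
def D5_8 : List ℕ := [1316150515000510, 13111608081009, 1312111214000803, 1114041615030801, 1209040906141206, 12070009130902, 1101091409161612, 1500010613040404, 1002110200131607]

theorem D5_8_chk : ∀ k < 8, Chk (8 + 16 * 5) (D5_8.getD (k + 1) 0) (D5_8.getD k 0) := by
  decide +kernel

/-- division by `X + 2` (pole 5) -/
def D5_7 : List ℕ := [1002110200131607, 10161310140212, 311050601081506, 1605010300010603, 16070412101510, 1112090609110505, 1515161101071411, 113060403120014, 1505030004120507]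

theorem D5_7_chk : ∀ k < 8, Chk (7 + 16 * 5) (D5_7.getD (k + 1) 0) (D5_7.getD k 0) := by
  decide +kernel

/-- division by `X + 1` (pole 5) -/
def D5_6 : List ℕ := [1505030004120507, 312101007141507, 911010901060807, 306051313050107, 812111102111107, 800121612070407, 602151402101407, 402001516030707, 4150213030007]

theorem D5_6_chk : ∀ k < 8, Chk (6 + 16 * 5) (D5_6.getD (k + 1) 0) (D5_6.getD k 0) := by
  decide +kernel

/-- division by `X + -1` (pole 5) -/
def D5_4 : List ℕ := [4150213030007, 707110911071010, 1303100413071407, 1410130610061310, 300100612051107, 1400001016111610, 805050515140807, 109140207050210, 102110810000507]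

theorem D5_4_chk : ∀ k < 8, Chk (4 + 16 * 5) (D5_4.getD (k + 1) 0) (D5_4.getD k 0) := by
  decide +kernel

/-- division by `X + -2` (pole 5) -/
def D5_3 : List ℕ := [102110810000507, 1040212000005, 1513100716100306, 202001010021414, 614130911151510, 210001301130712, 2141101030211, 1207161201030903, 811120607151607]

theorem D5_3_chk : ∀ k < 8, Chk (3 + 16 * 5) (D5_3.getD (k + 1) 0) (D5_3.getD k 0) := by
  decide +kernel

/-- the series at the pole 5 -/
def T5 : List ℕ := [811120607151607, 508141114091216, 8091007010705, 803160800020409, 1401131102110606, 1608141501021004, 1308131114000514, 1107141015050615, 313081615150210, 1511100308120001, 406041006080112, 308070712120708, 1001061103150711, 201151600001013, 810090500101403, 410110910150102, 712051616111407, 1113080416100516, 911151315060805, 11060116121609, 1102051100071406, 1512031307130404, 511151012070114, 311031315000915, 1316150110090410, 203110510100701, 1013010211080012, 1404140104111208, 211161608081611, 112041302101613,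 712100500000103, 1101060900011502, 1401130601101207, 1608090505131516, 1303111405010905, 613100310041109, 13041205080506, 1307091300161504, 1008020316031414, 913100108161215, 213020310000610, 305101201061401, 702130901011612, 103120713110008, 1514151214130811, 713050511110513, 1208140307010503, 1608010900001202, 1312040600121007, 1512030412010816, 511060909031005, 302131509120609, 403010201141306, 3140809110904, 316060300051014, 111070205021515, 603011211050810, 703070201000401, 209010812041512]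

theorem T5_chk : ∀ k < 58, Chk (16 * 5) (T5.getD k 0) (T5.getD (k + 1) 0) := by
  decide +kernel

theorem rep_ser_5 (e : ℕ) (he : e < 59) : Rep (ser 5 e) (T5.getD e 0) := by
  have h1 := rep_iv_pow (a := ((12 : ℕ) : ℚ) - (5 : ℕ)) (by norm_num) (Rl.sub_nat 12 5)
    (ci := 5) (by decide) D5_12 _ rep_zeros_5 8 D5_12_chk
  have h2 := rep_iv_pow (a := ((11 : ℕ) : ℚ) - (5 : ℕ)) (by norm_num) (Rl.sub_nat 11 5)
    (ci := 3) (by decide) D5_11 _ h1 8 D5_11_chk
  have h3 := rep_iv_pow (a := ((10 : ℕ) : ℚ) - (5 : ℕ)) (by norm_num) (Rl.sub_nat 10 5)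
    (ci := 7) (by decide) D5_10 _ h2 8 D5_10_chk
  have h4 := rep_iv_pow (a := ((9 : ℕ) : ℚ) - (5 : ℕ)) (by norm_num) (Rl.sub_nat 9 5)
    (ci := 13) (by decide) D5_9 _ h3 8 D5_9_chk
  have h5 := rep_iv_pow (a := ((8 : ℕ) : ℚ) - (5 : ℕ)) (by norm_num) (Rl.sub_nat 8 5)
    (ci := 6) (by decide) D5_8 _ h4 8 D5_8_chk
  have h6 := rep_iv_pow (a := ((7 : ℕ) : ℚ) - (5 : ℕ)) (by norm_num) (Rl.sub_nat 7 5)
    (ci := 9) (by decide) D5_7 _ h5 8 D5_7_chk
  have h7 := rep_iv_pow (a := ((6 : ℕ) : ℚ) - (5 : ℕ)) (by norm_num) (Rl.sub_nat 6 5)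
    (ci := 1) (by decide) D5_6 _ h6 8 D5_6_chk
  have h8 := rep_iv_pow (a := ((4 : ℕ) : ℚ) - (5 : ℕ)) (by norm_num) (Rl.sub_nat 4 5)
    (ci := 16) (by decide) D5_4 _ h7 8 D5_4_chk
  have h9 := rep_iv_pow (a := ((3 : ℕ) : ℚ) - (5 : ℕ)) (by norm_num) (Rl.sub_nat 3 5)
    (ci := 8) (by decide) D5_3 _ h8 8 D5_3_chk
  have h0 := rep_lin_pow (Rl.nat 5).neg T5 _ h9 e (fun k hk => T5_chk k (by omega))
  have hE : (Finset.Icc 3 12 : Finset ℕ).erase 5 = {3, 4, 6, 7, 8, 9, 10, 11, 12} := by decide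
  have hD : ∏ b ∈ (Finset.Icc 3 12 : Finset ℕ).erase 5, iv ((b : ℚ) - (5 : ℕ)) ^ 8 =
      iv (((3 : ℕ) : ℚ) - (5 : ℕ)) ^ 8 * (iv (((4 : ℕ) : ℚ) - (5 : ℕ)) ^ 8 * (iv (((6 : ℕ) : ℚ) - (5 : ℕ)) ^ 8 * (iv (((7 : ℕ) : ℚ) - (5 : ℕ)) ^ 8 * (iv (((8 : ℕ) : ℚ) - (5 : ℕ)) ^ 8 * (iv (((9 : ℕ) : ℚ) - (5 : ℕ)) ^ 8 * (iv (((10 : ℕ) : ℚ) - (5 : ℕ)) ^ 8 * (iv (((11 : ℕ) : ℚ) - (5 : ℕ)) ^ 8 * (iv (((12 : ℕ) : ℚ) - (5 : ℕ)) ^ 8)))))))) := by
    rw [hE, Finset.prod_insert (by decide), Finset.prod_insert (by decide), Finset.prod_insert (by decide),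
      Finset.prod_insert (by decide), Finset.prod_insert (by decide), Finset.prod_insert (by decide),
      Finset.prod_insert (by decide), Finset.prod_insert (by decide), Finset.prod_singleton]
  have hs : ser 5 e = (iv (((3 : ℕ) : ℚ) - (5 : ℕ)) ^ 8 * (iv (((4 : ℕ) : ℚ) - (5 : ℕ)) ^ 8 * (iv (((6 : ℕ) : ℚ) - (5 : ℕ)) ^ 8 * (iv (((7 : ℕ) : ℚ) - (5 : ℕ)) ^ 8 * (iv (((8 : ℕ) : ℚ) - (5 : ℕ)) ^ 8 * (iv (((9 : ℕ) : ℚ) - (5 : ℕ)) ^ 8 * (iv (((10 : ℕ) : ℚ) - (5 : ℕ)) ^ 8 * (iv (((11 : ℕ) : ℚ) - (5 : ℕ)) ^ 8 * (iv (((12 : ℕ) : ℚ) - (5 : ℕ)) ^ 8 * ((∏ i ∈ ({0, 1, 2, 13, 14, 15} : Finset ℕ),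
      (PowerSeries.X + PowerSeries.C ((i : ℚ) - (5 : ℕ)))) *
      (∏ i ∈ ({3, 12} : Finset ℕ), (PowerSeries.X + PowerSeries.C ((i : ℚ) - (5 : ℕ)))) ^ 2)))))))))) *
      (PowerSeries.X + PowerSeries.C (-((5 : ℕ) : ℚ))) ^ e := by
    unfold ser
    rw [hD]
    congr 1
    exact assoc9 _ _ _ _ _ _ _ _ _ _
  rw [hs]
  exact h0

theorem rep_zeros_6 : Rep ((∏ i ∈ ({0, 1, 2, 13, 14, 15} : Finset ℕ),
    (PowerSeries.X + PowerSeries.C ((i : ℚ) - (6 : ℕ)))) *
    (∏ i ∈ ({3, 12} : Finset ℕ), (PowerSeries.X + PowerSeries.C ((i : ℚ) - (6 : ℕ)))) ^ 2) 604030907150906 := by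
  rw [prod_zeros fun i => PowerSeries.X + PowerSeries.C ((i : ℚ) - (6 : ℕ)),
    prod_outer fun i => PowerSeries.X + PowerSeries.C ((i : ℚ) - (6 : ℕ))]
  have h1 := rep_mul (N' := 106) rep_one (Rl.sub_nat 12 6) (by decide +kernel)
  have h2 := rep_mul (N' := 11202) h1 (Rl.sub_nat 12 6) (by decide +kernel)
  have h3 := rep_mul (N' := 1090011) h2 (Rl.sub_nat 3 6) (by decide +kernel)
  have h4 := rep_mul (N' := 106071101) h3 (Rl.sub_nat 3 6) (by decide +kernel)
  have h5 := rep_mul (N' := 11510061509) h4 (Rl.sub_nat 15 6) (by decide +kernel)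
  have h6 := rep_mul (N' := 1061101121004) h5 (Rl.sub_nat 14 6) (by decide +kernel)
  have h7 := rep_mul (N' := 113021002090611) h6 (Rl.sub_nat 13 6) (by decide +kernel)
  have h8 := rep_mul (N' := 901021301040407) h7 (Rl.sub_nat 2 6) (by decide +kernel)
  have h9 := rep_mul (N' := 714030416010416) h8 (Rl.sub_nat 1 6) (by decide +kernel)
  have h10 := rep_mul (N' := 604030907150906) h9 (Rl.sub_nat 0 6) (by decide +kernel)
  rw [mul_one] at h10
  have e : ∀ a b c d e f g h : PowerSeries ℚ, (a * (b * (c * (d * (e * f))))) * (g * (g * (h * h))) =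
      a * (b * (c * (d * (e * (f * (g * (g * (h * h)))))))) := by
    intros
    ring
  rw [e]
  exact h10

/-- division by `X + 6` (pole 6) -/
def D6_12 : List ℕ := [604030907150906, 1407131000070701, 313141411021203, 1011150911130909, 10020308141410, 410011310160313, 1012061602151105, 813021101130515, 401071113081611]

theorem D6_12_chk : ∀ k < 8, Chk (12 + 16 * 6) (D6_12.getD (k + 1) 0) (D6_12.getD k 0) := by
  decide +kernel

/-- division by `X + 5` (pole 6) -/
def D6_11 : List ℕ := [401071113081611, 910021409021509, 1407090808030412, 713101009140116, 1500131313120510, 1016050505050402, 407151515151514, 1307060205071413, 1601021305140506]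

theorem D6_11_chk : ∀ k < 8, Chk (11 + 16 * 6) (D6_11.getD (k + 1) 0) (D6_11.getD k 0) := by
  decide +kernel

/-- division by `X + 4` (pole 6) -/
def D6_10 : List ℕ := [1601021305140506, 801141408070310, 505150511151511, 903100903160207, 314150105001606, 1415051204061010, 415061503090411, 1015061602121207, 1100151411091006]

theorem D6_10_chk : ∀ k < 8, Chk (10 + 16 * 6) (D6_10.getD (k + 1) 0) (D6_10.getD k 0) := by
  decide +kernel

/-- division by `X + 3` (pole 6) -/
def D6_9 : List ℕ := [1100151411091006, 108100208041402, 115140213031212, 908080715021404, 414000800150807, 1413090704050008, 1503041416070114, 711040904041216, 800110511050611]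

theorem D6_9_chk : ∀ k < 8, Chk (9 + 16 * 6) (D6_9.getD (k + 1) 0) (D6_9.getD k 0) := by
  decide +kernel

/-- division by `X + 2` (pole 6) -/
def D6_8 : List ℕ := [800110511050611, 515040316131314, 103090314050307, 1211151311090412, 1303050503051606, 111150904121503, 900111006091110, 810140010030305, 8110916121311]

theorem D6_8_chk : ∀ k < 8, Chk (8 + 16 * 6) (D6_8.getD (k + 1) 0) (D6_8.getD k 0) := by
  decide +kernel

/-- division by `X + 1` (pole 6) -/
def D6_7 : List ℕ := [8110916121311, 80306100211, 908091604020811, 1016090016051411, 10060314020311, 1403071604100911, 1103000709121511, 209110601080411, 101080303151011]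

theorem D6_7_chk : ∀ k < 8, Chk (7 + 16 * 6) (D6_7.getD (k + 1) 0) (D6_7.getD k 0) := by
  decide +kernel

/-- division by `X + -1` (pole 6) -/
def D6_5 : List ℕ := [101080303151011, 1600010912151306, 1312121305001511, 400120703080806, 307070209120311, 1400071416080306, 14140401000811, 1616131014151506, 1413120801151311]

theorem D6_5_chk : ∀ k < 8, Chk (5 + 16 * 6) (D6_5.getD (k + 1) 0) (D6_5.getD k 0) := by
  decide +kernel

/-- division by `X + -2` (pole 6) -/
def D6_4 : List ℕ := [1413120801151311, 609140603071203, 516071111080607, 702031303000805, 415151611081606, 1415110305041614, 1000150700051410, 809010007141612, 1402131003130611]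

theorem D6_4_chk : ∀ k < 8, Chk (4 + 16 * 6) (D6_4.getD (k + 1) 0) (D6_4.getD k 0) := by
  decide +kernel

/-- division by `X + -3` (pole 6) -/
def D6_3 : List ℕ := [1402131003130611, 1113070010161002, 1505110601130405, 702111002070004, 505001109120910, 1516020612111108, 513041414030303, 211120615081016, 1513160916121006]

theorem D6_3_chk : ∀ k < 8, Chk (3 + 16 * 6) (D6_3.getD (k + 1) 0) (D6_3.getD k 0) := by
  decide +kernel

/-- the series at the pole 6 -/
def T6 : List ℕ := [1513160916121006, 806151301061415, 913080800121612, 1015110312120113, 606051108140707, 403151000081609, 1314050808021514, 406121105030901, 1610070707081511, 1615161600010602, 411050601000005, 407101611000504, 2070002050810, 212090210121308, 5161503091503, 503041508121516, 703080315111106, 1207061406130815, 315120711150112, 1407030300130613, 812021613131107, 1515040203010909, 1016120800030614, 701040303051201, 1015130204161411, 608090909031202, 612060600111505, 1002041511000004, 1009080602000410,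 5090005040308, 513140508130703, 4061216141216, 416101203131206, 916031612020215, 1309150115070312, 1612130902121113, 109161600071507, 313050607070209, 1212100516111414, 806130300161501, 911101616041311, 812070510060102, 1503141414161305, 1513151500021204, 805101202000010, 814031505001008, 4140004101603, 407010403070916, 10151306011306, 1006081316071315, 1406160613050512, 714121112091613, 613071405130207, 1114060600091209, 1607041509090514, 1313080406020101, 315071600061211, 1402080606100702, 313090408151105]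

theorem T6_chk : ∀ k < 58, Chk (16 * 6) (T6.getD k 0) (T6.getD (k + 1) 0) := by
  decide +kernel

theorem rep_ser_6 (e : ℕ) (he : e < 59) : Rep (ser 6 e) (T6.getD e 0) := by
  have h1 := rep_iv_pow (a := ((12 : ℕ) : ℚ) - (6 : ℕ)) (by norm_num) (Rl.sub_nat 12 6)
    (ci := 3) (by decide) D6_12 _ rep_zeros_6 8 D6_12_chk
  have h2 := rep_iv_pow (a := ((11 : ℕ) : ℚ) - (6 : ℕ)) (by norm_num) (Rl.sub_nat 11 6)
    (ci := 7) (by decide) D6_11 _ h1 8 D6_11_chk
  have h3 := rep_iv_pow (a := ((10 : ℕ) : ℚ) - (6 : ℕ)) (by norm_num) (Rl.sub_nat 10 6)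
    (ci := 13) (by decide) D6_10 _ h2 8 D6_10_chk
  have h4 := rep_iv_pow (a := ((9 : ℕ) : ℚ) - (6 : ℕ)) (by norm_num) (Rl.sub_nat 9 6)
    (ci := 6) (by decide) D6_9 _ h3 8 D6_9_chk
  have h5 := rep_iv_pow (a := ((8 : ℕ) : ℚ) - (6 : ℕ)) (by norm_num) (Rl.sub_nat 8 6)
    (ci := 9) (by decide) D6_8 _ h4 8 D6_8_chk
  have h6 := rep_iv_pow (a := ((7 : ℕ) : ℚ) - (6 : ℕ)) (by norm_num) (Rl.sub_nat 7 6)
    (ci := 1) (by decide) D6_7 _ h5 8 D6_7_chk
  have h7 := rep_iv_pow (a := ((5 : ℕ) : ℚ) - (6 : ℕ)) (by norm_num) (Rl.sub_nat 5 6)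
    (ci := 16) (by decide) D6_5 _ h6 8 D6_5_chk
  have h8 := rep_iv_pow (a := ((4 : ℕ) : ℚ) - (6 : ℕ)) (by norm_num) (Rl.sub_nat 4 6)
    (ci := 8) (by decide) D6_4 _ h7 8 D6_4_chk
  have h9 := rep_iv_pow (a := ((3 : ℕ) : ℚ) - (6 : ℕ)) (by norm_num) (Rl.sub_nat 3 6)
    (ci := 11) (by decide) D6_3 _ h8 8 D6_3_chk
  have h0 := rep_lin_pow (Rl.nat 6).neg T6 _ h9 e (fun k hk => T6_chk k (by omega))
  have hE : (Finset.Icc 3 12 : Finset ℕ).erase 6 = {3, 4, 5, 7, 8, 9, 10, 11, 12} := by decide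
  have hD : ∏ b ∈ (Finset.Icc 3 12 : Finset ℕ).erase 6, iv ((b : ℚ) - (6 : ℕ)) ^ 8 =
      iv (((3 : ℕ) : ℚ) - (6 : ℕ)) ^ 8 * (iv (((4 : ℕ) : ℚ) - (6 : ℕ)) ^ 8 * (iv (((5 : ℕ) : ℚ) - (6 : ℕ)) ^ 8 * (iv (((7 : ℕ) : ℚ) - (6 : ℕ)) ^ 8 * (iv (((8 : ℕ) : ℚ) - (6 : ℕ)) ^ 8 * (iv (((9 : ℕ) : ℚ) - (6 : ℕ)) ^ 8 * (iv (((10 : ℕ) : ℚ) - (6 : ℕ)) ^ 8 * (iv (((11 : ℕ) : ℚ) - (6 : ℕ)) ^ 8 * (iv (((12 : ℕ) : ℚ) - (6 : ℕ)) ^ 8)))))))) := by
    rw [hE, Finset.prod_insert (by decide), Finset.prod_insert (by decide), Finset.prod_insert (by decide),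
      Finset.prod_insert (by decide), Finset.prod_insert (by decide), Finset.prod_insert (by decide),
      Finset.prod_insert (by decide), Finset.prod_insert (by decide), Finset.prod_singleton]
  have hs : ser 6 e = (iv (((3 : ℕ) : ℚ) - (6 : ℕ)) ^ 8 * (iv (((4 : ℕ) : ℚ) - (6 : ℕ)) ^ 8 * (iv (((5 : ℕ) : ℚ) - (6 : ℕ)) ^ 8 * (iv (((7 : ℕ) : ℚ) - (6 : ℕ)) ^ 8 * (iv (((8 : ℕ) : ℚ) - (6 : ℕ)) ^ 8 * (iv (((9 : ℕ) : ℚ) - (6 : ℕ)) ^ 8 * (iv (((10 : ℕ) : ℚ) - (6 : ℕ)) ^ 8 * (iv (((11 : ℕ) : ℚ) - (6 : ℕ)) ^ 8 * (iv (((12 : ℕ) : ℚ) - (6 : ℕ)) ^ 8 * ((∏ i ∈ ({0, 1, 2, 13, 14, 15} : Finset ℕ),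
      (PowerSeries.X + PowerSeries.C ((i : ℚ) - (6 : ℕ)))) *
      (∏ i ∈ ({3, 12} : Finset ℕ), (PowerSeries.X + PowerSeries.C ((i : ℚ) - (6 : ℕ)))) ^ 2)))))))))) *
      (PowerSeries.X + PowerSeries.C (-((6 : ℕ) : ℚ))) ^ e := by
    unfold ser
    rw [hD]
    congr 1
    exact assoc9 _ _ _ _ _ _ _ _ _ _
  rw [hs]
  exact h0

theorem rep_zeros_7 : Rep ((∏ i ∈ ({0, 1, 2, 13, 14, 15} : Finset ℕ),
    (PowerSeries.X + PowerSeries.C ((i : ℚ) - (7 : ℕ)))) *
    (∏ i ∈ ({3, 12} : Finset ℕ), (PowerSeries.X + PowerSeries.C ((i : ℚ) - (7 : ℕ)))) ^ 2) 100090013010312 := by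
  rw [prod_zeros fun i => PowerSeries.X + PowerSeries.C ((i : ℚ) - (7 : ℕ)),
    prod_outer fun i => PowerSeries.X + PowerSeries.C ((i : ℚ) - (7 : ℕ))]
  have h1 := rep_mul (N' := 105) rep_one (Rl.sub_nat 12 7) (by decide +kernel)
  have h2 := rep_mul (N' := 11008) h1 (Rl.sub_nat 12 7) (by decide +kernel)
  have h3 := rep_mul (N' := 1060202) h2 (Rl.sub_nat 3 7) (by decide +kernel)
  have h4 := rep_mul (N' := 102121109) h3 (Rl.sub_nat 3 7) (by decide +kernel)
  have h5 := rep_mul (N' := 11011051204) h4 (Rl.sub_nat 15 7) (by decide +kernel)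
  have h6 := rep_mul (N' := 1001314130311) h5 (Rl.sub_nat 14 7) (by decide +kernel)
  have h7 := rep_mul (N' := 106130712131215) h6 (Rl.sub_nat 13 7) (by decide +kernel)
  have h8 := rep_mul (N' := 100101104150610) h7 (Rl.sub_nat 2 7) (by decide +kernel)
  have h9 := rep_mul (N' := 1110020608010808) h8 (Rl.sub_nat 1 7) (by decide +kernel)
  have h10 := rep_mul (N' := 100090013010312) h9 (Rl.sub_nat 0 7) (by decide +kernel)
  rw [mul_one] at h10
  have e : ∀ a b c d e f g h : PowerSeries ℚ, (a * (b * (c * (d * (e * f))))) * (g * (g * (h * h))) =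
      a * (b * (c * (d * (e * (f * (g * (g * (h * h)))))))) := by
    intros
    ring
  rw [e]
  exact h10

/-- division by `X + 5` (pole 7) -/
def D7_12 : List ℕ := [100090013010312, 1209061303151116, 1203110203050710, 1013061512110102, 1615061016001114, 16030804130313, 207151311001306, 1512150807100108, 1301071406110605]

theorem D7_12_chk : ∀ k < 8, Chk (12 + 16 * 7) (D7_12.getD (k + 1) 0) (D7_12.getD k 0) := by
  decide +kernel

/-- division by `X + 4` (pole 7) -/
def D7_11 : List ℕ := [1301071406110605, 301140206161514, 1302100804070512, 1504031516080903, 303090111060105, 404041012140114, 100040507011012, 803050101030603, 1002120803061305]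

theorem D7_11_chk : ∀ k < 8, Chk (11 + 16 * 7) (D7_11.getD (k + 1) 0) (D7_11.getD k 0) := by
  decide +kernel

/-- division by `X + 3` (pole 7) -/
def D7_10 : List ℕ := [1002120803061305, 512001206020013, 1414040514150810, 1406131608071109, 402001311091403, 215081000111001, 601120609070706, 1010051415151302, 900100904030612]

theorem D7_10_chk : ∀ k < 8, Chk (10 + 16 * 7) (D7_10.getD (k + 1) 0) (D7_10.getD k 0) := by
  decide +kernel

/-- division by `X + 2` (pole 7) -/
def D7_9 : List ℕ := [900100904030612, 516020614100006, 708000202100703, 1609070313100710, 1601071000130105, 408020304091211, 805150608051614, 1103160006131307, 910001602020912]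

theorem D7_9_chk : ∀ k < 8, Chk (9 + 16 * 7) (D7_9.getD (k + 1) 0) (D7_9.getD k 0) := by
  decide +kernel

/-- division by `X + 1` (pole 7) -/
def D7_8 : List ℕ := [910001602020912, 1412150214051412, 905070811030212, 108141015130712, 1107011314011212, 506010013010012, 5010000130512, 1007150314031012, 703041109051512]

theorem D7_8_chk : ∀ k < 8, Chk (8 + 16 * 7) (D7_8.getD (k + 1) 0) (D7_8.getD k 0) := by
  decide +kernel

/-- division by `X + -1` (pole 7) -/
def D7_6 : List ℕ := [703041109051512, 209121610020705, 507161110030512, 1604111004140005, 403070111151212, 307100001121005, 306130606070212, 1316050107130305, 501000506130912]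

theorem D7_6_chk : ∀ k < 8, Chk (6 + 16 * 7) (D7_6.getD (k + 1) 0) (D7_6.getD k 0) := by
  decide +kernel

/-- division by `X + -2` (pole 7) -/
def D7_5 : List ℕ := [501000506130912, 413100311110111, 1313050309120103, 1016111006040307, 1404070809070105, 915000705021106, 1216130908041014, 1304071012150010, 1203101013040612]

theorem D7_5_chk : ∀ k < 8, Chk (5 + 16 * 7) (D7_5.getD (k + 1) 0) (D7_5.getD k 0) := by
  decide +kernel

/-- division by `X + -3` (pole 7) -/
def D7_4 : List ℕ := [1203101013040612, 905011315070813, 301080803071107, 209110712050509, 1616061209050314, 1201021214000501, 1008080905120211, 113131314130002, 207001301001305]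

theorem D7_4_chk : ∀ k < 8, Chk (4 + 16 * 7) (D7_4.getD (k + 1) 0) (D7_4.getD k 0) := by
  decide +kernel

/-- division by `X + -4` (pole 7) -/
def D7_3 : List ℕ := [207001301001305, 2150915100603, 1006090009001012, 1103011301130114, 1208010516140105, 1400081601030903, 1003120502090512, 912001202101514, 1414000012160605]

theorem D7_3_chk : ∀ k < 8, Chk (3 + 16 * 7) (D7_3.getD (k + 1) 0) (D7_3.getD k 0) := by
  decide +kernel

/-- the series at the pole 7 -/
def T7 : List ℕ := [1414000012160605, 104001200131416, 1406120113080307, 1004020602150302, 208091101001503, 1104160910150013, 1205161513141311, 615051008000508, 702090612050712, 412110406061401, 112121215060510, 513131603140915, 1207101010130314, 812080811141004, 709030605140206, 1108021413060909, 1614000000011405, 404000001070916, 1006000100110407, 409011011121302, 1506030903141303, 312050810001413, 806070515140011, 116071411041108, 914161512001612, 203050901160201, 601080609090410, 1001010114091615, 1611110713040514,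 102151515111304, 1201121208041506, 205130916040309, 812030411090505, 704000000100416, 606000010020507, 1509001000080602, 605101508011103, 1409130513041113, 1301161215000411, 1209021614040008, 1007020408060812, 504071401000701, 313160510070310, 910120905050615, 1510101004050714, 708080211061604, 1003141414081106, 110010112061409, 316110507061305, 1201130608051616, 206000000150607, 909000015031602, 1405001500120903, 916151412100813, 405111611060811, 1110070114000608, 105030704060012, 1502030612091201, 1606020410000210]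

theorem T7_chk : ∀ k < 58, Chk (16 * 7) (T7.getD k 0) (T7.getD (k + 1) 0) := by
  decide +kernel

theorem rep_ser_7 (e : ℕ) (he : e < 59) : Rep (ser 7 e) (T7.getD e 0) := by
  have h1 := rep_iv_pow (a := ((12 : ℕ) : ℚ) - (7 : ℕ)) (by norm_num) (Rl.sub_nat 12 7)
    (ci := 7) (by decide) D7_12 _ rep_zeros_7 8 D7_12_chk
  have h2 := rep_iv_pow (a := ((11 : ℕ) : ℚ) - (7 : ℕ)) (by norm_num) (Rl.sub_nat 11 7)
    (ci := 13) (by decide) D7_11 _ h1 8 D7_11_chk
  have h3 := rep_iv_pow (a := ((10 : ℕ) : ℚ) - (7 : ℕ)) (by norm_num) (Rl.sub_nat 10 7)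
    (ci := 6) (by decide) D7_10 _ h2 8 D7_10_chk
  have h4 := rep_iv_pow (a := ((9 : ℕ) : ℚ) - (7 : ℕ)) (by norm_num) (Rl.sub_nat 9 7)
    (ci := 9) (by decide) D7_9 _ h3 8 D7_9_chk
  have h5 := rep_iv_pow (a := ((8 : ℕ) : ℚ) - (7 : ℕ)) (by norm_num) (Rl.sub_nat 8 7)
    (ci := 1) (by decide) D7_8 _ h4 8 D7_8_chk
  have h6 := rep_iv_pow (a := ((6 : ℕ) : ℚ) - (7 : ℕ)) (by norm_num) (Rl.sub_nat 6 7)
    (ci := 16) (by decide) D7_6 _ h5 8 D7_6_chk
  have h7 := rep_iv_pow (a := ((5 : ℕ) : ℚ) - (7 : ℕ)) (by norm_num) (Rl.sub_nat 5 7)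
    (ci := 8) (by decide) D7_5 _ h6 8 D7_5_chk
  have h8 := rep_iv_pow (a := ((4 : ℕ) : ℚ) - (7 : ℕ)) (by norm_num) (Rl.sub_nat 4 7)
    (ci := 11) (by decide) D7_4 _ h7 8 D7_4_chk
  have h9 := rep_iv_pow (a := ((3 : ℕ) : ℚ) - (7 : ℕ)) (by norm_num) (Rl.sub_nat 3 7)
    (ci := 4) (by decide) D7_3 _ h8 8 D7_3_chk
  have h0 := rep_lin_pow (Rl.nat 7).neg T7 _ h9 e (fun k hk => T7_chk k (by omega))
  have hE : (Finset.Icc 3 12 : Finset ℕ).erase 7 = {3, 4, 5, 6, 8, 9, 10, 11, 12} := by decide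
  have hD : ∏ b ∈ (Finset.Icc 3 12 : Finset ℕ).erase 7, iv ((b : ℚ) - (7 : ℕ)) ^ 8 =
      iv (((3 : ℕ) : ℚ) - (7 : ℕ)) ^ 8 * (iv (((4 : ℕ) : ℚ) - (7 : ℕ)) ^ 8 * (iv (((5 : ℕ) : ℚ) - (7 : ℕ)) ^ 8 * (iv (((6 : ℕ) : ℚ) - (7 : ℕ)) ^ 8 * (iv (((8 : ℕ) : ℚ) - (7 : ℕ)) ^ 8 * (iv (((9 : ℕ) : ℚ) - (7 : ℕ)) ^ 8 * (iv (((10 : ℕ) : ℚ) - (7 : ℕ)) ^ 8 * (iv (((11 : ℕ) : ℚ) - (7 : ℕ)) ^ 8 * (iv (((12 : ℕ) : ℚ) - (7 : ℕ)) ^ 8)))))))) := by
    rw [hE, Finset.prod_insert (by decide), Finset.prod_insert (by decide), Finset.prod_insert (by decide),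
      Finset.prod_insert (by decide), Finset.prod_insert (by decide), Finset.prod_insert (by decide),
      Finset.prod_insert (by decide), Finset.prod_insert (by decide), Finset.prod_singleton]
  have hs : ser 7 e = (iv (((3 : ℕ) : ℚ) - (7 : ℕ)) ^ 8 * (iv (((4 : ℕ) : ℚ) - (7 : ℕ)) ^ 8 * (iv (((5 : ℕ) : ℚ) - (7 : ℕ)) ^ 8 * (iv (((6 : ℕ) : ℚ) - (7 : ℕ)) ^ 8 * (iv (((8 : ℕ) : ℚ) - (7 : ℕ)) ^ 8 * (iv (((9 : ℕ) : ℚ) - (7 : ℕ)) ^ 8 * (iv (((10 : ℕ) : ℚ) - (7 : ℕ)) ^ 8 * (iv (((11 : ℕ) : ℚ) - (7 : ℕ)) ^ 8 * (iv (((12 : ℕ) : ℚ) - (7 : ℕ)) ^ 8 * ((∏ i ∈ ({0, 1, 2, 13, 14, 15} : Finset ℕ),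
      (PowerSeries.X + PowerSeries.C ((i : ℚ) - (7 : ℕ)))) *
      (∏ i ∈ ({3, 12} : Finset ℕ), (PowerSeries.X + PowerSeries.C ((i : ℚ) - (7 : ℕ)))) ^ 2)))))))))) *
      (PowerSeries.X + PowerSeries.C (-((7 : ℕ) : ℚ))) ^ e := by
    unfold ser
    rw [hD]
    congr 1
    exact assoc9 _ _ _ _ _ _ _ _ _ _
  rw [hs]
  exact h0

theorem rep_zeros_8 : Rep ((∏ i ∈ ({0, 1, 2, 13, 14, 15} : Finset ℕ),
    (PowerSeries.X + PowerSeries.C ((i : ℚ) - (8 : ℕ)))) *
    (∏ i ∈ ({3, 12} : Finset ℕ), (PowerSeries.X + PowerSeries.C ((i : ℚ) - (8 : ℕ)))) ^ 2) 1600080004011412 := by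
  rw [prod_zeros fun i => PowerSeries.X + PowerSeries.C ((i : ℚ) - (8 : ℕ)),
    prod_outer fun i => PowerSeries.X + PowerSeries.C ((i : ℚ) - (8 : ℕ))]
  have h1 := rep_mul (N' := 104) rep_one (Rl.sub_nat 12 8) (by decide +kernel)
  have h2 := rep_mul (N' := 10816) h1 (Rl.sub_nat 12 8) (by decide +kernel)
  have h3 := rep_mul (N' := 1031005) h2 (Rl.sub_nat 3 8) (by decide +kernel)
  have h4 := rep_mul (N' := 115120609) h3 (Rl.sub_nat 3 8) (by decide +kernel)
  have h5 := rep_mul (N' := 10515050012) h4 (Rl.sub_nat 15 8) (by decide +kernel)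
  have h6 := rep_mul (N' := 1111110131204) h5 (Rl.sub_nat 14 8) (by decide +kernel)
  have h7 := rep_mul (N' := 116151412091303) h6 (Rl.sub_nat 13 8) (by decide +kernel)
  have h8 := rep_mul (N' := 1004091305101016) h7 (Rl.sub_nat 2 8) (by decide +kernel)
  have h9 := rep_mul (N' := 215011609081407) h8 (Rl.sub_nat 1 8) (by decide +kernel)
  have h10 := rep_mul (N' := 1600080004011412) h9 (Rl.sub_nat 0 8) (by decide +kernel)
  rw [mul_one] at h10
  have e : ∀ a b c d e f g h : PowerSeries ℚ, (a * (b * (c * (d * (e * f))))) * (g * (g * (h * h))) =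
      a * (b * (c * (d * (e * (f * (g * (g * (h * h)))))))) := by
    intros
    ring
  rw [e]
  exact h10

/-- division by `X + 4` (pole 8) -/
def D8_12 : List ℕ := [1600080004011412, 1411071412070703, 415021601080905, 902070801140314, 1116060008030212, 1406090401040403, 1200060213000405, 108021510070614, 803130111000712]

theorem D8_12_chk : ∀ k < 8, Chk (12 + 16 * 8) (D8_12.getD (k + 1) 0) (D8_12.getD k 0) := by
  decide +kernel

/-- division by `X + 3` (pole 8) -/
def D8_11 : List ℕ := [803130111000712, 704080600110104, 201010508101507, 812160410120808, 510160215161514, 410140812131116, 101071012100011, 1216041208051215, 109060303160805]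

theorem D8_11_chk : ∀ k < 8, Chk (11 + 16 * 8) (D8_11.getD (k + 1) 0) (D8_11.getD k 0) := by
  decide +kernel

/-- division by `X + 2` (pole 8) -/
def D8_10 : List ℕ := [109060303160805, 704010412130711, 906090004040514, 1415100605111607, 602110513130212, 415061607161506, 1410121601050603, 210071503121510, 411051404120505]

theorem D8_10_chk : ∀ k < 8, Chk (10 + 16 * 8) (D8_10.getD (k + 1) 0) (D8_10.getD k 0) := by
  decide +kernel

/-- division by `X + 1` (pole 8) -/
def D8_9 : List ℕ := [411051404120505, 1011000509120005, 307041309001205, 300071416100705, 416010608080205, 1407090914111405, 212121412020905, 200120014150405, 1207100215161605]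

theorem D8_9_chk : ∀ k < 8, Chk (9 + 16 * 8) (D8_9.getD (k + 1) 0) (D8_9.getD k 0) := by
  decide +kernel

/-- division by `X + -1` (pole 8) -/
def D8_7 : List ℕ := [1207100215161605, 214041416141312, 1315121613120905, 703011312080312, 916020316110205, 413121400161012, 408041613131205, 1014050908040012, 616130110010505]

theorem D8_7_chk : ∀ k < 8, Chk (7 + 16 * 8) (D8_7.getD (k + 1) 0) (D8_7.getD k 0) := by
  decide +kernel

/-- division by `X + -2` (pole 8) -/
def D8_6 : List ℕ := [616130110010505, 601011514040906, 210040916121114, 1413020808150810, 915090314020212, 9160700141311, 1615050908161203, 101000502120607, 205110515150805]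

theorem D8_6_chk : ∀ k < 8, Chk (6 + 16 * 8) (D8_6.getD (k + 1) 0) (D8_6.getD k 0) := by
  decide +kernel

/-- division by `X + -3` (pole 8) -/
def D8_5 : List ℕ := [205110515150805, 414131602041004, 502030514100010, 1413070709071408, 1508031604040203, 1509010600041616, 702151208070806, 110150905060815, 310061606060712]

theorem D8_5_chk : ∀ k < 8, Chk (5 + 16 * 8) (D8_5.getD (k + 1) 0) (D8_5.getD k 0) := by
  decide +kernel

/-- division by `X + -4` (pole 8) -/
def D8_4 : List ℕ := [310061606060712, 610160207000614, 908081407010405, 616040708050403, 110050701120212, 1141013020314, 1405041311060905, 708031609130703, 909100901131412]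

theorem D8_4_chk : ∀ k < 8, Chk (4 + 16 * 8) (D8_4.getD (k + 1) 0) (D8_4.getD k 0) := by
  decide +kernel

/-- division by `X + -5` (pole 8) -/
def D8_3 : List ℕ := [909100901131412, 1306050114031101, 1503040807151010, 1102130113040115, 1413160807140614, 1206091007080304, 310050010060406, 1615000508160109, 314000005161105]

theorem D8_3_chk : ∀ k < 8, Chk (3 + 16 * 8) (D8_3.getD (k + 1) 0) (D8_3.getD k 0) := by
  decide +kernel

/-- the series at the pole 8 -/
def T8 : List ℕ := [314000005161105, 707000510020211, 212050407031214, 1311150915050307, 912081104140012, 814150116071206, 105000815071203, 1411080206070910, 105060710040605, 1400100509080811, 710100304121514, 515081414041307, 907010411150512, 313131312040606, 611111010080903, 1408071513131610, 1511101211140105, 1007000011081411, 1212001105010114, 106110212100607, 1514161316111012, 1306041402070006, 407160908120603, 911000416120610, 714040103121305, 911031205020311, 700051113040414, 1205051002061607, 1116040707021512,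 1312090214161106, 1015151506020303, 314140505041310, 704121615150805, 1614050614070911, 512000014040714, 606001411090907, 903140106050312, 1607081508140506, 1503020701120003, 212081304060310, 1314000208060305, 1207020910061511, 1314100611011014, 1200111415020207, 611110501030812, 1408021212011606, 1506130107081403, 516161603011010, 1007071111021505, 1202060816160411, 807110307121314, 1106000007021207, 303000714131312, 1310070903111006, 812041604071103, 1610011209060010, 106041502031005, 1507000104031011, 612011305031614]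

theorem T8_chk : ∀ k < 58, Chk (16 * 8) (T8.getD k 0) (T8.getD (k + 1) 0) := by
  decide +kernel

theorem rep_ser_8 (e : ℕ) (he : e < 59) : Rep (ser 8 e) (T8.getD e 0) := by
  have h1 := rep_iv_pow (a := ((12 : ℕ) : ℚ) - (8 : ℕ)) (by norm_num) (Rl.sub_nat 12 8)
    (ci := 13) (by decide) D8_12 _ rep_zeros_8 8 D8_12_chk
  have h2 := rep_iv_pow (a := ((11 : ℕ) : ℚ) - (8 : ℕ)) (by norm_num) (Rl.sub_nat 11 8)
    (ci := 6) (by decide) D8_11 _ h1 8 D8_11_chk
  have h3 := rep_iv_pow (a := ((10 : ℕ) : ℚ) - (8 : ℕ)) (by norm_num) (Rl.sub_nat 10 8)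
    (ci := 9) (by decide) D8_10 _ h2 8 D8_10_chk
  have h4 := rep_iv_pow (a := ((9 : ℕ) : ℚ) - (8 : ℕ)) (by norm_num) (Rl.sub_nat 9 8)
    (ci := 1) (by decide) D8_9 _ h3 8 D8_9_chk
  have h5 := rep_iv_pow (a := ((7 : ℕ) : ℚ) - (8 : ℕ)) (by norm_num) (Rl.sub_nat 7 8)
    (ci := 16) (by decide) D8_7 _ h4 8 D8_7_chk
  have h6 := rep_iv_pow (a := ((6 : ℕ) : ℚ) - (8 : ℕ)) (by norm_num) (Rl.sub_nat 6 8)
    (ci := 8) (by decide) D8_6 _ h5 8 D8_6_chk
  have h7 := rep_iv_pow (a := ((5 : ℕ) : ℚ) - (8 : ℕ)) (by norm_num) (Rl.sub_nat 5 8)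
    (ci := 11) (by decide) D8_5 _ h6 8 D8_5_chk
  have h8 := rep_iv_pow (a := ((4 : ℕ) : ℚ) - (8 : ℕ)) (by norm_num) (Rl.sub_nat 4 8)
    (ci := 4) (by decide) D8_4 _ h7 8 D8_4_chk
  have h9 := rep_iv_pow (a := ((3 : ℕ) : ℚ) - (8 : ℕ)) (by norm_num) (Rl.sub_nat 3 8)
    (ci := 10) (by decide) D8_3 _ h8 8 D8_3_chk
  have h0 := rep_lin_pow (Rl.nat 8).neg T8 _ h9 e (fun k hk => T8_chk k (by omega))
  have hE : (Finset.Icc 3 12 : Finset ℕ).erase 8 = {3, 4, 5, 6, 7, 9, 10, 11, 12} := by decide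
  have hD : ∏ b ∈ (Finset.Icc 3 12 : Finset ℕ).erase 8, iv ((b : ℚ) - (8 : ℕ)) ^ 8 =
      iv (((3 : ℕ) : ℚ) - (8 : ℕ)) ^ 8 * (iv (((4 : ℕ) : ℚ) - (8 : ℕ)) ^ 8 * (iv (((5 : ℕ) : ℚ) - (8 : ℕ)) ^ 8 * (iv (((6 : ℕ) : ℚ) - (8 : ℕ)) ^ 8 * (iv (((7 : ℕ) : ℚ) - (8 : ℕ)) ^ 8 * (iv (((9 : ℕ) : ℚ) - (8 : ℕ)) ^ 8 * (iv (((10 : ℕ) : ℚ) - (8 : ℕ)) ^ 8 * (iv (((11 : ℕ) : ℚ) - (8 : ℕ)) ^ 8 * (iv (((12 : ℕ) : ℚ) - (8 : ℕ)) ^ 8)))))))) := by
    rw [hE, Finset.prod_insert (by decide), Finset.prod_insert (by decide), Finset.prod_insert (by decide),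
      Finset.prod_insert (by decide), Finset.prod_insert (by decide), Finset.prod_insert (by decide),
      Finset.prod_insert (by decide), Finset.prod_insert (by decide), Finset.prod_singleton]
  have hs : ser 8 e = (iv (((3 : ℕ) : ℚ) - (8 : ℕ)) ^ 8 * (iv (((4 : ℕ) : ℚ) - (8 : ℕ)) ^ 8 * (iv (((5 : ℕ) : ℚ) - (8 : ℕ)) ^ 8 * (iv (((6 : ℕ) : ℚ) - (8 : ℕ)) ^ 8 * (iv (((7 : ℕ) : ℚ) - (8 : ℕ)) ^ 8 * (iv (((9 : ℕ) : ℚ) - (8 : ℕ)) ^ 8 * (iv (((10 : ℕ) : ℚ) - (8 : ℕ)) ^ 8 * (iv (((11 : ℕ) : ℚ) - (8 : ℕ)) ^ 8 * (iv (((12 : ℕ) : ℚ) - (8 : ℕ)) ^ 8 * ((∏ i ∈ ({0, 1, 2, 13, 14, 15} : Finset ℕ),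
      (PowerSeries.X + PowerSeries.C ((i : ℚ) - (8 : ℕ)))) *
      (∏ i ∈ ({3, 12} : Finset ℕ), (PowerSeries.X + PowerSeries.C ((i : ℚ) - (8 : ℕ)))) ^ 2)))))))))) *
      (PowerSeries.X + PowerSeries.C (-((8 : ℕ) : ℚ))) ^ e := by
    unfold ser
    rw [hD]
    congr 1
    exact assoc9 _ _ _ _ _ _ _ _ _ _
  rw [hs]
  exact h0

theorem rep_zeros_9 : Rep ((∏ i ∈ ({0, 1, 2, 13, 14, 15} : Finset ℕ),
    (PowerSeries.X + PowerSeries.C ((i : ℚ) - (9 : ℕ)))) *
    (∏ i ∈ ({3, 12} : Finset ℕ), (PowerSeries.X + PowerSeries.C ((i : ℚ) - (9 : ℕ)))) ^ 2) 1104140910150806 := by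
  rw [prod_zeros fun i => PowerSeries.X + PowerSeries.C ((i : ℚ) - (9 : ℕ)),
    prod_outer fun i => PowerSeries.X + PowerSeries.C ((i : ℚ) - (9 : ℕ))]
  have h1 := rep_mul (N' := 103) rep_one (Rl.sub_nat 12 9) (by decide +kernel)
  have h2 := rep_mul (N' := 10609) h1 (Rl.sub_nat 12 9) (by decide +kernel)
  have h3 := rep_mul (N' := 1000714) h2 (Rl.sub_nat 3 9) (by decide +kernel)
  have h4 := rep_mul (N' := 111070601) h3 (Rl.sub_nat 3 9) (by decide +kernel)
  have h5 := rep_mul (N' := 10005140306) h4 (Rl.sub_nat 15 9) (by decide +kernel)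
  have h6 := rep_mul (N' := 1050505050413) h5 (Rl.sub_nat 14 9) (by decide +kernel)
  have h7 := rep_mul (N' := 109080808071201) h6 (Rl.sub_nat 13 9) (by decide +kernel)
  have h8 := rep_mul (N' := 213030302140210) h7 (Rl.sub_nat 2 9) (by decide +kernel)
  have h9 := rep_mul (N' := 1401131215091105) h8 (Rl.sub_nat 1 9) (by decide +kernel)
  have h10 := rep_mul (N' := 1104140910150806) h9 (Rl.sub_nat 0 9) (by decide +kernel)
  rw [mul_one] at h10
  have e : ∀ a b c d e f g h : PowerSeries ℚ, (a * (b * (c * (d * (e * f))))) * (g * (g * (h * h))) =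
      a * (b * (c * (d * (e * (f * (g * (g * (h * h)))))))) := by
    intros
    ring
  rw [e]
  exact h10

/-- division by `X + 3` (pole 9) -/
def D9_12 : List ℕ := [1104140910150806, 302150300100202, 1315080813120812, 1000151400130704, 1208100208100007, 1501051200080308, 112160805020214, 1604001611060116, 1505061602050811]

theorem D9_12_chk : ∀ k < 8, Chk (12 + 16 * 9) (D9_12.getD (k + 1) 0) (D9_12.getD k 0) := by
  decide +kernel

/-- division by `X + 2` (pole 9) -/
def D9_11 : List ℕ := [1505061602050811, 701030016041414, 7041210131207, 916090306150012, 401141507091406, 102140309061403, 1407050412020210, 913150903060705, 205030908041511]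

theorem D9_11_chk : ∀ k < 8, Chk (11 + 16 * 9) (D9_11.getD (k + 1) 0) (D9_11.getD k 0) := by
  decide +kernel

/-- division by `X + 1` (pole 9) -/
def D9_10 : List ℕ := [205030908041511, 1603020108000411, 1501020001071011, 906120710081611, 1511120007030511, 1401100215091111, 1004141306090011, 1000041003030611, 1611061512081211]

theorem D9_10_chk : ∀ k < 8, Chk (10 + 16 * 9) (D9_10.getD (k + 1) 0) (D9_10.getD k 0) := by
  decide +kernel

/-- division by `X + -1` (pole 9) -/
def D9_8 : List ℕ := [1611061512081211, 1110041008031106, 516091306140011, 1116150703090606, 1206050310130511, 315040912050106, 1316140110051011, 501001415081306, 611121209071511]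

theorem D9_8_chk : ∀ k < 8, Chk (8 + 16 * 9) (D9_8.getD (k + 1) 0) (D9_8.getD k 0) := by
  decide +kernel

/-- division by `X + -2` (pole 9) -/
def D9_7 : List ℕ := [611121209071511, 414050505021103, 1313060005151507, 1407100901071205, 201091114121406, 801031507110014, 909020712140510, 1505020602161212, 15010414130811]

theorem D9_7_chk : ∀ k < 8, Chk (7 + 16 * 9) (D9_7.getD (k + 1) 0) (D9_7.getD k 0) := by
  decide +kernel

/-- division by `X + -3` (pole 9) -/
def D9_6 : List ℕ := [15010414130811, 1305130605121502, 511040813100805, 1516081107001004, 1200160509000010, 304120108161408, 1514121409010203, 1114051010051616, 1505120714010806]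

theorem D9_6_chk : ∀ k < 8, Chk (6 + 16 * 9) (D9_6.getD (k + 1) 0) (D9_6.getD k 0) := by
  decide +kernel

/-- division by `X + -4` (pole 9) -/
def D9_5 : List ℕ := [1505120714010806, 1212020302050407, 515040107130611, 716111406140110, 1013001107001406, 808111000071107, 1014131207110011, 114020411001110, 1302050507050306]

theorem D9_5_chk : ∀ k < 8, Chk (5 + 16 * 9) (D9_5.getD (k + 1) 0) (D9_5.getD k 0) := by
  decide +kernel

/-- division by `X + -5` (pole 9) -/
def D9_4 : List ℕ := [1302050507050306, 1503000513040809, 611070110121305, 1110100614120416, 309041303120407, 616040714050302, 602091514160003, 514041207150613, 215040713040111]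

theorem D9_4_chk : ∀ k < 8, Chk (4 + 16 * 9) (D9_4.getD (k + 1) 0) (D9_4.getD k 0) := by
  decide +kernel

/-- division by `X + -6` (pole 9) -/
def D9_3 : List ℕ := [215040713040111, 1100150910050001, 100001514090814, 1612040706160309, 1415000414051207, 1112021208110313, 206140101141012, 108031506031515, 213010901120706]

theorem D9_3_chk : ∀ k < 8, Chk (3 + 16 * 9) (D9_3.getD (k + 1) 0) (D9_3.getD k 0) := by
  decide +kernel

/-- the series at the pole 9 -/
def T9 : List ℕ := [213010901120706, 1203000503011114, 1407050908020010, 10151215161012, 1010130900020711, 508110402061603, 1407070005131207, 12050502140105, 1216110813111306, 1003110913160814, 1501120001001010, 203110108100512, 201041606000111, 12141514010203, 1208081511100207, 204111213140605, 309150716160206, 1602080408110514, 1107000607080310, 1005060413160012, 12011101091211, 1212020400160503, 613031516140907, 1005050006021105, 11060616100806, 1109031302030214, 1207030402091310, 108110008001212, 1607030813120611,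 1608150914000803, 11100110081607, 1113130103121605, 1615031102101406, 704010509091614, 916131513030610, 305001405130712, 1206141502090011, 11080308041103, 1111161500090607, 1402070109100405, 1206060014160306, 3141409121314, 304070216071610, 1105071516040212, 813030013001111, 905071302111403, 913010410001307, 3120812130905, 302020807110906, 901070316121014, 515080604040910, 409020102071412, 706001006020511, 1114100116040003, 3130713150307, 303090100041405, 1016050804121506, 1114140010090714, 7101004110210]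

theorem T9_chk : ∀ k < 58, Chk (16 * 9) (T9.getD k 0) (T9.getD (k + 1) 0) := by
  decide +kernel

theorem rep_ser_9 (e : ℕ) (he : e < 59) : Rep (ser 9 e) (T9.getD e 0) := by
  have h1 := rep_iv_pow (a := ((12 : ℕ) : ℚ) - (9 : ℕ)) (by norm_num) (Rl.sub_nat 12 9)
    (ci := 6) (by decide) D9_12 _ rep_zeros_9 8 D9_12_chk
  have h2 := rep_iv_pow (a := ((11 : ℕ) : ℚ) - (9 : ℕ)) (by norm_num) (Rl.sub_nat 11 9)
    (ci := 9) (by decide) D9_11 _ h1 8 D9_11_chk
  have h3 := rep_iv_pow (a := ((10 : ℕ) : ℚ) - (9 : ℕ)) (by norm_num) (Rl.sub_nat 10 9)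
    (ci := 1) (by decide) D9_10 _ h2 8 D9_10_chk
  have h4 := rep_iv_pow (a := ((8 : ℕ) : ℚ) - (9 : ℕ)) (by norm_num) (Rl.sub_nat 8 9)
    (ci := 16) (by decide) D9_8 _ h3 8 D9_8_chk
  have h5 := rep_iv_pow (a := ((7 : ℕ) : ℚ) - (9 : ℕ)) (by norm_num) (Rl.sub_nat 7 9)
    (ci := 8) (by decide) D9_7 _ h4 8 D9_7_chk
  have h6 := rep_iv_pow (a := ((6 : ℕ) : ℚ) - (9 : ℕ)) (by norm_num) (Rl.sub_nat 6 9)
    (ci := 11) (by decide) D9_6 _ h5 8 D9_6_chk
  have h7 := rep_iv_pow (a := ((5 : ℕ) : ℚ) - (9 : ℕ)) (by norm_num) (Rl.sub_nat 5 9)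
    (ci := 4) (by decide) D9_5 _ h6 8 D9_5_chk
  have h8 := rep_iv_pow (a := ((4 : ℕ) : ℚ) - (9 : ℕ)) (by norm_num) (Rl.sub_nat 4 9)
    (ci := 10) (by decide) D9_4 _ h7 8 D9_4_chk
  have h9 := rep_iv_pow (a := ((3 : ℕ) : ℚ) - (9 : ℕ)) (by norm_num) (Rl.sub_nat 3 9)
    (ci := 14) (by decide) D9_3 _ h8 8 D9_3_chk
  have h0 := rep_lin_pow (Rl.nat 9).neg T9 _ h9 e (fun k hk => T9_chk k (by omega))
  have hE : (Finset.Icc 3 12 : Finset ℕ).erase 9 = {3, 4, 5, 6, 7, 8, 10, 11, 12} := by decide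
  have hD : ∏ b ∈ (Finset.Icc 3 12 : Finset ℕ).erase 9, iv ((b : ℚ) - (9 : ℕ)) ^ 8 =
      iv (((3 : ℕ) : ℚ) - (9 : ℕ)) ^ 8 * (iv (((4 : ℕ) : ℚ) - (9 : ℕ)) ^ 8 * (iv (((5 : ℕ) : ℚ) - (9 : ℕ)) ^ 8 * (iv (((6 : ℕ) : ℚ) - (9 : ℕ)) ^ 8 * (iv (((7 : ℕ) : ℚ) - (9 : ℕ)) ^ 8 * (iv (((8 : ℕ) : ℚ) - (9 : ℕ)) ^ 8 * (iv (((10 : ℕ) : ℚ) - (9 : ℕ)) ^ 8 * (iv (((11 : ℕ) : ℚ) - (9 : ℕ)) ^ 8 * (iv (((12 : ℕ) : ℚ) - (9 : ℕ)) ^ 8)))))))) := by
    rw [hE, Finset.prod_insert (by decide), Finset.prod_insert (by decide), Finset.prod_insert (by decide),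
      Finset.prod_insert (by decide), Finset.prod_insert (by decide), Finset.prod_insert (by decide),
      Finset.prod_insert (by decide), Finset.prod_insert (by decide), Finset.prod_singleton]
  have hs : ser 9 e = (iv (((3 : ℕ) : ℚ) - (9 : ℕ)) ^ 8 * (iv (((4 : ℕ) : ℚ) - (9 : ℕ)) ^ 8 * (iv (((5 : ℕ) : ℚ) - (9 : ℕ)) ^ 8 * (iv (((6 : ℕ) : ℚ) - (9 : ℕ)) ^ 8 * (iv (((7 : ℕ) : ℚ) - (9 : ℕ)) ^ 8 * (iv (((8 : ℕ) : ℚ) - (9 : ℕ)) ^ 8 * (iv (((10 : ℕ) : ℚ) - (9 : ℕ)) ^ 8 * (iv (((11 : ℕ) : ℚ) - (9 : ℕ)) ^ 8 * (iv (((12 : ℕ) : ℚ) - (9 : ℕ)) ^ 8 * ((∏ i ∈ ({0, 1, 2, 13, 14, 15} : Finset ℕ),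
      (PowerSeries.X + PowerSeries.C ((i : ℚ) - (9 : ℕ)))) *
      (∏ i ∈ ({3, 12} : Finset ℕ), (PowerSeries.X + PowerSeries.C ((i : ℚ) - (9 : ℕ)))) ^ 2)))))))))) *
      (PowerSeries.X + PowerSeries.C (-((9 : ℕ) : ℚ))) ^ e := by
    unfold ser
    rw [hD]
    congr 1
    exact assoc9 _ _ _ _ _ _ _ _ _ _
  rw [hs]
  exact h0

theorem rep_zeros_10 : Rep ((∏ i ∈ ({0, 1, 2, 13, 14, 15} : Finset ℕ),
    (PowerSeries.X + PowerSeries.C ((i : ℚ) - (10 : ℕ)))) *
    (∏ i ∈ ({3, 12} : Finset ℕ), (PowerSeries.X + PowerSeries.C ((i : ℚ) - (10 : ℕ)))) ^ 2) 1403001408070107 := by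
  rw [prod_zeros fun i => PowerSeries.X + PowerSeries.C ((i : ℚ) - (10 : ℕ)),
    prod_outer fun i => PowerSeries.X + PowerSeries.C ((i : ℚ) - (10 : ℕ))]
  have h1 := rep_mul (N' := 102) rep_one (Rl.sub_nat 12 10) (by decide +kernel)
  have h2 := rep_mul (N' := 10404) h1 (Rl.sub_nat 12 10) (by decide +kernel)
  have h3 := rep_mul (N' := 1141006) h2 (Rl.sub_nat 3 10) (by decide +kernel)
  have h4 := rep_mul (N' := 107140409) h3 (Rl.sub_nat 3 10) (by decide +kernel)
  have h5 := rep_mul (N' := 11215061211) h4 (Rl.sub_nat 15 10) (by decide +kernel)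
  have h6 := rep_mul (N' := 1161215020810) h5 (Rl.sub_nat 14 10) (by decide +kernel)
  have h7 := rep_mul (N' := 102090013140013) h6 (Rl.sub_nat 13 10) (by decide +kernel)
  have h8 := rep_mul (N' := 1110131312071315) h7 (Rl.sub_nat 2 10) (by decide +kernel)
  have h9 := rep_mul (N' := 1308151401010001) h8 (Rl.sub_nat 1 10) (by decide +kernel)
  have h10 := rep_mul (N' := 1403001408070107) h9 (Rl.sub_nat 0 10) (by decide +kernel)
  rw [mul_one] at h10
  have e : ∀ a b c d e f g h : PowerSeries ℚ, (a * (b * (c * (d * (e * f))))) * (g * (g * (h * h))) =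
      a * (b * (c * (d * (e * (f * (g * (g * (h * h)))))))) := by
    intros
    ring
  rw [e]
  exact h10

/-- division by `X + 2` (pole 10) -/
def D10_12 : List ℕ := [1403001408070107, 1305101403020312, 503161207060706, 904120911020203, 1006091104031310, 713141515080405, 612060211100511, 300121604030414, 1605071503150707]

theorem D10_12_chk : ∀ k < 8, Chk (12 + 16 * 10) (D10_12.getD (k + 1) 0) (D10_12.getD k 0) := by
  decide +kernel

/-- division by `X + 1` (pole 10) -/
def D10_11 : List ℕ := [1605071503150707, 808141005150007, 404041000051007, 912091215020307, 306060309061307, 911121109000607, 702090308011607, 1014050416090907, 604101209070207]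

theorem D10_11_chk : ∀ k < 8, Chk (11 + 16 * 10) (D10_11.getD (k + 1) 0) (D10_11.getD k 0) := by
  decide +kernel

/-- division by `X + -1` (pole 10) -/
def D10_9 : List ℕ := [604101209070207, 1100041409010810, 1105050906151607, 1105101507131110, 314021210001307, 710070904141410, 1000100009131007, 902021212040010, 9111308030707]

theorem D10_9_chk : ∀ k < 8, Chk (9 + 16 * 10) (D10_9.getD (k + 1) 0) (D10_9.getD k 0) := by
  decide +kernel

/-- division by `X + -2` (pole 10) -/
def D10_8 : List ℕ := [9111308030707, 816070812151605, 807131606071206, 1113161104140114, 1116110402081310, 912060616000812, 1607090703051011, 407040007000503, 1602110901090107]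

theorem D10_8_chk : ∀ k < 8, Chk (8 + 16 * 10) (D10_8.getD (k + 1) 0) (D10_8.getD k 0) := by
  decide +kernel

/-- division by `X + -3` (pole 10) -/
def D10_7 : List ℕ := [1602110901090107, 308090404131409, 1600081601070014, 102060909110601, 516160301121311, 400161308080202, 1103090906090105, 114110816030104, 1306150506000310]

theorem D10_7_chk : ∀ k < 8, Chk (7 + 16 * 10) (D10_7.getD (k + 1) 0) (D10_7.getD k 0) := by
  decide +kernel

/-- division by `X + -4` (pole 10) -/
def D10_6 : List ℕ := [1306150506000310, 1210121202140506, 1105131313030907, 1312020412100911, 1210010611051310, 116060804101106, 1510050910101607, 310160113110311, 1408081406030610]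

theorem D10_6_chk : ∀ k < 8, Chk (6 + 16 * 10) (D10_6.getD (k + 1) 0) (D10_6.getD k 0) := by
  decide +kernel

/-- division by `X + -5` (pole 10) -/
def D10_5 : List ℕ := [1408081406030610, 610070908121215, 409041008141414, 1213060010071504, 12051402030506, 315021504051109, 301030015110905, 1300010806111516, 416121007071207]

theorem D10_5_chk : ∀ k < 8, Chk (5 + 16 * 10) (D10_5.getD (k + 1) 0) (D10_5.getD k 0) := by
  decide +kernel

/-- division by `X + -6` (pole 10) -/
def D10_4 : List ℕ := [416121007071207, 907070311050313, 806091012151012, 1602011515001515, 1415070901040706, 1006000700011016, 506081406021303, 1315110616000208, 314141015040710]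

theorem D10_4_chk : ∀ k < 8, Chk (4 + 16 * 10) (D10_4.getD (k + 1) 0) (D10_4.getD k 0) := by
  decide +kernel

/-- division by `X + -7` (pole 10) -/
def D10_3 : List ℕ := [314141015040710, 1005150010000401, 1513110715130612, 910151403021008, 904040909150511, 1208091602060613, 316011609140203, 1613050213150002, 911050610150107]

theorem D10_3_chk : ∀ k < 8, Chk (3 + 16 * 10) (D10_3.getD (k + 1) 0) (D10_3.getD k 0) := by
  decide +kernel

/-- the series at the pole 10 -/
def T10 : List ℕ := [911050610150107, 614070100041415, 503160704081103, 403000202161204, 1404021613050311, 13130611041509, 1302120213091212, 809011015071116, 1413000010090810, 906001011031502, 108101312020514, 1515150101021513, 101040809121606, 811021407151608, 1611110313020105, 403120008151201, 1416160803150007, 1209010802030715, 813150700111303, 104101511050904, 1104001414101611, 1311141006010409, 6060809110312, 614161406121616, 512070203150910, 1306000002120502, 1208000209040314, 705020616140113, 303030707140306,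 707110512161008, 509141315031005, 1009090406140701, 1104160005031607, 1310100504030015, 1612070514041503, 506031500090604, 711020309011211, 911001313021009, 609130208071112, 8080512090416, 813101308161010, 116151404031202, 608000014160114, 1605001412110413, 1501140810130706, 404041515130408, 1515090116100205, 112130603040201, 212121108131507, 911100001041015, 602020111040003, 1016150113110304, 108040300120811, 1509140412071609, 1209000606140212, 812061405150916, 5050116121110, 506020605100202, 710031311041614]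

theorem T10_chk : ∀ k < 58, Chk (16 * 10) (T10.getD k 0) (T10.getD (k + 1) 0) := by
  decide +kernel

theorem rep_ser_10 (e : ℕ) (he : e < 59) : Rep (ser 10 e) (T10.getD e 0) := by
  have h1 := rep_iv_pow (a := ((12 : ℕ) : ℚ) - (10 : ℕ)) (by norm_num) (Rl.sub_nat 12 10)
    (ci := 9) (by decide) D10_12 _ rep_zeros_10 8 D10_12_chk
  have h2 := rep_iv_pow (a := ((11 : ℕ) : ℚ) - (10 : ℕ)) (by norm_num) (Rl.sub_nat 11 10)
    (ci := 1) (by decide) D10_11 _ h1 8 D10_11_chk
  have h3 := rep_iv_pow (a := ((9 : ℕ) : ℚ) - (10 : ℕ)) (by norm_num) (Rl.sub_nat 9 10)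
    (ci := 16) (by decide) D10_9 _ h2 8 D10_9_chk
  have h4 := rep_iv_pow (a := ((8 : ℕ) : ℚ) - (10 : ℕ)) (by norm_num) (Rl.sub_nat 8 10)
    (ci := 8) (by decide) D10_8 _ h3 8 D10_8_chk
  have h5 := rep_iv_pow (a := ((7 : ℕ) : ℚ) - (10 : ℕ)) (by norm_num) (Rl.sub_nat 7 10)
    (ci := 11) (by decide) D10_7 _ h4 8 D10_7_chk
  have h6 := rep_iv_pow (a := ((6 : ℕ) : ℚ) - (10 : ℕ)) (by norm_num) (Rl.sub_nat 6 10)
    (ci := 4) (by decide) D10_6 _ h5 8 D10_6_chk
  have h7 := rep_iv_pow (a := ((5 : ℕ) : ℚ) - (10 : ℕ)) (by norm_num) (Rl.sub_nat 5 10)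
    (ci := 10) (by decide) D10_5 _ h6 8 D10_5_chk
  have h8 := rep_iv_pow (a := ((4 : ℕ) : ℚ) - (10 : ℕ)) (by norm_num) (Rl.sub_nat 4 10)
    (ci := 14) (by decide) D10_4 _ h7 8 D10_4_chk
  have h9 := rep_iv_pow (a := ((3 : ℕ) : ℚ) - (10 : ℕ)) (by norm_num) (Rl.sub_nat 3 10)
    (ci := 12) (by decide) D10_3 _ h8 8 D10_3_chk
  have h0 := rep_lin_pow (Rl.nat 10).neg T10 _ h9 e (fun k hk => T10_chk k (by omega))
  have hE : (Finset.Icc 3 12 : Finset ℕ).erase 10 = {3, 4, 5, 6, 7, 8, 9, 11, 12} := by decide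
  have hD : ∏ b ∈ (Finset.Icc 3 12 : Finset ℕ).erase 10, iv ((b : ℚ) - (10 : ℕ)) ^ 8 =
      iv (((3 : ℕ) : ℚ) - (10 : ℕ)) ^ 8 * (iv (((4 : ℕ) : ℚ) - (10 : ℕ)) ^ 8 * (iv (((5 : ℕ) : ℚ) - (10 : ℕ)) ^ 8 * (iv (((6 : ℕ) : ℚ) - (10 : ℕ)) ^ 8 * (iv (((7 : ℕ) : ℚ) - (10 : ℕ)) ^ 8 * (iv (((8 : ℕ) : ℚ) - (10 : ℕ)) ^ 8 * (iv (((9 : ℕ) : ℚ) - (10 : ℕ)) ^ 8 * (iv (((11 : ℕ) : ℚ) - (10 : ℕ)) ^ 8 * (iv (((12 : ℕ) : ℚ) - (10 : ℕ)) ^ 8)))))))) := by
    rw [hE, Finset.prod_insert (by decide), Finset.prod_insert (by decide), Finset.prod_insert (by decide),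
      Finset.prod_insert (by decide), Finset.prod_insert (by decide), Finset.prod_insert (by decide),
      Finset.prod_insert (by decide), Finset.prod_insert (by decide), Finset.prod_singleton]
  have hs : ser 10 e = (iv (((3 : ℕ) : ℚ) - (10 : ℕ)) ^ 8 * (iv (((4 : ℕ) : ℚ) - (10 : ℕ)) ^ 8 * (iv (((5 : ℕ) : ℚ) - (10 : ℕ)) ^ 8 * (iv (((6 : ℕ) : ℚ) - (10 : ℕ)) ^ 8 * (iv (((7 : ℕ) : ℚ) - (10 : ℕ)) ^ 8 * (iv (((8 : ℕ) : ℚ) - (10 : ℕ)) ^ 8 * (iv (((9 : ℕ) : ℚ) - (10 : ℕ)) ^ 8 * (iv (((11 : ℕ) : ℚ) - (10 : ℕ)) ^ 8 * (iv (((12 : ℕ) : ℚ) - (10 : ℕ)) ^ 8 * ((∏ i ∈ ({0, 1, 2, 13, 14, 15} : Finset ℕ),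
      (PowerSeries.X + PowerSeries.C ((i : ℚ) - (10 : ℕ)))) *
      (∏ i ∈ ({3, 12} : Finset ℕ), (PowerSeries.X + PowerSeries.C ((i : ℚ) - (10 : ℕ)))) ^ 2)))))))))) *
      (PowerSeries.X + PowerSeries.C (-((10 : ℕ) : ℚ))) ^ e := by
    unfold ser
    rw [hD]
    congr 1
    exact assoc9 _ _ _ _ _ _ _ _ _ _
  rw [hs]
  exact h0

theorem rep_zeros_11 : Rep ((∏ i ∈ ({0, 1, 2, 13, 14, 15} : Finset ℕ),
    (PowerSeries.X + PowerSeries.C ((i : ℚ) - (11 : ℕ)))) *
    (∏ i ∈ ({3, 12} : Finset ℕ), (PowerSeries.X + PowerSeries.C ((i : ℚ) - (11 : ℕ)))) ^ 2) 213030816060910 := by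
  rw [prod_zeros fun i => PowerSeries.X + PowerSeries.C ((i : ℚ) - (11 : ℕ)),
    prod_outer fun i => PowerSeries.X + PowerSeries.C ((i : ℚ) - (11 : ℕ))]
  have h1 := rep_mul (N' := 101) rep_one (Rl.sub_nat 12 11) (by decide +kernel)
  have h2 := rep_mul (N' := 10201) h1 (Rl.sub_nat 12 11) (by decide +kernel)
  have h3 := rep_mul (N' := 1110209) h2 (Rl.sub_nat 3 11) (by decide +kernel)
  have h4 := rep_mul (N' := 103161013) h3 (Rl.sub_nat 3 11) (by decide +kernel)
  have h5 := rep_mul (N' := 10711060201) h4 (Rl.sub_nat 15 11) (by decide +kernel)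
  have h6 := rep_mul (N' := 1101505030703) h5 (Rl.sub_nat 14 11) (by decide +kernel)
  have h7 := rep_mul (N' := 112010113130006) h6 (Rl.sub_nat 13 11) (by decide +kernel)
  have h8 := rep_mul (N' := 312090415020614) h7 (Rl.sub_nat 2 11) (by decide +kernel)
  have h9 := rep_mul (N' := 1608160905030513) h8 (Rl.sub_nat 1 11) (by decide +kernel)
  have h10 := rep_mul (N' := 213030816060910) h9 (Rl.sub_nat 0 11) (by decide +kernel)
  rw [mul_one] at h10
  have e : ∀ a b c d e f g h : PowerSeries ℚ, (a * (b * (c * (d * (e * f))))) * (g * (g * (h * h))) =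
      a * (b * (c * (d * (e * (f * (g * (g * (h * h)))))))) := by
    intros
    ring
  rw [e]
  exact h10

/-- division by `X + 1` (pole 11) -/
def D11_12 : List ℕ := [213030816060910, 1009041609071610, 1413130808010610, 905080503051310, 801040401020310, 1609091209091010, 412141200090010, 912001415020710, 1016130410051410]

theorem D11_12_chk : ∀ k < 8, Chk (12 + 16 * 11) (D11_12.getD (k + 1) 0) (D11_12.getD k 0) := by
  decide +kernel

/-- division by `X + -1` (pole 11) -/
def D11_10 : List ℕ := [1016130410051410, 313120812051007, 1501140900120010, 705060312120707, 916041013080310, 1204030700130407, 113000310100610, 1516121215080107, 1614130803010910]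

theorem D11_10_chk : ∀ k < 8, Chk (10 + 16 * 11) (D11_10.getD (k + 1) 0) (D11_10.getD k 0) := by
  decide +kernel

/-- division by `X + -2` (pole 11) -/
def D11_9 : List ℕ := [1614130803010910, 900140705131012, 9011605150911, 1003151410081403, 1013120507070507, 911011416050005, 1301131000160306, 13101608161414, 306080900081510]

theorem D11_9_chk : ∀ k < 8, Chk (9 + 16 * 11) (D11_9.getD (k + 1) 0) (D11_9.getD k 0) := by
  decide +kernel

/-- division by `X + -3` (pole 11) -/
def D11_8 : List ℕ := [306080900081510, 1600060902060908, 703091606031503, 7071304010616, 103160408110006, 1615140708150515, 806161106090812, 8130406071313, 412100914141507]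

theorem D11_8_chk : ∀ k < 8, Chk (8 + 16 * 11) (D11_8.getD (k + 1) 0) (D11_8.getD k 0) := by
  decide +kernel

/-- division by `X + -4` (pole 11) -/
def D11_7 : List ℕ := [412100914141507, 1600120703091611, 606070614080710, 509080509160406, 508070213100507, 1601120401001011, 16140004000010, 161006111006, 1606131207]

theorem D11_7_chk : ∀ k < 8, Chk (7 + 16 * 11) (D11_7.getD (k + 1) 0) (D11_7.getD k 0) := by
  decide +kernel

/-- division by `X + -5` (pole 11) -/
def D11_6 : List ℕ := [1606131207, 701050805141502, 603160008110103, 900031402011613, 202100207031611, 703001001121208, 200031500010012, 510161505080701, 706061207060410]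

theorem D11_6_chk : ∀ k < 8, Chk (6 + 16 * 11) (D11_6.getD (k + 1) 0) (D11_6.getD k 0) := by
  decide +kernel

/-- division by `X + -6` (pole 11) -/
def D11_5 : List ℕ := [706061207060410, 910151110160004, 115150312141505, 815031614111202, 309010902091411, 516030204091201, 908131312080614, 1603091607030909, 105160300071107]

theorem D11_5_chk : ∀ k < 8, Chk (5 + 16 * 11) (D11_5.getD (k + 1) 0) (D11_5.getD k 0) := by
  decide +kernel

/-- division by `X + -7` (pole 11) -/
def D11_4 : List ℕ := [105160300071107, 913110808050816, 510151404020205, 703141106120109, 1313090906140806, 103000904001404, 215060814000014, 700150903010715, 1600001512021510]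

theorem D11_4_chk : ∀ k < 8, Chk (4 + 16 * 11) (D11_4.getD (k + 1) 0) (D11_4.getD k 0) := by
  decide +kernel

/-- division by `X + -8` (pole 11) -/
def D11_3 : List ℕ := [1600001512021510, 306141010070703, 202050300100206, 616110816091412, 910111401071407, 407151208140014, 203140808041211, 508160605141405, 710030603120810]

theorem D11_3_chk : ∀ k < 8, Chk (3 + 16 * 11) (D11_3.getD (k + 1) 0) (D11_3.getD k 0) := by
  decide +kernel

/-- the series at the pole 11 -/
def T11 : List ℕ := [710030603120810, 112070513120709, 111130905110003, 11020807150301, 1100030406080206, 1503051310160102, 806090308120812, 311060909120904, 1204111215130707, 801100201001508, 1516111306151314, 405111600010716, 1207141101130711, 1105101602000215, 306081312021005, 710100506051413, 102140207101210, 809010201041409, 604081310040803, 615100313150001, 15121408050106, 1500010702141202, 501131009110612, 1402030114041404, 115020303040307, 407150405100808, 1406091206000514, 511151002051016, 713151100060811,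 408161506100815, 1513091112001205, 102141004120913, 809091302131610, 612161208090409, 1403061206071603, 207141009071401, 205090110050006, 5041614130602, 500060812160412, 1306100903150204, 1612010616071607, 605120101070108, 708050713091414, 1602030402001316, 1315050912130911, 810051500021415, 714110502091405, 510031504000413, 612160907040310, 1403031012101109, 204110414030703, 1601020402081101, 1208160903081606, 1213030609130002, 13071116100212, 1300021404110704, 1002090301051207, 1104060211081108, 213040606080614]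

theorem T11_chk : ∀ k < 58, Chk (16 * 11) (T11.getD k 0) (T11.getD (k + 1) 0) := by
  decide +kernel

theorem rep_ser_11 (e : ℕ) (he : e < 59) : Rep (ser 11 e) (T11.getD e 0) := by
  have h1 := rep_iv_pow (a := ((12 : ℕ) : ℚ) - (11 : ℕ)) (by norm_num) (Rl.sub_nat 12 11)
    (ci := 1) (by decide) D11_12 _ rep_zeros_11 8 D11_12_chk
  have h2 := rep_iv_pow (a := ((10 : ℕ) : ℚ) - (11 : ℕ)) (by norm_num) (Rl.sub_nat 10 11)
    (ci := 16) (by decide) D11_10 _ h1 8 D11_10_chk
  have h3 := rep_iv_pow (a := ((9 : ℕ) : ℚ) - (11 : ℕ)) (by norm_num) (Rl.sub_nat 9 11)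
    (ci := 8) (by decide) D11_9 _ h2 8 D11_9_chk
  have h4 := rep_iv_pow (a := ((8 : ℕ) : ℚ) - (11 : ℕ)) (by norm_num) (Rl.sub_nat 8 11)
    (ci := 11) (by decide) D11_8 _ h3 8 D11_8_chk
  have h5 := rep_iv_pow (a := ((7 : ℕ) : ℚ) - (11 : ℕ)) (by norm_num) (Rl.sub_nat 7 11)
    (ci := 4) (by decide) D11_7 _ h4 8 D11_7_chk
  have h6 := rep_iv_pow (a := ((6 : ℕ) : ℚ) - (11 : ℕ)) (by norm_num) (Rl.sub_nat 6 11)
    (ci := 10) (by decide) D11_6 _ h5 8 D11_6_chk
  have h7 := rep_iv_pow (a := ((5 : ℕ) : ℚ) - (11 : ℕ)) (by norm_num) (Rl.sub_nat 5 11)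
    (ci := 14) (by decide) D11_5 _ h6 8 D11_5_chk
  have h8 := rep_iv_pow (a := ((4 : ℕ) : ℚ) - (11 : ℕ)) (by norm_num) (Rl.sub_nat 4 11)
    (ci := 12) (by decide) D11_4 _ h7 8 D11_4_chk
  have h9 := rep_iv_pow (a := ((3 : ℕ) : ℚ) - (11 : ℕ)) (by norm_num) (Rl.sub_nat 3 11)
    (ci := 2) (by decide) D11_3 _ h8 8 D11_3_chk
  have h0 := rep_lin_pow (Rl.nat 11).neg T11 _ h9 e (fun k hk => T11_chk k (by omega))
  have hE : (Finset.Icc 3 12 : Finset ℕ).erase 11 = {3, 4, 5, 6, 7, 8, 9, 10, 12} := by decide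
  have hD : ∏ b ∈ (Finset.Icc 3 12 : Finset ℕ).erase 11, iv ((b : ℚ) - (11 : ℕ)) ^ 8 =
      iv (((3 : ℕ) : ℚ) - (11 : ℕ)) ^ 8 * (iv (((4 : ℕ) : ℚ) - (11 : ℕ)) ^ 8 * (iv (((5 : ℕ) : ℚ) - (11 : ℕ)) ^ 8 * (iv (((6 : ℕ) : ℚ) - (11 : ℕ)) ^ 8 * (iv (((7 : ℕ) : ℚ) - (11 : ℕ)) ^ 8 * (iv (((8 : ℕ) : ℚ) - (11 : ℕ)) ^ 8 * (iv (((9 : ℕ) : ℚ) - (11 : ℕ)) ^ 8 * (iv (((10 : ℕ) : ℚ) - (11 : ℕ)) ^ 8 * (iv (((12 : ℕ) : ℚ) - (11 : ℕ)) ^ 8)))))))) := by
    rw [hE, Finset.prod_insert (by decide), Finset.prod_insert (by decide), Finset.prod_insert (by decide),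
      Finset.prod_insert (by decide), Finset.prod_insert (by decide), Finset.prod_insert (by decide),
      Finset.prod_insert (by decide), Finset.prod_insert (by decide), Finset.prod_singleton]
  have hs : ser 11 e = (iv (((3 : ℕ) : ℚ) - (11 : ℕ)) ^ 8 * (iv (((4 : ℕ) : ℚ) - (11 : ℕ)) ^ 8 * (iv (((5 : ℕ) : ℚ) - (11 : ℕ)) ^ 8 * (iv (((6 : ℕ) : ℚ) - (11 : ℕ)) ^ 8 * (iv (((7 : ℕ) : ℚ) - (11 : ℕ)) ^ 8 * (iv (((8 : ℕ) : ℚ) - (11 : ℕ)) ^ 8 * (iv (((9 : ℕ) : ℚ) - (11 : ℕ)) ^ 8 * (iv (((10 : ℕ) : ℚ) - (11 : ℕ)) ^ 8 * (iv (((12 : ℕ) : ℚ) - (11 : ℕ)) ^ 8 * ((∏ i ∈ ({0, 1, 2, 13, 14, 15} : Finset ℕ),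
      (PowerSeries.X + PowerSeries.C ((i : ℚ) - (11 : ℕ)))) *
      (∏ i ∈ ({3, 12} : Finset ℕ), (PowerSeries.X + PowerSeries.C ((i : ℚ) - (11 : ℕ)))) ^ 2)))))))))) *
      (PowerSeries.X + PowerSeries.C (-((11 : ℕ) : ℚ))) ^ e := by
    unfold ser
    rw [hD]
    congr 1
    exact assoc9 _ _ _ _ _ _ _ _ _ _
  rw [hs]
  exact h0

theorem rep_zeros_12 : Rep ((∏ i ∈ ({0, 1, 2, 13, 14, 15} : Finset ℕ),
    (PowerSeries.X + PowerSeries.C ((i : ℚ) - (12 : ℕ)))) *
    (∏ i ∈ ({3, 12} : Finset ℕ), (PowerSeries.X + PowerSeries.C ((i : ℚ) - (12 : ℕ)))) ^ 2) 307081105090000 := by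
  rw [prod_zeros fun i => PowerSeries.X + PowerSeries.C ((i : ℚ) - (12 : ℕ)),
    prod_outer fun i => PowerSeries.X + PowerSeries.C ((i : ℚ) - (12 : ℕ))]
  have h1 := rep_mul (N' := 100) rep_one (Rl.sub_nat 12 12) (by decide +kernel)
  have h2 := rep_mul (N' := 10000) h1 (Rl.sub_nat 12 12) (by decide +kernel)
  have h3 := rep_mul (N' := 1080000) h2 (Rl.sub_nat 3 12) (by decide +kernel)
  have h4 := rep_mul (N' := 116130000) h3 (Rl.sub_nat 3 12) (by decide +kernel)
  have h5 := rep_mul (N' := 10210050000) h4 (Rl.sub_nat 15 12) (by decide +kernel)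
  have h6 := rep_mul (N' := 1041408100000) h5 (Rl.sub_nat 14 12) (by decide +kernel)
  have h7 := rep_mul (N' := 105010501100000) h6 (Rl.sub_nat 13 12) (by decide +kernel)
  have h8 := rep_mul (N' := 1202120200020000) h7 (Rl.sub_nat 2 12) (by decide +kernel)
  have h9 := rep_mul (N' := 607061202120000) h8 (Rl.sub_nat 1 12) (by decide +kernel)
  have h10 := rep_mul (N' := 307081105090000) h9 (Rl.sub_nat 0 12) (by decide +kernel)
  rw [mul_one] at h10
  have e : ∀ a b c d e f g h : PowerSeries ℚ, (a * (b * (c * (d * (e * f))))) * (g * (g * (h * h))) =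
      a * (b * (c * (d * (e * (f * (g * (g * (h * h)))))))) := by
    intros
    ring
  rw [e]
  exact h10

/-- division by `X + -1` (pole 12) -/
def D12_11 : List ℕ := [307081105090000, 811010903080000, 1102131406090000, 1307090502080000, 703100207090000, 1303061601080000, 400030908090000, 105050800080000, 708130109090000]

theorem D12_11_chk : ∀ k < 8, Chk (11 + 16 * 12) (D12_11.getD (k + 1) 0) (D12_11.getD k 0) := by
  decide +kernel

/-- division by `X + -2` (pole 12) -/
def D12_10 : List ℕ := [708130109090000, 704161106040000, 7010113150000, 306020511010000, 1601080107080000, 1002050103130000, 605121208020000, 1502091304160000, 1205121611090000]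

theorem D12_10_chk : ∀ k < 8, Chk (10 + 16 * 12) (D12_10.getD (k + 1) 0) (D12_10.getD k 0) := by
  decide +kernel

/-- division by `X + -3` (pole 12) -/
def D12_9 : List ℕ := [1205121611090000, 304001201140000, 1102101300010000, 509121215110000, 915030407020000, 301010605050000, 501041311040000, 1413060511100000, 1508031516080000]

theorem D12_9_chk : ∀ k < 8, Chk (9 + 16 * 12) (D12_9.getD (k + 1) 0) (D12_9.getD k 0) := by
  decide +kernel

/-- division by `X + -4` (pole 12) -/
def D12_8 : List ℕ := [1508031516080000, 1108061004150000, 1503030114090000, 1316161614020000, 1210050207080000, 411030002150000, 403061006090000, 108011016020000, 1302161415080000]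

theorem D12_8_chk : ∀ k < 8, Chk (8 + 16 * 12) (D12_8.getD (k + 1) 0) (D12_8.getD k 0) := by
  decide +kernel

/-- division by `X + -5` (pole 12) -/
def D12_7 : List ℕ := [1302161415080000, 1415091013120000, 505060501010000, 215121512100000, 405060804150000, 810040902140000, 604130114040000, 514060912060000, 811011113090000]

theorem D12_7_chk : ∀ k < 8, Chk (7 + 16 * 12) (D12_7.getD (k + 1) 0) (D12_7.getD k 0) := by
  decide +kernel

/-- division by `X + -6` (pole 12) -/
def D12_6 : List ℕ := [811011113090000, 8081516070000, 1204151308130000, 313141412120000, 906150209150000, 9090108060000, 903100107160000, 9061205030000, 708060809080000]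

theorem D12_6_chk : ∀ k < 8, Chk (6 + 16 * 12) (D12_6.getD (k + 1) 0) (D12_6.getD k 0) := by
  decide +kernel

/-- division by `X + -7` (pole 12) -/
def D12_5 : List ℕ := [708060809080000, 1009031010110000, 1012080815130000, 1012110008030000, 1012110304020000, 1209070915070000, 1211011405160000, 406021500050000, 415091411090000]

theorem D12_5_chk : ∀ k < 8, Chk (5 + 16 * 12) (D12_5.getD (k + 1) 0) (D12_5.getD k 0) := by
  decide +kernel

/-- division by `X + -8` (pole 12) -/
def D12_4 : List ℕ := [415091411090000, 1414080503010000, 503040602020000, 602020313040000, 1308150310080000, 1008041305160000, 209121514150000, 906060902130000, 1402051203090000]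

theorem D12_4_chk : ∀ k < 8, Chk (4 + 16 * 12) (D12_4.getD (k + 1) 0) (D12_4.getD k 0) := by
  decide +kernel

/-- division by `X + -9` (pole 12) -/
def D12_3 : List ℕ := [1402051203090000, 1203121109160000, 1201120103020000, 1000010403130000, 10051210080000, 109060816010000, 914161415150000, 411111312040000, 1503041311090000]

theorem D12_3_chk : ∀ k < 8, Chk (3 + 16 * 12) (D12_3.getD (k + 1) 0) (D12_3.getD k 0) := by
  decide +kernel

/-- the series at the pole 12 -/
def T12 : List ℕ := [1503041311090000, 1002160813110000, 109030208040000, 1414000110030000, 1602011502150000, 1411030908070000, 1307070213010000, 408030615050000, 1109041112080000, 1315141600060000, 1204011206130000, 1304001509140000, 103151608020000, 813060308100000, 203160616160000, 1314011211120000, 1103000316090000, 715031404110000, 1610120614040000, 511151006030000, 202000516150000, 1210050710070000, 204151106010000, 1401011014050000, 306151307080000, 411030409060000, 1407021200130000, 903050913140000,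 1403000711020000, 515071206100000, 614131506160000, 1015121312120000, 1402050904090000, 415001512110000, 107150203040000, 1216091302030000, 804071613150000, 1010000812070000, 916080116010000, 1003070413050000, 205051602080000, 1513071401060000, 304150311130000, 201100900140000, 1115081114020000, 215000104100000, 807010913160000, 1302140713120000, 1607091409090000, 210081103110000, 307000709040000, 501071015030000, 912111410150000, 603011214070000, 1616000609010000, 1112060512050000, 1615010314080000, 1008081210060000, 714010205130000]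

theorem T12_chk : ∀ k < 58, Chk (16 * 12) (T12.getD k 0) (T12.getD (k + 1) 0) := by
  decide +kernel

theorem rep_ser_12 (e : ℕ) (he : e < 59) : Rep (ser 12 e) (T12.getD e 0) := by
  have h1 := rep_iv_pow (a := ((11 : ℕ) : ℚ) - (12 : ℕ)) (by norm_num) (Rl.sub_nat 11 12)
    (ci := 16) (by decide) D12_11 _ rep_zeros_12 8 D12_11_chk
  have h2 := rep_iv_pow (a := ((10 : ℕ) : ℚ) - (12 : ℕ)) (by norm_num) (Rl.sub_nat 10 12)
    (ci := 8) (by decide) D12_10 _ h1 8 D12_10_chk
  have h3 := rep_iv_pow (a := ((9 : ℕ) : ℚ) - (12 : ℕ)) (by norm_num) (Rl.sub_nat 9 12)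
    (ci := 11) (by decide) D12_9 _ h2 8 D12_9_chk
  have h4 := rep_iv_pow (a := ((8 : ℕ) : ℚ) - (12 : ℕ)) (by norm_num) (Rl.sub_nat 8 12)
    (ci := 4) (by decide) D12_8 _ h3 8 D12_8_chk
  have h5 := rep_iv_pow (a := ((7 : ℕ) : ℚ) - (12 : ℕ)) (by norm_num) (Rl.sub_nat 7 12)
    (ci := 10) (by decide) D12_7 _ h4 8 D12_7_chk
  have h6 := rep_iv_pow (a := ((6 : ℕ) : ℚ) - (12 : ℕ)) (by norm_num) (Rl.sub_nat 6 12)
    (ci := 14) (by decide) D12_6 _ h5 8 D12_6_chk
  have h7 := rep_iv_pow (a := ((5 : ℕ) : ℚ) - (12 : ℕ)) (by norm_num) (Rl.sub_nat 5 12)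
    (ci := 12) (by decide) D12_5 _ h6 8 D12_5_chk
  have h8 := rep_iv_pow (a := ((4 : ℕ) : ℚ) - (12 : ℕ)) (by norm_num) (Rl.sub_nat 4 12)
    (ci := 2) (by decide) D12_4 _ h7 8 D12_4_chk
  have h9 := rep_iv_pow (a := ((3 : ℕ) : ℚ) - (12 : ℕ)) (by norm_num) (Rl.sub_nat 3 12)
    (ci := 15) (by decide) D12_3 _ h8 8 D12_3_chk
  have h0 := rep_lin_pow (Rl.nat 12).neg T12 _ h9 e (fun k hk => T12_chk k (by omega))
  have hE : (Finset.Icc 3 12 : Finset ℕ).erase 12 = {3, 4, 5, 6, 7, 8, 9, 10, 11} := by decide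
  have hD : ∏ b ∈ (Finset.Icc 3 12 : Finset ℕ).erase 12, iv ((b : ℚ) - (12 : ℕ)) ^ 8 =
      iv (((3 : ℕ) : ℚ) - (12 : ℕ)) ^ 8 * (iv (((4 : ℕ) : ℚ) - (12 : ℕ)) ^ 8 * (iv (((5 : ℕ) : ℚ) - (12 : ℕ)) ^ 8 * (iv (((6 : ℕ) : ℚ) - (12 : ℕ)) ^ 8 * (iv (((7 : ℕ) : ℚ) - (12 : ℕ)) ^ 8 * (iv (((8 : ℕ) : ℚ) - (12 : ℕ)) ^ 8 * (iv (((9 : ℕ) : ℚ) - (12 : ℕ)) ^ 8 * (iv (((10 : ℕ) : ℚ) - (12 : ℕ)) ^ 8 * (iv (((11 : ℕ) : ℚ) - (12 : ℕ)) ^ 8)))))))) := by
    rw [hE, Finset.prod_insert (by decide), Finset.prod_insert (by decide), Finset.prod_insert (by decide),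
      Finset.prod_insert (by decide), Finset.prod_insert (by decide), Finset.prod_insert (by decide),
      Finset.prod_insert (by decide), Finset.prod_insert (by decide), Finset.prod_singleton]
  have hs : ser 12 e = (iv (((3 : ℕ) : ℚ) - (12 : ℕ)) ^ 8 * (iv (((4 : ℕ) : ℚ) - (12 : ℕ)) ^ 8 * (iv (((5 : ℕ) : ℚ) - (12 : ℕ)) ^ 8 * (iv (((6 : ℕ) : ℚ) - (12 : ℕ)) ^ 8 * (iv (((7 : ℕ) : ℚ) - (12 : ℕ)) ^ 8 * (iv (((8 : ℕ) : ℚ) - (12 : ℕ)) ^ 8 * (iv (((9 : ℕ) : ℚ) - (12 : ℕ)) ^ 8 * (iv (((10 : ℕ) : ℚ) - (12 : ℕ)) ^ 8 * (iv (((11 : ℕ) : ℚ) - (12 : ℕ)) ^ 8 * ((∏ i ∈ ({0, 1, 2, 13, 14, 15} : Finset ℕ),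
      (PowerSeries.X + PowerSeries.C ((i : ℚ) - (12 : ℕ)))) *
      (∏ i ∈ ({3, 12} : Finset ℕ), (PowerSeries.X + PowerSeries.C ((i : ℚ) - (12 : ℕ)))) ^ 2)))))))))) *
      (PowerSeries.X + PowerSeries.C (-((12 : ℕ) : ℚ))) ^ e := by
    unfold ser
    rw [hD]
    congr 1
    exact assoc9 _ _ _ _ _ _ _ _ _ _
  rw [hs]
  exact h0

/-- the table -/
def TT : ℕ → ℕ → ℕ
  | 3, e => T3.getD e 0
  | 4, e => T4.getD e 0
  | 5, e => T5.getD e 0
  | 6, e => T6.getD e 0
  | 7, e => T7.getD e 0
  | 8, e => T8.getD e 0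
  | 9, e => T9.getD e 0
  | 10, e => T10.getD e 0
  | 11, e => T11.getD e 0
  | 12, e => T12.getD e 0
  | _, _ => 0

theorem rep_ser (j : ℕ) (hj : j ∈ Finset.Icc 3 12) (e : ℕ) (he : e < 59) :
    Rep (ser j e) (TT j e) := by
  rw [Finset.mem_Icc] at hj
  obtain ⟨h1, h2⟩ := hj
  interval_cases j
  · exact rep_ser_3 e he
  · exact rep_ser_4 e he
  · exact rep_ser_5 e he
  · exact rep_ser_6 e he
  · exact rep_ser_7 e he
  · exact rep_ser_8 e he
  · exact rep_ser_9 e he
  · exact rep_ser_10 e he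
  · exact rep_ser_11 e he
  · exact rep_ser_12 e he

/-- inverses modulo `17` -/
def inv17 : ℕ → ℕ
  | 0 => 1
  | 1 => 9
  | 2 => 6
  | 3 => 13
  | 4 => 7
  | 5 => 3
  | 6 => 5
  | 7 => 15
  | _ => 2

/-- harmonic sums modulo `17` -/
def hN (i m : ℕ) : ℕ := ∑ l ∈ Finset.range m, inv17 l ^ i

theorem rl_hs (i m : ℕ) (hm : m ≤ 9) : Rl (hs i m) (hN i m) := by
  unfold hs hN
  refine Rl.sum _ _ _ fun l hl => ?_
  rw [Finset.mem_range] at hl
  rw [← one_div_pow]
  refine Rl.pow ?_ i
  have hl3 : l < 9 := by omega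
  interval_cases l
  · exact (Rl.cancel (a := 1) (m := 1) (mi := 1) (n := 1) Rl.one (by decide) (by norm_num; exact Rl.one))
  · exact (Rl.cancel (a := 2) (m := 2) (mi := 9) (n := 1) (Rl.nat 2) (by decide) (by norm_num; exact Rl.one))
  · exact (Rl.cancel (a := 3) (m := 3) (mi := 6) (n := 1) (Rl.nat 3) (by decide) (by norm_num; exact Rl.one))
  · exact (Rl.cancel (a := 4) (m := 4) (mi := 13) (n := 1) (Rl.nat 4) (by decide) (by norm_num; exact Rl.one))
  · exact (Rl.cancel (a := 5) (m := 5) (mi := 7) (n := 1) (Rl.nat 5) (by decide) (by norm_num; exact Rl.one))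
  · exact (Rl.cancel (a := 6) (m := 6) (mi := 3) (n := 1) (Rl.nat 6) (by decide) (by norm_num; exact Rl.one))
  · exact (Rl.cancel (a := 7) (m := 7) (mi := 5) (n := 1) (Rl.nat 7) (by decide) (by norm_num; exact Rl.one))
  · exact (Rl.cancel (a := 8) (m := 8) (mi := 15) (n := 1) (Rl.nat 8) (by decide) (by norm_num; exact Rl.one))
  · exact (Rl.cancel (a := 9) (m := 9) (mi := 2) (n := 1) (Rl.nat 9) (by decide) (by norm_num; exact Rl.one))

/-- `Fm e` modulo `17` -/
def FN (e : ℕ) : ℕ := 16 * ∑ j ∈ Finset.Icc 3 12, ∑ i ∈ Finset.Icc 1 8,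
  dg (TT j e) (8 - i) * (hN i (j - 3) + 16 ^ (i + 1) * hN i (12 - j))

theorem rl_Fm (e : ℕ) (he : e < 59) : Rl (Fm e) (FN e) := by
  unfold Fm FN
  refine Rl.neg (Rl.sum _ _ _ fun j hj => Rl.sum _ _ _ fun i hi => ?_)
  have hj' := Finset.mem_Icc.1 hj
  have hi' := Finset.mem_Icc.1 hi
  refine Rl.mul (rep_ser j hj e he (8 - i) (by omega)) (Rl.add (rl_hs _ _ (by omega)) ?_)
  exact Rl.mul (Rl.neg_one.pow _) (rl_hs _ _ (by omega))

/-- `Bm i0 e` modulo `17` -/
def BN (i0 e : ℕ) : ℕ := 2 * ∑ j ∈ Finset.Icc 3 12, dg (TT j e) (8 - i0)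

theorem rl_Bm (i0 : ℕ) (h0 : 1 ≤ i0) (e : ℕ) (he : e < 59) : Rl (Bm i0 e) (BN i0 e) := by
  unfold Bm BN
  refine Rl.mul (Rl.nat 2) (Rl.sum _ _ _ fun j hj => ?_)
  exact rep_ser j hj e he (8 - i0) (by omega)

/-- values of `Fm` -/
def FF : ℕ := 216001410001005070013131409150815130900090513030014091003070316081414150815041602001514030911161016041509140902040200

/-- values of `Bm 3` -/
def BB : ℕ := 800040612121105100306130005110014031303021304020000000000000000000000000000000000000000000000000000000000000000000000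

theorem FN_val : ∀ e < 59, FN e % 17 = dg FF e % 17 := by
  decide +kernel

theorem BN_val : ∀ e < 59, BN 3 e % 17 = dg BB e % 17 := by
  decide +kernel

/-- columns of the inverse matrix modulo `17` -/
def CC : List ℕ := [2110103060605031310061315040008020706070502141312120113080816071306060816120205, 3101503050806010013160312160712041206000410101411101308060601110703150509071403, 1000208040602030608120614030011090012001008140906030806010204090011021504101605, 2120105050111060504130607111608121201060900000609061407070707100702160916021416, 1161104121208010804050505161103060402161304060309120402060502161213080701020115, 2121301071512021314000400120302150903131211090802080210150003021513110501020807, 4071501081405020815001514161602090112111615051312061309080312031212071406071107, 3121001020900120601010102080111001600091214141306050507041003090903100702001114, 4081614030413081507120508091600040910020514081314071310041502060308130011071416, 9111213051111010312040716100501070504041300151603041506090215061410010412160614,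 3000309130513001306020406051300071002050304000407110210101010030411091513130212, 5051416150200031109060005051416091407130813140616021301090403060605010206040916, 3131609141315091500141613031209100305000202080613061607130312130803010502080205, 6021608010611080316000013011602141016130213050913030207070106150305030704071612, 3141311031302090505151514030111070105160909120712160914110611101210120102070016, 2141103021113031212110014061309161616100608130307120802120812040602010209071005, 20305090810151203130404051213140016150314111616030701070500000200001212081215, 7130613130007081507071116110806090005111104090400001404091307050308080901060004, 15130510010116111514160908111200030604110901050915111606071600161312120900041402, 16011402081611160000061014010008120015001515110807131515091212011113161414010212, 11001505101601010516000313090510031204071504121001000007150409091114131015091009, 15001001120012090601130206120214071109161002071216071516050506010710141510091103, 151314060012041407071402021202061616001111050904080611140610150615010212021507,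 8100208051403051010161200151010120816021209091413080901061607061204070111030611, 13031605030014130305030516001511051403030206091306050808060508090401101509030404, 4010010161408160916101402111014160215000116120506160213050707061502000500070113, 3121113160513101203020912000405111115070600071602030114000516031200050607020504, 3111613101305021611161304111416081511151010090113160204051207010613161110110707, 15090204050215100709100802110006080801141111010608031502110214111205161103030110, 14070401151605020513110515030005060513001112150216010913030501151216131209161506, 8071116040102080000121304090515050206050108110105020000060215041504150307130612, 13030802120016040302071106020106150606111102060110140800141508050806010607120006, 15021212001016001004141516051510060708001403010114060008071001030712130508011400, 150212120010160010041415160515100607080014030101140600080710010307121305080114, 8100016161609120902090905030603080703151004081215150004051012060104071004140715, 5101307010110041611001106080609140406080609020501040801040313101301060800030411,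 1020008090301060414101014081410161100160200080708040608060313141609011403060412, 5030903050602040505061107041100120305141200120304051511100301021608031407100712, 3130100081007120309111203070506090807131404101300010109060015090216030903130508, 31400000807150003100313130005020415120014031111150603101505110710080009061510]

/-- the entries of the matrix modulo `17` -/
def EN (l k : ℕ) : ℕ := if k < 20 then dg FF (l + k) else dg BB (l + (k - 20))

theorem inv_chk : ∀ i < 40, ∀ j < 40,
    (∑ k ∈ Finset.range 40, EN i k * dg (CC.getD j 0) k) % 17 = if i = j then 1 else 0 := by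
  decide +kernel

theorem det_ne (M : Matrix (Fin 40) (Fin 40) ℚ) (N B : ℕ → ℕ → ℕ)
    (h : ∀ i j : Fin 40, Rl (M i j) (N i j))
    (hB : ∀ i < 40, ∀ j < 40, (∑ k ∈ Finset.range 40, N i k * B k j) % 17 = if i = j then 1 else 0) :
    M.det ≠ 0 := by
  intro h0
  choose Z hZ hZ' using h
  have e1 : (Matrix.of Z).det = 0 := by
    have h1 : (Matrix.of Z).map (PadicInt.Coe.ringHom (p := 17)) = M.map (Rat.castHom ℚ_[17]) := by
      ext i j
      exact hZ i j
    have h2 := RingHom.map_det (PadicInt.Coe.ringHom (p := 17)) (Matrix.of Z)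
    have h3 := RingHom.map_det (Rat.castHom ℚ_[17]) M
    rw [h0, map_zero] at h3
    have h4 : (PadicInt.Coe.ringHom (p := 17)) (Matrix.of Z).det = 0 := by
      rw [h2, RingHom.mapMatrix_apply, h1, h3, RingHom.mapMatrix_apply]
    exact Subtype.ext h4
  have e2 : ((Matrix.of Z).map (PadicInt.toZMod (p := 17))).det = 0 := by
    have h2 := RingHom.map_det (PadicInt.toZMod (p := 17)) (Matrix.of Z)
    rw [e1, map_zero] at h2
    exact h2.symm
  have e3 : (Matrix.of Z).map (PadicInt.toZMod (p := 17)) *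
      (Matrix.of fun k j : Fin 40 => ((B k j : ℕ) : ZMod 17)) = 1 := by
    ext i j
    rw [Matrix.mul_apply]
    have h1 : ∀ k : Fin 40, (Matrix.of Z).map (PadicInt.toZMod (p := 17)) i k *
        (Matrix.of fun k j : Fin 40 => ((B k j : ℕ) : ZMod 17)) k j =
        ((N i k * B k j : ℕ) : ZMod 17) := by
      intro k
      rw [Nat.cast_mul]
      show PadicInt.toZMod (Z i k) * ((B k j : ℕ) : ZMod 17) = _
      rw [hZ' i k]
    rw [Finset.sum_congr rfl fun k _ => h1 k, ← Nat.cast_sum,
      Fin.sum_univ_eq_sum_range (fun k => N i k * B k j) 40, ← ZMod.natCast_mod,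
      hB i i.2 j j.2, Matrix.one_apply]
    by_cases hij : i = j
    · rw [if_pos hij, if_pos (by rw [hij]), Nat.cast_one]
    · rw [if_neg hij, if_neg (fun h => hij (Fin.ext h)), Nat.cast_zero]
  have e4 := congrArg Matrix.det e3
  rw [Matrix.det_mul, e2, zero_mul, Matrix.det_one] at e4
  exact absurd e4 (by decide)

end H5

open H5 in
theorem H5_local : St_H5_local := by
  refine det_ne _ EN (fun k j => dg (CC.getD j 0) k) ?_ inv_chk
  intro i j
  show Rl (if j.1 < 20 then Fm (i.1 + j.1) else Bm 3 (i.1 + (j.1 - 20))) (EN i.1 j.1)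
  unfold EN
  have hi := i.2
  have hj := j.2
  split_ifs with h
  · exact (rl_Fm _ (by omega)).congr (FN_val _ (by omega))
  · exact (rl_Bm 3 (by norm_num) _ (by omega)).congr (BN_val _ (by omega))

end Pool.Agent.Dim7
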