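import Pool.Agent.Dim7.Defs

/-!
# The statements of the parts of the proof (interface); each `St_xxx` is proved in the file `xxx.lean`
-/

open Polynomial Pool.Agent.H337R2 Filter Topology

namespace Pool.Agent.Dim7

noncomputable section

/-! ### p-adic part -/

def St_C1_norm_cM : Prop := ∀ {n p : ℕ} [Fact p.Prime], 16 * n < p ^ 2 → padicNorm p (cM n) = (p : ℚ) ^ (-oM n p)

def St_C1_pa : Prop := ∀ {n p : ℕ} [Fact p.Prime], 1 ≤ n → 16 * n < p ^ 2 → ∀ (E : ℚ[X]) {k : ℕ},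
    k ∈ sM n → ∀ (A : ℚ), 0 ≤ A → PB p (p : ℚ) A (TS (-(k : ℚ)) E) → ∀ (i : ℕ),
    padicNorm p (pa (sM n) mM (PM n * E) k i) ≤ (p : ℚ) ^ (eM n p k - i : ℤ) * A

def St_C1_pa_int : Prop := ∀ {n p : ℕ} [Fact p.Prime], 1 ≤ n → ∀ (E : ℚ[X]) {k : ℕ},
    k ∈ sM n → ∀ (A : ℚ), 0 ≤ A → PB p 1 A (TS (-(k : ℚ)) E) → ∀ (i : ℕ),
    (∀ k' ∈ sM n, k' ≠ k → ¬ (p : ℤ) ∣ (k' : ℤ) - k) →
    padicNorm p (pa (sM n) mM (PM n * E) k i) ≤ padicNorm p (cM n) * A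

def St_C2_xa : Prop := ∀ {n p : ℕ} [Fact p.Prime], 1 ≤ n → 16 * n < p ^ 2 → ∀ (q : ℕ) (α : ℕ → ℚ), UInt q α →
    ∀ (E : ℚ[X]) (W : ℚ), 0 ≤ W → ∀ (A : ℕ → ℚ), (∀ k, 0 ≤ A k) →
    (∀ k ∈ sM n, PB p (p : ℚ) (A k) (TS (-(k : ℚ)) E)) →
    (∀ k ∈ sM n, PB p 1 1 (TS (-(k : ℚ)) E)) →
    (∀ k ∈ sM n, (p : ℚ) ^ (eM n p k) * A k ≤ W ∨
      (padicNorm p (cM n) ≤ W ∧ k < 3 * n + p ∧ ∀ k' ∈ sM n, k' ≠ k → ¬ (p : ℤ) ∣ (k' : ℤ) - k)) →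
    padicNorm p ((q : ℚ) * xa n α (PM n * E)) ≤ W

def St_C2_xb : Prop := ∀ {n p : ℕ} [Fact p.Prime], 1 ≤ n → 16 * n < p ^ 2 → ∀ (q : ℕ) (β : ℕ → ℚ), UInt q β →
    (∀ i < 3, β i = 0) → ∀ (E : ℚ[X]) (W : ℚ), 0 ≤ W → ∀ (A : ℕ → ℚ), (∀ k, 0 ≤ A k) →
    (∀ k ∈ sM n, PB p (p : ℚ) (A k) (TS (-(k : ℚ)) E)) →
    (∀ k ∈ sM n, PB p 1 1 (TS (-(k : ℚ)) E)) →
    (∀ k ∈ sM n, (p : ℚ) ^ (eM n p k - 3) * A k ≤ W ∨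
      (padicNorm p (cM n) ≤ W ∧ ∀ k' ∈ sM n, k' ≠ k → ¬ (p : ℤ) ∣ (k' : ℤ) - k)) →
    padicNorm p ((q : ℚ) * xb n β (PM n * E)) ≤ W

def St_C3_crude : Prop := ∀ {n p : ℕ} [Fact p.Prime], 1 ≤ n → ∀ (q : ℕ) (u : ℕ → ℚ), UInt q u →
    ∀ (E : ℚ[X]) (A : ℚ), 0 ≤ A → (∀ k ∈ sM n, PB p ((40 * n + 1 : ℕ) : ℚ) A (TS (-(k : ℚ)) E)) →
    padicNorm p ((q : ℚ) * xa n u (PM n * E)) ≤ ((40 * n + 1 : ℕ) : ℚ) ^ 40 * A ∧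
    padicNorm p ((q : ℚ) * xb n u (PM n * E)) ≤ ((40 * n + 1 : ℕ) : ℚ) ^ 40 * A

def St_C4_CP_PB : Prop := ∀ {n p : ℕ} [Fact p.Prime], 1 ≤ n → ∀ (ρ : ℚ), 1 ≤ ρ →
    (∀ l : ℕ, 1 ≤ l → l ≤ 40 * n → (padicNorm p (l : ℚ))⁻¹ ≤ ρ) → ∀ (i j : ℕ), 2 * i ≤ 40 * n →
    2 * j ≤ 40 * n → ∀ (k : ℕ),
    PB p ρ (padicNorm p (((2 * i - 1).factorial : ℕ) : ℚ) * padicNorm p (((2 * j - 1).factorial : ℕ) : ℚ))
      (TS (-(k : ℚ)) (EM n (CP i * CP j)))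

def St_D2_kap_mem : Prop := ∀ {n p k : ℕ}, 0 < p → k ≤ 16 * n → kap n p k ∈ Kset n p

def St_D2_eM_kap : Prop := ∀ {n p k : ℕ}, 1 ≤ n → 0 < p → k ≤ 16 * n → eM n p (kap n p k) = eM n p k

def St_D3_det_padic : Prop := ∀ {n p : ℕ} [Fact p.Prime], 1 ≤ n → 16 * n < p ^ 2 → ∀ (q : ℕ) (α β : ℕ → ℚ),
    UInt q α → UInt q β → (∀ i < 3, β i = 0) → ∀ (m : ℕ) (a : ℤ) (S : Finset ℕ), S ⊆ Kset n p →
    (∀ k ∈ sM n, kap n p k ∈ S ∨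
      (padicNorm p (cM n) ≤ (p : ℚ) ^ (a - 3) ∧ k < 3 * n + p ∧
        ∀ k' ∈ sM n, k' ≠ k → ¬ (p : ℤ) ∣ (k' : ℤ) - k)) →
    padicNorm p ((q : ℚ) ^ (2 * m) * MD (AL n α) (BL n β) m) ≤
      (p : ℚ) ^ ((m : ℤ) * (2 * a - 3) + ∑ κ ∈ S, T3 (eM n p κ - a))

def St_D3_large : Prop := ∀ {n p : ℕ} [Fact p.Prime], 1 ≤ n → 16 * n < p ^ 2 → 10 * n < p →
    ∀ (q : ℕ) (α β : ℕ → ℚ), UInt q α → UInt q β → (∀ i < 3, β i = 0) → ∀ (m : ℕ),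
    padicNorm p ((q : ℚ) ^ (2 * m) * MD (AL n α) (BL n β) m) ≤ 1

/-- the new p-adic bound: classes with two poles (one generator) and with three poles; the `A` columns are
multiplied by `p ^ τ` -/
def St_D3_mix : Prop := ∀ {n p : ℕ} [Fact p.Prime], 1 ≤ n → 100 ≤ p → 10 * n < 3 * p → p < 10 * n →
    ∀ (τ : ℕ), τ ≤ 1 → (τ = 1 ∨ 5 * n < p) → ∀ (q : ℕ) (α β : ℕ → ℚ), UInt q α → UInt q β → (∀ i < 3, β i = 0) →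
    ∀ (m : ℕ),
    padicNorm p ((q : ℚ) ^ (2 * m) * MD (AL n α) (BL n β) m) ≤
      (p : ℚ) ^ (-(2 * m * oM n p : ℤ) + m * τ + ∑ a ∈ Alow n p, T2s (fM n p a - τ) +
        ∑ c ∈ Amid n p, (T1 (fM n p c - 8) + 43))

def St_D4_small_med : Prop := ∀ {n p : ℕ} [Fact p.Prime], 1 ≤ n → 40 * n < p ^ 2 → ∀ (q : ℕ) (α β : ℕ → ℚ),
    UInt q α → UInt q β → (∀ i < 3, β i = 0) → ∀ (m : ℕ), m ≤ 10 * n →
    padicNorm p ((q : ℚ) ^ (2 * m) * MD (AL n α) (BL n β) m) ≤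
      ((p : ℚ) ^ 8) ^ (2 * m) * ((∏ i ∈ Finset.range (2 * m), padicNorm p (((2 * i - 1).factorial : ℕ) : ℚ)) *
        ∏ i ∈ Finset.range m, padicNorm p (((2 * i - 1).factorial : ℕ) : ℚ) ^ 2)

def St_D4_small_crude : Prop := ∀ {n p : ℕ} [Fact p.Prime], 1 ≤ n → ∀ (q : ℕ) (α β : ℕ → ℚ),
    UInt q α → UInt q β → (∀ i < 3, β i = 0) → ∀ (m : ℕ), m ≤ 10 * n →
    padicNorm p ((q : ℚ) ^ (2 * m) * MD (AL n α) (BL n β) m) ≤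
      (((40 * n + 1 : ℕ) : ℚ) ^ 40) ^ (2 * m) *
        ((∏ i ∈ Finset.range (2 * m), padicNorm p (((2 * i - 1).factorial : ℕ) : ℚ)) *
        ∏ i ∈ Finset.range m, padicNorm p (((2 * i - 1).factorial : ℕ) : ℚ) ^ 2)

def St_E1_Kset_sum : Prop := ∀ {n p : ℕ}, p.Prime → p ≠ 2 → p < 16 * n → ∀ (f : ℕ → ℤ) (M : ℤ), 0 ≤ M →
    (∀ r < p, f r = f ((16 * n - r) % p)) → (∀ r < p, f r ≤ M) →
    2 * ∑ r ∈ Kset n p, f r ≤ ∑ r ∈ Finset.range p, f r + M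

/-- second moment of the total order -/
def St_E2_sq : Prop := ∃ K : ℝ, ∀ {n p : ℕ}, 1 ≤ n → p.Prime → n < 50 * p →
    ((∑ r ∈ Finset.range p, fM n p r ^ 2 : ℤ) : ℝ) ≤ 590 * n +
      2 * ∑ j ∈ Finset.Icc 1 800, (-28 * tn n j p + 14 * tn (3 * n) j p + 4 * tn (4 * n) j p
        + 4 * tn (8 * n) j p + 28 * tn (9 * n) j p + 49 * tn (10 * n) j p - 4 * tn (12 * n) j p
        - 14 * tn (13 * n) j p + tn (16 * n) j p) + K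

def St_E3_A : Prop := ∃ K0 : ℝ, ∀ n p : ℕ, p.Prime → 7 ≤ n → n < 50 * p → p ≤ 4 * n → 40 * n < p ^ 2 → ∀ a : ℤ,
    a = (((20 * n + p) / (2 * p) : ℕ) : ℤ) + 1 - oM n p →
    ((((10 * n - 10 : ℕ) : ℤ) * (2 * a - 3) + ∑ κ ∈ Kset n p, T3 (eM n p κ - a) : ℤ) : ℝ) ≤ EA n p + K0

/-- exponent for `4n < p < 10n` -/
def St_E3_B : Prop := ∃ K0 : ℝ, ∀ n p : ℕ, p.Prime → 7 ≤ n → 4 * n < p → p < 10 * n → ∀ τ : ℕ,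
    τ = (if p ≤ 7 * n then 1 else 0) →
    ((-(2 * ((10 * n - 10 : ℕ) : ℤ) * oM n p) + ((10 * n - 10 : ℕ) : ℤ) * τ +
      ∑ a ∈ Alow n p, T2s (fM n p a - τ) + ∑ c ∈ Amid n p, (T1 (fM n p c - 8) + 43) : ℤ) : ℝ) ≤ EB n p + K0

def St_E4_padic : Prop := ∃ K0 : ℝ, 0 ≤ K0 ∧ ∀ n : ℕ, 100 ≤ n → ∀ p : ℕ, p.Prime → n < 50 * p → 40 * n < p ^ 2 →
    ∀ (q : ℕ) (α β : ℕ → ℚ), UInt q α → UInt q β → (∀ i < 3, β i = 0) →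
    ((padicNorm p ((q : ℚ) ^ (20 * n - 20) * DD n α β) : ℚ) : ℝ) ≤
      if p < 10 * n then (p : ℝ) ^ (EW n p + K0) else 1

def St_F2_A : Prop := Tendsto (fun n : ℕ => (∑ p ∈ PS (1 / 50) 4 n, EA n p * Real.log p) / (n : ℝ) ^ 2) atTop
    (𝓝 ((LA : ℝ) - 50 / 3 * Real.log 200))

def St_F2_B : Prop := Tendsto (fun n : ℕ => (∑ p ∈ PS 4 10 n, EB n p * Real.log p) / (n : ℝ) ^ 2) atTop
    (𝓝 (LB : ℝ))

def St_F2_U : Prop := Tendsto (fun n : ℕ => (∑ p ∈ PS (1 / 50) 40 n,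
      (∑ j ∈ Finset.Icc 1 2000, (1 / 2 * tn (40 * n) j p + tn (20 * n) j p)) * Real.log p) / (n : ℝ) ^ 2)
    atTop (𝓝 (LU : ℝ))

def St_F3_numeric : Prop := LA + LB + LU ≤ 24285 / 100

def St_F4_small : Prop := ∀ ε : ℝ, 0 < ε → ∀ᶠ n : ℕ in atTop,
    20 * (n : ℝ) * (∑ p ∈ (Finset.range (n + 1)).filter (fun p : ℕ => p.Prime ∧ p ^ 2 ≤ 40 * n),
        40 * Real.log (40 * n + 1) +
      ∑ p ∈ (Finset.range (n + 1)).filter (fun p : ℕ => p.Prime ∧ 50 * p ≤ n), 8 * Real.log p) ≤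
    (16 / 5 + ε) * (n : ℝ) ^ 2

def St_F5_fact : Prop := ∀ᶠ n : ℕ in atTop,
    ∑ p ∈ (Finset.range (n + 1)).filter (fun p : ℕ => p.Prime ∧ 50 * p ≤ n),
      (∑ i ∈ Finset.range (20 * n - 20), Real.log ((padicNorm p (((2 * i - 1).factorial : ℕ) : ℚ) : ℚ) : ℝ) +
       2 * ∑ i ∈ Finset.range (10 * n - 10), Real.log ((padicNorm p (((2 * i - 1).factorial : ℕ) : ℚ) : ℚ) : ℝ)) ≤
    - (∑ i ∈ Finset.range (20 * n - 20), Real.log ((2 * i - 1).factorial : ℝ) +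
       2 * ∑ i ∈ Finset.range (10 * n - 10), Real.log ((2 * i - 1).factorial : ℝ)) +
      ∑ p ∈ PS (1 / 50) 40 n,
        (∑ j ∈ Finset.Icc 1 2000, (1 / 2 * tn (40 * n) j p + tn (20 * n) j p)) * Real.log p

def St_F6_superfac : Prop := ∀ ε : ℝ, 0 < ε → ∀ᶠ n : ℕ in atTop,
    600 * (n : ℝ) ^ 2 * Real.log n + (1600 * Real.log 2 + 600 * Real.log 5 - 900 - ε) * (n : ℝ) ^ 2 ≤
      ∑ i ∈ Finset.range (20 * n - 20), Real.log ((2 * i - 1).factorial : ℝ) +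
       2 * ∑ i ∈ Finset.range (10 * n - 10), Real.log ((2 * i - 1).factorial : ℝ)

/-- **the p-adic part** -/
def St_P_main : Prop := ∀ (q : ℕ) (α β : ℕ → ℚ), UInt q α → UInt q β → (∀ i < 3, β i = 0) →
    ∀ᶠ n : ℕ in atTop, DD n α β ≠ 0 →
    ∑ p ∈ (Finset.range (40 * n + 1)).filter Nat.Prime,
      Real.log ((padicNorm p ((q : ℚ) ^ (20 * n - 20) * DD n α β) : ℚ) : ℝ) ≤
    -(600 * (n : ℝ) ^ 2 * Real.log n) - 1016 * (n : ℝ) ^ 2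

def St_P_large : Prop := ∀ (q : ℕ) (α β : ℕ → ℚ), UInt q α → UInt q β → (∀ i < 3, β i = 0) →
    ∀ n : ℕ, 1 ≤ n → ∀ p : ℕ, p.Prime → 40 * n < p →
    padicNorm p ((q : ℚ) ^ (20 * n - 20) * DD n α β) ≤ 1

/-! ### archimedean part -/

def St_B1_hasSum : Prop := ∀ {n : ℕ}, 10 ≤ n → ∀ (α β : ℕ → ℚ) (θ : ℝ),
    (∀ i, Odd i → 3 ≤ i → i ≤ 7 → zr i = (α i : ℝ) + θ * (β i : ℝ)) →
    ∀ (Q : ℚ[X]), Q.natDegree ≤ 30 * n →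
    HasSum (fun t : ℕ => wv n (8 * n + 1 + t) * ((Q.eval (((8 * n + 1 + t : ℕ) : ℚ) ^ 2) : ℚ) : ℝ))
      (((AL n α Q : ℚ) : ℝ) + θ * ((BL n β Q : ℚ) : ℝ))

def St_G0_zq_inj : Prop := ∀ {n : ℕ}, 6 ≤ n → Set.InjOn (zq n) (Finset.range (20 * n - 20))

def St_G0_nd_X : Prop := ∀ {n i : ℕ}, 6 ≤ n → 5 * n - 1 ≤ i → i < 10 * n - 10 →
    260 * n ≤ nd n i ∧ nd n i < 823 * n

def St_G0_nd_Y : Prop := ∀ {n i : ℕ}, 6 ≤ n → 10 * n - 10 ≤ i → i < 20 * n - 20 →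
    0 ≤ nd n i ∧ nd n i < 78 * n

def St_G1_entryN : Prop := ∀ {n : ℕ}, 10 ≤ n → ∀ (α β : ℕ → ℚ) (θ : ℝ),
    (∀ i, Odd i → 3 ≤ i → i ≤ 7 → zr i = (α i : ℝ) + θ * (β i : ℝ)) → ∀ (MM : ℝ), 0 ≤ MM →
    (∀ v : ℕ, 13 * n ≤ v →
      wv n v * Real.exp (Lp n (Finset.range (20 * n - 20)) (20 * v) + Lp n (Finset.range (10 * n - 10)) (20 * v)) ≤
        MM / (v : ℝ) ^ 2) →
    ∀ (i j : ℕ), i < 20 * n - 20 → j < 10 * n - 10 →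
    |((AL n α (lag (Finset.range (20 * n - 20)) (zq n) i * lag (Finset.range (10 * n - 10)) (zq n) j) : ℚ) : ℝ) + θ *
      ((BL n β (lag (Finset.range (20 * n - 20)) (zq n) i * lag (Finset.range (10 * n - 10)) (zq n) j) : ℚ) : ℝ)| ≤
    (if j < 5 * n - 1 then wv n (8 * n + 1 + j) *
      Real.exp (Lp n (Finset.range (20 * n - 20)) (20 * (8 * n + 1 + j)) +
        Lp n (Finset.range (10 * n - 10)) (20 * (8 * n + 1 + j))) else 0) + 1000 * MM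

def St_G2_entryY : Prop := ∀ (β : ℕ → ℚ), ∃ C : ℝ, 0 < C ∧ ∀ n : ℕ, 6 ≤ n → ∀ MY : ℝ,
    (∀ u : ℤ, |u| ≤ 5 * n → n * phi (20 * (u : ℝ) / n) + Lp n (Finset.range (20 * n - 20)) (20 * u) +
      Lp n (Finset.Ico (10 * n - 10) (20 * n - 20)) (20 * u) ≤ MY) →
    ∀ i < 20 * n - 20, ∀ j, 10 * n - 10 ≤ j → j < 20 * n - 20 →
    |((BL n β (lag (Finset.range (20 * n - 20)) (zq n) i *
      lag (Finset.Ico (10 * n - 10) (20 * n - 20)) (zq n) j) : ℚ) : ℝ)| ≤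
      Real.exp (MY + C * Real.log n)

def St_G3_Lp : Prop := ∃ C : ℝ, 0 < C ∧ ∀ n : ℕ, 6 ≤ n → ∀ a b : ℕ, a ≤ b → b ≤ 20 → ∀ u : ℤ,
    |Lp n (Finset.Ico (a * (n - 1)) (b * (n - 1))) u -
      (n * ∑ g ∈ Finset.Ico a b, Ub g ((u : ℝ) / n) + 2 * (b - a) * n * Real.log n)| ≤ C * Real.log (n + |(u : ℝ)|)

def St_G4_weight : Prop := ∃ C : ℝ, 0 < C ∧ ∀ n : ℕ, 6 ≤ n → ∀ v : ℕ, 8 * n < v →
    |Real.log (wv n v) - n * phi (20 * (v : ℝ) / n)| ≤ C * Real.log (n + v)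

def St_G5_sat : Prop := ∃ C : ℝ, 0 < C ∧ ∀ n : ℕ, 6 ≤ n →
    ∑ i ∈ Finset.range (5 * n - 1), (Real.log (wv n (8 * n + 1 + i)) + Lp n (Finset.range (5 * n - 1)) (20 * (8 * n + 1 + i))) ≤
      eS * (n : ℝ) ^ 2 + 50 * (n : ℝ) ^ 2 * Real.log n + C * n * Real.log n

def St_G6_pair : Prop := ∃ C : ℝ, 0 < C ∧ ∀ n : ℕ, 6 ≤ n → ∀ g < 20, ∀ h < 20,
    |∑ j ∈ Finset.range (n - 1), Lp n (Finset.Ico (h * (n - 1)) ((h + 1) * (n - 1))) (bb g * n + cc g * (j : ℤ)) -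
      (en g h * (n : ℝ) ^ 2 + 2 * (n : ℝ) ^ 2 * Real.log n)| ≤ C * n * Real.log n

def St_G6_cross : Prop := ∀ {n : ℕ}, 6 ≤ n →
    (Real.log (VD (Finset.range (20 * n - 20)) (zq n)) + Real.log (VD (Finset.range (10 * n - 10)) (zq n)) +
      Real.log (VD (Finset.Ico (10 * n - 10) (20 * n - 20)) (zq n))) / 2 ≥
    ∑ i ∈ Finset.range (5 * n - 1), (Lp n (Finset.range (20 * n - 20)) (nd n i) + Lp n (Finset.range (10 * n - 10)) (nd n i)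
      - Lp n (Finset.range (5 * n - 1)) (nd n i)) +
    ∑ i ∈ Finset.Ico (5 * n - 1) (10 * n - 10), Lp n (Finset.Ico (5 * n - 1) (20 * n - 20)) (nd n i) +
    ∑ i ∈ Finset.Ico (10 * n - 10) (20 * n - 20), Lp n (Finset.Ico (10 * n - 10) (20 * n - 20)) (nd n i)
      - 80 * n * Real.log (80 * n)

def St_V1_upper : Prop := ∀ (w : ℝ), 260 ≤ w → FN w ≤ 1319 / 20

def St_V1_tail : Prop := ∀ (w : ℝ), 10000 ≤ w → FN w ≤ 1319 / 20 - 4 * (Real.log w - Real.log 10000)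

def St_V2_lower : Prop := ∀ (w : ℝ), 160 ≤ w → w ≤ 260 → 329 / 5 ≤ FN w

def St_V3_upperY : Prop := ∀ (w : ℝ), -100 ≤ w → w ≤ 100 → FY w ≤ 702 / 5

def St_V4_eS : Prop := eS ≤ -(1963 / 10)

def St_V5_eN : Prop := 5245 / 10 ≤ eN

/-- **the archimedean part** -/
def St_A_main : Prop := ∀ (α β : ℕ → ℚ) (θ : ℝ),
    (∀ i, Odd i → 3 ≤ i → i ≤ 7 → zr i = (α i : ℝ) + θ * (β i : ℝ)) →
    ∀ᶠ n : ℕ in atTop, DD n α β ≠ 0 →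
    Real.log |((DD n α β : ℚ) : ℝ)| ≤ 600 * (n : ℝ) ^ 2 * Real.log n + 1014 * (n : ℝ) ^ 2

/-! ### non-vanishing at `n = p` -/

def St_H2_pa : Prop := ∀ {p : ℕ} [Fact p.Prime], 200 ≤ p → ∀ (r : ℕ), 1 ≤ r → 2 * r < p →
    ∃ w : ℚ, padicNorm p w = 1 ∧ ∀ e j i : ℕ, e ≤ 58 → 3 ≤ j → j ≤ 12 → 1 ≤ i → i ≤ 8 →
      padicNorm p (pa (sM p) mM (PM p * EM p (XN p r ^ e * OT p r 60)) (r + j * p) i
        / (p : ℚ) ^ (i + e) -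
        w * (-2 * r) ^ e * PowerSeries.coeff (8 - i) (ser j e)) ≤ (p : ℚ)⁻¹

def St_H3_diag : Prop := ∀ {p : ℕ} [Fact p.Prime], 200 ≤ p → ∀ (α β : ℕ → ℚ), (∀ i, padicNorm p (α i) ≤ 1) →
    (∀ i, padicNorm p (β i) ≤ 1) → (∀ i < 3, β i = 0) → ∀ (r : ℕ), 1 ≤ r → 2 * r < p →
    ∃ w : ℚ, padicNorm p w = 1 ∧ ∀ e : ℕ, e ≤ 58 →
      padicNorm p ((p : ℚ) ^ (-(e : ℤ)) * AL p α (XN p r ^ e * OT p r 60) -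
        w * (-2 * r) ^ e * Fm e) ≤ (p : ℚ)⁻¹ ∧
      padicNorm p ((p : ℚ) ^ (-(e : ℤ) - 3) * BL p β (XN p r ^ e * OT p r 60) -
        w * (-2 * r) ^ e * (β 3 * Bm 3 e)) ≤ (p : ℚ)⁻¹

def St_H4_offdiag : Prop := ∀ {p : ℕ} [Fact p.Prime], 200 ≤ p → ∀ (α β : ℕ → ℚ), (∀ i, padicNorm p (α i) ≤ 1) →
    (∀ i, padicNorm p (β i) ≤ 1) → (∀ i < 3, β i = 0) →
    ∀ (r s l l' : ℕ), 1 ≤ r → 2 * r < p → 1 ≤ s → 2 * s < p → r ≠ s → l < 40 → l' < 20 →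
    padicNorm p ((p : ℚ) ^ (-(l : ℤ) - (l' : ℤ)) * AL p α
      ((XN p r ^ l * OT p r 40) * (XN p s ^ l' * OT p s 20))) ≤ (p : ℚ)⁻¹ ∧
    padicNorm p ((p : ℚ) ^ (-(l : ℤ) - (l' : ℤ) - 3) * BL p β
      ((XN p r ^ l * OT p r 40) * (XN p s ^ l' * OT p s 20))) ≤ (p : ℚ)⁻¹

def St_H5_local : Prop :=
    (Matrix.of fun l l' : Fin 40 => if l'.1 < 20 then Fm (l.1 + l'.1) else Bm 3 (l.1 + (l'.1 - 20))).det ≠ 0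

def St_H6_nonvanish : Prop := ∀ (α β : ℕ → ℚ) (q : ℕ), UInt q α → UInt q β →
    (∀ i < 3, β i = 0) → β 3 ≠ 0 → ∃ p0 : ℕ, ∀ p : ℕ, p0 ≤ p → p.Prime → DD p α β ≠ 0

/-! ### conclusion -/

def St_Z1_dim : Prop := Irrational (zr 3) →
    Module.finrank ℚ (Submodule.span ℚ
      (Set.range fun i : Fin 4 => if i.1 = 0 then (1 : ℝ) else zr (2 * i.1 + 1))) < 3 →
    ∃ (θ : ℝ) (α β : ℕ → ℚ) (q : ℕ), UInt q α ∧ UInt q β ∧ (∀ i < 3, β i = 0) ∧ β 3 ≠ 0 ∧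
      (∀ i, Odd i → 3 ≤ i → i ≤ 7 → zr i = (α i : ℝ) + θ * (β i : ℝ))

def St_Z_main : Prop := 3 ≤ Module.finrank ℚ (Submodule.span ℚ
      (Set.range fun i : Fin 4 => if i.1 = 0 then (1 : ℝ) else zr (2 * i.1 + 1)))

end

end Pool.Agent.Dim7
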