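import Pool.Agent.Dim7.MixC
import Pool.Agent.Dim7.TwoP
import Pool.Agent.Dim7.C1

/-!
# D7-MIX (helper609, helper811): the new p-adic bound for `10n/3 < p < 10n`

Classes with two poles (one generator, the `A` columns multiplied by `p^τ`) and classes with three poles.
-/

open Polynomial Pool.Agent.H337R2

namespace Pool.Agent.Dim7

noncomputable section

namespace Mix

theorem split_tri {n p : ℕ} (hodd : Odd p) (h1 : 10 * n < 3 * p) (h2 : p < 10 * n) (F : ℕ → ℚ) :
    ∑ k ∈ sM n, F k =
      ∑ a ∈ Alow n p, ((F (a + p) + F (16 * n - (a + p))) + (F a + F (16 * n - a))) +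
      ∑ c ∈ Amid n p, tri n p c F +
      ∑ k ∈ Finset.Ioo (13 * n - p) (3 * n + p), F k := by
  rw [Two.split_sum_six hodd h1 h2 F, ← Finset.sum_filter_add_sum_filter_not (Amid n p) (fun c => c < 8 * n)]
  have e1 : ∑ c ∈ (Amid n p).filter (fun c => c < 8 * n), tri n p c F =
      ∑ c ∈ (Amid n p).filter (fun c => c < 8 * n),
        (F (c - p) + F c + F (c + p) + F (16 * n - c + p) + F (16 * n - c) + F (16 * n - c - p)) := by
    refine Finset.sum_congr rfl fun c hc => ?_
    rw [Finset.mem_filter] at hc
    unfold tri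
    rw [if_pos hc.2]
    ring
  have e2 : ∑ c ∈ (Amid n p).filter (fun c => ¬ c < 8 * n), tri n p c F =
      if 3 * n + p ≤ 8 * n then F (8 * n - p) + F (8 * n) + F (8 * n + p) else 0 := by
    split_ifs with h
    · have e3 : (Amid n p).filter (fun c => ¬ c < 8 * n) = {8 * n} := by
        ext a
        simp only [Amid, Finset.mem_filter, Finset.mem_Icc, Finset.mem_singleton]
        omega
      rw [e3, Finset.sum_singleton]
      unfold tri
      rw [if_neg (lt_irrefl _), add_zero]
    · have e3 : (Amid n p).filter (fun c => ¬ c < 8 * n) = ∅ := by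
        ext a
        simp only [Amid, Finset.mem_filter, Finset.mem_Icc, Finset.notMem_empty, iff_false]
        omega
      rw [e3, Finset.sum_empty]
  rw [e1, e2]
  ring

end Mix

/-- **the new p-adic bound** -/
theorem D3_mix : St_D3_mix :=
  Mix.D3_mix_of C1_norm_cM C1_pa C1_pa_int (fun n u v E hE _ hk => Two.fk_pair n u v E hE hk)
    (fun hodd h1 h2 F => Mix.split_tri hodd h1 h2 F)

end

end Pool.Agent.Dim7
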