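import Pool.Agent.Dim7.Iface
import Pool.Agent.H337R2.Asym

/-!
# P_main and P_large from the results of parts D, E, F (hypotheses)
-/

open Polynomial Pool.Agent.H337R2 Filter Topology

namespace Pool.Agent.Dim7

noncomputable section

namespace PM

lemma fac_pos (p N : ℕ) (hp : p.Prime) : 0 < ((padicNorm p ((N.factorial : ℕ) : ℚ) : ℚ) : ℝ) := by
  have : Fact p.Prime := ⟨hp⟩
  have : 0 < padicNorm p ((N.factorial : ℕ) : ℚ) :=
    lt_of_le_of_ne (padicNorm.nonneg _) (Ne.symm (padicNorm.nonzero (by exact_mod_cast Nat.factorial_ne_zero N)))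
  exact_mod_cast this

lemma z_pos (p : ℕ) (hp : p.Prime) (z : ℚ) (hz : z ≠ 0) : 0 < ((padicNorm p z : ℚ) : ℝ) := by
  have : Fact p.Prime := ⟨hp⟩
  have : 0 < padicNorm p z := lt_of_le_of_ne (padicNorm.nonneg _) (Ne.symm (padicNorm.nonzero hz))
  exact_mod_cast this

lemma small (hmed : St_D4_small_med) (hcrude : St_D4_small_crude) (n p : ℕ) (hn : 1 ≤ n) (hp : p.Prime) (q : ℕ)
    (α β : ℕ → ℚ) (hα : UInt q α) (hβ : UInt q β) (hβ3 : ∀ i < 3, β i = 0)
    (hz : (q : ℚ) ^ (20 * n - 20) * DD n α β ≠ 0) :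
    Real.log ((padicNorm p ((q : ℚ) ^ (20 * n - 20) * DD n α β) : ℚ) : ℝ) ≤
      20 * (n : ℝ) * ((if p ^ 2 ≤ 40 * n then 40 * Real.log (40 * n + 1) else 0) + 8 * Real.log p) +
      (∑ i ∈ Finset.range (20 * n - 20), Real.log ((padicNorm p (((2 * i - 1).factorial : ℕ) : ℚ) : ℚ) : ℝ) +
       2 * ∑ i ∈ Finset.range (10 * n - 10), Real.log ((padicNorm p (((2 * i - 1).factorial : ℕ) : ℚ) : ℚ) : ℝ)) := by
  have hF : Fact p.Prime := ⟨hp⟩
  have hp0 : (0 : ℝ) < p := by exact_mod_cast hp.pos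
  have hlp : 0 ≤ Real.log p := Real.log_nonneg (by exact_mod_cast hp.one_lt.le)
  have hn0 : (0 : ℝ) ≤ n := by positivity
  have hl : 0 ≤ Real.log (40 * (n : ℝ) + 1) := Real.log_nonneg (by linarith)
  have hzp := z_pos p hp _ hz
  have e8 : 20 * n - 20 = 2 * (10 * n - 10) := by omega
  rw [e8] at hzp ⊢
  have hm : ((2 * (10 * n - 10) : ℕ) : ℝ) ≤ 20 * n := by
    have : 2 * (10 * n - 10) ≤ 20 * n := by omega
    exact_mod_cast this
  have hpp : 0 < (∏ i ∈ Finset.range (2 * (10 * n - 10)), ((padicNorm p (((2 * i - 1).factorial : ℕ) : ℚ) : ℚ) : ℝ)) *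
        ∏ i ∈ Finset.range (10 * n - 10), ((padicNorm p (((2 * i - 1).factorial : ℕ) : ℚ) : ℚ) : ℝ) ^ 2 :=
    mul_pos (Finset.prod_pos fun i _ => fac_pos p _ hp)
      (Finset.prod_pos fun i _ => pow_pos (fac_pos p _ hp) 2)
  have hprod : Real.log ((∏ i ∈ Finset.range (2 * (10 * n - 10)), ((padicNorm p (((2 * i - 1).factorial : ℕ) : ℚ) : ℚ) : ℝ)) *
        ∏ i ∈ Finset.range (10 * n - 10), ((padicNorm p (((2 * i - 1).factorial : ℕ) : ℚ) : ℚ) : ℝ) ^ 2)
      = ∑ i ∈ Finset.range (2 * (10 * n - 10)), Real.log ((padicNorm p (((2 * i - 1).factorial : ℕ) : ℚ) : ℚ) : ℝ) +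
       2 * ∑ i ∈ Finset.range (10 * n - 10), Real.log ((padicNorm p (((2 * i - 1).factorial : ℕ) : ℚ) : ℚ) : ℝ) := by
    rw [Real.log_mul (Finset.prod_pos fun i _ => fac_pos p _ hp).ne'
      (Finset.prod_pos fun i _ => pow_pos (fac_pos p _ hp) 2).ne',
      Real.log_prod (fun i _ => (fac_pos p _ hp).ne'),
      Real.log_prod (fun i _ => (pow_pos (fac_pos p _ hp) 2).ne'), Finset.mul_sum]
    congr 1
    apply Finset.sum_congr rfl
    intro i _
    rw [Real.log_pow]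
    norm_num
  by_cases h2 : p ^ 2 ≤ 40 * n
  · rw [if_pos h2]
    have h3 : ((padicNorm p ((q : ℚ) ^ (2 * (10 * n - 10)) * DD n α β) : ℚ) : ℝ) ≤
        ((40 * (n : ℝ) + 1) ^ 40) ^ (2 * (10 * n - 10)) *
        ((∏ i ∈ Finset.range (2 * (10 * n - 10)), ((padicNorm p (((2 * i - 1).factorial : ℕ) : ℚ) : ℚ) : ℝ)) *
        ∏ i ∈ Finset.range (10 * n - 10), ((padicNorm p (((2 * i - 1).factorial : ℕ) : ℚ) : ℚ) : ℝ) ^ 2) := by
      have h4 := (Rat.cast_le (K := ℝ)).2 (hcrude (p := p) hn q α β hα hβ hβ3 (10 * n - 10) (by omega))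
      refine h4.trans (le_of_eq ?_)
      push_cast
      rfl
    have h5 := Real.log_le_log hzp h3
    rw [Real.log_mul (by positivity) hpp.ne', hprod, Real.log_pow, Real.log_pow] at h5
    have e2 : ((40 : ℕ) : ℝ) = 40 := by norm_num
    rw [e2] at h5
    have h4 : ((2 * (10 * n - 10) : ℕ) : ℝ) * (40 * Real.log (40 * (n : ℝ) + 1)) ≤
        20 * n * (40 * Real.log (40 * (n : ℝ) + 1)) :=
      mul_le_mul_of_nonneg_right hm (by positivity)
    have h6 : 0 ≤ 20 * (n : ℝ) * (8 * Real.log p) := by positivity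
    have e3 : 20 * (n : ℝ) * (40 * Real.log (40 * (n : ℝ) + 1) + 8 * Real.log p) =
      20 * n * (40 * Real.log (40 * (n : ℝ) + 1)) + 20 * (n : ℝ) * (8 * Real.log p) := by ring
    rw [e3]
    linarith
  · rw [if_neg h2]
    have h3 : ((padicNorm p ((q : ℚ) ^ (2 * (10 * n - 10)) * DD n α β) : ℚ) : ℝ) ≤
        ((p : ℝ) ^ 8) ^ (2 * (10 * n - 10)) *
        ((∏ i ∈ Finset.range (2 * (10 * n - 10)), ((padicNorm p (((2 * i - 1).factorial : ℕ) : ℚ) : ℚ) : ℝ)) *
        ∏ i ∈ Finset.range (10 * n - 10), ((padicNorm p (((2 * i - 1).factorial : ℕ) : ℚ) : ℚ) : ℝ) ^ 2) := by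
      have h4 := (Rat.cast_le (K := ℝ)).2 (hmed (p := p) hn (by omega) q α β hα hβ hβ3 (10 * n - 10) (by omega))
      refine h4.trans (le_of_eq ?_)
      push_cast
      rfl
    have h5 := Real.log_le_log hzp h3
    rw [Real.log_mul (by positivity) hpp.ne', hprod, Real.log_pow, Real.log_pow] at h5
    have e2 : ((8 : ℕ) : ℝ) = 8 := by norm_num
    rw [e2] at h5
    have h4 : ((2 * (10 * n - 10) : ℕ) : ℝ) * (8 * Real.log p) ≤ 20 * n * (8 * Real.log p) :=
      mul_le_mul_of_nonneg_right hm (by positivity)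
    rw [zero_add]
    linarith

/-- statement of `E4_padic` with a constant -/
def E4 (K0 : ℝ) : Prop := ∀ n : ℕ, 100 ≤ n → ∀ p : ℕ, p.Prime → n < 50 * p → 40 * n < p ^ 2 →
    ∀ (q : ℕ) (α β : ℕ → ℚ), UInt q α → UInt q β → (∀ i < 3, β i = 0) →
    ((padicNorm p ((q : ℚ) ^ (20 * n - 20) * DD n α β) : ℚ) : ℝ) ≤
      if p < 10 * n then (p : ℝ) ^ (EW n p + K0) else 1

lemma log_large (K0 : ℝ) (hE4 : E4 K0) (n : ℕ) (hn : 120000 ≤ n) (p : ℕ) (hp : p.Prime)
    (h50 : ¬ 50 * p ≤ n) (q : ℕ) (α β : ℕ → ℚ) (hα : UInt q α) (hβ : UInt q β) (hβ3 : ∀ i < 3, β i = 0)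
    (hz : (q : ℚ) ^ (20 * n - 20) * DD n α β ≠ 0) :
    Real.log ((padicNorm p ((q : ℚ) ^ (20 * n - 20) * DD n α β) : ℚ) : ℝ) ≤
      if p < 10 * n then (EW n p + K0) * Real.log p else 0 := by
  have hp0 : (0 : ℝ) < p := by exact_mod_cast hp.pos
  have h1 := hE4 n (by omega) p hp (by omega) (by nlinarith) q α β hα hβ hβ3
  have h2 := Real.log_le_log (z_pos p hp _ hz) h1
  refine h2.trans (le_of_eq ?_)
  split_ifs
  · rw [Real.log_rpow hp0]
  · rw [Real.log_one]

lemma EW_split (n : ℕ) (hn : 7 ≤ n) (K0 : ℝ) (hK0 : 0 ≤ K0) :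
    ∑ p ∈ ((Finset.range (10 * n)).filter Nat.Prime).filter (fun p => ¬ 50 * p ≤ n), (EW n p + K0) * Real.log p ≤
      ∑ p ∈ PS (1 / 50) 4 n, EA n p * Real.log p + ∑ p ∈ PS 4 10 n, EB n p * Real.log p +
        K0 * (Real.log 4 * (10 * n)) := by
  classical
  have hn0 : (0 : ℝ) < n := by exact_mod_cast (by omega : 0 < n)
  simp only [add_mul, Finset.sum_add_distrib]
  apply add_le_add
  · apply le_of_eq
    set T := ((Finset.range (10 * n)).filter Nat.Prime).filter (fun p => ¬ 50 * p ≤ n) with hT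
    have hnp4 : ∀ p : ℕ, p.Prime → p ≠ 4 * n := by
      intro p hp h
      rw [h] at hp
      exact Nat.not_prime_mul (by norm_num) (by omega) hp
    have e1 : PS (1 / 50) 4 n = T.filter (fun p => p ≤ 4 * n) := by
      ext p
      unfold PS
      rw [hT]
      simp only [Finset.mem_filter, Finset.mem_range]
      constructor
      · rintro ⟨h1, h2, h3, h4⟩
        have h5 : n < 50 * p := by
          have : (n : ℝ) < 50 * p := by linarith
          exact_mod_cast this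
        have h6 : p < 4 * n := by exact_mod_cast h4
        exact ⟨⟨⟨by omega, h2⟩, by omega⟩, h6.le⟩
      · rintro ⟨⟨⟨h1, h2⟩, h3⟩, h4⟩
        have h5 : p < 4 * n := lt_of_le_of_ne h4 (hnp4 p h2)
        refine ⟨by omega, h2, ?_, by exact_mod_cast h5⟩
        have : (n : ℝ) < 50 * p := by exact_mod_cast (by omega : n < 50 * p)
        linarith
    have e3 : PS 4 10 n = T.filter (fun p => ¬ p ≤ 4 * n) := by
      ext p
      unfold PS
      rw [hT]
      simp only [Finset.mem_filter, Finset.mem_range]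
      constructor
      · rintro ⟨h1, h2, h3, h4⟩
        have h5 : 4 * n < p := by exact_mod_cast h3
        have h6 : p < 10 * n := by exact_mod_cast h4
        exact ⟨⟨⟨by omega, h2⟩, by omega⟩, by omega⟩
      · rintro ⟨⟨⟨h1, h2⟩, h3⟩, h4⟩
        refine ⟨by omega, h2, ?_, by exact_mod_cast h1⟩
        exact_mod_cast (by omega : 4 * n < p)
    rw [e1, e3, ← Finset.sum_filter_add_sum_filter_not T (fun p => p ≤ 4 * n)]
    congr 1
    · apply Finset.sum_congr rfl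
      intro p hp
      rw [Finset.mem_filter] at hp
      unfold EW
      rw [if_pos hp.2]
    · apply Finset.sum_congr rfl
      intro p hp
      rw [Finset.mem_filter] at hp
      unfold EW
      rw [if_neg hp.2]
  · rw [← Finset.mul_sum]
    apply mul_le_mul_of_nonneg_left _ hK0
    refine le_trans ?_ (Chebyshev.theta_le_log4_mul_x (x := 10 * n) (by positivity))
    unfold Chebyshev.theta
    apply Finset.sum_le_sum_of_subset_of_nonneg
    · intro p hp
      rw [Finset.mem_filter, Finset.mem_filter, Finset.mem_range] at hp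
      rw [Finset.mem_filter, Finset.mem_Ioc]
      refine ⟨⟨hp.1.2.pos, ?_⟩, hp.1.2⟩
      rw [Nat.le_floor_iff (by positivity)]
      have : ((p : ℕ) : ℝ) ≤ ((10 * n : ℕ) : ℝ) := by exact_mod_cast hp.1.1.le
      push_cast at this
      exact this
    · intro p hp _
      rw [Finset.mem_filter] at hp
      exact Real.log_nonneg (by exact_mod_cast hp.2.one_lt.le)

lemma ev {f : ℕ → ℝ} {L : ℝ} (h : Tendsto (fun n : ℕ => f n / (n : ℝ) ^ 2) atTop (𝓝 L)) (ε : ℝ)
    (hε : 0 < ε) : ∀ᶠ n : ℕ in atTop, f n ≤ (L + ε) * (n : ℝ) ^ 2 := by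
  filter_upwards [h.eventually_lt_const (show L < L + ε by linarith), eventually_ge_atTop 1] with n h1 hn
  have hn0 : (0 : ℝ) < (n : ℝ) ^ 2 := by
    have : (0 : ℝ) < n := by exact_mod_cast hn
    positivity
  rw [div_lt_iff₀ hn0] at h1
  exact h1.le

lemma log5 : 65 * Real.log 2 ≤ 28 * Real.log 5 := by
  have h1 : Real.log ((2 : ℝ) ^ 65) ≤ Real.log ((5 : ℝ) ^ 28) :=
    Real.log_le_log (by positivity) (by norm_num)
  rw [Real.log_pow, Real.log_pow] at h1
  push_cast at h1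
  exact h1

end PM

/-- **the p-adic part**, from the results of the other tasks -/
theorem P_main_of (hmed : St_D4_small_med) (hcrude : St_D4_small_crude) (hE4 : St_E4_padic) (hA : St_F2_A)
    (hB : St_F2_B) (hU : St_F2_U) (h3 : St_F3_numeric) (h4 : St_F4_small) (h5 : St_F5_fact)
    (h6 : St_F6_superfac) : St_P_main := by
  classical
  intro q α β hα hβ hβ3
  obtain ⟨K0, hK0, hE4'⟩ := hE4
  have hF3 : ((LA : ℝ) + LB + LU) ≤ 24285 / 100 := by
    have h := (Rat.cast_le (K := ℝ)).2 h3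
    push_cast at h
    exact h
  have hε : (0 : ℝ) < 1 / 200 := by norm_num
  have ev2 := PM.ev hA (1 / 200) hε
  have ev3 := PM.ev hB (1 / 200) hε
  have ev5 := PM.ev hU (1 / 200) hε
  have ev6 := h4 (1 / 200) hε
  have ev8 := h6 (1 / 200) hε
  have ev9 : ∀ᶠ n : ℕ in atTop, K0 * (Real.log 4 * 10) ≤ 1 / 200 * n := by
    have := (tendsto_natCast_atTop_atTop (R := ℝ)).const_mul_atTop hε
    exact this.eventually_ge_atTop _
  filter_upwards [ev2, ev3, ev5, ev6, h5, ev8, ev9, eventually_ge_atTop 120000]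
    with n g2 g3 g5 g6 g7 g8 g9 hn hD
  have hn0 : (0 : ℝ) < n := by exact_mod_cast (by omega : 0 < n)
  have hn1 : 1 ≤ n := by omega
  have hqq : (0 : ℚ) < q := by exact_mod_cast hα.1
  have hz : (q : ℚ) ^ (20 * n - 20) * DD n α β ≠ 0 := mul_ne_zero (pow_pos hqq _).ne' hD
  rw [← Finset.sum_filter_add_sum_filter_not _ (fun p => 50 * p ≤ n)]
  have e1 : ((Finset.range (40 * n + 1)).filter Nat.Prime).filter (fun p => 50 * p ≤ n) =
      (Finset.range (n + 1)).filter (fun p : ℕ => p.Prime ∧ 50 * p ≤ n) := by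
    ext p
    simp only [Finset.mem_filter, Finset.mem_range]
    constructor
    · rintro ⟨⟨h1, h2⟩, h3⟩; exact ⟨by omega, h2, h3⟩
    · rintro ⟨h1, h2, h3⟩; exact ⟨⟨by omega, h2⟩, h3⟩
  rw [e1]
  have hsmall : ∑ p ∈ (Finset.range (n + 1)).filter (fun p : ℕ => p.Prime ∧ 50 * p ≤ n),
      Real.log ((padicNorm p ((q : ℚ) ^ (20 * n - 20) * DD n α β) : ℚ) : ℝ) ≤
      20 * (n : ℝ) * (∑ p ∈ (Finset.range (n + 1)).filter (fun p : ℕ => p.Prime ∧ p ^ 2 ≤ 40 * n),
        40 * Real.log (40 * n + 1) +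
      ∑ p ∈ (Finset.range (n + 1)).filter (fun p : ℕ => p.Prime ∧ 50 * p ≤ n), 8 * Real.log p) +
      ∑ p ∈ (Finset.range (n + 1)).filter (fun p : ℕ => p.Prime ∧ 50 * p ≤ n),
      (∑ i ∈ Finset.range (20 * n - 20), Real.log ((padicNorm p (((2 * i - 1).factorial : ℕ) : ℚ) : ℚ) : ℝ) +
       2 * ∑ i ∈ Finset.range (10 * n - 10), Real.log ((padicNorm p (((2 * i - 1).factorial : ℕ) : ℚ) : ℚ) : ℝ)) := by
    calc _ ≤ ∑ p ∈ (Finset.range (n + 1)).filter (fun p : ℕ => p.Prime ∧ 50 * p ≤ n),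
          (20 * (n : ℝ) * ((if p ^ 2 ≤ 40 * n then 40 * Real.log (40 * n + 1) else 0) + 8 * Real.log p) +
          (∑ i ∈ Finset.range (20 * n - 20), Real.log ((padicNorm p (((2 * i - 1).factorial : ℕ) : ℚ) : ℚ) : ℝ) +
       2 * ∑ i ∈ Finset.range (10 * n - 10), Real.log ((padicNorm p (((2 * i - 1).factorial : ℕ) : ℚ) : ℚ) : ℝ))) := by
          apply Finset.sum_le_sum
          intro p hp
          rw [Finset.mem_filter] at hp
          exact PM.small hmed hcrude n p hn1 hp.2.1 q α β hα hβ hβ3 hz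
      _ ≤ _ := by
          rw [Finset.sum_add_distrib, ← Finset.mul_sum, Finset.sum_add_distrib]
          apply add_le_add_left
          apply mul_le_mul_of_nonneg_left _ (by positivity)
          apply add_le_add_left
          rw [← Finset.sum_filter]
          apply Finset.sum_le_sum_of_subset_of_nonneg
          · intro p hp
            simp only [Finset.mem_filter, Finset.mem_range] at hp ⊢
            exact ⟨hp.1.1, hp.1.2.1, hp.2⟩
          · intro p _ _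
            have : 0 ≤ Real.log (40 * (n : ℝ) + 1) := Real.log_nonneg (by linarith)
            positivity
  have hlarge : ∑ p ∈ ((Finset.range (40 * n + 1)).filter Nat.Prime).filter (fun p => ¬ 50 * p ≤ n),
      Real.log ((padicNorm p ((q : ℚ) ^ (20 * n - 20) * DD n α β) : ℚ) : ℝ) ≤
      ∑ p ∈ PS (1 / 50) 4 n, EA n p * Real.log p + ∑ p ∈ PS 4 10 n, EB n p * Real.log p +
        K0 * (Real.log 4 * (10 * n)) := by
    refine le_trans ?_ (PM.EW_split n (by omega) K0 hK0)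
    have h1 : ∑ p ∈ ((Finset.range (40 * n + 1)).filter Nat.Prime).filter (fun p => ¬ 50 * p ≤ n),
        Real.log ((padicNorm p ((q : ℚ) ^ (20 * n - 20) * DD n α β) : ℚ) : ℝ) ≤
        ∑ p ∈ ((Finset.range (40 * n + 1)).filter Nat.Prime).filter (fun p => ¬ 50 * p ≤ n),
        (if p < 10 * n then (EW n p + K0) * Real.log p else 0) := by
      apply Finset.sum_le_sum
      intro p hp
      rw [Finset.mem_filter, Finset.mem_filter] at hp
      exact PM.log_large K0 hE4' n hn p hp.1.2 hp.2 q α β hα hβ hβ3 hz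
    refine h1.trans (le_of_eq ?_)
    rw [← Finset.sum_filter]
    apply Finset.sum_congr _ fun _ _ => rfl
    ext p
    simp only [Finset.mem_filter, Finset.mem_range]
    constructor
    · rintro ⟨⟨⟨h1, h2⟩, h3⟩, h4⟩; exact ⟨⟨h4, h2⟩, h3⟩
    · rintro ⟨⟨h1, h2⟩, h3⟩; exact ⟨⟨⟨by omega, h2⟩, h3⟩, h1⟩
  have hfin : K0 * (Real.log 4 * (10 * n)) ≤ 1 / 200 * (n : ℝ) ^ 2 := by
    have := mul_le_mul_of_nonneg_right g9 hn0.le
    nlinarith
  have hn2 : (0 : ℝ) < (n : ℝ) ^ 2 := by positivity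
  have h200 : Real.log 200 = 3 * Real.log 2 + 2 * Real.log 5 := by
    rw [show (200 : ℝ) = 2 ^ 3 * 5 ^ 2 by norm_num, Real.log_mul (by norm_num) (by norm_num),
      Real.log_pow, Real.log_pow]
    push_cast; ring
  rw [h200] at g2
  have hl2 := Real.log_two_gt_d9
  have hl5 := PM.log5
  have hconst : (16 / 5 + 900 + ((LA : ℝ) + LB + LU) - 1650 * Real.log 2 - 1900 / 3 * Real.log 5 + 8 / 200) ≤
      -1016 := by
    linarith
  have htot : (16 / 5 + 900 + ((LA : ℝ) + LB + LU) - 1650 * Real.log 2 - 1900 / 3 * Real.log 5 + 8 / 200) *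
      (n : ℝ) ^ 2 ≤ -1016 * (n : ℝ) ^ 2 := mul_le_mul_of_nonneg_right hconst hn2.le
  have g2' : ∑ p ∈ PS (1 / 50) 4 n, EA n p * Real.log p ≤
      (LA : ℝ) * (n : ℝ) ^ 2 - 50 * Real.log 2 * (n : ℝ) ^ 2 - 100 / 3 * Real.log 5 * (n : ℝ) ^ 2 +
        1 / 200 * (n : ℝ) ^ 2 := by
    refine g2.trans (le_of_eq ?_); ring
  have g3' : ∑ p ∈ PS 4 10 n, EB n p * Real.log p ≤ (LB : ℝ) * (n : ℝ) ^ 2 + 1 / 200 * (n : ℝ) ^ 2 := by
    refine g3.trans (le_of_eq ?_); ring
  have g5' : ∑ p ∈ PS (1 / 50) 40 n,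
      (∑ j ∈ Finset.Icc 1 2000, (1 / 2 * tn (40 * n) j p + tn (20 * n) j p)) * Real.log p ≤
      (LU : ℝ) * (n : ℝ) ^ 2 + 1 / 200 * (n : ℝ) ^ 2 := by
    refine g5.trans (le_of_eq ?_); ring
  have g8' : 600 * (n : ℝ) ^ 2 * Real.log n + 1600 * Real.log 2 * (n : ℝ) ^ 2 +
      600 * Real.log 5 * (n : ℝ) ^ 2 - 900 * (n : ℝ) ^ 2 - 1 / 200 * (n : ℝ) ^ 2 ≤
        ∑ i ∈ Finset.range (20 * n - 20), Real.log ((2 * i - 1).factorial : ℝ) +
         2 * ∑ i ∈ Finset.range (10 * n - 10), Real.log ((2 * i - 1).factorial : ℝ) := by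
    refine le_trans (le_of_eq ?_) g8; ring
  have htot' : 4516 / 5 * (n : ℝ) ^ 2 + (LA : ℝ) * (n : ℝ) ^ 2 + (LB : ℝ) * (n : ℝ) ^ 2 +
      (LU : ℝ) * (n : ℝ) ^ 2 - 1650 * Real.log 2 * (n : ℝ) ^ 2 - 1900 / 3 * Real.log 5 * (n : ℝ) ^ 2 +
      8 / 200 * (n : ℝ) ^ 2 ≤ -1016 * (n : ℝ) ^ 2 := by
    refine le_trans (le_of_eq ?_) htot; ring
  have hfinal := add_le_add hsmall hlarge
  refine hfinal.trans ?_
  linarith

/-- large primes, from `D3_large` -/
theorem P_large_of (h : St_D3_large) : St_P_large := by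
  intro q α β hα hβ hβ3 n hn p hp h'
  have : Fact p.Prime := ⟨hp⟩
  have h1 := h (p := p) hn (by nlinarith) (by omega) q α β hα hβ hβ3 (10 * n - 10)
  have e : 2 * (10 * n - 10) = 20 * n - 20 := by omega
  rw [e] at h1
  exact h1

end

end Pool.Agent.Dim7
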