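import Pool.Agent.Dim7.Iface

/-! Certificates for the potential `FN`, `w ≥ 260`. -/

open Polynomial Pool.Agent.H337R2

namespace Pool.Agent.Dim7

namespace V1

/-- the list of the potential, step `1/4` -/
def lF : List (ℤ × ℤ) :=
  [(4951401840, -3292), (7307310780, -2064), (10429054020, -1568), (12662939520, -1300), (33743855880, -1128), (6909456204, -1040), (-38002009122, -640), (-266014063854, -400), (-76004018244, -320), (69094562040, -312), (15354347120, -268), (10556113645, -232), (13572146115, -200), (-13572146115, -172), (13572146115, -140), (-13572146115, 140), (13572146115, 172), (-13572146115, 200), (-10556113645, 232), (-15354347120, 268), (-69094562040, 312), (76004018244, 320), (266014063854, 400), (38002009122, 640), (-6909456204, 1040), (-33743855880, 1128), (-12662939520, 1300), (-10429054020, 1568), (-7307310780, 2064), (-4951401840, 3292)]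

lemma FN_eq (w : ℝ) : FN w = (100 * Real.log 2 + 90 * Real.log 5 - 6 * Real.log 3 - 70) +
    EF 760040182440 4 lF w := by
  have h20 : Real.log 20 = 2 * Real.log 2 + Real.log 5 := by
    rw [show (20 : ℝ) = 2 ^ 2 * 5 by norm_num, Real.log_mul (by norm_num) (by norm_num), Real.log_pow]
    norm_num
  unfold FN phi
  rw [Finset.sum_Ico_eq_sum_range]
  simp only [Finset.sum_range_succ, Finset.sum_range_zero, Ub, bb, cc, h20, EF, lF, List.map_cons, List.map_nil, List.sum_cons, List.sum_nil]
  norm_num
  ring_nf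

lemma const_bound : 100 * Real.log 2 + 90 * Real.log 5 - 6 * Real.log 3 - 70 ≤ 137573 / 1000 := by
  have h2 := abs_le.mp (lnA_spec 2 (by norm_num) (by norm_num))
  have h3 := abs_le.mp (lnA_spec 3 (by norm_num) (by norm_num))
  have h5 := abs_le.mp (lnA_spec 5 (by norm_num) (by norm_num))
  have e2 : lnA 2 = 693147180560 := by decide +kernel
  have e3 : lnA 3 = 1098612288761 := by decide +kernel
  have e5 : lnA 5 = 1609437912428 := by decide +kernel
  rw [e2] at h2
  rw [e3] at h3
  rw [e5] at h5
  push_cast at h2 h3 h5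
  linarith [h2.1, h2.2, h3.1, h3.2, h5.1, h5.2]

lemma E_up (v : ℝ) (h1 : 260 ≤ v) (h2 : v ≤ 10000) : EF 760040182440 4 lF v ≤ ((-71623 : ℝ) / 1000) := by
  have s0 : v ≤ (1104 : ℝ) / 4 → (1040 : ℝ) / 4 ≤ v → EF 760040182440 4 lF v ≤ ((-71623 : ℝ) / 1000) := fun ha hb =>
    EF_le (Dc := 760040182440) (M := 4) (l := lF) (A := -217745431947600480000000000) (by norm_num) (by norm_num) (by norm_num) _ (by norm_num) (st := 32) (c := 2)
      (by norm_num) (x0 := 1040) (by decide +kernel) v (by norm_num; linarith) (by norm_num; linarith)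
  have s1 : v ≤ (1120 : ℝ) / 4 → (1104 : ℝ) / 4 ≤ v → EF 760040182440 4 lF v ≤ ((-71623 : ℝ) / 1000) := fun ha hb =>
    EF_le (Dc := 760040182440) (M := 4) (l := lF) (A := -217745431947600480000000000) (by norm_num) (by norm_num) (by norm_num) _ (by norm_num) (st := 16) (c := 1)
      (by norm_num) (x0 := 1104) (by decide +kernel) v (by norm_num; linarith) (by norm_num; linarith)
  have s2 : v ≤ (1128 : ℝ) / 4 → (1120 : ℝ) / 4 ≤ v → EF 760040182440 4 lF v ≤ ((-71623 : ℝ) / 1000) := fun ha hb =>
    EF_le (Dc := 760040182440) (M := 4) (l := lF) (A := -217745431947600480000000000) (by norm_num) (by norm_num) (by norm_num) _ (by norm_num) (st := 8) (c := 1)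
      (by norm_num) (x0 := 1120) (by decide +kernel) v (by norm_num; linarith) (by norm_num; linarith)
  have s3 : v ≤ (1160 : ℝ) / 4 → (1128 : ℝ) / 4 ≤ v → EF 760040182440 4 lF v ≤ ((-71623 : ℝ) / 1000) := fun ha hb =>
    EF_le (Dc := 760040182440) (M := 4) (l := lF) (A := -217745431947600480000000000) (by norm_num) (by norm_num) (by norm_num) _ (by norm_num) (st := 16) (c := 2)
      (by norm_num) (x0 := 1128) (by decide +kernel) v (by norm_num; linarith) (by norm_num; linarith)
  have s4 : v ≤ (1224 : ℝ) / 4 → (1160 : ℝ) / 4 ≤ v → EF 760040182440 4 lF v ≤ ((-71623 : ℝ) / 1000) := fun ha hb =>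
    EF_le (Dc := 760040182440) (M := 4) (l := lF) (A := -217745431947600480000000000) (by norm_num) (by norm_num) (by norm_num) _ (by norm_num) (st := 32) (c := 2)
      (by norm_num) (x0 := 1160) (by decide +kernel) v (by norm_num; linarith) (by norm_num; linarith)
  have s5 : v ≤ (1288 : ℝ) / 4 → (1224 : ℝ) / 4 ≤ v → EF 760040182440 4 lF v ≤ ((-71623 : ℝ) / 1000) := fun ha hb =>
    EF_le (Dc := 760040182440) (M := 4) (l := lF) (A := -217745431947600480000000000) (by norm_num) (by norm_num) (by norm_num) _ (by norm_num) (st := 64) (c := 1)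
      (by norm_num) (x0 := 1224) (by decide +kernel) v (by norm_num; linarith) (by norm_num; linarith)
  have s6 : v ≤ (1296 : ℝ) / 4 → (1288 : ℝ) / 4 ≤ v → EF 760040182440 4 lF v ≤ ((-71623 : ℝ) / 1000) := fun ha hb =>
    EF_le (Dc := 760040182440) (M := 4) (l := lF) (A := -217745431947600480000000000) (by norm_num) (by norm_num) (by norm_num) _ (by norm_num) (st := 8) (c := 1)
      (by norm_num) (x0 := 1288) (by decide +kernel) v (by norm_num; linarith) (by norm_num; linarith)
  have s7 : v ≤ (1300 : ℝ) / 4 → (1296 : ℝ) / 4 ≤ v → EF 760040182440 4 lF v ≤ ((-71623 : ℝ) / 1000) := fun ha hb =>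
    EF_le (Dc := 760040182440) (M := 4) (l := lF) (A := -217745431947600480000000000) (by norm_num) (by norm_num) (by norm_num) _ (by norm_num) (st := 4) (c := 1)
      (by norm_num) (x0 := 1296) (by decide +kernel) v (by norm_num; linarith) (by norm_num; linarith)
  have s8 : v ≤ (1396 : ℝ) / 4 → (1300 : ℝ) / 4 ≤ v → EF 760040182440 4 lF v ≤ ((-71623 : ℝ) / 1000) := fun ha hb =>
    EF_le (Dc := 760040182440) (M := 4) (l := lF) (A := -217745431947600480000000000) (by norm_num) (by norm_num) (by norm_num) _ (by norm_num) (st := 32) (c := 3)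
      (by norm_num) (x0 := 1300) (by decide +kernel) v (by norm_num; linarith) (by norm_num; linarith)
  have s9 : v ≤ (1524 : ℝ) / 4 → (1396 : ℝ) / 4 ≤ v → EF 760040182440 4 lF v ≤ ((-71623 : ℝ) / 1000) := fun ha hb =>
    EF_le (Dc := 760040182440) (M := 4) (l := lF) (A := -217745431947600480000000000) (by norm_num) (by norm_num) (by norm_num) _ (by norm_num) (st := 64) (c := 2)
      (by norm_num) (x0 := 1396) (by decide +kernel) v (by norm_num; linarith) (by norm_num; linarith)
  have s10 : v ≤ (1556 : ℝ) / 4 → (1524 : ℝ) / 4 ≤ v → EF 760040182440 4 lF v ≤ ((-71623 : ℝ) / 1000) := fun ha hb =>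
    EF_le (Dc := 760040182440) (M := 4) (l := lF) (A := -217745431947600480000000000) (by norm_num) (by norm_num) (by norm_num) _ (by norm_num) (st := 32) (c := 1)
      (by norm_num) (x0 := 1524) (by decide +kernel) v (by norm_num; linarith) (by norm_num; linarith)
  have s11 : v ≤ (1564 : ℝ) / 4 → (1556 : ℝ) / 4 ≤ v → EF 760040182440 4 lF v ≤ ((-71623 : ℝ) / 1000) := fun ha hb =>
    EF_le (Dc := 760040182440) (M := 4) (l := lF) (A := -217745431947600480000000000) (by norm_num) (by norm_num) (by norm_num) _ (by norm_num) (st := 8) (c := 1)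
      (by norm_num) (x0 := 1556) (by decide +kernel) v (by norm_num; linarith) (by norm_num; linarith)
  have s12 : v ≤ (1568 : ℝ) / 4 → (1564 : ℝ) / 4 ≤ v → EF 760040182440 4 lF v ≤ ((-71623 : ℝ) / 1000) := fun ha hb =>
    EF_le (Dc := 760040182440) (M := 4) (l := lF) (A := -217745431947600480000000000) (by norm_num) (by norm_num) (by norm_num) _ (by norm_num) (st := 4) (c := 1)
      (by norm_num) (x0 := 1564) (by decide +kernel) v (by norm_num; linarith) (by norm_num; linarith)
  have s13 : v ≤ (1728 : ℝ) / 4 → (1568 : ℝ) / 4 ≤ v → EF 760040182440 4 lF v ≤ ((-71623 : ℝ) / 1000) := fun ha hb =>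
    EF_le (Dc := 760040182440) (M := 4) (l := lF) (A := -217745431947600480000000000) (by norm_num) (by norm_num) (by norm_num) _ (by norm_num) (st := 32) (c := 5)
      (by norm_num) (x0 := 1568) (by decide +kernel) v (by norm_num; linarith) (by norm_num; linarith)
  have s14 : v ≤ (2048 : ℝ) / 4 → (1728 : ℝ) / 4 ≤ v → EF 760040182440 4 lF v ≤ ((-71623 : ℝ) / 1000) := fun ha hb =>
    EF_le (Dc := 760040182440) (M := 4) (l := lF) (A := -217745431947600480000000000) (by norm_num) (by norm_num) (by norm_num) _ (by norm_num) (st := 64) (c := 5)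
      (by norm_num) (x0 := 1728) (by decide +kernel) v (by norm_num; linarith) (by norm_num; linarith)
  have s15 : v ≤ (2064 : ℝ) / 4 → (2048 : ℝ) / 4 ≤ v → EF 760040182440 4 lF v ≤ ((-71623 : ℝ) / 1000) := fun ha hb =>
    EF_le (Dc := 760040182440) (M := 4) (l := lF) (A := -217745431947600480000000000) (by norm_num) (by norm_num) (by norm_num) _ (by norm_num) (st := 16) (c := 1)
      (by norm_num) (x0 := 2048) (by decide +kernel) v (by norm_num; linarith) (by norm_num; linarith)
  have s16 : v ≤ (2288 : ℝ) / 4 → (2064 : ℝ) / 4 ≤ v → EF 760040182440 4 lF v ≤ ((-71623 : ℝ) / 1000) := fun ha hb =>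
    EF_le (Dc := 760040182440) (M := 4) (l := lF) (A := -217745431947600480000000000) (by norm_num) (by norm_num) (by norm_num) _ (by norm_num) (st := 32) (c := 7)
      (by norm_num) (x0 := 2064) (by decide +kernel) v (by norm_num; linarith) (by norm_num; linarith)
  have s17 : v ≤ (2480 : ℝ) / 4 → (2288 : ℝ) / 4 ≤ v → EF 760040182440 4 lF v ≤ ((-71623 : ℝ) / 1000) := fun ha hb =>
    EF_le (Dc := 760040182440) (M := 4) (l := lF) (A := -217745431947600480000000000) (by norm_num) (by norm_num) (by norm_num) _ (by norm_num) (st := 64) (c := 3)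
      (by norm_num) (x0 := 2288) (by decide +kernel) v (by norm_num; linarith) (by norm_num; linarith)
  have s18 : v ≤ (3248 : ℝ) / 4 → (2480 : ℝ) / 4 ≤ v → EF 760040182440 4 lF v ≤ ((-71623 : ℝ) / 1000) := fun ha hb =>
    EF_le (Dc := 760040182440) (M := 4) (l := lF) (A := -217745431947600480000000000) (by norm_num) (by norm_num) (by norm_num) _ (by norm_num) (st := 128) (c := 6)
      (by norm_num) (x0 := 2480) (by decide +kernel) v (by norm_num; linarith) (by norm_num; linarith)
  have s19 : v ≤ (3280 : ℝ) / 4 → (3248 : ℝ) / 4 ≤ v → EF 760040182440 4 lF v ≤ ((-71623 : ℝ) / 1000) := fun ha hb =>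
    EF_le (Dc := 760040182440) (M := 4) (l := lF) (A := -217745431947600480000000000) (by norm_num) (by norm_num) (by norm_num) _ (by norm_num) (st := 32) (c := 1)
      (by norm_num) (x0 := 3248) (by decide +kernel) v (by norm_num; linarith) (by norm_num; linarith)
  have s20 : v ≤ (3288 : ℝ) / 4 → (3280 : ℝ) / 4 ≤ v → EF 760040182440 4 lF v ≤ ((-71623 : ℝ) / 1000) := fun ha hb =>
    EF_le (Dc := 760040182440) (M := 4) (l := lF) (A := -217745431947600480000000000) (by norm_num) (by norm_num) (by norm_num) _ (by norm_num) (st := 8) (c := 1)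
      (by norm_num) (x0 := 3280) (by decide +kernel) v (by norm_num; linarith) (by norm_num; linarith)
  have s21 : v ≤ (3292 : ℝ) / 4 → (3288 : ℝ) / 4 ≤ v → EF 760040182440 4 lF v ≤ ((-71623 : ℝ) / 1000) := fun ha hb =>
    EF_le (Dc := 760040182440) (M := 4) (l := lF) (A := -217745431947600480000000000) (by norm_num) (by norm_num) (by norm_num) _ (by norm_num) (st := 4) (c := 1)
      (by norm_num) (x0 := 3288) (by decide +kernel) v (by norm_num; linarith) (by norm_num; linarith)
  have s22 : v ≤ (3996 : ℝ) / 4 → (3292 : ℝ) / 4 ≤ v → EF 760040182440 4 lF v ≤ ((-71623 : ℝ) / 1000) := fun ha hb =>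
    EF_le (Dc := 760040182440) (M := 4) (l := lF) (A := -217745431947600480000000000) (by norm_num) (by norm_num) (by norm_num) _ (by norm_num) (st := 64) (c := 11)
      (by norm_num) (x0 := 3292) (by decide +kernel) v (by norm_num; linarith) (by norm_num; linarith)
  have s23 : v ≤ (4636 : ℝ) / 4 → (3996 : ℝ) / 4 ≤ v → EF 760040182440 4 lF v ≤ ((-71623 : ℝ) / 1000) := fun ha hb =>
    EF_le (Dc := 760040182440) (M := 4) (l := lF) (A := -217745431947600480000000000) (by norm_num) (by norm_num) (by norm_num) _ (by norm_num) (st := 128) (c := 5)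
      (by norm_num) (x0 := 3996) (by decide +kernel) v (by norm_num; linarith) (by norm_num; linarith)
  have s24 : v ≤ (5916 : ℝ) / 4 → (4636 : ℝ) / 4 ≤ v → EF 760040182440 4 lF v ≤ ((-71623 : ℝ) / 1000) := fun ha hb =>
    EF_le (Dc := 760040182440) (M := 4) (l := lF) (A := -217745431947600480000000000) (by norm_num) (by norm_num) (by norm_num) _ (by norm_num) (st := 256) (c := 5)
      (by norm_num) (x0 := 4636) (by decide +kernel) v (by norm_num; linarith) (by norm_num; linarith)
  have s25 : v ≤ (8988 : ℝ) / 4 → (5916 : ℝ) / 4 ≤ v → EF 760040182440 4 lF v ≤ ((-71623 : ℝ) / 1000) := fun ha hb =>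
    EF_le (Dc := 760040182440) (M := 4) (l := lF) (A := -217745431947600480000000000) (by norm_num) (by norm_num) (by norm_num) _ (by norm_num) (st := 512) (c := 6)
      (by norm_num) (x0 := 5916) (by decide +kernel) v (by norm_num; linarith) (by norm_num; linarith)
  have s26 : v ≤ (17180 : ℝ) / 4 → (8988 : ℝ) / 4 ≤ v → EF 760040182440 4 lF v ≤ ((-71623 : ℝ) / 1000) := fun ha hb =>
    EF_le (Dc := 760040182440) (M := 4) (l := lF) (A := -217745431947600480000000000) (by norm_num) (by norm_num) (by norm_num) _ (by norm_num) (st := 1024) (c := 8)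
      (by norm_num) (x0 := 8988) (by decide +kernel) v (by norm_num; linarith) (by norm_num; linarith)
  have s27 : v ≤ (41756 : ℝ) / 4 → (17180 : ℝ) / 4 ≤ v → EF 760040182440 4 lF v ≤ ((-71623 : ℝ) / 1000) := fun ha hb =>
    EF_le (Dc := 760040182440) (M := 4) (l := lF) (A := -217745431947600480000000000) (by norm_num) (by norm_num) (by norm_num) _ (by norm_num) (st := 2048) (c := 12)
      (by norm_num) (x0 := 17180) (by decide +kernel) v (by norm_num; linarith) (by norm_num; linarith)
  rcases le_total v ((1104 : ℝ) / 4) with k0 | k0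
  · exact s0 k0 (by linarith)
  rcases le_total v ((1120 : ℝ) / 4) with k1 | k1
  · exact s1 k1 (by linarith)
  rcases le_total v ((1128 : ℝ) / 4) with k2 | k2
  · exact s2 k2 (by linarith)
  rcases le_total v ((1160 : ℝ) / 4) with k3 | k3
  · exact s3 k3 (by linarith)
  rcases le_total v ((1224 : ℝ) / 4) with k4 | k4
  · exact s4 k4 (by linarith)
  rcases le_total v ((1288 : ℝ) / 4) with k5 | k5
  · exact s5 k5 (by linarith)
  rcases le_total v ((1296 : ℝ) / 4) with k6 | k6
  · exact s6 k6 (by linarith)
  rcases le_total v ((1300 : ℝ) / 4) with k7 | k7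
  · exact s7 k7 (by linarith)
  rcases le_total v ((1396 : ℝ) / 4) with k8 | k8
  · exact s8 k8 (by linarith)
  rcases le_total v ((1524 : ℝ) / 4) with k9 | k9
  · exact s9 k9 (by linarith)
  rcases le_total v ((1556 : ℝ) / 4) with k10 | k10
  · exact s10 k10 (by linarith)
  rcases le_total v ((1564 : ℝ) / 4) with k11 | k11
  · exact s11 k11 (by linarith)
  rcases le_total v ((1568 : ℝ) / 4) with k12 | k12
  · exact s12 k12 (by linarith)
  rcases le_total v ((1728 : ℝ) / 4) with k13 | k13
  · exact s13 k13 (by linarith)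
  rcases le_total v ((2048 : ℝ) / 4) with k14 | k14
  · exact s14 k14 (by linarith)
  rcases le_total v ((2064 : ℝ) / 4) with k15 | k15
  · exact s15 k15 (by linarith)
  rcases le_total v ((2288 : ℝ) / 4) with k16 | k16
  · exact s16 k16 (by linarith)
  rcases le_total v ((2480 : ℝ) / 4) with k17 | k17
  · exact s17 k17 (by linarith)
  rcases le_total v ((3248 : ℝ) / 4) with k18 | k18
  · exact s18 k18 (by linarith)
  rcases le_total v ((3280 : ℝ) / 4) with k19 | k19
  · exact s19 k19 (by linarith)
  rcases le_total v ((3288 : ℝ) / 4) with k20 | k20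
  · exact s20 k20 (by linarith)
  rcases le_total v ((3292 : ℝ) / 4) with k21 | k21
  · exact s21 k21 (by linarith)
  rcases le_total v ((3996 : ℝ) / 4) with k22 | k22
  · exact s22 k22 (by linarith)
  rcases le_total v ((4636 : ℝ) / 4) with k23 | k23
  · exact s23 k23 (by linarith)
  rcases le_total v ((5916 : ℝ) / 4) with k24 | k24
  · exact s24 k24 (by linarith)
  rcases le_total v ((8988 : ℝ) / 4) with k25 | k25
  · exact s25 k25 (by linarith)
  rcases le_total v ((17180 : ℝ) / 4) with k26 | k26
  · exact s26 k26 (by linarith)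
  exact s27 (by linarith) (by linarith)

lemma Psi_up (w k : ℝ) (hw : 0 < w) (hk : 0 < w - k) :
    Psi (w - k) ≤ Psi w - k * Real.log w + k ^ 2 * (1 / w) := by
  have h1 : Real.log ((w - k) / w) ≤ (w - k) / w - 1 :=
    Real.log_le_sub_one_of_pos (div_pos hk hw)
  rw [Real.log_div hk.ne' hw.ne'] at h1
  have h2 := mul_le_mul_of_nonneg_left h1 hk.le
  have h3 : (w - k) * ((w - k) / w - 1) = -k + k ^ 2 * (1 / w) := by
    field_simp
    ring
  rw [h3] at h2
  unfold Psi
  linarith [h2, mul_sub (w - k) (Real.log (w - k)) (Real.log w)]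

lemma Psi_lo (w k : ℝ) (hw : 0 < w) (hk : 0 < w - k) :
    Psi w - k * Real.log w ≤ Psi (w - k) := by
  have h1 : Real.log (w / (w - k)) ≤ w / (w - k) - 1 :=
    Real.log_le_sub_one_of_pos (div_pos hw hk)
  rw [Real.log_div hw.ne' hk.ne'] at h1
  have h2 := mul_le_mul_of_nonneg_left h1 hk.le
  have h3 : (w - k) * (w / (w - k) - 1) = k := by
    field_simp
    ring
  rw [h3] at h2
  unfold Psi
  linarith [h2, mul_sub (w - k) (Real.log w) (Real.log (w - k))]

lemma E_tail (w : ℝ) (h1 : 10000 ≤ w) : EF 760040182440 4 lF w + 10 * Real.log w ≤ 3 := by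
  have hw : 0 < w := by linarith
  have hiw : 1 / w ≤ 1 / 10000 := one_div_le_one_div_of_le (by norm_num) h1
  have t0 := Psi_up w (-823) hw (by linarith)
  have t1 := Psi_up w (-516) hw (by linarith)
  have t2 := Psi_up w (-392) hw (by linarith)
  have t3 := Psi_up w (-325) hw (by linarith)
  have t4 := Psi_up w (-282) hw (by linarith)
  have t5 := Psi_up w (-260) hw (by linarith)
  have t6 := Psi_lo w (-160) hw (by linarith)
  have t7 := Psi_lo w (-100) hw (by linarith)
  have t8 := Psi_lo w (-80) hw (by linarith)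
  have t9 := Psi_up w (-78) hw (by linarith)
  have t10 := Psi_up w (-67) hw (by linarith)
  have t11 := Psi_up w (-58) hw (by linarith)
  have t12 := Psi_up w (-50) hw (by linarith)
  have t13 := Psi_lo w (-43) hw (by linarith)
  have t14 := Psi_up w (-35) hw (by linarith)
  have t15 := Psi_lo w (35) hw (by linarith)
  have t16 := Psi_up w (43) hw (by linarith)
  have t17 := Psi_lo w (50) hw (by linarith)
  have t18 := Psi_lo w (58) hw (by linarith)
  have t19 := Psi_lo w (67) hw (by linarith)
  have t20 := Psi_lo w (78) hw (by linarith)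
  have t21 := Psi_up w (80) hw (by linarith)
  have t22 := Psi_up w (100) hw (by linarith)
  have t23 := Psi_up w (160) hw (by linarith)
  have t24 := Psi_lo w (260) hw (by linarith)
  have t25 := Psi_lo w (282) hw (by linarith)
  have t26 := Psi_lo w (325) hw (by linarith)
  have t27 := Psi_lo w (392) hw (by linarith)
  have t28 := Psi_lo w (516) hw (by linarith)
  have t29 := Psi_lo w (823) hw (by linarith)
  have e : EF 760040182440 4 lF w = ((4951401840 : ℝ) / 760040182440) * Psi (w - (-823)) +
    ((7307310780 : ℝ) / 760040182440) * Psi (w - (-516)) +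
    ((10429054020 : ℝ) / 760040182440) * Psi (w - (-392)) +
    ((12662939520 : ℝ) / 760040182440) * Psi (w - (-325)) +
    ((33743855880 : ℝ) / 760040182440) * Psi (w - (-282)) +
    ((6909456204 : ℝ) / 760040182440) * Psi (w - (-260)) +
    ((-38002009122 : ℝ) / 760040182440) * Psi (w - (-160)) +
    ((-266014063854 : ℝ) / 760040182440) * Psi (w - (-100)) +
    ((-76004018244 : ℝ) / 760040182440) * Psi (w - (-80)) +
    ((69094562040 : ℝ) / 760040182440) * Psi (w - (-78)) +
    ((15354347120 : ℝ) / 760040182440) * Psi (w - (-67)) +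
    ((10556113645 : ℝ) / 760040182440) * Psi (w - (-58)) +
    ((13572146115 : ℝ) / 760040182440) * Psi (w - (-50)) +
    ((-13572146115 : ℝ) / 760040182440) * Psi (w - (-43)) +
    ((13572146115 : ℝ) / 760040182440) * Psi (w - (-35)) +
    ((-13572146115 : ℝ) / 760040182440) * Psi (w - (35)) +
    ((13572146115 : ℝ) / 760040182440) * Psi (w - (43)) +
    ((-13572146115 : ℝ) / 760040182440) * Psi (w - (50)) +
    ((-10556113645 : ℝ) / 760040182440) * Psi (w - (58)) +
    ((-15354347120 : ℝ) / 760040182440) * Psi (w - (67)) +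
    ((-69094562040 : ℝ) / 760040182440) * Psi (w - (78)) +
    ((76004018244 : ℝ) / 760040182440) * Psi (w - (80)) +
    ((266014063854 : ℝ) / 760040182440) * Psi (w - (100)) +
    ((38002009122 : ℝ) / 760040182440) * Psi (w - (160)) +
    ((-6909456204 : ℝ) / 760040182440) * Psi (w - (260)) +
    ((-33743855880 : ℝ) / 760040182440) * Psi (w - (282)) +
    ((-12662939520 : ℝ) / 760040182440) * Psi (w - (325)) +
    ((-10429054020 : ℝ) / 760040182440) * Psi (w - (392)) +
    ((-7307310780 : ℝ) / 760040182440) * Psi (w - (516)) +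
    ((-4951401840 : ℝ) / 760040182440) * Psi (w - (823)) := by
    simp only [EF, lF, List.map_cons, List.map_nil, List.sum_cons, List.sum_nil]
    norm_num
    ring
  rw [e]
  have m0 := mul_le_mul_of_nonneg_left t0 (by norm_num : (0 : ℝ) ≤ 4951401840 / 760040182440)
  have m1 := mul_le_mul_of_nonneg_left t1 (by norm_num : (0 : ℝ) ≤ 7307310780 / 760040182440)
  have m2 := mul_le_mul_of_nonneg_left t2 (by norm_num : (0 : ℝ) ≤ 10429054020 / 760040182440)
  have m3 := mul_le_mul_of_nonneg_left t3 (by norm_num : (0 : ℝ) ≤ 12662939520 / 760040182440)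
  have m4 := mul_le_mul_of_nonneg_left t4 (by norm_num : (0 : ℝ) ≤ 33743855880 / 760040182440)
  have m5 := mul_le_mul_of_nonneg_left t5 (by norm_num : (0 : ℝ) ≤ 6909456204 / 760040182440)
  have m6 := mul_le_mul_of_nonneg_left t6 (by norm_num : (0 : ℝ) ≤ 38002009122 / 760040182440)
  have m7 := mul_le_mul_of_nonneg_left t7 (by norm_num : (0 : ℝ) ≤ 266014063854 / 760040182440)
  have m8 := mul_le_mul_of_nonneg_left t8 (by norm_num : (0 : ℝ) ≤ 76004018244 / 760040182440)
  have m9 := mul_le_mul_of_nonneg_left t9 (by norm_num : (0 : ℝ) ≤ 69094562040 / 760040182440)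
  have m10 := mul_le_mul_of_nonneg_left t10 (by norm_num : (0 : ℝ) ≤ 15354347120 / 760040182440)
  have m11 := mul_le_mul_of_nonneg_left t11 (by norm_num : (0 : ℝ) ≤ 10556113645 / 760040182440)
  have m12 := mul_le_mul_of_nonneg_left t12 (by norm_num : (0 : ℝ) ≤ 13572146115 / 760040182440)
  have m13 := mul_le_mul_of_nonneg_left t13 (by norm_num : (0 : ℝ) ≤ 13572146115 / 760040182440)
  have m14 := mul_le_mul_of_nonneg_left t14 (by norm_num : (0 : ℝ) ≤ 13572146115 / 760040182440)
  have m15 := mul_le_mul_of_nonneg_left t15 (by norm_num : (0 : ℝ) ≤ 13572146115 / 760040182440)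
  have m16 := mul_le_mul_of_nonneg_left t16 (by norm_num : (0 : ℝ) ≤ 13572146115 / 760040182440)
  have m17 := mul_le_mul_of_nonneg_left t17 (by norm_num : (0 : ℝ) ≤ 13572146115 / 760040182440)
  have m18 := mul_le_mul_of_nonneg_left t18 (by norm_num : (0 : ℝ) ≤ 10556113645 / 760040182440)
  have m19 := mul_le_mul_of_nonneg_left t19 (by norm_num : (0 : ℝ) ≤ 15354347120 / 760040182440)
  have m20 := mul_le_mul_of_nonneg_left t20 (by norm_num : (0 : ℝ) ≤ 69094562040 / 760040182440)
  have m21 := mul_le_mul_of_nonneg_left t21 (by norm_num : (0 : ℝ) ≤ 76004018244 / 760040182440)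
  have m22 := mul_le_mul_of_nonneg_left t22 (by norm_num : (0 : ℝ) ≤ 266014063854 / 760040182440)
  have m23 := mul_le_mul_of_nonneg_left t23 (by norm_num : (0 : ℝ) ≤ 38002009122 / 760040182440)
  have m24 := mul_le_mul_of_nonneg_left t24 (by norm_num : (0 : ℝ) ≤ 6909456204 / 760040182440)
  have m25 := mul_le_mul_of_nonneg_left t25 (by norm_num : (0 : ℝ) ≤ 33743855880 / 760040182440)
  have m26 := mul_le_mul_of_nonneg_left t26 (by norm_num : (0 : ℝ) ≤ 12662939520 / 760040182440)
  have m27 := mul_le_mul_of_nonneg_left t27 (by norm_num : (0 : ℝ) ≤ 10429054020 / 760040182440)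
  have m28 := mul_le_mul_of_nonneg_left t28 (by norm_num : (0 : ℝ) ≤ 7307310780 / 760040182440)
  have m29 := mul_le_mul_of_nonneg_left t29 (by norm_num : (0 : ℝ) ≤ 4951401840 / 760040182440)
  linarith [m0, m1, m2, m3, m4, m5, m6, m7, m8, m9, m10, m11, m12, m13, m14, m15, m16, m17, m18, m19, m20, m21, m22, m23, m24, m25, m26, m27, m28, m29]

end V1

open V1

/-- decay -/
theorem V1_tail : St_V1_tail := by
  intro w h1
  rw [FN_eq]
  have h := E_tail w h1
  have hc := const_bound
  have h2 := abs_le.mp (lnA_spec 2 (by norm_num) (by norm_num))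
  have h5 := abs_le.mp (lnA_spec 5 (by norm_num) (by norm_num))
  have e2 : lnA 2 = 693147180560 := by decide +kernel
  have e5 : lnA 5 = 1609437912428 := by decide +kernel
  rw [e2] at h2
  rw [e5] at h5
  push_cast at h2 h5
  have h10 : Real.log 10000 = 4 * Real.log 2 + 4 * Real.log 5 := by
    rw [show (10000 : ℝ) = 2 ^ 4 * 5 ^ 4 by norm_num, Real.log_mul (by norm_num) (by norm_num), Real.log_pow, Real.log_pow]
    norm_num
  have h3 : Real.log 10000 ≤ Real.log w := Real.log_le_log (by norm_num) h1
  rw [h10] at h3 ⊢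
  linarith [h2.1, h2.2, h5.1, h5.2, hc]

theorem V1_upper : St_V1_upper := by
  intro w h1
  rcases le_total w 10000 with h | h
  · rw [FN_eq]
    linarith [E_up w h1 h, const_bound]
  · have h2 := V1_tail w h
    have h3 : Real.log 10000 ≤ Real.log w := Real.log_le_log (by norm_num) h
    linarith

end Pool.Agent.Dim7
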