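import Pool.Agent.Dim7.V2

/-! # The upper bound for `FY` on `[-100, 100]` -/

open Polynomial Pool.Agent.H337R2

namespace Pool.Agent.Dim7

namespace V3

/-- the list of `FY` -/
def lY : List (ℤ × ℤ) := [(1237850460, -823), (1826827695, -516), (2607263505, -392), (3165734880, -325), (8435963970, -282), (1727364051, -260), (-133007031927, -100), (-38002009122, -80), (69094562040, -78), (15354347120, -67), (10556113645, -58), (13572146115, -50), (-13572146115, -43), (13572146115, -35), (-13572146115, 35), (13572146115, 43), (-13572146115, 50), (-10556113645, 58), (-15354347120, 67), (-69094562040, 78), (38002009122, 80), (133007031927, 100), (-1727364051, 260), (-8435963970, 282), (-3165734880, 325), (-2607263505, 392), (-1826827695, 516), (-1237850460, 823)]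

/-- the integer bound -/
def yA : ℤ := 1074506807924550000000000

theorem FY_eq (w : ℝ) : FY w = EF 380020091220 1 lY w +
    (100 * Real.log 2 + 90 * Real.log 5 - 6 * Real.log 3 - 70) := by
  have l20 : Real.log 20 = 2 * Real.log 2 + Real.log 5 := by
    rw [show (20 : ℝ) = 2 ^ 2 * 5 by norm_num, Real.log_mul (by norm_num) (by norm_num),
      Real.log_pow]
    push_cast; ring
  have u0 : Ub 0 w = ((Psi (w - 160) - Psi (w - 180)) + (Psi (w + 180) - Psi (w + 160))) / 20 -
      2 * Real.log 20 := by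
    unfold Ub bb cc; norm_num [sub_sub, add_assoc]
  have u1 : Ub 1 w = ((Psi (w - 180) - Psi (w - 200)) + (Psi (w + 200) - Psi (w + 180))) / 20 -
      2 * Real.log 20 := by
    unfold Ub bb cc; norm_num [sub_sub, add_assoc]
  have u2 : Ub 2 w = ((Psi (w - 200) - Psi (w - 220)) + (Psi (w + 220) - Psi (w + 200))) / 20 -
      2 * Real.log 20 := by
    unfold Ub bb cc; norm_num [sub_sub, add_assoc]
  have u3 : Ub 3 w = ((Psi (w - 220) - Psi (w - 240)) + (Psi (w + 240) - Psi (w + 220))) / 20 -
      2 * Real.log 20 := by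
    unfold Ub bb cc; norm_num [sub_sub, add_assoc]
  have u4 : Ub 4 w = ((Psi (w - 240) - Psi (w - 260)) + (Psi (w + 260) - Psi (w + 240))) / 20 -
      2 * Real.log 20 := by
    unfold Ub bb cc; norm_num [sub_sub, add_assoc]
  have u5 : Ub 5 w = ((Psi (w - 260) - Psi (w - 282)) + (Psi (w + 282) - Psi (w + 260))) / 22 -
      2 * Real.log 20 := by
    unfold Ub bb cc; norm_num [sub_sub, add_assoc]
  have u6 : Ub 6 w = ((Psi (w - 282) - Psi (w - 325)) + (Psi (w + 325) - Psi (w + 282))) / 43 -
      2 * Real.log 20 := by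
    unfold Ub bb cc; norm_num [sub_sub, add_assoc]
  have u7 : Ub 7 w = ((Psi (w - 325) - Psi (w - 392)) + (Psi (w + 392) - Psi (w + 325))) / 67 -
      2 * Real.log 20 := by
    unfold Ub bb cc; norm_num [sub_sub, add_assoc]
  have u8 : Ub 8 w = ((Psi (w - 392) - Psi (w - 516)) + (Psi (w + 516) - Psi (w + 392))) / 124 -
      2 * Real.log 20 := by
    unfold Ub bb cc; norm_num [sub_sub, add_assoc]
  have u9 : Ub 9 w = ((Psi (w - 516) - Psi (w - 823)) + (Psi (w + 823) - Psi (w + 516))) / 307 -
      2 * Real.log 20 := by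
    unfold Ub bb cc; norm_num [sub_sub, add_assoc]
  have u10 : Ub 10 w = ((Psi w - Psi (w - 7)) + (Psi (w + 7) - Psi w)) / 7 -
      2 * Real.log 20 := by
    unfold Ub bb cc; norm_num [sub_sub, add_assoc]
  have u11 : Ub 11 w = ((Psi (w - 7) - Psi (w - 14)) + (Psi (w + 14) - Psi (w + 7))) / 7 -
      2 * Real.log 20 := by
    unfold Ub bb cc; norm_num [sub_sub, add_assoc]
  have u12 : Ub 12 w = ((Psi (w - 14) - Psi (w - 21)) + (Psi (w + 21) - Psi (w + 14))) / 7 -
      2 * Real.log 20 := by
    unfold Ub bb cc; norm_num [sub_sub, add_assoc]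
  have u13 : Ub 13 w = ((Psi (w - 21) - Psi (w - 28)) + (Psi (w + 28) - Psi (w + 21))) / 7 -
      2 * Real.log 20 := by
    unfold Ub bb cc; norm_num [sub_sub, add_assoc]
  have u14 : Ub 14 w = ((Psi (w - 28) - Psi (w - 35)) + (Psi (w + 35) - Psi (w + 28))) / 7 -
      2 * Real.log 20 := by
    unfold Ub bb cc; norm_num [sub_sub, add_assoc]
  have u15 : Ub 15 w = ((Psi (w - 35) - Psi (w - 43)) + (Psi (w + 43) - Psi (w + 35))) / 8 -
      2 * Real.log 20 := by
    unfold Ub bb cc; norm_num [sub_sub, add_assoc]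
  have u16 : Ub 16 w = ((Psi (w - 43) - Psi (w - 50)) + (Psi (w + 50) - Psi (w + 43))) / 7 -
      2 * Real.log 20 := by
    unfold Ub bb cc; norm_num [sub_sub, add_assoc]
  have u17 : Ub 17 w = ((Psi (w - 50) - Psi (w - 58)) + (Psi (w + 58) - Psi (w + 50))) / 8 -
      2 * Real.log 20 := by
    unfold Ub bb cc; norm_num [sub_sub, add_assoc]
  have u18 : Ub 18 w = ((Psi (w - 58) - Psi (w - 67)) + (Psi (w + 67) - Psi (w + 58))) / 9 -
      2 * Real.log 20 := by
    unfold Ub bb cc; norm_num [sub_sub, add_assoc]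
  have u19 : Ub 19 w = ((Psi (w - 67) - Psi (w - 78)) + (Psi (w + 78) - Psi (w + 67))) / 11 -
      2 * Real.log 20 := by
    unfold Ub bb cc; norm_num [sub_sub, add_assoc]
  have hI : ∑ g ∈ Finset.Ico 10 20, Ub g w = Ub 10 w + Ub 11 w + Ub 12 w + Ub 13 w + Ub 14 w + Ub 15 w + Ub 16 w + Ub 17 w + Ub 18 w + Ub 19 w := by
    simp [Finset.sum_Ico_succ_top]
  have hR : ∑ g ∈ Finset.range 10, Ub g w = Ub 0 w + Ub 1 w + Ub 2 w + Ub 3 w + Ub 4 w + Ub 5 w + Ub 6 w + Ub 7 w + Ub 8 w + Ub 9 w := by
    simp [Finset.sum_range_succ]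
  have hE : EF 380020091220 1 lY w = ((1237850460) * Psi (w + 823) + (1826827695) * Psi (w + 516) + (2607263505) * Psi (w + 392) + (3165734880) * Psi (w + 325) + (8435963970) * Psi (w + 282) + (1727364051) * Psi (w + 260) + (-133007031927) * Psi (w + 100) + (-38002009122) * Psi (w + 80) + (69094562040) * Psi (w + 78) + (15354347120) * Psi (w + 67) + (10556113645) * Psi (w + 58) + (13572146115) * Psi (w + 50) + (-13572146115) * Psi (w + 43) + (13572146115) * Psi (w + 35) + (-13572146115) * Psi (w - 35) + (13572146115) * Psi (w - 43) + (-13572146115) * Psi (w - 50) + (-10556113645) * Psi (w - 58) + (-15354347120) * Psi (w - 67) + (-69094562040) * Psi (w - 78) + (38002009122) * Psi (w - 80) + (133007031927) * Psi (w - 100) + (-1727364051) * Psi (w - 260) + (-8435963970) * Psi (w - 282) + (-3165734880) * Psi (w - 325) + (-2607263505) * Psi (w - 392) + (-1826827695) * Psi (w - 516) + (-1237850460) * Psi (w - 823)) / 380020091220 := by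
    unfold EF lY
    simp only [List.map_cons, List.map_nil, List.sum_cons, List.sum_nil]
    push_cast
    norm_num
    ring
  unfold FY phi
  rw [hI, hR, hE, u0, u1, u2, u3, u4, u5, u6, u7, u8, u9, u10, u11, u12, u13, u14, u15, u16, u17, u18, u19, l20]
  ring

theorem c1 : V2.chkB 1 lY yA (-100) [-87, -81, -80, -78, -74, -71, -69, -67, -64, -61, -58, -53, -50, -43, -40, -37, -35, -27, -16, -5, 6, 17, 28, 35, 38, 41, 43, 50, 56, 58, 61, 64, 67, 69, 71, 74, 78, 80, 84, 93, 100] = true := by decide +kernel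

theorem EF_bound (w : ℝ) (h0 : -100 ≤ w) (h1 : w ≤ 100) :
    EF 380020091220 1 lY w ≤ 28275 / 10000 := by
  have h := V2.chkB_spec (Dc := 380020091220) (M := 1) (l := lY) (A := yA) (by norm_num) (by norm_num) (by norm_num)
    (28275 / 10000) (by unfold yA; norm_num) [-81, -80, -78, -74, -71, -69, -67, -64, -61, -58, -53, -50, -43, -40, -37, -35, -27, -16, -5, 6, 17, 28, 35, 38, 41, 43, 50, 56, 58, 61, 64, 67, 69, 71, 74, 78, 80, 84, 93, 100] (-100) (-87) c1 w (by push_cast; linarith)
    (by simp only [V2.lastB]; push_cast; linarith)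
  simpa using h

end V3

theorem V3_upperY : St_V3_upperY := by
  intro w h0 h1
  have hE := V3.EF_bound w h0 h1
  have l2 := V2.log_up 2 (by norm_num) (by norm_num) 693147180560 (by decide +kernel)
  have l5 := V2.log_up 5 (by norm_num) (by norm_num) 1609437912428 (by decide +kernel)
  have l3 := V2.log_low 3 (by norm_num) (by norm_num) 1098612288761 (by decide +kernel)
  push_cast at l2 l5 l3
  rw [V3.FY_eq]
  linarith

end Pool.Agent.Dim7
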