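import Pool.Agent.Dim7.Iface
import Pool.Agent.H337R2.LZ.V4

/-! Task V4 (helper547): numerical values of the energies `eS`, `eN`. Ported from the file of
helper15 and helper25. -/

open Polynomial Pool.Agent.H337R2

namespace Pool.Agent.Dim7

noncomputable section

namespace V4

open Pool.Agent.LZ.V4 (L G E L_spec G_spec)

/-- approximation of `en g h` -/
def enq (g h : ℕ) : ℚ :=
  ((G (bb g + cc g - bb h) - G (bb g + cc g - bb h - cc h) - G (bb g - bb h) +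
    G (bb g - bb h - cc h)) +
    (G (bb g + cc g + bb h + cc h) - G (bb g + cc g + bb h) - G (bb g + bb h + cc h) +
      G (bb g + bb h))) / (cc g * cc h) - 2 * L 20

/-- error bound -/
def enE (g h : ℕ) : ℚ :=
  ((E (bb g + cc g - bb h) + E (bb g + cc g - bb h - cc h) + E (bb g - bb h) +
    E (bb g - bb h - cc h)) +
    (E (bb g + cc g + bb h + cc h) + E (bb g + cc g + bb h) + E (bb g + bb h + cc h) +
      E (bb g + bb h))) / (cc g * cc h) + 4 / 10 ^ 8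

theorem side : ∀ g ∈ Finset.range 20, ∀ h ∈ Finset.range 20, 0 < cc g ∧ 0 < cc h ∧
    (bb g + cc g - bb h).natAbs < 2 ^ 20 ∧ (bb g + cc g - bb h - cc h).natAbs < 2 ^ 20 ∧
    (bb g - bb h).natAbs < 2 ^ 20 ∧ (bb g - bb h - cc h).natAbs < 2 ^ 20 ∧
    (bb g + cc g + bb h + cc h).natAbs < 2 ^ 20 ∧ (bb g + cc g + bb h).natAbs < 2 ^ 20 ∧
    (bb g + bb h + cc h).natAbs < 2 ^ 20 ∧ (bb g + bb h).natAbs < 2 ^ 20 := by
  decide +kernel

theorem en_spec (g h : ℕ) (hg : g < 20) (hh : h < 20) :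
    |en g h - ((enq g h : ℚ) : ℝ)| ≤ ((enE g h : ℚ) : ℝ) := by
  obtain ⟨c1, c2, s1, s2, s3, s4, s5, s6, s7, s8⟩ :=
    side g (Finset.mem_range.2 hg) h (Finset.mem_range.2 hh)
  have g1 := G_spec _ s1
  have g2 := G_spec _ s2
  have g3 := G_spec _ s3
  have g4 := G_spec _ s4
  have g5 := G_spec _ s5
  have g6 := G_spec _ s6
  have g7 := G_spec _ s7
  have g8 := G_spec _ s8
  have g9 := L_spec 20 (by norm_num) (by norm_num)
  push_cast at g1 g2 g3 g4 g5 g6 g7 g8 g9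
  have c1' : (0 : ℝ) < cc g := by exact_mod_cast c1
  have c2' : (0 : ℝ) < cc h := by exact_mod_cast c2
  have hc : (0 : ℝ) < (cc g : ℝ) * cc h := mul_pos c1' c2'
  unfold en enq enE
  push_cast
  rw [abs_le] at g1 g2 g3 g4 g5 g6 g7 g8 g9 ⊢
  constructor
  · have := div_le_div_of_nonneg_right (show
      -((((E (bb g + cc g - bb h) : ℚ) : ℝ) + ((E (bb g + cc g - bb h - cc h) : ℚ) : ℝ) +
        ((E (bb g - bb h) : ℚ) : ℝ) + ((E (bb g - bb h - cc h) : ℚ) : ℝ)) +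
        (((E (bb g + cc g + bb h + cc h) : ℚ) : ℝ) + ((E (bb g + cc g + bb h) : ℚ) : ℝ) +
        ((E (bb g + bb h + cc h) : ℚ) : ℝ) + ((E (bb g + bb h) : ℚ) : ℝ))) ≤
      ((GG ((bb g : ℝ) + cc g - bb h) - GG ((bb g : ℝ) + cc g - bb h - cc h) -
        GG ((bb g : ℝ) - bb h) + GG ((bb g : ℝ) - bb h - cc h)) +
        (GG ((bb g : ℝ) + cc g + bb h + cc h) - GG ((bb g : ℝ) + cc g + bb h) -
        GG ((bb g : ℝ) + bb h + cc h) + GG ((bb g : ℝ) + bb h))) -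
      ((((G (bb g + cc g - bb h) : ℚ) : ℝ) - ((G (bb g + cc g - bb h - cc h) : ℚ) : ℝ) -
        ((G (bb g - bb h) : ℚ) : ℝ) + ((G (bb g - bb h - cc h) : ℚ) : ℝ)) +
        (((G (bb g + cc g + bb h + cc h) : ℚ) : ℝ) - ((G (bb g + cc g + bb h) : ℚ) : ℝ) -
        ((G (bb g + bb h + cc h) : ℚ) : ℝ) + ((G (bb g + bb h) : ℚ) : ℝ))) by
          linarith [g1.1, g2.2, g3.2, g4.1, g5.1, g6.2, g7.2, g8.1]) hc.le
    rw [sub_div, neg_div] at this
    linarith [g9.2]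
  · have := div_le_div_of_nonneg_right (show
      ((GG ((bb g : ℝ) + cc g - bb h) - GG ((bb g : ℝ) + cc g - bb h - cc h) -
        GG ((bb g : ℝ) - bb h) + GG ((bb g : ℝ) - bb h - cc h)) +
        (GG ((bb g : ℝ) + cc g + bb h + cc h) - GG ((bb g : ℝ) + cc g + bb h) -
        GG ((bb g : ℝ) + bb h + cc h) + GG ((bb g : ℝ) + bb h))) -
      ((((G (bb g + cc g - bb h) : ℚ) : ℝ) - ((G (bb g + cc g - bb h - cc h) : ℚ) : ℝ) -
        ((G (bb g - bb h) : ℚ) : ℝ) + ((G (bb g - bb h - cc h) : ℚ) : ℝ)) +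
        (((G (bb g + cc g + bb h + cc h) : ℚ) : ℝ) - ((G (bb g + cc g + bb h) : ℚ) : ℝ) -
        ((G (bb g + bb h + cc h) : ℚ) : ℝ) + ((G (bb g + bb h) : ℚ) : ℝ))) ≤
      ((((E (bb g + cc g - bb h) : ℚ) : ℝ) + ((E (bb g + cc g - bb h - cc h) : ℚ) : ℝ) +
        ((E (bb g - bb h) : ℚ) : ℝ) + ((E (bb g - bb h - cc h) : ℚ) : ℝ)) +
        (((E (bb g + cc g + bb h + cc h) : ℚ) : ℝ) + ((E (bb g + cc g + bb h) : ℚ) : ℝ) +
        ((E (bb g + bb h + cc h) : ℚ) : ℝ) + ((E (bb g + bb h) : ℚ) : ℝ))) by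
          linarith [g1.2, g2.1, g3.1, g4.2, g5.2, g6.1, g7.1, g8.2]) hc.le
    rw [sub_div] at this
    linarith [g9.1]

/-- lower bound of the energies, rational -/
theorem numN : (5245 / 10 : ℚ) ≤
    ∑ g ∈ Finset.Ico 5 10, ∑ h ∈ Finset.Ico 5 10, (enq g h - enE g h) +
    ∑ g ∈ Finset.Ico 5 10, ∑ h ∈ Finset.Ico 10 20, (enq g h - enE g h) +
    ∑ g ∈ Finset.Ico 10 20, ∑ h ∈ Finset.Ico 10 20, (enq g h - enE g h) := by
  decide +kernel

/-- rational approximation of `iphi` -/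
def iq : ℚ :=
  (((G 420 - G 320) - 7 * (G 360 - G 260) - 2 * (G 340 - G 240) + 2 * (G 180 - G 80) +
    7 * (G 160 - G 60) - G 100) / 20 + 100 * (220 * L 2 + 150 * L 5 - 6 * L 3 - 70)) / 20

/-- error bound -/
def iE : ℚ :=
  (((E 420 + E 320) + 7 * (E 360 + E 260) + 2 * (E 340 + E 240) + 2 * (E 180 + E 80) +
    7 * (E 160 + E 60) + E 100) / 20 + 100 * (376 * (2 / 10 ^ 8))) / 20

theorem numS :
    iq + iE + ∑ g ∈ Finset.range 5, ∑ h ∈ Finset.range 5, (enq g h + enE g h) ≤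
      (-(1963 / 10) : ℚ) := by
  decide +kernel

theorem iphi_le : iphi ≤ ((iq + iE : ℚ) : ℝ) := by
  have a0 := abs_le.1 (G_spec 60 (by norm_num))
  have a1 := abs_le.1 (G_spec 80 (by norm_num))
  have a2 := abs_le.1 (G_spec 100 (by norm_num))
  have a3 := abs_le.1 (G_spec 160 (by norm_num))
  have a4 := abs_le.1 (G_spec 180 (by norm_num))
  have a5 := abs_le.1 (G_spec 240 (by norm_num))
  have a6 := abs_le.1 (G_spec 260 (by norm_num))
  have a7 := abs_le.1 (G_spec 320 (by norm_num))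
  have a8 := abs_le.1 (G_spec 340 (by norm_num))
  have a9 := abs_le.1 (G_spec 360 (by norm_num))
  have a10 := abs_le.1 (G_spec 420 (by norm_num))
  have l2 := abs_le.1 (L_spec 2 (by norm_num) (by norm_num))
  have l3 := abs_le.1 (L_spec 3 (by norm_num) (by norm_num))
  have l5 := abs_le.1 (L_spec 5 (by norm_num) (by norm_num))
  push_cast at a0 a1 a2 a3 a4 a5 a6 a7 a8 a9 a10 l2 l3 l5
  unfold iphi iq iE
  push_cast
  linarith [a0.1, a0.2, a1.1, a1.2, a2.1, a2.2, a3.1, a3.2, a4.1, a4.2, a5.1, a5.2, a6.1, a6.2, a7.1, a7.2, a8.1, a8.2, a9.1, a9.2, a10.1, a10.2,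
    l2.1, l2.2, l3.1, l3.2, l5.1, l5.2]

theorem sum_ge (s t : Finset ℕ) (hs : ∀ g ∈ s, g < 20) (ht : ∀ h ∈ t, h < 20) :
    ((∑ g ∈ s, ∑ h ∈ t, (enq g h - enE g h) : ℚ) : ℝ) ≤ ∑ g ∈ s, ∑ h ∈ t, en g h := by
  push_cast
  refine Finset.sum_le_sum fun g hg => Finset.sum_le_sum fun h hh => ?_
  have := (abs_le.1 (en_spec g h (hs g hg) (ht h hh))).1
  linarith

theorem sum_le (s t : Finset ℕ) (hs : ∀ g ∈ s, g < 20) (ht : ∀ h ∈ t, h < 20) :
    ∑ g ∈ s, ∑ h ∈ t, en g h ≤ ((∑ g ∈ s, ∑ h ∈ t, (enq g h + enE g h) : ℚ) : ℝ) := by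
  push_cast
  refine Finset.sum_le_sum fun g hg => Finset.sum_le_sum fun h hh => ?_
  have := (abs_le.1 (en_spec g h (hs g hg) (ht h hh))).2
  linarith

end V4

theorem V4_eS : St_V4_eS := by
  show eS ≤ -(1963 / 10)
  have h1 := V4.iphi_le
  have h2 := V4.sum_le (Finset.range 5) (Finset.range 5)
    (fun g hg => by have := Finset.mem_range.1 hg; omega)
    (fun g hg => by have := Finset.mem_range.1 hg; omega)
  have h3 : ((V4.iq + V4.iE + ∑ g ∈ Finset.range 5, ∑ h ∈ Finset.range 5,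
      (V4.enq g h + V4.enE g h) : ℚ) : ℝ) ≤ ((-(1963 / 10) : ℚ) : ℝ) := by
    exact_mod_cast V4.numS
  unfold eS
  rw [Rat.cast_add] at h3
  have h4 : ((-(1963 / 10) : ℚ) : ℝ) = -(1963 / 10) := by norm_num
  linarith

theorem V5_eN : St_V5_eN := by
  show 5245 / 10 ≤ eN
  have m1 : ∀ g ∈ Finset.Ico 5 10, g < 20 := fun g hg => by
    have := Finset.mem_Ico.1 hg
    omega
  have m2 : ∀ g ∈ Finset.Ico 10 20, g < 20 := fun g hg => by
    have := Finset.mem_Ico.1 hg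
    omega
  have h1 := V4.sum_ge _ _ m1 m1
  have h2 := V4.sum_ge _ _ m1 m2
  have h3 := V4.sum_ge _ _ m2 m2
  have h4 : ((5245 / 10 : ℚ) : ℝ) ≤
    ((∑ g ∈ Finset.Ico 5 10, ∑ h ∈ Finset.Ico 5 10, (V4.enq g h - V4.enE g h) +
    ∑ g ∈ Finset.Ico 5 10, ∑ h ∈ Finset.Ico 10 20, (V4.enq g h - V4.enE g h) +
    ∑ g ∈ Finset.Ico 10 20, ∑ h ∈ Finset.Ico 10 20, (V4.enq g h - V4.enE g h) : ℚ) : ℝ) := by
    exact_mod_cast V4.numN
  rw [Rat.cast_add, Rat.cast_add] at h4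
  have h5 : ((5245 / 10 : ℚ) : ℝ) = 5245 / 10 := by norm_num
  unfold eN
  linarith

end

end Pool.Agent.Dim7
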