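import Pool.Agent.Dim7.Iface
import Pool.Agent.H336R2.HD.A5

/-!
# Z: assembly of the proof of `dim_Q ⟨1, ζ(3), ζ(5), ζ(7)⟩ ≥ 3`

All results of the other tasks are hypotheses of `Z_main_of`.
-/

open Polynomial Pool.Agent.H337R2 Filter Topology

namespace Pool.Agent.Dim7

noncomputable section

namespace Z

/-- The contradiction, all inputs as hypotheses. -/
theorem contra_of (hPm : St_P_main) (hPl : St_P_large)
    (α β : ℕ → ℚ) (q : ℕ) (hα : UInt q α) (hβ : UInt q β)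
    (hβ3 : ∀ i < 3, β i = 0)
    (hA : ∀ᶠ n : ℕ in atTop, DD n α β ≠ 0 →
      Real.log |((DD n α β : ℚ) : ℝ)| ≤ 600 * (n : ℝ) ^ 2 * Real.log n + 1014 * (n : ℝ) ^ 2)
    (hH6 : ∃ p0 : ℕ, ∀ p : ℕ, p0 ≤ p → p.Prime → DD p α β ≠ 0) : False := by
  obtain ⟨p0, hp0⟩ := hH6
  have hq : 0 < q := hα.1
  have hP := hPm q α β hα hβ hβ3
  have hq0 : (0 : ℝ) < q := by exact_mod_cast hq
  have hlq : 0 ≤ Real.log q := Real.log_nonneg (by exact_mod_cast hq)
  -- the power of q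
  have hQ : ∀ᶠ n : ℕ in atTop, 20 * (n : ℝ) * Real.log q < (n : ℝ) ^ 2 := by
    have h1 : ∀ᶠ n : ℕ in atTop, 20 * Real.log q < (n : ℝ) :=
      (tendsto_natCast_atTop_atTop (R := ℝ)).eventually_gt_atTop _
    filter_upwards [h1, eventually_ge_atTop 1] with n h2 h3
    have h4 : (1 : ℝ) ≤ n := by exact_mod_cast h3
    nlinarith
  obtain ⟨N, hN⟩ := eventually_atTop.1 ((hP.and hA).and (hQ.and (eventually_ge_atTop 1)))
  obtain ⟨n, hn, hnp⟩ := Nat.exists_infinite_primes (max N p0)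
  have hnN : N ≤ n := (le_max_left _ _).trans hn
  obtain ⟨⟨h1, h2⟩, h3, h4⟩ := hN n hnN
  have hne := hp0 n ((le_max_right _ _).trans hn) hnp
  have h1' := h1 hne
  have h2' := h2 hne
  set z : ℚ := (q : ℚ) ^ (20 * n - 20) * DD n α β with hz
  have hqq : (q : ℚ) ≠ 0 := by exact_mod_cast hq.ne'
  have hz0 : z ≠ 0 := mul_ne_zero (pow_ne_zero _ hqq) hne
  have hS : ∀ p ∈ (Finset.range (40 * n + 1)).filter Nat.Prime, p.Prime := fun p hp =>
    (Finset.mem_filter.1 hp).2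
  have hprod := Pool.Agent.H336R2.HD.A5_prod_formula z hz0
    ((Finset.range (40 * n + 1)).filter Nat.Prime) hS
    (fun p => ((padicNorm p z : ℚ) : ℝ)) (fun p _ => le_rfl) (fun p hp hpS => by
      apply hPl q α β hα hβ hβ3 n h4 p hp
      by_contra hlt
      apply hpS
      rw [Finset.mem_filter, Finset.mem_range]
      exact ⟨by omega, hp⟩)
  have hpos : ∀ p ∈ (Finset.range (40 * n + 1)).filter Nat.Prime,
      ((padicNorm p z : ℚ) : ℝ) ≠ 0 := by
    intro p hp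
    have : Fact p.Prime := ⟨hS p hp⟩
    have h5 : padicNorm p z ≠ 0 := padicNorm.nonzero hz0
    exact_mod_cast h5
  have hDpos : 0 < |((DD n α β : ℚ) : ℝ)| := abs_pos.2 (by exact_mod_cast hne)
  have habs : |(z : ℝ)| = (q : ℝ) ^ (20 * n - 20) * |((DD n α β : ℚ) : ℝ)| := by
    rw [hz]
    push_cast
    rw [abs_mul, abs_of_pos (pow_pos hq0 _)]
  have hlog := Real.log_nonneg hprod
  rw [habs, Real.log_mul (mul_pos (pow_pos hq0 _) hDpos).ne' (Finset.prod_ne_zero_iff.2 hpos),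
    Real.log_mul (pow_pos hq0 _).ne' hDpos.ne', Real.log_pow,
    Real.log_prod (fun p hp => hpos p hp)] at hlog
  have hmq : ((20 * n - 20 : ℕ) : ℝ) * Real.log q ≤ 20 * n * Real.log q := by
    apply mul_le_mul_of_nonneg_right _ hlq
    have : 20 * n - 20 ≤ 20 * n := Nat.sub_le _ _
    exact_mod_cast this
  have hn1 : (1 : ℝ) ≤ n := by exact_mod_cast h4
  have hn2 : (1 : ℝ) ≤ (n : ℝ) ^ 2 := by nlinarith
  linarith

end Z

/-- The conclusion, all inputs as hypotheses. -/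
theorem Z_main_of (h1 : St_P_main) (h2 : St_P_large) (h3 : St_A_main) (h4 : St_H6_nonvanish)
    (h5 : St_Z1_dim) (h6 : Irrational (zr 3)) : St_Z_main := by
  show 3 ≤ Module.finrank ℚ (Submodule.span ℚ
      (Set.range fun i : Fin 4 => if i.1 = 0 then (1 : ℝ) else zr (2 * i.1 + 1)))
  by_contra hcon
  rw [not_le] at hcon
  obtain ⟨θ, α, β, q, hα, hβ, hβ0, hβ1, hz⟩ := h5 h6 hcon
  exact Z.contra_of h1 h2 α β q hα hβ hβ0 (h3 α β θ hz) (h4 α β q hα hβ hβ0 hβ1)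

end

end Pool.Agent.Dim7
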