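import Pool.Agent.Dim7.Iface

/-!
# Z1: the linear algebra step, from `dim < 3` and the irrationality of `ζ(3)`
-/

open Polynomial Pool.Agent.H337R2

namespace Pool.Agent.Dim7

noncomputable section

namespace Z1

lemma denom (u : ℕ → ℚ) (hu : ∀ i, 8 ≤ i → u i = 0) (q : ℕ)
    (hq : ∀ i < 8, (u i).den ∣ q) (hq0 : 0 < q) : UInt q u := by
  refine ⟨hq0, fun i => ?_⟩
  by_cases hi : i < 8
  · obtain ⟨k, hk⟩ := hq i hi
    refine ⟨(u i).num * k, ?_⟩
    have h1 : (u i).num = u i * ((u i).den : ℚ) := (Rat.mul_den_eq_num _).symm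
    rw [hk]
    push_cast
    rw [h1]
    ring
  · exact ⟨0, by rw [hu i (not_lt.1 hi)]; simp⟩

end Z1

theorem Z1_dim : St_Z1_dim := by
  intro hirr h
  classical
  set f : Fin 4 → ℝ := fun i => if i.1 = 0 then (1 : ℝ) else zr (2 * i.1 + 1) with hf
  set V := Submodule.span ℚ (Set.range f) with hV
  have hfin : FiniteDimensional ℚ V := by
    rw [hV]
    exact FiniteDimensional.span_of_finite ℚ (Set.finite_range f)
  have hmem : ∀ i, Odd i → 3 ≤ i → i ≤ 7 → zr i ∈ V := by
    intro i hi h3 h7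
    obtain ⟨k, rfl⟩ := hi
    refine Submodule.subset_span ⟨⟨k, by omega⟩, ?_⟩
    simp only [hf]
    rw [if_neg (by omega)]
  have h1mem : (1 : ℝ) ∈ V := Submodule.subset_span ⟨⟨0, by norm_num⟩, by simp [hf]⟩
  have hcmem : zr 3 ∈ V := hmem 3 (by decide) (by norm_num) (by norm_num)
  have hli : LinearIndependent ℚ ![(1 : ℝ), zr 3] := by
    rw [LinearIndependent.pair_iff]
    intro s t hst
    by_cases ht : t = 0
    · subst ht
      rw [zero_smul, add_zero] at hst
      refine ⟨?_, rfl⟩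
      rcases smul_eq_zero.1 hst with h0 | h0
      · exact h0
      · exact absurd h0 one_ne_zero
    · exfalso
      apply hirr
      refine ⟨-s / t, ?_⟩
      have ht' : (t : ℝ) ≠ 0 := by exact_mod_cast ht
      rw [Rat.smul_def, Rat.smul_def, mul_one] at hst
      push_cast
      field_simp
      linarith
  have hle : Submodule.span ℚ (Set.range ![(1 : ℝ), zr 3]) ≤ V := by
    rw [Submodule.span_le]
    rintro _ ⟨i, rfl⟩
    fin_cases i
    · exact h1mem
    · exact hcmem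
  have heq : Submodule.span ℚ (Set.range ![(1 : ℝ), zr 3]) = V := by
    apply Submodule.eq_of_le_of_finrank_le hle
    rw [finrank_span_eq_card hli, Fintype.card_fin]
    exact Nat.lt_succ_iff.1 h
  have hex : ∀ i, ∃ ab : ℚ × ℚ, (Odd i → 3 ≤ i → i ≤ 7 → zr i = (ab.1 : ℝ) + zr 3 * (ab.2 : ℝ)) ∧
      (¬ (Odd i ∧ 3 ≤ i ∧ i ≤ 7) → ab = 0) := by
    intro i
    by_cases hi : Odd i ∧ 3 ≤ i ∧ i ≤ 7
    · have h1 := hmem i hi.1 hi.2.1 hi.2.2
      rw [← heq] at h1
      simp only [Matrix.range_cons, Matrix.range_empty, Set.union_empty, Set.singleton_union] at h1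
      obtain ⟨a, b, hab⟩ := Submodule.mem_span_pair.1 h1
      refine ⟨(a, b), fun _ _ _ => ?_, fun hn => absurd hi hn⟩
      rw [← hab, Rat.smul_def, Rat.smul_def]
      ring
    · exact ⟨0, fun h1 h2 h3 => absurd ⟨h1, h2, h3⟩ hi, fun _ => rfl⟩
  choose ab hab hab0 using hex
  have hβ3 : (ab 3).2 ≠ 0 := by
    intro h0
    apply hirr
    refine ⟨(ab 3).1, ?_⟩
    have h1 := hab 3 (by decide) (by norm_num) (by norm_num)
    rw [h0] at h1
    rw [h1]
    simp
  have hout : ∀ i, 8 ≤ i → ab i = 0 := fun i hi => hab0 i (fun h1 => by omega)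
  have hlow : ∀ i < 3, ab i = 0 := fun i hi => hab0 i (fun h1 => by omega)
  set q : ℕ := ∏ i ∈ Finset.range 8, ((ab i).1.den * (ab i).2.den) with hq
  have hq0 : 0 < q := Finset.prod_pos fun i _ => Nat.mul_pos (Rat.den_pos _) (Rat.den_pos _)
  have hdvd : ∀ i < 8, (ab i).1.den * (ab i).2.den ∣ q := fun i hi =>
    Finset.dvd_prod_of_mem (fun i => (ab i).1.den * (ab i).2.den) (Finset.mem_range.2 hi)
  refine ⟨zr 3, fun i => (ab i).1, fun i => (ab i).2, q, ?_, ?_, ?_, hβ3, ?_⟩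
  · exact Z1.denom _ (fun i hi => by simp only [hout i hi]; rfl) q
      (fun i hi => (Dvd.intro _ rfl).trans (hdvd i hi)) hq0
  · exact Z1.denom _ (fun i hi => by simp only [hout i hi]; rfl) q
      (fun i hi => (Dvd.intro_left _ rfl).trans (hdvd i hi)) hq0
  · intro i hi
    show (ab i).2 = 0
    rw [hlow i hi]
    rfl
  · intro i h1 h2 h3
    exact hab i h1 h2 h3

end

end Pool.Agent.Dim7
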