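import Pool.Agent.H337R2.LZ.Z

/-!
# Z3: the irrationality of `ζ(3)`, from the linear independence of `1, ζ(2), ζ(3)`
-/

open Pool.Agent.H337R2

namespace Pool.Agent.Dim7

theorem Z3_irr : Irrational (zr 3) := by
  intro ⟨q, hq⟩
  have h := Pool.Agent.LZ.Z3_linind
  rw [Fintype.linearIndependent_iff] at h
  have h1 := h ![q, 0, -1] (by
    rw [Fin.sum_univ_three]
    simp only [Matrix.cons_val_zero, Matrix.cons_val_one, Matrix.cons_val, Rat.smul_def]
    push_cast
    rw [hq]
    ring) 2
  simp at h1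

end Pool.Agent.Dim7
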