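import Pool.Agent.Dim7.AM
import Pool.Agent.Dim7.B1
import Pool.Agent.Dim7.C1
import Pool.Agent.Dim7.C2
import Pool.Agent.Dim7.C3
import Pool.Agent.Dim7.C4
import Pool.Agent.Dim7.D2
import Pool.Agent.Dim7.D3
import Pool.Agent.Dim7.D4
import Pool.Agent.Dim7.E1
import Pool.Agent.Dim7.E2
import Pool.Agent.Dim7.E3A
import Pool.Agent.Dim7.E3B1
import Pool.Agent.Dim7.E3B2
import Pool.Agent.Dim7.E3B3
import Pool.Agent.Dim7.E4
import Pool.Agent.Dim7.F1
import Pool.Agent.Dim7.F1f
import Pool.Agent.Dim7.F2pre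
import Pool.Agent.Dim7.F346
import Pool.Agent.Dim7.F5
import Pool.Agent.Dim7.G0
import Pool.Agent.Dim7.G1
import Pool.Agent.Dim7.G2
import Pool.Agent.Dim7.G3
import Pool.Agent.Dim7.G4
import Pool.Agent.Dim7.G5
import Pool.Agent.Dim7.G6
import Pool.Agent.Dim7.G6c
import Pool.Agent.Dim7.H2
import Pool.Agent.Dim7.H3
import Pool.Agent.Dim7.H4
import Pool.Agent.Dim7.H5
import Pool.Agent.Dim7.H6
import Pool.Agent.Dim7.Mix
import Pool.Agent.Dim7.PM
import Pool.Agent.Dim7.V1
import Pool.Agent.Dim7.V2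
import Pool.Agent.Dim7.V3
import Pool.Agent.Dim7.V4
import Pool.Agent.Dim7.Z
import Pool.Agent.Dim7.Z1
import Pool.Agent.Dim7.Z3

/-!
# The parts of the proof put together

`P_main` (p-adic part), `A_main` (archimedean part), `H6_nonvanish` (non-vanishing at `n = p`) and the conclusion
`Z_main`: among `1, ζ(3), ζ(5), ζ(7)` at least three numbers are linearly independent over `ℚ`.
-/

open Polynomial Pool.Agent.H337R2

namespace Pool.Agent.Dim7

noncomputable section

theorem C2_xa : St_C2_xa := C2_xa_of C1_pa C1_pa_int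

theorem C2_xb : St_C2_xb := C2_xb_of C1_pa C1_pa_int

theorem D3_det_padic : St_D3_det_padic := D3_det_padic_of C2_xa C2_xb D2_eM_kap

theorem D3_large : St_D3_large := D3_large_of C2_xa C2_xb

theorem D4_small_med : St_D4_small_med := D4_small_med_of C2_xa C2_xb C4_CP_PB

theorem D4_small_crude : St_D4_small_crude := D4_small_crude_of C3_crude C4_CP_PB

theorem E3_A : St_E3_A := E3_A_of E1_Kset_sum E2_sq

theorem E3_B : St_E3_B := by
  refine E3_B_of E3_B1 E3_B2' ?_
  obtain ⟨K0, hK⟩ := E3_B3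
  exact ⟨K0, fun n p hp hn h1 h2 => by simpa using hK n p hp hn h1 h2 0 (by rw [if_neg (by omega)])⟩

theorem E4_padic : St_E4_padic := E4_padic_of D3_det_padic D3_large D3_mix D2_kap_mem E3_A E3_B

theorem F2_A : St_F2_A := F2_A_of F1_tent F1_const F1_id F1_inv F1_floor

theorem F2_B : St_F2_B := F2_B_of F1_const F1_id

theorem F2_U : St_F2_U := F2_U_of F1_tent

theorem P_main : St_P_main :=
  P_main_of D4_small_med D4_small_crude E4_padic F2_A F2_B F2_U F3_numeric F4_small F5_fact F6_superfac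

theorem P_large : St_P_large := P_large_of D3_large

theorem G1_entryN : St_G1_entryN := G1_entryN_of B1_hasSum

theorem G2_entryY : St_G2_entryY := G2_entryY_of G0_zq_inj G0_nd_X G0_nd_Y

theorem G6_pair : St_G6_pair := G6_pair_of G3_Lp

theorem A_main : St_A_main :=
  A_main_of G0_zq_inj G0_nd_X G0_nd_Y G1_entryN G2_entryY G3_Lp G4_weight G5_sat G6_pair G6_cross V1_upper V1_tail
    V2_lower V3_upperY V4_eS V5_eN

theorem H3_diag : St_H3_diag := H3_diag_of C1_pa H2_pa

theorem H4_offdiag : St_H4_offdiag := H4_offdiag_of C1_pa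

theorem H6_nonvanish : St_H6_nonvanish := H6_nonvanish_of H3_diag H4_offdiag H5_local

/-- at least three of `1, ζ(3), ζ(5), ζ(7)` are linearly independent over `ℚ` -/
theorem Z_main : St_Z_main := Z_main_of P_main P_large A_main H6_nonvanish Z1_dim Z3_irr

end

end Pool.Agent.Dim7
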