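import Pool.Agent.Dim7.Iface
import Pool.Agent.H574R2.D9.CB

/-!
# D7-MIX, part A (helper609): the abstract determinant lemma

A matrix is a sum of blocks of two kinds (two-site classes, with one kernel for all columns; three-site classes, with
kernels for the two kinds of columns) and an integral matrix.
-/

open Polynomial Pool.Agent.H337R2

namespace Pool.Agent.Dim7.Mix

noncomputable section

lemma two_sum_tri (N : ℕ) : ∀ e : ℕ, 2 * ((∑ l ∈ Finset.range N, ((e : ℤ) - (l : ℕ)).toNat : ℕ) : ℤ) ≤ e * (e + 1) := by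
  induction N with
  | zero => intro e; simp
  | succ N ih =>
    intro e
    rw [Finset.sum_range_succ']
    rcases Nat.eq_zero_or_pos e with h | h
    · subst h
      have : ∀ l ∈ Finset.range N, ((((0 : ℕ) : ℤ) - ((l + 1 : ℕ) : ℤ))).toNat = 0 := by
        intro l _; omega
      rw [Finset.sum_eq_zero this]
      simp
    · obtain ⟨e', rfl⟩ : ∃ e', e = e' + 1 := ⟨e - 1, by omega⟩
      have h3 := ih e'
      have h4 : ∑ l ∈ Finset.range N, ((((e' + 1 : ℕ) : ℤ) - ((l + 1 : ℕ) : ℤ))).toNat =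
          ∑ l ∈ Finset.range N, ((e' : ℤ) - (l : ℕ)).toNat := by
        refine Finset.sum_congr rfl fun l _ => ?_
        congr 1
        push_cast
        ring
      rw [h4]
      have h5 : (((e' + 1 : ℕ) : ℤ) - ((0 : ℕ) : ℤ)).toNat = e' + 1 := by omega
      rw [h5]
      push_cast at h3 ⊢
      nlinarith

lemma sum_T1 (N : ℕ) (e : ℤ) : ((∑ l : Fin N, (e - (l : ℕ)).toNat : ℕ) : ℤ) ≤ T1 e := by
  rw [← Finset.sum_range (fun l => (e - (l : ℕ)).toNat)]
  unfold T1 Pool.Agent.H574R2.D3.T1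
  split_ifs with h
  · obtain ⟨e', rfl⟩ : ∃ e' : ℕ, e = e' := ⟨e.toNat, by omega⟩
    rw [Int.le_ediv_iff_mul_le (by norm_num)]
    have := two_sum_tri N e'
    linarith
  · have h3 : ∀ l ∈ Finset.range N, (e - ((l : ℕ) : ℤ)).toNat = 0 := by
      intro l _; omega
    rw [Finset.sum_eq_zero h3]
    simp

lemma T1_7 : T1 7 = 28 := by
  unfold T1 Pool.Agent.H574R2.D3.T1; norm_num

lemma T1_5 : T1 5 = 15 := by
  unfold T1 Pool.Agent.H574R2.D3.T1; norm_num

variable {p : ℕ} [hp : Fact p.Prime]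

/-- **the abstract determinant lemma** -/
theorem mix_det {m N1 N2 : ℕ} {A1 A2 : Type} [Fintype A1] [DecidableEq A1] [Fintype A2] [DecidableEq A2]
    (E1 : A1 → ℤ) (E2 : A2 → ℤ) (M D : Fin (2 * m) → Fin (2 * m) → ℚ)
    (U1 V1 : A1 → Fin (2 * m) → ℕ → ℚ) (K1 : A1 → ℕ → ℕ → ℚ)
    (U2 V2 : A2 → Fin (2 * m) → ℕ → ℚ) (KA KB : A2 → ℕ → ℕ → ℚ)
    (hM : ∀ i j, M i j =
      (∑ a, ∑ l ∈ Finset.range N1, ∑ l' ∈ Finset.range N1, U1 a i l * K1 a l l' * V1 a j l') +
      (∑ c, ∑ l ∈ Finset.range N2, ∑ l' ∈ Finset.range N2,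
        U2 c i l * (if j.1 < m then KA c l l' else KB c l l') * V2 c j l') + D i j)
    (hU1 : ∀ a i l, padicNorm p (U1 a i l) ≤ 1) (hV1 : ∀ a i l, padicNorm p (V1 a i l) ≤ 1)
    (hU2 : ∀ a i l, padicNorm p (U2 a i l) ≤ 1) (hV2 : ∀ a i l, padicNorm p (V2 a i l) ≤ 1)
    (hD : ∀ i j, padicNorm p (D i j) ≤ 1)
    (hK1 : ∀ a, ∀ l l' : ℕ, padicNorm p (K1 a l l') ≤ (p : ℚ) ^ (E1 a - l - l' : ℤ))
    (hKA : ∀ c, ∀ l l' : ℕ, padicNorm p (KA c l l') ≤ (p : ℚ) ^ (E2 c - 1 - l - l' : ℤ))
    (hKB : ∀ c, ∀ l l' : ℕ, padicNorm p (KB c l l') ≤ (p : ℚ) ^ (E2 c - 3 - l - l' : ℤ)) :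
    padicNorm p (Matrix.of M).det ≤ (p : ℚ) ^ (∑ a, T2s (E1 a) + ∑ c, (T1 (E2 c - 8) + 43)) := by
  classical
  have hp1 : (1 : ℚ) ≤ p := by exact_mod_cast hp.out.one_lt.le
  have hpp : (0 : ℚ) < p := by exact_mod_cast hp.out.pos
  -- the kernel
  have key := Pool.Agent.H574R2.D9.CB.bound' (p := p) (ι := Fin (2 * m))
    (L := (A1 × Fin N1) ⊕ ((A2 × Fin N2) ⊕ Fin (2 * m)))
    (L' := (A1 × Fin N1) ⊕ (((A2 × Bool) × Fin N2) ⊕ Fin (2 * m)))
    (Sum.elim (fun al => (E1 al.1 / 2 - ((al.2 : ℕ) : ℤ)).toNat)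
      (Sum.elim (fun cl => ((E2 cl.1 - 8) - ((cl.2 : ℕ) : ℤ)).toNat) (fun _ => 0)))
    (Sum.elim (fun al => ((E1 al.1 - E1 al.1 / 2) - ((al.2 : ℕ) : ℤ)).toNat)
      (Sum.elim (fun cl => ((if cl.1.2 then (7 : ℤ) else 5) - ((cl.2 : ℕ) : ℤ)).toNat) (fun _ => 0)))
    (fun x i => Sum.elim (fun al => U1 al.1 i al.2)
      (Sum.elim (fun cl => U2 cl.1 i cl.2) (fun i' => if i' = i then (1 : ℚ) else 0)) x)
    (fun y j => Sum.elim (fun al => V1 al.1 j al.2)
      (Sum.elim (fun cl => if (cl.1.2 = true ↔ j.1 < m) then V2 cl.1.1 j cl.2 else 0)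
        (fun j' => if j' = j then (1 : ℚ) else 0)) y)
    (fun x y => Sum.elim
      (fun al => Sum.elim (fun al' => if al.1 = al'.1 then K1 al.1 al.2 al'.2 else 0) (fun _ => 0) y)
      (Sum.elim
        (fun cl => Sum.elim (fun _ => 0) (Sum.elim (fun cl' => if cl.1 = cl'.1.1 then
          (if cl'.1.2 then KA cl.1 cl.2 cl'.2 else KB cl.1 cl.2 cl'.2) else 0) (fun _ => 0)) y)
        (fun i' => Sum.elim (fun _ => 0) (Sum.elim (fun _ => 0) (fun j' => D i' j')) y)) x)
    (by
      rintro (al | cl | i') i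
      · exact hU1 _ _ _
      · exact hU2 _ _ _
      · simp only [Sum.elim_inr]
        split_ifs <;> simp)
    (by
      rintro (al | cl | i') i
      · exact hV1 _ _ _
      · simp only [Sum.elim_inr, Sum.elim_inl]
        split_ifs
        · exact hV2 _ _ _
        · simp
      · simp only [Sum.elim_inr]
        split_ifs <;> simp)
    (by
      rintro (⟨a, l⟩ | ⟨c, l⟩ | i') (⟨a', l'⟩ | ⟨⟨c', b⟩, l'⟩ | j')
      · simp only [Sum.elim_inl]
        split_ifs with h
        · refine (hK1 a l l').trans ?_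
          rw [← zpow_natCast]
          apply zpow_le_zpow_right₀ hp1
          subst h
          push_cast
          omega
        · rw [padicNorm.zero]; positivity
      · simp only [Sum.elim_inl, Sum.elim_inr]
        rw [padicNorm.zero]; positivity
      · simp only [Sum.elim_inl, Sum.elim_inr]
        rw [padicNorm.zero]; positivity
      · simp only [Sum.elim_inl, Sum.elim_inr]
        rw [padicNorm.zero]; positivity
      · simp only [Sum.elim_inl, Sum.elim_inr]
        split_ifs with h hb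
        · refine (hKA c l l').trans ?_
          rw [← zpow_natCast]
          apply zpow_le_zpow_right₀ hp1
          push_cast
          omega
        · refine (hKB c l l').trans ?_
          rw [← zpow_natCast]
          apply zpow_le_zpow_right₀ hp1
          push_cast
          omega
        · rw [padicNorm.zero]; positivity
        · rw [padicNorm.zero]; positivity
      · simp only [Sum.elim_inl, Sum.elim_inr]
        rw [padicNorm.zero]; positivity
      · simp only [Sum.elim_inl, Sum.elim_inr]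
        rw [padicNorm.zero]; positivity
      · simp only [Sum.elim_inl, Sum.elim_inr]
        rw [padicNorm.zero]; positivity
      · simp only [Sum.elim_inr, add_zero, pow_zero]
        exact hD _ _)
  have hMM : (Matrix.of fun i j : Fin (2 * m) => ∑ x : (A1 × Fin N1) ⊕ ((A2 × Fin N2) ⊕ Fin (2 * m)),
      ∑ y : (A1 × Fin N1) ⊕ (((A2 × Bool) × Fin N2) ⊕ Fin (2 * m)),
      Sum.elim (fun al => U1 al.1 i al.2)
      (Sum.elim (fun cl => U2 cl.1 i cl.2) (fun i' => if i' = i then (1 : ℚ) else 0)) x *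
      (Sum.elim
      (fun al => Sum.elim (fun al' => if al.1 = al'.1 then K1 al.1 al.2 al'.2 else 0) (fun _ => 0) y)
      (Sum.elim
        (fun cl => Sum.elim (fun _ => 0) (Sum.elim (fun cl' => if cl.1 = cl'.1.1 then
          (if cl'.1.2 then KA cl.1 cl.2 cl'.2 else KB cl.1 cl.2 cl'.2) else 0) (fun _ => 0)) y)
        (fun i' => Sum.elim (fun _ => 0) (Sum.elim (fun _ => 0) (fun j' => D i' j')) y)) x) *
      Sum.elim (fun al => V1 al.1 j al.2)
      (Sum.elim (fun cl => if (cl.1.2 = true ↔ j.1 < m) then V2 cl.1.1 j cl.2 else 0)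
        (fun j' => if j' = j then (1 : ℚ) else 0)) y) = Matrix.of M := by
    ext i j
    simp only [Matrix.of_apply]
    rw [hM i j]
    simp only [Fintype.sum_sum_type, Sum.elim_inl, Sum.elim_inr, mul_zero, zero_mul, Finset.sum_const_zero,
      add_zero, zero_add]
    rw [← add_assoc]
    congr 1
    · congr 1
      · rw [Fintype.sum_prod_type]
        refine Finset.sum_congr rfl fun a _ => ?_
        rw [Finset.sum_range]
        refine Finset.sum_congr rfl fun l _ => ?_
        rw [Finset.sum_range, Fintype.sum_prod_type, Finset.sum_eq_single a]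
        · refine Finset.sum_congr rfl fun l' _ => ?_
          rw [if_pos rfl]
        · intro b _ hb
          apply Finset.sum_eq_zero
          intro l' _
          rw [if_neg (Ne.symm hb), mul_zero, zero_mul]
        · intro h; exact absurd (Finset.mem_univ _) h
      · rw [Fintype.sum_prod_type]
        refine Finset.sum_congr rfl fun c _ => ?_
        rw [Finset.sum_range]
        refine Finset.sum_congr rfl fun l _ => ?_
        rw [Finset.sum_range, Fintype.sum_prod_type, Fintype.sum_prod_type, Finset.sum_eq_single c]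
        · rw [Fintype.sum_bool, ← Finset.sum_add_distrib]
          refine Finset.sum_congr rfl fun l' _ => ?_
          by_cases hj : j.1 < m
          · simp [hj]
          · simp [hj]
        · intro b _ hb
          apply Finset.sum_eq_zero
          intro b' _
          apply Finset.sum_eq_zero
          intro l' _
          rw [if_neg (Ne.symm hb), mul_zero, zero_mul]
        · intro h; exact absurd (Finset.mem_univ _) h
    · rw [Finset.sum_eq_single i, Finset.sum_eq_single j]
      · rw [if_pos rfl, if_pos rfl]; ring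
      · intro b _ hb; rw [if_neg hb, mul_zero]
      · intro h; exact absurd (Finset.mem_univ _) h
      · intro b _ hb
        rw [if_neg hb]
        simp
      · intro h; exact absurd (Finset.mem_univ _) h
  rw [hMM] at key
  refine key.trans ?_
  rw [← zpow_natCast]
  apply zpow_le_zpow_right₀ hp1
  simp only [Fintype.sum_sum_type, Sum.elim_inl, Sum.elim_inr, Finset.sum_const_zero, add_zero]
  rw [Fintype.sum_prod_type, Fintype.sum_prod_type, Fintype.sum_prod_type, Fintype.sum_prod_type,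
    Fintype.sum_prod_type]
  simp only [Fintype.sum_bool]
  push_cast
  have t1 : ∑ a, (∑ l : Fin N1, ((E1 a / 2 - ((l : ℕ) : ℤ)).toNat : ℤ)) +
      ∑ a, (∑ l : Fin N1, ((E1 a - E1 a / 2 - ((l : ℕ) : ℤ)).toNat : ℤ)) ≤ ∑ a, T2s (E1 a) := by
    rw [← Finset.sum_add_distrib]
    refine Finset.sum_le_sum fun a _ => ?_
    unfold T2s
    have h1 := sum_T1 N1 (E1 a / 2)
    have h2 := sum_T1 N1 (E1 a - E1 a / 2)
    push_cast at h1 h2
    exact add_le_add h1 h2
  have t2 : ∑ c, (∑ l : Fin N2, ((E2 c - 8 - ((l : ℕ) : ℤ)).toNat : ℤ)) +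
      ∑ c : A2, ((∑ l : Fin N2, (((7 : ℤ) - ((l : ℕ) : ℤ)).toNat : ℤ)) +
        ∑ l : Fin N2, (((5 : ℤ) - ((l : ℕ) : ℤ)).toNat : ℤ)) ≤
      ∑ c, (T1 (E2 c - 8) + 43) := by
    rw [← Finset.sum_add_distrib]
    refine Finset.sum_le_sum fun a _ => ?_
    have h1 := sum_T1 N2 (E2 a - 8)
    have h2 := sum_T1 N2 7
    have h3 := sum_T1 N2 5
    rw [T1_7] at h2
    rw [T1_5] at h3
    push_cast at h1 h2 h3
    linarith
  linarith

end

end Pool.Agent.Dim7.Mix
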