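import Pool.Agent.Dim7.TwoE
import Pool.Agent.Dim7.MixA
import Pool.Agent.Dim7.MixB
import Pool.Agent.Dim7.D2

/-!
# D7-MIX, part C (helper811): the form as a sum of blocks, and the assembly of the new p-adic bound
-/

open Polynomial Pool.Agent.H337R2

namespace Pool.Agent.Dim7.Mix

open Pool.Agent.Dim7.Two

noncomputable section

lemma gk_eq (n : ℕ) (u : ℚ) (v : ℕ → ℚ) (E : ℚ[X]) : gk n u v E = fk n u v E := rfl

lemma Alow_mem {n p a : ℕ} (h2 : p < 10 * n) (ha : a ∈ Alow n p) :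
    a ∈ sM n ∧ a + p ∈ sM n ∧ a < 3 * n + p ∧ 13 * n < a + 2 * p := by
  unfold Alow at ha
  rw [Finset.mem_filter, Finset.mem_Icc] at ha
  rw [Finset.mem_Icc, Finset.mem_Icc]
  omega

lemma q_AL (n : ℕ) (q : ℚ) (α : ℕ → ℚ) (Q : ℚ[X]) :
    q * AL n α Q = ∑ k ∈ sM n, fk n q (fun i => q * α i) (EM n Q) k := by
  rw [AL_apply]
  unfold xa fk rho
  rw [Finset.mul_sum, Finset.sum_comm]
  refine Finset.sum_congr rfl fun i _ => ?_
  rw [Finset.sum_mul, ← Finset.sum_sub_distrib, Finset.mul_sum]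
  exact Finset.sum_congr rfl fun k _ => by ring

lemma q_BL (n : ℕ) (q : ℚ) (β : ℕ → ℚ) (Q : ℚ[X]) :
    q * BL n β Q = ∑ k ∈ sM n, fk n 0 (fun i => q * β i) (EM n Q) k := by
  rw [BL_apply]
  unfold xb fk rho
  rw [Finset.mul_sum, Finset.sum_comm]
  refine Finset.sum_congr rfl fun i _ => ?_
  rw [Finset.sum_mul, Finset.mul_sum]
  exact Finset.sum_congr rfl fun k _ => by ring

lemma EM_mul (n i j : ℕ) : EM n (X ^ (i + j)) = xM n ^ (17 + i) * xM n ^ (17 + j) := by
  unfold EM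
  rw [Polynomial.mul_comp, Polynomial.pow_comp, Polynomial.pow_comp, Polynomial.X_comp]
  ring

lemma xM_reflect (n : ℕ) : (xM n).comp (-X - C ((16 * n : ℕ) : ℚ)) = xM n := by
  unfold xM
  simp only [Polynomial.pow_comp, Polynomial.add_comp, Polynomial.X_comp, Polynomial.C_comp]
  push_cast
  simp only [map_mul, map_ofNat, map_natCast]
  ring

lemma xM_reflect_pow (n N : ℕ) : (xM n ^ N).comp (-X - C ((16 * n : ℕ) : ℚ)) = xM n ^ N := by
  rw [Polynomial.pow_comp, xM_reflect]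

/-- scaled determinant -/
lemma det_scale (m : ℕ) (q σ t : ℚ) (A B : ℚ[X] →ₗ[ℚ] ℚ) :
    (Matrix.of fun i j : Fin (2 * m) => (if j.1 < m then t else 1) * (σ * (q * (if j.1 < m then A (X ^ (i.1 + j.1)) else
      B (X ^ (i.1 + (j.1 - m))))))).det = t ^ m * (σ ^ (2 * m) * (q ^ (2 * m) * MD A B m)) := by
  have h0 : (Matrix.of fun i j : Fin (2 * m) => (if j.1 < m then t else 1) * (σ * (q * (if j.1 < m then
      A (X ^ (i.1 + j.1)) else B (X ^ (i.1 + (j.1 - m))))))) =
      Matrix.of fun i j : Fin (2 * m) => (fun j : Fin (2 * m) => if j.1 < m then t else (1 : ℚ)) j *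
        (σ • (q • (Matrix.of fun i j : Fin (2 * m) =>
        if j.1 < m then A (X ^ (i.1 + j.1)) else B (X ^ (i.1 + (j.1 - m)))))) i j := by
    ext i j
    simp only [Matrix.of_apply, Matrix.smul_apply, smul_eq_mul]
  rw [h0, Matrix.det_mul_row, Matrix.det_smul, Matrix.det_smul, Fintype.card_fin]
  have h1 : ∏ j : Fin (2 * m), (if j.1 < m then t else (1 : ℚ)) = t ^ m := by
    rw [Fin.prod_univ_eq_prod_range (fun j => if j < m then t else (1 : ℚ)) (2 * m), two_mul,
      Finset.prod_range_add, Finset.prod_congr rfl (fun j hj => if_pos (Finset.mem_range.1 hj)),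
      Finset.prod_const, Finset.card_range, Finset.prod_eq_one, mul_one]
    intro j _
    rw [if_neg (by omega)]
  rw [h1]
  rfl

section

variable {p : ℕ} [hp : Fact p.Prime]

lemma xM_mem (n : ℕ) : xM n ∈ IP p := by
  unfold xM
  exact pow_mem (sit_mem (p := p) (8 * n)) 2

/-- the form is a sum of kernels, of the parts of the three-site classes, and of something small -/
lemma form_main (hC3 : St_C1_pa_int) {n : ℕ} (hn : 1 ≤ n) (h2 : p < 10 * n)
    (hpair : ∀ (u : ℚ) (v : ℕ → ℚ) (E : ℚ[X]), E.comp (-X - C ((16 * n : ℕ) : ℚ)) = E →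
      ∀ k ∈ sM n, fk n u v E k + fk n u v E (16 * n - k) = Ph n k (E * Om n u v k))
    (hsplit : ∀ F : ℕ → ℚ, ∑ k ∈ sM n, F k =
      ∑ a ∈ Alow n p, ((F (a + p) + F (16 * n - (a + p))) + (F a + F (16 * n - a))) +
      ∑ c ∈ Amid n p, tri n p c F +
      ∑ k ∈ Finset.Ioo (13 * n - p) (3 * n + p), F k)
    {u : ℚ} {v : ℕ → ℚ} (hu : padicNorm p u ≤ 1) (hv : ∀ i, padicNorm p (v i) ≤ 1) {E : ℚ[X]} (hE : E ∈ IP p)
    (hE2 : E.comp (-X - C ((16 * n : ℕ) : ℚ)) = E) :
    padicNorm p (∑ k ∈ sM n, fk n u v E k - ∑ a ∈ Alow n p, Nf n p a (a + p) (E * WW p u v a (a + p)) -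
      ∑ c ∈ Amid n p, tri n p c (gk n u v E)) ≤ padicNorm p (cM n) := by
  have hpos := hp.out.pos
  have e1 : ∑ k ∈ sM n, fk n u v E k = ∑ a ∈ Alow n p, (Nf n p a (a + p) (E * WW p u v a (a + p)) +
      (Ph n (a + p) (E * YY p n u v a (a + p)) + Ph n a (E * YY p n u v a (a + p)))) +
      ∑ c ∈ Amid n p, tri n p c (gk n u v E) +
      ∑ k ∈ Finset.Ioo (13 * n - p) (3 * n + p), fk n u v E k := by
    rw [hsplit]
    congr 2
    refine Finset.sum_congr rfl fun a ha => ?_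
    obtain ⟨m1, m2, m3, m4⟩ := Alow_mem h2 ha
    rw [hpair u v E hE2 _ m2, hpair u v E hE2 _ m1, local_form hpos rfl m1 m2]
  rw [e1, Finset.sum_add_distrib]
  have e2 : ∀ x y z w : ℚ, x + y + z + w - x - z = y + w := fun x y z w => by ring
  rw [e2]
  refine (padicNorm.nonarchimedean).trans (max_le ?_ ?_)
  · apply padicNorm.sum_le' _ (padicNorm.nonneg _)
    intro a ha
    obtain ⟨m1, m2, m3, m4⟩ := Alow_mem h2 ha
    exact flat m3 m4 rfl m1 m2 (mul_mem hE (YY_mem m3 m4 rfl m1 m2 hu hv))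
  · apply padicNorm.sum_le' _ (padicNorm.nonneg _)
    intro k hk
    rw [Finset.mem_Ioo] at hk
    refine fk_single hC3 hn hu hv hE ?_ hk.2 ?_
    · rw [Finset.mem_Icc]
      omega
    · intro k' hk' hne
      rw [Finset.mem_Icc] at hk'
      rintro ⟨c, hc⟩
      have c1 : c < 1 := by
        by_contra h
        have : (p : ℤ) * 1 ≤ p * c := by
          apply mul_le_mul_of_nonneg_left (by omega) (by omega)
        omega
      have c2 : -1 < c := by
        by_contra h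
        have : (p : ℤ) * c ≤ p * (-1) := by
          apply mul_le_mul_of_nonneg_left (by omega) (by omega)
        omega
      have c3 : c = 0 := by omega
      subst c3
      apply hne
      omega

theorem D3_mix_of (hC1 : St_C1_norm_cM) (hC2 : St_C1_pa) (hC3 : St_C1_pa_int)
    (hpair : ∀ (n : ℕ) (u : ℚ) (v : ℕ → ℚ) (E : ℚ[X]), E.comp (-X - C ((16 * n : ℕ) : ℚ)) = E →
      ∀ k ∈ sM n, fk n u v E k + fk n u v E (16 * n - k) = Ph n k (E * Om n u v k))
    (hsplit : ∀ {n p : ℕ}, Odd p → 10 * n < 3 * p → p < 10 * n → ∀ F : ℕ → ℚ, ∑ k ∈ sM n, F k =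
      ∑ a ∈ Alow n p, ((F (a + p) + F (16 * n - (a + p))) + (F a + F (16 * n - a))) +
      ∑ c ∈ Amid n p, tri n p c F +
      ∑ k ∈ Finset.Ioo (13 * n - p) (3 * n + p), F k) : St_D3_mix := by
  intro n p hp hn hp100 h1 h2 τ hτ hτ2 q α β hα hβ hβ3 m
  have hpp := p_pos' (p := p)
  have hp2 : 16 * n < p ^ 2 := by nlinarith
  have hodd : Odd p := hp.out.odd_of_ne_two (by omega)
  have hcM : padicNorm p (cM n) = (p : ℚ) ^ (-oM n p) := hC1 hp2
  have hq : padicNorm p (q : ℚ) ≤ 1 := by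
    have := padicNorm.of_int (p := p) (q : ℤ)
    exact_mod_cast this
  have hA : ∀ i, padicNorm p ((q : ℚ) * α i) ≤ 1 := by
    intro i
    obtain ⟨z, hz⟩ := hα.2 i
    rw [hz]; exact padicNorm.of_int z
  have hB : ∀ i, padicNorm p ((q : ℚ) * β i) ≤ 1 := by
    intro i
    obtain ⟨z, hz⟩ := hβ.2 i
    rw [hz]; exact padicNorm.of_int z
  have hB3 : ∀ i < 3, (q : ℚ) * β i = 0 := by
    intro i hi
    rw [hβ3 i hi, mul_zero]
  have hpz : padicNorm p (p : ℚ) = (p : ℚ)⁻¹ := padicNorm.padicNorm_p_of_prime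
  have hpow : ∀ k : ℕ, padicNorm p ((p : ℚ) ^ k) = (p : ℚ) ^ (-(k : ℤ)) := by
    intro k
    rw [padicNorm_pow', hpz, inv_pow, zpow_neg, zpow_natCast]
  -- column data
  set col : Fin (2 * m) → ℕ := fun j => if j.1 < m then j.1 else j.1 - m with hcol
  set uu : Fin (2 * m) → ℚ := fun j => if j.1 < m then (q : ℚ) else 0 with huu
  set vv : Fin (2 * m) → ℕ → ℚ := fun j => if j.1 < m then (fun i => (q : ℚ) * α i) else (fun i => (q : ℚ) * β i)
    with hvv
  have huu1 : ∀ j, padicNorm p (uu j) ≤ 1 := by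
    intro j
    rw [huu]
    simp only
    split_ifs
    · exact hq
    · rw [padicNorm.zero]; exact zero_le_one
  have hvv1 : ∀ j i, padicNorm p (vv j i) ≤ 1 := by
    intro j i
    rw [hvv]
    simp only
    split_ifs
    · exact hA i
    · exact hB i
  set t : ℚ := (p : ℚ) ^ τ with ht
  have htn : padicNorm p t = (p : ℚ) ^ (-(τ : ℤ)) := hpow τ
  have ht1 : padicNorm p t ≤ 1 := by
    rw [htn, zpow_neg, zpow_natCast]
    exact inv_le_one_of_one_le₀ (one_le_pow₀ p_one')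
  set tf : Fin (2 * m) → ℚ := fun j => if j.1 < m then t else 1 with htf
  have htf1 : ∀ j, padicNorm p (tf j) ≤ 1 := by
    intro j
    rw [htf]
    simp only
    split_ifs
    · exact ht1
    · rw [padicNorm.one]
  -- multipliers of the columns
  set F : ℕ → Fin (2 * m) → ℚ[X] := fun a j =>
    if j.1 < m then xM n ^ (17 + col j) * WW p q (fun i => (q : ℚ) * α i) a (a + p)
    else xM n ^ (17 + col j) * (C ((p : ℚ) ^ (1 - τ)) *
      (vc (fun i => (q : ℚ) * β i) (sit (a + p)) (sit a) * (sit (a + p) * sit a))) with hF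
  have hFt : ∀ a j, C t * F a j = C (tf j) * (xM n ^ (17 + col j) * WW p (uu j) (vv j) a (a + p)) := by
    intro a j
    rw [hF, htf, huu, hvv]
    simp only
    split_ifs with hj
    · rfl
    · have e1 : (C t : ℚ[X]) * C ((p : ℚ) ^ (1 - τ)) = C (p : ℚ) := by
        rw [← C_mul, ht, ← pow_add]
        congr 1
        rw [show τ + (1 - τ) = 1 by omega, pow_one]
      rw [WW_zero_left, C_1, one_mul]
      linear_combination (xM n ^ (17 + col j) * (vc (fun i => (q : ℚ) * β i) (sit (a + p)) (sit a) *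
        (sit (a + p) * sit a))) * e1
  have hFm : ∀ a ∈ Alow n p, ∀ j, F a j ∈ IP p := by
    intro a ha j
    obtain ⟨m1, m2, m3, m4⟩ := Alow_mem h2 ha
    rw [hF]
    simp only
    split_ifs
    · exact mul_mem (pow_mem (xM_mem n) _) (WW_mem m3 m4 rfl m1 m2 hq hA)
    · refine mul_mem (pow_mem (xM_mem n) _) (mul_mem (C_mem ?_) (mul_mem (vc_mem hB (sit_mem _) (sit_mem _))
        (mul_mem (sit_mem _) (sit_mem _))))
      rw [hpow, zpow_neg, zpow_natCast]
      exact inv_le_one_of_one_le₀ (one_le_pow₀ p_one')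
  -- the matrix
  set M0 : Fin (2 * m) → Fin (2 * m) → ℚ := fun i j => (q : ℚ) *
    (if j.1 < m then AL n α (X ^ (i.1 + j.1)) else BL n β (X ^ (i.1 + (j.1 - m)))) with hM0
  have hM0' : ∀ i j, M0 i j = ∑ k ∈ sM n, fk n (uu j) (vv j) (xM n ^ (17 + i.1) * xM n ^ (17 + col j)) k := by
    intro i j
    rw [hM0, huu, hvv, hcol]
    simp only
    split_ifs with hj
    · rw [q_AL, EM_mul]
    · rw [q_BL, EM_mul]
  set δ : Fin (2 * m) → Fin (2 * m) → ℚ := fun i j => M0 i j -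
    ∑ a ∈ Alow n p, Nf n p a (a + p) ((xM n ^ (17 + i.1) * xM n ^ (17 + col j)) * WW p (uu j) (vv j) a (a + p)) -
    ∑ c ∈ Amid n p, tri n p c (gk n (uu j) (vv j) (xM n ^ (17 + i.1) * xM n ^ (17 + col j))) with hδ
  have hδn : ∀ i j, padicNorm p (δ i j) ≤ padicNorm p (cM n) := by
    intro i j
    rw [hδ]
    simp only
    rw [hM0']
    refine form_main hC3 hn h2 (hpair n) (hsplit hodd h1 h2) (huu1 j) (hvv1 j)
      (mul_mem (pow_mem (xM_mem n) _) (pow_mem (xM_mem n) _)) ?_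
    rw [Polynomial.mul_comp, xM_reflect_pow, xM_reflect_pow]
  -- representations
  have hU : ∀ (a : ↥(Alow n p)) (i : Fin (2 * m)), ∃ u : ℕ → ℚ, (∀ l, padicNorm p (u l) ≤ 1) ∧ ∃ H : ℚ[X],
      xM n ^ (17 + i.1) = ∑ l ∈ Finset.range 16, C (u l) * bl a.1 (a.1 + p) l + bl a.1 (a.1 + p) 16 * H := by
    intro a i
    obtain ⟨u, hu, H, _, e⟩ := rep (p := p) a.1 (a.1 + p) (pow_mem (xM_mem (p := p) n) (17 + i.1)) 16
    exact ⟨u, hu, H, e⟩
  have hV : ∀ (a : ↥(Alow n p)) (j : Fin (2 * m)), ∃ u : ℕ → ℚ, (∀ l, padicNorm p (u l) ≤ 1) ∧ ∃ H : ℚ[X],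
      F a.1 j = ∑ l ∈ Finset.range 16, C (u l) * bl a.1 (a.1 + p) l + bl a.1 (a.1 + p) 16 * H := by
    intro a j
    obtain ⟨u, hu, H, _, e⟩ := rep (p := p) a.1 (a.1 + p) (hFm a.1 a.2 j) 16
    exact ⟨u, hu, H, e⟩
  choose U hU1 HU hU2 using hU
  choose V hV1 HV hV2 using hV
  have hoM : 0 ≤ oM n p := by
    have e1 : 3 * n / p = 0 := Nat.div_eq_of_lt (by omega)
    have e2 : n / p = 0 := Nat.div_eq_of_lt (by omega)
    unfold oM
    rw [e1, e2, Nat.cast_zero, mul_zero, mul_zero, sub_zero, sub_zero]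
    exact mul_nonneg (by norm_num) (Int.natCast_nonneg _)
  obtain ⟨o, ho⟩ : ∃ o : ℕ, oM n p = o := ⟨(oM n p).toNat, by omega⟩
  set σ : ℚ := (p : ℚ)⁻¹ ^ o with hσ
  have hσn : padicNorm p σ = (p : ℚ) ^ (oM n p) := by
    rw [hσ, padicNorm_pow', norm_pinv, ho, zpow_natCast]
  have hNC : ∀ (a : ℕ) (c : ℚ) (g : ℚ[X]), Nf n p a (a + p) (C c * g) = c * Nf n p a (a + p) g := by
    intro a c g
    rw [← smul_eq_C_mul, map_smul, smul_eq_mul]
  have hfe : ∀ k, eM n p k = fM n p k - oM n p := fun k => rfl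
  have hcong : ∀ a, eM n p (a + p) = eM n p a := fun a => D2.eM_congr (Nat.add_mod_right a p)
  -- the determinant
  have hdet := mix_det (p := p) (m := m) (N1 := 16) (N2 := 17 + 2 * m) (A1 := ↥(Alow n p)) (A2 := ↥(Amid n p))
    (fun a => fM n p a.1 - τ) (fun c => fM n p c.1) (fun i j => tf j * (σ * M0 i j)) (fun i j => tf j * (σ * δ i j))
    (fun a i l => U a i l) (fun a j l => V a j l)
    (fun a l l' => σ * t * Nf n p a.1 (a.1 + p) (bl a.1 (a.1 + p) l * bl a.1 (a.1 + p) l'))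
    (fun c i l => Uc n c.1 (17 + i.1) l) (fun c j l => Uc n c.1 (17 + col j) l)
    (fun c l l' => t * (σ * tri n p c.1 (gk n q (fun i => (q : ℚ) * α i) (Dc n c.1 ^ (l + l')))))
    (fun c l l' => σ * tri n p c.1 (gk n 0 (fun i => (q : ℚ) * β i) (Dc n c.1 ^ (l + l'))))
    (by
      intro i j
      have e1 : ∀ a : ↥(Alow n p), ∑ l ∈ Finset.range 16, ∑ l' ∈ Finset.range 16, U a i l *
          (σ * t * Nf n p a.1 (a.1 + p) (bl a.1 (a.1 + p) l * bl a.1 (a.1 + p) l')) * V a j l' =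
          tf j * (σ * Nf n p a.1 (a.1 + p)
            ((xM n ^ (17 + i.1) * xM n ^ (17 + col j)) * WW p (uu j) (vv j) a.1 (a.1 + p))) := by
        intro a
        have e2 := Nf_prod n p a.1 (a.1 + p) (U a i) (V a j) (HU a i) (HV a j) (hU2 a i) (hV2 a j)
        have e3 : xM n ^ (17 + i.1) * (C t * F a.1 j) = C (tf j) * ((xM n ^ (17 + i.1) * xM n ^ (17 + col j)) *
            WW p (uu j) (vv j) a.1 (a.1 + p)) := by
          rw [hFt]; ring
        have e4 : t * Nf n p a.1 (a.1 + p) (xM n ^ (17 + i.1) * F a.1 j) = tf j * Nf n p a.1 (a.1 + p)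
            ((xM n ^ (17 + i.1) * xM n ^ (17 + col j)) * WW p (uu j) (vv j) a.1 (a.1 + p)) := by
          rw [← hNC, ← hNC, ← e3]
          congr 1
          ring
        have e5 : ∑ l ∈ Finset.range 16, ∑ l' ∈ Finset.range 16, U a i l *
          (σ * t * Nf n p a.1 (a.1 + p) (bl a.1 (a.1 + p) l * bl a.1 (a.1 + p) l')) * V a j l' =
          σ * (t * Nf n p a.1 (a.1 + p) (xM n ^ (17 + i.1) * F a.1 j)) := by
          rw [e2, Finset.mul_sum, Finset.mul_sum]
          refine Finset.sum_congr rfl fun l _ => ?_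
          rw [Finset.mul_sum, Finset.mul_sum]
          exact Finset.sum_congr rfl fun l' _ => by ring
        rw [e5, e4]
        ring
      have e6 : ∀ c : ↥(Amid n p), ∑ l ∈ Finset.range (17 + 2 * m), ∑ l' ∈ Finset.range (17 + 2 * m),
          Uc n c.1 (17 + i.1) l *
          (if j.1 < m then t * (σ * tri n p c.1 (gk n q (fun i => (q : ℚ) * α i) (Dc n c.1 ^ (l + l'))))
            else σ * tri n p c.1 (gk n 0 (fun i => (q : ℚ) * β i) (Dc n c.1 ^ (l + l')))) * Uc n c.1 (17 + col j) l' =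
          tf j * (σ * tri n p c.1 (gk n (uu j) (vv j) (xM n ^ (17 + i.1) * xM n ^ (17 + col j)))) := by
        intro c
        rw [tri_expand n p c.1 (uu j) (vv j) (N := 17 + 2 * m) (by omega)
          (by rw [hcol]; simp only; split_ifs <;> omega), Finset.mul_sum, Finset.mul_sum]
        refine Finset.sum_congr rfl fun l _ => ?_
        rw [Finset.mul_sum, Finset.mul_sum]
        refine Finset.sum_congr rfl fun l' _ => ?_
        rw [huu, hvv, htf]
        simp only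
        split_ifs <;> ring
      rw [Finset.sum_congr rfl fun a _ => e1 a, Finset.sum_congr rfl fun c _ => e6 c, ← Finset.mul_sum,
        ← Finset.mul_sum, ← Finset.mul_sum, ← Finset.mul_sum,
        Finset.sum_coe_sort (Alow n p) (fun a => Nf n p a (a + p)
          ((xM n ^ (17 + i.1) * xM n ^ (17 + col j)) * WW p (uu j) (vv j) a (a + p))),
        Finset.sum_coe_sort (Amid n p) (fun c => tri n p c
          (gk n (uu j) (vv j) (xM n ^ (17 + i.1) * xM n ^ (17 + col j)))), hδ]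
      ring)
    (fun a i l => hU1 a i l) (fun a i l => hV1 a i l)
    (fun c i l => Uc_norm _ _ _ _) (fun c i l => Uc_norm _ _ _ _)
    (by
      intro i j
      rw [padicNorm.mul, padicNorm.mul, hσn]
      refine mul_le_one₀ (htf1 j) (mul_nonneg (by positivity) (padicNorm.nonneg _)) ?_
      calc (p : ℚ) ^ (oM n p) * padicNorm p (δ i j) ≤ (p : ℚ) ^ (oM n p) * (p : ℚ) ^ (-oM n p) :=
            mul_le_mul_of_nonneg_left ((hδn i j).trans hcM.le) (by positivity)
        _ = 1 := by rw [← zpow_add₀ hpp.ne', add_neg_cancel, zpow_zero])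
    (by
      intro a l l'
      obtain ⟨m1, m2, m3, m4⟩ := Alow_mem h2 a.2
      have h3 := Nf_level hC2 hn hp2 rfl m1 m2 (hcong a.1) l l'
      rw [padicNorm.mul, padicNorm.mul, hσn, htn]
      calc (p : ℚ) ^ (oM n p) * (p : ℚ) ^ (-(τ : ℤ)) * _ ≤
            (p : ℚ) ^ (oM n p) * (p : ℚ) ^ (-(τ : ℤ)) * (p : ℚ) ^ (eM n p a.1 - l - l' : ℤ) :=
            mul_le_mul_of_nonneg_left h3 (by positivity)
        _ = (p : ℚ) ^ (oM n p + -(τ : ℤ) + (eM n p a.1 - l - l') : ℤ) := by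
            rw [← zpow_add₀ hpp.ne', ← zpow_add₀ hpp.ne']
        _ = _ := by
            congr 1
            rw [hfe]
            ring)
    (by
      intro c l l'
      have hτ1 : τ = 1 := by
        rcases hτ2 with h | h
        · exact h
        · exfalso
          have hc := c.2
          unfold Amid at hc
          rw [Finset.mem_filter, Finset.mem_Icc] at hc
          omega
      have h3 := tri_bound_A hC2 D2_eM_kap hn hp2 hq hA c.2 (l + l')
      rw [padicNorm.mul, padicNorm.mul, hσn, htn, hτ1]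
      calc (p : ℚ) ^ (-((1 : ℕ) : ℤ)) * ((p : ℚ) ^ (oM n p) * _) ≤
            (p : ℚ) ^ (-((1 : ℕ) : ℤ)) * ((p : ℚ) ^ (oM n p) * (p : ℚ) ^ (eM n p c.1 - (l + l' : ℕ) : ℤ)) :=
            mul_le_mul_of_nonneg_left (mul_le_mul_of_nonneg_left h3 (by positivity)) (by positivity)
        _ = (p : ℚ) ^ (-((1 : ℕ) : ℤ) + (oM n p + (eM n p c.1 - (l + l' : ℕ))) : ℤ) := by
            rw [← zpow_add₀ hpp.ne', ← zpow_add₀ hpp.ne']
        _ = _ := by
            congr 1
            rw [hfe]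
            push_cast
            ring)
    (by
      intro c l l'
      have h3 := tri_bound_B hC2 D2_eM_kap hn hp2 hB hB3 c.2 (l + l')
      rw [padicNorm.mul, hσn]
      calc (p : ℚ) ^ (oM n p) * _ ≤ (p : ℚ) ^ (oM n p) * (p : ℚ) ^ (eM n p c.1 - 3 - (l + l' : ℕ) : ℤ) :=
            mul_le_mul_of_nonneg_left h3 (by positivity)
        _ = (p : ℚ) ^ (oM n p + (eM n p c.1 - 3 - (l + l' : ℕ)) : ℤ) := by
            rw [← zpow_add₀ hpp.ne']
        _ = _ := by
            congr 1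
            rw [hfe]
            push_cast
            ring)
  have hMM : (Matrix.of fun i j => tf j * (σ * M0 i j)) =
      Matrix.of fun i j : Fin (2 * m) => (if j.1 < m then t else 1) * (σ * ((q : ℚ) * (if j.1 < m then
        AL n α (X ^ (i.1 + j.1)) else BL n β (X ^ (i.1 + (j.1 - m)))))) := rfl
  rw [hMM, det_scale, padicNorm.mul, padicNorm.mul, padicNorm_pow' t, padicNorm_pow' σ, hσn, htn] at hdet
  -- exponents
  rw [Finset.sum_coe_sort (Alow n p) (fun a => T2s (fM n p a - τ)),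
    Finset.sum_coe_sort (Amid n p) (fun c => T1 (fM n p c - 8) + 43)] at hdet
  have hs : ((p : ℚ) ^ (-(τ : ℤ))) ^ m * (((p : ℚ) ^ (oM n p)) ^ (2 * m) *
      padicNorm p ((q : ℚ) ^ (2 * m) * MD (AL n α) (BL n β) m)) =
      (p : ℚ) ^ (2 * m * oM n p - m * τ : ℤ) * padicNorm p ((q : ℚ) ^ (2 * m) * MD (AL n α) (BL n β) m) := by
    rw [← mul_assoc]
    congr 1
    rw [← zpow_natCast, ← zpow_natCast, ← zpow_mul, ← zpow_mul, ← zpow_add₀ hpp.ne']
    congr 1
    push_cast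
    ring
  rw [hs] at hdet
  have hfin : (p : ℚ) ^ (-(2 * m * oM n p : ℤ) + m * τ + ∑ a ∈ Alow n p, T2s (fM n p a - τ) +
      ∑ c ∈ Amid n p, (T1 (fM n p c - 8) + 43)) = (p : ℚ) ^ (∑ a ∈ Alow n p, T2s (fM n p a - τ) +
      ∑ c ∈ Amid n p, (T1 (fM n p c - 8) + 43)) / (p : ℚ) ^ (2 * m * oM n p - m * τ : ℤ) := by
    rw [← zpow_sub₀ hpp.ne']
    congr 1
    ring
  rw [hfin, le_div_iff₀ (by positivity), mul_comm]
  exact hdet

end

end

end Pool.Agent.Dim7.Mix
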