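import Pool.Agent.Dim7.Iface

/-! # The lower bound for `FN` on `[160, 260]` -/

open Polynomial Pool.Agent.H337R2

namespace Pool.Agent.Dim7

namespace V2

/-- the list of `-FN` -/
def vl : List (ℤ × ℤ) := [(-4951401840, -823), (-7307310780, -516), (-10429054020, -392), (-12662939520, -325), (-33743855880, -282), (-6909456204, -260), (38002009122, -160), (266014063854, -100), (76004018244, -80), (-69094562040, -78), (-15354347120, -67), (-10556113645, -58), (-13572146115, -50), (13572146115, -43), (-13572146115, -35), (13572146115, 35), (-13572146115, 43), (13572146115, 50), (10556113645, 58), (15354347120, 67), (69094562040, 78), (-76004018244, 80), (-266014063854, 100), (-38002009122, 160), (6909456204, 260), (33743855880, 282), (12662939520, 325), (10429054020, 392), (7307310780, 516), (4951401840, 823)]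

/-- the integer bound -/
def vA : ℤ := 54549907990156656000000000

theorem FN_eq (w : ℝ) : FN w = - EF 760040182440 1 vl w +
    (100 * Real.log 2 + 90 * Real.log 5 - 6 * Real.log 3 - 70) := by
  have l20 : Real.log 20 = 2 * Real.log 2 + Real.log 5 := by
    rw [show (20 : ℝ) = 2 ^ 2 * 5 by norm_num, Real.log_mul (by norm_num) (by norm_num),
      Real.log_pow]
    push_cast; ring
  have u0 : Ub 0 w = ((Psi (w - 160) - Psi (w - 180)) + (Psi (w + 180) - Psi (w + 160))) / 20 -
      2 * Real.log 20 := by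
    unfold Ub bb cc; norm_num [sub_sub, add_assoc]
  have u1 : Ub 1 w = ((Psi (w - 180) - Psi (w - 200)) + (Psi (w + 200) - Psi (w + 180))) / 20 -
      2 * Real.log 20 := by
    unfold Ub bb cc; norm_num [sub_sub, add_assoc]
  have u2 : Ub 2 w = ((Psi (w - 200) - Psi (w - 220)) + (Psi (w + 220) - Psi (w + 200))) / 20 -
      2 * Real.log 20 := by
    unfold Ub bb cc; norm_num [sub_sub, add_assoc]
  have u3 : Ub 3 w = ((Psi (w - 220) - Psi (w - 240)) + (Psi (w + 240) - Psi (w + 220))) / 20 -
      2 * Real.log 20 := by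
    unfold Ub bb cc; norm_num [sub_sub, add_assoc]
  have u4 : Ub 4 w = ((Psi (w - 240) - Psi (w - 260)) + (Psi (w + 260) - Psi (w + 240))) / 20 -
      2 * Real.log 20 := by
    unfold Ub bb cc; norm_num [sub_sub, add_assoc]
  have u5 : Ub 5 w = ((Psi (w - 260) - Psi (w - 282)) + (Psi (w + 282) - Psi (w + 260))) / 22 -
      2 * Real.log 20 := by
    unfold Ub bb cc; norm_num [sub_sub, add_assoc]
  have u6 : Ub 6 w = ((Psi (w - 282) - Psi (w - 325)) + (Psi (w + 325) - Psi (w + 282))) / 43 -
      2 * Real.log 20 := by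
    unfold Ub bb cc; norm_num [sub_sub, add_assoc]
  have u7 : Ub 7 w = ((Psi (w - 325) - Psi (w - 392)) + (Psi (w + 392) - Psi (w + 325))) / 67 -
      2 * Real.log 20 := by
    unfold Ub bb cc; norm_num [sub_sub, add_assoc]
  have u8 : Ub 8 w = ((Psi (w - 392) - Psi (w - 516)) + (Psi (w + 516) - Psi (w + 392))) / 124 -
      2 * Real.log 20 := by
    unfold Ub bb cc; norm_num [sub_sub, add_assoc]
  have u9 : Ub 9 w = ((Psi (w - 516) - Psi (w - 823)) + (Psi (w + 823) - Psi (w + 516))) / 307 -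
      2 * Real.log 20 := by
    unfold Ub bb cc; norm_num [sub_sub, add_assoc]
  have u10 : Ub 10 w = ((Psi w - Psi (w - 7)) + (Psi (w + 7) - Psi w)) / 7 -
      2 * Real.log 20 := by
    unfold Ub bb cc; norm_num [sub_sub, add_assoc]
  have u11 : Ub 11 w = ((Psi (w - 7) - Psi (w - 14)) + (Psi (w + 14) - Psi (w + 7))) / 7 -
      2 * Real.log 20 := by
    unfold Ub bb cc; norm_num [sub_sub, add_assoc]
  have u12 : Ub 12 w = ((Psi (w - 14) - Psi (w - 21)) + (Psi (w + 21) - Psi (w + 14))) / 7 -
      2 * Real.log 20 := by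
    unfold Ub bb cc; norm_num [sub_sub, add_assoc]
  have u13 : Ub 13 w = ((Psi (w - 21) - Psi (w - 28)) + (Psi (w + 28) - Psi (w + 21))) / 7 -
      2 * Real.log 20 := by
    unfold Ub bb cc; norm_num [sub_sub, add_assoc]
  have u14 : Ub 14 w = ((Psi (w - 28) - Psi (w - 35)) + (Psi (w + 35) - Psi (w + 28))) / 7 -
      2 * Real.log 20 := by
    unfold Ub bb cc; norm_num [sub_sub, add_assoc]
  have u15 : Ub 15 w = ((Psi (w - 35) - Psi (w - 43)) + (Psi (w + 43) - Psi (w + 35))) / 8 -
      2 * Real.log 20 := by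
    unfold Ub bb cc; norm_num [sub_sub, add_assoc]
  have u16 : Ub 16 w = ((Psi (w - 43) - Psi (w - 50)) + (Psi (w + 50) - Psi (w + 43))) / 7 -
      2 * Real.log 20 := by
    unfold Ub bb cc; norm_num [sub_sub, add_assoc]
  have u17 : Ub 17 w = ((Psi (w - 50) - Psi (w - 58)) + (Psi (w + 58) - Psi (w + 50))) / 8 -
      2 * Real.log 20 := by
    unfold Ub bb cc; norm_num [sub_sub, add_assoc]
  have u18 : Ub 18 w = ((Psi (w - 58) - Psi (w - 67)) + (Psi (w + 67) - Psi (w + 58))) / 9 -
      2 * Real.log 20 := by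
    unfold Ub bb cc; norm_num [sub_sub, add_assoc]
  have u19 : Ub 19 w = ((Psi (w - 67) - Psi (w - 78)) + (Psi (w + 78) - Psi (w + 67))) / 11 -
      2 * Real.log 20 := by
    unfold Ub bb cc; norm_num [sub_sub, add_assoc]
  have hI : ∑ g ∈ Finset.Ico 10 20, Ub g w = Ub 10 w + Ub 11 w + Ub 12 w + Ub 13 w + Ub 14 w + Ub 15 w + Ub 16 w + Ub 17 w + Ub 18 w + Ub 19 w := by
    simp [Finset.sum_Ico_succ_top]
  have hR : ∑ g ∈ Finset.range 10, Ub g w = Ub 0 w + Ub 1 w + Ub 2 w + Ub 3 w + Ub 4 w + Ub 5 w + Ub 6 w + Ub 7 w + Ub 8 w + Ub 9 w := by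
    simp [Finset.sum_range_succ]
  have hE : EF 760040182440 1 vl w = ((-4951401840) * Psi (w + 823) + (-7307310780) * Psi (w + 516) + (-10429054020) * Psi (w + 392) + (-12662939520) * Psi (w + 325) + (-33743855880) * Psi (w + 282) + (-6909456204) * Psi (w + 260) + (38002009122) * Psi (w + 160) + (266014063854) * Psi (w + 100) + (76004018244) * Psi (w + 80) + (-69094562040) * Psi (w + 78) + (-15354347120) * Psi (w + 67) + (-10556113645) * Psi (w + 58) + (-13572146115) * Psi (w + 50) + (13572146115) * Psi (w + 43) + (-13572146115) * Psi (w + 35) + (13572146115) * Psi (w - 35) + (-13572146115) * Psi (w - 43) + (13572146115) * Psi (w - 50) + (10556113645) * Psi (w - 58) + (15354347120) * Psi (w - 67) + (69094562040) * Psi (w - 78) + (-76004018244) * Psi (w - 80) + (-266014063854) * Psi (w - 100) + (-38002009122) * Psi (w - 160) + (6909456204) * Psi (w - 260) + (33743855880) * Psi (w - 282) + (12662939520) * Psi (w - 325) + (10429054020) * Psi (w - 392) + (7307310780) * Psi (w - 516) +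 (4951401840) * Psi (w - 823)) / 760040182440 := by
    unfold EF vl
    simp only [List.map_cons, List.map_nil, List.sum_cons, List.sum_nil]
    push_cast
    norm_num
    ring
  unfold FN phi
  rw [hI, hR, hE, u0, u1, u2, u3, u4, u5, u6, u7, u8, u9, u10, u11, u12, u13, u14, u15, u16, u17, u18, u19, l20]
  ring

/-- check of consecutive cells -/
def chkB (M : ℕ) (l : List (ℤ × ℤ)) (A : ℤ) : ℤ → List ℤ → Bool
  | _, [] => true
  | x0, x1 :: t => cellOK M l A x0 x1 && chkB M l A x1 t

/-- last point -/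
def lastB : ℤ → List ℤ → ℤ
  | x0, [] => x0
  | _, x1 :: t => lastB x1 t

theorem chkB_spec {Dc M : ℕ} (hD : 0 < Dc) (hM : 1 ≤ M) (hM2 : M < 2 ^ 20) {l : List (ℤ × ℤ)} {A : ℤ}
    (a : ℝ) (hA : (A : ℝ) ≤ a * (10 ^ 12 * Dc * M)) :
    ∀ (t : List ℤ) (x0 x1 : ℤ), chkB M l A x0 (x1 :: t) = true → ∀ w : ℝ, (x0 : ℝ) ≤ w →
      w ≤ lastB x1 t → EF Dc M l (w / M) ≤ a := by
  intro t
  induction t with
  | nil =>
    intro x0 x1 h w h0 h1
    simp only [chkB, Bool.and_true] at h
    exact cellOK_spec hD hM hM2 h a hA w h0 h1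
  | cons x2 t ih =>
    intro x0 x1 h w h0 h1
    rw [chkB, Bool.and_eq_true] at h
    rcases le_total w x1 with k | k
    · exact cellOK_spec hD hM hM2 h.1 a hA w h0 k
    · exact ih x1 x2 h.2 w k h1

theorem c1 : chkB 1 vl vA 160 [214, 244, 256, 260] = true := by decide +kernel

theorem EF_bound (w : ℝ) (h0 : 160 ≤ w) (h1 : w ≤ 260) :
    EF 760040182440 1 vl w ≤ 717724 / 10000 := by
  have h := chkB_spec (Dc := 760040182440) (M := 1) (l := vl) (A := vA) (by norm_num) (by norm_num) (by norm_num)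
    (717724 / 10000) (by unfold vA; norm_num) [244, 256, 260] 160 214 c1 w (by push_cast; linarith)
    (by simp only [lastB]; push_cast; linarith)
  simpa using h

theorem log_low (j : ℕ) (hj : 1 ≤ j) (hj2 : j < 2 ^ 20) (v : ℤ) (h : lnA j = v) :
    (v : ℝ) - 20000 ≤ 10 ^ 12 * Real.log j := by
  have := lnA_spec j hj hj2
  rw [abs_le, h] at this
  simp only [lnE] at this
  push_cast at this
  linarith [this.1]

theorem log_up (j : ℕ) (hj : 1 ≤ j) (hj2 : j < 2 ^ 20) (v : ℤ) (h : lnA j = v) :
    10 ^ 12 * Real.log j ≤ (v : ℝ) + 20000 := by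
  have := lnA_spec j hj hj2
  rw [abs_le, h] at this
  simp only [lnE] at this
  push_cast at this
  linarith [this.2]

end V2

theorem V2_lower : St_V2_lower := by
  intro w h0 h1
  have hE := V2.EF_bound w h0 h1
  have l2 := V2.log_low 2 (by norm_num) (by norm_num) 693147180560 (by decide +kernel)
  have l5 := V2.log_low 5 (by norm_num) (by norm_num) 1609437912428 (by decide +kernel)
  have l3 := V2.log_up 3 (by norm_num) (by norm_num) 1098612288761 (by decide +kernel)
  push_cast at l2 l5 l3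
  rw [V2.FN_eq]
  linarith

end Pool.Agent.Dim7
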