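import Pool.Agent.Dim7.Iface

/-!
# Classes with two poles, part A (port of D9/TwoA): p-integral polynomials, the levels `b_l`, expansions of `1/(t+s)`
-/

open Polynomial Pool.Agent.H337R2

namespace Pool.Agent.Dim7.Two

noncomputable section

section IPdef

variable {p : ℕ} [hp : Fact p.Prime]

/-- p-integral polynomials -/
def IP (p : ℕ) [hp : Fact p.Prime] : Subring ℚ[X] where
  carrier := {f | ∀ j, padicNorm p (f.coeff j) ≤ 1}
  mul_mem' := by
    intro f g hf hg j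
    rw [Polynomial.coeff_mul]
    apply padicNorm.sum_le' _ zero_le_one
    intro x _
    rw [padicNorm.mul]
    exact mul_le_one₀ (hf _) (padicNorm.nonneg _) (hg _)
  one_mem' := by
    intro j
    rw [Polynomial.coeff_one]
    split_ifs <;> simp
  add_mem' := by
    intro f g hf hg j
    rw [Polynomial.coeff_add]
    exact (padicNorm.nonarchimedean).trans (max_le (hf _) (hg _))
  zero_mem' := by intro j; simp
  neg_mem' := by
    intro f hf j
    rw [Polynomial.coeff_neg, padicNorm.neg]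
    exact hf j

lemma mem_IP {f : ℚ[X]} : f ∈ IP p ↔ ∀ j, padicNorm p (f.coeff j) ≤ 1 := Iff.rfl

lemma C_mem {a : ℚ} (ha : padicNorm p a ≤ 1) : (C a : ℚ[X]) ∈ IP p := by
  intro j
  rw [Polynomial.coeff_C]
  split_ifs
  · exact ha
  · rw [padicNorm.zero]; exact zero_le_one

lemma X_mem : (X : ℚ[X]) ∈ IP p := by
  intro j
  rw [Polynomial.coeff_X]
  split_ifs <;> simp

lemma XC_mem (a : ℤ) : (X + C (a : ℚ) : ℚ[X]) ∈ IP p := add_mem X_mem (C_mem (padicNorm.of_int _))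

lemma norm_pow_le {x : ℚ} (hx : padicNorm p x ≤ 1) (k : ℕ) : padicNorm p (x ^ k) ≤ 1 := by
  induction k with
  | zero => simp
  | succ k ih => rw [pow_succ, padicNorm.mul]; exact mul_le_one₀ ih (padicNorm.nonneg _) hx

/-- division by a linear factor -/
lemma divide (a : ℤ) {f : ℚ[X]} (hf : f ∈ IP p) :
    ∃ c : ℚ, padicNorm p c ≤ 1 ∧ ∃ g ∈ IP p, f = C c + (X + C (a : ℚ)) * g := by
  have ha : padicNorm p (-(a : ℚ)) ≤ 1 := by rw [padicNorm.neg]; exact padicNorm.of_int _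
  refine ⟨∑ j ∈ Finset.range (f.natDegree + 1), f.coeff j * (-(a : ℚ)) ^ j, ?_,
    ∑ j ∈ Finset.range (f.natDegree + 1), C (f.coeff j) *
      ∑ i ∈ Finset.range j, X ^ i * (C (-(a : ℚ))) ^ (j - 1 - i), ?_, ?_⟩
  · apply padicNorm.sum_le' _ zero_le_one
    intro j _
    rw [padicNorm.mul]
    exact mul_le_one₀ (hf j) (padicNorm.nonneg _) (norm_pow_le ha j)
  · refine sum_mem fun j _ => mul_mem (C_mem (hf j)) (sum_mem fun i _ => ?_)
    exact mul_mem (pow_mem X_mem _) (pow_mem (C_mem ha) _)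
  · conv_lhs => rw [f.as_sum_range_C_mul_X_pow]
    rw [map_sum, Finset.mul_sum, ← Finset.sum_add_distrib]
    refine Finset.sum_congr rfl fun j _ => ?_
    have h := (Commute.all (X : ℚ[X]) (C (-(a : ℚ)))).geom_sum₂_mul j
    have h2 : (X + C (a : ℚ) : ℚ[X]) = X - C (-(a : ℚ)) := by rw [map_neg]; ring
    rw [map_mul, map_pow, h2]
    linear_combination -(C (f.coeff j)) * h

/-- the linear factor at the site `-k` -/
def sit (k : ℕ) : ℚ[X] := X + C (k : ℚ)

lemma sit_mem (k : ℕ) : sit k ∈ IP p := by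
  have := XC_mem (p := p) (k : ℤ)
  simpa [sit] using this

/-- the levels -/
def bl (a b l : ℕ) : ℚ[X] := (sit b * sit a) ^ (l / 2) * sit b ^ (l % 2)

lemma bl_succ (a b l : ℕ) : bl a b (l + 1) = bl a b l * (if l % 2 = 0 then sit b else sit a) := by
  unfold bl
  rcases Nat.even_or_odd' l with ⟨c, rfl | rfl⟩
  · rw [if_pos (by omega), show (2 * c + 1) / 2 = c by omega, show (2 * c + 1) % 2 = 1 by omega,
      show 2 * c / 2 = c by omega, show 2 * c % 2 = 0 by omega]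
    ring
  · rw [if_neg (by omega), show (2 * c + 1 + 1) / 2 = c + 1 by omega,
      show (2 * c + 1 + 1) % 2 = 0 by omega, show (2 * c + 1) / 2 = c by omega,
      show (2 * c + 1) % 2 = 1 by omega]
    ring

theorem rep (a b : ℕ) {f : ℚ[X]} (hf : f ∈ IP p) (N : ℕ) : ∃ u : ℕ → ℚ, (∀ l, padicNorm p (u l) ≤ 1) ∧
    ∃ H ∈ IP p, f = ∑ l ∈ Finset.range N, C (u l) * bl a b l + bl a b N * H := by
  induction N with
  | zero => exact ⟨fun _ => 0, by simp, f, hf, by simp [bl]⟩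
  | succ N ih =>
    obtain ⟨u, hu, H, hH, e⟩ := ih
    obtain ⟨c, hc, g, hg, e2⟩ := divide (p := p) (if N % 2 = 0 then (b : ℤ) else a) hH
    refine ⟨Function.update u N c, ?_, g, hg, ?_⟩
    · intro l
      by_cases h : l = N
      · rw [h, Function.update_self]; exact hc
      · rw [Function.update_of_ne h]; exact hu l
    · rw [Finset.sum_range_succ, Function.update_self, bl_succ]
      have e3 : ∑ x ∈ Finset.range N, C (Function.update u N c x) * bl a b x =
          ∑ x ∈ Finset.range N, C (u x) * bl a b x := by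
        refine Finset.sum_congr rfl fun x hx => ?_
        rw [Function.update_of_ne (Finset.mem_range.1 hx).ne]
      rw [e3]
      have e4 : (X + C (((if N % 2 = 0 then (b : ℤ) else a : ℤ)) : ℚ) : ℚ[X]) =
          if N % 2 = 0 then sit b else sit a := by
        split_ifs <;> simp [sit]
      rw [e4] at e2
      conv_lhs => rw [e, e2]
      ring

end IPdef

/-! ### expansions -/

/-- expansion of `1/(ε - c)` at `-k` up to order 8 -/
def Es (k : ℕ) (c : ℚ) : ℚ[X] := -(C c⁻¹ * ∑ i ∈ Finset.range 8, (C c⁻¹ * sit k) ^ i)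

lemma Es_mul (k : ℕ) {c : ℚ} (hc : c ≠ 0) : (sit k - C c) * Es k c = 1 - (C c⁻¹ * sit k) ^ 8 := by
  have h := geom_sum_mul (C c⁻¹ * sit k) 8
  have h2 : C c⁻¹ * (sit k - C c) = C c⁻¹ * sit k - 1 := by
    rw [mul_sub, ← C_mul, inv_mul_cancel₀ hc, C_1]
  unfold Es
  linear_combination (-(∑ i ∈ Finset.range 8, (C c⁻¹ * sit k) ^ i)) * h2 - h

/-- the unit `(s-a)(s-b)` -/
def ww (a b s : ℕ) : ℚ := ((s : ℚ) - b) * (s - a)

/-- inverse of `t + s` modulo `T^8` -/
def io (a b s : ℕ) : ℚ[X] := -((X + C ((a : ℚ) + b - s)) *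
  (C (ww a b s)⁻¹ * ∑ j ∈ Finset.range 8, (C (ww a b s)⁻¹ * (sit b * sit a)) ^ j))

lemma ww_ne {a b s : ℕ} (h1 : s ≠ a) (h2 : s ≠ b) : ww a b s ≠ 0 := by
  unfold ww
  refine mul_ne_zero ?_ ?_
  · intro h; apply h2; have : (s : ℚ) = b := by linarith
    exact_mod_cast this
  · intro h; apply h1; have : (s : ℚ) = a := by linarith
    exact_mod_cast this

lemma io_mul {a b s : ℕ} (h1 : s ≠ a) (h2 : s ≠ b) :
    sit s * io a b s = 1 - (C (ww a b s)⁻¹ * (sit b * sit a)) ^ 8 := by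
  have h := geom_sum_mul (C (ww a b s)⁻¹ * (sit b * sit a)) 8
  have h3 : sit s * (X + C ((a : ℚ) + b - s)) = sit b * sit a - C (ww a b s) := by
    unfold sit ww
    simp only [map_mul, map_sub, map_add]
    ring
  have h4 : C (ww a b s)⁻¹ * (sit b * sit a - C (ww a b s)) = C (ww a b s)⁻¹ * (sit b * sit a) - 1 := by
    rw [mul_sub, ← C_mul, inv_mul_cancel₀ (ww_ne h1 h2), C_1]
  unfold io
  linear_combination (-(C (ww a b s)⁻¹ * ∑ j ∈ Finset.range 8, (C (ww a b s)⁻¹ * (sit b * sit a)) ^ j)) * h3 -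
    (∑ j ∈ Finset.range 8, (C (ww a b s)⁻¹ * (sit b * sit a)) ^ j) * h4 - h

lemma io_mem {p : ℕ} [hp : Fact p.Prime] {a b s : ℕ} (h : padicNorm p (ww a b s)⁻¹ ≤ 1) : io a b s ∈ IP p := by
  unfold io
  have h1 : (X + C ((a : ℚ) + b - s) : ℚ[X]) ∈ IP p := by
    have := XC_mem (p := p) ((a : ℤ) + b - s)
    simpa using this
  have h2 : C (ww a b s)⁻¹ * (sit b * sit a) ∈ IP p := mul_mem (C_mem h) (mul_mem (sit_mem _) (sit_mem _))
  exact neg_mem (mul_mem h1 (mul_mem (C_mem h) (sum_mem fun j _ => pow_mem h2 _)))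

/-- the even polynomial of the `v i` -/
def vh (v : ℕ → ℚ) (z : ℚ[X]) : ℚ[X] := ∑ j ∈ Finset.range 4, C (2 * v (2 * j + 1)) * (z ^ 2) ^ j

/-- divided difference -/
def vc (v : ℕ → ℚ) (z y : ℚ[X]) : ℚ[X] :=
  ∑ j ∈ Finset.range 4, C (2 * v (2 * j + 1)) * ∑ i ∈ Finset.range j, (z ^ 2) ^ i * (y ^ 2) ^ (j - 1 - i)

lemma vc_mul (v : ℕ → ℚ) (z y : ℚ[X]) : vc v z y * (z ^ 2 - y ^ 2) = vh v z - vh v y := by
  unfold vc vh
  rw [Finset.sum_mul, ← Finset.sum_sub_distrib]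
  refine Finset.sum_congr rfl fun j _ => ?_
  have h := (Commute.all (z ^ 2) (y ^ 2)).geom_sum₂_mul j
  linear_combination (C (2 * v (2 * j + 1))) * h

/-- the weights -/
def Om (n : ℕ) (u : ℚ) (v : ℕ → ℚ) (k : ℕ) : ℚ[X] :=
  C u * ∑ s ∈ (sM n).erase k, (if s < k then Es k ((k : ℚ) - s) else -Es k ((k : ℚ) - s)) + vh v (sit k)

/-- the other sites -/
def rst (n a b : ℕ) : Finset ℕ := ((sM n).erase a).erase b

def Gp (n a b : ℕ) : ℚ[X] := ∑ s ∈ rst n a b, (if s < a then io a b s else if b < s then -io a b s else 0)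

def Mp (a b : ℕ) : ℚ[X] := ∑ s ∈ Finset.Ioo a b, io a b s

def Hp (a b : ℕ) : ℚ[X] := ∑ s ∈ Finset.Ioo a b, io a b s * io a b (a + b - s)

/-- the common multiplier of the generator -/
def WW (p : ℕ) (u : ℚ) (v : ℕ → ℚ) (a b : ℕ) : ℚ[X] :=
  C u * (1 + (sit b * sit a) * Hp a b) + C (p : ℚ) * vc v (sit b) (sit a) * (sit b * sit a)

lemma WW_zero_left (p : ℕ) (v : ℕ → ℚ) (a b : ℕ) :
    WW p 0 v a b = C (p : ℚ) * (vc v (sit b) (sit a) * (sit b * sit a)) := by
  unfold WW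
  rw [C_0]
  ring

/-- the common flat multiplier -/
def YY (p n : ℕ) (u : ℚ) (v : ℕ → ℚ) (a b : ℕ) : ℚ[X] :=
  C u * (Gp n a b + Mp a b - sit b * Hp a b) + vh v (sit b) - C (p : ℚ) * vc v (sit b) (sit a) * sit b

lemma dvd_of_pi {r f g : ℚ[X]}
    (h : Ideal.Quotient.mk (Ideal.span {r}) f = Ideal.Quotient.mk (Ideal.span {r}) g) : r ∣ f - g := by
  rwa [Ideal.Quotient.eq, Ideal.mem_span_singleton] at h

lemma pi_eq {r f g : ℚ[X]} (h : r ∣ f - g) :
    Ideal.Quotient.mk (Ideal.span {r}) f = Ideal.Quotient.mk (Ideal.span {r}) g := by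
  rwa [Ideal.Quotient.eq, Ideal.mem_span_singleton]

/-- both expansions of `1/(t+s)` agree -/
lemma Es_io {a b s k : ℕ} (hk : k = a ∨ k = b) (h1 : s ≠ a) (h2 : s ≠ b) :
    Ideal.Quotient.mk (Ideal.span {sit k ^ 8}) (Es k ((k : ℚ) - s)) =
      Ideal.Quotient.mk (Ideal.span {sit k ^ 8}) (io a b s) := by
  set π := Ideal.Quotient.mk (Ideal.span {sit k ^ 8}) with hπ
  have hks : ((k : ℚ) - s) ≠ 0 := by
    intro h
    have : (k : ℚ) = s := by linarith
    have h3 : k = s := by exact_mod_cast this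
    rcases hk with h | h <;> omega
  have e1 : (sit k - C ((k : ℚ) - s)) = sit s := by
    unfold sit; rw [map_sub]; ring
  have f1 : π (sit s * Es k ((k : ℚ) - s)) = π 1 := by
    apply pi_eq
    rw [← e1, Es_mul k hks]
    exact ⟨-(C ((k : ℚ) - s)⁻¹) ^ 8, by ring⟩
  have f2 : π (sit s * io a b s) = π 1 := by
    apply pi_eq
    rw [io_mul h1 h2]
    rcases hk with h | h
    · subst h; exact ⟨-(C (ww k b s)⁻¹ * sit b) ^ 8, by ring⟩
    · subst h; exact ⟨-(C (ww a k s)⁻¹ * sit a) ^ 8, by ring⟩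
  rw [map_mul, map_one] at f1 f2
  linear_combination π (io a b s) * f1 - π (Es k ((k : ℚ) - s)) * f2

lemma Hp_mul (a b : ℕ) {k : ℕ} (hk : k = a ∨ k = b) :
    Ideal.Quotient.mk (Ideal.span {sit k ^ 8}) ((sit b + sit a) * Hp a b) =
      Ideal.Quotient.mk (Ideal.span {sit k ^ 8}) (2 * Mp a b) := by
  set π := Ideal.Quotient.mk (Ideal.span {sit k ^ 8}) with hπ
  have f2 : ∀ s ∈ Finset.Ioo a b, π (sit s * io a b s) = π 1 := by
    intro s hs
    rw [Finset.mem_Ioo] at hs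
    apply pi_eq
    rw [io_mul (by omega) (by omega)]
    rcases hk with h | h
    · subst h; exact ⟨-(C (ww k b s)⁻¹ * sit b) ^ 8, by ring⟩
    · subst h; exact ⟨-(C (ww a k s)⁻¹ * sit a) ^ 8, by ring⟩
  have f4 : Mp a b = ∑ s ∈ Finset.Ioo a b, io a b (a + b - s) := by
    unfold Mp
    refine Finset.sum_nbij' (fun s => a + b - s) (fun s => a + b - s) ?_ ?_ ?_ ?_ ?_
    · intro s hs; rw [Finset.mem_Ioo] at hs ⊢; omega
    · intro s hs; rw [Finset.mem_Ioo] at hs ⊢; omega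
    · intro s hs; rw [Finset.mem_Ioo] at hs; omega
    · intro s hs; rw [Finset.mem_Ioo] at hs; omega
    · intro s hs
      rw [Finset.mem_Ioo] at hs
      rw [show a + b - (a + b - s) = s by omega]
  have f5 : Mp a b = ∑ s ∈ Finset.Ioo a b, io a b s := rfl
  have f3 : (2 * Mp a b : ℚ[X]) = ∑ s ∈ Finset.Ioo a b, (io a b (a + b - s) + io a b s) := by
    rw [Finset.sum_add_distrib, ← f4, ← f5, two_mul]
  rw [f3]
  unfold Hp
  rw [Finset.mul_sum, map_sum, map_sum]
  refine Finset.sum_congr rfl fun s hs => ?_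
  have g1 := f2 s hs
  have g2 := f2 (a + b - s) (by rw [Finset.mem_Ioo] at hs ⊢; omega)
  have g3 : sit b + sit a = sit s + sit (a + b - s) := by
    rw [Finset.mem_Ioo] at hs
    unfold sit
    rw [Nat.cast_sub (by omega)]
    simp only [map_sub, Nat.cast_add, map_add]
    ring
  rw [g3]
  simp only [map_mul, map_add, map_one] at g1 g2 ⊢
  linear_combination π (io a b (a + b - s)) * g1 + π (io a b s) * g2

end

end Pool.Agent.Dim7.Two
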